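import Pool.Agent.Helper76.IP.P4Alg

/-!
TH-P (MP_d2f54f_al), diagonal branch, piece P4, for a `GForm`.
-/

namespace Pool.Agent.Helper76.IP

open Pool.Agent.Helper54.IP Pool.Agent.Helper16.IP

variable {F : Type*} [Field F]

/-- the scalar form of P4 -/
theorem p4_scalar {a b c d x y al de G3 H3 G4 H4 G23 H23 G24 H24 : F}
    (a0 : a ≠ 0) (b0 : b ≠ 0) (c0 : c ≠ 0) (ha1 : a - 1 ≠ 0) (hb1 : b - 1 ≠ 0)
    (hab : a - b ≠ 0) (hs : a + b ≠ 0) (hbc : b - c ≠ 0) (hc : a * b - c ≠ 0)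
    (hx0 : x ≠ 0) (hy0 : y ≠ 0) (hx : x * pW a b c = pX a b c) (hy : y * pW a b c = pY a b c)
    (hW : pW a b c ≠ 0) (hAl : al * ((a - 1) * (-a^3*b*c + a^3*c + a^2*b^2*c - a^2*b*c - a^2*b + a^2*c + a*b^2*c - a*b*c^2 - a*b*c + a*c + b^2*c - b*c)) = -((b - 1) * (a - b) * (a * b - c)))
    (hda : b * de = a ^ 2 * c * al)
    (r3 : G3 = 1 - x + x * c) (r3' : c * H3 = (1 - y) * c + y)
    (r4 : G4 = 1 - x + x * d) (r4' : d * H4 = (1 - y) * d + y)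
    (p3 : G23 = c * (al * G3 + (1 - al) * H3)) (p3' : c * H23 = (1 - de) * G3 + de * H3)
    (p4 : G24 = d * (al * G4 + (1 - al) * H4)) (p4' : d * H24 = (1 - de) * G4 + de * H4)
    (h4 : c * b = a * d)
    (P : (a * G3 - G4) * (b * G23 - b ^ 3 * H23) = (b * G23 - G24) * (a * G3 - a ^ 3 * H3))
    (Q : (a * G3 - a ^ 4 * H4) * (b * G23 - b ^ 3 * H23) =
      (b * G23 - b ^ 4 * H24) * (a * G3 - a ^ 3 * H3))
    (l8 : (-a^3*b*c + a^3*b + a^3*c - a^2*b*c - a*b*c + b^2*c + b*c^2 - b*c) ≠ 0) : False := by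
  have eK2 : a * c * (b * G23 - b ^ 3 * H23) = b * (a * c ^ 2 * (al * G3 +
      (1 - al) * H3) - a * b ^ 2 * G3 + a ^ 3 * b * c * al * (G3 - H3)) := by
    linear_combination (a * b * c) * p3 - a * b ^ 3 * p3' + a * b ^ 2 * (G3 - H3) * hda
  have eG : a * c * (b * G23 - G24) = b * (a * c ^ 2 * (al * G3 +
      (1 - al) * H3) - c ^ 2 * (al * G4 + (1 - al) * H4)) := by
    linear_combination (a * b * c) * p3 - a * c * p4 + c * (al * G4 + (1 - al) * H4) * h4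
  have eH : a * c * (b * G23 - b ^ 4 * H24) = b * (a * c ^ 2 * (al * G3 +
      (1 - al) * H3) - a ^ 2 * b ^ 2 * G4 +
      a ^ 4 * b * c * al * (G4 - H4)) := by
    linear_combination (a * b * c) * p3 - a * b ^ 3 * H24 * h4 - a ^ 2 * b ^ 3 * p4' +
      a ^ 2 * b ^ 2 * (G4 - H4) * hda
  have hP : (a * G3 - G4) * (a * c ^ 2 * (al * G3 + (1 - al) * H3) -
      a * b ^ 2 * G3 + a ^ 3 * b * c * al * (G3 - H3)) =
      (a * c ^ 2 * (al * G3 + (1 - al) * H3) - c ^ 2 * (al * G4 +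
        (1 - al) * H4)) * (a * G3 - a ^ 3 * H3) := by
    apply mul_left_cancel₀ b0
    linear_combination a * c * P - (a * G3 - G4) * eK2 +
      (a * G3 - a ^ 3 * H3) * eG
  have hQ : (a * G3 - a ^ 4 * H4) * (a * c ^ 2 * (al * G3 + (1 - al) * H3) -
      a * b ^ 2 * G3 + a ^ 3 * b * c * al * (G3 - H3)) =
      (a * c ^ 2 * (al * G3 + (1 - al) * H3) - a ^ 2 * b ^ 2 * G4 +
        a ^ 4 * b * c * al * (G4 - H4)) * (a * G3 - a ^ 3 * H3) := by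
    apply mul_left_cancel₀ b0
    linear_combination a * c * Q - (a * G3 - a ^ 4 * H4) * eK2 +
      (a * G3 - a ^ 3 * H3) * eH
  have f3 : pW a b c * G3 = pW a b c - pX a b c + pX a b c * c := by
    rw [← hx]
    linear_combination pW a b c * r3
  have f3' : pW a b c * (c * H3) = (pW a b c - pY a b c) * c + pY a b c := by
    rw [← hy]
    linear_combination pW a b c * r3'
  have f4 : pW a b c * (a * G4) = (pW a b c - pX a b c) * a + pX a b c * (b * c) := by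
    rw [← hx]
    linear_combination pW a b c * a * r4 - pW a b c * x * h4
  have f4' : pW a b c * (b * c * H4) = (pW a b c - pY a b c) * (b * c) + pY a b c * a := by
    rw [← hy]
    linear_combination pW a b c * a * r4' +
      pW a b c * (H4 - (1 - y)) * h4
  have A := p4_P hAl f3 f3' f4 f4' hP
  have B := p4_Q hAl f3 f3' f4 f4' hQ
  rw [p4_fP rfl rfl rfl rfl rfl rfl] at A
  rw [p4_fQ rfl rfl rfl rfl rfl rfl] at B
  have n0 : (a - 1) * (b - 1) * (a - b) * (b - c) * (a * b - c) ≠ 0 :=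
    mul_ne_zero (mul_ne_zero (mul_ne_zero (mul_ne_zero ha1 hb1) hab) hbc) hc
  have hX : pX a b c ≠ 0 := by
    rw [← hx]
    exact mul_ne_zero hx0 hW
  have hY : pY a b c ≠ 0 := by
    rw [← hy]
    exact mul_ne_zero hy0 hW
  have A' : ((a - 1) * (b - 1) * (a - b) * (b - c) * (a * b - c)) * (a ^ 2 * c ^ 2) * pX a b c *
      (-a^3*b*c + a^3*b + a^3*c - a^2*b*c - a*b*c + b^2*c + b*c^2 - b*c) * (-a^3*b^3*c + a^3*b^3 + a^3*b^2*c^2 - a^3*b*c - a^3*c^2 - a^2*b^3*c + a^2*b^2*c^2 + a^2*b^2*c - a*b^3*c^2 + a*b^2*c^2 + a*b^2*c + a*b*c^3 - a*b*c^2 - b^3*c^2) = 0 := by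
    rw [← A]
    ring
  have B' : ((a - 1) * (b - 1) * (a - b) * (b - c) * (a * b - c)) * (a ^ 4 * c) * pY a b c *
      (-a^3*b*c + a^3*b + a^3*c - a^2*b*c - a*b*c + b^2*c + b*c^2 - b*c) * (-a^3*c - a^2*b^2*c + a^2*b^2 + a^2*b*c^2 + a^2*b*c - a^2*c + a*b*c^2 + a*b*c - a*c^2 - b^3*c - b^2*c^2 + b*c + c^3 - c^2) = 0 := by
    rw [← B]
    ring
  have C := (mul_eq_zero.1 A').resolve_left (mul_ne_zero (mul_ne_zero (mul_ne_zero n0
    (mul_ne_zero (pow_ne_zero _ a0) (pow_ne_zero _ c0))) hX) l8)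
  have D := (mul_eq_zero.1 B').resolve_left (mul_ne_zero (mul_ne_zero (mul_ne_zero n0
    (mul_ne_zero (pow_ne_zero _ a0) c0)) hY) l8)
  have f : (a * b - c) * (a + b) * c * (a - b) ^ 2 = 0 := by
    linear_combination C - a * b * D
  exact mul_ne_zero (mul_ne_zero (mul_ne_zero hc hs) c0) (pow_ne_zero _ hab) f

/-- P4: the O-state with a type 0 step at column 3 -/
theorem p4_dead {m : ℕ} (g : GForm F m) (hm : 4 ≤ m) (hD : g.G 1 1 ≠ g.H 1 1) (h1 : g.t 1 = g.s 1)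
    (h2 : g.t 2 = g.s 2) (hk : g.kap 1 2 ≠ 0) (hb : g.t 2 ≠ -g.t 1) (h3 : g.s 3 ≠ g.t 1 * g.t 2)
    (hL : LL (g.t 1) (g.t 2) (g.s 3) (1 - g.lam' 0) (g.mu' 0) = 0)
    (hT : TT (g.t 1) (g.t 2) (g.s 3) (1 - g.lam' 0) (g.mu' 0) = 0)
    (_hk3 : g.kap 1 3 ≠ 0) (h4 : g.s 3 * g.t 2 = g.t 1 * g.s 4) : False := by
  have a0 := g.t_ne 1 (by omega)
  have b0 := g.t_ne 2 (by omega)
  have c0 := g.s_ne 3 (by omega)
  have d0 := g.s_ne 4 (by omega)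
  have ha1 := t1_sub g (by omega)
  have hb1 := t2_sub g (by omega)
  have hab : g.t 1 - g.t 2 ≠ 0 := sub_ne_zero.2 (g.t_inj 1 2 (by omega) (by omega))
  have hs : g.t 1 + g.t 2 ≠ 0 := fun h => hb (by linear_combination h)
  have hbc : g.t 2 - g.s 3 ≠ 0 := by
    rw [h2]
    exact sub_ne_zero.2 (g.s_inj 2 3 (by omega) (by omega))
  have hc : g.t 1 * g.t 2 - g.s 3 ≠ 0 := sub_ne_zero.2 (fun h => h3 h.symm)
  have hx0 : 1 - g.lam' 0 ≠ 0 := sub_ne_zero.2 (g.lam'_ne 0 (by omega)).symm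
  have hy0 : g.mu' 0 ≠ 0 := g.mu'_ne 0 (by omega)
  have hx0' : g.lam 2 ≠ 1 := g.lam_ne 2 (by omega)
  have hal := al_eq g (by omega) h1
  have hde := de_eq g (by omega) h1
  have hax := axy_ne g (by omega) hD h1
  obtain ⟨hx, hy⟩ := pW_x hL hT
  have hW := p4_W ha1 hb1 hab hs hc hx hy
  have hAl := p4_al ha1 hs hx hy hal
  -- `b de = a^2 c al`
  have hda : g.t 2 * g.mu' 1 = g.t 1 ^ 2 * g.s 3 * (1 - g.lam' 1) := by
    rw [LL] at hL
    apply mul_left_cancel₀ (mul_ne_zero ha1 hax)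
    linear_combination hde - g.t 1 ^ 2 * g.s 3 * hal - g.t 1 * hL
  have r2 := g.row1G (k := 2) (by omega) (by omega)
  have r2' := g.row1H (k := 2) (by omega) (by omega)
  have r3 := g.row1G (k := 3) (by omega) (by omega)
  have r3' := g.row1H (k := 3) (by omega) (by omega)
  have r4 := g.row1G (k := 4) (by omega) (by omega)
  have r4' := g.row1H (k := 4) (by omega) (by omega)
  have p3 := g.row2G (k := 3) (by omega) (by omega)
  have p3' := g.row2H (k := 3) (by omega) (by omega)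
  have p4 := g.row2G (k := 4) (by omega) (by omega)
  have p4' := g.row2H (k := 4) (by omega) (by omega)
  have u0 := g.G_succ (j := 1) (k := 2) (by omega) (by omega)
  have u1 := g.G_succ (j := 1) (k := 3) (by omega) (by omega)
  have u2 := g.H_succ (j := 1) (k := 3) (by omega) (by omega)
  have u3 := g.G_succ (j := 2) (k := 3) (by omega) (by omega)
  have u4 := g.H_succ (j := 2) (k := 3) (by omega) (by omega)
  rw [← h2] at r2 r2'
  simp only [GForm.kap, Nat.reduceAdd] at u0 u1 u2 u3 u4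
  have P : (g.t 1 * g.G 1 3 - g.G 1 4) * (g.t 2 * g.G 2 3 - g.t 2 ^ 3 * g.H 2 3) =
      (g.t 2 * g.G 2 3 - g.G 2 4) * (g.t 1 * g.G 1 3 - g.t 1 ^ 3 * g.H 1 3) := by
    rw [u1, u3]
    ring
  have Q : (g.t 1 * g.G 1 3 - g.t 1 ^ 4 * g.H 1 4) * (g.t 2 * g.G 2 3 - g.t 2 ^ 3 * g.H 2 3) =
      (g.t 2 * g.G 2 3 - g.t 2 ^ 4 * g.H 2 4) * (g.t 1 * g.G 1 3 - g.t 1 ^ 3 * g.H 1 3) := by
    rw [u2, u4]
    ring
  -- `L8 ≠ 0`
  have l8 : (-g.t 1 ^3*g.t 2*g.s 3 + g.t 1 ^3*g.t 2 + g.t 1 ^3*g.s 3 - g.t 1 ^2*g.t 2*g.s 3 - g.t 1*g.t 2*g.s 3 + g.t 2 ^2*g.s 3 + g.t 2*g.s 3 ^2 - g.t 2*g.s 3) ≠ 0 := by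
    intro h
    apply hk
    have e1 : g.t 2 * pW (g.t 1) (g.t 2) (g.s 3) * (g.G 1 3 - g.t 1 ^ 2 * g.H 1 2) =
        g.t 1 * (g.t 1 - 1) * (g.t 2 - g.s 3) * (-g.t 1 ^3*g.t 2*g.s 3 + g.t 1 ^3*g.t 2 + g.t 1 ^3*g.s 3 - g.t 1 ^2*g.t 2*g.s 3 - g.t 1*g.t 2*g.s 3 + g.t 2 ^2*g.s 3 + g.t 2*g.s 3 ^2 - g.t 2*g.s 3) := by
      have e2 : pW (g.t 1) (g.t 2) (g.s 3) * g.G 1 3 = pW (g.t 1) (g.t 2) (g.s 3) -
          pX (g.t 1) (g.t 2) (g.s 3) + pX (g.t 1) (g.t 2) (g.s 3) * g.s 3 := by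
        rw [← hx]
        linear_combination pW (g.t 1) (g.t 2) (g.s 3) * r3
      have e3 : pW (g.t 1) (g.t 2) (g.s 3) * (g.t 2 * g.H 1 2) = (pW (g.t 1) (g.t 2) (g.s 3) -
          pY (g.t 1) (g.t 2) (g.s 3)) * g.t 2 + pY (g.t 1) (g.t 2) (g.s 3) := by
        rw [← hy]
        linear_combination pW (g.t 1) (g.t 2) (g.s 3) * r2'
      have e4 : g.t 2 * (pW (g.t 1) (g.t 2) (g.s 3) * g.G 1 3) -
          g.t 1 ^ 2 * (pW (g.t 1) (g.t 2) (g.s 3) * (g.t 2 * g.H 1 2)) =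
          g.t 1 * (g.t 1 - 1) * (g.t 2 - g.s 3) * (-g.t 1 ^3*g.t 2*g.s 3 + g.t 1 ^3*g.t 2 + g.t 1 ^3*g.s 3 - g.t 1 ^2*g.t 2*g.s 3 - g.t 1*g.t 2*g.s 3 + g.t 2 ^2*g.s 3 + g.t 2*g.s 3 ^2 - g.t 2*g.s 3) := by
        rw [e2, e3, pW, pX, pY]
        ring
      linear_combination e4
    rw [h, mul_zero] at e1
    have e5 := (mul_eq_zero.1 e1).resolve_left (mul_ne_zero b0 hW)
    have e6 : (1 - g.lam 2) * g.kap 1 2 = 0 := by
      rw [GForm.kap]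
      linear_combination e5 - u0
    exact (mul_eq_zero.1 e6).resolve_left (sub_ne_zero.2 hx0'.symm)
  refine p4_scalar (x := 1 - g.lam' 0) (y := g.mu' 0) (al := 1 - g.lam' 1) (de := g.mu' 1)
    a0 b0 c0 ha1 hb1 hab hs hbc hc hx0 hy0 hx hy hW hAl hda ?_ r3' ?_ r4' ?_ p3' ?_ p4' h4 P Q l8
  · linear_combination r3
  · linear_combination r4
  · linear_combination p3
  · linear_combination p4

end Pool.Agent.Helper76.IP
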