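import Pool.Agent.Helper76.IP.K2CellAlg

/-!
TH-P, N branch, K2: the divisibility relations `dg2`, `dh2` in the cell `t_3 s_1 = s_2 t_1`.
-/

namespace Pool.Agent.Helper76.IP

variable {F : Type*} [Field F]

private theorem cancel {a b : F} (ha : a ≠ 0) (h : a * b = 0) : b = 0 :=
  (mul_eq_zero.1 h).resolve_left ha

/-- the products in dg2 and dh2 -/
theorem k2_prod1 {t T t3 u S v d n : F}
    (hS : S = v * T) (hd : d = v + 1 - S) (hn : n = S * (v + 1) - v) (R : t * d = n)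
    (h3 : t3 * u = S * t) :
    d ^ 3 * u ^ 3 * v ^ 2 * (((t3 - 1) * (t3 - t) * (t3 - T)) * ((S - 1) * (S - u))) =
      (t * v - u) * (S - 1) * ((S * n - u * d) * n * d * S * v * (S - u) ^ 2) ∧
    d ^ 3 * v ^ 2 * (((t * v - 1) * (t * v - u) * (t * v - S)) * ((T - 1) * (T - t))) =
      -((t * v - u) * (S - 1) * ((v ^ 2 + v + 1) * (S - 1) ^ 2 * (S + v ^ 2) ^ 2 * (S - v))) := by
  have g1 : u * (t3 - t) = t * (S - u) := by linear_combination h3
  have g2 : u * v * (t3 - T) = S * (t * v - u) := by linear_combination v * h3 + u * hS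
  have g3 : u * d * (t3 - 1) = S * n - u * d := by linear_combination d * h3 + S * R
  have g4 : d * (t * v - 1) = (S - 1) * (v ^ 2 + v + 1) := by
    linear_combination v * R - hd + v * hn
  have g5 : d * (t * v - S) = (S - 1) * (S + v ^ 2) := by
    linear_combination v * R - S * hd + v * hn
  have g6 : d * (v * (T - t)) = -((S - 1) * (S + v ^ 2)) := by
    rw [← g5]
    linear_combination -d * hS
  have g7 : v * (T - 1) = S - v := by linear_combination -hS
  constructor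
  · calc _ = (u * d * (t3 - 1)) * (u * (t3 - t)) * (u * v * (t3 - T)) * d ^ 2 * v
          * ((S - 1) * (S - u)) := by ring
      _ = (S * n - u * d) * (t * (S - u)) * (S * (t * v - u)) * d ^ 2 * v
          * ((S - 1) * (S - u)) := by rw [g1, g2, g3]
      _ = _ := by
        linear_combination (S * n - u * d) * (S - u) * (S * (t * v - u)) * d * v
          * ((S - 1) * (S - u)) * R
  · calc _ = (d * (t * v - 1)) * (t * v - u) * (d * (t * v - S)) * (v * (T - 1))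
          * (d * (v * (T - t))) := by ring
      _ = _ := by rw [g4, g5, g6, g7]; ring

/-- K2, `t_3 s_1 = s_2 t_1`: EG and EH -/
theorem k2_EGH {t T t3 u S v d n X X' Y Y' : F} (ht : t ≠ 0) (hS0 : S ≠ 0) (hv : v ≠ 0)
    (hS1 : S - 1 ≠ 0) (htvu : t * v - u ≠ 0) (hq : S + v ^ 2 ≠ 0)
    (hS : S = v * T) (hd : d = v + 1 - S) (hn : n = S * (v + 1) - v) (R : t * d = n)
    (h3 : t3 * u = S * t)
    (F1 : X * (S * d ^ 2 * (v - 1) * (u - S)) =
      (v ^ 2 + S) * (v ^ 2 * (S * v + 1) - (u + v) * d ^ 2))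
    (F2 : Y * (v ^ 2 * n ^ 2 * (v - 1) * (u - S)) =
      S * (v ^ 2 + S) * (u * S * (S * v + 1) - (u + v) * n ^ 2))
    (F3 : X' * (u * (1 - v) * (S + v ^ 2)) = v * (t3 - n + u * (d - v ^ 2)))
    (F4 : Y' * ((v - 1) * (S + v ^ 2) * t3) =
      u * S * v ^ 2 + t3 * (v * n - S - u * v * d))
    (dg : X * ((t3 - 1) * (t3 - t) * (t3 - T)) * ((S - 1) * (S - u)) =
      X' * ((t * v - 1) * (t * v - u) * (t * v - S)) * ((T - 1) * (T - t)))
    (dh : Y * ((t3 - 1) * (t3 - t) * (t3 - T)) * ((S - 1) * (S - u)) * ((t * v) ^ 3 * T) =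
      Y' * ((t * v - 1) * (t * v - u) * (t * v - S)) * ((T - 1) * (T - t)) * (t3 ^ 3 * S)) :
    (v ^ 2 * (S * v + 1) - (u + v) * d ^ 2) * n * (S * n - u * d) * (S - u)
      + u * (S * n - u * n * d + u ^ 2 * d * (d - v ^ 2)) * (S - 1) ^ 2 * (v ^ 2 + v + 1)
        * (S - v) = 0 ∧
    v * d * (u * S * (S * v + 1) - (u + v) * n ^ 2) * (S * n - u * d) * (S - u)
      - S * (u ^ 2 * v ^ 2 * d + n * (v * n - S) - u * v * d * n) * (S - 1) ^ 2 * (v ^ 2 + v + 1)
        * (S - v) = 0 := by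
  obtain ⟨pL, pR⟩ := k2_prod1 (t3 := t3) hS hd hn R h3
  have g3 : u * d * t3 = S * n := by linear_combination d * h3 + S * R
  have hK : (t * v - u) * (S - 1) ≠ 0 := mul_ne_zero htvu hS1
  have c1 : X * ((S * n - u * d) * n * d * S * v * (S - u) ^ 2) =
      -(X' * u ^ 3 * ((v ^ 2 + v + 1) * (S - 1) ^ 2 * (S + v ^ 2) ^ 2 * (S - v))) := by
    refine sub_eq_zero.1 (cancel hK ?_)
    linear_combination (-X) * pL + X' * u ^ 3 * pR + d ^ 3 * u ^ 3 * v ^ 2 * dg
  constructor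
  · refine cancel (mul_ne_zero hv hq) ?_
    linear_combination (-(v - 1)) * d * c1 - v * n * (S * n - u * d) * (S - u) * F1
      - u ^ 2 * d * ((v ^ 2 + v + 1) * (S - 1) ^ 2 * (S + v ^ 2) * (S - v)) * F3
      - u * v * ((v ^ 2 + v + 1) * (S - 1) ^ 2 * (S + v ^ 2) * (S - v)) * g3
  · have c2 : Y * (v ^ 3 * n * d * (S * n - u * d) * (S - u) ^ 2) =
        -(Y' * S ^ 2 * ((v ^ 2 + v + 1) * (S - 1) ^ 2 * (S + v ^ 2) ^ 2 * (S - v))) := by
      refine sub_eq_zero.1 (cancel (mul_ne_zero hK (mul_ne_zero (pow_ne_zero 3 ht)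
        (pow_ne_zero 2 hS0))) ?_)
      linear_combination (-Y) * ((t * v) ^ 3 * T) * pL + Y' * t3 ^ 3 * S * u ^ 3 * pR
        + d ^ 3 * u ^ 3 * v ^ 2 * dh
        + Y * ((t * v - u) * (S - 1)) * ((S * n - u * d) * n * d * S * v * (S - u) ^ 2)
          * (t ^ 3 * v ^ 2) * hS
        - Y' * ((t * v - u) * (S - 1)) * S
          * ((v ^ 2 + v + 1) * (S - 1) ^ 2 * (S + v ^ 2) ^ 2 * (S - v))
          * ((t3 * u) ^ 2 + t3 * u * (S * t) + (S * t) ^ 2) * h3
    refine cancel (mul_ne_zero hS0 hq) ?_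
    linear_combination (-n) * (v - 1) * c2 - v * d * (S * n - u * d) * (S - u) * F2
      + S * ((v ^ 2 + v + 1) * (S - 1) ^ 2 * (S + v ^ 2) * (S - v)) * (u * d) * F4
      - S * ((v ^ 2 + v + 1) * (S - 1) ^ 2 * (S + v ^ 2) * (S - v))
        * (Y' * (v - 1) * (S + v ^ 2) - (v * n - S - u * v * d)) * g3

end Pool.Agent.Helper76.IP
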