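import Mathlib

/-!
TH-P, N branch, K2: the final elimination in the cell `t_3 s_1 = s_2 t_1`.
-/

namespace Pool.Agent.Helper76.IP

variable {F : Type*} [Field F]

private theorem cancel {a b : F} (ha : a ≠ 0) (h : a * b = 0) : b = 0 :=
  (mul_eq_zero.1 h).resolve_left ha

/-- K2: EG, EH and B2 give Ea -/
theorem k2_Ea {u S v d n : F} (hS1 : S - 1 ≠ 0) (huS : u - S ≠ 0)
    (hm : u * S * (S * v + 1) - (u + v) * n ^ 2 ≠ 0)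
    (hd : d = v + 1 - S) (hn : n = S * (v + 1) - v)
    (EG : (v ^ 2 * (S * v + 1) - (u + v) * d ^ 2) * n * (S * n - u * d) * (S - u)
      + u * (S * n - u * n * d + u ^ 2 * d * (d - v ^ 2)) * (S - 1) ^ 2 * (v ^ 2 + v + 1)
        * (S - v) = 0)
    (EH : v * d * (u * S * (S * v + 1) - (u + v) * n ^ 2) * (S * n - u * d) * (S - u)
      - S * (u ^ 2 * v ^ 2 * d + n * (v * n - S) - u * v * d * n) * (S - 1) ^ 2 * (v ^ 2 + v + 1)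
        * (S - v) = 0)
    (B2 : n * (S ^ 2 + S * v ^ 2 + S * v - S - v ^ 2 - u * v)
      - d * u * (S ^ 2 * v + u * (S ^ 2 + S * v ^ 2 - S * v - S - v ^ 2))
      + u * (S - 1) * (S - v) * (S + v ^ 2) = 0) :
    d * ((S - v) ^ 2 - S) * u ^ 2 + S * n * d * u - S * n * (2 * S - v - 1) = 0 := by
  subst hd hn
  refine cancel (mul_ne_zero (mul_ne_zero hS1 huS) hm) ?_
  linear_combination (-S ^ 4 * v ^ 3 - S ^ 4 * v ^ 2 * u - 2 * S ^ 4 * v ^ 2 - S ^ 4 * v * u - S ^ 4 * v - S ^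
        4 * u + S ^ 3 * v ^ 4 * u + 2 * S ^ 3 * v ^ 3 * u + 2 * S ^ 3 * v ^ 3 + S ^ 3 * v ^ 2 *
        u ^ 2 + 5 * S ^ 3 * v ^ 2 * u + 2 * S ^ 3 * v ^ 2 + S ^ 3 * v * u ^ 2 + 3 * S ^ 3 * v *
        u + S ^ 3 * u ^ 2 + S ^ 3 * u - 2 * S ^ 2 * v ^ 4 * u - S ^ 2 * v ^ 3 * u ^ 2 - 3 * S ^
        2 * v ^ 3 * u - S ^ 2 * v ^ 3 - 3 * S ^ 2 * v ^ 2 * u ^ 2 - 4 * S ^ 2 * v ^ 2 * u - 3 *
        S ^ 2 * v * u ^ 2 + S ^ 2 * v * u - S ^ 2 * u ^ 2 + S * v ^ 4 * u + S * v ^ 3 * u ^ 2 +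
        S * v ^ 3 * u + 2 * S * v ^ 2 * u ^ 2 + S * v * u ^ 2 - S * v * u) * B2
    + ((S * (v + 1) - v) - u) * EG + v * u * (S - 1) * EH

end Pool.Agent.Helper76.IP
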