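import Mathlib

/-!
TH-P, N branch, K2: the cell `s_1 v = 1`, `t_3 = s_2^2`.
-/

namespace Pool.Agent.Helper76.IP

variable {F : Type*} [Field F]

private theorem cancel {a b : F} (ha : a ≠ 0) (h : a * b = 0) : b = 0 :=
  (mul_eq_zero.1 h).resolve_left ha

/-- K2, `s_1 v = 1`, `t_3 = s_2^2` -/
theorem k2_EG0 {t T t3 u S v d n X X' : F} (hv : v ≠ 0) (hd0 : d ≠ 0) (hS1 : S - 1 ≠ 0)
    (hSv : S - v ≠ 0) (hvS : v * S - 1 ≠ 0) (hq : S + v ^ 2 ≠ 0)
    (hS : S = v * T) (hd : d = v + 1 - S) (hn : n = S * (v + 1) - v) (R : t * d = n)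
    (huv : u * v = 1) (h3 : t3 = S ^ 2)
    (F1 : X * (S * d ^ 2 * (v - 1) * (u - S)) =
      (v ^ 2 + S) * (v ^ 2 * (S * v + 1) - (u + v) * d ^ 2))
    (F3 : X' * (u * (1 - v) * (S + v ^ 2)) = v * (t3 - n + u * (d - v ^ 2)))
    (dg : X * ((t3 - 1) * (t3 - t) * (t3 - T)) * ((S - 1) * (S - u)) =
      X' * ((t * v - 1) * (t * v - u) * (t * v - S)) * ((T - 1) * (T - t))) :
    (T + t) * (S ^ 3 * (1 + v ^ 2) - S ^ 2 + v ^ 3 * (S - 1) - v) = 0 := by
  subst h3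
  have g1 : d * (S ^ 2 - t) = -((S - v) * (S ^ 2 - S + 1)) := by
    linear_combination -R + S ^ 2 * hd - hn
  have g2 : v * (S ^ 2 - T) = S * (v * S - 1) := by linear_combination hS
  have g4 : d * (t * v - 1) = (S - 1) * (v ^ 2 + v + 1) := by
    linear_combination v * R - hd + v * hn
  have g5 : d * (t * v - S) = (S - 1) * (S + v ^ 2) := by
    linear_combination v * R - S * hd + v * hn
  have g6 : d * (v * (T - t)) = -((S - 1) * (S + v ^ 2)) := by
    rw [← g5]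
    linear_combination -d * hS
  have g7 : v * (T - 1) = S - v := by linear_combination -hS
  have g8 : d * (v * (t * v - u)) = v ^ 2 * n - d := by
    linear_combination v ^ 2 * R - d * huv
  have g9 : v * (S - u) = v * S - 1 := by linear_combination -huv
  have pL : d ^ 4 * v ^ 3 * (((S ^ 2 - 1) * (S ^ 2 - t) * (S ^ 2 - T)) * ((S - 1) * (S - u))) =
      -((S - 1) ^ 2 * (S - v) * ((S ^ 3 + 1) * S * (v * S - 1) ^ 2 * d ^ 3 * v)) := by
    calc _ = (S ^ 2 - 1) * (d * (S ^ 2 - t)) * (v * (S ^ 2 - T)) * (S - 1) * (v * (S - u))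
          * d ^ 3 * v := by ring
      _ = _ := by rw [g1, g2, g9]; ring
  have pR : d ^ 4 * v ^ 3 *
      (((t * v - 1) * (t * v - u) * (t * v - S)) * ((T - 1) * (T - t))) =
      -((S - 1) ^ 2 * (S - v) * ((v ^ 2 + v + 1) * (v ^ 2 * n - d) * (S - 1)
        * (S + v ^ 2) ^ 2)) := by
    calc _ = (d * (t * v - 1)) * (d * (v * (t * v - u))) * (d * (t * v - S)) * (v * (T - 1))
          * (d * (v * (T - t))) := by ring
      _ = _ := by rw [g4, g5, g6, g7, g8]; ring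
  have c1 : X * ((S ^ 3 + 1) * S * (v * S - 1) ^ 2 * d ^ 3 * v) =
      X' * ((v ^ 2 + v + 1) * (v ^ 2 * n - d) * (S - 1) * (S + v ^ 2) ^ 2) := by
    refine sub_eq_zero.1 (cancel (mul_ne_zero (pow_ne_zero 2 hS1) hSv) ?_)
    linear_combination X * pL - X' * pR - d ^ 4 * v ^ 3 * dg
  have F1' : X * (S * d ^ 2 * (v - 1) * (1 - v * S)) =
      (v ^ 2 + S) * (v ^ 3 * (S * v + 1) - (1 + v ^ 2) * d ^ 2) := by
    linear_combination v * F1 - (X * (S * d ^ 2 * (v - 1)) + (v ^ 2 + S) * d ^ 2) * huv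
  have F3' : X' * ((1 - v) * (S + v ^ 2)) = v * d * (1 - v * S) := by
    linear_combination v * F3 - X' * ((1 - v) * (S + v ^ 2)) * huv + v * (d - v ^ 2) * huv
      - v ^ 2 * hn + v ^ 2 * S * hd
  refine cancel (mul_ne_zero (mul_ne_zero (mul_ne_zero hvS hd0) (mul_ne_zero hv hq))
    (mul_ne_zero hv hd0)) ?_
  have key : (v * S - 1) * d * (v * (S + v ^ 2)) *
      ((S ^ 3 + 1) * (v ^ 3 * (S * v + 1) - (1 + v ^ 2) * d ^ 2)
        + (v ^ 2 + v + 1) * (v ^ 2 * n - d) * (S - 1)) = 0 := by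
    linear_combination (-(v - 1)) * c1 - (v * S - 1) * d * v * (S ^ 3 + 1) * F1'
      + (v ^ 2 + v + 1) * (v ^ 2 * n - d) * (S - 1) * (S + v ^ 2) * F3'
  have Tt : v * d * (T + t) = -(S ^ 2 - S * (v + 1) ^ 2 + v ^ 2) := by
    linear_combination v * R - d * hS + S * hd + v * hn
  have fin : (S ^ 3 + 1) * (v ^ 3 * (S * v + 1) - (1 + v ^ 2) * d ^ 2)
        + (v ^ 2 + v + 1) * (v ^ 2 * n - d) * (S - 1) =
      v * d * (T + t) * (S ^ 3 * (1 + v ^ 2) - S ^ 2 + v ^ 3 * (S - 1) - v) := by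
    rw [Tt]
    subst hd hn
    ring
  linear_combination key - (v * S - 1) * d * (v * (S + v ^ 2)) * fin

end Pool.Agent.Helper76.IP
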