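import Pool.Agent.Helper76.IP.K2Base
import Pool.Agent.Helper76.IP.K2CellAlg2
import Pool.Agent.Helper76.IP.K2CellAlg3
import Pool.Agent.Helper76.IP.K2CellAlg4
import Pool.Agent.Helper14.IP.Newton

/-!
TH-P, N branch, K2: the cell (columns/rows 2 and 3): `k2_cell1` (`t_3 s_1 = s_2 t_1`),
`k2_cell0` (`s_1 v = 1`, `t_3 = s_2^2`).
-/

namespace Pool.Agent.Helper76.IP

open Pool.Agent.Helper54.IP

variable {F : Type*} [Field F] {m : ℕ}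

/-- K2: `lam_2, mu_2, lam'_2, mu'_2` in the coordinates `s_1, s_2, v, t_3` -/
theorem k2_cellF (g : GForm F m) (hm : 3 ≤ m) (hD : g.G 1 1 ≠ g.H 1 1)
    (hn1 : (g.s 2 * g.t 1 - g.t 2) * ((1 - g.lam' 0) - g.t 1 * g.mu' 0 + g.t 1 - 1) =
        (g.s 2 - 1) * (g.t 1 * g.t 2 * (1 - g.lam' 0) - g.t 1 * g.mu' 0))
    (hn2 : (g.t 2 * g.s 1 - g.s 2) * ((1 - g.lam' 0) - g.t 1 * g.mu' 0 + g.t 1 - 1) =
        (g.t 2 - 1) * (g.s 1 * g.s 2 * (1 - g.lam' 0) - g.t 1 * g.mu' 0))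
    (hk : g.kap 1 2 = 0) {v : F} (hv : g.s 2 = v * g.t 2) :
    v ≠ 0 ∧ v + 1 ≠ 0 ∧ g.s 3 = g.t 1 * v ∧
    g.t 1 * (v + 1 - g.s 2) = g.s 2 * (v + 1) - v ∧
    (1 - g.lam 2) * (g.s 2 * (v + 1 - g.s 2) ^ 2 * (v - 1) * (g.s 1 - g.s 2)) =
      (v ^ 2 + g.s 2) * (v ^ 2 * (g.s 2 * v + 1) - (g.s 1 + v) * (v + 1 - g.s 2) ^ 2) ∧
    g.mu 2 * (v ^ 2 * (g.s 2 * (v + 1) - v) ^ 2 * (v - 1) * (g.s 1 - g.s 2)) =
      g.s 2 * (v ^ 2 + g.s 2) *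
        (g.s 1 * g.s 2 * (g.s 2 * v + 1) - (g.s 1 + v) * (g.s 2 * (v + 1) - v) ^ 2) ∧
    (1 - g.lam' 2) * (g.s 1 * (1 - v) * (g.s 2 + v ^ 2)) =
      v * (g.t 3 - (g.s 2 * (v + 1) - v) + g.s 1 * ((v + 1 - g.s 2) - v ^ 2)) ∧
    g.mu' 2 * ((v - 1) * (g.s 2 + v ^ 2) * g.t 3) =
      g.s 1 * g.s 2 * v ^ 2 + g.t 3 * (v * (g.s 2 * (v + 1) - v) - g.s 2
        - g.s 1 * v * (v + 1 - g.s 2)) := by
  obtain ⟨v', hv0, hv1, hS, hs3, R, hx1, hy, h1x, h1y, hp, hk', e1, hG13, hw, hal, hde⟩ :=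
    k2_base g hm hD hn1 hn2 hk
  have ht := g.t_ne 1 (by omega)
  have hT := g.t_ne 2 (by omega)
  have hvv : v' = v := mul_right_cancel₀ hT (hS.symm.trans hv)
  subst hvv
  have hs1 := g.s_ne 1 (by omega)
  have hs2 := g.s_ne 2 (by omega)
  have ht1 : g.t 1 - 1 ≠ 0 := by
    rw [← g.t0]; exact sub_ne_zero.mpr (g.t_inj 0 1 (by omega) (by omega)).symm
  have hT1 : g.t 2 - 1 ≠ 0 := by
    rw [← g.t0]; exact sub_ne_zero.mpr (g.t_inj 0 2 (by omega) (by omega)).symm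
  have hu1 : g.s 1 - 1 ≠ 0 := by
    rw [← g.s0]; exact sub_ne_zero.mpr (g.s_inj 0 1 (by omega) (by omega)).symm
  have hx : 1 - g.lam' 0 ≠ 0 := sub_ne_zero.mpr (g.lam'_ne 0 (by omega)).symm
  have hSv : g.s 2 - v' ≠ 0 := by
    rw [hS]
    intro h
    exact mul_ne_zero hv0 hT1 (by linear_combination h)
  have hG12 : g.G 1 2 ≠ 0 := by
    intro h
    have h' : g.H 1 2 = 0 := by
      rw [h] at hk'
      exact (mul_eq_zero.1 hk'.symm).resolve_left ht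
    exact g.ne_zero (by omega) (by omega) ⟨h, h'⟩
  have p22 := g.row2G (k := 2) (by omega) (by omega)
  have q22 := g.row2H (k := 2) (by omega) (by omega)
  have p23 := g.row2G (k := 3) (by omega) (by omega)
  have q23 := g.row2H (k := 3) (by omega) (by omega)
  rw [hs3, e1] at p23 q23
  have U1 := g.U1 2 2 (by omega) (by omega)
  have U2 := g.U2 2 2 (by omega) (by omega)
  have h13 : g.t 1 ^ 2 * g.H 1 3 = g.G 1 2 := by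
    apply mul_left_cancel₀ ht
    linear_combination e1 - hG13
  obtain ⟨hP, hQ⟩ := k2_PQ (X := 1 - g.lam 2) (Y := g.mu 2) (al := 1 - g.lam' 1)
    (de := g.mu' 1) (p := g.G 1 2) (G22 := g.G 2 2) (H22 := g.H 2 2) (G23 := g.G 2 3)
    (H23 := g.H 2 3) (H12 := g.H 1 2) (H13 := g.H 1 3) (u := g.s 1) (T := g.t 2)
    ht hs2 hS hG12 R hal hde hk'.symm h13
    (by linear_combination p22) q22 (by linear_combination p23) q23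
    (by linear_combination U1) (by linear_combination U2)
  obtain ⟨F1, F2⟩ := k2_F12 ht hSv R hP hQ
  -- dual
  have r1 := g.row1G (k := 1) (by omega) (by omega)
  have q1 := g.row1H (k := 1) (by omega) (by omega)
  have s11 := g.swap.row1G (k := 1) (by omega) (by omega)
  have s12 := g.swap.row1H (k := 1) (by omega) (by omega)
  have s21 := g.swap.row1G (k := 2) (by omega) (by omega)
  have s22 := g.swap.row1H (k := 2) (by omega) (by omega)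
  have s31 := g.swap.row1G (k := 3) (by omega) (by omega)
  have s32 := g.swap.row1H (k := 3) (by omega) (by omega)
  simp only [GForm.swap_G, GForm.swap_lam', GForm.swap_s, GForm.swap_H,
    GForm.swap_mu'] at s11 s12 s21 s22 s31 s32
  have hxh : (1 - g.lam 0) * ((g.s 2 - 1) * (v' + 1)) = g.s 1 - 1 := by
    apply mul_left_cancel₀ ht1
    linear_combination ((g.s 2 - 1) * (v' + 1)) * (r1 - s11) + (g.s 1 - 1) * hx1
  have hyh : g.s 1 * g.mu 0 = g.s 2 * v' * (1 - g.lam 0) := by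
    apply mul_left_cancel₀ ht1
    linear_combination g.s 1 * s12 - g.t 1 * q1 + (g.s 1 - 1) * hy - g.s 2 * v' * (r1 - s11)
  have V1 := g.V1 2 1 (by omega) (by omega)
  have V2 := g.V2 2 1 (by omega) (by omega)
  obtain ⟨F3, F4⟩ := k2_F34 (X := 1 - g.lam' 2) (Y := g.mu' 2) (x := 1 - g.lam 0) (y := g.mu 0)
    (G21 := g.G 2 1) (H21 := g.H 2 1) (G31 := g.G 3 1) (H31 := g.H 3 1) (t3 := g.t 3)
    hT hu1 hs1 hS hxh hyh (by linear_combination s21) (by linear_combination s22)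
    (by linear_combination s31) (by linear_combination s32)
    (by linear_combination V1) (by linear_combination V2)
  exact ⟨hv0, hv1, hs3, R, F1, F2, F3, F4⟩

/-- K2, `td ≠ 0`: nonvanishing (`ell`, `emm` are the numerators of `1 - lam_2`, `mu_2`) -/
theorem k2_cell_ne (g : GForm F m) (hm : 3 ≤ m) (hD : g.G 1 1 ≠ g.H 1 1) (h2 : g.t 2 ≠ g.s 2)
    (hn1 : (g.s 2 * g.t 1 - g.t 2) * ((1 - g.lam' 0) - g.t 1 * g.mu' 0 + g.t 1 - 1) =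
        (g.s 2 - 1) * (g.t 1 * g.t 2 * (1 - g.lam' 0) - g.t 1 * g.mu' 0))
    (hn2 : (g.t 2 * g.s 1 - g.s 2) * ((1 - g.lam' 0) - g.t 1 * g.mu' 0 + g.t 1 - 1) =
        (g.t 2 - 1) * (g.s 1 * g.s 2 * (1 - g.lam' 0) - g.t 1 * g.mu' 0))
    (hk : g.kap 1 2 = 0) {v : F} (hv : g.s 2 = v * g.t 2) (td : v + 1 - g.s 2 ≠ 0) :
    v - 1 ≠ 0 ∧ g.s 2 + v ^ 2 ≠ 0 ∧ g.s 2 * (v + 1) - v ≠ 0 ∧ g.s 2 - v ≠ 0 ∧
    v ^ 2 * (g.s 2 * v + 1) - (g.s 1 + v) * (v + 1 - g.s 2) ^ 2 ≠ 0 ∧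
    g.s 1 * g.s 2 * (g.s 2 * v + 1) - (g.s 1 + v) * (g.s 2 * (v + 1) - v) ^ 2 ≠ 0 := by
  obtain ⟨hv0, hv1, hs3, R, F1, F2, F3, F4⟩ := k2_cellF g hm hD hn1 hn2 hk hv
  have ht := g.t_ne 1 (by omega)
  have hs1 := g.s_ne 1 (by omega)
  have hs2 := g.s_ne 2 (by omega)
  have hT1 : g.t 2 - 1 ≠ 0 := by
    rw [← g.t0]; exact sub_ne_zero.mpr (g.t_inj 0 2 (by omega) (by omega)).symm
  have h12 : g.s 1 - g.s 2 ≠ 0 := sub_ne_zero.mpr (g.s_inj 1 2 (by omega) (by omega))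
  have hv1' : v - 1 ≠ 0 := by
    intro h
    apply h2
    rw [hv, sub_eq_zero.1 h, one_mul]
  have hn0 : g.s 2 * (v + 1) - v ≠ 0 := by
    rw [← R]
    exact mul_ne_zero ht td
  have hSv : g.s 2 - v ≠ 0 := by
    rw [hv]
    intro h
    exact mul_ne_zero hv0 hT1 (by linear_combination h)
  have hX : 1 - g.lam 2 ≠ 0 := sub_ne_zero.mpr (g.lam_ne 2 (by omega)).symm
  have hY : g.mu 2 ≠ 0 := g.mu_ne 2 (by omega)
  have e1 : (1 - g.lam 2) * (g.s 2 * (v + 1 - g.s 2) ^ 2 * (v - 1) * (g.s 1 - g.s 2)) ≠ 0 :=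
    mul_ne_zero hX (mul_ne_zero (mul_ne_zero (mul_ne_zero hs2 (pow_ne_zero 2 td)) hv1') h12)
  have e2 : g.mu 2 * (v ^ 2 * (g.s 2 * (v + 1) - v) ^ 2 * (v - 1) * (g.s 1 - g.s 2)) ≠ 0 :=
    mul_ne_zero hY (mul_ne_zero (mul_ne_zero (mul_ne_zero (pow_ne_zero 2 hv0)
      (pow_ne_zero 2 hn0)) hv1') h12)
  rw [F1] at e1
  rw [F2] at e2
  refine ⟨hv1', ?_, hn0, hSv, right_ne_zero_of_mul e1, right_ne_zero_of_mul e2⟩
  have := left_ne_zero_of_mul e1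
  rwa [add_comm] at this

/-- K2, `t_3 s_1 = s_2 t_1`: numerators of `mu'_2` and of `1 - lam'_2` -/
theorem k2_cell1_ne (g : GForm F m) (hm : 3 ≤ m) (hD : g.G 1 1 ≠ g.H 1 1) (h2 : g.t 2 ≠ g.s 2)
    (hn1 : (g.s 2 * g.t 1 - g.t 2) * ((1 - g.lam' 0) - g.t 1 * g.mu' 0 + g.t 1 - 1) =
        (g.s 2 - 1) * (g.t 1 * g.t 2 * (1 - g.lam' 0) - g.t 1 * g.mu' 0))
    (hn2 : (g.t 2 * g.s 1 - g.s 2) * ((1 - g.lam' 0) - g.t 1 * g.mu' 0 + g.t 1 - 1) =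
        (g.t 2 - 1) * (g.s 1 * g.s 2 * (1 - g.lam' 0) - g.t 1 * g.mu' 0))
    (hk : g.kap 1 2 = 0) {v : F} (hv : g.s 2 = v * g.t 2) (td : v + 1 - g.s 2 ≠ 0)
    (h3 : g.t 3 * g.s 1 = g.s 2 * g.t 1) :
    g.s 1 ^ 2 * v ^ 2 * (v + 1 - g.s 2)
      - g.s 1 * v * (v + 1 - g.s 2) * (g.s 2 * (v + 1) - v)
      + (g.s 2 * (v + 1) - v) * ((g.s 2 * (v + 1) - v) * v - g.s 2) ≠ 0 ∧
    g.s 2 * (g.s 2 * (v + 1) - v) - g.s 1 * (g.s 2 * (v + 1) - v) * (v + 1 - g.s 2)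
      + g.s 1 ^ 2 * (v + 1 - g.s 2) * ((v + 1 - g.s 2) - v ^ 2) ≠ 0 := by
  obtain ⟨hv0, hv1, hs3, R, F1, F2, F3, F4⟩ := k2_cellF g hm hD hn1 hn2 hk hv
  obtain ⟨hv1', hq, hn0, hSv, hl, hm'⟩ := k2_cell_ne g hm hD h2 hn1 hn2 hk hv td
  have hs1 := g.s_ne 1 (by omega)
  have hs2 := g.s_ne 2 (by omega)
  have ht3 := g.t_ne 3 (by omega)
  have hX : 1 - g.lam' 2 ≠ 0 := sub_ne_zero.mpr (g.lam'_ne 2 (by omega)).symm
  have hY : g.mu' 2 ≠ 0 := g.mu'_ne 2 (by omega)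
  have h3' : g.s 1 * (v + 1 - g.s 2) * g.t 3 = g.s 2 * (g.s 2 * (v + 1) - v) := by
    linear_combination (v + 1 - g.s 2) * h3 + g.s 2 * R
  constructor
  · intro h
    refine mul_ne_zero (mul_ne_zero hY (mul_ne_zero (mul_ne_zero hv1' hq) ht3))
      (mul_ne_zero hs1 td) ?_
    linear_combination g.s 1 * (v + 1 - g.s 2) * F4 + (v * (g.s 2 * (v + 1) - v) - g.s 2
        - g.s 1 * v * (v + 1 - g.s 2)) * h3' + g.s 2 * h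
  · intro h
    have hv1'' : 1 - v ≠ 0 := fun h => hv1' (by linear_combination -h)
    refine mul_ne_zero (mul_ne_zero hX (mul_ne_zero (mul_ne_zero hs1 hv1'') hq))
      (mul_ne_zero hs1 td) ?_
    linear_combination g.s 1 * (v + 1 - g.s 2) * F3 + v * h3' + v * h

/-- K2, `t_3 s_1 = s_2 t_1`: from B2 to Ea -/
theorem k2_cell1 (g : GForm F m) (hm : 3 ≤ m) (hD : g.G 1 1 ≠ g.H 1 1) (h2 : g.t 2 ≠ g.s 2)
    (hn1 : (g.s 2 * g.t 1 - g.t 2) * ((1 - g.lam' 0) - g.t 1 * g.mu' 0 + g.t 1 - 1) =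
        (g.s 2 - 1) * (g.t 1 * g.t 2 * (1 - g.lam' 0) - g.t 1 * g.mu' 0))
    (hn2 : (g.t 2 * g.s 1 - g.s 2) * ((1 - g.lam' 0) - g.t 1 * g.mu' 0 + g.t 1 - 1) =
        (g.t 2 - 1) * (g.s 1 * g.s 2 * (1 - g.lam' 0) - g.t 1 * g.mu' 0))
    (hk : g.kap 1 2 = 0) {v : F} (hv : g.s 2 = v * g.t 2) (td : v + 1 - g.s 2 ≠ 0)
    (h3 : g.t 3 * g.s 1 = g.s 2 * g.t 1)
    (B2 : (g.s 2 * (v + 1) - v) *
        (g.s 2 ^ 2 + g.s 2 * v ^ 2 + g.s 2 * v - g.s 2 - v ^ 2 - g.s 1 * v)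
      - (v + 1 - g.s 2) * g.s 1 *
        (g.s 2 ^ 2 * v + g.s 1 * (g.s 2 ^ 2 + g.s 2 * v ^ 2 - g.s 2 * v - g.s 2 - v ^ 2))
      + g.s 1 * (g.s 2 - 1) * (g.s 2 - v) * (g.s 2 + v ^ 2) = 0) :
    (v + 1 - g.s 2) * ((g.s 2 - v) ^ 2 - g.s 2) * g.s 1 ^ 2
      + g.s 2 * (g.s 2 * (v + 1) - v) * (v + 1 - g.s 2) * g.s 1
      - g.s 2 * (g.s 2 * (v + 1) - v) * (2 * g.s 2 - v - 1) = 0 := by
  obtain ⟨hv0, hv1, hs3, R, F1, F2, F3, F4⟩ := k2_cellF g hm hD hn1 hn2 hk hv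
  obtain ⟨hv1', hq, hn0, hSv, hl, hm'⟩ := k2_cell_ne g hm hD h2 hn1 hn2 hk hv td
  have ht := g.t_ne 1 (by omega)
  have hs2 := g.s_ne 2 (by omega)
  have hS1 : g.s 2 - 1 ≠ 0 := by
    rw [← g.s0]; exact sub_ne_zero.mpr (g.s_inj 0 2 (by omega) (by omega)).symm
  have h12 : g.s 1 - g.s 2 ≠ 0 := sub_ne_zero.mpr (g.s_inj 1 2 (by omega) (by omega))
  have h31 : g.t 1 * v - g.s 1 ≠ 0 := by
    rw [← hs3]
    exact sub_ne_zero.mpr (g.s_inj 1 3 (by omega) (by omega)).symm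
  have dg := Pool.Agent.Helper14.IP.dg2 g hm
  have dh := Pool.Agent.Helper14.IP.dh2 g hm
  rw [hs3] at dg dh
  obtain ⟨EG, EH⟩ := k2_EGH (t := g.t 1) (T := g.t 2) (t3 := g.t 3) (X := 1 - g.lam 2)
    (X' := 1 - g.lam' 2) (Y := g.mu 2) (Y' := g.mu' 2) ht hs2 hv0 hS1 h31 hq hv rfl rfl R h3
    F1 F2 F3 F4 dg dh
  exact k2_Ea hS1 h12 hm' rfl rfl EG EH B2

/-- K2, `s_1 v = 1`, `t_3 = s_2^2`: `t_2 = - t_1` or f2 -/
theorem k2_cell0 (g : GForm F m) (hm : 3 ≤ m) (hD : g.G 1 1 ≠ g.H 1 1) (h2 : g.t 2 ≠ g.s 2)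
    (hn1 : (g.s 2 * g.t 1 - g.t 2) * ((1 - g.lam' 0) - g.t 1 * g.mu' 0 + g.t 1 - 1) =
        (g.s 2 - 1) * (g.t 1 * g.t 2 * (1 - g.lam' 0) - g.t 1 * g.mu' 0))
    (hn2 : (g.t 2 * g.s 1 - g.s 2) * ((1 - g.lam' 0) - g.t 1 * g.mu' 0 + g.t 1 - 1) =
        (g.t 2 - 1) * (g.s 1 * g.s 2 * (1 - g.lam' 0) - g.t 1 * g.mu' 0))
    (hk : g.kap 1 2 = 0) {v : F} (hv : g.s 2 = v * g.t 2) (td : v + 1 - g.s 2 ≠ 0)
    (huv : g.s 1 * v = 1) (h3 : g.t 3 = g.s 2 ^ 2) :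
    g.t 2 = -g.t 1 ∨
      g.s 2 ^ 3 * (1 + v ^ 2) - g.s 2 ^ 2 + v ^ 3 * (g.s 2 - 1) - v = 0 := by
  obtain ⟨hv0, hv1, hs3, R, F1, F2, F3, F4⟩ := k2_cellF g hm hD hn1 hn2 hk hv
  obtain ⟨hv1', hq, hn0, hSv, hl, hm'⟩ := k2_cell_ne g hm hD h2 hn1 hn2 hk hv td
  have hS1 : g.s 2 - 1 ≠ 0 := by
    rw [← g.s0]; exact sub_ne_zero.mpr (g.s_inj 0 2 (by omega) (by omega)).symm
  have h12 : g.s 1 - g.s 2 ≠ 0 := sub_ne_zero.mpr (g.s_inj 1 2 (by omega) (by omega))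
  have hvS : v * g.s 2 - 1 ≠ 0 := by
    intro h
    refine mul_ne_zero hv0 h12 ?_
    linear_combination huv - h
  have dg := Pool.Agent.Helper14.IP.dg2 g hm
  rw [hs3] at dg
  have key := k2_EG0 (t := g.t 1) (T := g.t 2) (t3 := g.t 3) (X := 1 - g.lam 2)
    (X' := 1 - g.lam' 2) hv0 td hS1 hSv hvS hq hv rfl rfl R huv h3 F1 F3 dg
  rcases mul_eq_zero.1 key with h | h
  · left
    linear_combination h
  · right
    exact h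

end Pool.Agent.Helper76.IP
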