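import Pool.Agent.Helper76.IP.K2RowAlg
import Pool.Agent.Helper43.IPL.Flat2
import Pool.Agent.Helper27.IP.Type0

/-!
TH-P, K2, the row strip: `kap_1^(5) ≠ 0`, `s_5 = s_1 r^4`, the relations `F41 = 0`, `F54 = 0`
(`r = t_2/t_1`, `v = s_2/t_2`).
-/

namespace Pool.Agent.Helper76.IP

open Pool.Agent.Helper54.IP

variable {F : Type*} [Field F] {m : ℕ}

private theorem cancel {a b : F} (ha : a ≠ 0) (h : a * b = 0) : b = 0 :=
  (mul_eq_zero.1 h).resolve_left ha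

/-- the QRT relation at a column -/
theorem qx_col (g : GForm F m) (hm : 2 ≤ m) {k : ℕ} (hk : k + 1 ≤ m)
    (ha : g.kap 1 k ≠ 0) (hb : g.kap 1 (k + 1) ≠ 0) :
    qx (1 - g.lam' 0) (g.mu' 0) (1 - g.lam' 1) (g.mu' 1) (g.t 1) (g.t 2) (g.t 1 ^ (k + 1))
      (g.s (k + 1)) = 0 := by
  have hT1 : g.t 2 ≠ 1 := by
    rw [← g.t0]
    exact (g.t_inj 0 2 (by omega) hm).symm
  have hTt : g.t 2 ≠ g.t 1 := (g.t_inj 1 2 (by omega) hm).symm
  have hs := g.s_ne (k + 1) hk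
  have hX : g.t 1 ^ (k + 1) ≠ 0 := pow_ne_zero _ (g.t_ne 1 (by omega))
  have hD : g.G 1 (k + 1) - g.t 1 ^ (k + 1) * g.H 1 (k + 1) ≠ 0 := by
    intro h
    have e := g.D_succ (j := 1) (k := k) (by omega) (by omega)
    rw [GForm.D, h] at e
    rcases mul_eq_zero.1 e.symm with e | e
    · exact g.lm_ne k (by omega) (sub_eq_zero.1 e).symm
    · exact ha e
  exact qx_of (x := 1 - g.lam' 0) (x' := g.mu' 0) (al := 1 - g.lam' 1) (de := g.mu' 1)
    (t := g.t 1) (T := g.t 2) (X := g.t 1 ^ (k + 1)) (Y := g.t 2 ^ (k + 1)) (s := g.s (k + 1))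
    (g1 := g.G 1 (k + 1)) (h1 := g.H 1 (k + 1)) (g2 := g.G 2 (k + 1)) (h2 := g.H 2 (k + 1))
    hs hX hT1 hTt
    (by rw [g.row1G (by omega) hk]; ring) (by rw [g.row1H (by omega) hk])
    (by rw [g.row2G hm hk]; ring) (by rw [g.row2H hm hk])
    (by linear_combination Pool.Agent.Helper43.IPL.E1c g hm (k + 1) hk)
    (by linear_combination Pool.Agent.Helper43.IPL.E2c g hm (k + 1) hk)
    hD (by rw [GForm.kap] at hb; exact hb)

/-- K2: `kap_1^(5) ≠ 0` -/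
theorem k2_kap15_ne (g : GForm F m) (hm : 6 ≤ m) (hD : g.G 1 1 ≠ g.H 1 1)
    (hn1 : (g.s 2 * g.t 1 - g.t 2) * ((1 - g.lam' 0) - g.t 1 * g.mu' 0 + g.t 1 - 1) =
        (g.s 2 - 1) * (g.t 1 * g.t 2 * (1 - g.lam' 0) - g.t 1 * g.mu' 0))
    (hn2 : (g.t 2 * g.s 1 - g.s 2) * ((1 - g.lam' 0) - g.t 1 * g.mu' 0 + g.t 1 - 1) =
        (g.t 2 - 1) * (g.s 1 * g.s 2 * (1 - g.lam' 0) - g.t 1 * g.mu' 0))
    (hk : g.kap 1 2 = 0) : g.kap 1 5 ≠ 0 := by
  obtain ⟨v, hv0, hv1, hS, hs3, R, hx1, hy, h1x, h1y, hp, hk', e1, hG13, hw, hal, hde⟩ :=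
    k2_base g (by omega) hD hn1 hn2 hk
  have hs4 := k2_s4 g (by omega) hD hn1 hn2 hk
  have ht := g.t_ne 1 (by omega)
  have hT := g.t_ne 2 (by omega)
  have hs2 := g.s_ne 2 (by omega)
  have hx : 1 - g.lam' 0 ≠ 0 := sub_ne_zero.mpr (g.lam'_ne 0 (by omega)).symm
  have hal0 : 1 - g.lam' 1 ≠ 0 := sub_ne_zero.mpr (g.lam'_ne 1 (by omega)).symm
  have hT1 : g.t 2 - 1 ≠ 0 := by
    rw [← g.t0]; exact sub_ne_zero.mpr (g.t_inj 0 2 (by omega) (by omega)).symm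
  have ht1 : g.t 1 - 1 ≠ 0 := by
    rw [← g.t0]; exact sub_ne_zero.mpr (g.t_inj 0 1 (by omega) (by omega)).symm
  have hvS : v - g.s 2 ≠ 0 := by
    rw [hS]
    intro h
    exact mul_ne_zero hv0 hT1 (by linear_combination -h)
  intro h
  obtain ⟨d1, d2⟩ := Pool.Agent.Helper14.IP.deg_step g (k := 5) (by omega) h
  have h15 : g.G 1 5 = g.t 1 ^ 4 * g.H 1 5 := by
    rw [GForm.kap] at h
    apply mul_left_cancel₀ ht
    linear_combination h
  have h6 : g.t 1 ^ 5 * g.H 1 6 = g.G 1 5 := by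
    rw [h15]
    linear_combination g.t 1 ^ 4 * d2
  have r5 := g.row1G (k := 5) (by omega) (by omega)
  have q5 := g.row1H (k := 5) (by omega) (by omega)
  have r6 := g.row1G (k := 6) (by omega) (by omega)
  have q6 := g.row1H (k := 6) (by omega) (by omega)
  have he2 : (g.t 1 - 1) * (1 - (1 - g.lam' 0)) = (1 - g.lam' 0) * (g.t 1 * (v - g.s 2)) := by
    linear_combination (1 - g.lam' 0) * h1x - g.lam' 0 * hx1
  obtain ⟨c7, c8⟩ := k2_kap15 (v := v) (S := g.s 2) (x := 1 - g.lam' 0) (y := g.mu' 0)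
    (s5 := g.s 5) (s6 := g.s 6) (p5 := g.G 1 5) ht hx hvS
    (sub_ne_zero.mpr (g.s_inj 5 6 (by omega) (by omega)).symm)
    (sub_ne_zero.mpr (g.s_inj 2 5 (by omega) (by omega)).symm) (g.s_ne 5 (by omega))
    he2 (by linear_combination h1y) hy (by linear_combination r5)
    (by rw [h15]; linear_combination g.t 1 ^ 4 * q5) (by linear_combination r6 - d1)
    (by linear_combination g.t 1 ^ 5 * q6 - g.s 6 * h6)
  have htm : g.t 1 ≠ -1 := by
    intro ht'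
    rw [ht'] at c7
    norm_num at c7
  rcases Pool.Agent.Helper43.IPL.deg_flat g (by omega) 4 (by omega) h15.symm with h2 | ⟨h2, h3⟩
  · have hk2 : g.kap 2 (4 + 1) = 0 := by
      rw [GForm.kap]
      linear_combination (-g.t 2) * h2
    have t0 := Pool.Agent.Helper27.IP.closed_type0 g (k := 4) (by omega) h hk2 htm
    have t1 := Pool.Agent.Helper27.IP.closed_type1 g (k := 4) (by omega) h hk2 htm
    norm_num at t0 t1
    -- s6 = s2
    apply g.s_inj 2 6 (by omega) (by omega)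
    have hu := g.s_ne 1 (by omega)
    apply mul_left_cancel₀ (mul_ne_zero (mul_ne_zero (mul_ne_zero hal0 hu)
      (pow_ne_zero 4 hT)) (mul_ne_zero hT ht))
    rw [hde] at t1
    linear_combination g.t 2 * t1 + (1 - g.lam' 1) * g.s 1 * g.t 2 ^ 5 * g.t 1 * hS
      + g.t 2 * (1 - g.lam' 1) * g.s 6 * (g.t 1 * g.t 2 * hs4 - g.t 1 ^ 4 * t0)
  · -- T = -1, S = -v = s5
    have hT' : g.t 2 = -1 := by
      refine sub_eq_zero.1 ?_
      refine (mul_eq_zero.1 (?_ : ((1 - g.lam' 0) * g.t 1 * v * (g.t 2 - 1) * (g.t 1 - 1)) *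
        (g.t 2 - -1) = 0)).resolve_left (mul_ne_zero (mul_ne_zero (mul_ne_zero
          (mul_ne_zero hx ht) hv0) hT1) ht1)
      have r5' := r5
      rw [c8] at r5'
      linear_combination (-(g.t 1 - 1)) * h3 + (g.t 1 - 1) * g.t 1 * (g.t 2 - 1) * r5'
        + g.t 2 * (g.t 1 - 1) * he2 - g.t 2 * (g.t 1 - 1) * (1 - g.lam' 0) * g.t 1 * hS
    apply g.s_inj 2 5 (by omega) (by omega)
    rw [hS, hT', c8]
    ring

/-- K2, the row strip: letters of the columns 4, 5 and `F41 = 0`, `F54 = 0` -/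
theorem k2_F (g : GForm F m) (hm : 6 ≤ m) (hD : g.G 1 1 ≠ g.H 1 1)
    (hn1 : (g.s 2 * g.t 1 - g.t 2) * ((1 - g.lam' 0) - g.t 1 * g.mu' 0 + g.t 1 - 1) =
        (g.s 2 - 1) * (g.t 1 * g.t 2 * (1 - g.lam' 0) - g.t 1 * g.mu' 0))
    (hn2 : (g.t 2 * g.s 1 - g.s 2) * ((1 - g.lam' 0) - g.t 1 * g.mu' 0 + g.t 1 - 1) =
        (g.t 2 - 1) * (g.s 1 * g.s 2 * (1 - g.lam' 0) - g.t 1 * g.mu' 0))
    (hk : g.kap 1 2 = 0) {v r : F} (hv : g.s 2 = v * g.t 2) (hr : g.t 2 = g.t 1 * r) :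
    g.s 4 = g.s 1 * r ^ 3 ∧ g.s 5 = g.s 1 * r ^ 4 ∧
    k2F (g.t 1) r (g.s 2) v (g.s 1) (g.t 1) r + k2F (g.t 1) r (g.s 2) v (g.s 1) (g.t 1 ^ 2) (r ^ 2)
      + k2F (g.t 1) r (g.s 2) v (g.s 1) (g.t 1 ^ 3) (r ^ 3) = 0 ∧
    k2F (g.t 1) r (g.s 2) v (g.s 1) (g.t 1 ^ 4) (r ^ 4) = 0 := by
  obtain ⟨v', hv0, hv1, hS, hs3, R, hx1, hy, h1x, h1y, hp, hk', e1, hG13, hw, hal, hde⟩ :=
    k2_base g (by omega) hD hn1 hn2 hk
  have ht := g.t_ne 1 (by omega)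
  have hT := g.t_ne 2 (by omega)
  have hvv : v' = v := by
    apply mul_right_cancel₀ hT
    rw [← hS, ← hv]
  subst hvv
  have hs4 := k2_s4 g (by omega) hD hn1 hn2 hk
  have h14 := k2_kap14_ne g (by omega) hD hn1 hn2 hk
  have h15 := k2_kap15_ne g hm hD hn1 hn2 hk
  have h13 : g.kap 1 3 ≠ 0 := Pool.Agent.Helper14.IP.deg_next g (by omega) hk
  have h11 : g.kap 1 1 ≠ 0 := fun h =>
    Pool.Agent.Helper14.IP.deg_next g (k := 1) (by omega) h hk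
  have hr0 : r ≠ 0 := by
    rintro rfl
    rw [mul_zero] at hr
    exact hT hr
  have hu := g.s_ne 1 (by omega)
  have hs2 := g.s_ne 2 (by omega)
  have hx : 1 - g.lam' 0 ≠ 0 := sub_ne_zero.mpr (g.lam'_ne 0 (by omega)).symm
  have hal0 : 1 - g.lam' 1 ≠ 0 := sub_ne_zero.mpr (g.lam'_ne 1 (by omega)).symm
  have hT1 : g.t 2 - 1 ≠ 0 := by
    rw [← g.t0]; exact sub_ne_zero.mpr (g.t_inj 0 2 (by omega) (by omega)).symm
  have ht1 : g.t 1 - 1 ≠ 0 := by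
    rw [← g.t0]; exact sub_ne_zero.mpr (g.t_inj 0 1 (by omega) (by omega)).symm
  have hTt : g.t 2 - g.t 1 ≠ 0 := sub_ne_zero.mpr (g.t_inj 1 2 (by omega) (by omega)).symm
  have hSv : g.s 2 - v' ≠ 0 := by
    rw [hS]
    intro h
    exact mul_ne_zero hv0 hT1 (by linear_combination h)
  have h10 : g.kap 1 0 ≠ 0 := by
    rw [g.kap_zero (by omega)]
    exact ht1
  -- letters
  have h4 : g.s 4 = g.s 1 * r ^ 3 := by
    apply mul_right_cancel₀ (pow_ne_zero 3 ht)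
    rw [hs4, hr]
    ring
  have h5 : g.s 5 = g.s 1 * r ^ 4 := by
    rcases Pool.Agent.Helper43.IPL.local_flat2 g (by omega) 4 (by omega) with h | h | h | h | ⟨-, h⟩
    · exfalso
      have e := g.D_succ (j := 1) (k := 3) (by omega) (by omega)
      rw [GForm.D, h] at e
      rcases mul_eq_zero.1 e.symm with e | e
      · exact g.lm_ne 3 (by omega) (sub_eq_zero.1 e).symm
      · exact h13 e
    · exfalso
      apply h14
      rw [GForm.kap]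
      linear_combination -h
    · exfalso
      apply h15
      rw [GForm.kap]
      linear_combination (-g.t 1) * h
    · apply mul_left_cancel₀ ht
      norm_num at h
      rw [← h, h4, hr]
      ring
    · exfalso
      norm_num at h
      apply g.s_inj 2 5 (by omega) (by omega)
      rw [hde, h4, hr] at h
      apply mul_left_cancel₀ (mul_ne_zero (mul_ne_zero (mul_ne_zero hal0 hu)
        (pow_ne_zero 4 ht)) (pow_ne_zero 3 hr0))
      rw [hS, hr]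
      linear_combination -h
  have hP4 := pow_ne_zero 4 hr0
  have q1 := qx_col g (by omega) (k := 0) (by omega) h10 h11
  have q4 := qx_col g (by omega) (k := 3) (by omega) h13 h14
  have q5 := qx_col g (by omega) (k := 4) (by omega) h14 h15
  norm_num at q1 q4 q5
  rw [h4] at q4
  rw [h5] at q5
  have h1x' : (1 - (1 - g.lam' 0)) * ((g.s 2 - 1) * (v' + 1)) = g.t 1 * (v' - g.s 2) := by
    linear_combination h1x
  have h1y' : 1 - (1 - g.lam' 0) = g.t 1 ^ 2 * (1 - g.mu' 0) := by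
    linear_combination h1y
  have d1 := k2_dq (X := g.t 1) (P := r) (s := g.s 1) ht hu hr0 hr hS (by ring) hx1 hy h1x' h1y'
    hal hde
  have d2 := k2_dq (X := g.t 1 ^ 2) (P := r ^ 2) (s := g.s 1 * r) ht hu hr0 hr hS (by ring) hx1 hy
    h1x' h1y' hal hde
  have d3 := k2_dq (X := g.t 1 ^ 3) (P := r ^ 3) (s := g.s 1 * r ^ 2) ht hu hr0 hr hS (by ring) hx1
    hy h1x' h1y' hal hde
  have d4 := k2_dq (X := g.t 1 ^ 4) (P := r ^ 4) (s := g.s 1 * r ^ 3) ht hu hr0 hr hS (by ring) hx1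
    hy h1x' h1y' hal hde
  have hc : (g.t 2 - g.t 1) * (g.t 1 - 1) * (1 - g.lam' 1) * (1 - g.lam' 0) * (g.s 2 - v') ≠ 0 :=
    mul_ne_zero (mul_ne_zero (mul_ne_zero (mul_ne_zero hTt ht1) hal0) hx) hSv
  have e : ∀ X P : F, (v' + 1 - g.s 2) * k2G (g.t 1) r (g.s 2) v' (g.s 1) X P =
      g.s 2 * k2F (g.t 1) r (g.s 2) v' (g.s 1) X P := fun X P => by
    have hS' : g.s 2 = v' * (g.t 1 * r) := by rw [← hr]; exact hS
    exact k2G_eq hr0 hS' R
  have p2 : g.t 1 * g.t 1 = g.t 1 ^ 2 := by ring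
  have p3 : g.t 1 * g.t 1 ^ 2 = g.t 1 ^ 3 := by ring
  have p4 : g.t 1 * g.t 1 ^ 3 = g.t 1 ^ 4 := by ring
  have p5 : g.t 1 * g.t 1 ^ 4 = g.t 1 ^ 5 := by ring
  rw [p2] at d1
  rw [p3] at d2
  rw [p4, q4] at d3
  rw [p5, q4, q5] at d4
  rw [q1] at d1
  have G1 : k2G (g.t 1) r (g.s 2) v' (g.s 1) (g.t 1) r +
      k2G (g.t 1) r (g.s 2) v' (g.s 1) (g.t 1 ^ 2) (r ^ 2) +
      k2G (g.t 1) r (g.s 2) v' (g.s 1) (g.t 1 ^ 3) (r ^ 3) = 0 := by
    refine cancel hc ?_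
    linear_combination -(d1 + d2 + d3)
  have G4 : k2G (g.t 1) r (g.s 2) v' (g.s 1) (g.t 1 ^ 4) (r ^ 4) = 0 := by
    refine cancel hc ?_
    linear_combination -d4
  refine ⟨h4, h5, ?_, ?_⟩
  · refine cancel hs2 ?_
    linear_combination (v' + 1 - g.s 2) * G1 - e (g.t 1) r - e (g.t 1 ^ 2) (r ^ 2)
      - e (g.t 1 ^ 3) (r ^ 3)
  · refine cancel hs2 ?_
    linear_combination (v' + 1 - g.s 2) * G4 - e (g.t 1 ^ 4) (r ^ 4)

end Pool.Agent.Helper76.IP
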