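import Pool.Agent.Helper54.IP.GSwap
import Pool.Agent.Helper43.IPL.Flat

/-!
TH-P (MP_d2f54f_al): the two relations `L1`, `L2`, linear in the row 2 parameters.
`X = t_1^k`, `Y = t_2^k`, `s = s_k`, `x = 1 - lam'_0`, `x' = mu'_0`, `al = 1 - lam'_1`,
`de = mu'_1`.
-/

namespace Pool.Agent.Helper76.IP

open Pool.Agent.Helper54.IP

variable {F : Type*} [Field F] {m : ℕ}

/-- the relation L1, multiplied by `X s` -/
def l1 (x x' al de t T X Y s : F) : F :=
  X * s * T * (t - 1) ^ 2 * (1 - x) * (al * x * s + (al * (1 - x) + (1 - al) * (1 - x'))) -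
    x * x' * (1 - al) * t * (T - 1) ^ 2 * X * s +
    x * t * (T - 1) * (t - 1) * de * Y * (1 - x + x * s) -
    x * (T - t) * X * (x' * al * (T - 1) * X * s + (1 - x') * de * (t - 1) * Y)

/-- the relation L2, multiplied by `X Y s` -/
def l2 (x x' al de t T X Y s : F) : F :=
  X * Y * (T * (t - 1) ^ 2 * (1 - x') * (de * x' + (de * (1 - x') + (1 - de) * (1 - x)) * s) -
      x * x' * (1 - de) * t * (T - 1) ^ 2 * s) +
    x' * T * (T - 1) * (t - 1) * al * s * X ^ 2 * ((1 - x') * s + x') -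
    x' * (T - t) * (x * t * de * (T - 1) * Y * s + T * (1 - x) * al * (t - 1) * s ^ 2 * X)

private theorem vw (t T X g h xi xi' : F) :
    X * ((T - 1) * g - xi * (T - t)) * (t * (T - 1) * h - xi' * (T - t)) -
      (t * (T - 1) * g - X * xi' * (T - t)) * ((T - 1) * X * h - xi * (T - t)) =
    (T - t) * (T - 1) * (g - X * h) * (t * xi - X * xi') := by ring

/-- scalar core: `g = G_1k`, `h = H_1k`, `Z = Y / s^2` -/
private theorem core {al be ga de t T X Z g h xi xi' : F}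
    (hc : (T - t) * (T - 1) ≠ 0) (hD : g - X * h ≠ 0) (hK : t * g - X * h ≠ 0)
    (hE1 : (al * g + be * h) * X * (t - 1) * (t * (T - 1) * h - xi' * (T - t)) -
      (T - t) * (T - 1) * (g - X * h) * (h - xi') * (al * X + be * t) -
      Z * (ga * g + de * h) * (t - 1) * (t * (T - 1) * g - X * xi' * (T - t)) = 0)
    (hE2 : (al * g + be * h) * X * T * (t - 1) * ((T - 1) * X * h - xi * (T - t)) -
      Z * ((ga * g + de * h) * T * X * (t - 1) * ((T - 1) * g - xi * (T - t)) +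
        (T - t) * (T - 1) * (g - X * h) * (g - xi) * (ga * X + de * t)) = 0) :
    X * (T * (t - 1) ^ 2 * xi * (al * g + be * xi') - (g - xi) * (h - xi') * be * t * (T - 1) ^ 2 -
      X * (T - t) * (g - xi) * (h - xi') * al * (T - 1)) +
      Z * (g - xi) * (t - 1) * de * (t * (T - 1) * g - X * xi' * (T - t)) = 0 ∧
    Z * (T * (t - 1) ^ 2 * xi' * (de * h + ga * xi) - (g - xi) * (h - xi') * ga * t * (T - 1) ^ 2) * X +
      X * T * (t - 1) * ((T - 1) * X * h - xi * (T - t)) * (h - xi') * al -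
      Z * (T - t) * (g - xi) * (h - xi') * t * de * (T - 1) = 0 := by
  have e0 := vw t T X g h xi xi'
  obtain ⟨c, hc'⟩ : ∃ c, c = (T - t) * (T - 1) := ⟨_, rfl⟩
  obtain ⟨D, hDD⟩ : ∃ D, D = g - X * h := ⟨_, rfl⟩
  obtain ⟨V1, hV1⟩ : ∃ V1, V1 = t * (T - 1) * g - X * xi' * (T - t) := ⟨_, rfl⟩
  obtain ⟨V2, hV2⟩ : ∃ V2, V2 = t * (T - 1) * h - xi' * (T - t) := ⟨_, rfl⟩
  obtain ⟨W1, hW1⟩ : ∃ W1, W1 = (T - 1) * g - xi * (T - t) := ⟨_, rfl⟩
  obtain ⟨W2, hW2⟩ : ∃ W2, W2 = (T - 1) * X * h - xi * (T - t) := ⟨_, rfl⟩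
  rw [← hc', ← hDD, ← hV1, ← hV2] at hE1
  rw [← hc', ← hDD, ← hW1, ← hW2] at hE2
  rw [← hc', ← hDD, ← hV1, ← hV2, ← hW1, ← hW2] at e0
  rw [← hc'] at hc
  rw [← hDD] at hD
  rw [← hV1, ← hW2]
  constructor
  · have e1 : c * D * ((al * g + be * h) * X * (t - 1) * (T * g * (t - 1) * (t * xi - X * xi') +
        X * (g - xi) * V2) - X * (T * g * (t - 1) * W1 + c * (g - xi) * D) * (h - xi') *
        (al * X + be * t) + Z * (t * g - X * h) * (g - xi) * (t - 1) * de * V1) = 0 := by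
      linear_combination (X * (T * g * (t - 1) * W1 + c * (g - xi) * D)) * hE1 -
        (g * (t - 1) * V1) * hE2 - (al * g + be * h) * X * (t - 1) * (T * g * (t - 1)) * e0
    have e2 := (mul_eq_zero.1 e1).resolve_left (mul_ne_zero hc hD)
    apply mul_left_cancel₀ hK
    rw [hV2, hW1, hc', hDD] at e2
    linear_combination e2
  · have e1 : c * D * ((t * g - X * h) * (X * T * (t - 1) * W2 * (h - xi') * al) -
        Z * ((ga * g + de * h) * T * X * (t - 1) * (-(t * xi - X * xi') * h * (t - 1) +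
          t * W1 * (h - xi')) - (X * (t - 1) * h * V2 - c * D * (h - xi') * t) * (g - xi) *
          (ga * X + de * t))) = 0 := by
      linear_combination (h * X * T * (t - 1) * W2) * hE1 -
        (X * (t - 1) * h * V2 - c * D * (h - xi') * t) * hE2 -
        Z * (ga * g + de * h) * T * X * (t - 1) ^ 2 * h * e0
    have e2 := (mul_eq_zero.1 e1).resolve_left (mul_ne_zero hc hD)
    apply mul_left_cancel₀ hK
    rw [hV2, hW1, hc', hDD] at e2
    linear_combination e2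

/-- `L1` and `L2` from `E1` and `E2` at a nondegenerate column -/
theorem l12_of {x x' al de t T X Y s g1 h1 g2 h2 : F} (hs : s ≠ 0) (hT : T ≠ 1)
    (htT : T ≠ t) (hg1 : g1 = 1 - x + x * s) (hh1 : s * h1 = (1 - x') * s + x')
    (hg2 : g2 = s * (al * g1 + (1 - al) * h1)) (hh2 : s * h2 = (1 - de) * g1 + de * h1)
    (hE1 : t * (T - 1) * (t - 1) * (X * g2 * h1 - Y * g1 * h2) =
      (T - t) * ((t - 1) * (1 - x') * X * (g2 - Y * h2) +
        (T - 1) * x' * (t + al * (X - t)) * (g1 - X * h1)))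
    (hE2 : T * (T - 1) * (t - 1) * (X * g2 * h1 - Y * g1 * h2) * X =
      (T - t) * ((t - 1) * T * (1 - x) * (g2 - Y * h2) * X +
        (T - 1) * x * Y * (X + de * (t - X)) * (g1 - X * h1)))
    (hD : g1 - X * h1 ≠ 0) (hk : t * g1 - X * h1 ≠ 0) :
    l1 x x' al de t T X Y s = 0 ∧ l2 x x' al de t T X Y s = 0 := by
  obtain ⟨Z, hZ⟩ : ∃ Z, Y = Z * s ^ 2 := ⟨Y / s ^ 2, by field_simp⟩
  have hx : x * s = g1 - (1 - x) := by linear_combination -hg1
  have hx' : x' = s * (h1 - (1 - x')) := by linear_combination -hh1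
  have hc : (T - t) * (T - 1) ≠ 0 := mul_ne_zero (sub_ne_zero.2 htT) (sub_ne_zero.2 hT)
  obtain ⟨b2, hb2⟩ : ∃ b2, b2 = (1 - de) * g1 + de * h1 := ⟨_, rfl⟩
  obtain ⟨a2, ha2⟩ : ∃ a2, a2 = al * g1 + (1 - al) * h1 := ⟨_, rfl⟩
  rw [← hb2] at hh2
  rw [← ha2] at hg2
  have hs2 : s ^ 2 ≠ 0 := pow_ne_zero 2 hs
  have k1 : (al * g1 + (1 - al) * h1) * X * (t - 1) * (t * (T - 1) * h1 - (1 - x') * (T - t)) -
      (T - t) * (T - 1) * (g1 - X * h1) * (h1 - (1 - x')) * (al * X + (1 - al) * t) -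
      Z * ((1 - de) * g1 + de * h1) * (t - 1) * (t * (T - 1) * g1 - X * (1 - x') * (T - t)) = 0 := by
    rw [← ha2, ← hb2]
    apply mul_left_cancel₀ hs2
    rw [hg2] at hE1
    have hE1' : s * (t * (T - 1) * (t - 1) * (X * (s * a2) * h1)) -
        t * (T - 1) * (t - 1) * (Y * g1 * b2) = s * ((T - t) * (t - 1) * (1 - x') * X * (s * a2)) -
        (T - t) * (t - 1) * (1 - x') * X * Y * b2 +
        (T - t) * (T - 1) * (s * x') * (t + al * (X - t)) * (g1 - X * h1) := by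
      rw [← hh2]
      linear_combination s * hE1
    rw [hZ] at hE1'
    linear_combination hE1' + (T - t) * (T - 1) * s * (t + al * (X - t)) * (g1 - X * h1) * hx'
  have k2 : (al * g1 + (1 - al) * h1) * X * T * (t - 1) * ((T - 1) * X * h1 - (1 - x) * (T - t)) -
      Z * (((1 - de) * g1 + de * h1) * T * X * (t - 1) * ((T - 1) * g1 - (1 - x) * (T - t)) +
        (T - t) * (T - 1) * (g1 - X * h1) * (g1 - (1 - x)) * ((1 - de) * X + de * t)) = 0 := by
    rw [← ha2, ← hb2]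
    apply mul_left_cancel₀ hs2
    rw [hg2] at hE2
    have hE2' : s * (T * (T - 1) * (t - 1) * (X * (s * a2) * h1) * X) -
        T * (T - 1) * (t - 1) * (Y * g1 * b2) * X =
        s * ((T - t) * (t - 1) * T * (1 - x) * (s * a2) * X) -
        (T - t) * (t - 1) * T * (1 - x) * Y * b2 * X +
        (T - t) * (T - 1) * (x * s) * Y * (X + de * (t - X)) * (g1 - X * h1) := by
      rw [← hh2]
      linear_combination s * hE2
    rw [hZ] at hE2'
    linear_combination hE2' + (T - t) * (T - 1) * (Z * s ^ 2) * (X + de * (t - X)) *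
      (g1 - X * h1) * hx
  obtain ⟨c1, c2⟩ := core hc hD hk k1 k2
  rw [← hx] at c1 c2
  have m1 : (x * s) * (h1 - (1 - x')) = x * x' := by
    linear_combination (-x) * hx'
  subst hg1
  subst hZ
  constructor
  · rw [l1]
    linear_combination s * c1 + s * (X * ((1 - al) * t * (T - 1) ^ 2 +
      X * (T - t) * al * (T - 1))) * m1
  · rw [l2]
    linear_combination s ^ 3 * c2 - (s ^ 2 * (Z * X * T * (1 - x') * (t - 1) ^ 2 * de -
      Z * X * x * s * (1 - de) * t * (T - 1) ^ 2 + X * T * (t - 1) * al *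
      (-((T - 1) * X * (1 - x')) - (1 - x) * (T - t)) - Z * (T - t) * x * s * t * de * (T - 1)) +
      s * (X * T * (t - 1) * al * (T - 1) * X) * (s * h1 + ((1 - x') * s + x'))) * hh1

/-- `L1`, `L2` for a `GForm` at a nondegenerate column -/
theorem l12 (g : GForm F m) (hm : 2 ≤ m) {k : ℕ} (hk : k ≤ m)
    (hD : g.G 1 k - g.t 1 ^ k * g.H 1 k ≠ 0) (hK : g.t 1 * g.G 1 k - g.t 1 ^ k * g.H 1 k ≠ 0) :
    l1 (1 - g.lam' 0) (g.mu' 0) (1 - g.lam' 1) (g.mu' 1) (g.t 1) (g.t 2) (g.t 1 ^ k) (g.t 2 ^ k)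
      (g.s k) = 0 ∧
    l2 (1 - g.lam' 0) (g.mu' 0) (1 - g.lam' 1) (g.mu' 1) (g.t 1) (g.t 2) (g.t 1 ^ k) (g.t 2 ^ k)
      (g.s k) = 0 := by
  have hT1 : g.t 2 ≠ 1 := by
    rw [← g.t0]
    exact (g.t_inj 0 2 (by omega) (by omega)).symm
  have hTt : g.t 2 ≠ g.t 1 := (g.t_inj 1 2 (by omega) (by omega)).symm
  have e1 := Pool.Agent.Helper43.IPL.E1c g hm k hk
  have e2 := Pool.Agent.Helper43.IPL.E2c g hm k hk
  have r1 := g.row1G (show 1 ≤ m by omega) hk
  have r1' := g.row1H (show 1 ≤ m by omega) hk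
  have r2 := g.row2G hm hk
  have r2' := g.row2H hm hk
  refine l12_of (g1 := g.G 1 k) (h1 := g.H 1 k) (g2 := g.G 2 k) (h2 := g.H 2 k)
    (g.s_ne k hk) hT1 hTt ?_ r1' ?_ r2' ?_ ?_ hD hK
  · linear_combination r1
  · linear_combination r2
  · linear_combination e1
  · linear_combination e2

end Pool.Agent.Helper76.IP
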