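import Pool.Agent.Helper43.IPL.BNeg
import Pool.Agent.Helper54.IP.CForm

/-!
TH-P, phase 2, `m = 5` closed: the family `t_1 = s_1`, `t_2 = s_2 = - t_1` of the diagonal branch
is E1: `t = s = (1, a, -a, -r, r, ar)`, `r^2 + (1+a)(1+a+a^2) r + a^3 = 0`.
-/

namespace Pool.Agent.Helper76.IP

open Pool.Agent.Helper54.IP Pool.Agent.Helper43.IPL

variable {F : Type*} [Field F] {m : ℕ}

/-- columns 3 and 4 of the family `t_2 = - t_1` of the diagonal branch (`m ≥ 5`) -/
theorem b_neg_cols (g : GForm F m) (hm : 5 ≤ m) (hD : g.G 1 1 ≠ g.H 1 1) (h1 : g.t 1 = g.s 1)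
    (h2 : g.t 2 = g.s 2) (hb : g.t 2 = - g.t 1) (hk : g.kap 1 2 ≠ 0) :
    ∃ W : F, g.t 1 * (1 - g.lam' 0) + g.mu' 0 ≠ 0 ∧
      W * (g.t 1 * (1 - g.lam' 0) + g.mu' 0) = g.lam' 0 - g.t 1 * (1 - g.mu' 0) ∧
      (1 - g.lam' 1) * (g.t 1 - 1) = W - 1 ∧ g.mu' 1 * (g.t 1 - 1) = g.t 1 * (W + 1) ∧
      W * (g.s 3 + 1) = g.s 3 - 1 ∧
      g.s 3 ^ 2 - (g.t 1 + 1) * (g.t 1 ^ 2 + g.t 1 + 1) * g.s 3 + g.t 1 ^ 3 = 0 ∧
      g.s 4 = - g.s 3 ∧ g.kap 1 4 ≠ 0 := by
  obtain ⟨a, ha⟩ : ∃ a, g.t 1 = a := ⟨_, rfl⟩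
  obtain ⟨x, hx⟩ : ∃ x, x = 1 - g.lam' 0 := ⟨_, rfl⟩
  obtain ⟨y, hy⟩ : ∃ y, y = g.mu' 0 := ⟨_, rfl⟩
  obtain ⟨al, hal⟩ : ∃ al, al = 1 - g.lam' 1 := ⟨_, rfl⟩
  obtain ⟨de, hde⟩ : ∃ de, de = g.mu' 1 := ⟨_, rfl⟩
  have hb' : g.t 2 = -a := by rw [hb, ha]
  have hs1 : g.s 1 = a := by rw [← h1, ha]
  have hs2 : g.s 2 = -a := by rw [← h2, hb']
  have ha0 : a ≠ 0 := by rw [← ha]; exact g.t_ne 1 (by omega)
  have ha1 : a - 1 ≠ 0 := by
    rw [← ha, ← g.t0]; exact sub_ne_zero.mpr (g.t_inj 0 1 (by omega) (by omega)).symm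
  have ha2 : a + 1 ≠ 0 := by
    intro h
    apply g.t_inj 0 2 (by omega) (by omega)
    rw [g.t0, hb']; linear_combination h
  have hta : 2 * a ≠ 0 := by
    intro h
    apply g.t_inj 1 2 (by omega) (by omega)
    rw [ha, hb']; linear_combination h
  have h20 : (2 : F) ≠ 0 := fun h => hta (by rw [h, zero_mul])
  have hc0 : g.s 3 ≠ 0 := g.s_ne 3 (by omega)
  have hca : g.s 3 ≠ a := by rw [← hs1]; exact (g.s_inj 1 3 (by omega) (by omega)).symm
  have hc1' : g.s 3 ≠ 1 := by rw [← g.s0]; exact (g.s_inj 0 3 (by omega) (by omega)).symm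
  have hal0 : al ≠ 0 := by rw [hal]; exact sub_ne_zero.mpr (g.lam'_ne 1 (by omega)).symm
  have hx0 : x ≠ 0 := by rw [hx]; exact sub_ne_zero.mpr (g.lam'_ne 0 (by omega)).symm
  obtain ⟨hDD, bal, bde⟩ := fam_base g (by omega) ha h1 hb' hx hy hal hde hD
  obtain ⟨W, hWd⟩ : ∃ W, W = ((1 - x) - a * (1 - y)) / (a * x + y) := ⟨_, rfl⟩
  have hW : W * (a * x + y) = (1 - x) - a * (1 - y) := by rw [hWd, div_mul_cancel₀ _ hDD]
  have hal' : al * (a - 1) = W - 1 := by
    apply mul_right_cancel₀ hDD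
    rw [bal]; linear_combination - hW
  have hde' : de * (a - 1) = a * (W + 1) := by
    apply mul_right_cancel₀ hDD
    rw [bde]; linear_combination - a * hW
  -- `kap = 0` in the shape of `deg_flat`
  have kz : ∀ j, g.kap 1 (j + 1) = 0 → g.t 1 ^ j * g.H 1 (j + 1) = g.G 1 (j + 1) := by
    intro j h
    rw [GForm.kap, ha] at h
    rw [ha]
    apply mul_left_cancel₀ ha0
    rw [pow_succ] at h
    linear_combination - h
  have Wexc : ∀ j, j < m → g.t 1 ^ j * g.H 1 (j + 1) = g.G 1 (j + 1) →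
      (g.t 2 - 1) * g.G 1 (j + 1) = (g.t 2 - g.t 1) * (g.t 1 ^ j * (1 - g.mu' 0)) →
      g.t 1 * ((g.t 2 - 1) * g.G 1 (j + 1)) = (g.t 2 - g.t 1) * g.lam' 0 →
      W * (g.s (j + 1) + 1) = g.s (j + 1) - 1 := by
    intro j hj hc e1 e2
    obtain ⟨f1, f2, _⟩ := fam_exc g (by omega) ha hb' hx hy j hj hc e1 e2
    have := exc_T1 ha1 (g.s_ne (j + 1) (by omega)) f1 f2
    apply mul_right_cancel₀ hDD
    linear_combination (g.s (j + 1) + 1) * hW + this
  have hkap1 : g.kap 1 1 ≠ 0 := by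
    rw [GForm.kap, ha, pow_one]
    intro h
    have : a * (g.G 1 1 - g.H 1 1) = 0 := by linear_combination h
    exact hD (sub_eq_zero.mp ((mul_eq_zero.mp this).resolve_left ha0))
  have Dne : ∀ k, k < m → g.kap 1 k ≠ 0 → g.G 1 (k + 1) - g.t 1 ^ (k + 1) * g.H 1 (k + 1) ≠ 0 := by
    intro k hk hkk h
    have hs := g.D_succ (j := 1) (k := k) (by omega) hk
    rw [GForm.D, h] at hs
    exact (mul_ne_zero (sub_ne_zero.mpr (g.lm_ne k hk).symm) hkk) hs.symm
  have mulkap : ∀ k, g.t 1 ^ k * g.H 1 k - g.t 1 * g.G 1 k = 0 → g.kap 1 k = 0 := by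
    intro k h; rw [GForm.kap]; linear_combination - h
  have mulkap' : ∀ k, g.t 1 ^ k * g.H 1 (k + 1) - g.G 1 (k + 1) = 0 → g.kap 1 (k + 1) = 0 := by
    intro k h; rw [GForm.kap, pow_succ]; linear_combination - g.t 1 * h
  by_cases hk3 : g.kap 1 3 = 0
  · -- case B
    have hc := kz 2 hk3
    rcases deg_flat g (by omega) 2 (by omega) hc with h | ⟨e1, e2⟩
    · obtain ⟨C1, B', B, E⟩ := fam_closed g (by omega) ha hb' ha2 hx hy hal hde hW hal' hde' 2
        (by omega) 1 (by rw [hb']; ring) hc h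
      obtain ⟨_, hX⟩ := closed_odd h20 ha1 ha2 (pow_ne_zero _ ha0) C1 B' (by rw [B]) E
      have : a * ((a - 1) * (a + 1)) = 0 := by linear_combination hX
      exact (mul_ne_zero ha0 (mul_ne_zero ha1 ha2) this).elim
    have hT := Wexc 2 (by omega) hc e1 e2
    obtain ⟨f1, f2, f3⟩ := fam_exc g (by omega) ha hb' hx hy 2 (by omega) hc e1 e2
    norm_num at hT f1 f2 f3
    have R := exc_R ha1 ha2 f1 f2 f3
    have hcm : g.s 3 + 1 ≠ 0 := by
      intro h
      rw [h, mul_zero] at hT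
      exact h20 (by linear_combination hT + h)
    have hDk : g.G 1 4 = a * g.G 1 3 ∧ a ^ 4 * g.H 1 4 = g.G 1 4 := by
      have u1 := g.U1 1 3 (by omega) (by omega)
      have u2 := g.U2 1 3 (by omega) (by omega)
      rw [GForm.kap] at hk3
      rw [ha] at u1 u2 hk3
      norm_num at u1 u2
      have i1 : g.G 1 4 = a * g.G 1 3 := by linear_combination u1 - g.lam 3 * hk3
      refine ⟨i1, ?_⟩
      linear_combination u2 - i1 - g.mu 3 * hk3
    obtain ⟨hG4, hH4⟩ := hDk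
    have hlam0 : g.lam' 0 = 1 - x := by rw [hx]; ring
    have hlam1 : g.lam' 1 = 1 - al := by rw [hal]; ring
    have r3 := g.row1G (k := 3) (by omega) (by omega)
    have r4 := g.row1G (k := 4) (by omega) (by omega)
    rw [hlam0] at r3 r4
    have hs4 : g.s 4 = - g.s 3 := by
      apply mul_left_cancel₀ hx0
      linear_combination - r4 + hG4 + a * r3 + f1
    have hG13 : g.G 1 3 ≠ 0 := by
      intro h
      have h' : g.H 1 3 = 0 := by
        rw [ha, h] at hc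
        exact (mul_eq_zero.1 hc).resolve_left (pow_ne_zero 2 ha0)
      exact g.ne_zero (by omega) (by omega) ⟨h, h'⟩
    refine ⟨W, by rw [ha, ← hx, ← hy]; exact hDD, ?_, ?_, ?_, hT, by rw [ha]; exact R, hs4, ?_⟩
    · rw [ha, ← hx, ← hy, hW, hx]; ring
    · rw [ha, ← hal]; exact hal'
    · rw [ha, ← hde]; exact hde'
    · rw [GForm.kap, ha]
      intro h
      refine mul_ne_zero (mul_ne_zero ha1 ha0) hG13 ?_
      linear_combination h + hH4 - (a - 1) * hG4
  · -- case A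
    rcases local_flat2 g (by omega) 2 (by omega) with h | h | h | h | ⟨hL, hM⟩
    · exact (Dne 1 (by omega) hkap1 h).elim
    · exact (hk (mulkap 2 h)).elim
    · exact (hk3 (mulkap' 2 h)).elim
    · rw [hs2, hb', ha] at h
      exfalso
      apply hca
      apply mul_left_cancel₀ ha0
      linear_combination - h
    rw [hs2, hb', ha, ← hal, ← hde] at hM
    have hM' : de = -(a * g.s 3 * al) := by
      apply mul_left_cancel₀ (pow_ne_zero 2 ha0)
      linear_combination - hM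
    have hT : W * (g.s 3 + 1) = g.s 3 - 1 := by
      apply mul_left_cancel₀ ha0
      linear_combination - hde' + (a - 1) * hM' - a * g.s 3 * hal'
    have hlam0 : g.lam' 0 = 1 - x := by rw [hx]; ring
    have r2 := g.row1G (k := 2) (by omega) (by omega)
    have r2' := g.row1H (k := 2) (by omega) (by omega)
    have r3 := g.row1G (k := 3) (by omega) (by omega)
    have r3' := g.row1H (k := 3) (by omega) (by omega)
    rw [hlam0] at r2 r3
    rw [← hy] at r2' r3'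
    rw [hs2] at r2 r2'
    rw [hs2, hb', ha] at hL
    norm_num at hL
    have R : g.s 3 ^ 2 - (a + 1) * (a ^ 2 + a + 1) * g.s 3 + a ^ 3 = 0 := by
      apply type1_R (x := x) (y := y) hDD
      · linear_combination - (g.s 3 + 1) * hW + (a * x + y) * hT
      · linear_combination hL + a ^ 3 * r2' + a ^ 2 * r3 + a ^ 2 * r3' - g.s 3 * r2
    have dead4 : g.kap 1 4 = 0 → False := by
      intro h4
      have hc := kz 3 h4
      rcases deg_flat g (by omega) 3 (by omega) hc with h | ⟨e1, e2⟩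
      · obtain ⟨C1, _, _, _⟩ := fam_closed g (by omega) ha hb' ha2 hx hy hal hde hW hal' hde' 3
          (by omega) (-1) (by rw [hb']; ring) hc h
        exact closed_four h20 ha0 ha1 ha2 hc0 hca hT C1 R
      · have hT4 := Wexc 3 (by omega) hc e1 e2
        have : 2 * (g.s 4 - g.s 3) = 0 := by
          norm_num at hT4
          linear_combination (g.s 4 + 1) * hT - (g.s 3 + 1) * hT4
        rcases mul_eq_zero.mp this with h | h
        · exact h20 h
        · exact g.s_inj 3 4 (by omega) (by omega) (sub_eq_zero.mp h).symm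
    have hs4 : g.s 4 = - g.s 3 := by
      rcases local_flat2 g (by omega) 3 (by omega) with h | h | h | h | ⟨_, h⟩
      · exact (Dne 2 (by omega) hk h).elim
      · exact (hk3 (mulkap 3 h)).elim
      · exact (dead4 (mulkap' 3 h)).elim
      · rw [hb', ha] at h
        apply mul_left_cancel₀ ha0
        linear_combination - h
      · exfalso
        rw [hb', ha, ← hal, ← hde] at h
        have h5 : (a ^ 3 * al * g.s 3) * (g.s 4 - a) = 0 := by
          linear_combination h - a ^ 3 * hM'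
        have h6 := (mul_eq_zero.mp h5).resolve_left
          (mul_ne_zero (mul_ne_zero (pow_ne_zero 3 ha0) hal0) hc0)
        exact g.s_inj 1 4 (by omega) (by omega) (by rw [hs1]; linear_combination - h6)
    refine ⟨W, by rw [ha, ← hx, ← hy]; exact hDD, ?_, ?_, ?_, hT, by rw [ha]; exact R, hs4,
      fun h => dead4 h⟩
    · rw [ha, ← hx, ← hy, hW, hx]; ring
    · rw [ha, ← hal]; exact hal'
    · rw [ha, ← hde]; exact hde'

/-- column 5, closed -/
theorem b_neg_s5_alg {a c W E al de G14 H14 G24 H24 G15 H15 G25 H25 lam mu : F}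
    (ha : a ≠ 0) (ha1 : a - 1 ≠ 0) (ha2 : a + 1 ≠ 0) (h2 : (2 : F) ≠ 0) (hc : c ≠ 0)
    (hW : W * (c + 1) = c - 1) (hal : al * (a - 1) = W - 1) (hde : de * (a - 1) = a * (W + 1))
    (R : c ^ 2 - (a + 1) * (a ^ 2 + a + 1) * c + a ^ 3 = 0)
    (hH : H15 ≠ 0) (hG15 : G15 = a ^ 4 * H15)
    (hG25 : G25 = a ^ 4 * H25)
    (q4 : G24 = -c * (al * G14 + (1 - al) * H14)) (q4' : -c * H24 = (1 - de) * G14 + de * H14)
    (q5 : G25 = E * (al * G15 + (1 - al) * H15))
    (U1 : G15 = (1 - lam) * (a * G14) + lam * (a ^ 4 * H14))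
    (U2 : a ^ 5 * H15 = (1 - mu) * (a * G14) + mu * (a ^ 4 * H14))
    (V1 : G25 = (1 - lam) * (-a * G24) + lam * (a ^ 4 * H24))
    (V2 : -(a ^ 5) * H25 = (1 - mu) * (-a * G24) + mu * (a ^ 4 * H24)) : E = -(a * c) := by
  have hc1 : c + 1 ≠ 0 := by
    intro h
    rw [h, mul_zero] at hW
    exact h2 (by linear_combination hW + h)
  have w1 : (W - 1) * (c + 1) = -2 := by linear_combination hW
  have w2 : (W + 1) * (c + 1) = 2 * c := by linear_combination hW
  have k1 : al * ((c + 1) * (a - 1)) = -2 := by linear_combination (c + 1) * hal + w1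
  have k2 : de * ((c + 1) * (a - 1)) = 2 * a * c := by linear_combination (c + 1) * hde + a * w2
  have key : (a - 1) * (G24 + a ^ 3 * H24) = (a + 1) * (G14 - a ^ 3 * H14) := by
    apply mul_left_cancel₀ (mul_ne_zero hc hc1)
    linear_combination c * (c + 1) * (a - 1) * q4 - a ^ 3 * ((c + 1) * (a - 1)) * q4'
      - c ^ 2 * (G14 - H14) * k1 + a ^ 3 * (G14 - H14) * k2 - (a - 1) * (G14 + c * H14) * R
  have hHH : H25 = H15 := by
    apply mul_left_cancel₀ (mul_ne_zero (mul_ne_zero ha1 ha2) (pow_ne_zero 4 ha))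
    linear_combination (a - 1) * (V1 - V2 - hG25) + (a + 1) * (U1 - U2 - hG15)
      - a * (mu - lam) * key
  have e1 : a ^ 4 = E * (al * (a ^ 4 - 1) + 1) := by
    apply mul_right_cancel₀ hH
    linear_combination q5 - hG25 - a ^ 4 * hHH + E * al * hG15
  have e2 : a ^ 4 * (c + 1) = E * (c + 1 - 2 * (a + 1) * (a ^ 2 + 1)) := by
    linear_combination (c + 1) * e1 + E * (c + 1) * (a + 1) * (a ^ 2 + 1) * hal
      + E * (a + 1) * (a ^ 2 + 1) * w1
  have e3 : c + 1 - 2 * (a + 1) * (a ^ 2 + 1) ≠ 0 := by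
    intro h
    rw [h, mul_zero] at e2
    exact mul_ne_zero (pow_ne_zero 4 ha) hc1 e2
  apply mul_right_cancel₀ e3
  linear_combination -e2 + a * R

/-- `s 5` in the closed corner `m = 5` -/
theorem b_neg_s5 (g : GForm F 5) (hcl : g.Closed) (hD : g.G 1 1 ≠ g.H 1 1) (h1 : g.t 1 = g.s 1)
    (h2 : g.t 2 = g.s 2) (hb : g.t 2 = - g.t 1) (hk : g.kap 1 2 ≠ 0) :
    g.s 5 = -(g.t 1 * g.s 3) := by
  obtain ⟨W, hDD, hW, hal, hde, hT, R, hs4, h14⟩ := b_neg_cols g le_rfl hD h1 h2 hb hk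
  obtain ⟨a, ha⟩ : ∃ a, g.t 1 = a := ⟨_, rfl⟩
  have hb' : g.t 2 = -a := by rw [hb, ha]
  have ha0 : a ≠ 0 := by rw [← ha]; exact g.t_ne 1 (by omega)
  have ha1 : a - 1 ≠ 0 := by
    rw [← ha, ← g.t0]; exact sub_ne_zero.mpr (g.t_inj 0 1 (by omega) (by omega)).symm
  have ha2 : a + 1 ≠ 0 := by
    intro h
    apply g.t_inj 0 2 (by omega) (by omega)
    rw [g.t0, hb']; linear_combination h
  have h20 : (2 : F) ≠ 0 := by
    intro h
    apply g.t_inj 1 2 (by omega) (by omega)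
    rw [ha, hb']; linear_combination a * h
  have r1 := hcl.row' (κ := 4) rfl (j := 1) (by omega)
  have r2 := hcl.row' (κ := 4) rfl (j := 2) (by omega)
  have q4 := g.row2G (k := 4) (by omega) (by omega)
  have q4' := g.row2H (k := 4) (by omega) (by omega)
  have q5 := g.row2G (k := 5) (by omega) (by omega)
  have u1 := g.U1 1 4 (by omega) (by omega)
  have u2 := g.U2 1 4 (by omega) (by omega)
  have u3 := g.U1 2 4 (by omega) (by omega)
  have u4 := g.U2 2 4 (by omega) (by omega)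
  rw [ha] at r1 u1 u2 hal hde R ⊢
  rw [hb'] at r2 u3 u4
  rw [hs4] at q4 q4'
  refine b_neg_s5_alg (al := 1 - g.lam' 1) (de := g.mu' 1) (W := W) (G14 := g.G 1 4)
    (H14 := g.H 1 4) (G24 := g.G 2 4) (H24 := g.H 2 4) (G15 := g.G 1 5) (H15 := g.H 1 5)
    (G25 := g.G 2 5) (H25 := g.H 2 5) (lam := g.lam 4) (mu := g.mu 4)
    ha0 ha1 ha2 h20 (g.s_ne 3 (by omega)) hT hal hde R (hcl.H_ne (by omega)) r1
    (by linear_combination r2) (by linear_combination q4) q4' (by linear_combination q5)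
    u1 u2 (by linear_combination u3) (by linear_combination u4)

/-- E1: the closed corners `m = 5` with `t_1 = s_1`, `t_2 = s_2 = - t_1`. -/
theorem e1_of_closed (g : GForm F 5) (hcl : g.Closed) (hD : g.G 1 1 ≠ g.H 1 1)
    (h1 : g.t 1 = g.s 1) (h2 : g.t 2 = g.s 2) (hb : g.t 2 = - g.t 1) (hk : g.kap 1 2 ≠ 0) :
    ∃ a r : F, r ^ 2 + (1 + a) * (1 + a + a ^ 2) * r + a ^ 3 = 0 ∧ a ≠ 0 ∧ r ≠ 0 ∧
      g.t 1 = a ∧ g.t 2 = -a ∧ g.t 3 = -r ∧ g.t 4 = r ∧ g.t 5 = a * r ∧
      g.s 1 = a ∧ g.s 2 = -a ∧ g.s 3 = -r ∧ g.s 4 = r ∧ g.s 5 = a * r ∧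
      (r + 1) * (a * (1 - g.lam' 0) + g.mu' 0) =
        (r - 1) * (g.lam' 0 - a * (1 - g.mu' 0)) := by
  obtain ⟨W, hDD, hW, hal, hde, hT, R, hs4, -⟩ := b_neg_cols g le_rfl hD h1 h2 hb hk
  have hs5 := b_neg_s5 g hcl hD h1 h2 hb hk
  have ht := g.t_ne 1 (by omega)
  have ht1 : g.t 1 - 1 ≠ 0 := by
    rw [← g.t0]; exact sub_ne_zero.mpr (g.t_inj 0 1 (by omega) (by omega)).symm
  have r1 := g.row1G (k := 1) (by omega) (by omega)
  have q1 := g.row1H (k := 1) (by omega) (by omega)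
  have r2 := g.row1G (k := 2) (by omega) (by omega)
  have q2 := g.row1H (k := 2) (by omega) (by omega)
  have s11 := g.swap.row1G (k := 1) (by omega) (by omega)
  have s12 := g.swap.row1H (k := 1) (by omega) (by omega)
  have s21 := g.swap.row1G (k := 2) (by omega) (by omega)
  have s22 := g.swap.row1H (k := 2) (by omega) (by omega)
  simp only [GForm.swap_G, GForm.swap_lam', GForm.swap_s, GForm.swap_H,
    GForm.swap_mu'] at s11 s12 s21 s22
  have hl : g.lam 0 = g.lam' 0 := by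
    apply mul_left_cancel₀ ht1
    rw [← h1] at r1
    linear_combination s11 - r1
  have hmu : g.mu 0 = g.mu' 0 := by
    apply mul_left_cancel₀ ht1
    rw [← h1] at q1
    linear_combination s12 - q1
  have hG : g.G 2 1 = g.G 1 2 := by
    rw [hl] at s21
    linear_combination s21 - r2 + (1 - g.lam' 0) * h2
  have hH : g.H 2 1 = g.H 1 2 := by
    apply mul_left_cancel₀ (g.t_ne 2 (by omega))
    rw [hmu] at s22
    linear_combination s22 - q2 + (1 - g.mu' 0) * h2 - g.H 1 2 * h2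
  obtain ⟨W', hDD', hW', hal', hde', hT', R', hs4', -⟩ := b_neg_cols g.swap le_rfl
    (by simpa using hD) h1.symm h2.symm (by simp only [GForm.swap_t]; rw [← h2, ← h1, hb])
    (by
      rw [GForm.kap] at hk ⊢
      simp only [GForm.swap_t, GForm.swap_G, GForm.swap_H]
      rw [hG, hH, ← h1]
      exact hk)
  have ht5 := b_neg_s5 g.swap hcl.swap (by simpa using hD) h1.symm h2.symm
    (by simp only [GForm.swap_t]; rw [← h2, ← h1, hb])
    (by
      rw [GForm.kap] at hk ⊢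
      simp only [GForm.swap_t, GForm.swap_G, GForm.swap_H]
      rw [hG, hH, ← h1]
      exact hk)
  simp only [GForm.swap_t, GForm.swap_lam', GForm.swap_mu', GForm.swap_s] at hDD' hW' hT' hs4' ht5
  rw [hl, hmu, ← h1] at hW'
  have hWW : W' = W := by
    apply mul_right_cancel₀ hDD
    linear_combination hW' - hW
  rw [hWW] at hT'
  have hW1 : W - 1 ≠ 0 := by
    rw [← hal]
    exact mul_ne_zero (sub_ne_zero.mpr (g.lam'_ne 1 (by omega)).symm) ht1
  have h3 : g.t 3 = g.s 3 := by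
    apply mul_left_cancel₀ hW1
    linear_combination hT' - hT
  refine ⟨g.t 1, -g.s 3, ?_, ht, neg_ne_zero.mpr (g.s_ne 3 (by omega)), rfl, hb, ?_, ?_, ?_,
    h1.symm, ?_, ?_, ?_, ?_, ?_⟩
  · linear_combination R
  · rw [h3]; ring
  · rw [hs4', h3]
  · rw [ht5, h3, ← h1]; ring
  · rw [← h2, hb]
  · ring
  · exact hs4
  · rw [hs5]; ring
  · linear_combination -(g.s 3 + 1) * hW + (g.t 1 * (1 - g.lam' 0) + g.mu' 0) * hT

end Pool.Agent.Helper76.IP
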