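import Pool.Agent.Helper76.IP.Z1Alg
import Pool.Agent.Helper54.IP.GSwap
import Pool.Agent.Helper54.IP.QX
import Pool.Agent.Helper43.IPL.Flat

/-!
TH-P (MP_d2f54f_al), the branch `G 1 1 = H 1 1`.
-/

namespace Pool.Agent.Helper76.IP

open Pool.Agent.Helper54.IP

variable {F : Type*} [Field F] {m : ℕ}

section basic

variable (g : GForm F m)

/-- column 2: `s_2 = -t_1` and `x (1 + t_1 s_1) = 1 - t_1`, `x' = - s_1 x` -/
theorem z1_col2 (hm : 2 ≤ m) (h : g.G 1 1 = g.H 1 1) :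
    g.mu' 0 = -g.s 1 * (1 - g.lam' 0) ∧ g.s 2 = -g.t 1 ∧
      (1 - g.lam' 0) * (1 + g.t 1 * g.s 1) = 1 - g.t 1 := by
  have hs1 : g.s 1 - 1 ≠ 0 := by
    rw [← g.s0]
    exact sub_ne_zero.2 (g.s_inj 0 1 (by omega) (by omega)).symm
  have hs1' := g.s_ne 1 (by omega)
  have hs2' := g.s_ne 2 (by omega)
  have ht1' := g.t_ne 1 (by omega)
  have hs12 : g.s 2 - g.s 1 ≠ 0 := sub_ne_zero.2 (g.s_inj 1 2 (by omega) (by omega)).symm
  have r1 := g.row1G (by omega) (show 1 ≤ m by omega)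
  have r1' := g.row1H (by omega) (show 1 ≤ m by omega)
  have r2 := g.row1G (by omega) (show 2 ≤ m by omega)
  have r2' := g.row1H (by omega) (show 2 ≤ m by omega)
  have u1 := g.U1 1 1 (by omega) (by omega)
  have u2 := g.U2 1 1 (by omega) (by omega)
  rw [← h] at r1' u1 u2
  obtain ⟨x, hx⟩ : ∃ x, x = 1 - g.lam' 0 := ⟨_, rfl⟩
  have hl : g.lam' 0 = 1 - x := by linear_combination hx
  have hx0 : x ≠ 0 := by
    rw [hx]
    exact sub_ne_zero.2 (g.lam'_ne 0 (by omega)).symm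
  rw [hl] at r1 r2
  have e1 : g.mu' 0 = -g.s 1 * x := by
    have : (g.s 1 - 1) * (g.mu' 0 + g.s 1 * x) = 0 := by
      linear_combination r1' - g.s 1 * r1
    linear_combination (mul_eq_zero.1 this).resolve_left hs1
  have u1' : g.G 1 2 = g.t 1 * g.G 1 1 := by linear_combination u1
  have u2' : g.t 1 * g.H 1 2 = g.G 1 1 := by
    have : g.t 1 * (g.t 1 * g.H 1 2) = g.t 1 * g.G 1 1 := by linear_combination u2
    exact mul_left_cancel₀ ht1' this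
  rw [e1] at r2'
  rw [r2, r1] at u1'
  have r2'' : g.s 2 * g.G 1 1 = g.t 1 * ((1 - -g.s 1 * x) * g.s 2 + -g.s 1 * x) := by
    linear_combination (-g.s 2) * u2' + g.t 1 * r2'
  rw [r1] at r2''
  have e2 : (x * (g.s 2 - g.s 1)) * (g.s 2 + g.t 1) = 0 := by
    linear_combination g.s 2 * u1' - r2''
  have e3 := (mul_eq_zero.1 e2).resolve_left (mul_ne_zero hx0 hs12)
  have e4 : g.s 2 = -g.t 1 := by linear_combination e3
  refine ⟨by rw [← hx, e1], e4, ?_⟩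
  rw [← hx]
  rw [e4] at u1'
  linear_combination -u1'

end basic

/-- columns 2, 3 : the scalar identity -/
private theorem z1_k2 {a b c al de A B P Q R : F} (hP : P = a * (1 + b) + (1 - a) * c)
    (hQ : c * Q = (1 + b) * c - b * (1 - a)) (hR : c * R = (1 - de) * P + de * Q)
    (hA : A = al * (1 - a ^ 2)) (hB : a ^ 2 * B = de * (1 - a ^ 2))
    (hE : (P - a ^ 2 * (a + b)) * (b * ((1 - A) + b * (1 + B))) =
      (c * (al * P + (1 - al) * Q) - b * (1 - A) * (a + b)) * (a * (a - 1)))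
    (hF : (a ^ 3 * Q - a ^ 2 * (a + b)) * (b * ((1 - A) + b * (1 + B))) =
      (-b ^ 3 * R - b * (1 - A) * (a + b)) * (a * (a - 1))) :
    a * b * (1 - a) * ((c + a) * (c + a * b) * (a * c * A + b ^ 2 * B)) = 0 := by
  have h1 : al * (a ^ 2 - 1) = -A := by linear_combination hA
  have h2 : de * (a ^ 2 - 1) = -(a ^ 2 * B) := by linear_combination hB
  have E1 : (1 + a) * (P - a ^ 2 * (a + b)) * (b * ((1 - A) + b * (1 + B))) -
      a * ((-A) * (c * P - c * Q) + (a ^ 2 - 1) * (c * Q) - b * (1 - A) * (a + b) * (a ^ 2 - 1)) = 0 := by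
    linear_combination (1 + a) * hE + a * c * (P - Q) * h1
  have F1 : c * (1 + a) * (a ^ 3 * Q - a ^ 2 * (a + b)) * (b * ((1 - A) + b * (1 + B))) +
      a * (b ^ 3 * ((a ^ 2 - 1) * P + a ^ 2 * B * (P - Q)) +
        b * (1 - A) * (a + b) * (a ^ 2 - 1) * c) = 0 := by
    linear_combination c * (1 + a) * hF - a * b ^ 3 * (a ^ 2 - 1) * hR + a * b ^ 3 * (P - Q) * h2
  subst hP
  linear_combination a * b * c * E1 + c * F1 - (a * b * c * (-a * (A + a ^ 2 - 1)) +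
    (1 + a) * a ^ 3 * b * c * ((1 - A) + b * (1 + B)) - a ^ 3 * b ^ 3 * B) * hQ

/-- the elementary consequences of `G 1 1 = H 1 1` -/
structure Bas (g : GForm F m) : Prop where
  a0 : g.t 1 ≠ 0
  b0 : g.s 1 ≠ 0
  a1 : g.t 1 ≠ 1
  b1 : g.s 1 ≠ 1
  am : g.t 1 ≠ -1
  bm : g.s 1 ≠ -1
  s2 : g.s 2 = -g.t 1
  t2 : g.t 2 = -g.s 1
  c0 : 1 + g.t 1 * g.s 1 ≠ 0
  d0 : g.t 1 + g.s 1 ≠ 0
  hx : (1 - g.lam' 0) * (1 + g.t 1 * g.s 1) = 1 - g.t 1
  hx' : g.mu' 0 = -g.s 1 * (1 - g.lam' 0)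
  hG : (1 + g.t 1 * g.s 1) * g.G 1 1 = g.t 1 + g.s 1

theorem z1_bas (g : GForm F m) (hm : 2 ≤ m) (h : g.G 1 1 = g.H 1 1) : Bas g := by
  obtain ⟨p1, p2, p3⟩ := z1_col2 g hm h
  obtain ⟨-, q2, -⟩ := z1_col2 g.swap hm h
  have ha1 : g.t 1 ≠ 1 := by
    rw [← g.t0]
    exact (g.t_inj 0 1 (by omega) (by omega)).symm
  have hb1 : g.s 1 ≠ 1 := by
    rw [← g.s0]
    exact (g.s_inj 0 1 (by omega) (by omega)).symm
  have hs2 : g.s 2 ≠ 1 := by
    rw [← g.s0]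
    exact (g.s_inj 0 2 (by omega) (by omega)).symm
  have ht2 : g.t 2 ≠ 1 := by
    rw [← g.t0]
    exact (g.t_inj 0 2 (by omega) (by omega)).symm
  have q2' : g.t 2 = -g.s 1 := q2
  have hG : (1 + g.t 1 * g.s 1) * g.G 1 1 = g.t 1 + g.s 1 := by
    have r1 := g.row1G (by omega) (show 1 ≤ m by omega)
    linear_combination (1 + g.t 1 * g.s 1) * r1 - (1 - g.s 1) * p3
  have c0 : 1 + g.t 1 * g.s 1 ≠ 0 := by
    intro h0
    rw [h0, mul_zero] at p3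
    exact ha1 (by linear_combination p3)
  refine ⟨g.t_ne 1 (by omega), g.s_ne 1 (by omega), ha1, hb1, ?_, ?_, p2, q2', c0, ?_, p3, p1, hG⟩
  · intro h0
    rw [h0] at p2
    exact hs2 (by linear_combination p2)
  · intro h0
    rw [h0] at q2'
    exact ht2 (by linear_combination q2')
  · intro h0
    rw [h0] at hG
    have h1 := (mul_eq_zero.1 hG).resolve_left c0
    exact g.ne_zero (show 1 ≤ m by omega) (show 1 ≤ m by omega) ⟨h1, by rw [← h, h1]⟩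

theorem Bas.swap {g : GForm F m} (hm : 2 ≤ m) (h : g.G 1 1 = g.H 1 1) : Bas g.swap :=
  z1_bas g.swap hm h

section row1

variable {g : GForm F m} (B : Bas g)

include B

theorem Bas.rowG {k : ℕ} (hm : 1 ≤ m) (hk : k ≤ m) :
    (1 + g.t 1 * g.s 1) * g.G 1 k = g.t 1 * (1 + g.s 1) + (1 - g.t 1) * g.s k := by
  have r1 := g.row1G hm hk
  linear_combination (1 + g.t 1 * g.s 1) * r1 + (g.s k - 1) * B.hx

theorem Bas.rowH {k : ℕ} (hm : 1 ≤ m) (hk : k ≤ m) :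
    g.s k * ((1 + g.t 1 * g.s 1) * g.H 1 k) = (1 + g.s 1) * g.s k - g.s 1 * (1 - g.t 1) := by
  have r1 := g.row1H hm hk
  rw [B.hx'] at r1
  linear_combination (1 + g.t 1 * g.s 1) * r1 + g.s 1 * (g.s k - 1) * B.hx

/-- the only degenerate columns are `0` and `1` -/
theorem Bas.kap_ne {k : ℕ} (hk2 : 2 ≤ k) (hk : k < m) : g.kap 1 k ≠ 0 := by
  intro h0
  have hm : 1 ≤ m := by omega
  have u1 := g.G_succ hm hk
  have u2 := g.H_succ hm hk
  rw [h0, mul_zero, sub_zero] at u1 u2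
  rw [GForm.kap] at h0
  have ha := B.a0
  have hak : g.t 1 ^ k ≠ 0 := pow_ne_zero _ ha
  have v2 : g.t 1 * g.H 1 (k + 1) = g.H 1 k := by
    apply mul_left_cancel₀ hak
    linear_combination u2 + h0
  have g1 := B.rowG hm (le_of_lt hk)
  have g2 := B.rowG hm (show k + 1 ≤ m by omega)
  have h1 := B.rowH hm (le_of_lt hk)
  have h2 := B.rowH hm (show k + 1 ≤ m by omega)
  have hs := g.s_ne k (le_of_lt hk)
  have hs' := g.s_ne (k + 1) (by omega)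
  have ha1 : 1 - g.t 1 ≠ 0 := sub_ne_zero.2 B.a1.symm
  -- `S = a s - a (1 + b)`
  have e1 : g.s (k + 1) = g.t 1 * g.s k - g.t 1 * (1 + g.s 1) := by
    apply mul_left_cancel₀ ha1
    linear_combination (1 + g.t 1 * g.s 1) * u1 + g.t 1 * g1 - g2
  have e2a : g.s (k + 1) * ((1 + g.s 1) * g.s k - g.s 1 * (1 - g.t 1)) -
      g.t 1 * g.s k * ((1 + g.s 1) * g.s (k + 1) - g.s 1 * (1 - g.t 1)) = 0 := by
    linear_combination (-g.s (k + 1)) * h1 + g.t 1 * g.s k * h2 -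
      g.s k * g.s (k + 1) * (1 + g.t 1 * g.s 1) * v2
  have e2 : (1 - g.t 1) * ((1 + g.s 1) * ((g.s k - 1) * (g.s k - g.s 1))) = 0 := by
    rw [e1] at e2a
    have : g.t 1 * ((1 - g.t 1) * ((1 + g.s 1) * ((g.s k - 1) * (g.s k - g.s 1)))) = 0 := by
      linear_combination e2a
    exact (mul_eq_zero.1 this).resolve_left ha
  have hb : 1 + g.s 1 ≠ 0 := fun h => B.bm (by linear_combination h)
  rcases mul_eq_zero.1 ((mul_eq_zero.1 ((mul_eq_zero.1 e2).resolve_left ha1)).resolve_left hb) with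
    h | h
  · apply g.s_inj 0 k (by omega) (by omega)
    rw [g.s0]
    linear_combination -h
  · apply g.s_inj 1 k (by omega) (by omega)
    linear_combination -h

end row1

/-- `G 1 2 = a G 1 1`, `a H 1 2 = G 1 1` -/
theorem z1_12 (g : GForm F m) (hm : 2 ≤ m) (h : g.G 1 1 = g.H 1 1) :
    g.G 1 2 = g.t 1 * g.G 1 1 ∧ g.t 1 * g.H 1 2 = g.G 1 1 := by
  have u1 := g.U1 1 1 (by omega) (by omega)
  have u2 := g.U2 1 1 (by omega) (by omega)
  rw [← h] at u1 u2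
  refine ⟨by linear_combination u1, ?_⟩
  have : g.t 1 * (g.t 1 * g.H 1 2) = g.t 1 * g.G 1 1 := by linear_combination u2
  exact mul_left_cancel₀ (g.t_ne 1 (by omega)) this

/-- row 2, column 2 -/
theorem z1_22 (g : GForm F m) (hm : 2 ≤ m) (h : g.G 1 1 = g.H 1 1) :
    g.G 2 2 = -(1 - (1 - g.lam' 1) * (1 - g.t 1 ^ 2)) * g.G 1 1 ∧
    g.t 1 ^ 2 * g.H 2 2 = -(g.t 1 ^ 2 + g.mu' 1 * (1 - g.t 1 ^ 2)) * g.G 1 1 := by
  have B := z1_bas g hm h
  obtain ⟨e1, e2⟩ := z1_12 g hm h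
  have r1 := g.row2G hm (k := 2) hm
  have r2 := g.row2H hm (k := 2) hm
  rw [B.s2, e1] at r1 r2
  refine ⟨by linear_combination r1 - g.lam' 1 * e2, ?_⟩
  linear_combination (-g.t 1) * r2 - g.mu' 1 * e2

/-- the two strips have the same invariants `A`, `B` -/
theorem z1_sym (g : GForm F m) (hm : 2 ≤ m) (h : g.G 1 1 = g.H 1 1) :
    (1 - g.lam 1) * (1 - g.s 1 ^ 2) = (1 - g.lam' 1) * (1 - g.t 1 ^ 2) ∧
    g.mu 1 * (1 - g.s 1 ^ 2) * g.t 1 ^ 2 = g.mu' 1 * (1 - g.t 1 ^ 2) * g.s 1 ^ 2 := by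
  have B := z1_bas g hm h
  obtain ⟨e1, e2⟩ := z1_22 g hm h
  obtain ⟨e3, e4⟩ := z1_22 g.swap hm h
  simp only [GForm.swap_G, GForm.swap_H, GForm.swap_t, GForm.swap_lam',
    GForm.swap_mu'] at e3 e4
  have hG : g.G 1 1 ≠ 0 := by
    intro h0
    exact g.ne_zero (show 1 ≤ m by omega) (show 1 ≤ m by omega) ⟨h0, by rw [← h, h0]⟩
  constructor
  · apply mul_left_cancel₀ hG
    linear_combination e1 - e3
  · apply mul_left_cancel₀ hG
    linear_combination g.t 1 ^ 2 * e4 - g.s 1 ^ 2 * e2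

/-- columns 2 and 3 -/
theorem z1_c3 (g : GForm F m) (hm : 3 ≤ m) (h : g.G 1 1 = g.H 1 1) :
    (g.s 3 + g.t 1 * g.s 1) * (g.t 1 ^ 3 * g.s 3 * (1 - g.lam' 1) + g.s 1 ^ 2 * g.mu' 1) = 0 := by
  have B := z1_bas g (by omega) h
  obtain ⟨e1, e2⟩ := z1_12 g (by omega) h
  obtain ⟨e3, e4⟩ := z1_22 g (by omega) h
  have hG := B.hG
  have g1 := g.G_succ (j := 1) (k := 2) (by omega) (by omega)
  have g2 := g.G_succ (j := 2) (k := 2) (by omega) (by omega)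
  have h1 := g.H_succ (j := 1) (k := 2) (by omega) (by omega)
  have h2 := g.H_succ (j := 2) (k := 2) (by omega) (by omega)
  have E : (g.G 1 3 - g.t 1 * g.G 1 2) * g.kap 2 2 = (g.G 2 3 - g.t 2 * g.G 2 2) * g.kap 1 2 := by
    linear_combination g.kap 2 2 * g1 - g.kap 1 2 * g2
  have F' : (g.t 1 ^ 3 * g.H 1 3 - g.t 1 * g.G 1 2) * g.kap 2 2 =
      (g.t 2 ^ 3 * g.H 2 3 - g.t 2 * g.G 2 2) * g.kap 1 2 := by
    linear_combination g.kap 2 2 * h1 - g.kap 1 2 * h2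
  have p := B.rowG (show 1 ≤ m by omega) (show 3 ≤ m by omega)
  have q := B.rowH (show 1 ≤ m by omega) (show 3 ≤ m by omega)
  have r := g.row2G (show 2 ≤ m by omega) (show 3 ≤ m by omega)
  have r' := g.row2H (show 2 ≤ m by omega) (show 3 ≤ m by omega)
  have a0 := B.a0
  have b0 := B.b0
  have c0 := B.c0
  have d0 := B.d0
  have s3 := g.s_ne 3 (by omega)
  have k12 : (1 + g.t 1 * g.s 1) * g.kap 1 2 = g.t 1 * (g.t 1 - 1) * (g.t 1 + g.s 1) := by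
    rw [GForm.kap, e1]
    linear_combination (g.t 1 ^ 2 - g.t 1) * hG - (1 + g.t 1 * g.s 1) * g.t 1 * e2
  obtain ⟨A, hA⟩ : ∃ A, A = (1 - g.lam' 1) * (1 - g.t 1 ^ 2) := ⟨_, rfl⟩
  obtain ⟨B', hB'⟩ : ∃ B', g.t 1 ^ 2 * B' = g.mu' 1 * (1 - g.t 1 ^ 2) :=
    ⟨g.mu' 1 * (1 - g.t 1 ^ 2) / g.t 1 ^ 2, by field_simp⟩
  have G22 : g.G 2 2 = -(1 - A) * g.G 1 1 := by rw [e3, hA]
  have H22 : g.H 2 2 = -(1 + B') * g.G 1 1 := by
    apply mul_left_cancel₀ (pow_ne_zero 2 a0)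
    linear_combination e4 + g.G 1 1 * hB'
  have k22 : (1 + g.t 1 * g.s 1) * g.kap 2 2 =
      (g.t 1 + g.s 1) * (g.s 1 * ((1 - A) + g.s 1 * (1 + B'))) := by
    rw [GForm.kap, B.t2, G22, H22]
    linear_combination (g.s 1 * ((1 - A) + g.s 1 * (1 + B'))) * hG
  have n1 : (1 + g.t 1 * g.s 1) * (g.G 1 3 - g.t 1 * g.G 1 2) =
      (1 + g.t 1 * g.s 1) * g.G 1 3 - g.t 1 ^ 2 * (g.t 1 + g.s 1) := by
    rw [e1]
    linear_combination (-g.t 1 ^ 2) * hG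
  have n3 : (1 + g.t 1 * g.s 1) * (g.t 1 ^ 3 * g.H 1 3 - g.t 1 * g.G 1 2) =
      g.t 1 ^ 3 * ((1 + g.t 1 * g.s 1) * g.H 1 3) - g.t 1 ^ 2 * (g.t 1 + g.s 1) := by
    rw [e1]
    linear_combination (-g.t 1 ^ 2) * hG
  have n2 : (1 + g.t 1 * g.s 1) * (g.G 2 3 - g.t 2 * g.G 2 2) =
      g.s 3 * ((1 - g.lam' 1) * ((1 + g.t 1 * g.s 1) * g.G 1 3) +
        (1 - (1 - g.lam' 1)) * ((1 + g.t 1 * g.s 1) * g.H 1 3)) -
        g.s 1 * (1 - A) * (g.t 1 + g.s 1) := by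
    rw [r, B.t2, G22]
    linear_combination (-g.s 1 * (1 - A)) * hG
  have n4 : (1 + g.t 1 * g.s 1) * (g.t 2 ^ 3 * g.H 2 3 - g.t 2 * g.G 2 2) =
      -g.s 1 ^ 3 * ((1 + g.t 1 * g.s 1) * g.H 2 3) - g.s 1 * (1 - A) * (g.t 1 + g.s 1) := by
    rw [B.t2, G22]
    linear_combination (-g.s 1 * (1 - A)) * hG
  have key : ∀ {r N1 N2 K1 K2 n1 n2 k1 k2 d : F}, d ≠ 0 → N1 * K2 = N2 * K1 → r * N1 = n1 →
      r * N2 = n2 → r * K1 = k1 * d → r * K2 = d * k2 → n1 * k2 = n2 * k1 := by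
    intro r N1 N2 K1 K2 n1 n2 k1 k2 d hd h h1 h2 h3 h4
    apply mul_left_cancel₀ hd
    rw [← h1, ← h2]
    linear_combination r ^ 2 * h + r * N2 * h3 - r * N1 * h4
  have hE := key d0 E n1 n2 k12 k22
  have hF := key d0 F' n3 n4 k12 k22
  have hR : g.s 3 * ((1 + g.t 1 * g.s 1) * g.H 2 3) =
      (1 - g.mu' 1) * ((1 + g.t 1 * g.s 1) * g.G 1 3) +
        g.mu' 1 * ((1 + g.t 1 * g.s 1) * g.H 1 3) := by
    linear_combination (1 + g.t 1 * g.s 1) * r'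
  have fin := z1_k2 p q hR hA hB' hE hF
  have ha1 : 1 - g.t 1 ≠ 0 := sub_ne_zero.2 B.a1.symm
  have ham : 1 + g.t 1 ≠ 0 := fun h => B.am (by linear_combination h)
  have h32 : g.s 3 + g.t 1 ≠ 0 := by
    intro h0
    apply g.s_inj 2 3 (by omega) (by omega)
    rw [B.s2]
    linear_combination -h0
  have f1 := (mul_eq_zero.1 fin).resolve_left (mul_ne_zero (mul_ne_zero a0 b0) ha1)
  have f2 : ((g.s 3 + g.t 1) * ((1 - g.t 1) * (1 + g.t 1))) *
      ((g.s 3 + g.t 1 * g.s 1) *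
        (g.t 1 ^ 3 * g.s 3 * (1 - g.lam' 1) + g.s 1 ^ 2 * g.mu' 1)) = 0 := by
    rw [hA] at f1
    linear_combination g.t 1 ^ 2 * f1 - (g.s 3 + g.t 1) * (g.s 3 + g.t 1 * g.s 1) * g.s 1 ^ 2 * hB'
  exact (mul_eq_zero.1 f2).resolve_left (mul_ne_zero h32 (mul_ne_zero ha1 ham))

/-- the relation QX on the branch -/
private theorem z1_qx0 {a b x al y X s : F} (hb : b ≠ 0) (ha1 : 1 - a ≠ 0) (hb1 : 1 + b ≠ 0)
    (hr : 1 + a * b ≠ 0) (hal : al ≠ 0) (hX : X ≠ 0) (hs : s ≠ 0) (hx : x * (1 + a * b) = 1 - a)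
    (h : qx x (-b * x) al (-(a ^ 2 * y * al)) a (-b) X s = 0) :
    s * X * (a * (a * (1 + b) + (1 - a) * s) - (a + b) * X) * (1 + a ^ 2 * y * al) -
      (X * ((1 + b) * s - b * (1 - a)) - (a + b) * a * s) * (a ^ 2 * y * (1 - al)) -
      (1 - a) * (s + a) * (s - b) * X * (a ^ 2 * y * al) = 0 := by
  have hx' : x = (1 - a) / (1 + a * b) := by
    field_simp
    linear_combination hx
  subst hx'
  unfold qx at h
  field_simp at h
  have h2 : al * (b * ((1 - a) ^ 2 * (1 + b))) ≠ 0 :=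
    mul_ne_zero hal (mul_ne_zero hb (mul_ne_zero (pow_ne_zero _ ha1) hb1))
  apply mul_left_cancel₀ h2
  linear_combination h

/-- the relation QX on the branch, cleared -/
def qz (a b al y X s : F) : F :=
  s * X * (a * (a * (1 + b) + (1 - a) * s) - (a + b) * X) * (1 + a ^ 2 * y * al) -
    (X * ((1 + b) * s - b * (1 - a)) - (a + b) * a * s) * (a ^ 2 * y * (1 - al)) -
    (1 - a) * (s + a) * (s - b) * X * (a ^ 2 * y * al)

/-- `qz` vanishes -/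
private theorem z1_qx {a b x al y X s : F} (hb : b ≠ 0) (ha1 : 1 - a ≠ 0) (hb1 : 1 + b ≠ 0)
    (hr : 1 + a * b ≠ 0) (hal : al ≠ 0) (hX : X ≠ 0) (hs : s ≠ 0) (hx : x * (1 + a * b) = 1 - a)
    (h : qx x (-b * x) al (-(a ^ 2 * y * al)) a (-b) X s = 0) : qz a b al y X s = 0 :=
  z1_qx0 hb ha1 hb1 hr hal hX hs hx h

private theorem qz_J {a b al y P X s : F} (hP : al * (P * (1 - a)) = (1 + b) * (a + b))
    (h : qz a b al y X s = 0) :
    P * (1 - a) * (s * X * (a * (a * (1 + b) + (1 - a) * s) - (a + b) * X) -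
      a ^ 2 * y * (X * ((1 + b) * s - b * (1 - a)) - (a + b) * a * s)) +
    (1 + b) * (a + b) * (a ^ 2 * y) * (s * X * (a * (a * (1 + b) + (1 - a) * s) - (a + b) * X) +
      (X * ((1 + b) * s - b * (1 - a)) - (a + b) * a * s) - (1 - a) * (s + a) * (s - b) * X) = 0 := by
  rw [qz] at h
  linear_combination (P * (1 - a)) * h - (a ^ 2 * y) *
    (s * X * (a * (a * (1 + b) + (1 - a) * s) - (a + b) * X) +
      (X * ((1 + b) * s - b * (1 - a)) - (a + b) * a * s) - (1 - a) * (s + a) * (s - b) * X) * hP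

private theorem z1_I {a b al y P s : F} (ha : a ≠ 0) (hb : b ≠ 0) (hy : y ≠ 0) (ha1 : 1 - a ≠ 0)
    (hb1 : 1 + b ≠ 0) (hd : a + b ≠ 0) (hs : s = b ^ 2 * y / a)
    (hP : al * (P * (1 - a)) = (1 + b) * (a + b)) (h : qz a b al y (a ^ 3) s = 0) :
    P * (b * y + a ^ 2) = a * b ^ 3 * y ^ 2 +
      b * (a + b + 2 * a * b + a ^ 2 * (1 + a) * (1 + a + b)) * y + a ^ 3 := by
  have J := qz_J hP h
  subst hs
  field_simp at J
  have h2 : a ^ 2 * b * y * ((1 - a) ^ 2 * ((1 + b) * (a + b))) ≠ 0 :=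
    mul_ne_zero (mul_ne_zero (mul_ne_zero (pow_ne_zero _ ha) hb) hy)
      (mul_ne_zero (pow_ne_zero _ ha1) (mul_ne_zero hb1 hd))
  apply mul_left_cancel₀ h2
  linear_combination J

private theorem z1_II {a b al y P s : F} (ha : a ≠ 0) (hb : b ≠ 0) (hy : y ≠ 0) (ha1 : 1 - a ≠ 0)
    (hb1 : 1 + b ≠ 0) (hd : a + b ≠ 0) (hs : s = -(b ^ 3 * y) / a ^ 2)
    (hP : al * (P * (1 - a)) = (1 + b) * (a + b)) (h : qz a b al y (a ^ 4) s = 0) :
    P * (b ^ 2 * (a - b + 1) * y + a ^ 3 * (a * b - (a - b))) = -(a * b ^ 5 * y ^ 2) - a ^ 5 +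
      b ^ 2 * (-a ^ 3 * (1 + b) + (a + b) * (1 + a) * (1 + a ^ 2) * (1 + a + a ^ 2)) * y := by
  have J := qz_J hP h
  subst hs
  field_simp at J
  have h2 : a * b * y * ((1 - a) ^ 2 * ((1 + b) * (a + b))) ≠ 0 :=
    mul_ne_zero (mul_ne_zero (mul_ne_zero ha hb) hy)
      (mul_ne_zero (pow_ne_zero _ ha1) (mul_ne_zero hb1 hd))
  apply mul_left_cancel₀ h2
  linear_combination -J

private theorem z1_III {a b al y P s : F} (ha : a ≠ 0) (hb : b ≠ 0) (hy : y ≠ 0) (ha1 : 1 - a ≠ 0)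
    (hb1 : 1 + b ≠ 0) (hd : a + b ≠ 0) (hs : s = b ^ 4 * y / a ^ 3)
    (hP : al * (P * (1 - a)) = (1 + b) * (a + b)) (h : qz a b al y (a ^ 5) s = 0) :
    P * (b ^ 3 * ((a - b) ^ 2 + a * b + (a - b) + 1) * y +
      a ^ 4 * ((a * b) ^ 2 - a * b * (a - b) + (a - b) ^ 2 + a * b)) = a * b ^ 7 * y ^ 2 + a ^ 7 +
      b ^ 3 * (-a ^ 4 * (1 + b) +
        (a + b) * (1 + a) * (1 + a ^ 2) * (1 + a + a ^ 2 + a ^ 3 + a ^ 4)) * y := by
  have J := qz_J hP h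
  subst hs
  field_simp at J
  have h2 : b * y * ((1 - a) ^ 2 * ((1 + b) * (a + b))) ≠ 0 :=
    mul_ne_zero (mul_ne_zero hb hy)
      (mul_ne_zero (pow_ne_zero _ ha1) (mul_ne_zero hb1 hd))
  apply mul_left_cancel₀ h2
  linear_combination J

/-- `s_3`, `t_3`, `mu'_1`, `mu_1` in terms of one parameter `y` -/
theorem z1_y (g : GForm F m) (hm : 4 ≤ m) (h : g.G 1 1 = g.H 1 1) :
    ∃ y : F, y ≠ 0 ∧ g.t 1 * g.s 3 = g.s 1 ^ 2 * y ∧ g.s 1 * g.t 3 = g.t 1 ^ 2 * y ∧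
      g.mu' 1 = -(g.t 1 ^ 2 * y * (1 - g.lam' 1)) ∧ g.mu 1 = -(g.s 1 ^ 2 * y * (1 - g.lam 1)) := by
  have B := z1_bas g (by omega) h
  have B' := z1_bas g.swap (by omega) h
  have main : ∀ g : GForm F m, g.G 1 1 = g.H 1 1 →
      g.t 1 ^ 3 * g.s 3 * (1 - g.lam' 1) + g.s 1 ^ 2 * g.mu' 1 = 0 := by
    intro g h
    have B := z1_bas g (by omega) h
    refine (mul_eq_zero.1 (z1_c3 g (by omega) h)).resolve_left ?_
    intro h0
    apply B.kap_ne (k := 3) (by omega) (by omega)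
    have p := B.rowG (show 1 ≤ m by omega) (show 3 ≤ m by omega)
    have q := B.rowH (show 1 ≤ m by omega) (show 3 ≤ m by omega)
    have s3 := g.s_ne 3 (by omega)
    rw [GForm.kap]
    apply mul_left_cancel₀ (mul_ne_zero s3 B.c0)
    have e : g.s 3 = -(g.t 1 * g.s 1) := by linear_combination h0
    rw [e] at p q ⊢
    linear_combination (-(g.t 1 * g.s 1) * g.t 1) * p - g.t 1 ^ 3 * q
  have m1 := main g h
  have m2 := main g.swap h
  simp only [GForm.swap_t, GForm.swap_s, GForm.swap_lam', GForm.swap_mu'] at m2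
  obtain ⟨s1, s2⟩ := z1_sym g (by omega) h
  have a0 := B.a0
  have b0 := B.b0
  have al0 : 1 - g.lam' 1 ≠ 0 := sub_ne_zero.2 (g.lam'_ne 1 (by omega)).symm
  have al0' : 1 - g.lam 1 ≠ 0 := sub_ne_zero.2 (g.lam_ne 1 (by omega)).symm
  have s3 := g.s_ne 3 (by omega)
  have hb2 : 1 - g.s 1 ^ 2 ≠ 0 := by
    intro h0
    rcases mul_eq_zero.1 (show (1 - g.s 1) * (1 + g.s 1) = 0 by linear_combination h0) with h | h
    · exact B.b1 (by linear_combination -h)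
    · exact B.bm (by linear_combination h)
  obtain ⟨y, hy⟩ : ∃ y, g.t 1 * g.s 3 = g.s 1 ^ 2 * y :=
    ⟨g.t 1 * g.s 3 / g.s 1 ^ 2, by field_simp⟩
  have y0 : y ≠ 0 := by
    rintro rfl
    rw [mul_zero] at hy
    exact mul_ne_zero a0 s3 hy
  have hmu' : g.mu' 1 = -(g.t 1 ^ 2 * y * (1 - g.lam' 1)) := by
    apply mul_left_cancel₀ (pow_ne_zero 2 b0)
    linear_combination m1 - g.t 1 ^ 2 * (1 - g.lam' 1) * hy
  have hmu : g.mu 1 = -(g.s 1 ^ 2 * y * (1 - g.lam 1)) := by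
    apply mul_left_cancel₀ (mul_ne_zero hb2 (pow_ne_zero 2 a0))
    rw [hmu'] at s2
    linear_combination s2 + g.t 1 ^ 2 * y * g.s 1 ^ 2 * s1
  refine ⟨y, y0, hy, ?_, hmu', hmu⟩
  apply mul_left_cancel₀ (mul_ne_zero (pow_ne_zero 2 b0) al0')
  rw [hmu] at m2
  linear_combination m2

/-- one strip -/
theorem z1_strip (g : GForm F m) (hm : 6 ≤ m) (B : Bas g) {y : F} (y0 : y ≠ 0)
    (hy : g.t 1 * g.s 3 = g.s 1 ^ 2 * y)
    (hmu : g.mu' 1 = -(g.t 1 ^ 2 * y * (1 - g.lam' 1))) :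
    g.s 4 = -(g.s 1 ^ 3 * y) / g.t 1 ^ 2 ∧ g.s 5 = g.s 1 ^ 4 * y / g.t 1 ^ 3 := by
  have a0 := B.a0
  have b0 := B.b0
  have al0 : 1 - g.lam' 1 ≠ 0 := sub_ne_zero.2 (g.lam'_ne 1 (by omega)).symm
  have flat : ∀ k, 3 ≤ k → k < 5 → g.s k * g.t 2 = g.t 1 * g.s (k + 1) ∨
      g.s k * g.s (k + 1) * g.t 1 ^ k = -(g.t 1 ^ 2 * y) * g.t 2 ^ k := by
    intro k hk3 hk5
    rcases Pool.Agent.Helper43.IPL.local_flat g (by omega) k (by omega) with h | h | h | h | h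
    · exfalso
      obtain ⟨j, rfl⟩ : ∃ j, k = j + 1 := ⟨k - 1, by omega⟩
      have e := g.D_succ (j := 1) (k := j) (by omega) (by omega)
      rw [GForm.D, h] at e
      rcases mul_eq_zero.1 e.symm with e | e
      · exact g.lm_ne j (by omega) (sub_eq_zero.1 e).symm
      · exact B.kap_ne (k := j) (by omega) (by omega) e
    · exfalso
      apply B.kap_ne (k := k) (by omega) (by omega)
      rw [GForm.kap]
      linear_combination -h
    · exfalso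
      apply B.kap_ne (k := k + 1) (by omega) (by omega)
      rw [GForm.kap]
      linear_combination (-g.t 1) * h
    · exact Or.inl h
    · right
      apply mul_left_cancel₀ al0
      rw [hmu] at h
      linear_combination h
  have hy2 := mul_ne_zero (pow_ne_zero 2 b0) y0
  have hy3 := mul_ne_zero (pow_ne_zero 3 b0) y0
  have a20 := pow_ne_zero 2 a0
  have s4 : g.t 1 ^ 2 * g.s 4 = -(g.s 1 ^ 3 * y) := by
    rcases flat 3 le_rfl (by omega) with h | h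
    · rw [B.t2] at h
      linear_combination (-g.t 1) * h - g.s 1 * hy
    · exfalso
      apply g.s_inj 1 4 (by omega) (by omega)
      rw [B.t2] at h
      apply mul_left_cancel₀ (mul_ne_zero a20 hy2)
      linear_combination g.t 1 ^ 2 * g.s 4 * hy - h
  have s5 : g.t 1 ^ 3 * g.s 5 = g.s 1 ^ 4 * y := by
    rcases flat 4 (by omega) (by omega) with h | h
    · rw [B.t2] at h
      linear_combination (-g.t 1 ^ 2) * h - g.s 1 * s4
    · exfalso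
      apply g.s_inj 1 5 (by omega) (by omega)
      rw [B.t2] at h
      apply mul_left_cancel₀ (mul_ne_zero a20 hy3)
      linear_combination h - g.t 1 ^ 2 * g.s 5 * s4
  refine ⟨?_, ?_⟩
  · rw [eq_div_iff a20]
    linear_combination s4
  · rw [eq_div_iff (pow_ne_zero 3 a0)]
    linear_combination s5

/-- the relation QX at the columns 3, 4, 5 -/
theorem z1_qz (g : GForm F m) (hm : 2 ≤ m) (B : Bas g) {y : F}
    (hmu : g.mu' 1 = -(g.t 1 ^ 2 * y * (1 - g.lam' 1))) {k : ℕ} (hk3 : 3 ≤ k) (hk : k < m) :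
    qz (g.t 1) (g.s 1) (1 - g.lam' 1) y (g.t 1 ^ k) (g.s k) = 0 := by
  have a0 := B.a0
  have b0 := B.b0
  have al0 : 1 - g.lam' 1 ≠ 0 := sub_ne_zero.2 (g.lam'_ne 1 (by omega)).symm
  have hD : g.G 1 k - g.t 1 ^ k * g.H 1 k ≠ 0 := by
    intro h
    obtain ⟨j, rfl⟩ : ∃ j, k = j + 1 := ⟨k - 1, by omega⟩
    have e := g.D_succ (j := 1) (k := j) (by omega) (by omega)
    rw [GForm.D, h] at e
    rcases mul_eq_zero.1 e.symm with e | e
    · exact g.lm_ne j (by omega) (sub_eq_zero.1 e).symm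
    · exact B.kap_ne (k := j) (by omega) (by omega) e
  have hK : g.t 1 * g.G 1 k - g.t 1 ^ k * g.H 1 k ≠ 0 := B.kap_ne (k := k) (by omega) hk
  have hT1 : g.t 2 ≠ 1 := by
    rw [← g.t0]
    exact (g.t_inj 0 2 (by omega) (by omega)).symm
  have hTt : g.t 2 ≠ g.t 1 := (g.t_inj 1 2 (by omega) (by omega)).symm
  have e1 := Pool.Agent.Helper43.IPL.E1c g hm k (by omega)
  have e2 := Pool.Agent.Helper43.IPL.E2c g hm k (by omega)
  have r1 := g.row1G (show 1 ≤ m by omega) (show k ≤ m by omega)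
  have r1' := g.row1H (show 1 ≤ m by omega) (show k ≤ m by omega)
  have r2 := g.row2G hm (show k ≤ m by omega)
  have r2' := g.row2H hm (show k ≤ m by omega)
  have key : qx (1 - g.lam' 0) (g.mu' 0) (1 - g.lam' 1) (g.mu' 1) (g.t 1) (g.t 2) (g.t 1 ^ k)
      (g.s k) = 0 := by
    refine qx_of (g1 := g.G 1 k) (h1 := g.H 1 k) (g2 := g.G 2 k) (h2 := g.H 2 k)
      (Y := g.t 2 ^ k) (g.s_ne k (by omega)) (pow_ne_zero _ a0) hT1 hTt ?_ r1' ?_ r2' ?_ ?_ hD hK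
    · linear_combination r1
    · linear_combination r2
    · linear_combination e1
    · linear_combination e2
  rw [hmu, B.hx', B.t2] at key
  exact z1_qx b0 (sub_ne_zero.2 B.a1.symm) (fun h => B.bm (by linear_combination h)) B.c0 al0
    (pow_ne_zero _ a0) (g.s_ne k (by omega)) B.hx key

/-- **the branch `G 1 1 = H 1 1` is empty** -/
theorem z1_dead (g : GForm F m) (hm : 6 ≤ m) (h : g.G 1 1 = g.H 1 1) : False := by
  have B := z1_bas g (by omega) h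
  have B' : Bas g.swap := z1_bas g.swap (by omega) h
  obtain ⟨y, y0, hs3, ht3, hmu', hmu⟩ := z1_y g (by omega) h
  obtain ⟨s4, s5⟩ := z1_strip g hm B y0 hs3 hmu'
  obtain ⟨t4, t5⟩ := z1_strip g.swap hm B' y0 ht3 hmu
  have q3 := z1_qz g (by omega) B hmu' (le_refl 3) (by omega)
  have q4 := z1_qz g (by omega) B hmu' (show 3 ≤ 4 by omega) (by omega)
  have q5 := z1_qz g (by omega) B hmu' (show 3 ≤ 5 by omega) (by omega)
  have q3' := z1_qz g.swap (by omega) B' hmu (le_refl 3) (by omega)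
  have q4' := z1_qz g.swap (by omega) B' hmu (show 3 ≤ 4 by omega) (by omega)
  have q5' := z1_qz g.swap (by omega) B' hmu (show 3 ≤ 5 by omega) (by omega)
  simp only [GForm.swap_t, GForm.swap_s, GForm.swap_lam'] at t4 t5 q3' q4' q5'
  have a0 := B.a0
  have b0 := B.b0
  have ha1 : 1 - g.t 1 ≠ 0 := sub_ne_zero.2 B.a1.symm
  have hb1 : 1 - g.s 1 ≠ 0 := sub_ne_zero.2 B.b1.symm
  have ham : 1 + g.t 1 ≠ 0 := fun h => B.am (by linear_combination h)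
  have hbm : 1 + g.s 1 ≠ 0 := fun h => B.bm (by linear_combination h)
  have d0 := B.d0
  have d0' : g.s 1 + g.t 1 ≠ 0 := by rwa [add_comm]
  have al0 : 1 - g.lam' 1 ≠ 0 := sub_ne_zero.2 (g.lam'_ne 1 (by omega)).symm
  have s3 : g.s 3 = g.s 1 ^ 2 * y / g.t 1 := by
    rw [eq_div_iff a0]
    linear_combination hs3
  have t3 : g.t 3 = g.t 1 ^ 2 * y / g.s 1 := by
    rw [eq_div_iff b0]
    linear_combination ht3
  obtain ⟨P, hP⟩ : ∃ P, (1 - g.lam' 1) * (P * (1 - g.t 1)) = (1 + g.s 1) * (g.t 1 + g.s 1) :=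
    ⟨(1 + g.s 1) * (g.t 1 + g.s 1) / ((1 - g.lam' 1) * (1 - g.t 1)), by field_simp⟩
  have hP' : (1 - g.lam 1) * (P * (1 - g.s 1)) = (1 + g.t 1) * (g.s 1 + g.t 1) := by
    obtain ⟨e, -⟩ := z1_sym g (by omega) h
    apply mul_left_cancel₀ hbm
    linear_combination P * e + (1 + g.t 1) * hP
  have hab : g.t 1 ≠ g.s 1 := by
    intro e
    apply g.s_inj 3 5 (by omega) (by omega)
    rw [s3, s5, ← e]
    field_simp
  have n32 : ∀ g : GForm F m, g.t 1 ≠ 0 → g.s 2 = -g.t 1 → g.s 3 = g.s 1 ^ 2 * y / g.t 1 →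
      g.t 1 ^ 2 + g.s 1 ^ 2 * y ≠ 0 := by
    intro g a0 s2 s3 e
    apply g.s_inj 2 3 (by omega) (by omega)
    rw [s2, s3, eq_div_iff a0]
    linear_combination -e
  have n42 : ∀ g : GForm F m, g.t 1 ≠ 0 → g.s 2 = -g.t 1 →
      g.s 4 = -(g.s 1 ^ 3 * y) / g.t 1 ^ 2 → g.t 1 ^ 3 ≠ g.s 1 ^ 3 * y := by
    intro g a0 s2 s4 e
    apply g.s_inj 2 4 (by omega) (by omega)
    rw [s2, s4, eq_div_iff (pow_ne_zero 2 a0)]
    linear_combination -e
  have n50 : ∀ g : GForm F m, g.t 1 ≠ 0 → g.s 5 = g.s 1 ^ 4 * y / g.t 1 ^ 3 →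
      g.s 1 ^ 4 * y ≠ g.t 1 ^ 3 := by
    intro g a0 s5 e
    apply g.s_inj 0 5 (by omega) (by omega)
    rw [g.s0, s5, e, div_self (pow_ne_zero 3 a0)]
  exact z1_alg a0 b0 y0 B.a1 B.b1 B.am B.bm hab d0
    (n32 g a0 B.s2 s3) (n32 g.swap b0 B.t2 t3)
    (n42 g a0 B.s2 s4) (n42 g.swap b0 B.t2 t4) (n50 g a0 s5) (n50 g.swap b0 t5)
    (z1_I a0 b0 y0 ha1 hbm d0 s3 hP q3) (z1_I b0 a0 y0 hb1 ham d0' t3 hP' q3')
    (z1_II a0 b0 y0 ha1 hbm d0 s4 hP q4) (z1_II b0 a0 y0 hb1 ham d0' t4 hP' q4')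
    (z1_III a0 b0 y0 ha1 hbm d0 s5 hP q5) (z1_III b0 a0 y0 hb1 ham d0' t5 hP' q5')

end Pool.Agent.Helper76.IP
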