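import Mathlib

/-!
TH-P, phase 2, family E1 (`m = 5` closed): algebra for the split numbers.
-/

namespace Pool.Agent.Helper76.IP

variable {F : Type*} [Field F]

/-- E1: `(a+1)(r+1)(1 - lam_3) = 2` -/
theorem e1_lam3 {a r X Y al de lam G13 G14 H13 H14 G23 G24 H23 : F}
    (ha : a ≠ 0) (ha1 : a - 1 ≠ 0) (hr : r ≠ 0) (hr1 : r - 1 ≠ 0) (har : a * r - 1 ≠ 0)
    (C : r ^ 2 + (1 + a) * (1 + a + a ^ 2) * r + a ^ 3 = 0)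
    (B : a ^ 2 * (a * r - 1) * Y = r * ((a + 1) * (a ^ 2 + 1) - (a * r - 1) * X))
    (g13 : G13 = 1 - (a - 1) * X * (r + 1)) (g14 : G14 = 1 + (a - 1) * X * (r - 1))
    (h13 : a * (r * H13) = a * r - (a - 1) * Y * (r + 1))
    (h14 : a * (r * H14) = a * r - (a - 1) * Y * (r - 1))
    (hal : al * ((a - 1) * (r - 1)) = 2) (hde : de * ((a - 1) * (r - 1)) = 2 * a * r)
    (g23 : G23 = -r * (al * G13 + (1 - al) * H13)) (g24 : G24 = r * (al * G14 + (1 - al) * H14))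
    (h23 : -r * H23 = (1 - de) * G13 + de * H13)
    (U1 : G14 = (1 - lam) * (a * G13) + lam * (a ^ 3 * H13))
    (U2 : G24 = (1 - lam) * (-a * G23) + lam * (-a ^ 3 * H23))
    (hk : a * G13 - a ^ 3 * H13 ≠ 0 ∨ -a * G23 + a ^ 3 * H23 ≠ 0) :
    (a + 1) * (r + 1) * (1 - lam) = 2 := by
  have hD : a ^ 2 * (a * r - 1) ≠ 0 := mul_ne_zero (pow_ne_zero 2 ha) har
  have i1 : (a + 1) * (r + 1) * (r * (r - 1) * X - r * (a ^ 2 + a + 1) + a ^ 2 * (r + 1) * Y) =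
      2 * (-(r * a * (a + 1)) - a * r * (r + 1) * X + a ^ 2 * (r + 1) * Y) := by
    apply mul_left_cancel₀ hD
    linear_combination (a ^ 3 * r + a ^ 2 * r) * C
      + (a ^ 3 * r ^ 2 + 2 * a ^ 3 * r + a ^ 3 + a ^ 2 * r ^ 2 - a ^ 2) * B
  have i2 : (a + 1) * (r + 1) *
      (r ^ 2 * (2 * a * r * (1 + (a - 1) * X * (r - 1))
          + ((a - 1) * (r - 1) - 2) * (a * r - (a - 1) * Y * (r - 1)))
        - a ^ 3 * (((a - 1) * (r - 1) - 2 * a * r) * a * r * (1 - (a - 1) * X * (r + 1))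
          + 2 * a * r * (a * r - (a - 1) * Y * (r + 1)))) =
      2 * (a * r ^ 2 * (2 * a * r * (1 - (a - 1) * X * (r + 1))
          + ((a - 1) * (r - 1) - 2) * (a * r - (a - 1) * Y * (r + 1)))
        - a ^ 3 * (((a - 1) * (r - 1) - 2 * a * r) * a * r * (1 - (a - 1) * X * (r + 1))
          + 2 * a * r * (a * r - (a - 1) * Y * (r + 1)))) := by
    apply mul_left_cancel₀ hD
    linear_combination (-a ^ 7 * r ^ 4 * X - 2 * a ^ 7 * r ^ 3 * X - a ^ 7 * r ^ 2 * X + a ^ 6 * r ^ 4 * X + 5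
      * a ^ 6 * r ^ 3 * X + a ^ 6 * r ^ 3 + 5 * a ^ 6 * r ^ 2 * X + 3 * a ^ 6 * r ^ 2 + a ^
      6 * r * X + a ^ 5 * r ^ 4 * X - 3 * a ^ 5 * r ^ 3 * X - 7 * a ^ 5 * r ^ 2 * X - 3 * a
      ^ 5 * r ^ 2 - 3 * a ^ 5 * r * X - a ^ 5 * r + a ^ 4 * r ^ 5 * X - 3 * a ^ 4 * r ^ 4 *
      X - 4 * a ^ 4 * r ^ 3 * X - a ^ 4 * r ^ 3 + 3 * a ^ 4 * r ^ 2 * X - a ^ 4 * r ^ 2 + 3
      * a ^ 4 * r * X + 2 * a ^ 4 * r - a ^ 3 * r ^ 5 * X + 3 * a ^ 3 * r ^ 4 * X + 8 * a ^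
      3 * r ^ 3 * X + 3 * a ^ 3 * r ^ 2 * X + a ^ 3 * r ^ 2 - a ^ 3 * r * X - a ^ 3 * r - a
      ^ 2 * r ^ 5 * X - a ^ 2 * r ^ 4 * X + a ^ 2 * r ^ 4 - 5 * a ^ 2 * r ^ 3 * X - 2 * a ^
      2 * r ^ 3 - 5 * a ^ 2 * r ^ 2 * X - 3 * a ^ 2 * r ^ 2 + a * r ^ 5 * X + a * r ^ 4 * X
      + a * r ^ 3 * X + 2 * a * r ^ 3 + a * r ^ 2 * X + 2 * a * r ^ 2 - r ^ 4 * X - r ^ 4 +
      r ^ 2 * X + r ^ 2) * C
      + (2 * a ^ 6 * r ^ 3 + 4 * a ^ 6 * r ^ 2 + 2 * a ^ 6 * r - 4 * a ^ 5 * r ^ 2 - 4 * a ^ 5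
      * r - 2 * a ^ 4 * r ^ 3 + 2 * a ^ 4 * r - a ^ 3 * r ^ 5 + 3 * a ^ 3 * r ^ 4 + a ^ 3 *
      r ^ 3 - 3 * a ^ 3 * r ^ 2 + a ^ 2 * r ^ 5 - 3 * a ^ 2 * r ^ 4 - 5 * a ^ 2 * r ^ 3 - a
      ^ 2 * r ^ 2 + a * r ^ 5 + a * r ^ 4 + 3 * a * r ^ 3 + 3 * a * r ^ 2 - r ^ 5 - r ^ 4 +
      r ^ 3 + r ^ 2) * B
  rcases hk with hk | hk
  · apply mul_right_cancel₀ (mul_ne_zero hr hk)
    have k1 : r * (a * G13 - a ^ 3 * H13) =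
        (a - 1) * (-(r * a * (a + 1)) - a * r * (r + 1) * X + a ^ 2 * (r + 1) * Y) := by
      linear_combination r * a * g13 - a ^ 2 * h13
    have k2 : r * (G14 - a ^ 3 * H13) =
        (a - 1) * (r * (r - 1) * X - r * (a ^ 2 + a + 1) + a ^ 2 * (r + 1) * Y) := by
      linear_combination r * g14 - a ^ 2 * h13
    linear_combination (a + 1) * (r + 1) * (k2 - r * U1) - 2 * k1 + (a - 1) * i1
  · have hK : (a - 1) * (r - 1) * (a * r ^ 2) ≠ 0 :=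
      mul_ne_zero (mul_ne_zero ha1 hr1) (mul_ne_zero ha (pow_ne_zero 2 hr))
    apply mul_right_cancel₀ (mul_ne_zero hK hk)
    have k1 : (a - 1) * (r - 1) * (a * r ^ 2) * G24 =
        r ^ 2 * (2 * a * r * (1 + (a - 1) * X * (r - 1))
          + ((a - 1) * (r - 1) - 2) * (a * r - (a - 1) * Y * (r - 1))) := by
      linear_combination (a - 1) * (r - 1) * (a * r ^ 2) * g24
        + r ^ 2 * (a * r * G14 - a * r * H14) * hal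
        + r ^ 2 * 2 * a * r * g14 + r ^ 2 * ((a - 1) * (r - 1) - 2) * h14
    have k2 : (a - 1) * (r - 1) * (a * r ^ 2) * G23 =
        -(r ^ 2 * (2 * a * r * (1 - (a - 1) * X * (r + 1))
          + ((a - 1) * (r - 1) - 2) * (a * r - (a - 1) * Y * (r + 1)))) := by
      linear_combination (a - 1) * (r - 1) * (a * r ^ 2) * g23
        - r ^ 2 * (a * r * G13 - a * r * H13) * hal
        - r ^ 2 * 2 * a * r * g13 - r ^ 2 * ((a - 1) * (r - 1) - 2) * h13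
    have k3 : (a - 1) * (r - 1) * (a * r ^ 2) * H23 =
        -(((a - 1) * (r - 1) - 2 * a * r) * a * r * (1 - (a - 1) * X * (r + 1))
          + 2 * a * r * (a * r - (a - 1) * Y * (r + 1))) := by
      linear_combination -(a - 1) * (r - 1) * (a * r) * h23
        + (a * r * G13 - a * r * H13) * hde
        - ((a - 1) * (r - 1) - 2 * a * r) * a * r * g13 - 2 * a * r * h13
    linear_combination (a + 1) * (r + 1) * (k1 + a ^ 3 * k3 - (a - 1) * (r - 1) * (a * r ^ 2) * U2)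
      + 2 * a * k2 - 2 * a ^ 3 * k3 + i2

/-- E1: `f_5` -/
theorem e1_f5 {a r X Y lam f G14 G15 H14 : F}
    (ha : a ≠ 0) (hr : r ≠ 0) (hr1 : r - 1 ≠ 0) (hr1' : r + 1 ≠ 0)
    (ha1 : a - 1 ≠ 0) (ha1' : a + 1 ≠ 0) (har : a * r - 1 ≠ 0)
    (C : r ^ 2 + (1 + a) * (1 + a + a ^ 2) * r + a ^ 3 = 0)
    (B : a ^ 2 * (a * r - 1) * Y = r * ((a + 1) * (a ^ 2 + 1) - (a * r - 1) * X))
    (g14 : G14 = 1 + (a - 1) * X * (r - 1)) (g15 : G15 = 1 + (a - 1) * X * (a * r - 1))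
    (h14 : a * (r * H14) = a * r - (a - 1) * Y * (r - 1))
    (U1 : G15 = (1 - lam) * (a * G14) + lam * (a ^ 4 * H14))
    (hk : a * G14 - a ^ 4 * H14 ≠ 0)
    (hf : f * ((r - 1) * (r - a) * (r + a) * (2 * r) * (1 - lam)) =
      (a * r - 1) * (a * r - a) * (a * r + a) * (a * r + r) * (a * r - r)) :
    f * Y = -(a ^ 2 * r ^ 2) := by
  have hD : a ^ 2 * (a * r - 1) ≠ 0 := mul_ne_zero (pow_ne_zero 2 ha) har
  have i1 : 2 * r * (r ^ 2 - a ^ 2) * (r * (1 + (a - 1) * X * (a * r - 1))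
        - a ^ 3 * (a * r - (a - 1) * Y * (r - 1)))
      + (a * r - 1) * (r + 1) * (a ^ 2 - 1) * Y * (a * r * (1 + (a - 1) * X * (r - 1))
        - a ^ 3 * (a * r - (a - 1) * Y * (r - 1))) = 0 := by
    apply (mul_eq_zero.1 (?_ : (a ^ 2 * (a * r - 1)) ^ 2 * _ = 0)).resolve_left
      (pow_ne_zero 2 hD)
    linear_combination (-a ^ 10 * r ^ 3 + 2 * a ^ 9 * r ^ 3 + a ^ 9 * r ^ 2 + a ^ 8 * r ^ 4 * X - a ^ 8 * r ^
      3 - 2 * a ^ 8 * r ^ 2 - 3 * a ^ 7 * r ^ 4 * X - 2 * a ^ 7 * r ^ 3 * X + a ^ 7 * r ^ 2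
      + 3 * a ^ 6 * r ^ 4 * X + 6 * a ^ 6 * r ^ 3 * X + a ^ 6 * r ^ 3 + a ^ 6 * r ^ 2 * X -
      a ^ 5 * r ^ 4 * X - 6 * a ^ 5 * r ^ 3 * X - 2 * a ^ 5 * r ^ 3 - 3 * a ^ 5 * r ^ 2 * X
      - a ^ 5 * r ^ 2 + 2 * a ^ 4 * r ^ 3 * X + a ^ 4 * r ^ 3 + 3 * a ^ 4 * r ^ 2 * X + 2 *
      a ^ 4 * r ^ 2 - a ^ 3 * r ^ 2 * X - a ^ 3 * r ^ 2) * C
      + ((a ^ 2 * (a * r - 1)) * (-a ^ 7 * r ^ 3 - a ^ 7 * r ^ 2 - a ^ 6 * r ^ 2 + 3 * a ^ 6 * r + a ^ 5 * r ^ 4 * X + a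
      ^ 5 * r ^ 3 - a ^ 5 * r ^ 2 * X + 3 * a ^ 5 * r ^ 2 - 2 * a ^ 5 * r - a ^ 4 * r ^ 4 *
      X + 2 * a ^ 4 * r ^ 4 - a ^ 4 * r ^ 3 * X - a ^ 4 * r ^ 3 + a ^ 4 * r ^ 2 * X + a ^ 4
      * r * X - a ^ 4 * r - a ^ 3 * r ^ 4 * X - 2 * a ^ 3 * r ^ 4 + a ^ 3 * r ^ 3 * X + 2 *
      a ^ 3 * r ^ 3 + a ^ 3 * r ^ 2 * X - a ^ 3 * r ^ 2 - a ^ 3 * r * X - a ^ 3 * r + a ^ 2
      * r ^ 4 * X + a ^ 2 * r ^ 3 * X - a ^ 2 * r ^ 3 - a ^ 2 * r ^ 2 * X - a ^ 2 * r ^ 2 -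
      a ^ 2 * r * X - a * r ^ 3 * X + a * r ^ 2 + a * r * X + a * r)
        + (a ^ 7 * r ^ 3 - a ^ 7 * r - a ^ 6 * r ^ 3 - a ^ 6 * r ^ 2 + a ^ 6 * r + a ^ 6 - a ^ 5
      * r ^ 3 + a ^ 5 * r ^ 2 + a ^ 5 * r - a ^ 5 + a ^ 4 * r ^ 3 + a ^ 4 * r ^ 2 - a ^ 4 *
      r - a ^ 4 - a ^ 3 * r ^ 2 + a ^ 3) * (a ^ 2 * (a * r - 1) * Y + r * ((a + 1) * (a ^ 2 + 1) - (a * r - 1) * X))) * B
  have k1 : r * (G15 - a ^ 4 * H14) = r * (1 + (a - 1) * X * (a * r - 1))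
        - a ^ 3 * (a * r - (a - 1) * Y * (r - 1)) := by
    linear_combination r * g15 - a ^ 3 * h14
  have k2 : r * (a * G14 - a ^ 4 * H14) = a * r * (1 + (a - 1) * X * (r - 1))
        - a ^ 3 * (a * r - (a - 1) * Y * (r - 1)) := by
    linear_combination a * r * g14 - a ^ 3 * h14
  rw [← k1, ← k2] at i1
  apply mul_right_cancel₀ (mul_ne_zero (mul_ne_zero (mul_ne_zero (mul_ne_zero har hr1)
    (mul_ne_zero hr1' (mul_ne_zero ha1 ha1'))) hr) hk)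
  linear_combination f * (r - 1) * i1 - (r - 1) * f * 2 * r * (r ^ 2 - a ^ 2) * r * U1
    - r * (a * G14 - a ^ 4 * H14) * hf

end Pool.Agent.Helper76.IP
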