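import Pool.Agent.Helper76.IP.BNeg5
import Pool.Agent.Helper76.IP.E1Alg
import Pool.Agent.Helper54.IP.C3

/-!
TH-P, phase 2: the parameter arrays of the family E1 (`m = 5` closed, `t_2 = - t_1`).
-/

namespace Pool.Agent.Helper76.IP

open Pool.Agent.Helper54.IP

variable {F : Type*} [Field F]

/-- `(t, s, f)` is in the family E1 -/
structure E1L (a r : F) (t s f : ℕ → F) : Prop where
  curve : r ^ 2 + (1 + a) * (1 + a + a ^ 2) * r + a ^ 3 = 0
  a0 : a ≠ 0
  r0 : r ≠ 0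
  two : (2 : F) ≠ 0
  a1 : a ≠ 1
  a1' : a ≠ -1
  r1 : r ≠ 1
  r1' : r ≠ -1
  ar : r ≠ a
  ar' : r ≠ -a
  ar1 : a * r ≠ 1
  t0 : t 0 = 1
  t1 : t 1 = a
  t2 : t 2 = -a
  t3 : t 3 = -r
  t4 : t 4 = r
  t5 : t 5 = a * r
  s0 : s 0 = 1
  s1 : s 1 = a
  s2 : s 2 = -a
  s3 : s 3 = -r
  s4 : s 4 = r
  s5 : s 5 = a * r
  f2 : f 2 = a * (a + 1) * (r - 1)
  f3 : f 3 * ((a + 1) * ((a + 1) * f 1 - (a * r - 1))) =
    -((r - a) * (r + a) * (r * f 1 + (a + 1) * (r + a)))
  f4 : f 4 = -(r * (a + 1) * (r - 1))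
  f5 : f 5 * ((a + 1) * (a ^ 2 + 1) * f 1 - (a * r - 1)) = -(a ^ 4 * r * (a * r - 1) * f 1)
  n1 : f 1 ≠ 0
  n2 : (a + 1) * f 1 - (a * r - 1) ≠ 0
  n3 : r * f 1 + (a + 1) * (r + a) ≠ 0
  n4 : (a + 1) * (a ^ 2 + 1) * f 1 - (a * r - 1) ≠ 0
  n6 : (a + 1) * (a ^ 2 + 1) * f 1 + (r ^ 2 - 1) * (a * r - 1) ≠ 0
  n7 : f 1 + (a - 1) * (a * r - 1) ≠ 0

theorem e1_kap3 (g : GForm F 5) (hD : g.G 1 1 ≠ g.H 1 1)
    (h1 : g.t 1 = g.s 1) (h2 : g.t 2 = g.s 2) (hb : g.t 2 = - g.t 1) (hk : g.kap 1 2 ≠ 0) :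
    g.kap 1 3 ≠ 0 ∨ g.kap 2 3 ≠ 0 := by
  by_contra hcon
  push Not at hcon
  obtain ⟨k1, k2⟩ := hcon
  obtain ⟨W, hDD, hW, hal, hde, hT, R, hs4, -⟩ := b_neg_cols g le_rfl hD h1 h2 hb hk
  obtain ⟨a, ha⟩ : ∃ a, g.t 1 = a := ⟨_, rfl⟩
  have hb' : g.t 2 = -a := by rw [hb, ha]
  have ha0 : a ≠ 0 := by rw [← ha]; exact g.t_ne 1 (by omega)
  have ha1 : a - 1 ≠ 0 := by rw [← ha]; exact g.t_sub_one (by omega) (by omega)
  have ha2 : a + 1 ≠ 0 := by
    intro h
    apply g.t_inj 0 2 (by omega) (by omega)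
    rw [g.t0, hb']; linear_combination h
  have h20 : (2 : F) ≠ 0 := by
    intro h
    apply g.t_inj 1 2 (by omega) (by omega)
    rw [ha, hb']; linear_combination a * h
  rw [ha] at hDD hW hal hde
  rw [GForm.kap, ha] at k1
  rw [GForm.kap, hb'] at k2
  obtain ⟨C1, B', B, E⟩ := Pool.Agent.Helper43.IPL.fam_closed g (by omega) (x := 1 - g.lam' 0)
    (y := g.mu' 0) (al := 1 - g.lam' 1) (de := g.mu' 1) (W := W) ha hb' ha2 rfl rfl rfl rfl
    (by rw [hW]; ring) hal hde 2 (by omega) 1 (by rw [hb']; ring)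
    (by
      rw [ha]
      apply mul_left_cancel₀ ha0
      linear_combination -k1)
    (by
      rw [hb']
      apply mul_left_cancel₀ ha0
      linear_combination k2)
  obtain ⟨_, hX⟩ := Pool.Agent.Helper43.IPL.closed_odd h20 ha1 ha2 (pow_ne_zero _ ha0) C1 B'
    (by rw [B]) E
  have : a * ((a - 1) * (a + 1)) = 0 := by linear_combination hX
  exact mul_ne_zero ha0 (mul_ne_zero ha1 ha2) this

theorem e1_elim (g : GForm F 5) (hcl : g.Closed) (hD : g.G 1 1 ≠ g.H 1 1)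
    (h1 : g.t 1 = g.s 1) (h2 : g.t 2 = g.s 2) (hb : g.t 2 = - g.t 1) (hk : g.kap 1 2 ≠ 0)
    {f : ℕ → F} (hf : g.IsPhi f) : ∃ a r : F, E1L a r g.t g.s f := by
  obtain ⟨a, r, C, ha, hr, t1, t2, t3, t4, t5, s1, s2, s3, s4, s5, hA⟩ :=
    e1_of_closed g hcl hD h1 h2 hb hk
  obtain ⟨X, Y, hx⟩ := g.exists_XY (by omega)
  have ha1 : a - 1 ≠ 0 := by rw [← t1]; exact g.t_sub_one (by omega) (by omega)
  have ha1' : a + 1 ≠ 0 := by
    have := g.t_sub_one (k := 2) (by omega) (by omega)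
    rw [t2] at this
    intro h; exact this (by linear_combination -h)
  have hr1 : r - 1 ≠ 0 := by rw [← t4]; exact g.t_sub_one (by omega) (by omega)
  have hr1' : r + 1 ≠ 0 := by
    have := g.t_sub_one (k := 3) (by omega) (by omega)
    rw [t3] at this
    intro h; exact this (by linear_combination -h)
  have har : a * r - 1 ≠ 0 := by rw [← t5]; exact g.t_sub_one (by omega) (by omega)
  have hra : r - a ≠ 0 := by
    have := sub_ne_zero.2 (g.t_inj 1 4 (by omega) (by omega))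
    rw [t1, t4] at this
    intro h; exact this (by linear_combination -h)
  have hra' : r + a ≠ 0 := by
    have := sub_ne_zero.2 (g.t_inj 2 4 (by omega) (by omega))
    rw [t2, t4] at this
    intro h; exact this (by linear_combination -h)
  have h20 : (2 : F) ≠ 0 := by
    have := sub_ne_zero.2 (g.t_inj 1 2 (by omega) (by omega))
    rw [t1, t2] at this
    intro h; exact this (by linear_combination a * h)
  have hXn := hx.X_ne (by omega)
  have hYn := hx.Y_ne (by omega)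
  have hx1 := hx.x
  have hy1 := hx.y
  rw [t1] at hx1 hy1
  -- the relation A
  have A : (r + 1) * (a ^ 2 * X + Y) = (r - 1) * (a * (Y - X - 1)) := by
    apply mul_left_cancel₀ ha1
    linear_combination a * hA - a * (r * a + a + r - 1) * hx1 - (r + 1) * hy1
      + (r - 1) * a * hy1
  have B : a ^ 2 * (a * r - 1) * Y = r * ((a + 1) * (a ^ 2 + 1) - (a * r - 1) * X) := by
    have c := hcl.cX (ι := 3) (by omega) hx
    rw [t1, s5] at c
    apply mul_left_cancel₀ (mul_ne_zero ha ha1)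
    linear_combination c
  have hD0 : a ^ 2 * (a * r - 1) ≠ 0 := mul_ne_zero (pow_ne_zero 2 ha) har
  have hf1 := hf.one (by omega) hx
  have f1n : f 1 ≠ 0 := hf.ne (k := 0) (by omega)
  have G1k := fun k (hk : k ≤ 5) => hx.G1 (by omega) (k := k) hk
  have H1k := fun k (hk : k ≤ 5) => hx.H1 (by omega) (k := k) hk
  have g11 := G1k 1 (by omega)
  have h11 := H1k 1 (by omega)
  have g12 := G1k 2 (by omega)
  have h12 := H1k 2 (by omega)
  have g13 := G1k 3 (by omega)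
  have h13 := H1k 3 (by omega)
  have g14 := G1k 4 (by omega)
  have h14 := H1k 4 (by omega)
  have g15 := G1k 5 (by omega)
  rw [t1, s1] at g11 h11
  rw [t1, s2] at g12 h12
  rw [t1, s3] at g13 h13
  rw [t1, s4] at g14 h14
  rw [t1, s5] at g15
  have hV : a ^ 2 * X + Y ≠ 0 := by
    intro h
    apply hD
    apply mul_left_cancel₀ (pow_ne_zero 2 ha)
    linear_combination a ^ 2 * g11 - h11 + (a - 1) ^ 2 * h
  -- f 2
  have f2 := hf.two (by omega) hx
  rw [t1, s1, s2] at f2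
  have hZ : (r - 1) * (-(a * (a + 1) * X) + (a - 1) * Y - a) = 2 * (a ^ 2 * X + Y) := by
    linear_combination -A
  have hZn : -(a * (a + 1) * X) + (a - 1) * Y - a ≠ 0 := by
    intro h
    rw [h, mul_zero] at hZ
    exact mul_ne_zero h20 hV hZ.symm
  have f2' : f 2 = a * (a + 1) * (r - 1) := by
    apply mul_right_cancel₀ hZn
    linear_combination f2 - a * (a + 1) * hZ
  -- kap 1 2
  have hB3 : a * (a + 1) * X - (a + 1) * Y + a ≠ 0 := by
    intro h
    apply hk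
    rw [GForm.kap, t1]
    linear_combination a * g12 + h12 - (a - 1) * h
  have hl2 := hx.lam2 (by omega)
  rw [t1, s2, s3] at hl2
  have hA3 : X * (r + 1) - (a + 1) * Y + (a + 1) ≠ 0 := by
    intro h
    refine mul_ne_zero (mul_ne_zero (sub_ne_zero.2 (g.lam_ne 2 (by omega)).symm) ha) hB3 ?_
    linear_combination hl2 + a * h
  have i3a : (a + 1) * (a ^ 2 * (a * r - 1)) * (X * (r + 1) - (a + 1) * Y + (a + 1)) * f 1 =
      (r - a) * (r + a) * ((a + 1) * f 1 - (a * r - 1)) := by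
    linear_combination ((a + 1) * (a ^ 2 * (a * r - 1)) * (r + 1) + (a + 1) ^ 2 * r * (a * r - 1))
      * hf1 - (a + 1) ^ 2 * f 1 * B + (a * r - a * f 1 - f 1 - 1) * C
  have i3b : (a + 1) * (r + 1) * (a ^ 2 * (a * r - 1)) * (a * (a + 1) * X - (a + 1) * Y + a) * f 1 =
      2 * a * ((r - a) * (r + a)) * (r * f 1 + (a + 1) * (r + a)) := by
    linear_combination ((a + 1) * (r + 1) * (a ^ 2 * (a * r - 1)) * (a * (a + 1))
      + (r + 1) * (a + 1) ^ 2 * r * (a * r - 1)) * hf1 - (r + 1) * (a + 1) ^ 2 * f 1 * B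
      + (a ^ 3 * r + a ^ 2 - 2 * a * r * f 1 - a * r - a * f 1 - f 1 - 1) * C
  have n2 : (a + 1) * f 1 - (a * r - 1) ≠ 0 := by
    intro h
    rw [h, mul_zero] at i3a
    exact mul_ne_zero (mul_ne_zero (mul_ne_zero ha1' hD0) hA3) f1n i3a
  have n3 : r * f 1 + (a + 1) * (r + a) ≠ 0 := by
    intro h
    rw [h, mul_zero] at i3b
    exact mul_ne_zero (mul_ne_zero (mul_ne_zero (mul_ne_zero ha1' hr1') hD0) hB3) f1n i3b
  have f3 := hf.three (by omega) hx
  rw [t1, s1, s2, s3] at f3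
  have f3' : f 3 * ((a + 1) * ((a + 1) * f 1 - (a * r - 1))) =
      -((r - a) * (r + a) * (r * f 1 + (a + 1) * (r + a))) := by
    apply mul_left_cancel₀ (mul_ne_zero (mul_ne_zero h20 (pow_ne_zero 2 ha))
      (mul_ne_zero hra hra'))
    linear_combination (a + 1) * (a ^ 2 * (a * r - 1)) * f 1 * f3
      - 2 * a ^ 2 * (a + 1) * f 3 * i3a - (r + a) * (r - a) * a * i3b
  -- Y
  have iY : a ^ 2 * (a * r - 1) * (Y * f 1) =
      r * ((a + 1) * (a ^ 2 + 1) * f 1 - (a * r - 1)) := by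
    linear_combination f 1 * B - r * (a * r - 1) * hf1
  have n4 : (a + 1) * (a ^ 2 + 1) * f 1 - (a * r - 1) ≠ 0 := by
    intro h
    rw [h, mul_zero] at iY
    exact mul_ne_zero hD0 (mul_ne_zero hYn f1n) iY
  have n5 : f 1 + a ^ 2 + 1 ≠ 0 := by
    intro h
    refine mul_ne_zero hD0 (mul_ne_zero hV f1n) ?_
    linear_combination iY + a ^ 2 * (a ^ 2 * (a * r - 1)) * hf1 - a * C
      + r * (a + 1) * (a ^ 2 + 1) * h
  have n6 : (a + 1) * (a ^ 2 + 1) * f 1 + (r ^ 2 - 1) * (a * r - 1) ≠ 0 := by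
    intro h
    have d3 := g.D_succ (j := 1) (k := 2) (by omega) (by omega)
    have d3n : g.D 1 3 ≠ 0 := by
      rw [d3]
      exact mul_ne_zero (sub_ne_zero.2 (g.lm_ne 2 (by omega)).symm) hk
    rw [GForm.D, t1] at d3n
    refine mul_ne_zero (mul_ne_zero (mul_ne_zero hr1 f1n) (mul_ne_zero hD0 hr)) d3n ?_
    linear_combination (r - 1) * f 1 * (a ^ 2 * (a * r - 1)) * (r * g13 + a ^ 2 * h13)
      - (a - 1) * (r - 1) * (r * (r + 1)) * (a ^ 2 * (a * r - 1)) * hf1
      + (a - 1) * (r - 1) * a ^ 2 * (r + 1) * iY + (a - 1) * r * a ^ 2 * f 1 * C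
      - 2 * (a - 1) * r * a ^ 2 * h
  have n7 : f 1 + (a - 1) * (a * r - 1) ≠ 0 := by
    intro h
    refine mul_ne_zero f1n (hcl.G_ne (j := 1) (by omega)) ?_
    linear_combination f 1 * g15 + (a - 1) * (a * r - 1) * hf1 + h
  -- lam 3 and f 4
  obtain ⟨W, hDD, hW, hal, hde, hT, R, hs4, h14n⟩ := b_neg_cols g le_rfl hD h1 h2 hb hk
  rw [t1] at hal hde
  rw [s3] at hT
  have hal2 : (1 - g.lam' 1) * ((a - 1) * (r - 1)) = 2 := by
    linear_combination (r - 1) * hal - hT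
  have hde2 : g.mu' 1 * ((a - 1) * (r - 1)) = 2 * a * r := by
    linear_combination (r - 1) * hde - a * hT
  have g23 := g.row2G (k := 3) (by omega) (by omega)
  have h23 := g.row2H (k := 3) (by omega) (by omega)
  have g24 := g.row2G (k := 4) (by omega) (by omega)
  rw [s3] at g23 h23
  rw [s4] at g24
  have u13 := g.U1 1 3 (by omega) (by omega)
  have u23 := g.U1 2 3 (by omega) (by omega)
  have u14 := g.U1 1 4 (by omega) (by omega)
  rw [t1] at u13 u14
  rw [t2] at u23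
  have hk3 := e1_kap3 g hD h1 h2 hb hk
  rw [GForm.kap, GForm.kap, t1, t2] at hk3
  have l3 : (a + 1) * (r + 1) * (1 - g.lam 3) = 2 := by
    refine e1_lam3 (X := X) (Y := Y) (al := 1 - g.lam' 1) (de := g.mu' 1) (G13 := g.G 1 3)
      (G14 := g.G 1 4) (H13 := g.H 1 3) (H14 := g.H 1 4) (G23 := g.G 2 3) (G24 := g.G 2 4)
      (H23 := g.H 2 3) ha ha1 hr hr1 har C B (by linear_combination g13)
      (by linear_combination g14) (by linear_combination -h13) (by linear_combination h14)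
      hal2 hde2 (by linear_combination g23) (by linear_combination g24) h23 u13
      (by linear_combination u23) ?_
    rcases hk3 with h | h
    · exact Or.inl h
    · right
      intro h'
      apply h
      linear_combination h'
  have f4 := hf 3 (by omega)
  simp only [Finset.prod_range_succ, Finset.range_zero, Finset.prod_empty, one_mul,
    g.s0, s1, s2, s3, s4] at f4
  have f4' : f 4 = -(r * (a + 1) * (r - 1)) := by
    apply mul_left_cancel₀ (mul_ne_zero h20 (mul_ne_zero hra hra'))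
    linear_combination -(a + 1) * f4 - f 4 * (r - a) * (r + a) * l3
  -- f 5
  have f5 := hf 4 (by omega)
  simp only [Finset.prod_range_succ, Finset.range_zero, Finset.prod_empty, one_mul,
    g.s0, s1, s2, s3, s4, s5] at f5
  rw [GForm.kap, t1] at h14n
  have f5Y : f 5 * Y = -(a ^ 2 * r ^ 2) :=
    e1_f5 (X := X) (G14 := g.G 1 4) (G15 := g.G 1 5) (H14 := g.H 1 4) (lam := g.lam 4)
      ha hr hr1 hr1' ha1 ha1' har C B (by linear_combination g14) g15
      (by linear_combination h14) u14 h14n (by linear_combination f5)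
  have f5' : f 5 * ((a + 1) * (a ^ 2 + 1) * f 1 - (a * r - 1)) = -(a ^ 4 * r * (a * r - 1) * f 1) := by
    apply mul_left_cancel₀ hr
    linear_combination -f 5 * iY + a ^ 2 * (a * r - 1) * f 1 * f5Y
  exact ⟨a, r, C, ha, hr, h20, sub_ne_zero.1 ha1, fun h => ha1' (by rw [h]; ring),
    sub_ne_zero.1 hr1, fun h => hr1' (by rw [h]; ring), sub_ne_zero.1 hra,
    fun h => hra' (by rw [h]; ring), sub_ne_zero.1 har, g.t0, t1, t2, t3, t4, t5, g.s0, s1, s2,
    s3, s4, s5, f2', f3', f4', f5', f1n, n2, n3, n4, n6, n7⟩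

end Pool.Agent.Helper76.IP
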