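import Mathlib

/-!
TH-P, phase 2, family E1: nondegeneracy (generated).
-/

namespace Pool.Agent.Helper76.IP

set_option linter.unusedVariables false
set_option linter.unusedSimpArgs false
set_option maxRecDepth 100000

variable {F : Type*} [Field F]

theorem e1n0 {a r x M p P s S u U D g L0 M0 : F}
    (n1 : a ≠ 0) (n2 : r ≠ 0) (n3 : p ≠ 0) (n4 : P ≠ 0) (n5 : s ≠ 0) (n6 : S ≠ 0)
    (n7 : u ≠ 0) (n8 : U ≠ 0) (n9 : D ≠ 0) (n10 : M ≠ 0) (n11 : (2 : F) ≠ 0)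
    (q3 : p = a - 1) (q4 : P = a + 1) (q5 : s = r - 1) (q6 : S = r + 1) (q7 : u = r - a)
    (q8 : U = r + a) (q9 : D = a * r - 1) (hM : M = r + (a + 1) * (r + a) * x)
    (hC : r ^ 2 + (1 + a) * (1 + a + a ^ 2) * r + a ^ 3 = 0)
    (dg : g = ((a ^ 2 * r * x - a * r * x - a * x + x + 1)))
    (dL0 : L0 = ((x) * p))
    (dM0 : M0 = ((a ^ 3 + a ^ 2 - a * r * x + a + x + 1) * p * r) / (D * a ^ 3)) :
    a ^ 3 * D * (1 - L0 - M0) = (r - a ^ 3) * g := by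
  rw [dg, dL0, dM0]
  field_simp
  try simp only [q3, q4, q5, q6, q7, q8, q9, hM]
  try ring1

theorem e1n1 {a r x M p P s S u U D L1 M1 : F}
    (n1 : a ≠ 0) (n2 : r ≠ 0) (n3 : p ≠ 0) (n4 : P ≠ 0) (n5 : s ≠ 0) (n6 : S ≠ 0)
    (n7 : u ≠ 0) (n8 : U ≠ 0) (n9 : D ≠ 0) (n10 : M ≠ 0) (n11 : (2 : F) ≠ 0)
    (q3 : p = a - 1) (q4 : P = a + 1) (q5 : s = r - 1) (q6 : S = r + 1) (q7 : u = r - a)
    (q8 : U = r + a) (q9 : D = a * r - 1) (hM : M = r + (a + 1) * (r + a) * x)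
    (hC : r ^ 2 + (1 + a) * (1 + a + a ^ 2) * r + a ^ 3 = 0)
    (dL1 : L1 = (2) / (p * s))
    (dM1 : M1 = (2 * a * r) / (p * s)) :
    p * s * (1 - L1 - M1) = -(P * S) := by
  rw [dL1, dM1]
  field_simp
  try simp only [q3, q4, q5, q6, q7, q8, q9, hM]
  try ring1

theorem e1n2 {a r x M p P s S u U D ML MM : F}
    (n1 : a ≠ 0) (n2 : r ≠ 0) (n3 : p ≠ 0) (n4 : P ≠ 0) (n5 : s ≠ 0) (n6 : S ≠ 0)
    (n7 : u ≠ 0) (n8 : U ≠ 0) (n9 : D ≠ 0) (n10 : M ≠ 0) (n11 : (2 : F) ≠ 0)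
    (q3 : p = a - 1) (q4 : P = a + 1) (q5 : s = r - 1) (q6 : S = r + 1) (q7 : u = r - a)
    (q8 : U = r + a) (q9 : D = a * r - 1) (hM : M = r + (a + 1) * (r + a) * x)
    (hC : r ^ 2 + (1 + a) * (1 + a + a ^ 2) * r + a ^ 3 = 0)
    (dML : ML = ((-a * r * x + a + x + 1) * S) / (2 * a))
    (dMM : MM = ((a * r * x - a - x - 1) * S * a ^ 2) / (2 * r)) :
    r * (M - ML - MM) = a ^ 2 * (1 + (1 - a + a ^ 3 + a ^ 4 + r * (1 + a + 4 * a ^ 2 + 3 * a ^ 3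
      + a ^ 4)) * x) := by
  have e : r * (M - ML - MM) - (a ^ 2 * (1 + (1 - a + a ^ 3 + a ^ 4 + r * (1 + a + 4 * a ^ 2 + 3 * a ^
      3 + a ^ 4)) * x)) = (-2 * a ^ 4 * x - 2 * a ^ 3 * x + a * r * x + 2 * a * x + a - x - 1) *
      (r ^ 2 + (1 + a) * (1 + a + a ^ 2) * r + a ^ 3) / (2 * a) := by
    rw [dML, dMM]
    field_simp
    simp only [q3, q4, q5, q6, q7, q8, q9, hM]
    ring1
  rw [hC, mul_zero, zero_div] at e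
  exact sub_eq_zero.1 e

theorem e1n3 {a r x M p P s S u U D L3 M3 : F}
    (n1 : a ≠ 0) (n2 : r ≠ 0) (n3 : p ≠ 0) (n4 : P ≠ 0) (n5 : s ≠ 0) (n6 : S ≠ 0)
    (n7 : u ≠ 0) (n8 : U ≠ 0) (n9 : D ≠ 0) (n10 : M ≠ 0) (n11 : (2 : F) ≠ 0)
    (q3 : p = a - 1) (q4 : P = a + 1) (q5 : s = r - 1) (q6 : S = r + 1) (q7 : u = r - a)
    (q8 : U = r + a) (q9 : D = a * r - 1) (hM : M = r + (a + 1) * (r + a) * x)
    (hC : r ^ 2 + (1 + a) * (1 + a + a ^ 2) * r + a ^ 3 = 0)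
    (dL3 : L3 = (2) / (P * S))
    (dM3 : M3 = (2 * a * r) / (P * S)) :
    P * S * (1 - L3 - M3) = -(p * s) := by
  rw [dL3, dM3]
  field_simp
  try simp only [q3, q4, q5, q6, q7, q8, q9, hM]
  try ring1

theorem e1n4 {a r x M p P s S u U D g L4 M4 : F}
    (n1 : a ≠ 0) (n2 : r ≠ 0) (n3 : p ≠ 0) (n4 : P ≠ 0) (n5 : s ≠ 0) (n6 : S ≠ 0)
    (n7 : u ≠ 0) (n8 : U ≠ 0) (n9 : D ≠ 0) (n10 : M ≠ 0) (n11 : (2 : F) ≠ 0)
    (q3 : p = a - 1) (q4 : P = a + 1) (q5 : s = r - 1) (q6 : S = r + 1) (q7 : u = r - a)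
    (q8 : U = r + a) (q9 : D = a * r - 1) (hM : M = r + (a + 1) * (r + a) * x)
    (hC : r ^ 2 + (1 + a) * (1 + a + a ^ 2) * r + a ^ 3 = 0)
    (dg : g = ((a ^ 2 * r * x - a * r * x - a * x + x + 1)))
    (dL4 : L4 = ((-a ^ 3 - a ^ 2 + a * r * x - a - x - 1) * P * p * S) / (U * u * 2 * a ^ 2))
    (dM4 : M4 = ((-x) * D * P * p * S * r) / (U * u * 2 * a)) :
    a * ((r - 1) * (a + 1) * (a ^ 2 + 1) - (a ^ 2 + a + 1) * (a * r - 1)) * (1 - L4 - M4) = D *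
      g := by
  have e : a * ((r - 1) * (a + 1) * (a ^ 2 + 1) - (a ^ 2 + a + 1) * (a * r - 1)) * (1 - L4 - M4) - (D *
      g) = (-a ^ 5 - a ^ 4 * r ^ 2 * x + a ^ 4 + 2 * a ^ 3 * r ^ 2 * x + 2 * a ^ 3 * r * x - a ^ 2
      * r ^ 2 * x - 4 * a ^ 2 * r * x - a ^ 2 * x + 2 * a * r * x + 2 * a * x + a - x - 1) * (r ^
      2 + (1 + a) * (1 + a + a ^ 2) * r + a ^ 3) / (U * u * 2 * a) := by
    rw [dg, dL4, dM4]
    field_simp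
    simp only [q3, q4, q5, q6, q7, q8, q9, hM]
    ring1
  rw [hC, mul_zero, zero_div] at e
  exact sub_eq_zero.1 e

end Pool.Agent.Helper76.IP
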