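import Mathlib

/-!
TH-P, phase 2, family E1: the cells of row 1 of the table (generated).
-/

namespace Pool.Agent.Helper76.IP

set_option linter.unusedVariables false
set_option linter.unusedSimpArgs false
set_option maxRecDepth 100000

variable {F : Type*} [Field F]

theorem e1u10 {a r x M p P s S u U D A1 L0 : F}
    (n1 : a ≠ 0) (n2 : r ≠ 0) (n3 : p ≠ 0) (n4 : P ≠ 0) (n5 : s ≠ 0) (n6 : S ≠ 0)
    (n7 : u ≠ 0) (n8 : U ≠ 0) (n9 : D ≠ 0) (n10 : M ≠ 0) (n11 : (2 : F) ≠ 0)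
    (q3 : p = a - 1) (q4 : P = a + 1) (q5 : s = r - 1) (q6 : S = r + 1) (q7 : u = r - a)
    (q8 : U = r + a) (q9 : D = a * r - 1) (hM : M = r + (a + 1) * (r + a) * x)
    (hC : r ^ 2 + (1 + a) * (1 + a + a ^ 2) * r + a ^ 3 = 0)
    (dA1 : A1 = ((a ^ 2 * x - 2 * a * x + x + 1)))
    (dL0 : L0 = ((x) * p)) :
    A1 = L0 * (a) + (1 - L0) * (1) := by
  rw [dA1, dL0]
  field_simp
  try simp only [q3, q4, q5, q6, q7, q8, q9, hM]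
  try ring1

theorem e1w10 {a r x M p P s S u U D h1 M0 : F}
    (n1 : a ≠ 0) (n2 : r ≠ 0) (n3 : p ≠ 0) (n4 : P ≠ 0) (n5 : s ≠ 0) (n6 : S ≠ 0)
    (n7 : u ≠ 0) (n8 : U ≠ 0) (n9 : D ≠ 0) (n10 : M ≠ 0) (n11 : (2 : F) ≠ 0)
    (q3 : p = a - 1) (q4 : P = a + 1) (q5 : s = r - 1) (q6 : S = r + 1) (q7 : u = r - a)
    (q8 : U = r + a) (q9 : D = a * r - 1) (hM : M = r + (a + 1) * (r + a) * x)
    (hC : r ^ 2 + (1 + a) * (1 + a + a ^ 2) * r + a ^ 3 = 0)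
    (dh1 : h1 = ((a ^ 4 * r - a ^ 4 + a ^ 3 * r ^ 2 * x - 2 * a ^ 2 * r ^ 2 * x - a ^ 2 * r * x + a * r
      ^ 2 * x + 2 * a * r * x + a * r - r * x - r)) / (D * a ^ 4))
    (dM0 : M0 = ((a ^ 3 + a ^ 2 - a * r * x + a + x + 1) * p * r) / (D * a ^ 3)) :
    a * h1 = (1 - M0) * (a) + M0 * (1) := by
  rw [dh1, dM0]
  field_simp
  try simp only [q3, q4, q5, q6, q7, q8, q9, hM]
  try ring1

theorem e1u11 {a r x M p P s S u U D A1 A2 h1 L1 : F}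
    (n1 : a ≠ 0) (n2 : r ≠ 0) (n3 : p ≠ 0) (n4 : P ≠ 0) (n5 : s ≠ 0) (n6 : S ≠ 0)
    (n7 : u ≠ 0) (n8 : U ≠ 0) (n9 : D ≠ 0) (n10 : M ≠ 0) (n11 : (2 : F) ≠ 0)
    (q3 : p = a - 1) (q4 : P = a + 1) (q5 : s = r - 1) (q6 : S = r + 1) (q7 : u = r - a)
    (q8 : U = r + a) (q9 : D = a * r - 1) (hM : M = r + (a + 1) * (r + a) * x)
    (hC : r ^ 2 + (1 + a) * (1 + a + a ^ 2) * r + a ^ 3 = 0)
    (dA1 : A1 = ((a ^ 2 * x - 2 * a * x + x + 1)))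
    (dA2 : A2 = ((-a ^ 2 * x + x + 1)))
    (dh1 : h1 = ((a ^ 4 * r - a ^ 4 + a ^ 3 * r ^ 2 * x - 2 * a ^ 2 * r ^ 2 * x - a ^ 2 * r * x + a * r
      ^ 2 * x + 2 * a * r * x + a * r - r * x - r)) / (D * a ^ 4))
    (dL1 : L1 = (2) / (p * s)) :
    A2 = L1 * (a * A1) + (1 - L1) * (a * h1) := by
  have e : A2 - (L1 * (a * A1) + (1 - L1) * (a * h1)) = (-a ^ 3 * r * x + 2 * a ^ 2 * r * x + a ^ 2 * x
      - a * r * x - 2 * a * x - a + x + 1) * (r ^ 2 + (1 + a) * (1 + a + a ^ 2) * r + a ^ 3) / (D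
      * s * a ^ 3) := by
    rw [dA1, dA2, dh1, dL1]
    field_simp
    simp only [q3, q4, q5, q6, q7, q8, q9, hM]
    ring1
  rw [hC, mul_zero, zero_div] at e
  exact sub_eq_zero.1 e

theorem e1w11 {a r x M p P s S u U D A1 h1 h2 M1 : F}
    (n1 : a ≠ 0) (n2 : r ≠ 0) (n3 : p ≠ 0) (n4 : P ≠ 0) (n5 : s ≠ 0) (n6 : S ≠ 0)
    (n7 : u ≠ 0) (n8 : U ≠ 0) (n9 : D ≠ 0) (n10 : M ≠ 0) (n11 : (2 : F) ≠ 0)
    (q3 : p = a - 1) (q4 : P = a + 1) (q5 : s = r - 1) (q6 : S = r + 1) (q7 : u = r - a)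
    (q8 : U = r + a) (q9 : D = a * r - 1) (hM : M = r + (a + 1) * (r + a) * x)
    (hC : r ^ 2 + (1 + a) * (1 + a + a ^ 2) * r + a ^ 3 = 0)
    (dA1 : A1 = ((a ^ 2 * x - 2 * a * x + x + 1)))
    (dh1 : h1 = ((a ^ 4 * r - a ^ 4 + a ^ 3 * r ^ 2 * x - 2 * a ^ 2 * r ^ 2 * x - a ^ 2 * r * x + a * r
      ^ 2 * x + 2 * a * r * x + a * r - r * x - r)) / (D * a ^ 4))
    (dh2 : h2 = ((-a ^ 4 * r - a ^ 4 + a ^ 3 * r ^ 2 * x - a ^ 2 * r * x - a * r ^ 2 * x + a * r + r *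
      x + r)) / (D * a ^ 4))
    (dM1 : M1 = (2 * a * r) / (p * s)) :
    a ^ 2 * h2 = (1 - M1) * (a * A1) + M1 * (a * h1) := by
  have e : a ^ 2 * h2 - ((1 - M1) * (a * A1) + M1 * (a * h1)) = (a ^ 3 * r * x - 2 * a ^ 2 * r * x - a
      ^ 2 * x + a * r * x + 2 * a * x + a - x - 1) * (r ^ 2 + (1 + a) * (1 + a + a ^ 2) * r + a ^
      3) / (D * s * a ^ 2) := by
    rw [dA1, dh1, dh2, dM1]
    field_simp
    simp only [q3, q4, q5, q6, q7, q8, q9, hM]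
    ring1
  rw [hC, mul_zero, zero_div] at e
  exact sub_eq_zero.1 e

theorem e1u12 {a r x M p P s S u U D A2 A3 h2 ML : F}
    (n1 : a ≠ 0) (n2 : r ≠ 0) (n3 : p ≠ 0) (n4 : P ≠ 0) (n5 : s ≠ 0) (n6 : S ≠ 0)
    (n7 : u ≠ 0) (n8 : U ≠ 0) (n9 : D ≠ 0) (n10 : M ≠ 0) (n11 : (2 : F) ≠ 0)
    (q3 : p = a - 1) (q4 : P = a + 1) (q5 : s = r - 1) (q6 : S = r + 1) (q7 : u = r - a)
    (q8 : U = r + a) (q9 : D = a * r - 1) (hM : M = r + (a + 1) * (r + a) * x)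
    (hC : r ^ 2 + (1 + a) * (1 + a + a ^ 2) * r + a ^ 3 = 0)
    (dA2 : A2 = ((-a ^ 2 * x + x + 1)))
    (dA3 : A3 = ((-a * r * x - a * x + r * x + x + 1)))
    (dh2 : h2 = ((-a ^ 4 * r - a ^ 4 + a ^ 3 * r ^ 2 * x - a ^ 2 * r * x - a * r ^ 2 * x + a * r + r *
      x + r)) / (D * a ^ 4))
    (dML : ML = ((-a * r * x + a + x + 1) * S) / (2 * a)) :
    M * A3 = ML * (a * A2) + (M - ML) * (a ^ 2 * h2) := by
  have e : M * A3 - (ML * (a * A2) + (M - ML) * (a ^ 2 * h2)) = (-a ^ 4 * r ^ 2 * x ^ 2 - 2 * a ^ 4 * r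
      * x ^ 2 + a ^ 4 * r * x + 2 * a ^ 4 * x + 2 * a ^ 3 * r * x ^ 2 + a ^ 3 * r * x + 2 * a ^ 3
      * x ^ 2 + a ^ 3 * x + a ^ 2 * r ^ 2 * x ^ 2 + 2 * a ^ 2 * r * x ^ 2 - a ^ 2 * x ^ 2 - 3 * a
      ^ 2 * x - a ^ 2 - 2 * a * r * x ^ 2 - 2 * a * r * x - 2 * a * x ^ 2 - 2 * a * x + x ^ 2 + 2
      * x + 1) * (r ^ 2 + (1 + a) * (1 + a + a ^ 2) * r + a ^ 3) / (D * 2 * a ^ 3) := by
    rw [dA2, dA3, dh2, dML]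
    field_simp
    simp only [q3, q4, q5, q6, q7, q8, q9, hM]
    ring1
  rw [hC, mul_zero, zero_div] at e
  exact sub_eq_zero.1 e

theorem e1w12 {a r x M p P s S u U D A2 h2 h3 MM : F}
    (n1 : a ≠ 0) (n2 : r ≠ 0) (n3 : p ≠ 0) (n4 : P ≠ 0) (n5 : s ≠ 0) (n6 : S ≠ 0)
    (n7 : u ≠ 0) (n8 : U ≠ 0) (n9 : D ≠ 0) (n10 : M ≠ 0) (n11 : (2 : F) ≠ 0)
    (q3 : p = a - 1) (q4 : P = a + 1) (q5 : s = r - 1) (q6 : S = r + 1) (q7 : u = r - a)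
    (q8 : U = r + a) (q9 : D = a * r - 1) (hM : M = r + (a + 1) * (r + a) * x)
    (hC : r ^ 2 + (1 + a) * (1 + a + a ^ 2) * r + a ^ 3 = 0)
    (dA2 : A2 = ((-a ^ 2 * x + x + 1)))
    (dh2 : h2 = ((-a ^ 4 * r - a ^ 4 + a ^ 3 * r ^ 2 * x - a ^ 2 * r * x - a * r ^ 2 * x + a * r + r *
      x + r)) / (D * a ^ 4))
    (dh3 : h3 = ((-a ^ 4 - a ^ 3 + a ^ 2 * r ^ 2 * x + a ^ 2 * r * x - a * r ^ 2 * x - 2 * a * r * x -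
      a * x + r * x + r + x + 1)) / (D * a ^ 3))
    (dMM : MM = ((a * r * x - a - x - 1) * S * a ^ 2) / (2 * r)) :
    M * (a ^ 3 * h3) = (M - MM) * (a * A2) + MM * (a ^ 2 * h2) := by
  have e : M * (a ^ 3 * h3) - ((M - MM) * (a * A2) + MM * (a ^ 2 * h2)) = (-a ^ 4 * r ^ 2 * x ^ 2 + a ^
      4 * r * x + 2 * a ^ 3 * r ^ 2 * x ^ 2 + 2 * a ^ 3 * r * x ^ 2 - a ^ 3 * r * x - a ^ 3 * x +
      a ^ 2 * r ^ 2 * x ^ 2 + 2 * a ^ 2 * r ^ 2 * x - 2 * a ^ 2 * r * x ^ 2 - 2 * a ^ 2 * r * x -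
      2 * a ^ 2 * r - a ^ 2 * x ^ 2 - a ^ 2 * x - a ^ 2 - 2 * a * r ^ 2 * x ^ 2 - 2 * a * r ^ 2 *
      x - 2 * a * r * x ^ 2 - 2 * a * r * x + 2 * r * x ^ 2 + 4 * r * x + 2 * r + x ^ 2 + 2 * x +
      1) * (r ^ 2 + (1 + a) * (1 + a + a ^ 2) * r + a ^ 3) / (D * 2 * r) := by
    rw [dA2, dh2, dh3, dMM]
    field_simp
    simp only [q3, q4, q5, q6, q7, q8, q9, hM]
    ring1
  rw [hC, mul_zero, zero_div] at e
  exact sub_eq_zero.1 e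

theorem e1u13 {a r x M p P s S u U D A3 A4 h3 L3 : F}
    (n1 : a ≠ 0) (n2 : r ≠ 0) (n3 : p ≠ 0) (n4 : P ≠ 0) (n5 : s ≠ 0) (n6 : S ≠ 0)
    (n7 : u ≠ 0) (n8 : U ≠ 0) (n9 : D ≠ 0) (n10 : M ≠ 0) (n11 : (2 : F) ≠ 0)
    (q3 : p = a - 1) (q4 : P = a + 1) (q5 : s = r - 1) (q6 : S = r + 1) (q7 : u = r - a)
    (q8 : U = r + a) (q9 : D = a * r - 1) (hM : M = r + (a + 1) * (r + a) * x)
    (hC : r ^ 2 + (1 + a) * (1 + a + a ^ 2) * r + a ^ 3 = 0)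
    (dA3 : A3 = ((-a * r * x - a * x + r * x + x + 1)))
    (dA4 : A4 = ((a * r * x - a * x - r * x + x + 1)))
    (dh3 : h3 = ((-a ^ 4 - a ^ 3 + a ^ 2 * r ^ 2 * x + a ^ 2 * r * x - a * r ^ 2 * x - 2 * a * r * x -
      a * x + r * x + r + x + 1)) / (D * a ^ 3))
    (dL3 : L3 = (2) / (P * S)) :
    A4 = L3 * (a * A3) + (1 - L3) * (a ^ 3 * h3) := by
  have e : A4 - (L3 * (a * A3) + (1 - L3) * (a ^ 3 * h3)) = (a - 1) * (r ^ 2 + (1 + a) * (1 + a + a ^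
      2) * r + a ^ 3) / (D * S) := by
    rw [dA3, dA4, dh3, dL3]
    field_simp
    simp only [q3, q4, q5, q6, q7, q8, q9, hM]
    ring1
  rw [hC, mul_zero, zero_div] at e
  exact sub_eq_zero.1 e

theorem e1w13 {a r x M p P s S u U D A3 h3 h4 M3 : F}
    (n1 : a ≠ 0) (n2 : r ≠ 0) (n3 : p ≠ 0) (n4 : P ≠ 0) (n5 : s ≠ 0) (n6 : S ≠ 0)
    (n7 : u ≠ 0) (n8 : U ≠ 0) (n9 : D ≠ 0) (n10 : M ≠ 0) (n11 : (2 : F) ≠ 0)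
    (q3 : p = a - 1) (q4 : P = a + 1) (q5 : s = r - 1) (q6 : S = r + 1) (q7 : u = r - a)
    (q8 : U = r + a) (q9 : D = a * r - 1) (hM : M = r + (a + 1) * (r + a) * x)
    (hC : r ^ 2 + (1 + a) * (1 + a + a ^ 2) * r + a ^ 3 = 0)
    (dA3 : A3 = ((-a * r * x - a * x + r * x + x + 1)))
    (dh3 : h3 = ((-a ^ 4 - a ^ 3 + a ^ 2 * r ^ 2 * x + a ^ 2 * r * x - a * r ^ 2 * x - 2 * a * r * x -
      a * x + r * x + r + x + 1)) / (D * a ^ 3))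
    (dh4 : h4 = ((a ^ 4 - a ^ 3 + a ^ 2 * r ^ 2 * x - a ^ 2 * r * x - a * r ^ 2 * x + a * x + r * x + r
      - x - 1)) / (D * a ^ 3))
    (dM3 : M3 = (2 * a * r) / (P * S)) :
    a ^ 4 * h4 = (1 - M3) * (a * A3) + M3 * (a ^ 3 * h3) := by
  have e : a ^ 4 * h4 - ((1 - M3) * (a * A3) + M3 * (a ^ 3 * h3)) = (a ^ 2 - a) * (r ^ 2 + (1 + a) * (1
      + a + a ^ 2) * r + a ^ 3) / (D * S) := by
    rw [dA3, dh3, dh4, dM3]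
    field_simp
    simp only [q3, q4, q5, q6, q7, q8, q9, hM]
    ring1
  rw [hC, mul_zero, zero_div] at e
  exact sub_eq_zero.1 e

theorem e1u14 {a r x M p P s S u U D A4 g h4 L4 : F}
    (n1 : a ≠ 0) (n2 : r ≠ 0) (n3 : p ≠ 0) (n4 : P ≠ 0) (n5 : s ≠ 0) (n6 : S ≠ 0)
    (n7 : u ≠ 0) (n8 : U ≠ 0) (n9 : D ≠ 0) (n10 : M ≠ 0) (n11 : (2 : F) ≠ 0)
    (q3 : p = a - 1) (q4 : P = a + 1) (q5 : s = r - 1) (q6 : S = r + 1) (q7 : u = r - a)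
    (q8 : U = r + a) (q9 : D = a * r - 1) (hM : M = r + (a + 1) * (r + a) * x)
    (hC : r ^ 2 + (1 + a) * (1 + a + a ^ 2) * r + a ^ 3 = 0)
    (dA4 : A4 = ((a * r * x - a * x - r * x + x + 1)))
    (dg : g = ((a ^ 2 * r * x - a * r * x - a * x + x + 1)))
    (dh4 : h4 = ((a ^ 4 - a ^ 3 + a ^ 2 * r ^ 2 * x - a ^ 2 * r * x - a * r ^ 2 * x + a * x + r * x + r
      - x - 1)) / (D * a ^ 3))
    (dL4 : L4 = ((-a ^ 3 - a ^ 2 + a * r * x - a - x - 1) * P * p * S) / (U * u * 2 * a ^ 2)) :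
    g = L4 * (a * A4) + (1 - L4) * (a ^ 4 * h4) := by
  have e : g - (L4 * (a * A4) + (1 - L4) * (a ^ 4 * h4)) = (-a ^ 6 + 2 * a ^ 5 + a ^ 4 * r * x - a ^ 4
      - 3 * a ^ 3 * r * x - a ^ 3 * x + 3 * a ^ 2 * r * x + 3 * a ^ 2 * x + a ^ 2 - a * r * x - 3
      * a * x - 2 * a + x + 1) * (r ^ 2 + (1 + a) * (1 + a + a ^ 2) * r + a ^ 3) / (D * U * u * 2
      * a) := by
    rw [dA4, dg, dh4, dL4]
    field_simp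
    simp only [q3, q4, q5, q6, q7, q8, q9, hM]
    ring1
  rw [hC, mul_zero, zero_div] at e
  exact sub_eq_zero.1 e

theorem e1w14 {a r x M p P s S u U D A4 h4 h5 M4 : F}
    (n1 : a ≠ 0) (n2 : r ≠ 0) (n3 : p ≠ 0) (n4 : P ≠ 0) (n5 : s ≠ 0) (n6 : S ≠ 0)
    (n7 : u ≠ 0) (n8 : U ≠ 0) (n9 : D ≠ 0) (n10 : M ≠ 0) (n11 : (2 : F) ≠ 0)
    (q3 : p = a - 1) (q4 : P = a + 1) (q5 : s = r - 1) (q6 : S = r + 1) (q7 : u = r - a)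
    (q8 : U = r + a) (q9 : D = a * r - 1) (hM : M = r + (a + 1) * (r + a) * x)
    (hC : r ^ 2 + (1 + a) * (1 + a + a ^ 2) * r + a ^ 3 = 0)
    (dA4 : A4 = ((a * r * x - a * x - r * x + x + 1)))
    (dh4 : h4 = ((a ^ 4 - a ^ 3 + a ^ 2 * r ^ 2 * x - a ^ 2 * r * x - a * r ^ 2 * x + a * x + r * x + r
      - x - 1)) / (D * a ^ 3))
    (dh5 : h5 = ((a ^ 2 * r * x - a * r * x - a * x + x + 1)) / (a ^ 4))
    (dM4 : M4 = ((-x) * D * P * p * S * r) / (U * u * 2 * a)) :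
    a ^ 5 * h5 = (1 - M4) * (a * A4) + M4 * (a ^ 4 * h4) := by
  have e : a ^ 5 * h5 - ((1 - M4) * (a * A4) + M4 * (a ^ 4 * h4)) = (a ^ 3 * r * x - 3 * a ^ 2 * r * x
      + 3 * a * r * x - r * x) * (r ^ 2 + (1 + a) * (1 + a + a ^ 2) * r + a ^ 3) / (U * u * 2) :=
      by
    rw [dA4, dh4, dh5, dM4]
    field_simp
    simp only [q3, q4, q5, q6, q7, q8, q9, hM]
    ring1
  rw [hC, mul_zero, zero_div] at e
  exact sub_eq_zero.1 e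

end Pool.Agent.Helper76.IP
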