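import Mathlib

/-!
TH-P, phase 2, family E1: the cells of row 2 of the table (generated).
-/

namespace Pool.Agent.Helper76.IP

set_option linter.unusedVariables false
set_option linter.unusedSimpArgs false
set_option maxRecDepth 100000

variable {F : Type*} [Field F]

theorem e1u20 {a r x M p P s S u U D A2 L0 : F}
    (n1 : a ≠ 0) (n2 : r ≠ 0) (n3 : p ≠ 0) (n4 : P ≠ 0) (n5 : s ≠ 0) (n6 : S ≠ 0)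
    (n7 : u ≠ 0) (n8 : U ≠ 0) (n9 : D ≠ 0) (n10 : M ≠ 0) (n11 : (2 : F) ≠ 0)
    (q3 : p = a - 1) (q4 : P = a + 1) (q5 : s = r - 1) (q6 : S = r + 1) (q7 : u = r - a)
    (q8 : U = r + a) (q9 : D = a * r - 1) (hM : M = r + (a + 1) * (r + a) * x)
    (hC : r ^ 2 + (1 + a) * (1 + a + a ^ 2) * r + a ^ 3 = 0)
    (dA2 : A2 = ((-a ^ 2 * x + x + 1)))
    (dL0 : L0 = ((x) * p)) :
    A2 = L0 * ((-a)) + (1 - L0) * (1) := by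
  rw [dA2, dL0]
  field_simp
  try simp only [q3, q4, q5, q6, q7, q8, q9, hM]
  try ring1

theorem e1w20 {a r x M p P s S u U D h2 M0 : F}
    (n1 : a ≠ 0) (n2 : r ≠ 0) (n3 : p ≠ 0) (n4 : P ≠ 0) (n5 : s ≠ 0) (n6 : S ≠ 0)
    (n7 : u ≠ 0) (n8 : U ≠ 0) (n9 : D ≠ 0) (n10 : M ≠ 0) (n11 : (2 : F) ≠ 0)
    (q3 : p = a - 1) (q4 : P = a + 1) (q5 : s = r - 1) (q6 : S = r + 1) (q7 : u = r - a)
    (q8 : U = r + a) (q9 : D = a * r - 1) (hM : M = r + (a + 1) * (r + a) * x)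
    (hC : r ^ 2 + (1 + a) * (1 + a + a ^ 2) * r + a ^ 3 = 0)
    (dh2 : h2 = ((-a ^ 4 * r - a ^ 4 + a ^ 3 * r ^ 2 * x - a ^ 2 * r * x - a * r ^ 2 * x + a * r + r *
      x + r)) / (D * a ^ 4))
    (dM0 : M0 = ((a ^ 3 + a ^ 2 - a * r * x + a + x + 1) * p * r) / (D * a ^ 3)) :
    (-a) * h2 = (1 - M0) * ((-a)) + M0 * (1) := by
  rw [dh2, dM0]
  field_simp
  try simp only [q3, q4, q5, q6, q7, q8, q9, hM]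
  try ring1

theorem e1u21 {a r x M p P s S u U D A2 B h2 L1 : F}
    (n1 : a ≠ 0) (n2 : r ≠ 0) (n3 : p ≠ 0) (n4 : P ≠ 0) (n5 : s ≠ 0) (n6 : S ≠ 0)
    (n7 : u ≠ 0) (n8 : U ≠ 0) (n9 : D ≠ 0) (n10 : M ≠ 0) (n11 : (2 : F) ≠ 0)
    (q3 : p = a - 1) (q4 : P = a + 1) (q5 : s = r - 1) (q6 : S = r + 1) (q7 : u = r - a)
    (q8 : U = r + a) (q9 : D = a * r - 1) (hM : M = r + (a + 1) * (r + a) * x)
    (hC : r ^ 2 + (1 + a) * (1 + a + a ^ 2) * r + a ^ 3 = 0)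
    (dA2 : A2 = ((-a ^ 2 * x + x + 1)))
    (dB : B = ((a ^ 2 * r * x + 3 * a ^ 2 * x + 2 * a * r * x + 2 * a * x + r * x + r - x - 1)) / (s))
    (dh2 : h2 = ((-a ^ 4 * r - a ^ 4 + a ^ 3 * r ^ 2 * x - a ^ 2 * r * x - a * r ^ 2 * x + a * r + r *
      x + r)) / (D * a ^ 4))
    (dL1 : L1 = (2) / (p * s)) :
    B = L1 * ((-a) * A2) + (1 - L1) * ((-a) * h2) := by
  have e : B - (L1 * ((-a) * A2) + (1 - L1) * ((-a) * h2)) = (a ^ 3 * r * x - a ^ 2 * x - a * r * x + a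
      + x + 1) * (r ^ 2 + (1 + a) * (1 + a + a ^ 2) * r + a ^ 3) / (D * s * a ^ 3) := by
    rw [dA2, dB, dh2, dL1]
    field_simp
    simp only [q3, q4, q5, q6, q7, q8, q9, hM]
    ring1
  rw [hC, mul_zero, zero_div] at e
  exact sub_eq_zero.1 e

theorem e1w21 {a r x M p P s S u U D A2 h2 b M1 : F}
    (n1 : a ≠ 0) (n2 : r ≠ 0) (n3 : p ≠ 0) (n4 : P ≠ 0) (n5 : s ≠ 0) (n6 : S ≠ 0)
    (n7 : u ≠ 0) (n8 : U ≠ 0) (n9 : D ≠ 0) (n10 : M ≠ 0) (n11 : (2 : F) ≠ 0)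
    (q3 : p = a - 1) (q4 : P = a + 1) (q5 : s = r - 1) (q6 : S = r + 1) (q7 : u = r - a)
    (q8 : U = r + a) (q9 : D = a * r - 1) (hM : M = r + (a + 1) * (r + a) * x)
    (hC : r ^ 2 + (1 + a) * (1 + a + a ^ 2) * r + a ^ 3 = 0)
    (dA2 : A2 = ((-a ^ 2 * x + x + 1)))
    (dh2 : h2 = ((-a ^ 4 * r - a ^ 4 + a ^ 3 * r ^ 2 * x - a ^ 2 * r * x - a * r ^ 2 * x + a * r + r *
      x + r)) / (D * a ^ 4))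
    (db : b = ((a ^ 4 * r ^ 2 + 2 * a ^ 4 * r + a ^ 4 + a ^ 3 * r ^ 3 * x - a ^ 3 * r ^ 2 * x + 4 * a
      ^ 3 * r ^ 2 + 4 * a ^ 3 * r - 2 * a ^ 2 * r ^ 3 * x - 3 * a ^ 2 * r ^ 2 * x + 4 * a ^ 2 * r
      ^ 2 + a ^ 2 * r * x + 4 * a ^ 2 * r - 3 * a * r ^ 3 * x + a * r ^ 2 * x + 5 * a * r ^ 2 + 2
      * a * r * x + 3 * a * r + 3 * r ^ 2 * x + 3 * r ^ 2 + r * x + r)) / (D * s * a ^ 4))
    (dM1 : M1 = (2 * a * r) / (p * s)) :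
    (-a) ^ 2 * b = (1 - M1) * ((-a) * A2) + M1 * ((-a) * h2) := by
  have e : (-a) ^ 2 * b - ((1 - M1) * ((-a) * A2) + M1 * ((-a) * h2)) = (a ^ 3 * r * x - a ^ 2 * x - a
      * r * x + a + x + 1) * (r ^ 2 + (1 + a) * (1 + a + a ^ 2) * r + a ^ 3) / (D * s * a ^ 2) :=
      by
    rw [dA2, dh2, db, dM1]
    field_simp
    simp only [q3, q4, q5, q6, q7, q8, q9, hM]
    ring1
  rw [hC, mul_zero, zero_div] at e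
  exact sub_eq_zero.1 e

theorem e1u22 {a r x M p P s S u U D B C3 b ML : F}
    (n1 : a ≠ 0) (n2 : r ≠ 0) (n3 : p ≠ 0) (n4 : P ≠ 0) (n5 : s ≠ 0) (n6 : S ≠ 0)
    (n7 : u ≠ 0) (n8 : U ≠ 0) (n9 : D ≠ 0) (n10 : M ≠ 0) (n11 : (2 : F) ≠ 0)
    (q3 : p = a - 1) (q4 : P = a + 1) (q5 : s = r - 1) (q6 : S = r + 1) (q7 : u = r - a)
    (q8 : U = r + a) (q9 : D = a * r - 1) (hM : M = r + (a + 1) * (r + a) * x)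
    (hC : r ^ 2 + (1 + a) * (1 + a + a ^ 2) * r + a ^ 3 = 0)
    (dB : B = ((a ^ 2 * r * x + 3 * a ^ 2 * x + 2 * a * r * x + 2 * a * x + r * x + r - x - 1)) / (s))
    (dC3 : C3 = ((-a ^ 4 * r * x - a ^ 4 * x - 5 * a ^ 3 * r * x - 3 * a ^ 3 * x - 8 * a ^ 2 * r * x -
      5 * a * r * x + a * x - r * x + r - x - 1)) / (s))
    (db : b = ((a ^ 4 * r ^ 2 + 2 * a ^ 4 * r + a ^ 4 + a ^ 3 * r ^ 3 * x - a ^ 3 * r ^ 2 * x + 4 * a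
      ^ 3 * r ^ 2 + 4 * a ^ 3 * r - 2 * a ^ 2 * r ^ 3 * x - 3 * a ^ 2 * r ^ 2 * x + 4 * a ^ 2 * r
      ^ 2 + a ^ 2 * r * x + 4 * a ^ 2 * r - 3 * a * r ^ 3 * x + a * r ^ 2 * x + 5 * a * r ^ 2 + 2
      * a * r * x + 3 * a * r + 3 * r ^ 2 * x + 3 * r ^ 2 + r * x + r)) / (D * s * a ^ 4))
    (dML : ML = ((-a * r * x + a + x + 1) * S) / (2 * a)) :
    M * C3 = ML * ((-a) * B) + (M - ML) * ((-a) ^ 2 * b) := by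
  have e : M * C3 - (ML * ((-a) * B) + (M - ML) * ((-a) ^ 2 * b)) = (-2 * a ^ 7 * r * x ^ 2 - 2 * a ^ 6
      * r ^ 2 * x ^ 2 - 8 * a ^ 6 * r * x ^ 2 + 2 * a ^ 6 * x ^ 2 - 8 * a ^ 5 * r ^ 2 * x ^ 2 - 2
      * a ^ 5 * r ^ 2 * x - 4 * a ^ 5 * r * x ^ 2 + 8 * a ^ 5 * x ^ 2 - a ^ 4 * r ^ 3 * x ^ 2 - 7
      * a ^ 4 * r ^ 2 * x ^ 2 - 5 * a ^ 4 * r ^ 2 * x + 10 * a ^ 4 * r * x ^ 2 + 3 * a ^ 4 * r * x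
      + 6 * a ^ 4 * x ^ 2 - 2 * a ^ 4 * x + 2 * a ^ 3 * r ^ 3 * x ^ 2 + 8 * a ^ 3 * r ^ 2 * x ^ 2
      - a ^ 3 * r ^ 2 * x + 10 * a ^ 3 * r * x ^ 2 - 2 * a ^ 3 * x ^ 2 - 5 * a ^ 3 * x + 3 * a ^ 2
      * r ^ 3 * x ^ 2 + 3 * a ^ 2 * r ^ 2 * x ^ 2 - 4 * a ^ 2 * r ^ 2 * x - 7 * a ^ 2 * r * x ^ 2
      - 13 * a ^ 2 * r * x - a ^ 2 * r - 3 * a ^ 2 * x ^ 2 - 3 * a ^ 2 * x + a ^ 2 - 6 * a * r ^ 2
      * x ^ 2 - 6 * a * r ^ 2 * x - 6 * a * r * x ^ 2 - 4 * a * r * x + 2 * a * r + 2 * a * x + 2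
      * a + 3 * r * x ^ 2 + 6 * r * x + 3 * r + x ^ 2 + 2 * x + 1) * (r ^ 2 + (1 + a) * (1 + a + a
      ^ 2) * r + a ^ 3) / (D * s * 2 * a ^ 3) := by
    rw [dB, dC3, db, dML]
    field_simp
    simp only [q3, q4, q5, q6, q7, q8, q9, hM]
    ring1
  rw [hC, mul_zero, zero_div] at e
  exact sub_eq_zero.1 e

theorem e1w22 {a r x M p P s S u U D B b c MM : F}
    (n1 : a ≠ 0) (n2 : r ≠ 0) (n3 : p ≠ 0) (n4 : P ≠ 0) (n5 : s ≠ 0) (n6 : S ≠ 0)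
    (n7 : u ≠ 0) (n8 : U ≠ 0) (n9 : D ≠ 0) (n10 : M ≠ 0) (n11 : (2 : F) ≠ 0)
    (q3 : p = a - 1) (q4 : P = a + 1) (q5 : s = r - 1) (q6 : S = r + 1) (q7 : u = r - a)
    (q8 : U = r + a) (q9 : D = a * r - 1) (hM : M = r + (a + 1) * (r + a) * x)
    (hC : r ^ 2 + (1 + a) * (1 + a + a ^ 2) * r + a ^ 3 = 0)
    (dB : B = ((a ^ 2 * r * x + 3 * a ^ 2 * x + 2 * a * r * x + 2 * a * x + r * x + r - x - 1)) / (s))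
    (db : b = ((a ^ 4 * r ^ 2 + 2 * a ^ 4 * r + a ^ 4 + a ^ 3 * r ^ 3 * x - a ^ 3 * r ^ 2 * x + 4 * a
      ^ 3 * r ^ 2 + 4 * a ^ 3 * r - 2 * a ^ 2 * r ^ 3 * x - 3 * a ^ 2 * r ^ 2 * x + 4 * a ^ 2 * r
      ^ 2 + a ^ 2 * r * x + 4 * a ^ 2 * r - 3 * a * r ^ 3 * x + a * r ^ 2 * x + 5 * a * r ^ 2 + 2
      * a * r * x + 3 * a * r + 3 * r ^ 2 * x + 3 * r ^ 2 + r * x + r)) / (D * s * a ^ 4))
    (dc : c = ((-2 * a ^ 7 * r - 7 * a ^ 6 * r + a ^ 6 + a ^ 5 * r ^ 3 * x + a ^ 5 * r ^ 2 * x - 14 *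
      a ^ 5 * r - a ^ 4 * r ^ 3 * x + 4 * a ^ 4 * r ^ 2 * x - 3 * a ^ 4 * r ^ 2 - a ^ 4 * r * x -
      19 * a ^ 4 * r + 9 * a ^ 3 * r ^ 2 * x - 3 * a ^ 3 * r ^ 2 - 5 * a ^ 3 * r * x - 19 * a ^ 3
      * r + 3 * a ^ 2 * r ^ 3 * x + 5 * a ^ 2 * r ^ 2 * x - 4 * a ^ 2 * r ^ 2 - 8 * a ^ 2 * r * x
      - 14 * a ^ 2 * r + a * r ^ 3 * x - 2 * a * r ^ 2 * x - 4 * a * r ^ 2 - 5 * a * r * x - 6 * a
      * r - r ^ 2 * x - r ^ 2 - r * x - r)) / (D * s * a ^ 6))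
    (dMM : MM = ((a * r * x - a - x - 1) * S * a ^ 2) / (2 * r)) :
    M * ((-a) ^ 3 * c) = (M - MM) * ((-a) * B) + MM * ((-a) ^ 2 * b) := by
  have e : M * ((-a) ^ 3 * c) - ((M - MM) * ((-a) * B) + MM * ((-a) ^ 2 * b)) = (-a ^ 7 * r ^ 3 * x ^ 2
      - 3 * a ^ 7 * r ^ 2 * x ^ 2 + a ^ 7 * r ^ 2 * x + 3 * a ^ 7 * r * x + 6 * a ^ 6 * r ^ 2 * x
      ^ 2 + a ^ 6 * r ^ 2 * x + 6 * a ^ 6 * r * x ^ 2 + 4 * a ^ 6 * r * x - 3 * a ^ 6 * x + 3 * a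
      ^ 5 * r ^ 3 * x ^ 2 - 2 * a ^ 5 * r ^ 3 * x + 7 * a ^ 5 * r ^ 2 * x ^ 2 + 2 * a ^ 5 * r ^ 2
      * x + 2 * a ^ 5 * r ^ 2 - 3 * a ^ 5 * r * x ^ 2 + a ^ 5 * r * x + a ^ 5 * r - 3 * a ^ 5 * x
      ^ 2 - 5 * a ^ 5 * x + a ^ 5 + 2 * a ^ 4 * r ^ 3 * x ^ 2 + 2 * a ^ 4 * r ^ 3 * x - 10 * a ^ 4
      * r ^ 2 * x ^ 2 + 10 * a ^ 4 * r ^ 2 * x + 6 * a ^ 4 * r ^ 2 - 8 * a ^ 4 * r * x ^ 2 + 10 *
      a ^ 4 * r * x + 2 * a ^ 4 * r - 2 * a ^ 4 * x ^ 2 + 2 * a ^ 4 - 6 * a ^ 3 * r ^ 3 * x ^ 2 -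
      10 * a ^ 3 * r ^ 2 * x ^ 2 + 12 * a ^ 3 * r ^ 2 * x + 6 * a ^ 3 * r ^ 2 + 7 * a ^ 3 * r * x
      ^ 2 + 18 * a ^ 3 * r * x + a ^ 3 * r + a ^ 3 * x ^ 2 + 2 * a ^ 3 * x + a ^ 3 - 8 * a ^ 2 * r
      ^ 3 * x ^ 2 - 6 * a ^ 2 * r ^ 3 * x + 4 * a ^ 2 * r ^ 2 * x ^ 2 + 16 * a ^ 2 * r ^ 2 * x + 8
      * a ^ 2 * r ^ 2 + 8 * a ^ 2 * r * x ^ 2 + 10 * a ^ 2 * r * x - 2 * a * r ^ 3 * x ^ 2 - 2 * a
      * r ^ 3 * x + 8 * a * r ^ 2 * x ^ 2 + 16 * a * r ^ 2 * x + 8 * a * r ^ 2 + 2 * a * r * x ^ 2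
      + 2 * a * r * x + 2 * r ^ 2 * x ^ 2 + 4 * r ^ 2 * x + 2 * r ^ 2) * (r ^ 2 + (1 + a) * (1 + a
      + a ^ 2) * r + a ^ 3) / (D * s * 2 * a ^ 3 * r) := by
    rw [dB, db, dc, dMM]
    field_simp
    simp only [q3, q4, q5, q6, q7, q8, q9, hM]
    ring1
  rw [hC, mul_zero, zero_div] at e
  exact sub_eq_zero.1 e

theorem e1u23 {a r x M p P s S u U D A3 C3 c L3 : F}
    (n1 : a ≠ 0) (n2 : r ≠ 0) (n3 : p ≠ 0) (n4 : P ≠ 0) (n5 : s ≠ 0) (n6 : S ≠ 0)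
    (n7 : u ≠ 0) (n8 : U ≠ 0) (n9 : D ≠ 0) (n10 : M ≠ 0) (n11 : (2 : F) ≠ 0)
    (q3 : p = a - 1) (q4 : P = a + 1) (q5 : s = r - 1) (q6 : S = r + 1) (q7 : u = r - a)
    (q8 : U = r + a) (q9 : D = a * r - 1) (hM : M = r + (a + 1) * (r + a) * x)
    (hC : r ^ 2 + (1 + a) * (1 + a + a ^ 2) * r + a ^ 3 = 0)
    (dA3 : A3 = ((-a * r * x - a * x + r * x + x + 1)))
    (dC3 : C3 = ((-a ^ 4 * r * x - a ^ 4 * x - 5 * a ^ 3 * r * x - 3 * a ^ 3 * x - 8 * a ^ 2 * r * x -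
      5 * a * r * x + a * x - r * x + r - x - 1)) / (s))
    (dc : c = ((-2 * a ^ 7 * r - 7 * a ^ 6 * r + a ^ 6 + a ^ 5 * r ^ 3 * x + a ^ 5 * r ^ 2 * x - 14 *
      a ^ 5 * r - a ^ 4 * r ^ 3 * x + 4 * a ^ 4 * r ^ 2 * x - 3 * a ^ 4 * r ^ 2 - a ^ 4 * r * x -
      19 * a ^ 4 * r + 9 * a ^ 3 * r ^ 2 * x - 3 * a ^ 3 * r ^ 2 - 5 * a ^ 3 * r * x - 19 * a ^ 3
      * r + 3 * a ^ 2 * r ^ 3 * x + 5 * a ^ 2 * r ^ 2 * x - 4 * a ^ 2 * r ^ 2 - 8 * a ^ 2 * r * x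
      - 14 * a ^ 2 * r + a * r ^ 3 * x - 2 * a * r ^ 2 * x - 4 * a * r ^ 2 - 5 * a * r * x - 6 * a
      * r - r ^ 2 * x - r ^ 2 - r * x - r)) / (D * s * a ^ 6))
    (dL3 : L3 = (2) / (P * S)) :
    A3 = L3 * ((-a) * C3) + (1 - L3) * ((-a) ^ 3 * c) := by
  have e : A3 - (L3 * ((-a) * C3) + (1 - L3) * ((-a) ^ 3 * c)) = (-2 * a ^ 5 * r * x - 4 * a ^ 4 * r *
      x - 2 * a ^ 4 * r + 2 * a ^ 4 * x + 4 * a ^ 3 * r * x - 3 * a ^ 3 * r + 4 * a ^ 3 * x + a ^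
      3 + 3 * a ^ 2 * r ^ 2 * x - a ^ 2 * r * x - 4 * a ^ 2 * r - 4 * a ^ 2 * x - 2 * a ^ 2 + a *
      r ^ 2 * x - 4 * a * r * x - 4 * a * r + a * x + 2 * a - r * x - r + x + 1) * (r ^ 2 + (1 +
      a) * (1 + a + a ^ 2) * r + a ^ 3) / (D * S * s * a ^ 3) := by
    rw [dA3, dC3, dc, dL3]
    field_simp
    simp only [q3, q4, q5, q6, q7, q8, q9, hM]
    ring1
  rw [hC, mul_zero, zero_div] at e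
  exact sub_eq_zero.1 e

theorem e1w23 {a r x M p P s S u U D C3 h3 c M3 : F}
    (n1 : a ≠ 0) (n2 : r ≠ 0) (n3 : p ≠ 0) (n4 : P ≠ 0) (n5 : s ≠ 0) (n6 : S ≠ 0)
    (n7 : u ≠ 0) (n8 : U ≠ 0) (n9 : D ≠ 0) (n10 : M ≠ 0) (n11 : (2 : F) ≠ 0)
    (q3 : p = a - 1) (q4 : P = a + 1) (q5 : s = r - 1) (q6 : S = r + 1) (q7 : u = r - a)
    (q8 : U = r + a) (q9 : D = a * r - 1) (hM : M = r + (a + 1) * (r + a) * x)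
    (hC : r ^ 2 + (1 + a) * (1 + a + a ^ 2) * r + a ^ 3 = 0)
    (dC3 : C3 = ((-a ^ 4 * r * x - a ^ 4 * x - 5 * a ^ 3 * r * x - 3 * a ^ 3 * x - 8 * a ^ 2 * r * x -
      5 * a * r * x + a * x - r * x + r - x - 1)) / (s))
    (dh3 : h3 = ((-a ^ 4 - a ^ 3 + a ^ 2 * r ^ 2 * x + a ^ 2 * r * x - a * r ^ 2 * x - 2 * a * r * x -
      a * x + r * x + r + x + 1)) / (D * a ^ 3))
    (dc : c = ((-2 * a ^ 7 * r - 7 * a ^ 6 * r + a ^ 6 + a ^ 5 * r ^ 3 * x + a ^ 5 * r ^ 2 * x - 14 *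
      a ^ 5 * r - a ^ 4 * r ^ 3 * x + 4 * a ^ 4 * r ^ 2 * x - 3 * a ^ 4 * r ^ 2 - a ^ 4 * r * x -
      19 * a ^ 4 * r + 9 * a ^ 3 * r ^ 2 * x - 3 * a ^ 3 * r ^ 2 - 5 * a ^ 3 * r * x - 19 * a ^ 3
      * r + 3 * a ^ 2 * r ^ 3 * x + 5 * a ^ 2 * r ^ 2 * x - 4 * a ^ 2 * r ^ 2 - 8 * a ^ 2 * r * x
      - 14 * a ^ 2 * r + a * r ^ 3 * x - 2 * a * r ^ 2 * x - 4 * a * r ^ 2 - 5 * a * r * x - 6 * a
      * r - r ^ 2 * x - r ^ 2 - r * x - r)) / (D * s * a ^ 6))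
    (dM3 : M3 = (2 * a * r) / (P * S)) :
    (-a) ^ 4 * h3 = (1 - M3) * ((-a) * C3) + M3 * ((-a) ^ 3 * c) := by
  have e : (-a) ^ 4 * h3 - ((1 - M3) * ((-a) * C3) + M3 * ((-a) ^ 3 * c)) = (a ^ 5 * r ^ 2 * x - a ^ 5
      * r * x + a ^ 4 * r ^ 2 * x - 4 * a ^ 4 * r * x - a ^ 4 * r + a ^ 4 * x + a ^ 4 - 4 * a ^ 3
      * r ^ 2 * x - a ^ 3 * r * x - 3 * a ^ 3 * r + 3 * a ^ 3 * x + a ^ 3 + 4 * a ^ 2 * r ^ 2 * x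
      + 4 * a ^ 2 * r * x - 2 * a ^ 2 * r + 2 * a * r ^ 2 * x - 4 * a * r * x - 6 * a * r - 2 * r
      * x - 2 * r) * (r ^ 2 + (1 + a) * (1 + a + a ^ 2) * r + a ^ 3) / (D * S * s * a ^ 2) := by
    rw [dC3, dh3, dc, dM3]
    field_simp
    simp only [q3, q4, q5, q6, q7, q8, q9, hM]
    ring1
  rw [hC, mul_zero, zero_div] at e
  exact sub_eq_zero.1 e

theorem e1u24 {a r x M p P s S u U D A3 g h3 L4 : F}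
    (n1 : a ≠ 0) (n2 : r ≠ 0) (n3 : p ≠ 0) (n4 : P ≠ 0) (n5 : s ≠ 0) (n6 : S ≠ 0)
    (n7 : u ≠ 0) (n8 : U ≠ 0) (n9 : D ≠ 0) (n10 : M ≠ 0) (n11 : (2 : F) ≠ 0)
    (q3 : p = a - 1) (q4 : P = a + 1) (q5 : s = r - 1) (q6 : S = r + 1) (q7 : u = r - a)
    (q8 : U = r + a) (q9 : D = a * r - 1) (hM : M = r + (a + 1) * (r + a) * x)
    (hC : r ^ 2 + (1 + a) * (1 + a + a ^ 2) * r + a ^ 3 = 0)
    (dA3 : A3 = ((-a * r * x - a * x + r * x + x + 1)))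
    (dg : g = ((a ^ 2 * r * x - a * r * x - a * x + x + 1)))
    (dh3 : h3 = ((-a ^ 4 - a ^ 3 + a ^ 2 * r ^ 2 * x + a ^ 2 * r * x - a * r ^ 2 * x - 2 * a * r * x -
      a * x + r * x + r + x + 1)) / (D * a ^ 3))
    (dL4 : L4 = ((-a ^ 3 - a ^ 2 + a * r * x - a - x - 1) * P * p * S) / (U * u * 2 * a ^ 2)) :
    g = L4 * ((-a) * A3) + (1 - L4) * ((-a) ^ 4 * h3) := by
  have e : g - (L4 * ((-a) * A3) + (1 - L4) * ((-a) ^ 4 * h3)) = (a ^ 6 - a ^ 4 * r * x - a ^ 4 + a ^ 3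
      * r * x + a ^ 3 * x + a ^ 2 * r * x - a ^ 2 * x - a ^ 2 - a * r * x - a * x + x + 1) * (r ^
      2 + (1 + a) * (1 + a + a ^ 2) * r + a ^ 3) / (D * U * u * 2 * a) := by
    rw [dA3, dg, dh3, dL4]
    field_simp
    simp only [q3, q4, q5, q6, q7, q8, q9, hM]
    ring1
  rw [hC, mul_zero, zero_div] at e
  exact sub_eq_zero.1 e

theorem e1w24 {a r x M p P s S u U D A3 h3 h5 M4 : F}
    (n1 : a ≠ 0) (n2 : r ≠ 0) (n3 : p ≠ 0) (n4 : P ≠ 0) (n5 : s ≠ 0) (n6 : S ≠ 0)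
    (n7 : u ≠ 0) (n8 : U ≠ 0) (n9 : D ≠ 0) (n10 : M ≠ 0) (n11 : (2 : F) ≠ 0)
    (q3 : p = a - 1) (q4 : P = a + 1) (q5 : s = r - 1) (q6 : S = r + 1) (q7 : u = r - a)
    (q8 : U = r + a) (q9 : D = a * r - 1) (hM : M = r + (a + 1) * (r + a) * x)
    (hC : r ^ 2 + (1 + a) * (1 + a + a ^ 2) * r + a ^ 3 = 0)
    (dA3 : A3 = ((-a * r * x - a * x + r * x + x + 1)))
    (dh3 : h3 = ((-a ^ 4 - a ^ 3 + a ^ 2 * r ^ 2 * x + a ^ 2 * r * x - a * r ^ 2 * x - 2 * a * r * x -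
      a * x + r * x + r + x + 1)) / (D * a ^ 3))
    (dh5 : h5 = ((a ^ 2 * r * x - a * r * x - a * x + x + 1)) / (a ^ 4))
    (dM4 : M4 = ((-x) * D * P * p * S * r) / (U * u * 2 * a)) :
    (-a) ^ 5 * h5 = (1 - M4) * ((-a) * A3) + M4 * ((-a) ^ 4 * h3) := by
  have e : (-a) ^ 5 * h5 - ((1 - M4) * ((-a) * A3) + M4 * ((-a) ^ 4 * h3)) = (-a ^ 3 * r * x + a ^ 2 *
      r * x + a * r * x - r * x) * (r ^ 2 + (1 + a) * (1 + a + a ^ 2) * r + a ^ 3) / (U * u * 2)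
      := by
    rw [dA3, dh3, dh5, dM4]
    field_simp
    simp only [q3, q4, q5, q6, q7, q8, q9, hM]
    ring1
  rw [hC, mul_zero, zero_div] at e
  exact sub_eq_zero.1 e

end Pool.Agent.Helper76.IP
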