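import Mathlib

/-!
TH-P, phase 2, family E1: the cells of row 3 of the table (generated).
-/

namespace Pool.Agent.Helper76.IP

set_option linter.unusedVariables false
set_option linter.unusedSimpArgs false
set_option maxRecDepth 100000

variable {F : Type*} [Field F]

theorem e1u30 {a r x M p P s S u U D A3 L0 : F}
    (n1 : a ≠ 0) (n2 : r ≠ 0) (n3 : p ≠ 0) (n4 : P ≠ 0) (n5 : s ≠ 0) (n6 : S ≠ 0)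
    (n7 : u ≠ 0) (n8 : U ≠ 0) (n9 : D ≠ 0) (n10 : M ≠ 0) (n11 : (2 : F) ≠ 0)
    (q3 : p = a - 1) (q4 : P = a + 1) (q5 : s = r - 1) (q6 : S = r + 1) (q7 : u = r - a)
    (q8 : U = r + a) (q9 : D = a * r - 1) (hM : M = r + (a + 1) * (r + a) * x)
    (hC : r ^ 2 + (1 + a) * (1 + a + a ^ 2) * r + a ^ 3 = 0)
    (dA3 : A3 = ((-a * r * x - a * x + r * x + x + 1)))
    (dL0 : L0 = ((x) * p)) :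
    A3 = L0 * ((-r)) + (1 - L0) * (1) := by
  rw [dA3, dL0]
  field_simp
  try simp only [q3, q4, q5, q6, q7, q8, q9, hM]
  try ring1

theorem e1w30 {a r x M p P s S u U D h3 M0 : F}
    (n1 : a ≠ 0) (n2 : r ≠ 0) (n3 : p ≠ 0) (n4 : P ≠ 0) (n5 : s ≠ 0) (n6 : S ≠ 0)
    (n7 : u ≠ 0) (n8 : U ≠ 0) (n9 : D ≠ 0) (n10 : M ≠ 0) (n11 : (2 : F) ≠ 0)
    (q3 : p = a - 1) (q4 : P = a + 1) (q5 : s = r - 1) (q6 : S = r + 1) (q7 : u = r - a)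
    (q8 : U = r + a) (q9 : D = a * r - 1) (hM : M = r + (a + 1) * (r + a) * x)
    (hC : r ^ 2 + (1 + a) * (1 + a + a ^ 2) * r + a ^ 3 = 0)
    (dh3 : h3 = ((-a ^ 4 - a ^ 3 + a ^ 2 * r ^ 2 * x + a ^ 2 * r * x - a * r ^ 2 * x - 2 * a * r * x -
      a * x + r * x + r + x + 1)) / (D * a ^ 3))
    (dM0 : M0 = ((a ^ 3 + a ^ 2 - a * r * x + a + x + 1) * p * r) / (D * a ^ 3)) :
    (-r) * h3 = (1 - M0) * ((-r)) + M0 * (1) := by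
  rw [dh3, dM0]
  field_simp
  try simp only [q3, q4, q5, q6, q7, q8, q9, hM]
  try ring1

theorem e1u31 {a r x M p P s S u U D A3 C3 h3 L1 : F}
    (n1 : a ≠ 0) (n2 : r ≠ 0) (n3 : p ≠ 0) (n4 : P ≠ 0) (n5 : s ≠ 0) (n6 : S ≠ 0)
    (n7 : u ≠ 0) (n8 : U ≠ 0) (n9 : D ≠ 0) (n10 : M ≠ 0) (n11 : (2 : F) ≠ 0)
    (q3 : p = a - 1) (q4 : P = a + 1) (q5 : s = r - 1) (q6 : S = r + 1) (q7 : u = r - a)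
    (q8 : U = r + a) (q9 : D = a * r - 1) (hM : M = r + (a + 1) * (r + a) * x)
    (hC : r ^ 2 + (1 + a) * (1 + a + a ^ 2) * r + a ^ 3 = 0)
    (dA3 : A3 = ((-a * r * x - a * x + r * x + x + 1)))
    (dC3 : C3 = ((-a ^ 4 * r * x - a ^ 4 * x - 5 * a ^ 3 * r * x - 3 * a ^ 3 * x - 8 * a ^ 2 * r * x -
      5 * a * r * x + a * x - r * x + r - x - 1)) / (s))
    (dh3 : h3 = ((-a ^ 4 - a ^ 3 + a ^ 2 * r ^ 2 * x + a ^ 2 * r * x - a * r ^ 2 * x - 2 * a * r * x -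
      a * x + r * x + r + x + 1)) / (D * a ^ 3))
    (dL1 : L1 = (2) / (p * s)) :
    C3 = L1 * ((-r) * A3) + (1 - L1) * ((-r) * h3) := by
  have e : C3 - (L1 * ((-r) * A3) + (1 - L1) * ((-r) * h3)) = (-a ^ 5 * r * x - 3 * a ^ 4 * r * x + a ^
      4 * x + 3 * a ^ 3 * x + a ^ 2 * r ^ 2 * x + a ^ 2 * r * x - a * r ^ 2 * x - 2 * a * r * x -
      a * x + r * x + r + x + 1) * (r ^ 2 + (1 + a) * (1 + a + a ^ 2) * r + a ^ 3) / (D * s * a ^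
      3) := by
    rw [dA3, dC3, dh3, dL1]
    field_simp
    simp only [q3, q4, q5, q6, q7, q8, q9, hM]
    ring1
  rw [hC, mul_zero, zero_div] at e
  exact sub_eq_zero.1 e

theorem e1w31 {a r x M p P s S u U D A3 h3 c M1 : F}
    (n1 : a ≠ 0) (n2 : r ≠ 0) (n3 : p ≠ 0) (n4 : P ≠ 0) (n5 : s ≠ 0) (n6 : S ≠ 0)
    (n7 : u ≠ 0) (n8 : U ≠ 0) (n9 : D ≠ 0) (n10 : M ≠ 0) (n11 : (2 : F) ≠ 0)
    (q3 : p = a - 1) (q4 : P = a + 1) (q5 : s = r - 1) (q6 : S = r + 1) (q7 : u = r - a)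
    (q8 : U = r + a) (q9 : D = a * r - 1) (hM : M = r + (a + 1) * (r + a) * x)
    (hC : r ^ 2 + (1 + a) * (1 + a + a ^ 2) * r + a ^ 3 = 0)
    (dA3 : A3 = ((-a * r * x - a * x + r * x + x + 1)))
    (dh3 : h3 = ((-a ^ 4 - a ^ 3 + a ^ 2 * r ^ 2 * x + a ^ 2 * r * x - a * r ^ 2 * x - 2 * a * r * x -
      a * x + r * x + r + x + 1)) / (D * a ^ 3))
    (dc : c = ((-2 * a ^ 7 * r - 7 * a ^ 6 * r + a ^ 6 + a ^ 5 * r ^ 3 * x + a ^ 5 * r ^ 2 * x - 14 *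
      a ^ 5 * r - a ^ 4 * r ^ 3 * x + 4 * a ^ 4 * r ^ 2 * x - 3 * a ^ 4 * r ^ 2 - a ^ 4 * r * x -
      19 * a ^ 4 * r + 9 * a ^ 3 * r ^ 2 * x - 3 * a ^ 3 * r ^ 2 - 5 * a ^ 3 * r * x - 19 * a ^ 3
      * r + 3 * a ^ 2 * r ^ 3 * x + 5 * a ^ 2 * r ^ 2 * x - 4 * a ^ 2 * r ^ 2 - 8 * a ^ 2 * r * x
      - 14 * a ^ 2 * r + a * r ^ 3 * x - 2 * a * r ^ 2 * x - 4 * a * r ^ 2 - 5 * a * r * x - 6 * a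
      * r - r ^ 2 * x - r ^ 2 - r * x - r)) / (D * s * a ^ 6))
    (dM1 : M1 = (2 * a * r) / (p * s)) :
    (-r) ^ 2 * c = (1 - M1) * ((-r) * A3) + M1 * ((-r) * h3) := by
  have e : (-r) ^ 2 * c - ((1 - M1) * ((-r) * A3) + M1 * ((-r) * h3)) = (a ^ 5 * r ^ 3 * x + a ^ 5 * r
      ^ 2 * x - a ^ 4 * r ^ 3 * x - 2 * a ^ 4 * r ^ 2 * x - 3 * a ^ 4 * r ^ 2 - a ^ 4 * r * x + a
      ^ 3 * r ^ 2 * x - 3 * a ^ 3 * r ^ 2 + a ^ 3 * r * x + a ^ 3 * r + 3 * a ^ 2 * r ^ 3 * x - 4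
      * a ^ 2 * r ^ 2 + a * r ^ 3 * x - 3 * a * r ^ 2 * x - 4 * a * r ^ 2 - r ^ 2 * x - r ^ 2) *
      (r ^ 2 + (1 + a) * (1 + a + a ^ 2) * r + a ^ 3) / (D * s * a ^ 6) := by
    rw [dA3, dh3, dc, dM1]
    field_simp
    simp only [q3, q4, q5, q6, q7, q8, q9, hM]
    ring1
  rw [hC, mul_zero, zero_div] at e
  exact sub_eq_zero.1 e

theorem e1u32 {a r x M p P s S u U D B C3 c kn ML : F}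
    (n1 : a ≠ 0) (n2 : r ≠ 0) (n3 : p ≠ 0) (n4 : P ≠ 0) (n5 : s ≠ 0) (n6 : S ≠ 0)
    (n7 : u ≠ 0) (n8 : U ≠ 0) (n9 : D ≠ 0) (n10 : M ≠ 0) (n11 : (2 : F) ≠ 0)
    (q3 : p = a - 1) (q4 : P = a + 1) (q5 : s = r - 1) (q6 : S = r + 1) (q7 : u = r - a)
    (q8 : U = r + a) (q9 : D = a * r - 1) (hM : M = r + (a + 1) * (r + a) * x)
    (hC : r ^ 2 + (1 + a) * (1 + a + a ^ 2) * r + a ^ 3 = 0)
    (dB : B = ((a ^ 2 * r * x + 3 * a ^ 2 * x + 2 * a * r * x + 2 * a * x + r * x + r - x - 1)) / (s))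
    (dC3 : C3 = ((-a ^ 4 * r * x - a ^ 4 * x - 5 * a ^ 3 * r * x - 3 * a ^ 3 * x - 8 * a ^ 2 * r * x -
      5 * a * r * x + a * x - r * x + r - x - 1)) / (s))
    (dc : c = ((-2 * a ^ 7 * r - 7 * a ^ 6 * r + a ^ 6 + a ^ 5 * r ^ 3 * x + a ^ 5 * r ^ 2 * x - 14 *
      a ^ 5 * r - a ^ 4 * r ^ 3 * x + 4 * a ^ 4 * r ^ 2 * x - 3 * a ^ 4 * r ^ 2 - a ^ 4 * r * x -
      19 * a ^ 4 * r + 9 * a ^ 3 * r ^ 2 * x - 3 * a ^ 3 * r ^ 2 - 5 * a ^ 3 * r * x - 19 * a ^ 3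
      * r + 3 * a ^ 2 * r ^ 3 * x + 5 * a ^ 2 * r ^ 2 * x - 4 * a ^ 2 * r ^ 2 - 8 * a ^ 2 * r * x
      - 14 * a ^ 2 * r + a * r ^ 3 * x - 2 * a * r ^ 2 * x - 4 * a * r ^ 2 - 5 * a * r * x - 6 * a
      * r - r ^ 2 * x - r ^ 2 - r * x - r)) / (D * s * a ^ 6))
    (dkn : kn = ((a ^ 4 * r * x + a ^ 4 * x + 3 * a ^ 3 * r * x + a ^ 3 * x + 4 * a ^ 2 * r * x + a * r
      * x - a * x + r * x + x + 1) * r))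
    (dML : ML = ((-a * r * x + a + x + 1) * S) / (2 * a)) :
    kn * B = ML * ((-r) * C3) + (M - ML) * ((-r) ^ 2 * c) := by
  have e : kn * B - (ML * ((-r) * C3) + (M - ML) * ((-r) ^ 2 * c)) = (2 * a ^ 11 * r ^ 3 * x ^ 2 + 6 *
      a ^ 11 * r ^ 2 * x ^ 2 + 6 * a ^ 10 * r ^ 3 * x ^ 2 + 8 * a ^ 10 * r ^ 2 * x ^ 2 - 6 * a ^
      10 * r * x ^ 2 + a ^ 9 * r ^ 4 * x ^ 2 + 7 * a ^ 9 * r ^ 3 * x ^ 2 + a ^ 9 * r ^ 3 * x - 4 *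
      a ^ 9 * r ^ 2 * x ^ 2 - 3 * a ^ 9 * r ^ 2 * x - 10 * a ^ 9 * r * x ^ 2 + a ^ 8 * r ^ 4 * x ^
      2 - 5 * a ^ 8 * r ^ 3 * x ^ 2 - 2 * a ^ 8 * r ^ 3 * x - 16 * a ^ 8 * r ^ 2 * x ^ 2 - 7 * a ^
      8 * r ^ 2 * x - 2 * a ^ 8 * r * x ^ 2 + 3 * a ^ 8 * r * x - 2 * a ^ 7 * r ^ 4 * x ^ 2 - 4 *
      a ^ 7 * r ^ 3 * x ^ 2 - 3 * a ^ 7 * r ^ 3 * x + 3 * a ^ 7 * r ^ 2 * x ^ 2 + 5 * a ^ 7 * r ^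
      2 * x + 9 * a ^ 7 * r * x ^ 2 + 6 * a ^ 7 * r * x - a ^ 6 * r ^ 5 * x ^ 2 - a ^ 6 * r ^ 4 *
      x + 9 * a ^ 6 * r ^ 3 * x ^ 2 + 6 * a ^ 6 * r ^ 3 * x + 9 * a ^ 6 * r ^ 2 * x ^ 2 + 12 * a ^
      6 * r ^ 2 * x + a ^ 6 * r * x ^ 2 - 3 * a ^ 6 * r * x + a ^ 5 * r ^ 5 * x ^ 2 + 6 * a ^ 5 *
      r ^ 4 * x ^ 2 + 5 * a ^ 5 * r ^ 4 * x - 3 * a ^ 5 * r ^ 3 * x ^ 2 + 14 * a ^ 5 * r ^ 3 * x +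
      3 * a ^ 5 * r ^ 3 - 8 * a ^ 5 * r ^ 2 * x ^ 2 + 4 * a ^ 5 * r ^ 2 * x - 3 * a ^ 5 * r ^ 2 -
      6 * a ^ 5 * r * x ^ 2 - 7 * a ^ 5 * r * x - 8 * a ^ 4 * r ^ 4 * x ^ 2 + 2 * a ^ 4 * r ^ 4 *
      x - 15 * a ^ 4 * r ^ 3 * x ^ 2 + 9 * a ^ 4 * r ^ 3 * x + 2 * a ^ 4 * r ^ 2 * x ^ 2 + 11 * a
      ^ 4 * r ^ 2 * x - 5 * a ^ 4 * r ^ 2 + a ^ 4 * r * x ^ 2 + 4 * a ^ 4 * r * x + 3 * a ^ 4 * r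
      - 3 * a ^ 3 * r ^ 5 * x ^ 2 - 11 * a ^ 3 * r ^ 4 * x ^ 2 + a ^ 3 * r ^ 4 * x + 5 * a ^ 3 * r
      ^ 3 * x ^ 2 + 21 * a ^ 3 * r ^ 3 * x + a ^ 3 * r ^ 3 + 10 * a ^ 3 * r ^ 2 * x ^ 2 + 10 * a ^
      3 * r ^ 2 * x - 6 * a ^ 3 * r ^ 2 + a ^ 3 * r * x ^ 2 + 2 * a ^ 3 * r * x + a ^ 3 * r - a ^
      2 * r ^ 5 * x ^ 2 + 3 * a ^ 2 * r ^ 4 * x ^ 2 + 6 * a ^ 2 * r ^ 4 * x + 14 * a ^ 2 * r ^ 3 *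
      x ^ 2 + 17 * a ^ 2 * r ^ 3 * x + 2 * a ^ 2 * r ^ 2 * x ^ 2 - 5 * a ^ 2 * r ^ 2 * x - 8 * a ^
      2 * r ^ 2 + 2 * a * r ^ 4 * x ^ 2 + 2 * a * r ^ 4 * x + a * r ^ 3 * x ^ 2 - 2 * a * r ^ 3 *
      x - 3 * a * r ^ 3 - 3 * a * r ^ 2 * x ^ 2 - 8 * a * r ^ 2 * x - 5 * a * r ^ 2 - r ^ 3 * x ^
      2 - 2 * r ^ 3 * x - r ^ 3 - r ^ 2 * x ^ 2 - 2 * r ^ 2 * x - r ^ 2) * (r ^ 2 + (1 + a) * (1 +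
      a + a ^ 2) * r + a ^ 3) / (D * s * 2 * a ^ 7) := by
    rw [dB, dC3, dc, dkn, dML]
    field_simp
    simp only [q3, q4, q5, q6, q7, q8, q9, hM]
    ring1
  rw [hC, mul_zero, zero_div] at e
  exact sub_eq_zero.1 e

theorem e1w32 {a r x M p P s S u U D C3 b c k4 kn MM : F}
    (n1 : a ≠ 0) (n2 : r ≠ 0) (n3 : p ≠ 0) (n4 : P ≠ 0) (n5 : s ≠ 0) (n6 : S ≠ 0)
    (n7 : u ≠ 0) (n8 : U ≠ 0) (n9 : D ≠ 0) (n10 : M ≠ 0) (n11 : (2 : F) ≠ 0)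
    (q3 : p = a - 1) (q4 : P = a + 1) (q5 : s = r - 1) (q6 : S = r + 1) (q7 : u = r - a)
    (q8 : U = r + a) (q9 : D = a * r - 1) (hM : M = r + (a + 1) * (r + a) * x)
    (hC : r ^ 2 + (1 + a) * (1 + a + a ^ 2) * r + a ^ 3 = 0)
    (dC3 : C3 = ((-a ^ 4 * r * x - a ^ 4 * x - 5 * a ^ 3 * r * x - 3 * a ^ 3 * x - 8 * a ^ 2 * r * x -
      5 * a * r * x + a * x - r * x + r - x - 1)) / (s))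
    (db : b = ((a ^ 4 * r ^ 2 + 2 * a ^ 4 * r + a ^ 4 + a ^ 3 * r ^ 3 * x - a ^ 3 * r ^ 2 * x + 4 * a
      ^ 3 * r ^ 2 + 4 * a ^ 3 * r - 2 * a ^ 2 * r ^ 3 * x - 3 * a ^ 2 * r ^ 2 * x + 4 * a ^ 2 * r
      ^ 2 + a ^ 2 * r * x + 4 * a ^ 2 * r - 3 * a * r ^ 3 * x + a * r ^ 2 * x + 5 * a * r ^ 2 + 2
      * a * r * x + 3 * a * r + 3 * r ^ 2 * x + 3 * r ^ 2 + r * x + r)) / (D * s * a ^ 4))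
    (dc : c = ((-2 * a ^ 7 * r - 7 * a ^ 6 * r + a ^ 6 + a ^ 5 * r ^ 3 * x + a ^ 5 * r ^ 2 * x - 14 *
      a ^ 5 * r - a ^ 4 * r ^ 3 * x + 4 * a ^ 4 * r ^ 2 * x - 3 * a ^ 4 * r ^ 2 - a ^ 4 * r * x -
      19 * a ^ 4 * r + 9 * a ^ 3 * r ^ 2 * x - 3 * a ^ 3 * r ^ 2 - 5 * a ^ 3 * r * x - 19 * a ^ 3
      * r + 3 * a ^ 2 * r ^ 3 * x + 5 * a ^ 2 * r ^ 2 * x - 4 * a ^ 2 * r ^ 2 - 8 * a ^ 2 * r * x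
      - 14 * a ^ 2 * r + a * r ^ 3 * x - 2 * a * r ^ 2 * x - 4 * a * r ^ 2 - 5 * a * r * x - 6 * a
      * r - r ^ 2 * x - r ^ 2 - r * x - r)) / (D * s * a ^ 6))
    (dk4 : k4 = (a ^ 4) / (r ^ 4))
    (dkn : kn = ((a ^ 4 * r * x + a ^ 4 * x + 3 * a ^ 3 * r * x + a ^ 3 * x + 4 * a ^ 2 * r * x + a * r
      * x - a * x + r * x + x + 1) * r))
    (dMM : MM = ((a * r * x - a - x - 1) * S * a ^ 2) / (2 * r)) :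
    kn * ((-r) ^ 3 * (k4 * b)) = (M - MM) * ((-r) * C3) + MM * ((-r) ^ 2 * c) := by
  have e : kn * ((-r) ^ 3 * (k4 * b)) - ((M - MM) * ((-r) * C3) + MM * ((-r) ^ 2 * c)) = (a ^ 9 * r ^ 3
      * x ^ 2 + a ^ 9 * r ^ 2 * x ^ 2 - 3 * a ^ 9 * r ^ 2 * x - 5 * a ^ 9 * r * x - 2 * a ^ 9 * x
      + a ^ 8 * r ^ 3 * x ^ 2 + a ^ 8 * r ^ 2 * x ^ 2 - 14 * a ^ 8 * r ^ 2 * x - 2 * a ^ 8 * r * x
      ^ 2 - 15 * a ^ 8 * r * x - a ^ 8 * x - 6 * a ^ 7 * r ^ 2 * x ^ 2 - 19 * a ^ 7 * r ^ 2 * x -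
      5 * a ^ 7 * r * x ^ 2 - 15 * a ^ 7 * r * x + a ^ 7 * x ^ 2 + 4 * a ^ 7 * x - a ^ 6 * r ^ 4 *
      x ^ 2 + a ^ 6 * r ^ 3 * x - a ^ 6 * r ^ 2 * x ^ 2 - 10 * a ^ 6 * r ^ 2 * x + 5 * a ^ 6 * r *
      x ^ 2 - 4 * a ^ 6 * r * x + 3 * a ^ 6 * x ^ 2 + 5 * a ^ 6 * x + a ^ 5 * r ^ 4 * x ^ 2 + 4 *
      a ^ 5 * r ^ 3 * x ^ 2 + 3 * a ^ 5 * r ^ 3 * x + 5 * a ^ 5 * r ^ 2 * x ^ 2 - 2 * a ^ 5 * r ^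
      2 * x - a ^ 5 * r ^ 2 + 2 * a ^ 5 * r * x ^ 2 - 8 * a ^ 5 * r * x - 3 * a ^ 5 * r - 3 * a ^
      5 * x - 2 * a ^ 5 - 2 * a ^ 4 * r ^ 3 * x ^ 2 + 2 * a ^ 4 * r ^ 3 * x - 5 * a ^ 4 * r ^ 2 *
      x ^ 2 - 3 * a ^ 4 * r ^ 2 * x - 6 * a ^ 4 * r ^ 2 - 6 * a ^ 4 * r * x ^ 2 - 7 * a ^ 4 * r *
      x - 5 * a ^ 4 * r - a ^ 4 * x ^ 2 + a ^ 4 - 3 * a ^ 3 * r ^ 4 * x ^ 2 - 3 * a ^ 3 * r ^ 3 *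
      x ^ 2 + 7 * a ^ 3 * r ^ 3 * x + a ^ 3 * r ^ 2 * x ^ 2 + 5 * a ^ 3 * r ^ 2 * x - 7 * a ^ 3 *
      r ^ 2 + 2 * a ^ 3 * r * x ^ 2 - 6 * a ^ 3 * r + a ^ 3 * x ^ 2 + 2 * a ^ 3 * x + a ^ 3 - a ^
      2 * r ^ 4 * x ^ 2 + 5 * a ^ 2 * r ^ 3 * x ^ 2 + 8 * a ^ 2 * r ^ 3 * x + 6 * a ^ 2 * r ^ 2 *
      x ^ 2 + a ^ 2 * r ^ 2 * x - 8 * a ^ 2 * r ^ 2 - 7 * a ^ 2 * r * x - 8 * a ^ 2 * r + 2 * a *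
      r ^ 3 * x ^ 2 + 2 * a * r ^ 3 * x - a * r ^ 2 * x ^ 2 - 6 * a * r ^ 2 * x - 5 * a * r ^ 2 -
      3 * a * r * x ^ 2 - 8 * a * r * x - 5 * a * r - r ^ 2 * x ^ 2 - 2 * r ^ 2 * x - r ^ 2 - r *
      x ^ 2 - 2 * r * x - r) * (r ^ 2 + (1 + a) * (1 + a + a ^ 2) * r + a ^ 3) / (D * s * 2 * a ^
      4) := by
    rw [dC3, db, dc, dk4, dkn, dMM]
    field_simp
    simp only [q3, q4, q5, q6, q7, q8, q9, hM]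
    ring1
  rw [hC, mul_zero, zero_div] at e
  exact sub_eq_zero.1 e

theorem e1u33 {a r x M p P s S u U D A2 B b k4 L3 : F}
    (n1 : a ≠ 0) (n2 : r ≠ 0) (n3 : p ≠ 0) (n4 : P ≠ 0) (n5 : s ≠ 0) (n6 : S ≠ 0)
    (n7 : u ≠ 0) (n8 : U ≠ 0) (n9 : D ≠ 0) (n10 : M ≠ 0) (n11 : (2 : F) ≠ 0)
    (q3 : p = a - 1) (q4 : P = a + 1) (q5 : s = r - 1) (q6 : S = r + 1) (q7 : u = r - a)
    (q8 : U = r + a) (q9 : D = a * r - 1) (hM : M = r + (a + 1) * (r + a) * x)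
    (hC : r ^ 2 + (1 + a) * (1 + a + a ^ 2) * r + a ^ 3 = 0)
    (dA2 : A2 = ((-a ^ 2 * x + x + 1)))
    (dB : B = ((a ^ 2 * r * x + 3 * a ^ 2 * x + 2 * a * r * x + 2 * a * x + r * x + r - x - 1)) / (s))
    (db : b = ((a ^ 4 * r ^ 2 + 2 * a ^ 4 * r + a ^ 4 + a ^ 3 * r ^ 3 * x - a ^ 3 * r ^ 2 * x + 4 * a
      ^ 3 * r ^ 2 + 4 * a ^ 3 * r - 2 * a ^ 2 * r ^ 3 * x - 3 * a ^ 2 * r ^ 2 * x + 4 * a ^ 2 * r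
      ^ 2 + a ^ 2 * r * x + 4 * a ^ 2 * r - 3 * a * r ^ 3 * x + a * r ^ 2 * x + 5 * a * r ^ 2 + 2
      * a * r * x + 3 * a * r + 3 * r ^ 2 * x + 3 * r ^ 2 + r * x + r)) / (D * s * a ^ 4))
    (dk4 : k4 = (a ^ 4) / (r ^ 4))
    (dL3 : L3 = (2) / (P * S)) :
    A2 = L3 * ((-r) * B) + (1 - L3) * ((-r) ^ 3 * (k4 * b)) := by
  have e : A2 - (L3 * ((-r) * B) + (1 - L3) * ((-r) ^ 3 * (k4 * b))) = (a ^ 2 * r + a ^ 2 + 3 * a * r -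
      a) * (r ^ 2 + (1 + a) * (1 + a + a ^ 2) * r + a ^ 3) / (D * P * s * r) := by
    rw [dA2, dB, db, dk4, dL3]
    field_simp
    simp only [q3, q4, q5, q6, q7, q8, q9, hM]
    ring1
  rw [hC, mul_zero, zero_div] at e
  exact sub_eq_zero.1 e

theorem e1w33 {a r x M p P s S u U D B h2 b k4 M3 : F}
    (n1 : a ≠ 0) (n2 : r ≠ 0) (n3 : p ≠ 0) (n4 : P ≠ 0) (n5 : s ≠ 0) (n6 : S ≠ 0)
    (n7 : u ≠ 0) (n8 : U ≠ 0) (n9 : D ≠ 0) (n10 : M ≠ 0) (n11 : (2 : F) ≠ 0)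
    (q3 : p = a - 1) (q4 : P = a + 1) (q5 : s = r - 1) (q6 : S = r + 1) (q7 : u = r - a)
    (q8 : U = r + a) (q9 : D = a * r - 1) (hM : M = r + (a + 1) * (r + a) * x)
    (hC : r ^ 2 + (1 + a) * (1 + a + a ^ 2) * r + a ^ 3 = 0)
    (dB : B = ((a ^ 2 * r * x + 3 * a ^ 2 * x + 2 * a * r * x + 2 * a * x + r * x + r - x - 1)) / (s))
    (dh2 : h2 = ((-a ^ 4 * r - a ^ 4 + a ^ 3 * r ^ 2 * x - a ^ 2 * r * x - a * r ^ 2 * x + a * r + r *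
      x + r)) / (D * a ^ 4))
    (db : b = ((a ^ 4 * r ^ 2 + 2 * a ^ 4 * r + a ^ 4 + a ^ 3 * r ^ 3 * x - a ^ 3 * r ^ 2 * x + 4 * a
      ^ 3 * r ^ 2 + 4 * a ^ 3 * r - 2 * a ^ 2 * r ^ 3 * x - 3 * a ^ 2 * r ^ 2 * x + 4 * a ^ 2 * r
      ^ 2 + a ^ 2 * r * x + 4 * a ^ 2 * r - 3 * a * r ^ 3 * x + a * r ^ 2 * x + 5 * a * r ^ 2 + 2
      * a * r * x + 3 * a * r + 3 * r ^ 2 * x + 3 * r ^ 2 + r * x + r)) / (D * s * a ^ 4))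
    (dk4 : k4 = (a ^ 4) / (r ^ 4))
    (dM3 : M3 = (2 * a * r) / (P * S)) :
    (-r) ^ 4 * (k4 * h2) = (1 - M3) * ((-r) * B) + M3 * ((-r) ^ 3 * (k4 * b)) := by
  have e : (-r) ^ 4 * (k4 * h2) - ((1 - M3) * ((-r) * B) + M3 * ((-r) ^ 3 * (k4 * b))) = (-a ^ 2 * r +
      3 * a ^ 2 + a * r + a) * (r ^ 2 + (1 + a) * (1 + a + a ^ 2) * r + a ^ 3) / (D * P * s) := by
    rw [dB, dh2, db, dk4, dM3]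
    field_simp
    simp only [q3, q4, q5, q6, q7, q8, q9, hM]
    ring1
  rw [hC, mul_zero, zero_div] at e
  exact sub_eq_zero.1 e

theorem e1u34 {a r x M p P s S u U D A2 g h2 k4 L4 : F}
    (n1 : a ≠ 0) (n2 : r ≠ 0) (n3 : p ≠ 0) (n4 : P ≠ 0) (n5 : s ≠ 0) (n6 : S ≠ 0)
    (n7 : u ≠ 0) (n8 : U ≠ 0) (n9 : D ≠ 0) (n10 : M ≠ 0) (n11 : (2 : F) ≠ 0)
    (q3 : p = a - 1) (q4 : P = a + 1) (q5 : s = r - 1) (q6 : S = r + 1) (q7 : u = r - a)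
    (q8 : U = r + a) (q9 : D = a * r - 1) (hM : M = r + (a + 1) * (r + a) * x)
    (hC : r ^ 2 + (1 + a) * (1 + a + a ^ 2) * r + a ^ 3 = 0)
    (dA2 : A2 = ((-a ^ 2 * x + x + 1)))
    (dg : g = ((a ^ 2 * r * x - a * r * x - a * x + x + 1)))
    (dh2 : h2 = ((-a ^ 4 * r - a ^ 4 + a ^ 3 * r ^ 2 * x - a ^ 2 * r * x - a * r ^ 2 * x + a * r + r *
      x + r)) / (D * a ^ 4))
    (dk4 : k4 = (a ^ 4) / (r ^ 4))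
    (dL4 : L4 = ((-a ^ 3 - a ^ 2 + a * r * x - a - x - 1) * P * p * S) / (U * u * 2 * a ^ 2)) :
    g = L4 * ((-r) * A2) + (1 - L4) * ((-r) ^ 4 * (k4 * h2)) := by
  have e : g - (L4 * ((-r) * A2) + (1 - L4) * ((-r) ^ 4 * (k4 * h2))) = (a ^ 5 * r + a ^ 5 - a ^ 4 * r
      - a ^ 4 - a ^ 3 * r ^ 2 * x - a ^ 3 * r * x + 2 * a ^ 2 * r ^ 2 * x + 3 * a ^ 2 * r * x + a
      ^ 2 * x - a * r ^ 2 * x - 3 * a * r * x - a * r - 2 * a * x - a + r * x + r + x + 1) * (r ^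
      2 + (1 + a) * (1 + a + a ^ 2) * r + a ^ 3) / (D * U * u * 2 * a) := by
    rw [dA2, dg, dh2, dk4, dL4]
    field_simp
    simp only [q3, q4, q5, q6, q7, q8, q9, hM]
    ring1
  rw [hC, mul_zero, zero_div] at e
  exact sub_eq_zero.1 e

theorem e1w34 {a r x M p P s S u U D A2 h2 h5 k4 M4 : F}
    (n1 : a ≠ 0) (n2 : r ≠ 0) (n3 : p ≠ 0) (n4 : P ≠ 0) (n5 : s ≠ 0) (n6 : S ≠ 0)
    (n7 : u ≠ 0) (n8 : U ≠ 0) (n9 : D ≠ 0) (n10 : M ≠ 0) (n11 : (2 : F) ≠ 0)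
    (q3 : p = a - 1) (q4 : P = a + 1) (q5 : s = r - 1) (q6 : S = r + 1) (q7 : u = r - a)
    (q8 : U = r + a) (q9 : D = a * r - 1) (hM : M = r + (a + 1) * (r + a) * x)
    (hC : r ^ 2 + (1 + a) * (1 + a + a ^ 2) * r + a ^ 3 = 0)
    (dA2 : A2 = ((-a ^ 2 * x + x + 1)))
    (dh2 : h2 = ((-a ^ 4 * r - a ^ 4 + a ^ 3 * r ^ 2 * x - a ^ 2 * r * x - a * r ^ 2 * x + a * r + r *
      x + r)) / (D * a ^ 4))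
    (dh5 : h5 = ((a ^ 2 * r * x - a * r * x - a * x + x + 1)) / (a ^ 4))
    (dk4 : k4 = (a ^ 4) / (r ^ 4))
    (dM4 : M4 = ((-x) * D * P * p * S * r) / (U * u * 2 * a)) :
    (-r) ^ 5 * (k4 * h5) = (1 - M4) * ((-r) * A2) + M4 * ((-r) ^ 4 * (k4 * h2)) := by
  have e : (-r) ^ 5 * (k4 * h5) - ((1 - M4) * ((-r) * A2) + M4 * ((-r) ^ 4 * (k4 * h2))) = (-a ^ 2 * r
      ^ 2 * x - a ^ 2 * r * x + 2 * a * r ^ 2 * x + 2 * a * r * x - r ^ 2 * x - r * x) * (r ^ 2 +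
      (1 + a) * (1 + a + a ^ 2) * r + a ^ 3) / (U * u * 2) := by
    rw [dA2, dh2, dh5, dk4, dM4]
    field_simp
    simp only [q3, q4, q5, q6, q7, q8, q9, hM]
    ring1
  rw [hC, mul_zero, zero_div] at e
  exact sub_eq_zero.1 e

end Pool.Agent.Helper76.IP
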