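import Mathlib

/-!
TH-P, phase 2, family E1: the cells of row 4 of the table (generated).
-/

namespace Pool.Agent.Helper76.IP

set_option linter.unusedVariables false
set_option linter.unusedSimpArgs false
set_option maxRecDepth 100000

variable {F : Type*} [Field F]

theorem e1u40 {a r x M p P s S u U D A4 L0 : F}
    (n1 : a ≠ 0) (n2 : r ≠ 0) (n3 : p ≠ 0) (n4 : P ≠ 0) (n5 : s ≠ 0) (n6 : S ≠ 0)
    (n7 : u ≠ 0) (n8 : U ≠ 0) (n9 : D ≠ 0) (n10 : M ≠ 0) (n11 : (2 : F) ≠ 0)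
    (q3 : p = a - 1) (q4 : P = a + 1) (q5 : s = r - 1) (q6 : S = r + 1) (q7 : u = r - a)
    (q8 : U = r + a) (q9 : D = a * r - 1) (hM : M = r + (a + 1) * (r + a) * x)
    (hC : r ^ 2 + (1 + a) * (1 + a + a ^ 2) * r + a ^ 3 = 0)
    (dA4 : A4 = ((a * r * x - a * x - r * x + x + 1)))
    (dL0 : L0 = ((x) * p)) :
    A4 = L0 * (r) + (1 - L0) * (1) := by
  rw [dA4, dL0]
  field_simp
  try simp only [q3, q4, q5, q6, q7, q8, q9, hM]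
  try ring1

theorem e1w40 {a r x M p P s S u U D h4 M0 : F}
    (n1 : a ≠ 0) (n2 : r ≠ 0) (n3 : p ≠ 0) (n4 : P ≠ 0) (n5 : s ≠ 0) (n6 : S ≠ 0)
    (n7 : u ≠ 0) (n8 : U ≠ 0) (n9 : D ≠ 0) (n10 : M ≠ 0) (n11 : (2 : F) ≠ 0)
    (q3 : p = a - 1) (q4 : P = a + 1) (q5 : s = r - 1) (q6 : S = r + 1) (q7 : u = r - a)
    (q8 : U = r + a) (q9 : D = a * r - 1) (hM : M = r + (a + 1) * (r + a) * x)
    (hC : r ^ 2 + (1 + a) * (1 + a + a ^ 2) * r + a ^ 3 = 0)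
    (dh4 : h4 = ((a ^ 4 - a ^ 3 + a ^ 2 * r ^ 2 * x - a ^ 2 * r * x - a * r ^ 2 * x + a * x + r * x + r
      - x - 1)) / (D * a ^ 3))
    (dM0 : M0 = ((a ^ 3 + a ^ 2 - a * r * x + a + x + 1) * p * r) / (D * a ^ 3)) :
    r * h4 = (1 - M0) * (r) + M0 * (1) := by
  rw [dh4, dM0]
  field_simp
  try simp only [q3, q4, q5, q6, q7, q8, q9, hM]
  try ring1

theorem e1u41 {a r x M p P s S u U D A3 A4 h4 L1 : F}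
    (n1 : a ≠ 0) (n2 : r ≠ 0) (n3 : p ≠ 0) (n4 : P ≠ 0) (n5 : s ≠ 0) (n6 : S ≠ 0)
    (n7 : u ≠ 0) (n8 : U ≠ 0) (n9 : D ≠ 0) (n10 : M ≠ 0) (n11 : (2 : F) ≠ 0)
    (q3 : p = a - 1) (q4 : P = a + 1) (q5 : s = r - 1) (q6 : S = r + 1) (q7 : u = r - a)
    (q8 : U = r + a) (q9 : D = a * r - 1) (hM : M = r + (a + 1) * (r + a) * x)
    (hC : r ^ 2 + (1 + a) * (1 + a + a ^ 2) * r + a ^ 3 = 0)
    (dA3 : A3 = ((-a * r * x - a * x + r * x + x + 1)))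
    (dA4 : A4 = ((a * r * x - a * x - r * x + x + 1)))
    (dh4 : h4 = ((a ^ 4 - a ^ 3 + a ^ 2 * r ^ 2 * x - a ^ 2 * r * x - a * r ^ 2 * x + a * x + r * x + r
      - x - 1)) / (D * a ^ 3))
    (dL1 : L1 = (2) / (p * s)) :
    A3 = L1 * (r * A4) + (1 - L1) * (r * h4) := by
  have e : A3 - (L1 * (r * A4) + (1 - L1) * (r * h4)) = (-a ^ 2 * r * x + a * r * x + a * x - x - 1) *
      (r ^ 2 + (1 + a) * (1 + a + a ^ 2) * r + a ^ 3) / (D * a ^ 3) := by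
    rw [dA3, dA4, dh4, dL1]
    field_simp
    simp only [q3, q4, q5, q6, q7, q8, q9, hM]
    ring1
  rw [hC, mul_zero, zero_div] at e
  exact sub_eq_zero.1 e

theorem e1w41 {a r x M p P s S u U D A4 h3 h4 M1 : F}
    (n1 : a ≠ 0) (n2 : r ≠ 0) (n3 : p ≠ 0) (n4 : P ≠ 0) (n5 : s ≠ 0) (n6 : S ≠ 0)
    (n7 : u ≠ 0) (n8 : U ≠ 0) (n9 : D ≠ 0) (n10 : M ≠ 0) (n11 : (2 : F) ≠ 0)
    (q3 : p = a - 1) (q4 : P = a + 1) (q5 : s = r - 1) (q6 : S = r + 1) (q7 : u = r - a)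
    (q8 : U = r + a) (q9 : D = a * r - 1) (hM : M = r + (a + 1) * (r + a) * x)
    (hC : r ^ 2 + (1 + a) * (1 + a + a ^ 2) * r + a ^ 3 = 0)
    (dA4 : A4 = ((a * r * x - a * x - r * x + x + 1)))
    (dh3 : h3 = ((-a ^ 4 - a ^ 3 + a ^ 2 * r ^ 2 * x + a ^ 2 * r * x - a * r ^ 2 * x - 2 * a * r * x -
      a * x + r * x + r + x + 1)) / (D * a ^ 3))
    (dh4 : h4 = ((a ^ 4 - a ^ 3 + a ^ 2 * r ^ 2 * x - a ^ 2 * r * x - a * r ^ 2 * x + a * x + r * x + r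
      - x - 1)) / (D * a ^ 3))
    (dM1 : M1 = (2 * a * r) / (p * s)) :
    r ^ 2 * h3 = (1 - M1) * (r * A4) + M1 * (r * h4) := by
  have e : r ^ 2 * h3 - ((1 - M1) * (r * A4) + M1 * (r * h4)) = (a ^ 2 * r ^ 2 * x - a * r ^ 2 * x - a
      * r * x + r * x + r) * (r ^ 2 + (1 + a) * (1 + a + a ^ 2) * r + a ^ 3) / (D * a ^ 3) := by
    rw [dA4, dh3, dh4, dM1]
    field_simp
    simp only [q3, q4, q5, q6, q7, q8, q9, hM]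
    ring1
  rw [hC, mul_zero, zero_div] at e
  exact sub_eq_zero.1 e

theorem e1u42 {a r x M p P s S u U D A2 A3 h3 kn ML : F}
    (n1 : a ≠ 0) (n2 : r ≠ 0) (n3 : p ≠ 0) (n4 : P ≠ 0) (n5 : s ≠ 0) (n6 : S ≠ 0)
    (n7 : u ≠ 0) (n8 : U ≠ 0) (n9 : D ≠ 0) (n10 : M ≠ 0) (n11 : (2 : F) ≠ 0)
    (q3 : p = a - 1) (q4 : P = a + 1) (q5 : s = r - 1) (q6 : S = r + 1) (q7 : u = r - a)
    (q8 : U = r + a) (q9 : D = a * r - 1) (hM : M = r + (a + 1) * (r + a) * x)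
    (hC : r ^ 2 + (1 + a) * (1 + a + a ^ 2) * r + a ^ 3 = 0)
    (dA2 : A2 = ((-a ^ 2 * x + x + 1)))
    (dA3 : A3 = ((-a * r * x - a * x + r * x + x + 1)))
    (dh3 : h3 = ((-a ^ 4 - a ^ 3 + a ^ 2 * r ^ 2 * x + a ^ 2 * r * x - a * r ^ 2 * x - 2 * a * r * x -
      a * x + r * x + r + x + 1)) / (D * a ^ 3))
    (dkn : kn = ((a ^ 4 * r * x + a ^ 4 * x + 3 * a ^ 3 * r * x + a ^ 3 * x + 4 * a ^ 2 * r * x + a * r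
      * x - a * x + r * x + x + 1) * r))
    (dML : ML = ((-a * r * x + a + x + 1) * S) / (2 * a)) :
    kn * A2 = ML * (r * A3) + (M - ML) * (r ^ 2 * h3) := by
  have e : kn * A2 - (ML * (r * A3) + (M - ML) * (r ^ 2 * h3)) = (-2 * a ^ 8 * r ^ 2 * x ^ 2 - 2 * a ^
      7 * r ^ 2 * x ^ 2 + 2 * a ^ 7 * r * x ^ 2 + 2 * a ^ 6 * r ^ 2 * x ^ 2 + 2 * a ^ 6 * r ^ 2 *
      x + 2 * a ^ 6 * r * x ^ 2 + 2 * a ^ 5 * r ^ 3 * x ^ 2 + 4 * a ^ 5 * r ^ 2 * x ^ 2 + 2 * a ^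
      5 * r ^ 2 * x - 2 * a ^ 5 * r * x ^ 2 - 2 * a ^ 5 * r * x - 2 * a ^ 4 * r ^ 3 * x ^ 2 - 4 *
      a ^ 4 * r ^ 2 * x ^ 2 - 4 * a ^ 4 * r * x ^ 2 - 2 * a ^ 4 * r * x - a ^ 3 * r ^ 4 * x ^ 2 -
      3 * a ^ 3 * r ^ 3 * x ^ 2 - a ^ 3 * r ^ 3 * x + a ^ 3 * r ^ 2 * x + 2 * a ^ 3 * r * x ^ 2 +
      2 * a ^ 3 * r * x + a ^ 2 * r ^ 4 * x ^ 2 + 5 * a ^ 2 * r ^ 3 * x ^ 2 + 2 * a ^ 2 * r ^ 3 *
      x + 6 * a ^ 2 * r ^ 2 * x ^ 2 + 3 * a ^ 2 * r ^ 2 * x + 2 * a ^ 2 * r * x ^ 2 + a ^ 2 * r *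
      x - 2 * a * r ^ 3 * x ^ 2 - 2 * a * r ^ 3 * x - 5 * a * r ^ 2 * x ^ 2 - 6 * a * r ^ 2 * x -
      a * r ^ 2 - 3 * a * r * x ^ 2 - 4 * a * r * x - a * r + r ^ 2 * x ^ 2 + 2 * r ^ 2 * x + r ^
      2 + r * x ^ 2 + 2 * r * x + r) * (r ^ 2 + (1 + a) * (1 + a + a ^ 2) * r + a ^ 3) / (D * 2 *
      a ^ 4) := by
    rw [dA2, dA3, dh3, dkn, dML]
    field_simp
    simp only [q3, q4, q5, q6, q7, q8, q9, hM]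
    ring1
  rw [hC, mul_zero, zero_div] at e
  exact sub_eq_zero.1 e

theorem e1w42 {a r x M p P s S u U D A3 h2 h3 k4 kn MM : F}
    (n1 : a ≠ 0) (n2 : r ≠ 0) (n3 : p ≠ 0) (n4 : P ≠ 0) (n5 : s ≠ 0) (n6 : S ≠ 0)
    (n7 : u ≠ 0) (n8 : U ≠ 0) (n9 : D ≠ 0) (n10 : M ≠ 0) (n11 : (2 : F) ≠ 0)
    (q3 : p = a - 1) (q4 : P = a + 1) (q5 : s = r - 1) (q6 : S = r + 1) (q7 : u = r - a)
    (q8 : U = r + a) (q9 : D = a * r - 1) (hM : M = r + (a + 1) * (r + a) * x)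
    (hC : r ^ 2 + (1 + a) * (1 + a + a ^ 2) * r + a ^ 3 = 0)
    (dA3 : A3 = ((-a * r * x - a * x + r * x + x + 1)))
    (dh2 : h2 = ((-a ^ 4 * r - a ^ 4 + a ^ 3 * r ^ 2 * x - a ^ 2 * r * x - a * r ^ 2 * x + a * r + r *
      x + r)) / (D * a ^ 4))
    (dh3 : h3 = ((-a ^ 4 - a ^ 3 + a ^ 2 * r ^ 2 * x + a ^ 2 * r * x - a * r ^ 2 * x - 2 * a * r * x -
      a * x + r * x + r + x + 1)) / (D * a ^ 3))
    (dk4 : k4 = (a ^ 4) / (r ^ 4))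
    (dkn : kn = ((a ^ 4 * r * x + a ^ 4 * x + 3 * a ^ 3 * r * x + a ^ 3 * x + 4 * a ^ 2 * r * x + a * r
      * x - a * x + r * x + x + 1) * r))
    (dMM : MM = ((a * r * x - a - x - 1) * S * a ^ 2) / (2 * r)) :
    kn * (r ^ 3 * (k4 * h2)) = (M - MM) * (r * A3) + MM * (r ^ 2 * h3) := by
  have e : kn * (r ^ 3 * (k4 * h2)) - ((M - MM) * (r * A3) + MM * (r ^ 2 * h3)) = (-2 * a ^ 6 * r * x -
      2 * a ^ 6 * x + 2 * a ^ 5 * r ^ 2 * x ^ 2 - 2 * a ^ 5 * r * x - 2 * a ^ 5 * x + 2 * a ^ 4 *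
      r ^ 2 * x ^ 2 - 2 * a ^ 4 * r * x ^ 2 - a ^ 3 * r ^ 3 * x ^ 2 - 3 * a ^ 3 * r ^ 2 * x ^ 2 +
      3 * a ^ 3 * r ^ 2 * x - 2 * a ^ 3 * r * x ^ 2 + 7 * a ^ 3 * r * x + 2 * a ^ 3 * x + a ^ 2 *
      r ^ 3 * x ^ 2 + a ^ 2 * r ^ 2 * x ^ 2 - 2 * a ^ 2 * r ^ 2 * x + 4 * a ^ 2 * r * x ^ 2 - a ^
      2 * r * x - 2 * a ^ 2 * r - 3 * a ^ 2 * x - 2 * a ^ 2 - 2 * a * r ^ 2 * x ^ 2 - 2 * a * r ^
      2 * x - a * r * x ^ 2 + a * r - a * x ^ 2 + a + r * x ^ 2 + 2 * r * x + r + x ^ 2 + 2 * x +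
      1) * (r ^ 2 + (1 + a) * (1 + a + a ^ 2) * r + a ^ 3) / (D * 2 * a) := by
    rw [dA3, dh2, dh3, dk4, dkn, dMM]
    field_simp
    simp only [q3, q4, q5, q6, q7, q8, q9, hM]
    ring1
  rw [hC, mul_zero, zero_div] at e
  exact sub_eq_zero.1 e

theorem e1u43 {a r x M p P s S u U D A1 A2 h2 k4 L3 : F}
    (n1 : a ≠ 0) (n2 : r ≠ 0) (n3 : p ≠ 0) (n4 : P ≠ 0) (n5 : s ≠ 0) (n6 : S ≠ 0)
    (n7 : u ≠ 0) (n8 : U ≠ 0) (n9 : D ≠ 0) (n10 : M ≠ 0) (n11 : (2 : F) ≠ 0)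
    (q3 : p = a - 1) (q4 : P = a + 1) (q5 : s = r - 1) (q6 : S = r + 1) (q7 : u = r - a)
    (q8 : U = r + a) (q9 : D = a * r - 1) (hM : M = r + (a + 1) * (r + a) * x)
    (hC : r ^ 2 + (1 + a) * (1 + a + a ^ 2) * r + a ^ 3 = 0)
    (dA1 : A1 = ((a ^ 2 * x - 2 * a * x + x + 1)))
    (dA2 : A2 = ((-a ^ 2 * x + x + 1)))
    (dh2 : h2 = ((-a ^ 4 * r - a ^ 4 + a ^ 3 * r ^ 2 * x - a ^ 2 * r * x - a * r ^ 2 * x + a * r + r *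
      x + r)) / (D * a ^ 4))
    (dk4 : k4 = (a ^ 4) / (r ^ 4))
    (dL3 : L3 = (2) / (P * S)) :
    A1 = L3 * (r * A2) + (1 - L3) * (r ^ 3 * (k4 * h2)) := by
  have e : A1 - (L3 * (r * A2) + (1 - L3) * (r ^ 3 * (k4 * h2))) = (a ^ 2 - a) * (r ^ 2 + (1 + a) * (1
      + a + a ^ 2) * r + a ^ 3) / (D * P * r) := by
    rw [dA1, dA2, dh2, dk4, dL3]
    field_simp
    simp only [q3, q4, q5, q6, q7, q8, q9, hM]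
    ring1
  rw [hC, mul_zero, zero_div] at e
  exact sub_eq_zero.1 e

theorem e1w43 {a r x M p P s S u U D A2 h1 h2 k4 M3 : F}
    (n1 : a ≠ 0) (n2 : r ≠ 0) (n3 : p ≠ 0) (n4 : P ≠ 0) (n5 : s ≠ 0) (n6 : S ≠ 0)
    (n7 : u ≠ 0) (n8 : U ≠ 0) (n9 : D ≠ 0) (n10 : M ≠ 0) (n11 : (2 : F) ≠ 0)
    (q3 : p = a - 1) (q4 : P = a + 1) (q5 : s = r - 1) (q6 : S = r + 1) (q7 : u = r - a)
    (q8 : U = r + a) (q9 : D = a * r - 1) (hM : M = r + (a + 1) * (r + a) * x)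
    (hC : r ^ 2 + (1 + a) * (1 + a + a ^ 2) * r + a ^ 3 = 0)
    (dA2 : A2 = ((-a ^ 2 * x + x + 1)))
    (dh1 : h1 = ((a ^ 4 * r - a ^ 4 + a ^ 3 * r ^ 2 * x - 2 * a ^ 2 * r ^ 2 * x - a ^ 2 * r * x + a * r
      ^ 2 * x + 2 * a * r * x + a * r - r * x - r)) / (D * a ^ 4))
    (dh2 : h2 = ((-a ^ 4 * r - a ^ 4 + a ^ 3 * r ^ 2 * x - a ^ 2 * r * x - a * r ^ 2 * x + a * r + r *
      x + r)) / (D * a ^ 4))
    (dk4 : k4 = (a ^ 4) / (r ^ 4))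
    (dM3 : M3 = (2 * a * r) / (P * S)) :
    r ^ 4 * (k4 * h1) = (1 - M3) * (r * A2) + M3 * (r ^ 3 * (k4 * h2)) := by
  have e : r ^ 4 * (k4 * h1) - ((1 - M3) * (r * A2) + M3 * (r ^ 3 * (k4 * h2))) = (a ^ 2 - a) * (r ^ 2
      + (1 + a) * (1 + a + a ^ 2) * r + a ^ 3) / (D * P) := by
    rw [dA2, dh1, dh2, dk4, dM3]
    field_simp
    simp only [q3, q4, q5, q6, q7, q8, q9, hM]
    ring1
  rw [hC, mul_zero, zero_div] at e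
  exact sub_eq_zero.1 e

theorem e1u44 {a r x M p P s S u U D A1 g h1 k4 L4 : F}
    (n1 : a ≠ 0) (n2 : r ≠ 0) (n3 : p ≠ 0) (n4 : P ≠ 0) (n5 : s ≠ 0) (n6 : S ≠ 0)
    (n7 : u ≠ 0) (n8 : U ≠ 0) (n9 : D ≠ 0) (n10 : M ≠ 0) (n11 : (2 : F) ≠ 0)
    (q3 : p = a - 1) (q4 : P = a + 1) (q5 : s = r - 1) (q6 : S = r + 1) (q7 : u = r - a)
    (q8 : U = r + a) (q9 : D = a * r - 1) (hM : M = r + (a + 1) * (r + a) * x)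
    (hC : r ^ 2 + (1 + a) * (1 + a + a ^ 2) * r + a ^ 3 = 0)
    (dA1 : A1 = ((a ^ 2 * x - 2 * a * x + x + 1)))
    (dg : g = ((a ^ 2 * r * x - a * r * x - a * x + x + 1)))
    (dh1 : h1 = ((a ^ 4 * r - a ^ 4 + a ^ 3 * r ^ 2 * x - 2 * a ^ 2 * r ^ 2 * x - a ^ 2 * r * x + a * r
      ^ 2 * x + 2 * a * r * x + a * r - r * x - r)) / (D * a ^ 4))
    (dk4 : k4 = (a ^ 4) / (r ^ 4))
    (dL4 : L4 = ((-a ^ 3 - a ^ 2 + a * r * x - a - x - 1) * P * p * S) / (U * u * 2 * a ^ 2)) :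
    g = L4 * (r * A1) + (1 - L4) * (r ^ 4 * (k4 * h1)) := by
  have e : g - (L4 * (r * A1) + (1 - L4) * (r ^ 4 * (k4 * h1))) = (-a ^ 5 * r + a ^ 5 + a ^ 4 * r - a ^
      4 + a ^ 3 * r ^ 2 * x - a ^ 3 * r * x - 2 * a ^ 2 * r ^ 2 * x + a ^ 2 * r * x + a ^ 2 * x +
      a * r ^ 2 * x + a * r * x + a * r - 2 * a * x - a - r * x - r + x + 1) * (r ^ 2 + (1 + a) *
      (1 + a + a ^ 2) * r + a ^ 3) / (D * U * u * 2 * a) := by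
    rw [dA1, dg, dh1, dk4, dL4]
    field_simp
    simp only [q3, q4, q5, q6, q7, q8, q9, hM]
    ring1
  rw [hC, mul_zero, zero_div] at e
  exact sub_eq_zero.1 e

theorem e1w44 {a r x M p P s S u U D A1 h1 h5 k4 M4 : F}
    (n1 : a ≠ 0) (n2 : r ≠ 0) (n3 : p ≠ 0) (n4 : P ≠ 0) (n5 : s ≠ 0) (n6 : S ≠ 0)
    (n7 : u ≠ 0) (n8 : U ≠ 0) (n9 : D ≠ 0) (n10 : M ≠ 0) (n11 : (2 : F) ≠ 0)
    (q3 : p = a - 1) (q4 : P = a + 1) (q5 : s = r - 1) (q6 : S = r + 1) (q7 : u = r - a)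
    (q8 : U = r + a) (q9 : D = a * r - 1) (hM : M = r + (a + 1) * (r + a) * x)
    (hC : r ^ 2 + (1 + a) * (1 + a + a ^ 2) * r + a ^ 3 = 0)
    (dA1 : A1 = ((a ^ 2 * x - 2 * a * x + x + 1)))
    (dh1 : h1 = ((a ^ 4 * r - a ^ 4 + a ^ 3 * r ^ 2 * x - 2 * a ^ 2 * r ^ 2 * x - a ^ 2 * r * x + a * r
      ^ 2 * x + 2 * a * r * x + a * r - r * x - r)) / (D * a ^ 4))
    (dh5 : h5 = ((a ^ 2 * r * x - a * r * x - a * x + x + 1)) / (a ^ 4))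
    (dk4 : k4 = (a ^ 4) / (r ^ 4))
    (dM4 : M4 = ((-x) * D * P * p * S * r) / (U * u * 2 * a)) :
    r ^ 5 * (k4 * h5) = (1 - M4) * (r * A1) + M4 * (r ^ 4 * (k4 * h1)) := by
  have e : r ^ 5 * (k4 * h5) - ((1 - M4) * (r * A1) + M4 * (r ^ 4 * (k4 * h1))) = (a ^ 2 * r ^ 2 * x -
      a ^ 2 * r * x - 2 * a * r ^ 2 * x + 2 * a * r * x + r ^ 2 * x - r * x) * (r ^ 2 + (1 + a) *
      (1 + a + a ^ 2) * r + a ^ 3) / (U * u * 2) := by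
    rw [dA1, dh1, dh5, dk4, dM4]
    field_simp
    simp only [q3, q4, q5, q6, q7, q8, q9, hM]
    ring1
  rw [hC, mul_zero, zero_div] at e
  exact sub_eq_zero.1 e

end Pool.Agent.Helper76.IP
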