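import Mathlib

/-!
TH-P, phase 2, family E1: the cells of row 5 of the table (generated).
-/

namespace Pool.Agent.Helper76.IP

set_option linter.unusedVariables false
set_option linter.unusedSimpArgs false
set_option maxRecDepth 100000

variable {F : Type*} [Field F]

theorem e1u50 {a r x M p P s S u U D g L0 : F}
    (n1 : a ≠ 0) (n2 : r ≠ 0) (n3 : p ≠ 0) (n4 : P ≠ 0) (n5 : s ≠ 0) (n6 : S ≠ 0)
    (n7 : u ≠ 0) (n8 : U ≠ 0) (n9 : D ≠ 0) (n10 : M ≠ 0) (n11 : (2 : F) ≠ 0)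
    (q3 : p = a - 1) (q4 : P = a + 1) (q5 : s = r - 1) (q6 : S = r + 1) (q7 : u = r - a)
    (q8 : U = r + a) (q9 : D = a * r - 1) (hM : M = r + (a + 1) * (r + a) * x)
    (hC : r ^ 2 + (1 + a) * (1 + a + a ^ 2) * r + a ^ 3 = 0)
    (dg : g = ((a ^ 2 * r * x - a * r * x - a * x + x + 1)))
    (dL0 : L0 = ((x) * p)) :
    g = L0 * ((a * r)) + (1 - L0) * (1) := by
  rw [dg, dL0]
  field_simp
  try simp only [q3, q4, q5, q6, q7, q8, q9, hM]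
  try ring1

theorem e1w50 {a r x M p P s S u U D h5 M0 : F}
    (n1 : a ≠ 0) (n2 : r ≠ 0) (n3 : p ≠ 0) (n4 : P ≠ 0) (n5 : s ≠ 0) (n6 : S ≠ 0)
    (n7 : u ≠ 0) (n8 : U ≠ 0) (n9 : D ≠ 0) (n10 : M ≠ 0) (n11 : (2 : F) ≠ 0)
    (q3 : p = a - 1) (q4 : P = a + 1) (q5 : s = r - 1) (q6 : S = r + 1) (q7 : u = r - a)
    (q8 : U = r + a) (q9 : D = a * r - 1) (hM : M = r + (a + 1) * (r + a) * x)
    (hC : r ^ 2 + (1 + a) * (1 + a + a ^ 2) * r + a ^ 3 = 0)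
    (dh5 : h5 = ((a ^ 2 * r * x - a * r * x - a * x + x + 1)) / (a ^ 4))
    (dM0 : M0 = ((a ^ 3 + a ^ 2 - a * r * x + a + x + 1) * p * r) / (D * a ^ 3)) :
    (a * r) * h5 = (1 - M0) * ((a * r)) + M0 * (1) := by
  rw [dh5, dM0]
  field_simp
  try simp only [q3, q4, q5, q6, q7, q8, q9, hM]
  try ring1

theorem e1u51 {a r x M p P s S u U D g h5 L1 : F}
    (n1 : a ≠ 0) (n2 : r ≠ 0) (n3 : p ≠ 0) (n4 : P ≠ 0) (n5 : s ≠ 0) (n6 : S ≠ 0)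
    (n7 : u ≠ 0) (n8 : U ≠ 0) (n9 : D ≠ 0) (n10 : M ≠ 0) (n11 : (2 : F) ≠ 0)
    (q3 : p = a - 1) (q4 : P = a + 1) (q5 : s = r - 1) (q6 : S = r + 1) (q7 : u = r - a)
    (q8 : U = r + a) (q9 : D = a * r - 1) (hM : M = r + (a + 1) * (r + a) * x)
    (hC : r ^ 2 + (1 + a) * (1 + a + a ^ 2) * r + a ^ 3 = 0)
    (dg : g = ((a ^ 2 * r * x - a * r * x - a * x + x + 1)))
    (dh5 : h5 = ((a ^ 2 * r * x - a * r * x - a * x + x + 1)) / (a ^ 4))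
    (dL1 : L1 = (2) / (p * s)) :
    g = L1 * ((a * r) * g) + (1 - L1) * ((a * r) * h5) := by
  have e : g - (L1 * ((a * r) * g) + (1 - L1) * ((a * r) * h5)) = (-a ^ 2 * r * x + a * r * x + a * x -
      x - 1) * (r ^ 2 + (1 + a) * (1 + a + a ^ 2) * r + a ^ 3) / (s * a ^ 3) := by
    rw [dg, dh5, dL1]
    field_simp
    simp only [q3, q4, q5, q6, q7, q8, q9, hM]
    ring1
  rw [hC, mul_zero, zero_div] at e
  exact sub_eq_zero.1 e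

theorem e1w51 {a r x M p P s S u U D g h5 M1 : F}
    (n1 : a ≠ 0) (n2 : r ≠ 0) (n3 : p ≠ 0) (n4 : P ≠ 0) (n5 : s ≠ 0) (n6 : S ≠ 0)
    (n7 : u ≠ 0) (n8 : U ≠ 0) (n9 : D ≠ 0) (n10 : M ≠ 0) (n11 : (2 : F) ≠ 0)
    (q3 : p = a - 1) (q4 : P = a + 1) (q5 : s = r - 1) (q6 : S = r + 1) (q7 : u = r - a)
    (q8 : U = r + a) (q9 : D = a * r - 1) (hM : M = r + (a + 1) * (r + a) * x)
    (hC : r ^ 2 + (1 + a) * (1 + a + a ^ 2) * r + a ^ 3 = 0)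
    (dg : g = ((a ^ 2 * r * x - a * r * x - a * x + x + 1)))
    (dh5 : h5 = ((a ^ 2 * r * x - a * r * x - a * x + x + 1)) / (a ^ 4))
    (dM1 : M1 = (2 * a * r) / (p * s)) :
    (a * r) ^ 2 * h5 = (1 - M1) * ((a * r) * g) + M1 * ((a * r) * h5) := by
  have e : (a * r) ^ 2 * h5 - ((1 - M1) * ((a * r) * g) + M1 * ((a * r) * h5)) = (a ^ 2 * r ^ 2 * x - a
      * r ^ 2 * x - a * r * x + r * x + r) * (r ^ 2 + (1 + a) * (1 + a + a ^ 2) * r + a ^ 3) / (s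
      * a ^ 2) := by
    rw [dg, dh5, dM1]
    field_simp
    simp only [q3, q4, q5, q6, q7, q8, q9, hM]
    ring1
  rw [hC, mul_zero, zero_div] at e
  exact sub_eq_zero.1 e

theorem e1u52 {a r x M p P s S u U D g h5 kn ML : F}
    (n1 : a ≠ 0) (n2 : r ≠ 0) (n3 : p ≠ 0) (n4 : P ≠ 0) (n5 : s ≠ 0) (n6 : S ≠ 0)
    (n7 : u ≠ 0) (n8 : U ≠ 0) (n9 : D ≠ 0) (n10 : M ≠ 0) (n11 : (2 : F) ≠ 0)
    (q3 : p = a - 1) (q4 : P = a + 1) (q5 : s = r - 1) (q6 : S = r + 1) (q7 : u = r - a)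
    (q8 : U = r + a) (q9 : D = a * r - 1) (hM : M = r + (a + 1) * (r + a) * x)
    (hC : r ^ 2 + (1 + a) * (1 + a + a ^ 2) * r + a ^ 3 = 0)
    (dg : g = ((a ^ 2 * r * x - a * r * x - a * x + x + 1)))
    (dh5 : h5 = ((a ^ 2 * r * x - a * r * x - a * x + x + 1)) / (a ^ 4))
    (dkn : kn = ((a ^ 4 * r * x + a ^ 4 * x + 3 * a ^ 3 * r * x + a ^ 3 * x + 4 * a ^ 2 * r * x + a * r
      * x - a * x + r * x + x + 1) * r))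
    (dML : ML = ((-a * r * x + a + x + 1) * S) / (2 * a)) :
    kn * g = ML * ((a * r) * g) + (M - ML) * ((a * r) ^ 2 * h5) := by
  have e : kn * g - (ML * ((a * r) * g) + (M - ML) * ((a * r) ^ 2 * h5)) = (2 * a ^ 6 * r ^ 2 * x ^ 2 -
      2 * a ^ 5 * r * x ^ 2 - 2 * a ^ 4 * r ^ 2 * x ^ 2 + 2 * a ^ 4 * r * x - a ^ 3 * r ^ 3 * x ^
      2 - 2 * a ^ 3 * r ^ 2 * x ^ 2 - a ^ 3 * r ^ 2 * x + 2 * a ^ 3 * r * x ^ 2 + 2 * a ^ 3 * r *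
      x + a ^ 2 * r ^ 3 * x ^ 2 + 4 * a ^ 2 * r ^ 2 * x ^ 2 + 2 * a ^ 2 * r ^ 2 * x + 2 * a ^ 2 *
      r * x ^ 2 + a ^ 2 * r * x - 2 * a * r ^ 2 * x ^ 2 - 2 * a * r ^ 2 * x - 3 * a * r * x ^ 2 -
      4 * a * r * x - a * r + r * x ^ 2 + 2 * r * x + r) * (r ^ 2 + (1 + a) * (1 + a + a ^ 2) * r
      + a ^ 3) / (2 * a ^ 3) := by
    rw [dg, dh5, dkn, dML]
    field_simp
    simp only [q3, q4, q5, q6, q7, q8, q9, hM]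
    ring1
  rw [hC, mul_zero, zero_div] at e
  exact sub_eq_zero.1 e

theorem e1w52 {a r x M p P s S u U D g h5 k4 kn MM : F}
    (n1 : a ≠ 0) (n2 : r ≠ 0) (n3 : p ≠ 0) (n4 : P ≠ 0) (n5 : s ≠ 0) (n6 : S ≠ 0)
    (n7 : u ≠ 0) (n8 : U ≠ 0) (n9 : D ≠ 0) (n10 : M ≠ 0) (n11 : (2 : F) ≠ 0)
    (q3 : p = a - 1) (q4 : P = a + 1) (q5 : s = r - 1) (q6 : S = r + 1) (q7 : u = r - a)
    (q8 : U = r + a) (q9 : D = a * r - 1) (hM : M = r + (a + 1) * (r + a) * x)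
    (hC : r ^ 2 + (1 + a) * (1 + a + a ^ 2) * r + a ^ 3 = 0)
    (dg : g = ((a ^ 2 * r * x - a * r * x - a * x + x + 1)))
    (dh5 : h5 = ((a ^ 2 * r * x - a * r * x - a * x + x + 1)) / (a ^ 4))
    (dk4 : k4 = (a ^ 4) / (r ^ 4))
    (dkn : kn = ((a ^ 4 * r * x + a ^ 4 * x + 3 * a ^ 3 * r * x + a ^ 3 * x + 4 * a ^ 2 * r * x + a * r
      * x - a * x + r * x + x + 1) * r))
    (dMM : MM = ((a * r * x - a - x - 1) * S * a ^ 2) / (2 * r)) :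
    kn * ((a * r) ^ 3 * (k4 * h5)) = (M - MM) * ((a * r) * g) + MM * ((a * r) ^ 2 * h5) := by
  have e : kn * ((a * r) ^ 3 * (k4 * h5)) - ((M - MM) * ((a * r) * g) + MM * ((a * r) ^ 2 * h5)) = (2 *
      a ^ 6 * r * x ^ 2 - 2 * a ^ 5 * x ^ 2 - 2 * a ^ 4 * r * x ^ 2 + 2 * a ^ 4 * x - a ^ 3 * r ^
      2 * x ^ 2 - 2 * a ^ 3 * r * x ^ 2 - a ^ 3 * r * x + 2 * a ^ 3 * x ^ 2 + 2 * a ^ 3 * x + a ^
      2 * r ^ 2 * x ^ 2 + 4 * a ^ 2 * r * x ^ 2 + 2 * a ^ 2 * r * x + 2 * a ^ 2 * x ^ 2 + a ^ 2 *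
      x - 2 * a * r * x ^ 2 - 2 * a * r * x - 3 * a * x ^ 2 - 4 * a * x - a + x ^ 2 + 2 * x + 1) *
      (r ^ 2 + (1 + a) * (1 + a + a ^ 2) * r + a ^ 3) / (2) := by
    rw [dg, dh5, dk4, dkn, dMM]
    field_simp
    simp only [q3, q4, q5, q6, q7, q8, q9, hM]
    ring1
  rw [hC, mul_zero, zero_div] at e
  exact sub_eq_zero.1 e

theorem e1u53 {a r x M p P s S u U D g h5 k4 L3 : F}
    (n1 : a ≠ 0) (n2 : r ≠ 0) (n3 : p ≠ 0) (n4 : P ≠ 0) (n5 : s ≠ 0) (n6 : S ≠ 0)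
    (n7 : u ≠ 0) (n8 : U ≠ 0) (n9 : D ≠ 0) (n10 : M ≠ 0) (n11 : (2 : F) ≠ 0)
    (q3 : p = a - 1) (q4 : P = a + 1) (q5 : s = r - 1) (q6 : S = r + 1) (q7 : u = r - a)
    (q8 : U = r + a) (q9 : D = a * r - 1) (hM : M = r + (a + 1) * (r + a) * x)
    (hC : r ^ 2 + (1 + a) * (1 + a + a ^ 2) * r + a ^ 3 = 0)
    (dg : g = ((a ^ 2 * r * x - a * r * x - a * x + x + 1)))
    (dh5 : h5 = ((a ^ 2 * r * x - a * r * x - a * x + x + 1)) / (a ^ 4))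
    (dk4 : k4 = (a ^ 4) / (r ^ 4))
    (dL3 : L3 = (2) / (P * S)) :
    g = L3 * ((a * r) * g) + (1 - L3) * ((a * r) ^ 3 * (k4 * h5)) := by
  have e : g - (L3 * ((a * r) * g) + (1 - L3) * ((a * r) ^ 3 * (k4 * h5))) = (-a ^ 3 * r * x + 2 * a ^
      2 * r * x + a ^ 2 * x - a * r * x - 2 * a * x - a + x + 1) * (r ^ 2 + (1 + a) * (1 + a + a ^
      2) * r + a ^ 3) / (P * S * r) := by
    rw [dg, dh5, dk4, dL3]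
    field_simp
    simp only [q3, q4, q5, q6, q7, q8, q9, hM]
    ring1
  rw [hC, mul_zero, zero_div] at e
  exact sub_eq_zero.1 e

theorem e1w53 {a r x M p P s S u U D g h5 k4 M3 : F}
    (n1 : a ≠ 0) (n2 : r ≠ 0) (n3 : p ≠ 0) (n4 : P ≠ 0) (n5 : s ≠ 0) (n6 : S ≠ 0)
    (n7 : u ≠ 0) (n8 : U ≠ 0) (n9 : D ≠ 0) (n10 : M ≠ 0) (n11 : (2 : F) ≠ 0)
    (q3 : p = a - 1) (q4 : P = a + 1) (q5 : s = r - 1) (q6 : S = r + 1) (q7 : u = r - a)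
    (q8 : U = r + a) (q9 : D = a * r - 1) (hM : M = r + (a + 1) * (r + a) * x)
    (hC : r ^ 2 + (1 + a) * (1 + a + a ^ 2) * r + a ^ 3 = 0)
    (dg : g = ((a ^ 2 * r * x - a * r * x - a * x + x + 1)))
    (dh5 : h5 = ((a ^ 2 * r * x - a * r * x - a * x + x + 1)) / (a ^ 4))
    (dk4 : k4 = (a ^ 4) / (r ^ 4))
    (dM3 : M3 = (2 * a * r) / (P * S)) :
    (a * r) ^ 4 * (k4 * h5) = (1 - M3) * ((a * r) * g) + M3 * ((a * r) ^ 3 * (k4 * h5)) := by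
  have e : (a * r) ^ 4 * (k4 * h5) - ((1 - M3) * ((a * r) * g) + M3 * ((a * r) ^ 3 * (k4 * h5))) = (a ^
      4 * r * x - 2 * a ^ 3 * r * x - a ^ 3 * x + a ^ 2 * r * x + 2 * a ^ 2 * x + a ^ 2 - a * x -
      a) * (r ^ 2 + (1 + a) * (1 + a + a ^ 2) * r + a ^ 3) / (P * S) := by
    rw [dg, dh5, dk4, dM3]
    field_simp
    simp only [q3, q4, q5, q6, q7, q8, q9, hM]
    ring1
  rw [hC, mul_zero, zero_div] at e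
  exact sub_eq_zero.1 e

theorem e1u54 {a r x M p P s S u U D g h5 k4 L4 : F}
    (n1 : a ≠ 0) (n2 : r ≠ 0) (n3 : p ≠ 0) (n4 : P ≠ 0) (n5 : s ≠ 0) (n6 : S ≠ 0)
    (n7 : u ≠ 0) (n8 : U ≠ 0) (n9 : D ≠ 0) (n10 : M ≠ 0) (n11 : (2 : F) ≠ 0)
    (q3 : p = a - 1) (q4 : P = a + 1) (q5 : s = r - 1) (q6 : S = r + 1) (q7 : u = r - a)
    (q8 : U = r + a) (q9 : D = a * r - 1) (hM : M = r + (a + 1) * (r + a) * x)
    (hC : r ^ 2 + (1 + a) * (1 + a + a ^ 2) * r + a ^ 3 = 0)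
    (dg : g = ((a ^ 2 * r * x - a * r * x - a * x + x + 1)))
    (dh5 : h5 = ((a ^ 2 * r * x - a * r * x - a * x + x + 1)) / (a ^ 4))
    (dk4 : k4 = (a ^ 4) / (r ^ 4))
    (dL4 : L4 = ((-a ^ 3 - a ^ 2 + a * r * x - a - x - 1) * P * p * S) / (U * u * 2 * a ^ 2)) :
    (g * g) = L4 * ((a * r) * g) + (1 - L4) * ((a * r) ^ 4 * (k4 * h5)) := by
  have e : (g * g) - (L4 * ((a * r) * g) + (1 - L4) * ((a * r) ^ 4 * (k4 * h5))) = (-a ^ 7 * r * x + 2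
      * a ^ 6 * r * x + a ^ 6 * x + a ^ 5 * r ^ 2 * x ^ 2 - a ^ 5 * r * x - 2 * a ^ 5 * x - a ^ 5
      - 3 * a ^ 4 * r ^ 2 * x ^ 2 - 2 * a ^ 4 * r * x ^ 2 + a ^ 4 * x + a ^ 4 + 3 * a ^ 3 * r ^ 2
      * x ^ 2 + 6 * a ^ 3 * r * x ^ 2 + 2 * a ^ 3 * r * x + a ^ 3 * x ^ 2 - a ^ 2 * r ^ 2 * x ^ 2
      - 6 * a ^ 2 * r * x ^ 2 - 4 * a ^ 2 * r * x - 3 * a ^ 2 * x ^ 2 - 2 * a ^ 2 * x + 2 * a * r
      * x ^ 2 + 2 * a * r * x + 3 * a * x ^ 2 + 4 * a * x + a - x ^ 2 - 2 * x - 1) * (r ^ 2 + (1 +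
      a) * (1 + a + a ^ 2) * r + a ^ 3) / (U * u * 2 * a) := by
    rw [dg, dh5, dk4, dL4]
    field_simp
    simp only [q3, q4, q5, q6, q7, q8, q9, hM]
    ring1
  rw [hC, mul_zero, zero_div] at e
  exact sub_eq_zero.1 e

theorem e1w54 {a r x M p P s S u U D g h5 k4 M4 : F}
    (n1 : a ≠ 0) (n2 : r ≠ 0) (n3 : p ≠ 0) (n4 : P ≠ 0) (n5 : s ≠ 0) (n6 : S ≠ 0)
    (n7 : u ≠ 0) (n8 : U ≠ 0) (n9 : D ≠ 0) (n10 : M ≠ 0) (n11 : (2 : F) ≠ 0)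
    (q3 : p = a - 1) (q4 : P = a + 1) (q5 : s = r - 1) (q6 : S = r + 1) (q7 : u = r - a)
    (q8 : U = r + a) (q9 : D = a * r - 1) (hM : M = r + (a + 1) * (r + a) * x)
    (hC : r ^ 2 + (1 + a) * (1 + a + a ^ 2) * r + a ^ 3 = 0)
    (dg : g = ((a ^ 2 * r * x - a * r * x - a * x + x + 1)))
    (dh5 : h5 = ((a ^ 2 * r * x - a * r * x - a * x + x + 1)) / (a ^ 4))
    (dk4 : k4 = (a ^ 4) / (r ^ 4))
    (dM4 : M4 = ((-x) * D * P * p * S * r) / (U * u * 2 * a)) :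
    (a * r) ^ 5 * (k4 * (h5 * h5)) = (1 - M4) * ((a * r) * g) + M4 * ((a * r) ^ 4 * (k4 * h5))
      := by
  have e : (a * r) ^ 5 * (k4 * (h5 * h5)) - ((1 - M4) * ((a * r) * g) + M4 * ((a * r) ^ 4 * (k4 * h5)))
      = (a ^ 5 * r ^ 3 * x ^ 2 - 3 * a ^ 4 * r ^ 3 * x ^ 2 - 2 * a ^ 4 * r ^ 2 * x ^ 2 + 3 * a ^ 3
      * r ^ 3 * x ^ 2 + 6 * a ^ 3 * r ^ 2 * x ^ 2 + a ^ 3 * r ^ 2 * x + a ^ 3 * r * x ^ 2 - a ^ 2
      * r ^ 3 * x ^ 2 - 6 * a ^ 2 * r ^ 2 * x ^ 2 - 2 * a ^ 2 * r ^ 2 * x - 3 * a ^ 2 * r * x ^ 2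
      - a ^ 2 * r * x + 2 * a * r ^ 2 * x ^ 2 + a * r ^ 2 * x + 3 * a * r * x ^ 2 + 2 * a * r * x
      - r * x ^ 2 - r * x) * (r ^ 2 + (1 + a) * (1 + a + a ^ 2) * r + a ^ 3) / (U * u * 2) := by
    rw [dg, dh5, dk4, dM4]
    field_simp
    simp only [q3, q4, q5, q6, q7, q8, q9, hM]
    ring1
  rw [hC, mul_zero, zero_div] at e
  exact sub_eq_zero.1 e

end Pool.Agent.Helper76.IP
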