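import Pool.Agent.Helper76.IP.MkSym
import Pool.Agent.Helper76.IP.E1Row1
import Pool.Agent.Helper76.IP.E1Row2
import Pool.Agent.Helper76.IP.E1Row3
import Pool.Agent.Helper76.IP.E1Row4
import Pool.Agent.Helper76.IP.E1Row5
import Pool.Agent.Helper76.IP.E1Non

/-!
TH-P, phase 2: construction of the closed corners of the family E1 (`m = 5`).
-/

namespace Pool.Agent.Helper76.IP

open Pool.Agent.Helper54.IP

variable {F : Type*} [Field F]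

/-- construction of E1 -/
theorem e1_mk {a r x : F} (hC : r ^ 2 + (1 + a) * (1 + a + a ^ 2) * r + a ^ 3 = 0)
    (n1 : a ≠ 0) (n2 : r ≠ 0) (n3' : a - 1 ≠ 0) (n4' : a + 1 ≠ 0) (n5' : r - 1 ≠ 0)
    (n6' : r + 1 ≠ 0) (n7' : r - a ≠ 0) (n8' : r + a ≠ 0) (n9' : a * r - 1 ≠ 0)
    (n10' : r + (a + 1) * (r + a) * x ≠ 0) (n11 : (2 : F) ≠ 0) (x0 : x ≠ 0)
    (xN : (a + 1) - (a * r - 1) * x ≠ 0) (xY : (a + 1) * (a ^ 2 + 1) - (a * r - 1) * x ≠ 0)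
    (xk : 1 + (1 - a + a ^ 3 + a ^ 4 + r * (1 + a + 4 * a ^ 2 + 3 * a ^ 3 + a ^ 4)) * x ≠ 0)
    (xg : 1 + (a - 1) * (a * r - 1) * x ≠ 0) :
    ∃ g : GForm F 5, g.Closed ∧ g.t = sq6 1 a (-a) (-r) r (a * r) ∧
      g.s = sq6 1 a (-a) (-r) r (a * r) ∧
      g.lam = fun k => 1 - sq5 ((a - 1) * x) (2 / ((a - 1) * (r - 1)))
        ((r + 1) * ((a + 1) - (a * r - 1) * x) / (2 * a * (r + (a + 1) * (r + a) * x)))
        (2 / ((a + 1) * (r + 1)))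
        (-((r + 1) * (a ^ 2 - 1) * ((a + 1) * (a ^ 2 + 1) - (a * r - 1) * x)) /
          (2 * a ^ 2 * (r ^ 2 - a ^ 2))) k := by
  obtain ⟨p, q3⟩ : ∃ z, z = a - 1 := ⟨_, rfl⟩
  obtain ⟨P, q4⟩ : ∃ z, z = a + 1 := ⟨_, rfl⟩
  obtain ⟨s, q5⟩ : ∃ z, z = r - 1 := ⟨_, rfl⟩
  obtain ⟨S, q6⟩ : ∃ z, z = r + 1 := ⟨_, rfl⟩
  obtain ⟨u, q7⟩ : ∃ z, z = r - a := ⟨_, rfl⟩
  obtain ⟨U, q8⟩ : ∃ z, z = r + a := ⟨_, rfl⟩
  obtain ⟨D, q9⟩ : ∃ z, z = a * r - 1 := ⟨_, rfl⟩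
  obtain ⟨M, hM⟩ : ∃ z, z = r + (a + 1) * (r + a) * x := ⟨_, rfl⟩
  have n3 : p ≠ 0 := by rw [q3]; exact n3'
  have n4 : P ≠ 0 := by rw [q4]; exact n4'
  have n5 : s ≠ 0 := by rw [q5]; exact n5'
  have n6 : S ≠ 0 := by rw [q6]; exact n6'
  have n7 : u ≠ 0 := by rw [q7]; exact n7'
  have n8 : U ≠ 0 := by rw [q8]; exact n8'
  have n9 : D ≠ 0 := by rw [q9]; exact n9'
  have n10 : M ≠ 0 := by rw [hM]; exact n10'
  obtain ⟨A1, dA1⟩ : ∃ z : F, z = ((a ^ 2 * x - 2 * a * x + x + 1)) := ⟨_, rfl⟩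
  obtain ⟨A2, dA2⟩ : ∃ z : F, z = ((-a ^ 2 * x + x + 1)) := ⟨_, rfl⟩
  obtain ⟨A3, dA3⟩ : ∃ z : F, z = ((-a * r * x - a * x + r * x + x + 1)) := ⟨_, rfl⟩
  obtain ⟨A4, dA4⟩ : ∃ z : F, z = ((a * r * x - a * x - r * x + x + 1)) := ⟨_, rfl⟩
  obtain ⟨g, dg⟩ : ∃ z : F, z = ((a ^ 2 * r * x - a * r * x - a * x + x + 1)) := ⟨_, rfl⟩
  obtain ⟨B, dB⟩ : ∃ z : F, z = ((a ^ 2 * r * x + 3 * a ^ 2 * x + 2 * a * r * x + 2 * a * x + r * x + r - x - 1)) / (s) :=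
      ⟨_, rfl⟩
  obtain ⟨C3, dC3⟩ : ∃ z : F, z = ((-a ^ 4 * r * x - a ^ 4 * x - 5 * a ^ 3 * r * x - 3 * a ^ 3 * x - 8 * a ^ 2 * r * x - 5 * a
      * r * x + a * x - r * x + r - x - 1)) / (s) := ⟨_, rfl⟩
  obtain ⟨h1, dh1⟩ : ∃ z : F, z = ((a ^ 4 * r - a ^ 4 + a ^ 3 * r ^ 2 * x - 2 * a ^ 2 * r ^ 2 * x - a ^ 2 * r * x + a * r ^ 2
      * x + 2 * a * r * x + a * r - r * x - r)) / (D * a ^ 4) := ⟨_, rfl⟩
  obtain ⟨h2, dh2⟩ : ∃ z : F, z = ((-a ^ 4 * r - a ^ 4 + a ^ 3 * r ^ 2 * x - a ^ 2 * r * x - a * r ^ 2 * x + a * r + r * x +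
      r)) / (D * a ^ 4) := ⟨_, rfl⟩
  obtain ⟨h3, dh3⟩ : ∃ z : F, z = ((-a ^ 4 - a ^ 3 + a ^ 2 * r ^ 2 * x + a ^ 2 * r * x - a * r ^ 2 * x - 2 * a * r * x - a * x
      + r * x + r + x + 1)) / (D * a ^ 3) := ⟨_, rfl⟩
  obtain ⟨h4, dh4⟩ : ∃ z : F, z = ((a ^ 4 - a ^ 3 + a ^ 2 * r ^ 2 * x - a ^ 2 * r * x - a * r ^ 2 * x + a * x + r * x + r - x
      - 1)) / (D * a ^ 3) := ⟨_, rfl⟩
  obtain ⟨h5, dh5⟩ : ∃ z : F, z = ((a ^ 2 * r * x - a * r * x - a * x + x + 1)) / (a ^ 4) := ⟨_, rfl⟩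
  obtain ⟨b, db⟩ : ∃ z : F, z = ((a ^ 4 * r ^ 2 + 2 * a ^ 4 * r + a ^ 4 + a ^ 3 * r ^ 3 * x - a ^ 3 * r ^ 2 * x + 4 * a ^ 3
      * r ^ 2 + 4 * a ^ 3 * r - 2 * a ^ 2 * r ^ 3 * x - 3 * a ^ 2 * r ^ 2 * x + 4 * a ^ 2 * r ^ 2
      + a ^ 2 * r * x + 4 * a ^ 2 * r - 3 * a * r ^ 3 * x + a * r ^ 2 * x + 5 * a * r ^ 2 + 2 * a
      * r * x + 3 * a * r + 3 * r ^ 2 * x + 3 * r ^ 2 + r * x + r)) / (D * s * a ^ 4) := ⟨_, rfl⟩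
  obtain ⟨c, dc⟩ : ∃ z : F, z = ((-2 * a ^ 7 * r - 7 * a ^ 6 * r + a ^ 6 + a ^ 5 * r ^ 3 * x + a ^ 5 * r ^ 2 * x - 14 * a ^
      5 * r - a ^ 4 * r ^ 3 * x + 4 * a ^ 4 * r ^ 2 * x - 3 * a ^ 4 * r ^ 2 - a ^ 4 * r * x - 19 *
      a ^ 4 * r + 9 * a ^ 3 * r ^ 2 * x - 3 * a ^ 3 * r ^ 2 - 5 * a ^ 3 * r * x - 19 * a ^ 3 * r +
      3 * a ^ 2 * r ^ 3 * x + 5 * a ^ 2 * r ^ 2 * x - 4 * a ^ 2 * r ^ 2 - 8 * a ^ 2 * r * x - 14 *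
      a ^ 2 * r + a * r ^ 3 * x - 2 * a * r ^ 2 * x - 4 * a * r ^ 2 - 5 * a * r * x - 6 * a * r -
      r ^ 2 * x - r ^ 2 - r * x - r)) / (D * s * a ^ 6) := ⟨_, rfl⟩
  obtain ⟨k4, dk4⟩ : ∃ z : F, z = (a ^ 4) / (r ^ 4) := ⟨_, rfl⟩
  obtain ⟨kn, dkn⟩ : ∃ z : F, z = ((a ^ 4 * r * x + a ^ 4 * x + 3 * a ^ 3 * r * x + a ^ 3 * x + 4 * a ^ 2 * r * x + a * r * x
      - a * x + r * x + x + 1) * r) := ⟨_, rfl⟩
  obtain ⟨ML, dML⟩ : ∃ z : F, z = ((-a * r * x + a + x + 1) * S) / (2 * a) := ⟨_, rfl⟩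
  obtain ⟨MM, dMM⟩ : ∃ z : F, z = ((a * r * x - a - x - 1) * S * a ^ 2) / (2 * r) := ⟨_, rfl⟩
  obtain ⟨L0, dL0⟩ : ∃ z : F, z = ((x) * p) := ⟨_, rfl⟩
  obtain ⟨M0, dM0⟩ : ∃ z : F, z = ((a ^ 3 + a ^ 2 - a * r * x + a + x + 1) * p * r) / (D * a ^ 3) := ⟨_, rfl⟩
  obtain ⟨L1, dL1⟩ : ∃ z : F, z = (2) / (p * s) := ⟨_, rfl⟩
  obtain ⟨M1, dM1⟩ : ∃ z : F, z = (2 * a * r) / (p * s) := ⟨_, rfl⟩
  obtain ⟨L3, dL3⟩ : ∃ z : F, z = (2) / (P * S) := ⟨_, rfl⟩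
  obtain ⟨M3, dM3⟩ : ∃ z : F, z = (2 * a * r) / (P * S) := ⟨_, rfl⟩
  obtain ⟨L4, dL4⟩ : ∃ z : F, z = ((-a ^ 3 - a ^ 2 + a * r * x - a - x - 1) * P * p * S) / (U * u * 2 * a ^ 2) := ⟨_, rfl⟩
  obtain ⟨M4, dM4⟩ : ∃ z : F, z = ((-x) * D * P * p * S * r) / (U * u * 2 * a) := ⟨_, rfl⟩
  obtain ⟨L2, dL2⟩ : ∃ z : F, z = ML / M := ⟨_, rfl⟩
  obtain ⟨M2, dM2⟩ : ∃ z : F, z = MM / M := ⟨_, rfl⟩
  obtain ⟨k0, dk0⟩ : ∃ z : F, z = kn / M := ⟨_, rfl⟩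
  have hL2 : L2 * M = ML := by rw [dL2]; field_simp
  have hM2 : M2 * M = MM := by rw [dM2]; field_simp
  have hk0 : k0 * M = kn := by rw [dk0]; field_simp
  have hh5 : a ^ 4 * h5 = g := by rw [dh5, dg]; field_simp
  have hk4 : r ^ 4 * k4 = a ^ 4 := by rw [dk4]; field_simp
  have eu10 := e1u10 n1 n2 n3 n4 n5 n6 n7 n8 n9 n10 n11 q3 q4 q5 q6 q7 q8 q9 hM hC dA1 dL0
  have ew10 := e1w10 n1 n2 n3 n4 n5 n6 n7 n8 n9 n10 n11 q3 q4 q5 q6 q7 q8 q9 hM hC dh1 dM0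
  have eu11 := e1u11 n1 n2 n3 n4 n5 n6 n7 n8 n9 n10 n11 q3 q4 q5 q6 q7 q8 q9 hM hC dA1 dA2 dh1 dL1
  have ew11 := e1w11 n1 n2 n3 n4 n5 n6 n7 n8 n9 n10 n11 q3 q4 q5 q6 q7 q8 q9 hM hC dA1 dh1 dh2 dM1
  have eu12 := e1u12 n1 n2 n3 n4 n5 n6 n7 n8 n9 n10 n11 q3 q4 q5 q6 q7 q8 q9 hM hC dA2 dA3 dh2 dML
  have ew12 := e1w12 n1 n2 n3 n4 n5 n6 n7 n8 n9 n10 n11 q3 q4 q5 q6 q7 q8 q9 hM hC dA2 dh2 dh3 dMM
  have eu13 := e1u13 n1 n2 n3 n4 n5 n6 n7 n8 n9 n10 n11 q3 q4 q5 q6 q7 q8 q9 hM hC dA3 dA4 dh3 dL3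
  have ew13 := e1w13 n1 n2 n3 n4 n5 n6 n7 n8 n9 n10 n11 q3 q4 q5 q6 q7 q8 q9 hM hC dA3 dh3 dh4 dM3
  have eu14 := e1u14 n1 n2 n3 n4 n5 n6 n7 n8 n9 n10 n11 q3 q4 q5 q6 q7 q8 q9 hM hC dA4 dg dh4 dL4
  have ew14 := e1w14 n1 n2 n3 n4 n5 n6 n7 n8 n9 n10 n11 q3 q4 q5 q6 q7 q8 q9 hM hC dA4 dh4 dh5 dM4
  have eu20 := e1u20 n1 n2 n3 n4 n5 n6 n7 n8 n9 n10 n11 q3 q4 q5 q6 q7 q8 q9 hM hC dA2 dL0
  have ew20 := e1w20 n1 n2 n3 n4 n5 n6 n7 n8 n9 n10 n11 q3 q4 q5 q6 q7 q8 q9 hM hC dh2 dM0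
  have eu21 := e1u21 n1 n2 n3 n4 n5 n6 n7 n8 n9 n10 n11 q3 q4 q5 q6 q7 q8 q9 hM hC dA2 dB dh2 dL1
  have ew21 := e1w21 n1 n2 n3 n4 n5 n6 n7 n8 n9 n10 n11 q3 q4 q5 q6 q7 q8 q9 hM hC dA2 dh2 db dM1
  have eu22 := e1u22 n1 n2 n3 n4 n5 n6 n7 n8 n9 n10 n11 q3 q4 q5 q6 q7 q8 q9 hM hC dB dC3 db dML
  have ew22 := e1w22 n1 n2 n3 n4 n5 n6 n7 n8 n9 n10 n11 q3 q4 q5 q6 q7 q8 q9 hM hC dB db dc dMM
  have eu23 := e1u23 n1 n2 n3 n4 n5 n6 n7 n8 n9 n10 n11 q3 q4 q5 q6 q7 q8 q9 hM hC dA3 dC3 dc dL3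
  have ew23 := e1w23 n1 n2 n3 n4 n5 n6 n7 n8 n9 n10 n11 q3 q4 q5 q6 q7 q8 q9 hM hC dC3 dh3 dc dM3
  have eu24 := e1u24 n1 n2 n3 n4 n5 n6 n7 n8 n9 n10 n11 q3 q4 q5 q6 q7 q8 q9 hM hC dA3 dg dh3 dL4
  have ew24 := e1w24 n1 n2 n3 n4 n5 n6 n7 n8 n9 n10 n11 q3 q4 q5 q6 q7 q8 q9 hM hC dA3 dh3 dh5 dM4
  have eu30 := e1u30 n1 n2 n3 n4 n5 n6 n7 n8 n9 n10 n11 q3 q4 q5 q6 q7 q8 q9 hM hC dA3 dL0
  have ew30 := e1w30 n1 n2 n3 n4 n5 n6 n7 n8 n9 n10 n11 q3 q4 q5 q6 q7 q8 q9 hM hC dh3 dM0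
  have eu31 := e1u31 n1 n2 n3 n4 n5 n6 n7 n8 n9 n10 n11 q3 q4 q5 q6 q7 q8 q9 hM hC dA3 dC3 dh3 dL1
  have ew31 := e1w31 n1 n2 n3 n4 n5 n6 n7 n8 n9 n10 n11 q3 q4 q5 q6 q7 q8 q9 hM hC dA3 dh3 dc dM1
  have eu32 := e1u32 n1 n2 n3 n4 n5 n6 n7 n8 n9 n10 n11 q3 q4 q5 q6 q7 q8 q9 hM hC dB dC3 dc dkn dML
  have ew32 := e1w32 n1 n2 n3 n4 n5 n6 n7 n8 n9 n10 n11 q3 q4 q5 q6 q7 q8 q9 hM hC dC3 db dc dk4 dkn dMM
  have eu33 := e1u33 n1 n2 n3 n4 n5 n6 n7 n8 n9 n10 n11 q3 q4 q5 q6 q7 q8 q9 hM hC dA2 dB db dk4 dL3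
  have ew33 := e1w33 n1 n2 n3 n4 n5 n6 n7 n8 n9 n10 n11 q3 q4 q5 q6 q7 q8 q9 hM hC dB dh2 db dk4 dM3
  have eu34 := e1u34 n1 n2 n3 n4 n5 n6 n7 n8 n9 n10 n11 q3 q4 q5 q6 q7 q8 q9 hM hC dA2 dg dh2 dk4 dL4
  have ew34 := e1w34 n1 n2 n3 n4 n5 n6 n7 n8 n9 n10 n11 q3 q4 q5 q6 q7 q8 q9 hM hC dA2 dh2 dh5 dk4 dM4
  have eu40 := e1u40 n1 n2 n3 n4 n5 n6 n7 n8 n9 n10 n11 q3 q4 q5 q6 q7 q8 q9 hM hC dA4 dL0
  have ew40 := e1w40 n1 n2 n3 n4 n5 n6 n7 n8 n9 n10 n11 q3 q4 q5 q6 q7 q8 q9 hM hC dh4 dM0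
  have eu41 := e1u41 n1 n2 n3 n4 n5 n6 n7 n8 n9 n10 n11 q3 q4 q5 q6 q7 q8 q9 hM hC dA3 dA4 dh4 dL1
  have ew41 := e1w41 n1 n2 n3 n4 n5 n6 n7 n8 n9 n10 n11 q3 q4 q5 q6 q7 q8 q9 hM hC dA4 dh3 dh4 dM1
  have eu42 := e1u42 n1 n2 n3 n4 n5 n6 n7 n8 n9 n10 n11 q3 q4 q5 q6 q7 q8 q9 hM hC dA2 dA3 dh3 dkn dML
  have ew42 := e1w42 n1 n2 n3 n4 n5 n6 n7 n8 n9 n10 n11 q3 q4 q5 q6 q7 q8 q9 hM hC dA3 dh2 dh3 dk4 dkn dMM
  have eu43 := e1u43 n1 n2 n3 n4 n5 n6 n7 n8 n9 n10 n11 q3 q4 q5 q6 q7 q8 q9 hM hC dA1 dA2 dh2 dk4 dL3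
  have ew43 := e1w43 n1 n2 n3 n4 n5 n6 n7 n8 n9 n10 n11 q3 q4 q5 q6 q7 q8 q9 hM hC dA2 dh1 dh2 dk4 dM3
  have eu44 := e1u44 n1 n2 n3 n4 n5 n6 n7 n8 n9 n10 n11 q3 q4 q5 q6 q7 q8 q9 hM hC dA1 dg dh1 dk4 dL4
  have ew44 := e1w44 n1 n2 n3 n4 n5 n6 n7 n8 n9 n10 n11 q3 q4 q5 q6 q7 q8 q9 hM hC dA1 dh1 dh5 dk4 dM4
  have eu50 := e1u50 n1 n2 n3 n4 n5 n6 n7 n8 n9 n10 n11 q3 q4 q5 q6 q7 q8 q9 hM hC dg dL0
  have ew50 := e1w50 n1 n2 n3 n4 n5 n6 n7 n8 n9 n10 n11 q3 q4 q5 q6 q7 q8 q9 hM hC dh5 dM0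
  have eu51 := e1u51 n1 n2 n3 n4 n5 n6 n7 n8 n9 n10 n11 q3 q4 q5 q6 q7 q8 q9 hM hC dg dh5 dL1
  have ew51 := e1w51 n1 n2 n3 n4 n5 n6 n7 n8 n9 n10 n11 q3 q4 q5 q6 q7 q8 q9 hM hC dg dh5 dM1
  have eu52 := e1u52 n1 n2 n3 n4 n5 n6 n7 n8 n9 n10 n11 q3 q4 q5 q6 q7 q8 q9 hM hC dg dh5 dkn dML
  have ew52 := e1w52 n1 n2 n3 n4 n5 n6 n7 n8 n9 n10 n11 q3 q4 q5 q6 q7 q8 q9 hM hC dg dh5 dk4 dkn dMM
  have eu53 := e1u53 n1 n2 n3 n4 n5 n6 n7 n8 n9 n10 n11 q3 q4 q5 q6 q7 q8 q9 hM hC dg dh5 dk4 dL3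
  have ew53 := e1w53 n1 n2 n3 n4 n5 n6 n7 n8 n9 n10 n11 q3 q4 q5 q6 q7 q8 q9 hM hC dg dh5 dk4 dM3
  have eu54 := e1u54 n1 n2 n3 n4 n5 n6 n7 n8 n9 n10 n11 q3 q4 q5 q6 q7 q8 q9 hM hC dg dh5 dk4 dL4
  have ew54 := e1w54 n1 n2 n3 n4 n5 n6 n7 n8 n9 n10 n11 q3 q4 q5 q6 q7 q8 q9 hM hC dg dh5 dk4 dM4
  have fn0 := e1n0 n1 n2 n3 n4 n5 n6 n7 n8 n9 n10 n11 q3 q4 q5 q6 q7 q8 q9 hM hC dg dL0 dM0
  have fn1 := e1n1 n1 n2 n3 n4 n5 n6 n7 n8 n9 n10 n11 q3 q4 q5 q6 q7 q8 q9 hM hC dL1 dM1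
  have fn2 := e1n2 n1 n2 n3 n4 n5 n6 n7 n8 n9 n10 n11 q3 q4 q5 q6 q7 q8 q9 hM hC dML dMM
  have fn3 := e1n3 n1 n2 n3 n4 n5 n6 n7 n8 n9 n10 n11 q3 q4 q5 q6 q7 q8 q9 hM hC dL3 dM3
  have fn4 := e1n4 n1 n2 n3 n4 n5 n6 n7 n8 n9 n10 n11 q3 q4 q5 q6 q7 q8 q9 hM hC dg dL4 dM4
  have hr3 : r - a ^ 3 ≠ 0 := by
    intro h
    have e1 : (a ^ 3) * (2 * ((a + 1) * (a ^ 2 + 1))) = 0 := by
      linear_combination hC - (r + a ^ 3 + (1 + a) * (1 + a + a ^ 2)) * h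
    have e2 : a ^ 2 + 1 = 0 := by
      have := (mul_eq_zero.1 e1).resolve_left (pow_ne_zero 3 n1)
      have := (mul_eq_zero.1 this).resolve_left n11
      exact (mul_eq_zero.1 this).resolve_left n4'
    exact n8' (by linear_combination h + a * e2)
  have gne : g ≠ 0 := by
    rw [dg]; intro h; exact xg (by linear_combination h)
  have z0 : 1 - L0 - M0 ≠ 0 := by
    intro h
    rw [h, mul_zero] at fn0
    exact mul_ne_zero hr3 gne fn0.symm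
  have z1 : 1 - L1 - M1 ≠ 0 := by
    intro h
    rw [h, mul_zero] at fn1
    exact mul_ne_zero n4 n6 (by linear_combination fn1)
  have z2 : 1 - L2 - M2 ≠ 0 := by
    intro h
    refine mul_ne_zero (pow_ne_zero 2 n1) xk ?_
    linear_combination -fn2 + r * hL2 + r * hM2 + r * M * h
  have z3 : 1 - L3 - M3 ≠ 0 := by
    intro h
    rw [h, mul_zero] at fn3
    exact mul_ne_zero n3 n5 (by linear_combination fn3)
  have z4 : 1 - L4 - M4 ≠ 0 := by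
    intro h
    rw [h, mul_zero] at fn4
    exact mul_ne_zero n9 gne fn4.symm
  have l0 : L0 ≠ 0 := by rw [dL0]; exact mul_ne_zero x0 n3
  have m0 : M0 ≠ 0 := by
    rw [dM0]
    refine div_ne_zero (mul_ne_zero (mul_ne_zero ?_ n3) n2) (mul_ne_zero n9 (pow_ne_zero 3 n1))
    intro h; exact xY (by linear_combination h)
  have l1 : L1 ≠ 0 := by rw [dL1]; exact div_ne_zero n11 (mul_ne_zero n3 n5)
  have m1 : M1 ≠ 0 := by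
    rw [dM1]; exact div_ne_zero (mul_ne_zero (mul_ne_zero n11 n1) n2) (mul_ne_zero n3 n5)
  have l2 : L2 ≠ 0 := by
    rw [dL2, dML]
    refine div_ne_zero (div_ne_zero (mul_ne_zero ?_ n6) (mul_ne_zero n11 n1)) n10
    intro h; exact xN (by linear_combination h)
  have m2 : M2 ≠ 0 := by
    rw [dM2, dMM]
    refine div_ne_zero (div_ne_zero (mul_ne_zero (mul_ne_zero ?_ n6) (pow_ne_zero 2 n1))
      (mul_ne_zero n11 n2)) n10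
    intro h; exact xN (by linear_combination -h)
  have l3 : L3 ≠ 0 := by rw [dL3]; exact div_ne_zero n11 (mul_ne_zero n4 n6)
  have m3 : M3 ≠ 0 := by
    rw [dM3]; exact div_ne_zero (mul_ne_zero (mul_ne_zero n11 n1) n2) (mul_ne_zero n4 n6)
  have l4 : L4 ≠ 0 := by
    rw [dL4]
    refine div_ne_zero (mul_ne_zero (mul_ne_zero (mul_ne_zero ?_ n4) n3) n6)
      (mul_ne_zero (mul_ne_zero (mul_ne_zero n8 n7) n11) (pow_ne_zero 2 n1))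
    intro h; exact xY (by linear_combination -h)
  have m4 : M4 ≠ 0 := by
    rw [dM4]
    refine div_ne_zero (mul_ne_zero (mul_ne_zero (mul_ne_zero (mul_ne_zero (mul_ne_zero
      (neg_ne_zero.2 x0) n9) n4) n3) n6) n2)
      (mul_ne_zero (mul_ne_zero (mul_ne_zero n8 n7) n11) n1)
  have vu10 : A1 = L0 * (a) + (1 - L0) * (1) := by
    linear_combination eu10
  have vw10 : a * h1 = (1 - M0) * (a) + M0 * (1) := by
    linear_combination ew10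
  have vu11 : A2 = L1 * (a * A1) + (1 - L1) * (a * h1) := by
    linear_combination eu11
  have vw11 : a ^ 2 * h2 = (1 - M1) * (a * A1) + M1 * (a * h1) := by
    linear_combination ew11
  have vu12 : A3 = L2 * (a * A2) + (1 - L2) * (a ^ 2 * h2) := by
    apply mul_left_cancel₀ n10
    linear_combination eu12 - ((a * A2) - (a ^ 2 * h2)) * hL2
  have vw12 : a ^ 3 * h3 = (1 - M2) * (a * A2) + M2 * (a ^ 2 * h2) := by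
    apply mul_left_cancel₀ n10
    linear_combination ew12 + ((a * A2) - (a ^ 2 * h2)) * hM2
  have vu13 : A4 = L3 * (a * A3) + (1 - L3) * (a ^ 3 * h3) := by
    linear_combination eu13
  have vw13 : a ^ 4 * h4 = (1 - M3) * (a * A3) + M3 * (a ^ 3 * h3) := by
    linear_combination ew13
  have vu14 : g = L4 * (a * A4) + (1 - L4) * (a ^ 4 * h4) := by
    linear_combination eu14
  have vw14 : a ^ 5 * h5 = (1 - M4) * (a * A4) + M4 * (a ^ 4 * h4) := by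
    linear_combination ew14
  have vu20 : A2 = L0 * ((-a)) + (1 - L0) * (1) := by
    linear_combination eu20
  have vw20 : (-a) * h2 = (1 - M0) * ((-a)) + M0 * (1) := by
    linear_combination ew20
  have vu21 : B = L1 * ((-a) * A2) + (1 - L1) * ((-a) * h2) := by
    linear_combination eu21
  have vw21 : (-a) ^ 2 * b = (1 - M1) * ((-a) * A2) + M1 * ((-a) * h2) := by
    linear_combination ew21
  have vu22 : C3 = L2 * ((-a) * B) + (1 - L2) * ((-a) ^ 2 * b) := by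
    apply mul_left_cancel₀ n10
    linear_combination eu22 - (((-a) * B) - ((-a) ^ 2 * b)) * hL2
  have vw22 : (-a) ^ 3 * c = (1 - M2) * ((-a) * B) + M2 * ((-a) ^ 2 * b) := by
    apply mul_left_cancel₀ n10
    linear_combination ew22 + (((-a) * B) - ((-a) ^ 2 * b)) * hM2
  have vu23 : A3 = L3 * ((-a) * C3) + (1 - L3) * ((-a) ^ 3 * c) := by
    linear_combination eu23
  have vw23 : (-a) ^ 4 * h3 = (1 - M3) * ((-a) * C3) + M3 * ((-a) ^ 3 * c) := by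
    linear_combination ew23
  have vu24 : g = L4 * ((-a) * A3) + (1 - L4) * ((-a) ^ 4 * h3) := by
    linear_combination eu24
  have vw24 : (-a) ^ 5 * h5 = (1 - M4) * ((-a) * A3) + M4 * ((-a) ^ 4 * h3) := by
    linear_combination ew24
  have vu30 : A3 = L0 * ((-r)) + (1 - L0) * (1) := by
    linear_combination eu30
  have vw30 : (-r) * h3 = (1 - M0) * ((-r)) + M0 * (1) := by
    linear_combination ew30
  have vu31 : C3 = L1 * ((-r) * A3) + (1 - L1) * ((-r) * h3) := by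
    linear_combination eu31
  have vw31 : (-r) ^ 2 * c = (1 - M1) * ((-r) * A3) + M1 * ((-r) * h3) := by
    linear_combination ew31
  have vu32 : (k0 * B) = L2 * ((-r) * C3) + (1 - L2) * ((-r) ^ 2 * c) := by
    apply mul_left_cancel₀ n10
    linear_combination eu32 - (((-r) * C3) - ((-r) ^ 2 * c)) * hL2 + B * hk0
  have vw32 : (-r) ^ 3 * (k0 * (k4 * b)) = (1 - M2) * ((-r) * C3) + M2 * ((-r) ^ 2 * c) := by
    apply mul_left_cancel₀ n10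
    linear_combination ew32 + (((-r) * C3) - ((-r) ^ 2 * c)) * hM2 + (-r) ^ 3 * (k4 * b) * hk0
  have vu33 : (k0 * A2) = L3 * ((-r) * (k0 * B)) + (1 - L3) * ((-r) ^ 3 * (k0 * (k4 * b))) := by
    linear_combination k0 * eu33
  have vw33 : (-r) ^ 4 * (k0 * (k4 * h2)) = (1 - M3) * ((-r) * (k0 * B)) + M3 * ((-r) ^ 3 * (k0 * (k4 * b))) := by
    linear_combination k0 * ew33
  have vu34 : (k0 * g) = L4 * ((-r) * (k0 * A2)) + (1 - L4) * ((-r) ^ 4 * (k0 * (k4 * h2))) := by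
    linear_combination k0 * eu34
  have vw34 : (-r) ^ 5 * (k0 * (k4 * h5)) = (1 - M4) * ((-r) * (k0 * A2)) + M4 * ((-r) ^ 4 * (k0 * (k4 * h2))) := by
    linear_combination k0 * ew34
  have vu40 : A4 = L0 * (r) + (1 - L0) * (1) := by
    linear_combination eu40
  have vw40 : r * h4 = (1 - M0) * (r) + M0 * (1) := by
    linear_combination ew40
  have vu41 : A3 = L1 * (r * A4) + (1 - L1) * (r * h4) := by
    linear_combination eu41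
  have vw41 : r ^ 2 * h3 = (1 - M1) * (r * A4) + M1 * (r * h4) := by
    linear_combination ew41
  have vu42 : (k0 * A2) = L2 * (r * A3) + (1 - L2) * (r ^ 2 * h3) := by
    apply mul_left_cancel₀ n10
    linear_combination eu42 - ((r * A3) - (r ^ 2 * h3)) * hL2 + A2 * hk0
  have vw42 : r ^ 3 * (k0 * (k4 * h2)) = (1 - M2) * (r * A3) + M2 * (r ^ 2 * h3) := by
    apply mul_left_cancel₀ n10
    linear_combination ew42 + ((r * A3) - (r ^ 2 * h3)) * hM2 + r ^ 3 * (k4 * h2) * hk0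
  have vu43 : (k0 * A1) = L3 * (r * (k0 * A2)) + (1 - L3) * (r ^ 3 * (k0 * (k4 * h2))) := by
    linear_combination k0 * eu43
  have vw43 : r ^ 4 * (k0 * (k4 * h1)) = (1 - M3) * (r * (k0 * A2)) + M3 * (r ^ 3 * (k0 * (k4 * h2))) := by
    linear_combination k0 * ew43
  have vu44 : (k0 * g) = L4 * (r * (k0 * A1)) + (1 - L4) * (r ^ 4 * (k0 * (k4 * h1))) := by
    linear_combination k0 * eu44
  have vw44 : r ^ 5 * (k0 * (k4 * h5)) = (1 - M4) * (r * (k0 * A1)) + M4 * (r ^ 4 * (k0 * (k4 * h1))) := by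
    linear_combination k0 * ew44
  have vu50 : g = L0 * ((a * r)) + (1 - L0) * (1) := by
    linear_combination eu50
  have vw50 : (a * r) * h5 = (1 - M0) * ((a * r)) + M0 * (1) := by
    linear_combination ew50
  have vu51 : g = L1 * ((a * r) * g) + (1 - L1) * ((a * r) * h5) := by
    linear_combination eu51
  have vw51 : (a * r) ^ 2 * h5 = (1 - M1) * ((a * r) * g) + M1 * ((a * r) * h5) := by
    linear_combination ew51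
  have vu52 : (k0 * g) = L2 * ((a * r) * g) + (1 - L2) * ((a * r) ^ 2 * h5) := by
    apply mul_left_cancel₀ n10
    linear_combination eu52 - (((a * r) * g) - ((a * r) ^ 2 * h5)) * hL2 + g * hk0
  have vw52 : (a * r) ^ 3 * (k0 * (k4 * h5)) = (1 - M2) * ((a * r) * g) + M2 * ((a * r) ^ 2 * h5) := by
    apply mul_left_cancel₀ n10
    linear_combination ew52 + (((a * r) * g) - ((a * r) ^ 2 * h5)) * hM2 + (a * r) ^ 3 * (k4 * h5) * hk0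
  have vu53 : (k0 * g) = L3 * ((a * r) * (k0 * g)) + (1 - L3) * ((a * r) ^ 3 * (k0 * (k4 * h5))) := by
    linear_combination k0 * eu53
  have vw53 : (a * r) ^ 4 * (k0 * (k4 * h5)) = (1 - M3) * ((a * r) * (k0 * g)) + M3 * ((a * r) ^ 3 * (k0 * (k4 * h5))) := by
    linear_combination k0 * ew53
  have vu54 : (k0 * (g * g)) = L4 * ((a * r) * (k0 * g)) + (1 - L4) * ((a * r) ^ 4 * (k0 * (k4 * h5))) := by
    linear_combination k0 * eu54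
  have vw54 : (a * r) ^ 5 * (k0 * (k4 * (h5 * h5))) = (1 - M4) * ((a * r) * (k0 * g)) + M4 * ((a * r) ^ 4 * (k0 * (k4 * h5))) := by
    linear_combination k0 * ew54
  have c1 : a * g = a ^ 5 * h5 := by linear_combination -a * hh5
  have c2 : -a * g = (-a) ^ 5 * h5 := by linear_combination a * hh5
  have c3 : -r * (k0 * g) = (-r) ^ 5 * (k0 * (k4 * h5)) := by
    linear_combination r * k0 * h5 * hk4 + r * k0 * hh5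
  have c4 : r * (k0 * g) = r ^ 5 * (k0 * (k4 * h5)) := by
    linear_combination -r * k0 * h5 * hk4 - r * k0 * hh5
  have c5 : a * r * (k0 * (g * g)) = (a * r) ^ 5 * (k0 * (k4 * (h5 * h5))) := by
    linear_combination -a ^ 5 * r * k0 * h5 ^ 2 * hk4 - a * r * k0 * (a ^ 4 * h5 + g) * hh5
  have d01 : (1 : F) ≠ a := fun h => n3' (by linear_combination -h)
  have d02 : (1 : F) ≠ -a := fun h => n4' (by linear_combination h)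
  have d12 : (a : F) ≠ -a := fun h => mul_ne_zero n11 n1 (by linear_combination h)
  have d03 : (1 : F) ≠ -r := fun h => n6' (by linear_combination h)
  have d13 : (a : F) ≠ -r := fun h => n8' (by linear_combination h)
  have d23 : (-a : F) ≠ -r := fun h => n7' (by linear_combination h)
  have d04 : (1 : F) ≠ r := fun h => n5' (by linear_combination -h)
  have d14 : (a : F) ≠ r := fun h => n7' (by linear_combination -h)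
  have d24 : (-a : F) ≠ r := fun h => n8' (by linear_combination -h)
  have d34 : (-r : F) ≠ r := fun h => mul_ne_zero n11 n2 (by linear_combination -h)
  have d05 : (1 : F) ≠ a * r := fun h => n9' (by linear_combination -h)
  have d15 : (a : F) ≠ a * r := fun h => mul_ne_zero n1 n5' (by linear_combination -h)
  have d25 : (-a : F) ≠ a * r := fun h => mul_ne_zero n1 n6' (by linear_combination -h)
  have d35 : (-r : F) ≠ a * r := fun h => mul_ne_zero n2 n4' (by linear_combination -h)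
  have d45 : (r : F) ≠ a * r := fun h => mul_ne_zero n2 n3' (by linear_combination -h)
  obtain ⟨gg, g1, g2, g3, g4⟩ := mk5_sym (t1 := a) (t2 := -a) (t3 := -r) (t4 := r) (t5 := a * r)
    (L0 := L0) (L1 := L1) (L2 := L2) (L3 := L3) (L4 := L4)
    (M0 := M0) (M1 := M1) (M2 := M2) (M3 := M3) (M4 := M4)
    (G11 := A1) (H11 := h1) (G12 := A2) (H12 := h2) (G13 := A3) (H13 := h3) (G14 := A4) (H14 :=
    h4) (G15 := g) (H15 := h5) (G22 := B) (H22 := b) (G23 := C3) (H23 := c) (G24 := A3) (H24 :=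
    h3) (G25 := g) (H25 := h5) (G33 := (k0 * B)) (H33 := (k0 * (k4 * b))) (G34 := (k0 * A2)) (H34
    := (k0 * (k4 * h2))) (G35 := (k0 * g)) (H35 := (k0 * (k4 * h5))) (G44 := (k0 * A1)) (H44 :=
    (k0 * (k4 * h1))) (G45 := (k0 * g)) (H45 := (k0 * (k4 * h5))) (G55 := (k0 * (g * g))) (H55 :=
    (k0 * (k4 * (h5 * h5))))
    n1 (neg_ne_zero.2 n1) (neg_ne_zero.2 n2) n2 (mul_ne_zero n1 n2)
    d01 d02 d12 d03 d13 d23 d04 d14 d24 d34 d05 d15 d25 d35 d45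
    l0 m0 z0 l1 m1 z1 l2 m2 z2 l3 m3 z3 l4 m4 z4
    vu10 vw10 vu11 vw11 vu12 vw12 vu13 vw13 vu14 vw14 vu20 vw20 vu21 vw21 vu22 vw22 vu23 vw23 vu24
    vw24 vu30 vw30 vu31 vw31 vu32 vw32 vu33 vw33 vu34 vw34 vu40 vw40 vu41 vw41 vu42 vw42 vu43 vw43
    vu44 vw44 vu50 vw50 vu51 vw51 vu52 vw52 vu53 vw53 vu54 vw54
    c1 c2 c3 c4 c5
  refine ⟨gg, g1, g2, g3, ?_⟩
  rw [g4]
  have y0 : L0 = (a - 1) * x := by rw [dL0, q3]; ring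
  have y1 : L1 = 2 / ((a - 1) * (r - 1)) := by rw [dL1, q3, q5]
  have y2 : L2 = (r + 1) * ((a + 1) - (a * r - 1) * x) /
      (2 * a * (r + (a + 1) * (r + a) * x)) := by
    rw [dL2, dML, div_div, hM, q6]
    congr 1
    ring
  have y3 : L3 = 2 / ((a + 1) * (r + 1)) := by rw [dL3, q4, q6]
  have y4 : L4 = -((r + 1) * (a ^ 2 - 1) * ((a + 1) * (a ^ 2 + 1) - (a * r - 1) * x)) /
      (2 * a ^ 2 * (r ^ 2 - a ^ 2)) := by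
    rw [dL4, q3, q4, q6, q7, q8]
    congr 1 <;> ring
  rw [y0, y1, y2, y3, y4]

end Pool.Agent.Helper76.IP
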