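import Pool.Agent.Helper76.IP.E1Elim
import Pool.Agent.Helper76.IP.E1Mk

/-!
TH-P, phase 2: every member of the list E1 is a parameter array of dimension 6.
-/

namespace Pool.Agent.Helper76.IP

open Pool.Agent.Helper54.IP

variable {F : Type*} [Field F]

theorem e1_isPA {a r : F} {t s f : ℕ → F} (h : E1L a r t s f) : IsPA 5 t s f := by
  have ha1 : a - 1 ≠ 0 := sub_ne_zero.2 h.a1
  have ha2 : a + 1 ≠ 0 := fun e => h.a1' (by linear_combination e)
  have hr1 : r - 1 ≠ 0 := sub_ne_zero.2 h.r1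
  have hr2 : r + 1 ≠ 0 := fun e => h.r1' (by linear_combination e)
  have hra : r - a ≠ 0 := sub_ne_zero.2 h.ar
  have hra' : r + a ≠ 0 := fun e => h.ar' (by linear_combination e)
  have har : a * r - 1 ≠ 0 := sub_ne_zero.2 h.ar1
  have hrr : r ^ 2 - a ^ 2 ≠ 0 := by
    have := mul_ne_zero hra hra'
    intro e; exact this (by linear_combination e)
  have h20 := h.two
  have ha := h.a0
  have hr := h.r0
  obtain ⟨x, hx⟩ : ∃ x, f 1 * x = 1 := ⟨(f 1)⁻¹, mul_inv_cancel₀ h.n1⟩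
  have x0 : x ≠ 0 := right_ne_zero_of_mul (by rw [hx]; exact one_ne_zero)
  have k1 : r + (a + 1) * (r + a) * x ≠ 0 := by
    intro e
    exact h.n3 (by linear_combination f 1 * e - (a + 1) * (r + a) * hx)
  have k2 : (a + 1) - (a * r - 1) * x ≠ 0 := by
    intro e
    exact h.n2 (by linear_combination f 1 * e + (a * r - 1) * hx)
  have k3 : (a + 1) * (a ^ 2 + 1) - (a * r - 1) * x ≠ 0 := by
    intro e
    exact h.n4 (by linear_combination f 1 * e + (a * r - 1) * hx)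
  have k4 : 1 + (1 - a + a ^ 3 + a ^ 4 + r * (1 + a + 4 * a ^ 2 + 3 * a ^ 3 + a ^ 4)) * x ≠ 0 := by
    intro e
    exact h.n6 (by linear_combination (a + 1) * (a ^ 2 + 1) * (f 1 * e
      - (1 - a + a ^ 3 + a ^ 4 + r * (1 + a + 4 * a ^ 2 + 3 * a ^ 3 + a ^ 4)) * hx)
      - (a ^ 4 + 2 * a ^ 3 + 2 * a ^ 2 - a * r + a + 1) * h.curve)
  have k5 : 1 + (a - 1) * (a * r - 1) * x ≠ 0 := by
    intro e
    exact h.n7 (by linear_combination f 1 * e - (a - 1) * (a * r - 1) * hx)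
  obtain ⟨g, g1, g2, g3, g4⟩ := e1_mk h.curve ha hr ha1 ha2 hr1 hr2 hra hra' har k1 h20 x0 k2 k3
    k4 k5
  refine ⟨g, g1, ?_, ?_, ?_⟩
  · intro i hi
    rw [g2]
    interval_cases i <;> simp only [sq6, h.t0, h.t1, h.t2, h.t3, h.t4, h.t5]
  · intro i hi
    rw [g3]
    interval_cases i <;> simp only [sq6, h.s0, h.s1, h.s2, h.s3, h.s4, h.s5]
  · intro k hk
    rw [g3, g4]
    have f2 := h.f2
    have f3 := h.f3
    have f4 := h.f4
    have f5 := h.f5
    interval_cases k <;> simp only [Finset.prod_range_succ, Finset.range_zero, Finset.prod_empty,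
      one_mul, sq6, sq5, zero_add, sub_sub_cancel]
    · linear_combination (a - 1) * hx
    · rw [f2]
      field_simp
      ring
    · have e3 : f 3 * ((a + 1) * ((a + 1) - (a * r - 1) * x)) =
          -((r - a) * (r + a) * (r + (a + 1) * (r + a) * x)) := by
        linear_combination x * f3 - (f 3 * (a + 1) ^ 2 + (r - a) * (r + a) * r) * hx
      have e4 : (r + 1) * (a + 1 - (a * r - 1) * x) / (2 * a * (r + (a + 1) * (r + a) * x)) *
          (2 * a * (r + (a + 1) * (r + a) * x)) = (r + 1) * (a + 1 - (a * r - 1) * x) :=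
        div_mul_cancel₀ _ (mul_ne_zero (mul_ne_zero h20 ha) k1)
      apply mul_right_cancel₀ (mul_ne_zero (mul_ne_zero h20 ha) k1)
      linear_combination (f 3 * (2 * a * (a + 1))) * e4 + 2 * a * (r + 1) * e3
    · rw [f4]
      field_simp
      ring
    · have e5 : f 5 * ((a + 1) * (a ^ 2 + 1) - (a * r - 1) * x) = -(a ^ 4 * r * (a * r - 1)) := by
        linear_combination x * f5 - (f 5 * (a + 1) * (a ^ 2 + 1) + a ^ 4 * r * (a * r - 1)) * hx
      have hd : 2 * a ^ 2 * (r ^ 2 - a ^ 2) ≠ 0 :=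
        mul_ne_zero (mul_ne_zero h20 (pow_ne_zero 2 ha)) hrr
      have e4 : -((r + 1) * (a ^ 2 - 1) * ((a + 1) * (a ^ 2 + 1) - (a * r - 1) * x)) /
          (2 * a ^ 2 * (r ^ 2 - a ^ 2)) * (2 * a ^ 2 * (r ^ 2 - a ^ 2)) =
          -((r + 1) * (a ^ 2 - 1) * ((a + 1) * (a ^ 2 + 1) - (a * r - 1) * x)) :=
        div_mul_cancel₀ _ hd
      apply mul_right_cancel₀ hd
      linear_combination (f 5 * ((r - 1) * (r - a) * (r + a) * (2 * r))) * e4
        - (r ^ 2 - 1) * (r ^ 2 - a ^ 2) * (2 * r) * (a ^ 2 - 1) * e5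

end Pool.Agent.Helper76.IP
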