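import Mathlib

/-!
TH-P, phase 2, family D5 (reversed form): cells of the table (generated).
-/

namespace Pool.Agent.Helper76.IP

set_option linter.unusedVariables false
set_option linter.unusedSimpArgs false
set_option maxRecDepth 100000

variable {F : Type*} [Field F]

theorem d5u10 {a b c d A B C D BA CA CB DA DB DC E W V S P Z X Y p q L0 G11 : F}
    (na : a ≠ 0) (nb : b ≠ 0) (nc : c ≠ 0) (nd : d ≠ 0) (nA : A ≠ 0) (nB : B ≠ 0) (nC : C ≠ 0) (nD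
    : D ≠ 0) (nBA : BA ≠ 0) (nCA : CA ≠ 0) (nCB : CB ≠ 0) (nDA : DA ≠ 0) (nDB : DB ≠ 0) (nDC : DC
    ≠ 0) (nE : E ≠ 0) (nZ : Z ≠ 0)
    (hA : A = a - 1) (hB : B = b - 1) (hC : C = c - 1) (hD : D = d - 1) (hBA : BA = b - a) (hCA :
    CA = c - a) (hCB : CB = c - b) (hDA : DA = d - a) (hDB : DB = d - b) (hDC : DC = d - c) (hE :
    E = a * c + d) (hW : W = a * c + a * d + d) (hV : V = c + a * c + d) (hS : S = c + d) (hP : P
    = a + 1) (hZ : Z = (d - 1) * (a * c + d) + 2 * d * (c - a)) (hX : X = a * b * c * d + b * c *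
    d + a * c * d - a * b * d - a * b * c + a * d ^ 2 - a ^ 2 * d - a * d) (hY : Y = a * b * c * d
    + c ^ 2 * d + c * d ^ 2 + b * c * d - a * c * d - a * b * d - a * b * c - c * d)
    (hp : p = X / Z) (hq : q = Y / Z)
    (Q0 : (1 - b) * (d - a ^ 2 * c) + (a - c) * (d - a * b) = 0)
    (R0 : (d - b) * (d ^ 2 - a * c ^ 2) + d * (c - a) * (d - b * c) = 0)
    (jL0 : L0 = DC * W / (c * D * E))
    (jG11 : G11 = 1 + A * DC * W / (c * D * E)) :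
    G11 = L0 * (a) + (1 - L0) * (1) := by
  rw [jL0, jG11]
  field_simp
  try simp only [hA, hB, hC, hD, hBA, hCA, hCB, hDA, hDB, hDC, hE, hW, hV, hS, hP, hZ, hX, hY]
  try ring1

theorem d5w10 {a b c d A B C D BA CA CB DA DB DC E W V S P Z X Y p q M0 H11 : F}
    (na : a ≠ 0) (nb : b ≠ 0) (nc : c ≠ 0) (nd : d ≠ 0) (nA : A ≠ 0) (nB : B ≠ 0) (nC : C ≠ 0) (nD
    : D ≠ 0) (nBA : BA ≠ 0) (nCA : CA ≠ 0) (nCB : CB ≠ 0) (nDA : DA ≠ 0) (nDB : DB ≠ 0) (nDC : DC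
    ≠ 0) (nE : E ≠ 0) (nZ : Z ≠ 0)
    (hA : A = a - 1) (hB : B = b - 1) (hC : C = c - 1) (hD : D = d - 1) (hBA : BA = b - a) (hCA :
    CA = c - a) (hCB : CB = c - b) (hDA : DA = d - a) (hDB : DB = d - b) (hDC : DC = d - c) (hE :
    E = a * c + d) (hW : W = a * c + a * d + d) (hV : V = c + a * c + d) (hS : S = c + d) (hP : P
    = a + 1) (hZ : Z = (d - 1) * (a * c + d) + 2 * d * (c - a)) (hX : X = a * b * c * d + b * c *
    d + a * c * d - a * b * d - a * b * c + a * d ^ 2 - a ^ 2 * d - a * d) (hY : Y = a * b * c * d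
    + c ^ 2 * d + c * d ^ 2 + b * c * d - a * c * d - a * b * d - a * b * c - c * d)
    (hp : p = X / Z) (hq : q = Y / Z)
    (Q0 : (1 - b) * (d - a ^ 2 * c) + (a - c) * (d - a * b) = 0)
    (R0 : (d - b) * (d ^ 2 - a * c ^ 2) + d * (c - a) * (d - b * c) = 0)
    (jM0 : M0 = DC * V / (D * E))
    (jH11 : H11 = 1 - A * DC * V / (a * D * E)) :
    a * H11 = (1 - M0) * (a) + M0 * (1) := by
  rw [jM0, jH11]
  field_simp
  try simp only [hA, hB, hC, hD, hBA, hCA, hCB, hDA, hDB, hDC, hE, hW, hV, hS, hP, hZ, hX, hY]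
  try ring1

theorem d5u11 {a b c d A B C D BA CA CB DA DB DC E W V S P Z X Y p q L1 G11 G12 H11 : F}
    (na : a ≠ 0) (nb : b ≠ 0) (nc : c ≠ 0) (nd : d ≠ 0) (nA : A ≠ 0) (nB : B ≠ 0) (nC : C ≠ 0) (nD
    : D ≠ 0) (nBA : BA ≠ 0) (nCA : CA ≠ 0) (nCB : CB ≠ 0) (nDA : DA ≠ 0) (nDB : DB ≠ 0) (nDC : DC
    ≠ 0) (nE : E ≠ 0) (nZ : Z ≠ 0)
    (hA : A = a - 1) (hB : B = b - 1) (hC : C = c - 1) (hD : D = d - 1) (hBA : BA = b - a) (hCA :
    CA = c - a) (hCB : CB = c - b) (hDA : DA = d - a) (hDB : DB = d - b) (hDC : DC = d - c) (hE :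
    E = a * c + d) (hW : W = a * c + a * d + d) (hV : V = c + a * c + d) (hS : S = c + d) (hP : P
    = a + 1) (hZ : Z = (d - 1) * (a * c + d) + 2 * d * (c - a)) (hX : X = a * b * c * d + b * c *
    d + a * c * d - a * b * d - a * b * c + a * d ^ 2 - a ^ 2 * d - a * d) (hY : Y = a * b * c * d
    + c ^ 2 * d + c * d ^ 2 + b * c * d - a * c * d - a * b * d - a * b * c - c * d)
    (hp : p = X / Z) (hq : q = Y / Z)
    (Q0 : (1 - b) * (d - a ^ 2 * c) + (a - c) * (d - a * b) = 0)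
    (R0 : (d - b) * (d ^ 2 - a * c ^ 2) + d * (c - a) * (d - b * c) = 0)
    (jL1 : L1 = c * d * CB * DB / (b ^ 2 * DC * Z))
    (jG11 : G11 = 1 + A * DC * W / (c * D * E))
    (jG12 : G12 = 1 + A * DB * W / (b * D * E))
    (jH11 : H11 = 1 - A * DC * V / (a * D * E)) :
    G12 = L1 * (a * G11) + (1 - L1) * (a * H11) := by
  have e : C * ((G12) - (L1 * (a * G11) + (1 - L1) * (a * H11))) = A * ((-b * c ^ 3 * d - b * c ^ 3 - b
      * c ^ 2 * d - 2 * b * c * d ^ 2 + b * d ^ 2 + c ^ 3 * d + 2 * c ^ 2 * d ^ 2 + c * d ^ 3) *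
      ((1 - b) * (d - a ^ 2 * c) + (a - c) * (d - a * b)) + (2 * a * b * c ^ 2 + a * b * c * d - 2
      * a * b * c - a * b * d - a * c ^ 2 - a * c * d + 2 * b * c ^ 2 + 2 * b * c * d - b * c - b
      * d + c ^ 2 * d - c * d) * ((d - b) * (d ^ 2 - a * c ^ 2) + d * (c - a) * (d - b * c))) / (b
      ^ 2 * D * Z * E) := by
    rw [jL1, jG11, jG12, jH11]
    field_simp
    simp only [hA, hB, hC, hD, hBA, hCA, hCB, hDA, hDB, hDC, hE, hW, hV, hS, hP, hZ, hX, hY]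
    ring1
  rw [Q0, R0] at e
  have e2 := (mul_eq_zero.1 (e.trans (by ring))).resolve_left nC
  exact sub_eq_zero.1 e2

theorem d5w11 {a b c d A B C D BA CA CB DA DB DC E W V S P Z X Y p q M1 G11 H11 H12 : F}
    (na : a ≠ 0) (nb : b ≠ 0) (nc : c ≠ 0) (nd : d ≠ 0) (nA : A ≠ 0) (nB : B ≠ 0) (nC : C ≠ 0) (nD
    : D ≠ 0) (nBA : BA ≠ 0) (nCA : CA ≠ 0) (nCB : CB ≠ 0) (nDA : DA ≠ 0) (nDB : DB ≠ 0) (nDC : DC
    ≠ 0) (nE : E ≠ 0) (nZ : Z ≠ 0)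
    (hA : A = a - 1) (hB : B = b - 1) (hC : C = c - 1) (hD : D = d - 1) (hBA : BA = b - a) (hCA :
    CA = c - a) (hCB : CB = c - b) (hDA : DA = d - a) (hDB : DB = d - b) (hDC : DC = d - c) (hE :
    E = a * c + d) (hW : W = a * c + a * d + d) (hV : V = c + a * c + d) (hS : S = c + d) (hP : P
    = a + 1) (hZ : Z = (d - 1) * (a * c + d) + 2 * d * (c - a)) (hX : X = a * b * c * d + b * c *
    d + a * c * d - a * b * d - a * b * c + a * d ^ 2 - a ^ 2 * d - a * d) (hY : Y = a * b * c * d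
    + c ^ 2 * d + c * d ^ 2 + b * c * d - a * c * d - a * b * d - a * b * c - c * d)
    (hp : p = X / Z) (hq : q = Y / Z)
    (Q0 : (1 - b) * (d - a ^ 2 * c) + (a - c) * (d - a * b) = 0)
    (R0 : (d - b) * (d ^ 2 - a * c ^ 2) + d * (c - a) * (d - b * c) = 0)
    (jM1 : M1 = a * d * CB * DB / (DC * Z))
    (jG11 : G11 = 1 + A * DC * W / (c * D * E))
    (jH11 : H11 = 1 - A * DC * V / (a * D * E))
    (jH12 : H12 = 1 - A * DB * V / (a * D * E)) :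
    a ^ 2 * H12 = (1 - M1) * (a * G11) + M1 * (a * H11) := by
  have e : C * ((a ^ 2 * H12) - ((1 - M1) * (a * G11) + M1 * (a * H11))) = a * A * ((b * c ^ 2 + 2 * b
      * c * d + b * d ^ 2 + c ^ 3 * d - 2 * c ^ 2 * d - c * d ^ 2 - d ^ 3 - d ^ 2) * ((1 - b) * (d
      - a ^ 2 * c) + (a - c) * (d - a * b)) + (-a * b * c + a * b - a * c ^ 2 - a * c * d + 2 * a
      * c + 2 * a * d - b * c - b * d - c ^ 2 - 2 * c * d + c + 2 * d) * ((d - b) * (d ^ 2 - a * c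
      ^ 2) + d * (c - a) * (d - b * c))) / (D * c * Z * E) := by
    rw [jM1, jG11, jH11, jH12]
    field_simp
    simp only [hA, hB, hC, hD, hBA, hCA, hCB, hDA, hDB, hDC, hE, hW, hV, hS, hP, hZ, hX, hY]
    ring1
  rw [Q0, R0] at e
  have e2 := (mul_eq_zero.1 (e.trans (by ring))).resolve_left nC
  exact sub_eq_zero.1 e2

theorem d5u12 {a b c d A B C D BA CA CB DA DB DC E W V S P Z X Y p q L2 G12 G13 H12 : F}
    (na : a ≠ 0) (nb : b ≠ 0) (nc : c ≠ 0) (nd : d ≠ 0) (nA : A ≠ 0) (nB : B ≠ 0) (nC : C ≠ 0) (nD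
    : D ≠ 0) (nBA : BA ≠ 0) (nCA : CA ≠ 0) (nCB : CB ≠ 0) (nDA : DA ≠ 0) (nDB : DB ≠ 0) (nDC : DC
    ≠ 0) (nE : E ≠ 0) (nZ : Z ≠ 0)
    (hA : A = a - 1) (hB : B = b - 1) (hC : C = c - 1) (hD : D = d - 1) (hBA : BA = b - a) (hCA :
    CA = c - a) (hCB : CB = c - b) (hDA : DA = d - a) (hDB : DB = d - b) (hDC : DC = d - c) (hE :
    E = a * c + d) (hW : W = a * c + a * d + d) (hV : V = c + a * c + d) (hS : S = c + d) (hP : P
    = a + 1) (hZ : Z = (d - 1) * (a * c + d) + 2 * d * (c - a)) (hX : X = a * b * c * d + b * c *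
    d + a * c * d - a * b * d - a * b * c + a * d ^ 2 - a ^ 2 * d - a * d) (hY : Y = a * b * c * d
    + c ^ 2 * d + c * d ^ 2 + b * c * d - a * c * d - a * b * d - a * b * c - c * d)
    (hp : p = X / Z) (hq : q = Y / Z)
    (Q0 : (1 - b) * (d - a ^ 2 * c) + (a - c) * (d - a * b) = 0)
    (R0 : (d - b) * (d ^ 2 - a * c ^ 2) + d * (c - a) * (d - b * c) = 0)
    (jL2 : L2 = -(b * d * BA * CA * DA) / (a ^ 2 * CB * DB * Z))
    (jG12 : G12 = 1 + A * DB * W / (b * D * E))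
    (jG13 : G13 = 1 + A * DA * W / (a * D * E))
    (jH12 : H12 = 1 - A * DB * V / (a * D * E)) :
    G13 = L2 * (a * G12) + (1 - L2) * (a ^ 2 * H12) := by
  have e : (G13) - (L2 * (a * G12) + (1 - L2) * (a ^ 2 * H12)) = A * ((-a ^ 2 * b ^ 2 * c * d + a ^ 2 *
      b * c ^ 2 * d - a ^ 2 * b * c ^ 2 + a ^ 2 * b * c * d ^ 2 - a ^ 2 * b * c * d - a ^ 2 * b *
      d ^ 2 - a ^ 2 * c ^ 2 * d ^ 2 + a ^ 2 * c ^ 2 * d + a ^ 2 * c * d ^ 2 + a ^ 2 * d ^ 2 - 2 *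
      a * b ^ 2 * c * d - 3 * a * b ^ 2 * d ^ 2 + 2 * a * b * c ^ 2 * d + 5 * a * b * c * d ^ 2 +
      2 * a * b * d ^ 3 + a * b * d ^ 2 - 2 * a * c ^ 2 * d ^ 2 - 2 * a * c * d ^ 3 - a * c * d ^
      2 + b ^ 2 * c * d ^ 2 - b ^ 2 * d ^ 2 + b * c * d ^ 2 + 2 * b * d ^ 3 - 2 * c * d ^ 3 - d ^
      4) * ((1 - b) * (d - a ^ 2 * c) + (a - c) * (d - a * b)) + (a ^ 3 * b ^ 2 - 2 * a ^ 3 * b +
      a ^ 3 * d + a ^ 2 * b ^ 2 * d + a ^ 2 * b ^ 2 - 4 * a ^ 2 * b * d + 2 * a ^ 2 * d + 2 * a *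
      b ^ 2 * d - 4 * a * b * d + a * d ^ 2 + a * d + b ^ 2 * d - 2 * b * d ^ 2 + d ^ 2) * ((d -
      b) * (d ^ 2 - a * c ^ 2) + d * (c - a) * (d - b * c))) / (Z * CB * DB * D * a * E) := by
    rw [jL2, jG12, jG13, jH12]
    field_simp
    simp only [hA, hB, hC, hD, hBA, hCA, hCB, hDA, hDB, hDC, hE, hW, hV, hS, hP, hZ, hX, hY]
    ring1
  rw [Q0, R0] at e
  exact sub_eq_zero.1 (e.trans (by ring))

theorem d5w12 {a b c d A B C D BA CA CB DA DB DC E W V S P Z X Y p q M2 G12 H12 H13 : F}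
    (na : a ≠ 0) (nb : b ≠ 0) (nc : c ≠ 0) (nd : d ≠ 0) (nA : A ≠ 0) (nB : B ≠ 0) (nC : C ≠ 0) (nD
    : D ≠ 0) (nBA : BA ≠ 0) (nCA : CA ≠ 0) (nCB : CB ≠ 0) (nDA : DA ≠ 0) (nDB : DB ≠ 0) (nDC : DC
    ≠ 0) (nE : E ≠ 0) (nZ : Z ≠ 0)
    (hA : A = a - 1) (hB : B = b - 1) (hC : C = c - 1) (hD : D = d - 1) (hBA : BA = b - a) (hCA :
    CA = c - a) (hCB : CB = c - b) (hDA : DA = d - a) (hDB : DB = d - b) (hDC : DC = d - c) (hE :
    E = a * c + d) (hW : W = a * c + a * d + d) (hV : V = c + a * c + d) (hS : S = c + d) (hP : P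
    = a + 1) (hZ : Z = (d - 1) * (a * c + d) + 2 * d * (c - a)) (hX : X = a * b * c * d + b * c *
    d + a * c * d - a * b * d - a * b * c + a * d ^ 2 - a ^ 2 * d - a * d) (hY : Y = a * b * c * d
    + c ^ 2 * d + c * d ^ 2 + b * c * d - a * c * d - a * b * d - a * b * c - c * d)
    (hp : p = X / Z) (hq : q = Y / Z)
    (Q0 : (1 - b) * (d - a ^ 2 * c) + (a - c) * (d - a * b) = 0)
    (R0 : (d - b) * (d ^ 2 - a * c ^ 2) + d * (c - a) * (d - b * c) = 0)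
    (jM2 : M2 = -(c * d * BA * CA * DA) / (CB * DB * Z))
    (jG12 : G12 = 1 + A * DB * W / (b * D * E))
    (jH12 : H12 = 1 - A * DB * V / (a * D * E))
    (jH13 : H13 = 1 - A * DA * V / (a * D * E)) :
    a ^ 3 * H13 = (1 - M2) * (a * G12) + M2 * (a ^ 2 * H12) := by
  have e : (a ^ 3 * H13) - ((1 - M2) * (a * G12) + M2 * (a ^ 2 * H12)) = a * A * ((a ^ 2 * b ^ 2 * c *
      d - a ^ 2 * b * c ^ 2 * d + a ^ 2 * b * c ^ 2 - a ^ 2 * b * c * d ^ 2 + a ^ 2 * b * c * d +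
      a ^ 2 * b * d ^ 2 + a ^ 2 * c ^ 2 * d ^ 2 - a ^ 2 * c ^ 2 * d - a ^ 2 * c * d ^ 2 - a ^ 2 *
      d ^ 2 + 2 * a * b ^ 2 * c * d + 3 * a * b ^ 2 * d ^ 2 - a * b * c ^ 2 - 3 * a * b * c * d ^
      2 - a * b * c * d - 2 * a * b * d ^ 3 - a * b * d ^ 2 + a * c ^ 2 * d + 2 * a * c * d ^ 3 +
      a * c * d ^ 2 - 2 * a * d ^ 3 + a * d ^ 2 - b ^ 2 * c * d ^ 2 + b ^ 2 * d ^ 2 - 2 * b * c ^
      2 * d ^ 2 + b * c ^ 2 * d - b * c * d ^ 2 - 4 * b * d ^ 3 + b * d ^ 2 + 4 * c * d ^ 3 - c *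
      d ^ 2 + 3 * d ^ 4 - d ^ 3) * ((1 - b) * (d - a ^ 2 * c) + (a - c) * (d - a * b)) + (-a ^ 3 *
      b ^ 2 + a ^ 3 * b - a ^ 3 * c * d + a ^ 3 * c - a ^ 2 * b ^ 2 * d + 4 * a ^ 2 * b * d - a ^
      2 * b + a ^ 2 * c * d - a ^ 2 * c - a ^ 2 * d - a * b ^ 2 * c * d - a * b ^ 2 * d + a * b *
      c + a * b * d ^ 2 + 2 * a * b * d - a * c * d ^ 2 - 3 * a * d ^ 2 - b ^ 2 * c * d - b ^ 2 *
      d ^ 2 + b * c * d ^ 2 + 4 * b * d ^ 2 - b * d + 2 * c * d ^ 2 - c * d - 3 * d ^ 2 + d) * ((d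
      - b) * (d ^ 2 - a * c ^ 2) + d * (c - a) * (d - b * c))) / (b * Z * CB * DB * D * E) := by
    rw [jM2, jG12, jH12, jH13]
    field_simp
    simp only [hA, hB, hC, hD, hBA, hCA, hCB, hDA, hDB, hDC, hE, hW, hV, hS, hP, hZ, hX, hY]
    ring1
  rw [Q0, R0] at e
  exact sub_eq_zero.1 (e.trans (by ring))

theorem d5u13 {a b c d A B C D BA CA CB DA DB DC E W V S P Z X Y p q L3 G13 H13 o : F}
    (na : a ≠ 0) (nb : b ≠ 0) (nc : c ≠ 0) (nd : d ≠ 0) (nA : A ≠ 0) (nB : B ≠ 0) (nC : C ≠ 0) (nD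
    : D ≠ 0) (nBA : BA ≠ 0) (nCA : CA ≠ 0) (nCB : CB ≠ 0) (nDA : DA ≠ 0) (nDB : DB ≠ 0) (nDC : DC
    ≠ 0) (nE : E ≠ 0) (nZ : Z ≠ 0)
    (hA : A = a - 1) (hB : B = b - 1) (hC : C = c - 1) (hD : D = d - 1) (hBA : BA = b - a) (hCA :
    CA = c - a) (hCB : CB = c - b) (hDA : DA = d - a) (hDB : DB = d - b) (hDC : DC = d - c) (hE :
    E = a * c + d) (hW : W = a * c + a * d + d) (hV : V = c + a * c + d) (hS : S = c + d) (hP : P
    = a + 1) (hZ : Z = (d - 1) * (a * c + d) + 2 * d * (c - a)) (hX : X = a * b * c * d + b * c *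
    d + a * c * d - a * b * d - a * b * c + a * d ^ 2 - a ^ 2 * d - a * d) (hY : Y = a * b * c * d
    + c ^ 2 * d + c * d ^ 2 + b * c * d - a * c * d - a * b * d - a * b * c - c * d)
    (hp : p = X / Z) (hq : q = Y / Z)
    (Q0 : (1 - b) * (d - a ^ 2 * c) + (a - c) * (d - a * b) = 0)
    (R0 : (d - b) * (d ^ 2 - a * c ^ 2) + d * (c - a) * (d - b * c) = 0)
    (jL3 : L3 = -(a ^ 2 * A * B * C * V) / (BA * CA * DA * E))
    (jG13 : G13 = 1 + A * DA * W / (a * D * E))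
    (jH13 : H13 = 1 - A * DA * V / (a * D * E))
    (jo : o = S / E) :
    (a ^ 2 * o) = L3 * (a * G13) + (1 - L3) * (a ^ 3 * H13) := by
  have e : ((a ^ 2 * o)) - (L3 * (a * G13) + (1 - L3) * (a ^ 3 * H13)) = a ^ 2 * A ^ 3 * V * ((-1) *
      ((1 - b) * (d - a ^ 2 * c) + (a - c) * (d - a * b)) + (0) * ((d - b) * (d ^ 2 - a * c ^ 2) +
      d * (c - a) * (d - b * c))) / (DA * D * BA * CA * E) := by
    rw [jL3, jG13, jH13, jo]
    field_simp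
    simp only [hA, hB, hC, hD, hBA, hCA, hCB, hDA, hDB, hDC, hE, hW, hV, hS, hP, hZ, hX, hY]
    ring1
  rw [Q0, R0] at e
  exact sub_eq_zero.1 (e.trans (by ring))

theorem d5w13 {a b c d A B C D BA CA CB DA DB DC E W V S P Z X Y p q M3 G13 H13 o : F}
    (na : a ≠ 0) (nb : b ≠ 0) (nc : c ≠ 0) (nd : d ≠ 0) (nA : A ≠ 0) (nB : B ≠ 0) (nC : C ≠ 0) (nD
    : D ≠ 0) (nBA : BA ≠ 0) (nCA : CA ≠ 0) (nCB : CB ≠ 0) (nDA : DA ≠ 0) (nDB : DB ≠ 0) (nDC : DC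
    ≠ 0) (nE : E ≠ 0) (nZ : Z ≠ 0)
    (hA : A = a - 1) (hB : B = b - 1) (hC : C = c - 1) (hD : D = d - 1) (hBA : BA = b - a) (hCA :
    CA = c - a) (hCB : CB = c - b) (hDA : DA = d - a) (hDB : DB = d - b) (hDC : DC = d - c) (hE :
    E = a * c + d) (hW : W = a * c + a * d + d) (hV : V = c + a * c + d) (hS : S = c + d) (hP : P
    = a + 1) (hZ : Z = (d - 1) * (a * c + d) + 2 * d * (c - a)) (hX : X = a * b * c * d + b * c *
    d + a * c * d - a * b * d - a * b * c + a * d ^ 2 - a ^ 2 * d - a * d) (hY : Y = a * b * c * d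
    + c ^ 2 * d + c * d ^ 2 + b * c * d - a * c * d - a * b * d - a * b * c - c * d)
    (hp : p = X / Z) (hq : q = Y / Z)
    (Q0 : (1 - b) * (d - a ^ 2 * c) + (a - c) * (d - a * b) = 0)
    (R0 : (d - b) * (d ^ 2 - a * c ^ 2) + d * (c - a) * (d - b * c) = 0)
    (jM3 : M3 = -(d * A * B * C * W) / (BA * CA * DA * E))
    (jG13 : G13 = 1 + A * DA * W / (a * D * E))
    (jH13 : H13 = 1 - A * DA * V / (a * D * E))
    (jo : o = S / E) :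
    a ^ 4 * (o / a) = (1 - M3) * (a * G13) + M3 * (a ^ 3 * H13) := by
  have e : (a ^ 4 * (o / a)) - ((1 - M3) * (a * G13) + M3 * (a ^ 3 * H13)) = d * A ^ 3 * W * ((1) * ((1
      - b) * (d - a ^ 2 * c) + (a - c) * (d - a * b)) + (0) * ((d - b) * (d ^ 2 - a * c ^ 2) + d *
      (c - a) * (d - b * c))) / (DA * D * BA * CA * E) := by
    rw [jM3, jG13, jH13, jo]
    field_simp
    simp only [hA, hB, hC, hD, hBA, hCA, hCB, hDA, hDB, hDC, hE, hW, hV, hS, hP, hZ, hX, hY]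
    ring1
  rw [Q0, R0] at e
  exact sub_eq_zero.1 (e.trans (by ring))

theorem d5u20 {a b c d A B C D BA CA CB DA DB DC E W V S P Z X Y p q L0 G21 : F}
    (na : a ≠ 0) (nb : b ≠ 0) (nc : c ≠ 0) (nd : d ≠ 0) (nA : A ≠ 0) (nB : B ≠ 0) (nC : C ≠ 0) (nD
    : D ≠ 0) (nBA : BA ≠ 0) (nCA : CA ≠ 0) (nCB : CB ≠ 0) (nDA : DA ≠ 0) (nDB : DB ≠ 0) (nDC : DC
    ≠ 0) (nE : E ≠ 0) (nZ : Z ≠ 0)
    (hA : A = a - 1) (hB : B = b - 1) (hC : C = c - 1) (hD : D = d - 1) (hBA : BA = b - a) (hCA :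
    CA = c - a) (hCB : CB = c - b) (hDA : DA = d - a) (hDB : DB = d - b) (hDC : DC = d - c) (hE :
    E = a * c + d) (hW : W = a * c + a * d + d) (hV : V = c + a * c + d) (hS : S = c + d) (hP : P
    = a + 1) (hZ : Z = (d - 1) * (a * c + d) + 2 * d * (c - a)) (hX : X = a * b * c * d + b * c *
    d + a * c * d - a * b * d - a * b * c + a * d ^ 2 - a ^ 2 * d - a * d) (hY : Y = a * b * c * d
    + c ^ 2 * d + c * d ^ 2 + b * c * d - a * c * d - a * b * d - a * b * c - c * d)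
    (hp : p = X / Z) (hq : q = Y / Z)
    (Q0 : (1 - b) * (d - a ^ 2 * c) + (a - c) * (d - a * b) = 0)
    (R0 : (d - b) * (d ^ 2 - a * c ^ 2) + d * (c - a) * (d - b * c) = 0)
    (jL0 : L0 = DC * W / (c * D * E))
    (jG21 : G21 = 1 + B * DC * W / (c * D * E)) :
    G21 = L0 * (b) + (1 - L0) * (1) := by
  rw [jL0, jG21]
  field_simp
  try simp only [hA, hB, hC, hD, hBA, hCA, hCB, hDA, hDB, hDC, hE, hW, hV, hS, hP, hZ, hX, hY]
  try ring1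

theorem d5w20 {a b c d A B C D BA CA CB DA DB DC E W V S P Z X Y p q M0 H21 : F}
    (na : a ≠ 0) (nb : b ≠ 0) (nc : c ≠ 0) (nd : d ≠ 0) (nA : A ≠ 0) (nB : B ≠ 0) (nC : C ≠ 0) (nD
    : D ≠ 0) (nBA : BA ≠ 0) (nCA : CA ≠ 0) (nCB : CB ≠ 0) (nDA : DA ≠ 0) (nDB : DB ≠ 0) (nDC : DC
    ≠ 0) (nE : E ≠ 0) (nZ : Z ≠ 0)
    (hA : A = a - 1) (hB : B = b - 1) (hC : C = c - 1) (hD : D = d - 1) (hBA : BA = b - a) (hCA :
    CA = c - a) (hCB : CB = c - b) (hDA : DA = d - a) (hDB : DB = d - b) (hDC : DC = d - c) (hE :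
    E = a * c + d) (hW : W = a * c + a * d + d) (hV : V = c + a * c + d) (hS : S = c + d) (hP : P
    = a + 1) (hZ : Z = (d - 1) * (a * c + d) + 2 * d * (c - a)) (hX : X = a * b * c * d + b * c *
    d + a * c * d - a * b * d - a * b * c + a * d ^ 2 - a ^ 2 * d - a * d) (hY : Y = a * b * c * d
    + c ^ 2 * d + c * d ^ 2 + b * c * d - a * c * d - a * b * d - a * b * c - c * d)
    (hp : p = X / Z) (hq : q = Y / Z)
    (Q0 : (1 - b) * (d - a ^ 2 * c) + (a - c) * (d - a * b) = 0)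
    (R0 : (d - b) * (d ^ 2 - a * c ^ 2) + d * (c - a) * (d - b * c) = 0)
    (jM0 : M0 = DC * V / (D * E))
    (jH21 : H21 = 1 - B * DC * V / (b * D * E)) :
    b * H21 = (1 - M0) * (b) + M0 * (1) := by
  rw [jM0, jH21]
  field_simp
  try simp only [hA, hB, hC, hD, hBA, hCA, hCB, hDA, hDB, hDC, hE, hW, hV, hS, hP, hZ, hX, hY]
  try ring1

theorem d5u21 {a b c d A B C D BA CA CB DA DB DC E W V S P Z X Y p q L1 G21 G22 H21 : F}
    (na : a ≠ 0) (nb : b ≠ 0) (nc : c ≠ 0) (nd : d ≠ 0) (nA : A ≠ 0) (nB : B ≠ 0) (nC : C ≠ 0) (nD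
    : D ≠ 0) (nBA : BA ≠ 0) (nCA : CA ≠ 0) (nCB : CB ≠ 0) (nDA : DA ≠ 0) (nDB : DB ≠ 0) (nDC : DC
    ≠ 0) (nE : E ≠ 0) (nZ : Z ≠ 0)
    (hA : A = a - 1) (hB : B = b - 1) (hC : C = c - 1) (hD : D = d - 1) (hBA : BA = b - a) (hCA :
    CA = c - a) (hCB : CB = c - b) (hDA : DA = d - a) (hDB : DB = d - b) (hDC : DC = d - c) (hE :
    E = a * c + d) (hW : W = a * c + a * d + d) (hV : V = c + a * c + d) (hS : S = c + d) (hP : P
    = a + 1) (hZ : Z = (d - 1) * (a * c + d) + 2 * d * (c - a)) (hX : X = a * b * c * d + b * c *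
    d + a * c * d - a * b * d - a * b * c + a * d ^ 2 - a ^ 2 * d - a * d) (hY : Y = a * b * c * d
    + c ^ 2 * d + c * d ^ 2 + b * c * d - a * c * d - a * b * d - a * b * c - c * d)
    (hp : p = X / Z) (hq : q = Y / Z)
    (Q0 : (1 - b) * (d - a ^ 2 * c) + (a - c) * (d - a * b) = 0)
    (R0 : (d - b) * (d ^ 2 - a * c ^ 2) + d * (c - a) * (d - b * c) = 0)
    (jL1 : L1 = c * d * CB * DB / (b ^ 2 * DC * Z))
    (jG21 : G21 = 1 + B * DC * W / (c * D * E))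
    (jG22 : G22 = 1 + B * DB * W * (b * Z + d * BA * CB) / (b ^ 2 * D * E * Z))
    (jH21 : H21 = 1 - B * DC * V / (b * D * E)) :
    G22 = L1 * (b * G21) + (1 - L1) * (b * H21) := by
  have e : C * ((G22) - (L1 * (b * G21) + (1 - L1) * (b * H21))) = B * ((-b * c ^ 3 * d - b * c ^ 3 - b
      * c ^ 2 * d - 2 * b * c * d ^ 2 + b * d ^ 2 + c ^ 3 * d + 2 * c ^ 2 * d ^ 2 + c * d ^ 3) *
      ((1 - b) * (d - a ^ 2 * c) + (a - c) * (d - a * b)) + (2 * a * b * c ^ 2 + a * b * c * d - 2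
      * a * b * c - a * b * d - a * c ^ 2 - a * c * d + 2 * b * c ^ 2 + 2 * b * c * d - b * c - b
      * d + c ^ 2 * d - c * d) * ((d - b) * (d ^ 2 - a * c ^ 2) + d * (c - a) * (d - b * c))) / (b
      ^ 2 * Z * D * E) := by
    rw [jL1, jG21, jG22, jH21]
    field_simp
    simp only [hA, hB, hC, hD, hBA, hCA, hCB, hDA, hDB, hDC, hE, hW, hV, hS, hP, hZ, hX, hY]
    ring1
  rw [Q0, R0] at e
  have e2 := (mul_eq_zero.1 (e.trans (by ring))).resolve_left nC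
  exact sub_eq_zero.1 e2

theorem d5w21 {a b c d A B C D BA CA CB DA DB DC E W V S P Z X Y p q M1 G21 H21 H22 : F}
    (na : a ≠ 0) (nb : b ≠ 0) (nc : c ≠ 0) (nd : d ≠ 0) (nA : A ≠ 0) (nB : B ≠ 0) (nC : C ≠ 0) (nD
    : D ≠ 0) (nBA : BA ≠ 0) (nCA : CA ≠ 0) (nCB : CB ≠ 0) (nDA : DA ≠ 0) (nDB : DB ≠ 0) (nDC : DC
    ≠ 0) (nE : E ≠ 0) (nZ : Z ≠ 0)
    (hA : A = a - 1) (hB : B = b - 1) (hC : C = c - 1) (hD : D = d - 1) (hBA : BA = b - a) (hCA :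
    CA = c - a) (hCB : CB = c - b) (hDA : DA = d - a) (hDB : DB = d - b) (hDC : DC = d - c) (hE :
    E = a * c + d) (hW : W = a * c + a * d + d) (hV : V = c + a * c + d) (hS : S = c + d) (hP : P
    = a + 1) (hZ : Z = (d - 1) * (a * c + d) + 2 * d * (c - a)) (hX : X = a * b * c * d + b * c *
    d + a * c * d - a * b * d - a * b * c + a * d ^ 2 - a ^ 2 * d - a * d) (hY : Y = a * b * c * d
    + c ^ 2 * d + c * d ^ 2 + b * c * d - a * c * d - a * b * d - a * b * c - c * d)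
    (hp : p = X / Z) (hq : q = Y / Z)
    (Q0 : (1 - b) * (d - a ^ 2 * c) + (a - c) * (d - a * b) = 0)
    (R0 : (d - b) * (d ^ 2 - a * c ^ 2) + d * (c - a) * (d - b * c) = 0)
    (jM1 : M1 = a * d * CB * DB / (DC * Z))
    (jG21 : G21 = 1 + B * DC * W / (c * D * E))
    (jH21 : H21 = 1 - B * DC * V / (b * D * E))
    (jH22 : H22 = 1 - B * DB * V * (b * Z - d * BA * CB) / (b ^ 2 * D * E * Z)) :
    b ^ 2 * H22 = (1 - M1) * (b * G21) + M1 * (b * H21) := by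
  have e : C * ((b ^ 2 * H22) - ((1 - M1) * (b * G21) + M1 * (b * H21))) = b * B * ((b * c ^ 2 + 2 * b
      * c * d + b * d ^ 2 + c ^ 3 * d - 2 * c ^ 2 * d - c * d ^ 2 - d ^ 3 - d ^ 2) * ((1 - b) * (d
      - a ^ 2 * c) + (a - c) * (d - a * b)) + (-a * b * c + a * b - a * c ^ 2 - a * c * d + 2 * a
      * c + 2 * a * d - b * c - b * d - c ^ 2 - 2 * c * d + c + 2 * d) * ((d - b) * (d ^ 2 - a * c
      ^ 2) + d * (c - a) * (d - b * c))) / (D * c * Z * E) := by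
    rw [jM1, jG21, jH21, jH22]
    field_simp
    simp only [hA, hB, hC, hD, hBA, hCA, hCB, hDA, hDB, hDC, hE, hW, hV, hS, hP, hZ, hX, hY]
    ring1
  rw [Q0, R0] at e
  have e2 := (mul_eq_zero.1 (e.trans (by ring))).resolve_left nC
  exact sub_eq_zero.1 e2

theorem d5u23 {a b c d A B C D BA CA CB DA DB DC E W V S P Z X Y p q L3 G12 H12 o : F}
    (na : a ≠ 0) (nb : b ≠ 0) (nc : c ≠ 0) (nd : d ≠ 0) (nA : A ≠ 0) (nB : B ≠ 0) (nC : C ≠ 0) (nD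
    : D ≠ 0) (nBA : BA ≠ 0) (nCA : CA ≠ 0) (nCB : CB ≠ 0) (nDA : DA ≠ 0) (nDB : DB ≠ 0) (nDC : DC
    ≠ 0) (nE : E ≠ 0) (nZ : Z ≠ 0)
    (hA : A = a - 1) (hB : B = b - 1) (hC : C = c - 1) (hD : D = d - 1) (hBA : BA = b - a) (hCA :
    CA = c - a) (hCB : CB = c - b) (hDA : DA = d - a) (hDB : DB = d - b) (hDC : DC = d - c) (hE :
    E = a * c + d) (hW : W = a * c + a * d + d) (hV : V = c + a * c + d) (hS : S = c + d) (hP : P
    = a + 1) (hZ : Z = (d - 1) * (a * c + d) + 2 * d * (c - a)) (hX : X = a * b * c * d + b * c *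
    d + a * c * d - a * b * d - a * b * c + a * d ^ 2 - a ^ 2 * d - a * d) (hY : Y = a * b * c * d
    + c ^ 2 * d + c * d ^ 2 + b * c * d - a * c * d - a * b * d - a * b * c - c * d)
    (hp : p = X / Z) (hq : q = Y / Z)
    (Q0 : (1 - b) * (d - a ^ 2 * c) + (a - c) * (d - a * b) = 0)
    (R0 : (d - b) * (d ^ 2 - a * c ^ 2) + d * (c - a) * (d - b * c) = 0)
    (jL3 : L3 = -(a ^ 2 * A * B * C * V) / (BA * CA * DA * E))
    (jG12 : G12 = 1 + A * DB * W / (b * D * E))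
    (jH12 : H12 = 1 - A * DB * V / (a * D * E))
    (jo : o = S / E) :
    (b * o * p) = L3 * (b * (b * p * G12 / a ^ 2)) + (1 - L3) * (b ^ 3 * (a * p * H12 / b ^ 2)) := by
  have e : ((b * o * p)) - (L3 * (b * (b * p * G12 / a ^ 2)) + (1 - L3) * (b ^ 3 * (a * p * H12 / b ^
      2))) = b * A ^ 2 * B * V * p * ((-1) * ((1 - b) * (d - a ^ 2 * c) + (a - c) * (d - a * b)) +
      (0) * ((d - b) * (d ^ 2 - a * c ^ 2) + d * (c - a) * (d - b * c))) / (DA * D * BA * CA * E) := by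
    rw [jL3, jG12, jH12, jo]
    field_simp
    simp only [hA, hB, hC, hD, hBA, hCA, hCB, hDA, hDB, hDC, hE, hW, hV, hS, hP, hZ, hX, hY]
    ring1
  rw [Q0, R0] at e
  exact sub_eq_zero.1 (e.trans (by ring))

theorem d5w23 {a b c d A B C D BA CA CB DA DB DC E W V S P Z X Y p q M3 G12 H12 o : F}
    (na : a ≠ 0) (nb : b ≠ 0) (nc : c ≠ 0) (nd : d ≠ 0) (nA : A ≠ 0) (nB : B ≠ 0) (nC : C ≠ 0) (nD
    : D ≠ 0) (nBA : BA ≠ 0) (nCA : CA ≠ 0) (nCB : CB ≠ 0) (nDA : DA ≠ 0) (nDB : DB ≠ 0) (nDC : DC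
    ≠ 0) (nE : E ≠ 0) (nZ : Z ≠ 0)
    (hA : A = a - 1) (hB : B = b - 1) (hC : C = c - 1) (hD : D = d - 1) (hBA : BA = b - a) (hCA :
    CA = c - a) (hCB : CB = c - b) (hDA : DA = d - a) (hDB : DB = d - b) (hDC : DC = d - c) (hE :
    E = a * c + d) (hW : W = a * c + a * d + d) (hV : V = c + a * c + d) (hS : S = c + d) (hP : P
    = a + 1) (hZ : Z = (d - 1) * (a * c + d) + 2 * d * (c - a)) (hX : X = a * b * c * d + b * c *
    d + a * c * d - a * b * d - a * b * c + a * d ^ 2 - a ^ 2 * d - a * d) (hY : Y = a * b * c * d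
    + c ^ 2 * d + c * d ^ 2 + b * c * d - a * c * d - a * b * d - a * b * c - c * d)
    (hp : p = X / Z) (hq : q = Y / Z)
    (Q0 : (1 - b) * (d - a ^ 2 * c) + (a - c) * (d - a * b) = 0)
    (R0 : (d - b) * (d ^ 2 - a * c ^ 2) + d * (c - a) * (d - b * c) = 0)
    (jM3 : M3 = -(d * A * B * C * W) / (BA * CA * DA * E))
    (jG12 : G12 = 1 + A * DB * W / (b * D * E))
    (jH12 : H12 = 1 - A * DB * V / (a * D * E))
    (jo : o = S / E) :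
    b ^ 4 * (o * p / b ^ 2) = (1 - M3) * (b * (b * p * G12 / a ^ 2)) + M3 * (b ^ 3 * (a * p *
      H12 / b ^ 2)) := by
  have e : (b ^ 4 * (o * p / b ^ 2)) - ((1 - M3) * (b * (b * p * G12 / a ^ 2)) + M3 * (b ^ 3 * (a * p *
      H12 / b ^ 2))) = b * d * A ^ 2 * B * W * p * ((1) * ((1 - b) * (d - a ^ 2 * c) + (a - c) *
      (d - a * b)) + (0) * ((d - b) * (d ^ 2 - a * c ^ 2) + d * (c - a) * (d - b * c))) / (CA * DA
      * D * BA * a ^ 2 * E) := by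
    rw [jM3, jG12, jH12, jo]
    field_simp
    simp only [hA, hB, hC, hD, hBA, hCA, hCB, hDA, hDB, hDC, hE, hW, hV, hS, hP, hZ, hX, hY]
    ring1
  rw [Q0, R0] at e
  exact sub_eq_zero.1 (e.trans (by ring))

theorem d5u30 {a b c d A B C D BA CA CB DA DB DC E W V S P Z X Y p q L0 G31 : F}
    (na : a ≠ 0) (nb : b ≠ 0) (nc : c ≠ 0) (nd : d ≠ 0) (nA : A ≠ 0) (nB : B ≠ 0) (nC : C ≠ 0) (nD
    : D ≠ 0) (nBA : BA ≠ 0) (nCA : CA ≠ 0) (nCB : CB ≠ 0) (nDA : DA ≠ 0) (nDB : DB ≠ 0) (nDC : DC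
    ≠ 0) (nE : E ≠ 0) (nZ : Z ≠ 0)
    (hA : A = a - 1) (hB : B = b - 1) (hC : C = c - 1) (hD : D = d - 1) (hBA : BA = b - a) (hCA :
    CA = c - a) (hCB : CB = c - b) (hDA : DA = d - a) (hDB : DB = d - b) (hDC : DC = d - c) (hE :
    E = a * c + d) (hW : W = a * c + a * d + d) (hV : V = c + a * c + d) (hS : S = c + d) (hP : P
    = a + 1) (hZ : Z = (d - 1) * (a * c + d) + 2 * d * (c - a)) (hX : X = a * b * c * d + b * c *
    d + a * c * d - a * b * d - a * b * c + a * d ^ 2 - a ^ 2 * d - a * d) (hY : Y = a * b * c * d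
    + c ^ 2 * d + c * d ^ 2 + b * c * d - a * c * d - a * b * d - a * b * c - c * d)
    (hp : p = X / Z) (hq : q = Y / Z)
    (Q0 : (1 - b) * (d - a ^ 2 * c) + (a - c) * (d - a * b) = 0)
    (R0 : (d - b) * (d ^ 2 - a * c ^ 2) + d * (c - a) * (d - b * c) = 0)
    (jL0 : L0 = DC * W / (c * D * E))
    (jG31 : G31 = 1 + C * DC * W / (c * D * E)) :
    G31 = L0 * (c) + (1 - L0) * (1) := by
  rw [jL0, jG31]
  field_simp
  try simp only [hA, hB, hC, hD, hBA, hCA, hCB, hDA, hDB, hDC, hE, hW, hV, hS, hP, hZ, hX, hY]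
  try ring1

theorem d5w30 {a b c d A B C D BA CA CB DA DB DC E W V S P Z X Y p q M0 H31 : F}
    (na : a ≠ 0) (nb : b ≠ 0) (nc : c ≠ 0) (nd : d ≠ 0) (nA : A ≠ 0) (nB : B ≠ 0) (nC : C ≠ 0) (nD
    : D ≠ 0) (nBA : BA ≠ 0) (nCA : CA ≠ 0) (nCB : CB ≠ 0) (nDA : DA ≠ 0) (nDB : DB ≠ 0) (nDC : DC
    ≠ 0) (nE : E ≠ 0) (nZ : Z ≠ 0)
    (hA : A = a - 1) (hB : B = b - 1) (hC : C = c - 1) (hD : D = d - 1) (hBA : BA = b - a) (hCA :
    CA = c - a) (hCB : CB = c - b) (hDA : DA = d - a) (hDB : DB = d - b) (hDC : DC = d - c) (hE :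
    E = a * c + d) (hW : W = a * c + a * d + d) (hV : V = c + a * c + d) (hS : S = c + d) (hP : P
    = a + 1) (hZ : Z = (d - 1) * (a * c + d) + 2 * d * (c - a)) (hX : X = a * b * c * d + b * c *
    d + a * c * d - a * b * d - a * b * c + a * d ^ 2 - a ^ 2 * d - a * d) (hY : Y = a * b * c * d
    + c ^ 2 * d + c * d ^ 2 + b * c * d - a * c * d - a * b * d - a * b * c - c * d)
    (hp : p = X / Z) (hq : q = Y / Z)
    (Q0 : (1 - b) * (d - a ^ 2 * c) + (a - c) * (d - a * b) = 0)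
    (R0 : (d - b) * (d ^ 2 - a * c ^ 2) + d * (c - a) * (d - b * c) = 0)
    (jM0 : M0 = DC * V / (D * E))
    (jH31 : H31 = 1 - C * DC * V / (c * D * E)) :
    c * H31 = (1 - M0) * (c) + M0 * (1) := by
  rw [jM0, jH31]
  field_simp
  try simp only [hA, hB, hC, hD, hBA, hCA, hCB, hDA, hDB, hDC, hE, hW, hV, hS, hP, hZ, hX, hY]
  try ring1

theorem d5u31 {a b c d A B C D BA CA CB DA DB DC E W V S P Z X Y p q L1 G21 G31 H31 : F}
    (na : a ≠ 0) (nb : b ≠ 0) (nc : c ≠ 0) (nd : d ≠ 0) (nA : A ≠ 0) (nB : B ≠ 0) (nC : C ≠ 0) (nD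
    : D ≠ 0) (nBA : BA ≠ 0) (nCA : CA ≠ 0) (nCB : CB ≠ 0) (nDA : DA ≠ 0) (nDB : DB ≠ 0) (nDC : DC
    ≠ 0) (nE : E ≠ 0) (nZ : Z ≠ 0)
    (hA : A = a - 1) (hB : B = b - 1) (hC : C = c - 1) (hD : D = d - 1) (hBA : BA = b - a) (hCA :
    CA = c - a) (hCB : CB = c - b) (hDA : DA = d - a) (hDB : DB = d - b) (hDC : DC = d - c) (hE :
    E = a * c + d) (hW : W = a * c + a * d + d) (hV : V = c + a * c + d) (hS : S = c + d) (hP : P
    = a + 1) (hZ : Z = (d - 1) * (a * c + d) + 2 * d * (c - a)) (hX : X = a * b * c * d + b * c *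
    d + a * c * d - a * b * d - a * b * c + a * d ^ 2 - a ^ 2 * d - a * d) (hY : Y = a * b * c * d
    + c ^ 2 * d + c * d ^ 2 + b * c * d - a * c * d - a * b * d - a * b * c - c * d)
    (hp : p = X / Z) (hq : q = Y / Z)
    (Q0 : (1 - b) * (d - a ^ 2 * c) + (a - c) * (d - a * b) = 0)
    (R0 : (d - b) * (d ^ 2 - a * c ^ 2) + d * (c - a) * (d - b * c) = 0)
    (jL1 : L1 = c * d * CB * DB / (b ^ 2 * DC * Z))
    (jG21 : G21 = 1 + B * DC * W / (c * D * E))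
    (jG31 : G31 = 1 + C * DC * W / (c * D * E))
    (jH31 : H31 = 1 - C * DC * V / (c * D * E)) :
    (c * q * G21 / b ^ 2) = L1 * (c * G31) + (1 - L1) * (c * H31) := by
  have e : ((c * q * G21 / b ^ 2)) - (L1 * (c * G31) + (1 - L1) * (c * H31)) = ((-b * c ^ 3 * d - b * c
      ^ 3 - b * c ^ 2 * d - 2 * b * c * d ^ 2 + b * d ^ 3 + c ^ 3 * d + 2 * c ^ 2 * d ^ 2 + c * d
      ^ 2) * ((1 - b) * (d - a ^ 2 * c) + (a - c) * (d - a * b)) + (2 * a * b * c ^ 2 + a * b * c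
      * d - 2 * a * b * c - a * b * d - a * c ^ 2 - a * c * d + 2 * b * c ^ 2 + 2 * b * c * d - b
      * c - b * d + c ^ 2 * d - c * d) * ((d - b) * (d ^ 2 - a * c ^ 2) + d * (c - a) * (d - b *
      c))) / (b ^ 2 * Z * D * E) := by
    rw [jL1, jG21, jG31, jH31, hq]
    field_simp
    simp only [hA, hB, hC, hD, hBA, hCA, hCB, hDA, hDB, hDC, hE, hW, hV, hS, hP, hZ, hX, hY]
    ring1
  rw [Q0, R0] at e
  exact sub_eq_zero.1 (e.trans (by ring))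

theorem d5w31 {a b c d A B C D BA CA CB DA DB DC E W V S P Z X Y p q M1 G31 H21 H31 : F}
    (na : a ≠ 0) (nb : b ≠ 0) (nc : c ≠ 0) (nd : d ≠ 0) (nA : A ≠ 0) (nB : B ≠ 0) (nC : C ≠ 0) (nD
    : D ≠ 0) (nBA : BA ≠ 0) (nCA : CA ≠ 0) (nCB : CB ≠ 0) (nDA : DA ≠ 0) (nDB : DB ≠ 0) (nDC : DC
    ≠ 0) (nE : E ≠ 0) (nZ : Z ≠ 0)
    (hA : A = a - 1) (hB : B = b - 1) (hC : C = c - 1) (hD : D = d - 1) (hBA : BA = b - a) (hCA :
    CA = c - a) (hCB : CB = c - b) (hDA : DA = d - a) (hDB : DB = d - b) (hDC : DC = d - c) (hE :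
    E = a * c + d) (hW : W = a * c + a * d + d) (hV : V = c + a * c + d) (hS : S = c + d) (hP : P
    = a + 1) (hZ : Z = (d - 1) * (a * c + d) + 2 * d * (c - a)) (hX : X = a * b * c * d + b * c *
    d + a * c * d - a * b * d - a * b * c + a * d ^ 2 - a ^ 2 * d - a * d) (hY : Y = a * b * c * d
    + c ^ 2 * d + c * d ^ 2 + b * c * d - a * c * d - a * b * d - a * b * c - c * d)
    (hp : p = X / Z) (hq : q = Y / Z)
    (Q0 : (1 - b) * (d - a ^ 2 * c) + (a - c) * (d - a * b) = 0)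
    (R0 : (d - b) * (d ^ 2 - a * c ^ 2) + d * (c - a) * (d - b * c) = 0)
    (jM1 : M1 = a * d * CB * DB / (DC * Z))
    (jG31 : G31 = 1 + C * DC * W / (c * D * E))
    (jH21 : H21 = 1 - B * DC * V / (b * D * E))
    (jH31 : H31 = 1 - C * DC * V / (c * D * E)) :
    c ^ 2 * (b * q * H21 / c ^ 2) = (1 - M1) * (c * G31) + M1 * (c * H31) := by
  have e : (c ^ 2 * (b * q * H21 / c ^ 2)) - ((1 - M1) * (c * G31) + M1 * (c * H31)) = ((b * c ^ 2 * d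
      + 2 * b * c * d + b * d ^ 2 + c ^ 3 - 2 * c ^ 2 * d - c * d ^ 2 - d ^ 3 - d ^ 2) * ((1 - b)
      * (d - a ^ 2 * c) + (a - c) * (d - a * b)) + (-a * b * c + a * b - a * c ^ 2 - a * c * d + 2
      * a * c + 2 * a * d - b * c - b * d - c ^ 2 - 2 * c * d + c + 2 * d) * ((d - b) * (d ^ 2 - a
      * c ^ 2) + d * (c - a) * (d - b * c))) / (D * Z * E) := by
    rw [jM1, jG31, jH21, jH31, hq]
    field_simp
    simp only [hA, hB, hC, hD, hBA, hCA, hCB, hDA, hDB, hDC, hE, hW, hV, hS, hP, hZ, hX, hY]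
    ring1
  rw [Q0, R0] at e
  exact sub_eq_zero.1 (e.trans (by ring))

theorem d5u32 {a b c d A B C D BA CA CB DA DB DC E W V S P Z X Y p q L2 G11 G21 H21 : F}
    (na : a ≠ 0) (nb : b ≠ 0) (nc : c ≠ 0) (nd : d ≠ 0) (nA : A ≠ 0) (nB : B ≠ 0) (nC : C ≠ 0) (nD
    : D ≠ 0) (nBA : BA ≠ 0) (nCA : CA ≠ 0) (nCB : CB ≠ 0) (nDA : DA ≠ 0) (nDB : DB ≠ 0) (nDC : DC
    ≠ 0) (nE : E ≠ 0) (nZ : Z ≠ 0)
    (hA : A = a - 1) (hB : B = b - 1) (hC : C = c - 1) (hD : D = d - 1) (hBA : BA = b - a) (hCA :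
    CA = c - a) (hCB : CB = c - b) (hDA : DA = d - a) (hDB : DB = d - b) (hDC : DC = d - c) (hE :
    E = a * c + d) (hW : W = a * c + a * d + d) (hV : V = c + a * c + d) (hS : S = c + d) (hP : P
    = a + 1) (hZ : Z = (d - 1) * (a * c + d) + 2 * d * (c - a)) (hX : X = a * b * c * d + b * c *
    d + a * c * d - a * b * d - a * b * c + a * d ^ 2 - a ^ 2 * d - a * d) (hY : Y = a * b * c * d
    + c ^ 2 * d + c * d ^ 2 + b * c * d - a * c * d - a * b * d - a * b * c - c * d)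
    (hp : p = X / Z) (hq : q = Y / Z)
    (Q0 : (1 - b) * (d - a ^ 2 * c) + (a - c) * (d - a * b) = 0)
    (R0 : (d - b) * (d ^ 2 - a * c ^ 2) + d * (c - a) * (d - b * c) = 0)
    (jL2 : L2 = -(b * d * BA * CA * DA) / (a ^ 2 * CB * DB * Z))
    (jG11 : G11 = 1 + A * DC * W / (c * D * E))
    (jG21 : G21 = 1 + B * DC * W / (c * D * E))
    (jH21 : H21 = 1 - B * DC * V / (b * D * E)) :
    (c * p * q * G11 / (a ^ 2 * b)) = L2 * (c * (c * q * G21 / b ^ 2)) + (1 - L2) * (c ^ 2 * (b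
      * q * H21 / c ^ 2)) := by
  have e : ((c * p * q * G11 / (a ^ 2 * b))) - (L2 * (c * (c * q * G21 / b ^ 2)) + (1 - L2) * (c ^ 2 *
      (b * q * H21 / c ^ 2))) = Y * ((-a ^ 2 * b ^ 3 * c ^ 2 * d + a ^ 2 * b ^ 3 * c ^ 2 + 2 * a ^
      2 * b ^ 3 * c * d + a ^ 2 * b ^ 2 * c ^ 3 * d - a ^ 2 * b ^ 2 * c ^ 3 + a ^ 2 * b ^ 2 * c ^
      2 * d ^ 2 - 3 * a ^ 2 * b ^ 2 * c ^ 2 * d - 3 * a ^ 2 * b ^ 2 * c * d ^ 2 + a ^ 2 * b ^ 2 *
      c * d - a ^ 2 * b * c ^ 3 * d ^ 2 + a ^ 2 * b * c ^ 3 * d + 3 * a ^ 2 * b * c ^ 2 * d ^ 2 -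
      a ^ 2 * b * c ^ 2 * d + a ^ 2 * b * c * d ^ 3 - a ^ 2 * b * c * d ^ 2 - a ^ 2 * c ^ 2 * d ^
      3 + a ^ 2 * c ^ 2 * d ^ 2 - 2 * a * b ^ 3 * c ^ 2 * d - a * b ^ 3 * c * d ^ 2 + a * b ^ 3 *
      c * d + 2 * a * b ^ 3 * d ^ 2 + 2 * a * b ^ 2 * c ^ 3 * d + 3 * a * b ^ 2 * c ^ 2 * d ^ 2 -
      2 * a * b ^ 2 * c ^ 2 * d + a * b ^ 2 * c * d ^ 3 - 4 * a * b ^ 2 * c * d ^ 2 - 3 * a * b ^
      2 * d ^ 3 + a * b ^ 2 * d ^ 2 - 2 * a * b * c ^ 3 * d ^ 2 - a * b * c ^ 2 * d ^ 3 + 2 * a *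
      b * c ^ 2 * d ^ 2 + a * b * c ^ 2 * d + 3 * a * b * c * d ^ 3 + a * b * d ^ 4 - a * c ^ 2 *
      d ^ 2 - a * c * d ^ 4 + a * c * d ^ 3 - a * d ^ 3 - 2 * b ^ 3 * c * d ^ 2 + 3 * b ^ 2 * c ^
      2 * d ^ 2 + 2 * b ^ 2 * c * d ^ 3 + b ^ 2 * d ^ 3 - 2 * b * c ^ 2 * d ^ 3 - b * c ^ 2 * d ^
      2 - b * c * d ^ 3 - b * d ^ 4 - b * d ^ 3 + c * d ^ 3 + d ^ 4) * ((1 - b) * (d - a ^ 2 * c)
      + (a - c) * (d - a * b)) + (a ^ 3 * b ^ 2 * d - a ^ 3 * b * d ^ 2 + a ^ 3 * c * d ^ 2 - a ^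
      3 * c * d - a ^ 2 * b ^ 3 * d + a ^ 2 * b ^ 2 * d ^ 2 - a ^ 2 * b * c * d ^ 2 - a ^ 2 * b *
      d ^ 2 + a ^ 2 * b * d + a ^ 2 * c * d ^ 2 + a * b ^ 3 * c * d - a * b ^ 3 * d - a * b ^ 2 *
      c * d + a * b ^ 2 * d ^ 2 - a * b * c * d ^ 2 + a * b * c * d + a * b * d ^ 2 - a * d ^ 2 +
      b ^ 3 * c * d - b ^ 2 * c * d - b ^ 2 * d ^ 2 - b * c * d ^ 2 + 2 * b * d ^ 2 + c * d ^ 2 -
      d ^ 2) * ((d - b) * (d ^ 2 - a * c ^ 2) + d * (c - a) * (d - b * c))) / (b * Z ^ 2 * CB * DB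
      * D * a ^ 2 * E) := by
    rw [jL2, jG11, jG21, jH21, hp, hq]
    field_simp
    simp only [hA, hB, hC, hD, hBA, hCA, hCB, hDA, hDB, hDC, hE, hW, hV, hS, hP, hZ, hX, hY]
    ring1
  rw [Q0, R0] at e
  exact sub_eq_zero.1 (e.trans (by ring))

theorem d5w32 {a b c d A B C D BA CA CB DA DB DC E W V S P Z X Y p q M2 G21 H11 H21 : F}
    (na : a ≠ 0) (nb : b ≠ 0) (nc : c ≠ 0) (nd : d ≠ 0) (nA : A ≠ 0) (nB : B ≠ 0) (nC : C ≠ 0) (nD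
    : D ≠ 0) (nBA : BA ≠ 0) (nCA : CA ≠ 0) (nCB : CB ≠ 0) (nDA : DA ≠ 0) (nDB : DB ≠ 0) (nDC : DC
    ≠ 0) (nE : E ≠ 0) (nZ : Z ≠ 0)
    (hA : A = a - 1) (hB : B = b - 1) (hC : C = c - 1) (hD : D = d - 1) (hBA : BA = b - a) (hCA :
    CA = c - a) (hCB : CB = c - b) (hDA : DA = d - a) (hDB : DB = d - b) (hDC : DC = d - c) (hE :
    E = a * c + d) (hW : W = a * c + a * d + d) (hV : V = c + a * c + d) (hS : S = c + d) (hP : P
    = a + 1) (hZ : Z = (d - 1) * (a * c + d) + 2 * d * (c - a)) (hX : X = a * b * c * d + b * c *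
    d + a * c * d - a * b * d - a * b * c + a * d ^ 2 - a ^ 2 * d - a * d) (hY : Y = a * b * c * d
    + c ^ 2 * d + c * d ^ 2 + b * c * d - a * c * d - a * b * d - a * b * c - c * d)
    (hp : p = X / Z) (hq : q = Y / Z)
    (Q0 : (1 - b) * (d - a ^ 2 * c) + (a - c) * (d - a * b) = 0)
    (R0 : (d - b) * (d ^ 2 - a * c ^ 2) + d * (c - a) * (d - b * c) = 0)
    (jM2 : M2 = -(c * d * BA * CA * DA) / (CB * DB * Z))
    (jG21 : G21 = 1 + B * DC * W / (c * D * E))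
    (jH11 : H11 = 1 - A * DC * V / (a * D * E))
    (jH21 : H21 = 1 - B * DC * V / (b * D * E)) :
    c ^ 3 * (a * p * q * H11 / (b * c ^ 2)) = (1 - M2) * (c * (c * q * G21 / b ^ 2)) + M2 * (c ^
      2 * (b * q * H21 / c ^ 2)) := by
  have e : (c ^ 3 * (a * p * q * H11 / (b * c ^ 2))) - ((1 - M2) * (c * (c * q * G21 / b ^ 2)) + M2 *
      (c ^ 2 * (b * q * H21 / c ^ 2))) = c * Y * ((-2 * a ^ 2 * b ^ 2 * c * d + a ^ 2 * b * c ^ 2
      * d + a ^ 2 * b * c * d ^ 2 - a ^ 2 * c ^ 2 * d ^ 2 + a ^ 2 * d ^ 3 + a * b ^ 3 * c ^ 2 * d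
      - a * b ^ 3 * c ^ 2 - a * b ^ 2 * c ^ 3 * d + a * b ^ 2 * c ^ 3 - a * b ^ 2 * c ^ 2 * d ^ 2
      + 5 * a * b ^ 2 * c ^ 2 * d - a * b ^ 2 * c ^ 2 + 3 * a * b ^ 2 * c * d ^ 2 - 2 * a * b ^ 2
      * c * d - 2 * a * b ^ 2 * d ^ 2 + a * b * c ^ 3 * d ^ 2 - 3 * a * b * c ^ 3 * d + a * b * c
      ^ 3 - 4 * a * b * c ^ 2 * d ^ 2 + 4 * a * b * c ^ 2 * d - a * b * c * d ^ 3 + 4 * a * b * c
      * d ^ 2 + a * b * d ^ 3 + a * b * d ^ 2 + 2 * a * c ^ 3 * d ^ 2 - a * c ^ 3 * d + a * c ^ 2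
      * d ^ 3 - 2 * a * c ^ 2 * d ^ 2 - 3 * a * c * d ^ 3 - a * c * d ^ 2 - a * d ^ 4 - a * d ^ 3
      + b ^ 3 * c * d ^ 2 - b ^ 3 * c * d - 3 * b ^ 2 * c ^ 2 * d ^ 2 + 2 * b ^ 2 * c ^ 2 * d - b
      ^ 2 * c * d ^ 3 + 3 * b ^ 2 * c * d ^ 2 - b ^ 2 * d ^ 3 - b * c ^ 3 * d + b * c ^ 2 * d ^ 3
      - 4 * b * c ^ 2 * d ^ 2 - b * c * d ^ 3 - b * c * d ^ 2 + b * d ^ 4 - b * d ^ 3 + 2 * c ^ 2
      * d ^ 3 + c ^ 2 * d ^ 2 + c * d ^ 4 + c * d ^ 3 + d ^ 4) * ((1 - b) * (d - a ^ 2 * c) + (a -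
      c) * (d - a * b)) + (-a ^ 3 * b * d + 2 * a ^ 2 * b ^ 2 * d - a ^ 2 * b ^ 2 + a ^ 2 * b * d
      - a ^ 2 * c ^ 2 * d + a ^ 2 * c ^ 2 + 2 * a ^ 2 * c * d + a ^ 2 * d ^ 2 - a * b ^ 3 * c * d
      + a * b ^ 3 * c - a * b ^ 2 * c ^ 2 + a * b * c ^ 2 * d - 2 * a * b * c * d - 3 * a * b * d
      ^ 2 + a * b * d - a * c ^ 2 * d - a * c * d ^ 2 - a * c * d - b ^ 3 * c * d + b ^ 3 * c - b
      ^ 2 * c ^ 2 + 2 * b ^ 2 * d ^ 2 - b ^ 2 * d + b * c ^ 2 * d + 2 * b * c * d ^ 2 - b * d ^ 2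
      + b * d + c ^ 2 * d + c * d ^ 2 - c * d - d ^ 2) * ((d - b) * (d ^ 2 - a * c ^ 2) + d * (c -
      a) * (d - b * c))) / (b ^ 2 * Z ^ 2 * CB * DB * D * E) := by
    rw [jM2, jG21, jH11, jH21, hp, hq]
    field_simp
    simp only [hA, hB, hC, hD, hBA, hCA, hCB, hDA, hDB, hDC, hE, hW, hV, hS, hP, hZ, hX, hY]
    ring1
  rw [Q0, R0] at e
  exact sub_eq_zero.1 (e.trans (by ring))

theorem d5u33 {a b c d A B C D BA CA CB DA DB DC E W V S P Z X Y p q L3 G11 H11 o : F}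
    (na : a ≠ 0) (nb : b ≠ 0) (nc : c ≠ 0) (nd : d ≠ 0) (nA : A ≠ 0) (nB : B ≠ 0) (nC : C ≠ 0) (nD
    : D ≠ 0) (nBA : BA ≠ 0) (nCA : CA ≠ 0) (nCB : CB ≠ 0) (nDA : DA ≠ 0) (nDB : DB ≠ 0) (nDC : DC
    ≠ 0) (nE : E ≠ 0) (nZ : Z ≠ 0)
    (hA : A = a - 1) (hB : B = b - 1) (hC : C = c - 1) (hD : D = d - 1) (hBA : BA = b - a) (hCA :
    CA = c - a) (hCB : CB = c - b) (hDA : DA = d - a) (hDB : DB = d - b) (hDC : DC = d - c) (hE :
    E = a * c + d) (hW : W = a * c + a * d + d) (hV : V = c + a * c + d) (hS : S = c + d) (hP : P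
    = a + 1) (hZ : Z = (d - 1) * (a * c + d) + 2 * d * (c - a)) (hX : X = a * b * c * d + b * c *
    d + a * c * d - a * b * d - a * b * c + a * d ^ 2 - a ^ 2 * d - a * d) (hY : Y = a * b * c * d
    + c ^ 2 * d + c * d ^ 2 + b * c * d - a * c * d - a * b * d - a * b * c - c * d)
    (hp : p = X / Z) (hq : q = Y / Z)
    (Q0 : (1 - b) * (d - a ^ 2 * c) + (a - c) * (d - a * b) = 0)
    (R0 : (d - b) * (d ^ 2 - a * c ^ 2) + d * (c - a) * (d - b * c) = 0)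
    (jL3 : L3 = -(a ^ 2 * A * B * C * V) / (BA * CA * DA * E))
    (jG11 : G11 = 1 + A * DC * W / (c * D * E))
    (jH11 : H11 = 1 - A * DC * V / (a * D * E))
    (jo : o = S / E) :
    (c * o * p * q / b) = L3 * (c * (c * p * q * G11 / (a ^ 2 * b))) + (1 - L3) * (c ^ 3 * (a *
      p * q * H11 / (b * c ^ 2))) := by
  have e : ((c * o * p * q / b)) - (L3 * (c * (c * p * q * G11 / (a ^ 2 * b))) + (1 - L3) * (c ^ 3 * (a
      * p * q * H11 / (b * c ^ 2)))) = c * A ^ 2 * C * V * p * q * ((-1) * ((1 - b) * (d - a ^ 2 *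
      c) + (a - c) * (d - a * b)) + (0) * ((d - b) * (d ^ 2 - a * c ^ 2) + d * (c - a) * (d - b *
      c))) / (b * DA * CA * D * BA * E) := by
    rw [jL3, jG11, jH11, jo]
    field_simp
    simp only [hA, hB, hC, hD, hBA, hCA, hCB, hDA, hDB, hDC, hE, hW, hV, hS, hP, hZ, hX, hY]
    ring1
  rw [Q0, R0] at e
  exact sub_eq_zero.1 (e.trans (by ring))

theorem d5w33 {a b c d A B C D BA CA CB DA DB DC E W V S P Z X Y p q M3 G11 H11 o : F}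
    (na : a ≠ 0) (nb : b ≠ 0) (nc : c ≠ 0) (nd : d ≠ 0) (nA : A ≠ 0) (nB : B ≠ 0) (nC : C ≠ 0) (nD
    : D ≠ 0) (nBA : BA ≠ 0) (nCA : CA ≠ 0) (nCB : CB ≠ 0) (nDA : DA ≠ 0) (nDB : DB ≠ 0) (nDC : DC
    ≠ 0) (nE : E ≠ 0) (nZ : Z ≠ 0)
    (hA : A = a - 1) (hB : B = b - 1) (hC : C = c - 1) (hD : D = d - 1) (hBA : BA = b - a) (hCA :
    CA = c - a) (hCB : CB = c - b) (hDA : DA = d - a) (hDB : DB = d - b) (hDC : DC = d - c) (hE :
    E = a * c + d) (hW : W = a * c + a * d + d) (hV : V = c + a * c + d) (hS : S = c + d) (hP : P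
    = a + 1) (hZ : Z = (d - 1) * (a * c + d) + 2 * d * (c - a)) (hX : X = a * b * c * d + b * c *
    d + a * c * d - a * b * d - a * b * c + a * d ^ 2 - a ^ 2 * d - a * d) (hY : Y = a * b * c * d
    + c ^ 2 * d + c * d ^ 2 + b * c * d - a * c * d - a * b * d - a * b * c - c * d)
    (hp : p = X / Z) (hq : q = Y / Z)
    (Q0 : (1 - b) * (d - a ^ 2 * c) + (a - c) * (d - a * b) = 0)
    (R0 : (d - b) * (d ^ 2 - a * c ^ 2) + d * (c - a) * (d - b * c) = 0)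
    (jM3 : M3 = -(d * A * B * C * W) / (BA * CA * DA * E))
    (jG11 : G11 = 1 + A * DC * W / (c * D * E))
    (jH11 : H11 = 1 - A * DC * V / (a * D * E))
    (jo : o = S / E) :
    c ^ 4 * (o * p * q / (b * c ^ 2)) = (1 - M3) * (c * (c * p * q * G11 / (a ^ 2 * b))) + M3 *
      (c ^ 3 * (a * p * q * H11 / (b * c ^ 2))) := by
  have e : (c ^ 4 * (o * p * q / (b * c ^ 2))) - ((1 - M3) * (c * (c * p * q * G11 / (a ^ 2 * b))) + M3
      * (c ^ 3 * (a * p * q * H11 / (b * c ^ 2)))) = c * d * A ^ 2 * C * W * p * q * ((1) * ((1 -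
      b) * (d - a ^ 2 * c) + (a - c) * (d - a * b)) + (0) * ((d - b) * (d ^ 2 - a * c ^ 2) + d *
      (c - a) * (d - b * c))) / (b * DA * CA * D * BA * a ^ 2 * E) := by
    rw [jM3, jG11, jH11, jo]
    field_simp
    simp only [hA, hB, hC, hD, hBA, hCA, hCB, hDA, hDB, hDC, hE, hW, hV, hS, hP, hZ, hX, hY]
    ring1
  rw [Q0, R0] at e
  exact sub_eq_zero.1 (e.trans (by ring))

theorem d5u40 {a b c d A B C D BA CA CB DA DB DC E W V S P Z X Y p q L0 w : F}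
    (na : a ≠ 0) (nb : b ≠ 0) (nc : c ≠ 0) (nd : d ≠ 0) (nA : A ≠ 0) (nB : B ≠ 0) (nC : C ≠ 0) (nD
    : D ≠ 0) (nBA : BA ≠ 0) (nCA : CA ≠ 0) (nCB : CB ≠ 0) (nDA : DA ≠ 0) (nDB : DB ≠ 0) (nDC : DC
    ≠ 0) (nE : E ≠ 0) (nZ : Z ≠ 0)
    (hA : A = a - 1) (hB : B = b - 1) (hC : C = c - 1) (hD : D = d - 1) (hBA : BA = b - a) (hCA :
    CA = c - a) (hCB : CB = c - b) (hDA : DA = d - a) (hDB : DB = d - b) (hDC : DC = d - c) (hE :
    E = a * c + d) (hW : W = a * c + a * d + d) (hV : V = c + a * c + d) (hS : S = c + d) (hP : P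
    = a + 1) (hZ : Z = (d - 1) * (a * c + d) + 2 * d * (c - a)) (hX : X = a * b * c * d + b * c *
    d + a * c * d - a * b * d - a * b * c + a * d ^ 2 - a ^ 2 * d - a * d) (hY : Y = a * b * c * d
    + c ^ 2 * d + c * d ^ 2 + b * c * d - a * c * d - a * b * d - a * b * c - c * d)
    (hp : p = X / Z) (hq : q = Y / Z)
    (Q0 : (1 - b) * (d - a ^ 2 * c) + (a - c) * (d - a * b) = 0)
    (R0 : (d - b) * (d ^ 2 - a * c ^ 2) + d * (c - a) * (d - b * c) = 0)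
    (jL0 : L0 = DC * W / (c * D * E))
    (jw : w = P / E) :
    (d ^ 2 * w / c) = L0 * (d) + (1 - L0) * (1) := by
  rw [jL0, jw]
  field_simp
  try simp only [hA, hB, hC, hD, hBA, hCA, hCB, hDA, hDB, hDC, hE, hW, hV, hS, hP, hZ, hX, hY]
  try ring1

theorem d5w40 {a b c d A B C D BA CA CB DA DB DC E W V S P Z X Y p q M0 w : F}
    (na : a ≠ 0) (nb : b ≠ 0) (nc : c ≠ 0) (nd : d ≠ 0) (nA : A ≠ 0) (nB : B ≠ 0) (nC : C ≠ 0) (nD
    : D ≠ 0) (nBA : BA ≠ 0) (nCA : CA ≠ 0) (nCB : CB ≠ 0) (nDA : DA ≠ 0) (nDB : DB ≠ 0) (nDC : DC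
    ≠ 0) (nE : E ≠ 0) (nZ : Z ≠ 0)
    (hA : A = a - 1) (hB : B = b - 1) (hC : C = c - 1) (hD : D = d - 1) (hBA : BA = b - a) (hCA :
    CA = c - a) (hCB : CB = c - b) (hDA : DA = d - a) (hDB : DB = d - b) (hDC : DC = d - c) (hE :
    E = a * c + d) (hW : W = a * c + a * d + d) (hV : V = c + a * c + d) (hS : S = c + d) (hP : P
    = a + 1) (hZ : Z = (d - 1) * (a * c + d) + 2 * d * (c - a)) (hX : X = a * b * c * d + b * c *
    d + a * c * d - a * b * d - a * b * c + a * d ^ 2 - a ^ 2 * d - a * d) (hY : Y = a * b * c * d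
    + c ^ 2 * d + c * d ^ 2 + b * c * d - a * c * d - a * b * d - a * b * c - c * d)
    (hp : p = X / Z) (hq : q = Y / Z)
    (Q0 : (1 - b) * (d - a ^ 2 * c) + (a - c) * (d - a * b) = 0)
    (R0 : (d - b) * (d ^ 2 - a * c ^ 2) + d * (c - a) * (d - b * c) = 0)
    (jM0 : M0 = DC * V / (D * E))
    (jw : w = P / E) :
    d * (c ^ 2 * w / d) = (1 - M0) * (d) + M0 * (1) := by
  rw [jM0, jw]
  field_simp
  try simp only [hA, hB, hC, hD, hBA, hCA, hCB, hDA, hDB, hDC, hE, hW, hV, hS, hP, hZ, hX, hY]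
  try ring1

theorem d5u41 {a b c d A B C D BA CA CB DA DB DC E W V S P Z X Y p q L1 w : F}
    (na : a ≠ 0) (nb : b ≠ 0) (nc : c ≠ 0) (nd : d ≠ 0) (nA : A ≠ 0) (nB : B ≠ 0) (nC : C ≠ 0) (nD
    : D ≠ 0) (nBA : BA ≠ 0) (nCA : CA ≠ 0) (nCB : CB ≠ 0) (nDA : DA ≠ 0) (nDB : DB ≠ 0) (nDC : DC
    ≠ 0) (nE : E ≠ 0) (nZ : Z ≠ 0)
    (hA : A = a - 1) (hB : B = b - 1) (hC : C = c - 1) (hD : D = d - 1) (hBA : BA = b - a) (hCA :
    CA = c - a) (hCB : CB = c - b) (hDA : DA = d - a) (hDB : DB = d - b) (hDC : DC = d - c) (hE :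
    E = a * c + d) (hW : W = a * c + a * d + d) (hV : V = c + a * c + d) (hS : S = c + d) (hP : P
    = a + 1) (hZ : Z = (d - 1) * (a * c + d) + 2 * d * (c - a)) (hX : X = a * b * c * d + b * c *
    d + a * c * d - a * b * d - a * b * c + a * d ^ 2 - a ^ 2 * d - a * d) (hY : Y = a * b * c * d
    + c ^ 2 * d + c * d ^ 2 + b * c * d - a * c * d - a * b * d - a * b * c - c * d)
    (hp : p = X / Z) (hq : q = Y / Z)
    (Q0 : (1 - b) * (d - a ^ 2 * c) + (a - c) * (d - a * b) = 0)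
    (R0 : (d - b) * (d ^ 2 - a * c ^ 2) + d * (c - a) * (d - b * c) = 0)
    (jL1 : L1 = c * d * CB * DB / (b ^ 2 * DC * Z))
    (jw : w = P / E) :
    (d ^ 2 * w * q / b ^ 2) = L1 * (d * (d ^ 2 * w / c)) + (1 - L1) * (d * (c ^ 2 * w / d)) := by
  have e : C * (((d ^ 2 * w * q / b ^ 2)) - (L1 * (d * (d ^ 2 * w / c)) + (1 - L1) * (d * (c ^ 2 * w /
      d)))) = P * ((-b * c ^ 3 - b * c ^ 2 * d + c ^ 3 * d + c * d ^ 2) * ((1 - b) * (d - a ^ 2 *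
      c) + (a - c) * (d - a * b)) + (a * b * c ^ 2 - a * b * c - a * c ^ 2 + 2 * b * c ^ 2 + b * c
      * d - b * c - b * d) * ((d - b) * (d ^ 2 - a * c ^ 2) + d * (c - a) * (d - b * c))) / (b ^ 2
      * Z * E) := by
    rw [jL1, jw, hq]
    field_simp
    simp only [hA, hB, hC, hD, hBA, hCA, hCB, hDA, hDB, hDC, hE, hW, hV, hS, hP, hZ, hX, hY]
    ring1
  rw [Q0, R0] at e
  have e2 := (mul_eq_zero.1 (e.trans (by ring))).resolve_left nC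
  exact sub_eq_zero.1 e2

theorem d5w41 {a b c d A B C D BA CA CB DA DB DC E W V S P Z X Y p q M1 w : F}
    (na : a ≠ 0) (nb : b ≠ 0) (nc : c ≠ 0) (nd : d ≠ 0) (nA : A ≠ 0) (nB : B ≠ 0) (nC : C ≠ 0) (nD
    : D ≠ 0) (nBA : BA ≠ 0) (nCA : CA ≠ 0) (nCB : CB ≠ 0) (nDA : DA ≠ 0) (nDB : DB ≠ 0) (nDC : DC
    ≠ 0) (nE : E ≠ 0) (nZ : Z ≠ 0)
    (hA : A = a - 1) (hB : B = b - 1) (hC : C = c - 1) (hD : D = d - 1) (hBA : BA = b - a) (hCA :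
    CA = c - a) (hCB : CB = c - b) (hDA : DA = d - a) (hDB : DB = d - b) (hDC : DC = d - c) (hE :
    E = a * c + d) (hW : W = a * c + a * d + d) (hV : V = c + a * c + d) (hS : S = c + d) (hP : P
    = a + 1) (hZ : Z = (d - 1) * (a * c + d) + 2 * d * (c - a)) (hX : X = a * b * c * d + b * c *
    d + a * c * d - a * b * d - a * b * c + a * d ^ 2 - a ^ 2 * d - a * d) (hY : Y = a * b * c * d
    + c ^ 2 * d + c * d ^ 2 + b * c * d - a * c * d - a * b * d - a * b * c - c * d)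
    (hp : p = X / Z) (hq : q = Y / Z)
    (Q0 : (1 - b) * (d - a ^ 2 * c) + (a - c) * (d - a * b) = 0)
    (R0 : (d - b) * (d ^ 2 - a * c ^ 2) + d * (c - a) * (d - b * c) = 0)
    (jM1 : M1 = a * d * CB * DB / (DC * Z))
    (jw : w = P / E) :
    d ^ 2 * (b * w * q / d) = (1 - M1) * (d * (d ^ 2 * w / c)) + M1 * (d * (c ^ 2 * w / d)) := by
  have e : C * ((d ^ 2 * (b * w * q / d)) - ((1 - M1) * (d * (d ^ 2 * w / c)) + M1 * (d * (c ^ 2 * w /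
      d)))) = d * P * ((b * c ^ 2 + b * c * d - c ^ 2 * d - d ^ 2) * ((1 - b) * (d - a ^ 2 * c) +
      (a - c) * (d - a * b)) + (-a * b * c + a * b + a * c - b * c - c ^ 2 - c * d + c + d) * ((d
      - b) * (d ^ 2 - a * c ^ 2) + d * (c - a) * (d - b * c))) / (c * Z * E) := by
    rw [jM1, jw, hq]
    field_simp
    simp only [hA, hB, hC, hD, hBA, hCA, hCB, hDA, hDB, hDC, hE, hW, hV, hS, hP, hZ, hX, hY]
    ring1
  rw [Q0, R0] at e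
  have e2 := (mul_eq_zero.1 (e.trans (by ring))).resolve_left nC
  exact sub_eq_zero.1 e2

theorem d5u42 {a b c d A B C D BA CA CB DA DB DC E W V S P Z X Y p q L2 w : F}
    (na : a ≠ 0) (nb : b ≠ 0) (nc : c ≠ 0) (nd : d ≠ 0) (nA : A ≠ 0) (nB : B ≠ 0) (nC : C ≠ 0) (nD
    : D ≠ 0) (nBA : BA ≠ 0) (nCA : CA ≠ 0) (nCB : CB ≠ 0) (nDA : DA ≠ 0) (nDB : DB ≠ 0) (nDC : DC
    ≠ 0) (nE : E ≠ 0) (nZ : Z ≠ 0)
    (hA : A = a - 1) (hB : B = b - 1) (hC : C = c - 1) (hD : D = d - 1) (hBA : BA = b - a) (hCA :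
    CA = c - a) (hCB : CB = c - b) (hDA : DA = d - a) (hDB : DB = d - b) (hDC : DC = d - c) (hE :
    E = a * c + d) (hW : W = a * c + a * d + d) (hV : V = c + a * c + d) (hS : S = c + d) (hP : P
    = a + 1) (hZ : Z = (d - 1) * (a * c + d) + 2 * d * (c - a)) (hX : X = a * b * c * d + b * c *
    d + a * c * d - a * b * d - a * b * c + a * d ^ 2 - a ^ 2 * d - a * d) (hY : Y = a * b * c * d
    + c ^ 2 * d + c * d ^ 2 + b * c * d - a * c * d - a * b * d - a * b * c - c * d)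
    (hp : p = X / Z) (hq : q = Y / Z)
    (Q0 : (1 - b) * (d - a ^ 2 * c) + (a - c) * (d - a * b) = 0)
    (R0 : (d - b) * (d ^ 2 - a * c ^ 2) + d * (c - a) * (d - b * c) = 0)
    (jL2 : L2 = -(b * d * BA * CA * DA) / (a ^ 2 * CB * DB * Z))
    (jw : w = P / E) :
    (d ^ 2 * w * p * q / (a ^ 2 * b)) = L2 * (d * (d ^ 2 * w * q / b ^ 2)) + (1 - L2) * (d ^ 2 *
      (b * w * q / d)) := by
  have e : ((d ^ 2 * w * p * q / (a ^ 2 * b))) - (L2 * (d * (d ^ 2 * w * q / b ^ 2)) + (1 - L2) * (d ^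
      2 * (b * w * q / d))) = d * P * Y * ((-a * b ^ 3 * c - 2 * a * b ^ 3 * d + 2 * a * b ^ 2 * c
      * d + a * b ^ 2 * d ^ 2 - a * b ^ 2 * d - a * b * c * d ^ 2 + a * b * c * d + 2 * a * b * d
      ^ 2 - a * c * d ^ 2 + b ^ 3 * c * d + b ^ 2 * d ^ 2 - b * c * d ^ 2 - b * d ^ 3) * ((1 - b)
      * (d - a ^ 2 * c) + (a - c) * (d - a * b)) + (a ^ 2 * b ^ 3 - 2 * a ^ 2 * b ^ 2 + a ^ 2 * d
      + a * b ^ 3 - a * b * d - b ^ 2 * d + b * d) * ((d - b) * (d ^ 2 - a * c ^ 2) + d * (c - a)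
      * (d - b * c))) / (b * Z ^ 2 * CB * DB * a ^ 2 * E) := by
    rw [jL2, jw, hp, hq]
    field_simp
    simp only [hA, hB, hC, hD, hBA, hCA, hCB, hDA, hDB, hDC, hE, hW, hV, hS, hP, hZ, hX, hY]
    ring1
  rw [Q0, R0] at e
  exact sub_eq_zero.1 (e.trans (by ring))

theorem d5w42 {a b c d A B C D BA CA CB DA DB DC E W V S P Z X Y p q M2 w : F}
    (na : a ≠ 0) (nb : b ≠ 0) (nc : c ≠ 0) (nd : d ≠ 0) (nA : A ≠ 0) (nB : B ≠ 0) (nC : C ≠ 0) (nD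
    : D ≠ 0) (nBA : BA ≠ 0) (nCA : CA ≠ 0) (nCB : CB ≠ 0) (nDA : DA ≠ 0) (nDB : DB ≠ 0) (nDC : DC
    ≠ 0) (nE : E ≠ 0) (nZ : Z ≠ 0)
    (hA : A = a - 1) (hB : B = b - 1) (hC : C = c - 1) (hD : D = d - 1) (hBA : BA = b - a) (hCA :
    CA = c - a) (hCB : CB = c - b) (hDA : DA = d - a) (hDB : DB = d - b) (hDC : DC = d - c) (hE :
    E = a * c + d) (hW : W = a * c + a * d + d) (hV : V = c + a * c + d) (hS : S = c + d) (hP : P
    = a + 1) (hZ : Z = (d - 1) * (a * c + d) + 2 * d * (c - a)) (hX : X = a * b * c * d + b * c *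
    d + a * c * d - a * b * d - a * b * c + a * d ^ 2 - a ^ 2 * d - a * d) (hY : Y = a * b * c * d
    + c ^ 2 * d + c * d ^ 2 + b * c * d - a * c * d - a * b * d - a * b * c - c * d)
    (hp : p = X / Z) (hq : q = Y / Z)
    (Q0 : (1 - b) * (d - a ^ 2 * c) + (a - c) * (d - a * b) = 0)
    (R0 : (d - b) * (d ^ 2 - a * c ^ 2) + d * (c - a) * (d - b * c) = 0)
    (jM2 : M2 = -(c * d * BA * CA * DA) / (CB * DB * Z))
    (jw : w = P / E) :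
    d ^ 3 * (a * w * p * q / (b * d)) = (1 - M2) * (d * (d ^ 2 * w * q / b ^ 2)) + M2 * (d ^ 2 *
      (b * w * q / d)) := by
  have e : (d ^ 3 * (a * w * p * q / (b * d))) - ((1 - M2) * (d * (d ^ 2 * w * q / b ^ 2)) + M2 * (d ^
      2 * (b * w * q / d))) = d ^ 2 * P * Y * ((a * b ^ 2 * c + a * b ^ 2 * d - a * b * c * d - a
      * d ^ 2 + b ^ 3 * d - 2 * b ^ 2 * c * d - b ^ 2 * d ^ 2 + b ^ 2 * d + b * c * d ^ 2 - b * c
      * d - 2 * b * d ^ 2 + 2 * c * d ^ 2 + d ^ 3) * ((1 - b) * (d - a ^ 2 * c) + (a - c) * (d - a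
      * b)) + (-a ^ 2 * b ^ 2 + a ^ 2 * b + a * b ^ 2 - a * d - b ^ 3 + 2 * b * d - d) * ((d - b)
      * (d ^ 2 - a * c ^ 2) + d * (c - a) * (d - b * c))) / (b ^ 2 * Z ^ 2 * CB * DB * E) := by
    rw [jM2, jw, hp, hq]
    field_simp
    simp only [hA, hB, hC, hD, hBA, hCA, hCB, hDA, hDB, hDC, hE, hW, hV, hS, hP, hZ, hX, hY]
    ring1
  rw [Q0, R0] at e
  exact sub_eq_zero.1 (e.trans (by ring))

theorem d5u43 {a b c d A B C D BA CA CB DA DB DC E W V S P Z X Y p q L3 o w : F}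
    (na : a ≠ 0) (nb : b ≠ 0) (nc : c ≠ 0) (nd : d ≠ 0) (nA : A ≠ 0) (nB : B ≠ 0) (nC : C ≠ 0) (nD
    : D ≠ 0) (nBA : BA ≠ 0) (nCA : CA ≠ 0) (nCB : CB ≠ 0) (nDA : DA ≠ 0) (nDB : DB ≠ 0) (nDC : DC
    ≠ 0) (nE : E ≠ 0) (nZ : Z ≠ 0)
    (hA : A = a - 1) (hB : B = b - 1) (hC : C = c - 1) (hD : D = d - 1) (hBA : BA = b - a) (hCA :
    CA = c - a) (hCB : CB = c - b) (hDA : DA = d - a) (hDB : DB = d - b) (hDC : DC = d - c) (hE :
    E = a * c + d) (hW : W = a * c + a * d + d) (hV : V = c + a * c + d) (hS : S = c + d) (hP : P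
    = a + 1) (hZ : Z = (d - 1) * (a * c + d) + 2 * d * (c - a)) (hX : X = a * b * c * d + b * c *
    d + a * c * d - a * b * d - a * b * c + a * d ^ 2 - a ^ 2 * d - a * d) (hY : Y = a * b * c * d
    + c ^ 2 * d + c * d ^ 2 + b * c * d - a * c * d - a * b * d - a * b * c - c * d)
    (hp : p = X / Z) (hq : q = Y / Z)
    (Q0 : (1 - b) * (d - a ^ 2 * c) + (a - c) * (d - a * b) = 0)
    (R0 : (d - b) * (d ^ 2 - a * c ^ 2) + d * (c - a) * (d - b * c) = 0)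
    (jL3 : L3 = -(a ^ 2 * A * B * C * V) / (BA * CA * DA * E))
    (jo : o = S / E)
    (jw : w = P / E) :
    (d ^ 2 * o * w * p * q / b) = L3 * (d * (d ^ 2 * w * p * q / (a ^ 2 * b))) + (1 - L3) * (d ^
      3 * (a * w * p * q / (b * d))) := by
  have e : ((d ^ 2 * o * w * p * q / b)) - (L3 * (d * (d ^ 2 * w * p * q / (a ^ 2 * b))) + (1 - L3) *
      (d ^ 3 * (a * w * p * q / (b * d)))) = d ^ 2 * A ^ 2 * V * P * p * q * ((-1) * ((1 - b) * (d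
      - a ^ 2 * c) + (a - c) * (d - a * b)) + (0) * ((d - b) * (d ^ 2 - a * c ^ 2) + d * (c - a) *
      (d - b * c))) / (b * DA * BA * CA * E ^ 2) := by
    rw [jL3, jo, jw]
    field_simp
    simp only [hA, hB, hC, hD, hBA, hCA, hCB, hDA, hDB, hDC, hE, hW, hV, hS, hP, hZ, hX, hY]
    ring1
  rw [Q0, R0] at e
  exact sub_eq_zero.1 (e.trans (by ring))

theorem d5w43 {a b c d A B C D BA CA CB DA DB DC E W V S P Z X Y p q M3 o w : F}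
    (na : a ≠ 0) (nb : b ≠ 0) (nc : c ≠ 0) (nd : d ≠ 0) (nA : A ≠ 0) (nB : B ≠ 0) (nC : C ≠ 0) (nD
    : D ≠ 0) (nBA : BA ≠ 0) (nCA : CA ≠ 0) (nCB : CB ≠ 0) (nDA : DA ≠ 0) (nDB : DB ≠ 0) (nDC : DC
    ≠ 0) (nE : E ≠ 0) (nZ : Z ≠ 0)
    (hA : A = a - 1) (hB : B = b - 1) (hC : C = c - 1) (hD : D = d - 1) (hBA : BA = b - a) (hCA :
    CA = c - a) (hCB : CB = c - b) (hDA : DA = d - a) (hDB : DB = d - b) (hDC : DC = d - c) (hE :
    E = a * c + d) (hW : W = a * c + a * d + d) (hV : V = c + a * c + d) (hS : S = c + d) (hP : P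
    = a + 1) (hZ : Z = (d - 1) * (a * c + d) + 2 * d * (c - a)) (hX : X = a * b * c * d + b * c *
    d + a * c * d - a * b * d - a * b * c + a * d ^ 2 - a ^ 2 * d - a * d) (hY : Y = a * b * c * d
    + c ^ 2 * d + c * d ^ 2 + b * c * d - a * c * d - a * b * d - a * b * c - c * d)
    (hp : p = X / Z) (hq : q = Y / Z)
    (Q0 : (1 - b) * (d - a ^ 2 * c) + (a - c) * (d - a * b) = 0)
    (R0 : (d - b) * (d ^ 2 - a * c ^ 2) + d * (c - a) * (d - b * c) = 0)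
    (jM3 : M3 = -(d * A * B * C * W) / (BA * CA * DA * E))
    (jo : o = S / E)
    (jw : w = P / E) :
    d ^ 4 * (o * w * p * q / (b * d)) = (1 - M3) * (d * (d ^ 2 * w * p * q / (a ^ 2 * b))) + M3
      * (d ^ 3 * (a * w * p * q / (b * d))) := by
  have e : (d ^ 4 * (o * w * p * q / (b * d))) - ((1 - M3) * (d * (d ^ 2 * w * p * q / (a ^ 2 * b))) +
      M3 * (d ^ 3 * (a * w * p * q / (b * d)))) = d ^ 3 * A ^ 2 * W * P * p * q * ((1) * ((1 - b)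
      * (d - a ^ 2 * c) + (a - c) * (d - a * b)) + (0) * ((d - b) * (d ^ 2 - a * c ^ 2) + d * (c -
      a) * (d - b * c))) / (b * DA * CA * BA * a ^ 2 * E ^ 2) := by
    rw [jM3, jo, jw]
    field_simp
    simp only [hA, hB, hC, hD, hBA, hCA, hCB, hDA, hDB, hDC, hE, hW, hV, hS, hP, hZ, hX, hY]
    ring1
  rw [Q0, R0] at e
  exact sub_eq_zero.1 (e.trans (by ring))

end Pool.Agent.Helper76.IP
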