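import Mathlib

/-!
TH-P, phase 2, family D5 (reversed form): cells of the table (generated).
-/

namespace Pool.Agent.Helper76.IP

set_option linter.unusedVariables false
set_option linter.unusedSimpArgs false
set_option maxRecDepth 100000

variable {F : Type*} [Field F]

theorem d5x01 {a b c d A B C D BA CA CB DA DB DC E W V S P Z X Y p q s1 K0 G11 : F}
    (na : a ≠ 0) (nb : b ≠ 0) (nc : c ≠ 0) (nd : d ≠ 0) (nA : A ≠ 0) (nB : B ≠ 0) (nC : C ≠ 0) (nD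
    : D ≠ 0) (nBA : BA ≠ 0) (nCA : CA ≠ 0) (nCB : CB ≠ 0) (nDA : DA ≠ 0) (nDB : DB ≠ 0) (nDC : DC
    ≠ 0) (nE : E ≠ 0) (nZ : Z ≠ 0)
    (hA : A = a - 1) (hB : B = b - 1) (hC : C = c - 1) (hD : D = d - 1) (hBA : BA = b - a) (hCA :
    CA = c - a) (hCB : CB = c - b) (hDA : DA = d - a) (hDB : DB = d - b) (hDC : DC = d - c) (hE :
    E = a * c + d) (hW : W = a * c + a * d + d) (hV : V = c + a * c + d) (hS : S = c + d) (hP : P
    = a + 1) (hZ : Z = (d - 1) * (a * c + d) + 2 * d * (c - a)) (hX : X = a * b * c * d + b * c *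
    d + a * c * d - a * b * d - a * b * c + a * d ^ 2 - a ^ 2 * d - a * d) (hY : Y = a * b * c * d
    + c ^ 2 * d + c * d ^ 2 + b * c * d - a * c * d - a * b * d - a * b * c - c * d)
    (hp : p = X / Z) (hq : q = Y / Z)
    (Q0 : (1 - b) * (d - a ^ 2 * c) + (a - c) * (d - a * b) = 0)
    (R0 : (d - b) * (d ^ 2 - a * c ^ 2) + d * (c - a) * (d - b * c) = 0)
    (js1 : s1 = d / c)
    (jK0 : K0 = A * W / (D * E))
    (jG11 : G11 = 1 + A * DC * W / (c * D * E)) :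
    G11 = K0 * (s1) + (1 - K0) * (1) := by
  rw [js1, jK0, jG11]
  field_simp
  try simp only [hA, hB, hC, hD, hBA, hCA, hCB, hDA, hDB, hDC, hE, hW, hV, hS, hP, hZ, hX, hY]
  try ring1

theorem d5y01 {a b c d A B C D BA CA CB DA DB DC E W V S P Z X Y p q s1 N0 H11 : F}
    (na : a ≠ 0) (nb : b ≠ 0) (nc : c ≠ 0) (nd : d ≠ 0) (nA : A ≠ 0) (nB : B ≠ 0) (nC : C ≠ 0) (nD
    : D ≠ 0) (nBA : BA ≠ 0) (nCA : CA ≠ 0) (nCB : CB ≠ 0) (nDA : DA ≠ 0) (nDB : DB ≠ 0) (nDC : DC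
    ≠ 0) (nE : E ≠ 0) (nZ : Z ≠ 0)
    (hA : A = a - 1) (hB : B = b - 1) (hC : C = c - 1) (hD : D = d - 1) (hBA : BA = b - a) (hCA :
    CA = c - a) (hCB : CB = c - b) (hDA : DA = d - a) (hDB : DB = d - b) (hDC : DC = d - c) (hE :
    E = a * c + d) (hW : W = a * c + a * d + d) (hV : V = c + a * c + d) (hS : S = c + d) (hP : P
    = a + 1) (hZ : Z = (d - 1) * (a * c + d) + 2 * d * (c - a)) (hX : X = a * b * c * d + b * c *
    d + a * c * d - a * b * d - a * b * c + a * d ^ 2 - a ^ 2 * d - a * d) (hY : Y = a * b * c * d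
    + c ^ 2 * d + c * d ^ 2 + b * c * d - a * c * d - a * b * d - a * b * c - c * d)
    (hp : p = X / Z) (hq : q = Y / Z)
    (Q0 : (1 - b) * (d - a ^ 2 * c) + (a - c) * (d - a * b) = 0)
    (R0 : (d - b) * (d ^ 2 - a * c ^ 2) + d * (c - a) * (d - b * c) = 0)
    (js1 : s1 = d / c)
    (jN0 : N0 = d * A * V / (a * D * E))
    (jH11 : H11 = 1 - A * DC * V / (a * D * E)) :
    s1 * H11 = (1 - N0) * (s1) + N0 * (1) := by
  rw [js1, jN0, jH11]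
  field_simp
  try simp only [hA, hB, hC, hD, hBA, hCA, hCB, hDA, hDB, hDC, hE, hW, hV, hS, hP, hZ, hX, hY]
  try ring1

theorem d5x11 {a b c d A B C D BA CA CB DA DB DC E W V S P Z X Y p q s1 K1 G11 G21 H11 : F}
    (na : a ≠ 0) (nb : b ≠ 0) (nc : c ≠ 0) (nd : d ≠ 0) (nA : A ≠ 0) (nB : B ≠ 0) (nC : C ≠ 0) (nD
    : D ≠ 0) (nBA : BA ≠ 0) (nCA : CA ≠ 0) (nCB : CB ≠ 0) (nDA : DA ≠ 0) (nDB : DB ≠ 0) (nDC : DC
    ≠ 0) (nE : E ≠ 0) (nZ : Z ≠ 0)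
    (hA : A = a - 1) (hB : B = b - 1) (hC : C = c - 1) (hD : D = d - 1) (hBA : BA = b - a) (hCA :
    CA = c - a) (hCB : CB = c - b) (hDA : DA = d - a) (hDB : DB = d - b) (hDC : DC = d - c) (hE :
    E = a * c + d) (hW : W = a * c + a * d + d) (hV : V = c + a * c + d) (hS : S = c + d) (hP : P
    = a + 1) (hZ : Z = (d - 1) * (a * c + d) + 2 * d * (c - a)) (hX : X = a * b * c * d + b * c *
    d + a * c * d - a * b * d - a * b * c + a * d ^ 2 - a ^ 2 * d - a * d) (hY : Y = a * b * c * d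
    + c ^ 2 * d + c * d ^ 2 + b * c * d - a * c * d - a * b * d - a * b * c - c * d)
    (hp : p = X / Z) (hq : q = Y / Z)
    (Q0 : (1 - b) * (d - a ^ 2 * c) + (a - c) * (d - a * b) = 0)
    (R0 : (d - b) * (d ^ 2 - a * c ^ 2) + d * (c - a) * (d - b * c) = 0)
    (js1 : s1 = d / c)
    (jK1 : K1 = c * B * BA / (A * Z))
    (jG11 : G11 = 1 + A * DC * W / (c * D * E))
    (jG21 : G21 = 1 + B * DC * W / (c * D * E))
    (jH11 : H11 = 1 - A * DC * V / (a * D * E)) :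
    G21 = K1 * (s1 * G11) + (1 - K1) * (s1 * H11) := by
  have e : C * ((G21) - (K1 * (s1 * G11) + (1 - K1) * (s1 * H11))) = DC * ((a * c ^ 2 * d + a * c * d ^
      2 - a * c * d - a * d ^ 2 - b * c ^ 2 - 2 * b * c * d - b * d ^ 2 + 2 * c ^ 2 * d + 3 * c *
      d ^ 2 - c * d + d ^ 3 - d ^ 2) * ((1 - b) * (d - a ^ 2 * c) + (a - c) * (d - a * b)) + (-a ^
      2 * c + a ^ 2 + a * b * c - a * b - a * c - a * d + b * c + b * d) * ((d - b) * (d ^ 2 - a *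
      c ^ 2) + d * (c - a) * (d - b * c))) / (c * Z * D * a * E) := by
    rw [js1, jK1, jG11, jG21, jH11]
    field_simp
    simp only [hA, hB, hC, hD, hBA, hCA, hCB, hDA, hDB, hDC, hE, hW, hV, hS, hP, hZ, hX, hY]
    ring1
  rw [Q0, R0] at e
  have e2 := (mul_eq_zero.1 (e.trans (by ring))).resolve_left nC
  exact sub_eq_zero.1 e2

theorem d5y11 {a b c d A B C D BA CA CB DA DB DC E W V S P Z X Y p q s1 N1 G11 H11 H21 : F}
    (na : a ≠ 0) (nb : b ≠ 0) (nc : c ≠ 0) (nd : d ≠ 0) (nA : A ≠ 0) (nB : B ≠ 0) (nC : C ≠ 0) (nD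
    : D ≠ 0) (nBA : BA ≠ 0) (nCA : CA ≠ 0) (nCB : CB ≠ 0) (nDA : DA ≠ 0) (nDB : DB ≠ 0) (nDC : DC
    ≠ 0) (nE : E ≠ 0) (nZ : Z ≠ 0)
    (hA : A = a - 1) (hB : B = b - 1) (hC : C = c - 1) (hD : D = d - 1) (hBA : BA = b - a) (hCA :
    CA = c - a) (hCB : CB = c - b) (hDA : DA = d - a) (hDB : DB = d - b) (hDC : DC = d - c) (hE :
    E = a * c + d) (hW : W = a * c + a * d + d) (hV : V = c + a * c + d) (hS : S = c + d) (hP : P
    = a + 1) (hZ : Z = (d - 1) * (a * c + d) + 2 * d * (c - a)) (hX : X = a * b * c * d + b * c *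
    d + a * c * d - a * b * d - a * b * c + a * d ^ 2 - a ^ 2 * d - a * d) (hY : Y = a * b * c * d
    + c ^ 2 * d + c * d ^ 2 + b * c * d - a * c * d - a * b * d - a * b * c - c * d)
    (hp : p = X / Z) (hq : q = Y / Z)
    (Q0 : (1 - b) * (d - a ^ 2 * c) + (a - c) * (d - a * b) = 0)
    (R0 : (d - b) * (d ^ 2 - a * c ^ 2) + d * (c - a) * (d - b * c) = 0)
    (js1 : s1 = d / c)
    (jN1 : N1 = a * d ^ 2 * B * BA / (b ^ 2 * A * Z))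
    (jG11 : G11 = 1 + A * DC * W / (c * D * E))
    (jH11 : H11 = 1 - A * DC * V / (a * D * E))
    (jH21 : H21 = 1 - B * DC * V / (b * D * E)) :
    s1 ^ 2 * H21 = (1 - N1) * (s1 * G11) + N1 * (s1 * H11) := by
  have e : C * ((s1 ^ 2 * H21) - ((1 - N1) * (s1 * G11) + N1 * (s1 * H11))) = d * DC * ((-a * b * c ^ 2
      * d + a * b * c ^ 2 - a * b * c * d ^ 2 + 3 * a * b * c * d + 2 * a * b * d ^ 2 - a * c ^ 2
      * d - 2 * a * c * d ^ 2 - a * d ^ 3 - b * c ^ 2 * d - b * c * d ^ 2 + b * c * d + b * d ^ 2)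
      * ((1 - b) * (d - a ^ 2 * c) + (a - c) * (d - a * b)) + (a ^ 2 * c + a ^ 2 * d - a * b * c -
      a * b * d - a * c * d + a * d + b * c * d - b * d) * ((d - b) * (d ^ 2 - a * c ^ 2) + d * (c
      - a) * (d - b * c))) / (b ^ 2 * c ^ 2 * Z * D * E) := by
    rw [js1, jN1, jG11, jH11, jH21]
    field_simp
    simp only [hA, hB, hC, hD, hBA, hCA, hCB, hDA, hDB, hDC, hE, hW, hV, hS, hP, hZ, hX, hY]
    ring1
  rw [Q0, R0] at e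
  have e2 := (mul_eq_zero.1 (e.trans (by ring))).resolve_left nC
  exact sub_eq_zero.1 e2

theorem d5x21 {a b c d A B C D BA CA CB DA DB DC E W V S P Z X Y p q s1 K2 G21 G31 H21 : F}
    (na : a ≠ 0) (nb : b ≠ 0) (nc : c ≠ 0) (nd : d ≠ 0) (nA : A ≠ 0) (nB : B ≠ 0) (nC : C ≠ 0) (nD
    : D ≠ 0) (nBA : BA ≠ 0) (nCA : CA ≠ 0) (nCB : CB ≠ 0) (nDA : DA ≠ 0) (nDB : DB ≠ 0) (nDC : DC
    ≠ 0) (nE : E ≠ 0) (nZ : Z ≠ 0)
    (hA : A = a - 1) (hB : B = b - 1) (hC : C = c - 1) (hD : D = d - 1) (hBA : BA = b - a) (hCA :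
    CA = c - a) (hCB : CB = c - b) (hDA : DA = d - a) (hDB : DB = d - b) (hDC : DC = d - c) (hE :
    E = a * c + d) (hW : W = a * c + a * d + d) (hV : V = c + a * c + d) (hS : S = c + d) (hP : P
    = a + 1) (hZ : Z = (d - 1) * (a * c + d) + 2 * d * (c - a)) (hX : X = a * b * c * d + b * c *
    d + a * c * d - a * b * d - a * b * c + a * d ^ 2 - a ^ 2 * d - a * d) (hY : Y = a * b * c * d
    + c ^ 2 * d + c * d ^ 2 + b * c * d - a * c * d - a * b * d - a * b * c - c * d)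
    (hp : p = X / Z) (hq : q = Y / Z)
    (Q0 : (1 - b) * (d - a ^ 2 * c) + (a - c) * (d - a * b) = 0)
    (R0 : (d - b) * (d ^ 2 - a * c ^ 2) + d * (c - a) * (d - b * c) = 0)
    (js1 : s1 = d / c)
    (jK2 : K2 = -(a * C * CA * CB) / (B * BA * Z))
    (jG21 : G21 = 1 + B * DC * W / (c * D * E))
    (jG31 : G31 = 1 + C * DC * W / (c * D * E))
    (jH21 : H21 = 1 - B * DC * V / (b * D * E)) :
    G31 = K2 * (s1 * G21) + (1 - K2) * (s1 ^ 2 * H21) := by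
  have e : (G31) - (K2 * (s1 * G21) + (1 - K2) * (s1 ^ 2 * H21)) = DC * ((a * b ^ 2 * c * d + a * b ^ 2
      * d ^ 2 - a * b * c ^ 3 * d + a * b * c ^ 3 + a * b * c ^ 2 - a * b * c * d ^ 2 + a * b * c
      * d - a * b * d ^ 2 - a * c ^ 2 * d + a * c * d ^ 3 - a * d ^ 3 - a * d ^ 2 + b ^ 2 * c ^ 3
      * d + b ^ 2 * c ^ 2 * d + b ^ 2 * c * d ^ 2 + b ^ 2 * d ^ 2 - b * c ^ 3 * d - 3 * b * c ^ 2
      * d ^ 2 - b * c ^ 2 * d - b * c * d ^ 3 - 2 * b * c * d ^ 2 - 3 * b * d ^ 3 - b * d ^ 2 + c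
      ^ 2 * d ^ 2 + 3 * c * d ^ 3 + c * d ^ 2 + 2 * d ^ 4 + d ^ 3) * ((1 - b) * (d - a ^ 2 * c) +
      (a - c) * (d - a * b)) + (a ^ 2 * b * d + a ^ 2 * b - a ^ 2 * c * d + a ^ 2 * c - a * b ^ 2
      * c ^ 2 - 2 * a * b ^ 2 * c * d + a * b ^ 2 * d + 4 * a * b * c * d - a * b * c + a * b * d
      ^ 2 + a * c ^ 2 * d - 3 * a * c * d - 3 * a * d ^ 2 - a * d - 3 * b ^ 2 * c * d - b ^ 2 * d
      ^ 2 - b * c ^ 2 * d + 3 * b * c * d + 3 * b * d ^ 2 + b * d + c ^ 2 * d + 2 * c * d ^ 2 - 2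
      * d ^ 2 - d) * ((d - b) * (d ^ 2 - a * c ^ 2) + d * (c - a) * (d - b * c))) / (b * c ^ 2 * Z
      * D * BA * B * E) := by
    rw [js1, jK2, jG21, jG31, jH21]
    field_simp
    simp only [hA, hB, hC, hD, hBA, hCA, hCB, hDA, hDB, hDC, hE, hW, hV, hS, hP, hZ, hX, hY]
    ring1
  rw [Q0, R0] at e
  exact sub_eq_zero.1 (e.trans (by ring))

theorem d5y21 {a b c d A B C D BA CA CB DA DB DC E W V S P Z X Y p q s1 N2 G21 H21 H31 : F}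
    (na : a ≠ 0) (nb : b ≠ 0) (nc : c ≠ 0) (nd : d ≠ 0) (nA : A ≠ 0) (nB : B ≠ 0) (nC : C ≠ 0) (nD
    : D ≠ 0) (nBA : BA ≠ 0) (nCA : CA ≠ 0) (nCB : CB ≠ 0) (nDA : DA ≠ 0) (nDB : DB ≠ 0) (nDC : DC
    ≠ 0) (nE : E ≠ 0) (nZ : Z ≠ 0)
    (hA : A = a - 1) (hB : B = b - 1) (hC : C = c - 1) (hD : D = d - 1) (hBA : BA = b - a) (hCA :
    CA = c - a) (hCB : CB = c - b) (hDA : DA = d - a) (hDB : DB = d - b) (hDC : DC = d - c) (hE :
    E = a * c + d) (hW : W = a * c + a * d + d) (hV : V = c + a * c + d) (hS : S = c + d) (hP : P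
    = a + 1) (hZ : Z = (d - 1) * (a * c + d) + 2 * d * (c - a)) (hX : X = a * b * c * d + b * c *
    d + a * c * d - a * b * d - a * b * c + a * d ^ 2 - a ^ 2 * d - a * d) (hY : Y = a * b * c * d
    + c ^ 2 * d + c * d ^ 2 + b * c * d - a * c * d - a * b * d - a * b * c - c * d)
    (hp : p = X / Z) (hq : q = Y / Z)
    (Q0 : (1 - b) * (d - a ^ 2 * c) + (a - c) * (d - a * b) = 0)
    (R0 : (d - b) * (d ^ 2 - a * c ^ 2) + d * (c - a) * (d - b * c) = 0)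
    (js1 : s1 = d / c)
    (jN2 : N2 = -(b * d ^ 2 * C * CA * CB) / (c ^ 2 * B * BA * Z))
    (jG21 : G21 = 1 + B * DC * W / (c * D * E))
    (jH21 : H21 = 1 - B * DC * V / (b * D * E))
    (jH31 : H31 = 1 - C * DC * V / (c * D * E)) :
    s1 ^ 3 * H31 = (1 - N2) * (s1 * G21) + N2 * (s1 ^ 2 * H21) := by
  have e : (s1 ^ 3 * H31) - ((1 - N2) * (s1 * G21) + N2 * (s1 ^ 2 * H21)) = d * DC * ((a * b * c ^ 3 *
      d - a * b * c ^ 3 + a * b * c ^ 2 * d ^ 2 - 2 * a * b * c ^ 2 * d - a * b * c ^ 2 - a * b *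
      c * d ^ 2 - a * b * c * d - a * c ^ 3 * d ^ 2 + a * c ^ 3 * d + a * c ^ 2 * d ^ 2 + a * c ^
      2 * d - a * c * d ^ 3 + a * c * d ^ 2 + a * d ^ 3 + a * d ^ 2 - b ^ 2 * c ^ 3 * d - b ^ 2 *
      c ^ 2 * d ^ 2 - b ^ 2 * c ^ 2 * d - 2 * b ^ 2 * c * d ^ 2 - b ^ 2 * d ^ 3 + b * c ^ 3 * d ^
      2 + b * c ^ 3 * d + 5 * b * c ^ 2 * d ^ 2 + b * c ^ 2 * d + 3 * b * c * d ^ 3 + b * c * d ^
      2 + 3 * b * d ^ 3 + b * d ^ 2 - c ^ 3 * d ^ 2 - c ^ 2 * d ^ 3 - c ^ 2 * d ^ 2 - 3 * c * d ^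
      3 - c * d ^ 2 - 2 * d ^ 4 - d ^ 3) * ((1 - b) * (d - a ^ 2 * c) + (a - c) * (d - a * b)) +
      (-a ^ 2 * b * d - a ^ 2 * b + a ^ 2 * c * d - a ^ 2 * c + a * b ^ 2 * c ^ 2 + 2 * a * b ^ 2
      * c * d - a * b ^ 2 * d - 4 * a * b * c * d + a * b * c - a * b * d ^ 2 - a * c ^ 2 * d + 3
      * a * c * d + 3 * a * d ^ 2 + a * d + 3 * b ^ 2 * c * d + b ^ 2 * d ^ 2 + b * c ^ 2 * d - 3
      * b * c * d - 3 * b * d ^ 2 - b * d - c ^ 2 * d - 2 * c * d ^ 2 + 2 * d ^ 2 + d) * ((d - b)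
      * (d ^ 2 - a * c ^ 2) + d * (c - a) * (d - b * c))) / (c ^ 4 * Z * D * BA * B * E) := by
    rw [js1, jN2, jG21, jH21, jH31]
    field_simp
    simp only [hA, hB, hC, hD, hBA, hCA, hCB, hDA, hDB, hDC, hE, hW, hV, hS, hP, hZ, hX, hY]
    ring1
  rw [Q0, R0] at e
  exact sub_eq_zero.1 (e.trans (by ring))

theorem d5x31 {a b c d A B C D BA CA CB DA DB DC E W V S P Z X Y p q s1 K3 G31 H31 w : F}
    (na : a ≠ 0) (nb : b ≠ 0) (nc : c ≠ 0) (nd : d ≠ 0) (nA : A ≠ 0) (nB : B ≠ 0) (nC : C ≠ 0) (nD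
    : D ≠ 0) (nBA : BA ≠ 0) (nCA : CA ≠ 0) (nCB : CB ≠ 0) (nDA : DA ≠ 0) (nDB : DB ≠ 0) (nDC : DC
    ≠ 0) (nE : E ≠ 0) (nZ : Z ≠ 0)
    (hA : A = a - 1) (hB : B = b - 1) (hC : C = c - 1) (hD : D = d - 1) (hBA : BA = b - a) (hCA :
    CA = c - a) (hCB : CB = c - b) (hDA : DA = d - a) (hDB : DB = d - b) (hDC : DC = d - c) (hE :
    E = a * c + d) (hW : W = a * c + a * d + d) (hV : V = c + a * c + d) (hS : S = c + d) (hP : P
    = a + 1) (hZ : Z = (d - 1) * (a * c + d) + 2 * d * (c - a)) (hX : X = a * b * c * d + b * c *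
    d + a * c * d - a * b * d - a * b * c + a * d ^ 2 - a ^ 2 * d - a * d) (hY : Y = a * b * c * d
    + c ^ 2 * d + c * d ^ 2 + b * c * d - a * c * d - a * b * d - a * b * c - c * d)
    (hp : p = X / Z) (hq : q = Y / Z)
    (Q0 : (1 - b) * (d - a ^ 2 * c) + (a - c) * (d - a * b) = 0)
    (R0 : (d - b) * (d ^ 2 - a * c ^ 2) + d * (c - a) * (d - b * c) = 0)
    (js1 : s1 = d / c)
    (jK3 : K3 = -(DA * DB * DC * V) / (d * C * CA * CB * E))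
    (jG31 : G31 = 1 + C * DC * W / (c * D * E))
    (jH31 : H31 = 1 - C * DC * V / (c * D * E))
    (jw : w = P / E) :
    (d ^ 2 * w / c) = K3 * (s1 * G31) + (1 - K3) * (s1 ^ 3 * H31) := by
  have e : ((d ^ 2 * w / c)) - (K3 * (s1 * G31) + (1 - K3) * (s1 ^ 3 * H31)) = DC ^ 3 * V * ((0) * ((1
      - b) * (d - a ^ 2 * c) + (a - c) * (d - a * b)) + (-1) * ((d - b) * (d ^ 2 - a * c ^ 2) + d
      * (c - a) * (d - b * c))) / (c ^ 4 * CB * CA * D * C * E) := by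
    rw [js1, jK3, jG31, jH31, jw]
    field_simp
    simp only [hA, hB, hC, hD, hBA, hCA, hCB, hDA, hDB, hDC, hE, hW, hV, hS, hP, hZ, hX, hY]
    ring1
  rw [Q0, R0] at e
  exact sub_eq_zero.1 (e.trans (by ring))

theorem d5y31 {a b c d A B C D BA CA CB DA DB DC E W V S P Z X Y p q s1 N3 G31 H31 w : F}
    (na : a ≠ 0) (nb : b ≠ 0) (nc : c ≠ 0) (nd : d ≠ 0) (nA : A ≠ 0) (nB : B ≠ 0) (nC : C ≠ 0) (nD
    : D ≠ 0) (nBA : BA ≠ 0) (nCA : CA ≠ 0) (nCB : CB ≠ 0) (nDA : DA ≠ 0) (nDB : DB ≠ 0) (nDC : DC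
    ≠ 0) (nE : E ≠ 0) (nZ : Z ≠ 0)
    (hA : A = a - 1) (hB : B = b - 1) (hC : C = c - 1) (hD : D = d - 1) (hBA : BA = b - a) (hCA :
    CA = c - a) (hCB : CB = c - b) (hDA : DA = d - a) (hDB : DB = d - b) (hDC : DC = d - c) (hE :
    E = a * c + d) (hW : W = a * c + a * d + d) (hV : V = c + a * c + d) (hS : S = c + d) (hP : P
    = a + 1) (hZ : Z = (d - 1) * (a * c + d) + 2 * d * (c - a)) (hX : X = a * b * c * d + b * c *
    d + a * c * d - a * b * d - a * b * c + a * d ^ 2 - a ^ 2 * d - a * d) (hY : Y = a * b * c * d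
    + c ^ 2 * d + c * d ^ 2 + b * c * d - a * c * d - a * b * d - a * b * c - c * d)
    (hp : p = X / Z) (hq : q = Y / Z)
    (Q0 : (1 - b) * (d - a ^ 2 * c) + (a - c) * (d - a * b) = 0)
    (R0 : (d - b) * (d ^ 2 - a * c ^ 2) + d * (c - a) * (d - b * c) = 0)
    (js1 : s1 = d / c)
    (jN3 : N3 = -(c ^ 2 * DA * DB * DC * W) / (d ^ 2 * C * CA * CB * E))
    (jG31 : G31 = 1 + C * DC * W / (c * D * E))
    (jH31 : H31 = 1 - C * DC * V / (c * D * E))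
    (jw : w = P / E) :
    s1 ^ 4 * (c ^ 2 * w / d) = (1 - N3) * (s1 * G31) + N3 * (s1 ^ 3 * H31) := by
  have e : (s1 ^ 4 * (c ^ 2 * w / d)) - ((1 - N3) * (s1 * G31) + N3 * (s1 ^ 3 * H31)) = DC ^ 3 * W *
      ((0) * ((1 - b) * (d - a ^ 2 * c) + (a - c) * (d - a * b)) + (1) * ((d - b) * (d ^ 2 - a * c
      ^ 2) + d * (c - a) * (d - b * c))) / (d * c ^ 2 * CB * CA * D * C * E) := by
    rw [js1, jN3, jG31, jH31, jw]
    field_simp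
    simp only [hA, hB, hC, hD, hBA, hCA, hCB, hDA, hDB, hDC, hE, hW, hV, hS, hP, hZ, hX, hY]
    ring1
  rw [Q0, R0] at e
  exact sub_eq_zero.1 (e.trans (by ring))

theorem d5x02 {a b c d A B C D BA CA CB DA DB DC E W V S P Z X Y p q s2 K0 G12 : F}
    (na : a ≠ 0) (nb : b ≠ 0) (nc : c ≠ 0) (nd : d ≠ 0) (nA : A ≠ 0) (nB : B ≠ 0) (nC : C ≠ 0) (nD
    : D ≠ 0) (nBA : BA ≠ 0) (nCA : CA ≠ 0) (nCB : CB ≠ 0) (nDA : DA ≠ 0) (nDB : DB ≠ 0) (nDC : DC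
    ≠ 0) (nE : E ≠ 0) (nZ : Z ≠ 0)
    (hA : A = a - 1) (hB : B = b - 1) (hC : C = c - 1) (hD : D = d - 1) (hBA : BA = b - a) (hCA :
    CA = c - a) (hCB : CB = c - b) (hDA : DA = d - a) (hDB : DB = d - b) (hDC : DC = d - c) (hE :
    E = a * c + d) (hW : W = a * c + a * d + d) (hV : V = c + a * c + d) (hS : S = c + d) (hP : P
    = a + 1) (hZ : Z = (d - 1) * (a * c + d) + 2 * d * (c - a)) (hX : X = a * b * c * d + b * c *
    d + a * c * d - a * b * d - a * b * c + a * d ^ 2 - a ^ 2 * d - a * d) (hY : Y = a * b * c * d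
    + c ^ 2 * d + c * d ^ 2 + b * c * d - a * c * d - a * b * d - a * b * c - c * d)
    (hp : p = X / Z) (hq : q = Y / Z)
    (Q0 : (1 - b) * (d - a ^ 2 * c) + (a - c) * (d - a * b) = 0)
    (R0 : (d - b) * (d ^ 2 - a * c ^ 2) + d * (c - a) * (d - b * c) = 0)
    (js2 : s2 = d / b)
    (jK0 : K0 = A * W / (D * E))
    (jG12 : G12 = 1 + A * DB * W / (b * D * E)) :
    G12 = K0 * (s2) + (1 - K0) * (1) := by
  rw [js2, jK0, jG12]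
  field_simp
  try simp only [hA, hB, hC, hD, hBA, hCA, hCB, hDA, hDB, hDC, hE, hW, hV, hS, hP, hZ, hX, hY]
  try ring1

theorem d5y02 {a b c d A B C D BA CA CB DA DB DC E W V S P Z X Y p q s2 N0 H12 : F}
    (na : a ≠ 0) (nb : b ≠ 0) (nc : c ≠ 0) (nd : d ≠ 0) (nA : A ≠ 0) (nB : B ≠ 0) (nC : C ≠ 0) (nD
    : D ≠ 0) (nBA : BA ≠ 0) (nCA : CA ≠ 0) (nCB : CB ≠ 0) (nDA : DA ≠ 0) (nDB : DB ≠ 0) (nDC : DC
    ≠ 0) (nE : E ≠ 0) (nZ : Z ≠ 0)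
    (hA : A = a - 1) (hB : B = b - 1) (hC : C = c - 1) (hD : D = d - 1) (hBA : BA = b - a) (hCA :
    CA = c - a) (hCB : CB = c - b) (hDA : DA = d - a) (hDB : DB = d - b) (hDC : DC = d - c) (hE :
    E = a * c + d) (hW : W = a * c + a * d + d) (hV : V = c + a * c + d) (hS : S = c + d) (hP : P
    = a + 1) (hZ : Z = (d - 1) * (a * c + d) + 2 * d * (c - a)) (hX : X = a * b * c * d + b * c *
    d + a * c * d - a * b * d - a * b * c + a * d ^ 2 - a ^ 2 * d - a * d) (hY : Y = a * b * c * d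
    + c ^ 2 * d + c * d ^ 2 + b * c * d - a * c * d - a * b * d - a * b * c - c * d)
    (hp : p = X / Z) (hq : q = Y / Z)
    (Q0 : (1 - b) * (d - a ^ 2 * c) + (a - c) * (d - a * b) = 0)
    (R0 : (d - b) * (d ^ 2 - a * c ^ 2) + d * (c - a) * (d - b * c) = 0)
    (js2 : s2 = d / b)
    (jN0 : N0 = d * A * V / (a * D * E))
    (jH12 : H12 = 1 - A * DB * V / (a * D * E)) :
    s2 * H12 = (1 - N0) * (s2) + N0 * (1) := by
  rw [js2, jN0, jH12]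
  field_simp
  try simp only [hA, hB, hC, hD, hBA, hCA, hCB, hDA, hDB, hDC, hE, hW, hV, hS, hP, hZ, hX, hY]
  try ring1

theorem d5x12 {a b c d A B C D BA CA CB DA DB DC E W V S P Z X Y p q s2 K1 G12 G22 H12 : F}
    (na : a ≠ 0) (nb : b ≠ 0) (nc : c ≠ 0) (nd : d ≠ 0) (nA : A ≠ 0) (nB : B ≠ 0) (nC : C ≠ 0) (nD
    : D ≠ 0) (nBA : BA ≠ 0) (nCA : CA ≠ 0) (nCB : CB ≠ 0) (nDA : DA ≠ 0) (nDB : DB ≠ 0) (nDC : DC
    ≠ 0) (nE : E ≠ 0) (nZ : Z ≠ 0)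
    (hA : A = a - 1) (hB : B = b - 1) (hC : C = c - 1) (hD : D = d - 1) (hBA : BA = b - a) (hCA :
    CA = c - a) (hCB : CB = c - b) (hDA : DA = d - a) (hDB : DB = d - b) (hDC : DC = d - c) (hE :
    E = a * c + d) (hW : W = a * c + a * d + d) (hV : V = c + a * c + d) (hS : S = c + d) (hP : P
    = a + 1) (hZ : Z = (d - 1) * (a * c + d) + 2 * d * (c - a)) (hX : X = a * b * c * d + b * c *
    d + a * c * d - a * b * d - a * b * c + a * d ^ 2 - a ^ 2 * d - a * d) (hY : Y = a * b * c * d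
    + c ^ 2 * d + c * d ^ 2 + b * c * d - a * c * d - a * b * d - a * b * c - c * d)
    (hp : p = X / Z) (hq : q = Y / Z)
    (Q0 : (1 - b) * (d - a ^ 2 * c) + (a - c) * (d - a * b) = 0)
    (R0 : (d - b) * (d ^ 2 - a * c ^ 2) + d * (c - a) * (d - b * c) = 0)
    (js2 : s2 = d / b)
    (jK1 : K1 = c * B * BA / (A * Z))
    (jG12 : G12 = 1 + A * DB * W / (b * D * E))
    (jG22 : G22 = 1 + B * DB * W * (b * Z + d * BA * CB) / (b ^ 2 * D * E * Z))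
    (jH12 : H12 = 1 - A * DB * V / (a * D * E)) :
    G22 = K1 * (s2 * G12) + (1 - K1) * (s2 * H12) := by
  have e : C * ((G22) - (K1 * (s2 * G12) + (1 - K1) * (s2 * H12))) = DB * ((a * c ^ 2 * d + a * c * d ^
      2 - a * c * d - a * d ^ 2 - b * c ^ 2 - 2 * b * c * d - b * d ^ 2 + 2 * c ^ 2 * d + 3 * c *
      d ^ 2 - c * d + d ^ 3 - d ^ 2) * ((1 - b) * (d - a ^ 2 * c) + (a - c) * (d - a * b)) + (-a ^
      2 * c + a ^ 2 + a * b * c - a * b - a * c - a * d + b * c + b * d) * ((d - b) * (d ^ 2 - a *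
      c ^ 2) + d * (c - a) * (d - b * c))) / (b * Z * D * a * E) := by
    rw [js2, jK1, jG12, jG22, jH12]
    field_simp
    simp only [hA, hB, hC, hD, hBA, hCA, hCB, hDA, hDB, hDC, hE, hW, hV, hS, hP, hZ, hX, hY]
    ring1
  rw [Q0, R0] at e
  have e2 := (mul_eq_zero.1 (e.trans (by ring))).resolve_left nC
  exact sub_eq_zero.1 e2

theorem d5y12 {a b c d A B C D BA CA CB DA DB DC E W V S P Z X Y p q s2 N1 G12 H12 H22 : F}
    (na : a ≠ 0) (nb : b ≠ 0) (nc : c ≠ 0) (nd : d ≠ 0) (nA : A ≠ 0) (nB : B ≠ 0) (nC : C ≠ 0) (nD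
    : D ≠ 0) (nBA : BA ≠ 0) (nCA : CA ≠ 0) (nCB : CB ≠ 0) (nDA : DA ≠ 0) (nDB : DB ≠ 0) (nDC : DC
    ≠ 0) (nE : E ≠ 0) (nZ : Z ≠ 0)
    (hA : A = a - 1) (hB : B = b - 1) (hC : C = c - 1) (hD : D = d - 1) (hBA : BA = b - a) (hCA :
    CA = c - a) (hCB : CB = c - b) (hDA : DA = d - a) (hDB : DB = d - b) (hDC : DC = d - c) (hE :
    E = a * c + d) (hW : W = a * c + a * d + d) (hV : V = c + a * c + d) (hS : S = c + d) (hP : P
    = a + 1) (hZ : Z = (d - 1) * (a * c + d) + 2 * d * (c - a)) (hX : X = a * b * c * d + b * c *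
    d + a * c * d - a * b * d - a * b * c + a * d ^ 2 - a ^ 2 * d - a * d) (hY : Y = a * b * c * d
    + c ^ 2 * d + c * d ^ 2 + b * c * d - a * c * d - a * b * d - a * b * c - c * d)
    (hp : p = X / Z) (hq : q = Y / Z)
    (Q0 : (1 - b) * (d - a ^ 2 * c) + (a - c) * (d - a * b) = 0)
    (R0 : (d - b) * (d ^ 2 - a * c ^ 2) + d * (c - a) * (d - b * c) = 0)
    (js2 : s2 = d / b)
    (jN1 : N1 = a * d ^ 2 * B * BA / (b ^ 2 * A * Z))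
    (jG12 : G12 = 1 + A * DB * W / (b * D * E))
    (jH12 : H12 = 1 - A * DB * V / (a * D * E))
    (jH22 : H22 = 1 - B * DB * V * (b * Z - d * BA * CB) / (b ^ 2 * D * E * Z)) :
    s2 ^ 2 * H22 = (1 - N1) * (s2 * G12) + N1 * (s2 * H12) := by
  have e : C * ((s2 ^ 2 * H22) - ((1 - N1) * (s2 * G12) + N1 * (s2 * H12))) = d * DB * ((-a * b * c ^ 2
      * d + a * b * c ^ 2 - a * b * c * d ^ 2 + 3 * a * b * c * d + 2 * a * b * d ^ 2 - a * c ^ 2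
      * d - 2 * a * c * d ^ 2 - a * d ^ 3 - b * c ^ 2 * d - b * c * d ^ 2 + b * c * d + b * d ^ 2)
      * ((1 - b) * (d - a ^ 2 * c) + (a - c) * (d - a * b)) + (a ^ 2 * c + a ^ 2 * d - a * b * c -
      a * b * d - a * c * d + a * d + b * c * d - b * d) * ((d - b) * (d ^ 2 - a * c ^ 2) + d * (c
      - a) * (d - b * c))) / (b ^ 4 * Z * D * E) := by
    rw [js2, jN1, jG12, jH12, jH22]
    field_simp
    simp only [hA, hB, hC, hD, hBA, hCA, hCB, hDA, hDB, hDC, hE, hW, hV, hS, hP, hZ, hX, hY]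
    ring1
  rw [Q0, R0] at e
  have e2 := (mul_eq_zero.1 (e.trans (by ring))).resolve_left nC
  exact sub_eq_zero.1 e2

theorem d5x32 {a b c d A B C D BA CA CB DA DB DC E W V S P Z X Y p q s2 K3 G21 H21 w : F}
    (na : a ≠ 0) (nb : b ≠ 0) (nc : c ≠ 0) (nd : d ≠ 0) (nA : A ≠ 0) (nB : B ≠ 0) (nC : C ≠ 0) (nD
    : D ≠ 0) (nBA : BA ≠ 0) (nCA : CA ≠ 0) (nCB : CB ≠ 0) (nDA : DA ≠ 0) (nDB : DB ≠ 0) (nDC : DC
    ≠ 0) (nE : E ≠ 0) (nZ : Z ≠ 0)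
    (hA : A = a - 1) (hB : B = b - 1) (hC : C = c - 1) (hD : D = d - 1) (hBA : BA = b - a) (hCA :
    CA = c - a) (hCB : CB = c - b) (hDA : DA = d - a) (hDB : DB = d - b) (hDC : DC = d - c) (hE :
    E = a * c + d) (hW : W = a * c + a * d + d) (hV : V = c + a * c + d) (hS : S = c + d) (hP : P
    = a + 1) (hZ : Z = (d - 1) * (a * c + d) + 2 * d * (c - a)) (hX : X = a * b * c * d + b * c *
    d + a * c * d - a * b * d - a * b * c + a * d ^ 2 - a ^ 2 * d - a * d) (hY : Y = a * b * c * d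
    + c ^ 2 * d + c * d ^ 2 + b * c * d - a * c * d - a * b * d - a * b * c - c * d)
    (hp : p = X / Z) (hq : q = Y / Z)
    (Q0 : (1 - b) * (d - a ^ 2 * c) + (a - c) * (d - a * b) = 0)
    (R0 : (d - b) * (d ^ 2 - a * c ^ 2) + d * (c - a) * (d - b * c) = 0)
    (js2 : s2 = d / b)
    (jK3 : K3 = -(DA * DB * DC * V) / (d * C * CA * CB * E))
    (jG21 : G21 = 1 + B * DC * W / (c * D * E))
    (jH21 : H21 = 1 - B * DC * V / (b * D * E))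
    (jw : w = P / E) :
    (d ^ 2 * w * q / b ^ 2) = K3 * (s2 * (c * q * G21 / b ^ 2)) + (1 - K3) * (s2 ^ 3 * (b * q *
      H21 / c ^ 2)) := by
  have e : ((d ^ 2 * w * q / b ^ 2)) - (K3 * (s2 * (c * q * G21 / b ^ 2)) + (1 - K3) * (s2 ^ 3 * (b * q
      * H21 / c ^ 2))) = DB * DC ^ 2 * V * q * ((0) * ((1 - b) * (d - a ^ 2 * c) + (a - c) * (d -
      a * b)) + (-1) * ((d - b) * (d ^ 2 - a * c ^ 2) + d * (c - a) * (d - b * c))) / (b ^ 3 * c ^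
      2 * CB * CA * D * C * E) := by
    rw [js2, jK3, jG21, jH21, jw]
    field_simp
    simp only [hA, hB, hC, hD, hBA, hCA, hCB, hDA, hDB, hDC, hE, hW, hV, hS, hP, hZ, hX, hY]
    ring1
  rw [Q0, R0] at e
  exact sub_eq_zero.1 (e.trans (by ring))

theorem d5y32 {a b c d A B C D BA CA CB DA DB DC E W V S P Z X Y p q s2 N3 G21 H21 w : F}
    (na : a ≠ 0) (nb : b ≠ 0) (nc : c ≠ 0) (nd : d ≠ 0) (nA : A ≠ 0) (nB : B ≠ 0) (nC : C ≠ 0) (nD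
    : D ≠ 0) (nBA : BA ≠ 0) (nCA : CA ≠ 0) (nCB : CB ≠ 0) (nDA : DA ≠ 0) (nDB : DB ≠ 0) (nDC : DC
    ≠ 0) (nE : E ≠ 0) (nZ : Z ≠ 0)
    (hA : A = a - 1) (hB : B = b - 1) (hC : C = c - 1) (hD : D = d - 1) (hBA : BA = b - a) (hCA :
    CA = c - a) (hCB : CB = c - b) (hDA : DA = d - a) (hDB : DB = d - b) (hDC : DC = d - c) (hE :
    E = a * c + d) (hW : W = a * c + a * d + d) (hV : V = c + a * c + d) (hS : S = c + d) (hP : P
    = a + 1) (hZ : Z = (d - 1) * (a * c + d) + 2 * d * (c - a)) (hX : X = a * b * c * d + b * c *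
    d + a * c * d - a * b * d - a * b * c + a * d ^ 2 - a ^ 2 * d - a * d) (hY : Y = a * b * c * d
    + c ^ 2 * d + c * d ^ 2 + b * c * d - a * c * d - a * b * d - a * b * c - c * d)
    (hp : p = X / Z) (hq : q = Y / Z)
    (Q0 : (1 - b) * (d - a ^ 2 * c) + (a - c) * (d - a * b) = 0)
    (R0 : (d - b) * (d ^ 2 - a * c ^ 2) + d * (c - a) * (d - b * c) = 0)
    (js2 : s2 = d / b)
    (jN3 : N3 = -(c ^ 2 * DA * DB * DC * W) / (d ^ 2 * C * CA * CB * E))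
    (jG21 : G21 = 1 + B * DC * W / (c * D * E))
    (jH21 : H21 = 1 - B * DC * V / (b * D * E))
    (jw : w = P / E) :
    s2 ^ 4 * (b * w * q / d) = (1 - N3) * (s2 * (c * q * G21 / b ^ 2)) + N3 * (s2 ^ 3 * (b * q *
      H21 / c ^ 2)) := by
  have e : (s2 ^ 4 * (b * w * q / d)) - ((1 - N3) * (s2 * (c * q * G21 / b ^ 2)) + N3 * (s2 ^ 3 * (b *
      q * H21 / c ^ 2))) = DB * DC ^ 2 * W * q * ((0) * ((1 - b) * (d - a ^ 2 * c) + (a - c) * (d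
      - a * b)) + (1) * ((d - b) * (d ^ 2 - a * c ^ 2) + d * (c - a) * (d - b * c))) / (b ^ 3 * d
      * CB * CA * D * C * E) := by
    rw [js2, jN3, jG21, jH21, jw]
    field_simp
    simp only [hA, hB, hC, hD, hBA, hCA, hCB, hDA, hDB, hDC, hE, hW, hV, hS, hP, hZ, hX, hY]
    ring1
  rw [Q0, R0] at e
  exact sub_eq_zero.1 (e.trans (by ring))

theorem d5x03 {a b c d A B C D BA CA CB DA DB DC E W V S P Z X Y p q s3 K0 G13 : F}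
    (na : a ≠ 0) (nb : b ≠ 0) (nc : c ≠ 0) (nd : d ≠ 0) (nA : A ≠ 0) (nB : B ≠ 0) (nC : C ≠ 0) (nD
    : D ≠ 0) (nBA : BA ≠ 0) (nCA : CA ≠ 0) (nCB : CB ≠ 0) (nDA : DA ≠ 0) (nDB : DB ≠ 0) (nDC : DC
    ≠ 0) (nE : E ≠ 0) (nZ : Z ≠ 0)
    (hA : A = a - 1) (hB : B = b - 1) (hC : C = c - 1) (hD : D = d - 1) (hBA : BA = b - a) (hCA :
    CA = c - a) (hCB : CB = c - b) (hDA : DA = d - a) (hDB : DB = d - b) (hDC : DC = d - c) (hE :
    E = a * c + d) (hW : W = a * c + a * d + d) (hV : V = c + a * c + d) (hS : S = c + d) (hP : P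
    = a + 1) (hZ : Z = (d - 1) * (a * c + d) + 2 * d * (c - a)) (hX : X = a * b * c * d + b * c *
    d + a * c * d - a * b * d - a * b * c + a * d ^ 2 - a ^ 2 * d - a * d) (hY : Y = a * b * c * d
    + c ^ 2 * d + c * d ^ 2 + b * c * d - a * c * d - a * b * d - a * b * c - c * d)
    (hp : p = X / Z) (hq : q = Y / Z)
    (Q0 : (1 - b) * (d - a ^ 2 * c) + (a - c) * (d - a * b) = 0)
    (R0 : (d - b) * (d ^ 2 - a * c ^ 2) + d * (c - a) * (d - b * c) = 0)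
    (js3 : s3 = d / a)
    (jK0 : K0 = A * W / (D * E))
    (jG13 : G13 = 1 + A * DA * W / (a * D * E)) :
    G13 = K0 * (s3) + (1 - K0) * (1) := by
  rw [js3, jK0, jG13]
  field_simp
  try simp only [hA, hB, hC, hD, hBA, hCA, hCB, hDA, hDB, hDC, hE, hW, hV, hS, hP, hZ, hX, hY]
  try ring1

theorem d5y03 {a b c d A B C D BA CA CB DA DB DC E W V S P Z X Y p q s3 N0 H13 : F}
    (na : a ≠ 0) (nb : b ≠ 0) (nc : c ≠ 0) (nd : d ≠ 0) (nA : A ≠ 0) (nB : B ≠ 0) (nC : C ≠ 0) (nD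
    : D ≠ 0) (nBA : BA ≠ 0) (nCA : CA ≠ 0) (nCB : CB ≠ 0) (nDA : DA ≠ 0) (nDB : DB ≠ 0) (nDC : DC
    ≠ 0) (nE : E ≠ 0) (nZ : Z ≠ 0)
    (hA : A = a - 1) (hB : B = b - 1) (hC : C = c - 1) (hD : D = d - 1) (hBA : BA = b - a) (hCA :
    CA = c - a) (hCB : CB = c - b) (hDA : DA = d - a) (hDB : DB = d - b) (hDC : DC = d - c) (hE :
    E = a * c + d) (hW : W = a * c + a * d + d) (hV : V = c + a * c + d) (hS : S = c + d) (hP : P
    = a + 1) (hZ : Z = (d - 1) * (a * c + d) + 2 * d * (c - a)) (hX : X = a * b * c * d + b * c *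
    d + a * c * d - a * b * d - a * b * c + a * d ^ 2 - a ^ 2 * d - a * d) (hY : Y = a * b * c * d
    + c ^ 2 * d + c * d ^ 2 + b * c * d - a * c * d - a * b * d - a * b * c - c * d)
    (hp : p = X / Z) (hq : q = Y / Z)
    (Q0 : (1 - b) * (d - a ^ 2 * c) + (a - c) * (d - a * b) = 0)
    (R0 : (d - b) * (d ^ 2 - a * c ^ 2) + d * (c - a) * (d - b * c) = 0)
    (js3 : s3 = d / a)
    (jN0 : N0 = d * A * V / (a * D * E))
    (jH13 : H13 = 1 - A * DA * V / (a * D * E)) :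
    s3 * H13 = (1 - N0) * (s3) + N0 * (1) := by
  rw [js3, jN0, jH13]
  field_simp
  try simp only [hA, hB, hC, hD, hBA, hCA, hCB, hDA, hDB, hDC, hE, hW, hV, hS, hP, hZ, hX, hY]
  try ring1

theorem d5x13 {a b c d A B C D BA CA CB DA DB DC E W V S P Z X Y p q s3 K1 G12 G13 H13 : F}
    (na : a ≠ 0) (nb : b ≠ 0) (nc : c ≠ 0) (nd : d ≠ 0) (nA : A ≠ 0) (nB : B ≠ 0) (nC : C ≠ 0) (nD
    : D ≠ 0) (nBA : BA ≠ 0) (nCA : CA ≠ 0) (nCB : CB ≠ 0) (nDA : DA ≠ 0) (nDB : DB ≠ 0) (nDC : DC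
    ≠ 0) (nE : E ≠ 0) (nZ : Z ≠ 0)
    (hA : A = a - 1) (hB : B = b - 1) (hC : C = c - 1) (hD : D = d - 1) (hBA : BA = b - a) (hCA :
    CA = c - a) (hCB : CB = c - b) (hDA : DA = d - a) (hDB : DB = d - b) (hDC : DC = d - c) (hE :
    E = a * c + d) (hW : W = a * c + a * d + d) (hV : V = c + a * c + d) (hS : S = c + d) (hP : P
    = a + 1) (hZ : Z = (d - 1) * (a * c + d) + 2 * d * (c - a)) (hX : X = a * b * c * d + b * c *
    d + a * c * d - a * b * d - a * b * c + a * d ^ 2 - a ^ 2 * d - a * d) (hY : Y = a * b * c * d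
    + c ^ 2 * d + c * d ^ 2 + b * c * d - a * c * d - a * b * d - a * b * c - c * d)
    (hp : p = X / Z) (hq : q = Y / Z)
    (Q0 : (1 - b) * (d - a ^ 2 * c) + (a - c) * (d - a * b) = 0)
    (R0 : (d - b) * (d ^ 2 - a * c ^ 2) + d * (c - a) * (d - b * c) = 0)
    (js3 : s3 = d / a)
    (jK1 : K1 = c * B * BA / (A * Z))
    (jG12 : G12 = 1 + A * DB * W / (b * D * E))
    (jG13 : G13 = 1 + A * DA * W / (a * D * E))
    (jH13 : H13 = 1 - A * DA * V / (a * D * E)) :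
    (b * p * G12 / a ^ 2) = K1 * (s3 * G13) + (1 - K1) * (s3 * H13) := by
  have e : ((b * p * G12 / a ^ 2)) - (K1 * (s3 * G13) + (1 - K1) * (s3 * H13)) = ((-a ^ 2 * c * d - a ^
      2 * d ^ 2 - a * b * c * d - a * b * d ^ 2 + 2 * a * c * d ^ 2 - a * c * d + a * d ^ 3 - 2 *
      a * d ^ 2 + b * c * d ^ 2 - b * d ^ 2 + 2 * c * d ^ 2 + 2 * d ^ 3) * ((1 - b) * (d - a ^ 2 *
      c) + (a - c) * (d - a * b)) + (a ^ 3 * d + a ^ 2 * b - 2 * a ^ 2 * d + 2 * a * b * d - a * d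
      + b * d - d ^ 2 - d) * ((d - b) * (d ^ 2 - a * c ^ 2) + d * (c - a) * (d - b * c))) / (Z * D
      * a ^ 2 * E) := by
    rw [js3, jK1, jG12, jG13, jH13, hp]
    field_simp
    simp only [hA, hB, hC, hD, hBA, hCA, hCB, hDA, hDB, hDC, hE, hW, hV, hS, hP, hZ, hX, hY]
    ring1
  rw [Q0, R0] at e
  exact sub_eq_zero.1 (e.trans (by ring))

theorem d5y13 {a b c d A B C D BA CA CB DA DB DC E W V S P Z X Y p q s3 N1 G13 H12 H13 : F}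
    (na : a ≠ 0) (nb : b ≠ 0) (nc : c ≠ 0) (nd : d ≠ 0) (nA : A ≠ 0) (nB : B ≠ 0) (nC : C ≠ 0) (nD
    : D ≠ 0) (nBA : BA ≠ 0) (nCA : CA ≠ 0) (nCB : CB ≠ 0) (nDA : DA ≠ 0) (nDB : DB ≠ 0) (nDC : DC
    ≠ 0) (nE : E ≠ 0) (nZ : Z ≠ 0)
    (hA : A = a - 1) (hB : B = b - 1) (hC : C = c - 1) (hD : D = d - 1) (hBA : BA = b - a) (hCA :
    CA = c - a) (hCB : CB = c - b) (hDA : DA = d - a) (hDB : DB = d - b) (hDC : DC = d - c) (hE :
    E = a * c + d) (hW : W = a * c + a * d + d) (hV : V = c + a * c + d) (hS : S = c + d) (hP : P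
    = a + 1) (hZ : Z = (d - 1) * (a * c + d) + 2 * d * (c - a)) (hX : X = a * b * c * d + b * c *
    d + a * c * d - a * b * d - a * b * c + a * d ^ 2 - a ^ 2 * d - a * d) (hY : Y = a * b * c * d
    + c ^ 2 * d + c * d ^ 2 + b * c * d - a * c * d - a * b * d - a * b * c - c * d)
    (hp : p = X / Z) (hq : q = Y / Z)
    (Q0 : (1 - b) * (d - a ^ 2 * c) + (a - c) * (d - a * b) = 0)
    (R0 : (d - b) * (d ^ 2 - a * c ^ 2) + d * (c - a) * (d - b * c) = 0)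
    (js3 : s3 = d / a)
    (jN1 : N1 = a * d ^ 2 * B * BA / (b ^ 2 * A * Z))
    (jG13 : G13 = 1 + A * DA * W / (a * D * E))
    (jH12 : H12 = 1 - A * DB * V / (a * D * E))
    (jH13 : H13 = 1 - A * DA * V / (a * D * E)) :
    s3 ^ 2 * (a * p * H12 / b ^ 2) = (1 - N1) * (s3 * G13) + N1 * (s3 * H13) := by
  have e : (s3 ^ 2 * (a * p * H12 / b ^ 2)) - ((1 - N1) * (s3 * G13) + N1 * (s3 * H13)) = d * ((2 * a ^
      2 * b * c * d + 2 * a ^ 2 * b * d ^ 2 - a ^ 2 * c * d ^ 2 + a ^ 2 * d ^ 2 - 2 * a * b * c *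
      d ^ 2 + a * b * c * d - a * b * d ^ 3 + 2 * a * b * d ^ 2 - a * c * d ^ 2 - a * d ^ 3 - b *
      c * d ^ 2 - b * d ^ 3) * ((1 - b) * (d - a ^ 2 * c) + (a - c) * (d - a * b)) + (-a ^ 3 * b *
      d - a ^ 3 * b + a ^ 3 * d - a ^ 2 * b * d + 2 * a ^ 2 * d - 2 * a * b * d + a * d ^ 2 + b *
      d) * ((d - b) * (d ^ 2 - a * c ^ 2) + d * (c - a) * (d - b * c))) / (b ^ 2 * Z * D * a ^ 2 *
      E) := by
    rw [js3, jN1, jG13, jH12, jH13, hp]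
    field_simp
    simp only [hA, hB, hC, hD, hBA, hCA, hCB, hDA, hDB, hDC, hE, hW, hV, hS, hP, hZ, hX, hY]
    ring1
  rw [Q0, R0] at e
  exact sub_eq_zero.1 (e.trans (by ring))

theorem d5x23 {a b c d A B C D BA CA CB DA DB DC E W V S P Z X Y p q s3 K2 G11 G12 H12 : F}
    (na : a ≠ 0) (nb : b ≠ 0) (nc : c ≠ 0) (nd : d ≠ 0) (nA : A ≠ 0) (nB : B ≠ 0) (nC : C ≠ 0) (nD
    : D ≠ 0) (nBA : BA ≠ 0) (nCA : CA ≠ 0) (nCB : CB ≠ 0) (nDA : DA ≠ 0) (nDB : DB ≠ 0) (nDC : DC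
    ≠ 0) (nE : E ≠ 0) (nZ : Z ≠ 0)
    (hA : A = a - 1) (hB : B = b - 1) (hC : C = c - 1) (hD : D = d - 1) (hBA : BA = b - a) (hCA :
    CA = c - a) (hCB : CB = c - b) (hDA : DA = d - a) (hDB : DB = d - b) (hDC : DC = d - c) (hE :
    E = a * c + d) (hW : W = a * c + a * d + d) (hV : V = c + a * c + d) (hS : S = c + d) (hP : P
    = a + 1) (hZ : Z = (d - 1) * (a * c + d) + 2 * d * (c - a)) (hX : X = a * b * c * d + b * c *
    d + a * c * d - a * b * d - a * b * c + a * d ^ 2 - a ^ 2 * d - a * d) (hY : Y = a * b * c * d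
    + c ^ 2 * d + c * d ^ 2 + b * c * d - a * c * d - a * b * d - a * b * c - c * d)
    (hp : p = X / Z) (hq : q = Y / Z)
    (Q0 : (1 - b) * (d - a ^ 2 * c) + (a - c) * (d - a * b) = 0)
    (R0 : (d - b) * (d ^ 2 - a * c ^ 2) + d * (c - a) * (d - b * c) = 0)
    (js3 : s3 = d / a)
    (jK2 : K2 = -(a * C * CA * CB) / (B * BA * Z))
    (jG11 : G11 = 1 + A * DC * W / (c * D * E))
    (jG12 : G12 = 1 + A * DB * W / (b * D * E))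
    (jH12 : H12 = 1 - A * DB * V / (a * D * E)) :
    (c * p * q * G11 / (a ^ 2 * b)) = K2 * (s3 * (b * p * G12 / a ^ 2)) + (1 - K2) * (s3 ^ 2 *
      (a * p * H12 / b ^ 2)) := by
  have e : ((c * p * q * G11 / (a ^ 2 * b))) - (K2 * (s3 * (b * p * G12 / a ^ 2)) + (1 - K2) * (s3 ^ 2
      * (a * p * H12 / b ^ 2))) = X * ((a ^ 2 * b ^ 2 * c ^ 2 * d - a ^ 2 * b ^ 2 * c ^ 2 - a ^ 2
      * b ^ 2 * c * d - a ^ 2 * b ^ 2 * d ^ 3 - a ^ 2 * b * c ^ 2 * d + a ^ 2 * b * c * d ^ 3 - a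
      ^ 2 * b * c * d ^ 2 + a ^ 2 * b * d ^ 2 + a ^ 2 * c ^ 2 * d ^ 2 - a ^ 2 * c * d ^ 3 + 2 * a
      ^ 2 * d ^ 3 - a * b ^ 3 * c ^ 2 * d + a * b ^ 3 * c ^ 2 + a * b ^ 3 * d ^ 3 - a * b ^ 3 * d
      ^ 2 - a * b ^ 2 * c ^ 2 * d ^ 2 + 3 * a * b ^ 2 * c ^ 2 * d + a * b ^ 2 * c ^ 2 - a * b ^ 2
      * c * d ^ 3 + 3 * a * b ^ 2 * c * d ^ 2 + a * b ^ 2 * c * d + a * b * c ^ 3 * d + 2 * a * b
      * c ^ 2 * d ^ 2 + a * b * c ^ 2 * d + a * b * c ^ 2 + a * b * c * d ^ 3 + a * b * c * d ^ 2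
      + a * b * c * d + a * b * d ^ 4 - a * b * d ^ 2 - a * c ^ 3 * d ^ 2 - 2 * a * c ^ 2 * d ^ 2
      - a * c ^ 2 * d - 4 * a * c * d ^ 3 - 3 * a * d ^ 4 - 2 * a * d ^ 3 - a * d ^ 2 + b ^ 3 * c
      ^ 2 * d ^ 2 - b ^ 3 * c ^ 2 * d + b ^ 3 * d ^ 3 - b ^ 3 * d ^ 2 - b ^ 2 * c ^ 2 * d ^ 2 - b
      ^ 2 * c ^ 2 * d - b ^ 2 * c * d ^ 3 + b ^ 2 * c * d ^ 2 - b ^ 2 * d ^ 4 - b ^ 2 * d ^ 2 - 2
      * b * c ^ 3 * d ^ 2 - b * c ^ 2 * d ^ 3 - 2 * b * c ^ 2 * d ^ 2 - b * c ^ 2 * d - b * c * d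
      ^ 3 + b * c * d ^ 2 - b * d ^ 3 - b * d ^ 2 + 2 * c ^ 2 * d ^ 3 + 3 * c * d ^ 4 + 2 * c * d
      ^ 3 + c * d ^ 2 + d ^ 5 + 2 * d ^ 4 + d ^ 3) * ((1 - b) * (d - a ^ 2 * c) + (a - c) * (d - a
      * b)) + (a ^ 3 * b ^ 2 * d - a ^ 3 * b ^ 2 - 2 * a ^ 3 * b * d - a ^ 2 * b ^ 3 * d + a ^ 2 *
      b ^ 3 + a ^ 2 * b ^ 2 * d ^ 2 + a ^ 2 * b ^ 2 - 3 * a ^ 2 * b * d ^ 2 + 4 * a ^ 2 * b * d +
      a ^ 2 * b + 3 * a ^ 2 * c * d + a ^ 2 * c + 4 * a ^ 2 * d ^ 2 + a * b ^ 3 * c * d - a * b ^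
      3 * c - a * b ^ 3 * d ^ 2 + a * b ^ 3 * d - 2 * a * b ^ 2 * c ^ 2 * d - a * b ^ 2 * c * d ^
      2 - a * b ^ 2 * c + 5 * a * b ^ 2 * d ^ 2 - 3 * a * b ^ 2 * d + 3 * a * b * c * d ^ 2 - 4 *
      a * b * c * d - a * b * c + a * b * d ^ 3 - 7 * a * b * d ^ 2 - 6 * a * c * d ^ 2 - 2 * a *
      d ^ 3 + a * d ^ 2 - a * d - b ^ 3 * d ^ 2 + b ^ 3 * d - 3 * b ^ 2 * c * d ^ 2 + b ^ 2 * c *
      d - b ^ 2 * d ^ 3 + 3 * b ^ 2 * d ^ 2 + 5 * b * c * d ^ 2 + b * c * d + 2 * b * d ^ 3 + 2 *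
      c ^ 2 * d ^ 2 + c * d ^ 3 + c * d - d ^ 3 - 2 * d ^ 2 - d) * ((d - b) * (d ^ 2 - a * c ^ 2)
      + d * (c - a) * (d - b * c))) / (b ^ 2 * Z ^ 2 * D * BA * B * a ^ 2 * E) := by
    rw [js3, jK2, jG11, jG12, jH12, hp, hq]
    field_simp
    simp only [hA, hB, hC, hD, hBA, hCA, hCB, hDA, hDB, hDC, hE, hW, hV, hS, hP, hZ, hX, hY]
    ring1
  rw [Q0, R0] at e
  exact sub_eq_zero.1 (e.trans (by ring))

theorem d5y23 {a b c d A B C D BA CA CB DA DB DC E W V S P Z X Y p q s3 N2 G12 H11 H12 : F}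
    (na : a ≠ 0) (nb : b ≠ 0) (nc : c ≠ 0) (nd : d ≠ 0) (nA : A ≠ 0) (nB : B ≠ 0) (nC : C ≠ 0) (nD
    : D ≠ 0) (nBA : BA ≠ 0) (nCA : CA ≠ 0) (nCB : CB ≠ 0) (nDA : DA ≠ 0) (nDB : DB ≠ 0) (nDC : DC
    ≠ 0) (nE : E ≠ 0) (nZ : Z ≠ 0)
    (hA : A = a - 1) (hB : B = b - 1) (hC : C = c - 1) (hD : D = d - 1) (hBA : BA = b - a) (hCA :
    CA = c - a) (hCB : CB = c - b) (hDA : DA = d - a) (hDB : DB = d - b) (hDC : DC = d - c) (hE :
    E = a * c + d) (hW : W = a * c + a * d + d) (hV : V = c + a * c + d) (hS : S = c + d) (hP : P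
    = a + 1) (hZ : Z = (d - 1) * (a * c + d) + 2 * d * (c - a)) (hX : X = a * b * c * d + b * c *
    d + a * c * d - a * b * d - a * b * c + a * d ^ 2 - a ^ 2 * d - a * d) (hY : Y = a * b * c * d
    + c ^ 2 * d + c * d ^ 2 + b * c * d - a * c * d - a * b * d - a * b * c - c * d)
    (hp : p = X / Z) (hq : q = Y / Z)
    (Q0 : (1 - b) * (d - a ^ 2 * c) + (a - c) * (d - a * b) = 0)
    (R0 : (d - b) * (d ^ 2 - a * c ^ 2) + d * (c - a) * (d - b * c) = 0)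
    (js3 : s3 = d / a)
    (jN2 : N2 = -(b * d ^ 2 * C * CA * CB) / (c ^ 2 * B * BA * Z))
    (jG12 : G12 = 1 + A * DB * W / (b * D * E))
    (jH11 : H11 = 1 - A * DC * V / (a * D * E))
    (jH12 : H12 = 1 - A * DB * V / (a * D * E)) :
    s3 ^ 3 * (a * p * q * H11 / (b * c ^ 2)) = (1 - N2) * (s3 * (b * p * G12 / a ^ 2)) + N2 *
      (s3 ^ 2 * (a * p * H12 / b ^ 2)) := by
  have e : (s3 ^ 3 * (a * p * q * H11 / (b * c ^ 2))) - ((1 - N2) * (s3 * (b * p * G12 / a ^ 2)) + N2 *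
      (s3 ^ 2 * (a * p * H12 / b ^ 2))) = d * X * ((-a ^ 2 * b ^ 2 * c ^ 3 * d + a ^ 2 * b ^ 2 * c
      ^ 3 - a ^ 2 * b ^ 2 * c ^ 2 * d ^ 2 + 2 * a ^ 2 * b ^ 2 * c ^ 2 * d + a ^ 2 * b ^ 2 * c ^ 2
      + a ^ 2 * b ^ 2 * c * d ^ 2 + a ^ 2 * b ^ 2 * c * d + a ^ 2 * b * c ^ 3 * d ^ 2 - a ^ 2 * b
      * c ^ 3 * d - a ^ 2 * b * c ^ 2 * d ^ 2 - 2 * a ^ 2 * b * c ^ 2 * d + a ^ 2 * b * c ^ 2 + a
      ^ 2 * b * c * d ^ 3 - 2 * a ^ 2 * b * c * d ^ 2 + a ^ 2 * b * c * d - a ^ 2 * b * d ^ 3 - a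
      ^ 2 * b * d ^ 2 + a ^ 2 * c ^ 2 * d ^ 2 - a ^ 2 * c ^ 2 * d + a ^ 2 * d ^ 3 - a ^ 2 * d ^ 2
      + a * b ^ 3 * c ^ 3 * d - a * b ^ 3 * c ^ 3 + a * b ^ 3 * c ^ 2 * d ^ 2 - 2 * a * b ^ 3 * c
      ^ 2 * d - a * b ^ 3 * c ^ 2 - a * b ^ 3 * c * d + a * b ^ 3 * d ^ 3 - a * b ^ 2 * c ^ 3 * d
      - a * b ^ 2 * c ^ 3 - 3 * a * b ^ 2 * c ^ 2 * d ^ 2 - a * b ^ 2 * c ^ 2 * d - 3 * a * b ^ 2
      * c ^ 2 - 3 * a * b ^ 2 * c * d ^ 3 - 3 * a * b ^ 2 * c * d - a * b ^ 2 * d ^ 4 + 3 * a * b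
      * c ^ 3 * d - a * b * c ^ 3 + a * b * c ^ 2 * d ^ 3 + 3 * a * b * c ^ 2 * d ^ 2 + 2 * a * b
      * c ^ 2 * d - 5 * a * b * c ^ 2 + a * b * c * d ^ 4 + 2 * a * b * c * d ^ 3 + 3 * a * b * c
      * d ^ 2 - 5 * a * b * c * d + 2 * a * b * d ^ 4 + 2 * a * b * d ^ 3 + 2 * a * b * d ^ 2 - a
      * c ^ 3 * d ^ 2 + a * c ^ 3 * d - a * c ^ 2 * d ^ 4 + a * c ^ 2 * d ^ 3 - a * c ^ 2 * d ^ 2
      + 5 * a * c ^ 2 * d + a * c * d ^ 4 - 3 * a * c * d ^ 3 + 2 * a * c * d ^ 2 - a * d ^ 4 + 5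
      * a * d ^ 2 - b ^ 3 * c ^ 3 * d ^ 2 + b ^ 3 * c ^ 3 * d + b ^ 3 * c ^ 2 * d - 2 * b ^ 3 * c
      * d ^ 3 + b ^ 3 * c * d ^ 2 + b ^ 3 * d ^ 3 + b ^ 3 * d ^ 2 + 2 * b ^ 2 * c ^ 3 * d ^ 2 + b
      ^ 2 * c ^ 3 * d + 3 * b ^ 2 * c ^ 2 * d ^ 3 + 3 * b ^ 2 * c ^ 2 * d + b ^ 2 * c * d ^ 4 - b
      ^ 2 * d ^ 3 + 3 * b ^ 2 * d ^ 2 + b * c ^ 3 * d ^ 3 - 3 * b * c ^ 3 * d ^ 2 + b * c ^ 3 * d
      - 2 * b * c ^ 2 * d ^ 3 - 2 * b * c ^ 2 * d ^ 2 + 5 * b * c ^ 2 * d - b * c * d ^ 4 - 3 * b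
      * c * d ^ 3 - 2 * b * c * d ^ 2 - b * d ^ 5 - 4 * b * d ^ 3 + 5 * b * d ^ 2 - c ^ 2 * d ^ 4
      + 2 * c ^ 2 * d ^ 3 - c ^ 2 * d ^ 2 - c * d ^ 5 + 2 * c * d ^ 4 - 5 * c * d ^ 2 + d ^ 4 - 5
      * d ^ 3) * ((1 - b) * (d - a ^ 2 * c) + (a - c) * (d - a * b)) + (a ^ 3 * b ^ 2 * d + a ^ 3
      * b ^ 2 - a ^ 3 * b * d + a ^ 3 * b - a ^ 3 * c * d + a ^ 3 * c - a ^ 2 * b ^ 3 * d - a ^ 2
      * b ^ 3 + a ^ 2 * b ^ 2 * d ^ 2 - 3 * a ^ 2 * b ^ 2 - 3 * a ^ 2 * b * d ^ 2 - 5 * a ^ 2 * b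
      + a ^ 2 * c ^ 2 * d - a ^ 2 * c ^ 2 + a ^ 2 * c * d - 5 * a ^ 2 * c + a ^ 2 * d ^ 2 - a ^ 2
      * d + a * b ^ 3 * c ^ 2 * d + a * b ^ 3 * c ^ 2 + a * b ^ 3 * c * d ^ 2 + a * b ^ 3 * c - 2
      * a * b ^ 3 * d ^ 2 + a * b ^ 2 * c ^ 2 * d ^ 2 - 2 * a * b ^ 2 * c ^ 2 * d + a * b ^ 2 * c
      ^ 2 - 4 * a * b ^ 2 * c * d ^ 2 + 3 * a * b ^ 2 * c * d + 3 * a * b ^ 2 * c + 4 * a * b ^ 2
      * d ^ 2 + 2 * a * b ^ 2 * d - a * b * c ^ 2 * d ^ 2 + a * b * c ^ 2 - a * b * c * d ^ 3 + 6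
      * a * b * c * d ^ 2 + 5 * a * b * c + a * b * d ^ 3 - 2 * a * b * d ^ 2 + 3 * a * b * d + 2
      * a * c * d ^ 3 - 4 * a * c * d ^ 2 + 2 * a * c * d + 4 * a * d + 3 * b ^ 3 * c * d ^ 2 - b
      ^ 3 * c * d - b ^ 3 * d ^ 2 - b ^ 3 * d + b ^ 2 * c ^ 2 * d ^ 2 - b ^ 2 * c ^ 2 * d + b ^ 2
      * c * d ^ 3 - 6 * b ^ 2 * c * d ^ 2 - b ^ 2 * c * d - b ^ 2 * d ^ 3 + b ^ 2 * d ^ 2 - 2 * b
      ^ 2 * d - b * c ^ 2 * d ^ 2 - b * c ^ 2 * d - 3 * b * c * d ^ 3 + 4 * b * c * d ^ 2 - 3 * b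
      * c * d + b * d ^ 3 + b * d ^ 2 - 2 * b * d - c ^ 2 * d ^ 3 + 2 * c ^ 2 * d ^ 2 - c ^ 2 * d
      + c * d ^ 3 - c * d ^ 2 - 4 * c * d - d ^ 2 + 5 * d) * ((d - b) * (d ^ 2 - a * c ^ 2) + d *
      (c - a) * (d - b * c))) / (b * c ^ 2 * Z ^ 2 * D * BA * B * a ^ 3 * E) := by
    rw [js3, jN2, jG12, jH11, jH12, hp, hq]
    field_simp
    simp only [hA, hB, hC, hD, hBA, hCA, hCB, hDA, hDB, hDC, hE, hW, hV, hS, hP, hZ, hX, hY]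
    ring1
  rw [Q0, R0] at e
  exact sub_eq_zero.1 (e.trans (by ring))

theorem d5x33 {a b c d A B C D BA CA CB DA DB DC E W V S P Z X Y p q s3 K3 G11 H11 w : F}
    (na : a ≠ 0) (nb : b ≠ 0) (nc : c ≠ 0) (nd : d ≠ 0) (nA : A ≠ 0) (nB : B ≠ 0) (nC : C ≠ 0) (nD
    : D ≠ 0) (nBA : BA ≠ 0) (nCA : CA ≠ 0) (nCB : CB ≠ 0) (nDA : DA ≠ 0) (nDB : DB ≠ 0) (nDC : DC
    ≠ 0) (nE : E ≠ 0) (nZ : Z ≠ 0)
    (hA : A = a - 1) (hB : B = b - 1) (hC : C = c - 1) (hD : D = d - 1) (hBA : BA = b - a) (hCA :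
    CA = c - a) (hCB : CB = c - b) (hDA : DA = d - a) (hDB : DB = d - b) (hDC : DC = d - c) (hE :
    E = a * c + d) (hW : W = a * c + a * d + d) (hV : V = c + a * c + d) (hS : S = c + d) (hP : P
    = a + 1) (hZ : Z = (d - 1) * (a * c + d) + 2 * d * (c - a)) (hX : X = a * b * c * d + b * c *
    d + a * c * d - a * b * d - a * b * c + a * d ^ 2 - a ^ 2 * d - a * d) (hY : Y = a * b * c * d
    + c ^ 2 * d + c * d ^ 2 + b * c * d - a * c * d - a * b * d - a * b * c - c * d)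
    (hp : p = X / Z) (hq : q = Y / Z)
    (Q0 : (1 - b) * (d - a ^ 2 * c) + (a - c) * (d - a * b) = 0)
    (R0 : (d - b) * (d ^ 2 - a * c ^ 2) + d * (c - a) * (d - b * c) = 0)
    (js3 : s3 = d / a)
    (jK3 : K3 = -(DA * DB * DC * V) / (d * C * CA * CB * E))
    (jG11 : G11 = 1 + A * DC * W / (c * D * E))
    (jH11 : H11 = 1 - A * DC * V / (a * D * E))
    (jw : w = P / E) :
    (d ^ 2 * w * p * q / (a ^ 2 * b)) = K3 * (s3 * (c * p * q * G11 / (a ^ 2 * b))) + (1 - K3) *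
      (s3 ^ 3 * (a * p * q * H11 / (b * c ^ 2))) := by
  have e : ((d ^ 2 * w * p * q / (a ^ 2 * b))) - (K3 * (s3 * (c * p * q * G11 / (a ^ 2 * b))) + (1 -
      K3) * (s3 ^ 3 * (a * p * q * H11 / (b * c ^ 2)))) = DA * DC ^ 2 * V * p * q * ((0) * ((1 -
      b) * (d - a ^ 2 * c) + (a - c) * (d - a * b)) + (-1) * ((d - b) * (d ^ 2 - a * c ^ 2) + d *
      (c - a) * (d - b * c))) / (b * c ^ 2 * CB * CA * D * C * a ^ 3 * E) := by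
    rw [js3, jK3, jG11, jH11, jw]
    field_simp
    simp only [hA, hB, hC, hD, hBA, hCA, hCB, hDA, hDB, hDC, hE, hW, hV, hS, hP, hZ, hX, hY]
    ring1
  rw [Q0, R0] at e
  exact sub_eq_zero.1 (e.trans (by ring))

theorem d5y33 {a b c d A B C D BA CA CB DA DB DC E W V S P Z X Y p q s3 N3 G11 H11 w : F}
    (na : a ≠ 0) (nb : b ≠ 0) (nc : c ≠ 0) (nd : d ≠ 0) (nA : A ≠ 0) (nB : B ≠ 0) (nC : C ≠ 0) (nD
    : D ≠ 0) (nBA : BA ≠ 0) (nCA : CA ≠ 0) (nCB : CB ≠ 0) (nDA : DA ≠ 0) (nDB : DB ≠ 0) (nDC : DC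
    ≠ 0) (nE : E ≠ 0) (nZ : Z ≠ 0)
    (hA : A = a - 1) (hB : B = b - 1) (hC : C = c - 1) (hD : D = d - 1) (hBA : BA = b - a) (hCA :
    CA = c - a) (hCB : CB = c - b) (hDA : DA = d - a) (hDB : DB = d - b) (hDC : DC = d - c) (hE :
    E = a * c + d) (hW : W = a * c + a * d + d) (hV : V = c + a * c + d) (hS : S = c + d) (hP : P
    = a + 1) (hZ : Z = (d - 1) * (a * c + d) + 2 * d * (c - a)) (hX : X = a * b * c * d + b * c *
    d + a * c * d - a * b * d - a * b * c + a * d ^ 2 - a ^ 2 * d - a * d) (hY : Y = a * b * c * d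
    + c ^ 2 * d + c * d ^ 2 + b * c * d - a * c * d - a * b * d - a * b * c - c * d)
    (hp : p = X / Z) (hq : q = Y / Z)
    (Q0 : (1 - b) * (d - a ^ 2 * c) + (a - c) * (d - a * b) = 0)
    (R0 : (d - b) * (d ^ 2 - a * c ^ 2) + d * (c - a) * (d - b * c) = 0)
    (js3 : s3 = d / a)
    (jN3 : N3 = -(c ^ 2 * DA * DB * DC * W) / (d ^ 2 * C * CA * CB * E))
    (jG11 : G11 = 1 + A * DC * W / (c * D * E))
    (jH11 : H11 = 1 - A * DC * V / (a * D * E))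
    (jw : w = P / E) :
    s3 ^ 4 * (a * w * p * q / (b * d)) = (1 - N3) * (s3 * (c * p * q * G11 / (a ^ 2 * b))) + N3
      * (s3 ^ 3 * (a * p * q * H11 / (b * c ^ 2))) := by
  have e : (s3 ^ 4 * (a * w * p * q / (b * d))) - ((1 - N3) * (s3 * (c * p * q * G11 / (a ^ 2 * b))) +
      N3 * (s3 ^ 3 * (a * p * q * H11 / (b * c ^ 2)))) = DA * DC ^ 2 * W * p * q * ((0) * ((1 - b)
      * (d - a ^ 2 * c) + (a - c) * (d - a * b)) + (1) * ((d - b) * (d ^ 2 - a * c ^ 2) + d * (c -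
      a) * (d - b * c))) / (b * d * CB * CA * D * C * a ^ 3 * E) := by
    rw [js3, jN3, jG11, jH11, jw]
    field_simp
    simp only [hA, hB, hC, hD, hBA, hCA, hCB, hDA, hDB, hDC, hE, hW, hV, hS, hP, hZ, hX, hY]
    ring1
  rw [Q0, R0] at e
  exact sub_eq_zero.1 (e.trans (by ring))

theorem d5x04 {a b c d A B C D BA CA CB DA DB DC E W V S P Z X Y p q K0 o : F}
    (na : a ≠ 0) (nb : b ≠ 0) (nc : c ≠ 0) (nd : d ≠ 0) (nA : A ≠ 0) (nB : B ≠ 0) (nC : C ≠ 0) (nD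
    : D ≠ 0) (nBA : BA ≠ 0) (nCA : CA ≠ 0) (nCB : CB ≠ 0) (nDA : DA ≠ 0) (nDB : DB ≠ 0) (nDC : DC
    ≠ 0) (nE : E ≠ 0) (nZ : Z ≠ 0)
    (hA : A = a - 1) (hB : B = b - 1) (hC : C = c - 1) (hD : D = d - 1) (hBA : BA = b - a) (hCA :
    CA = c - a) (hCB : CB = c - b) (hDA : DA = d - a) (hDB : DB = d - b) (hDC : DC = d - c) (hE :
    E = a * c + d) (hW : W = a * c + a * d + d) (hV : V = c + a * c + d) (hS : S = c + d) (hP : P
    = a + 1) (hZ : Z = (d - 1) * (a * c + d) + 2 * d * (c - a)) (hX : X = a * b * c * d + b * c *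
    d + a * c * d - a * b * d - a * b * c + a * d ^ 2 - a ^ 2 * d - a * d) (hY : Y = a * b * c * d
    + c ^ 2 * d + c * d ^ 2 + b * c * d - a * c * d - a * b * d - a * b * c - c * d)
    (hp : p = X / Z) (hq : q = Y / Z)
    (Q0 : (1 - b) * (d - a ^ 2 * c) + (a - c) * (d - a * b) = 0)
    (R0 : (d - b) * (d ^ 2 - a * c ^ 2) + d * (c - a) * (d - b * c) = 0)
    (jK0 : K0 = A * W / (D * E))
    (jo : o = S / E) :
    (a ^ 2 * o) = K0 * (d) + (1 - K0) * (1) := by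
  rw [jK0, jo]
  field_simp
  try simp only [hA, hB, hC, hD, hBA, hCA, hCB, hDA, hDB, hDC, hE, hW, hV, hS, hP, hZ, hX, hY]
  try ring1

theorem d5y04 {a b c d A B C D BA CA CB DA DB DC E W V S P Z X Y p q N0 o : F}
    (na : a ≠ 0) (nb : b ≠ 0) (nc : c ≠ 0) (nd : d ≠ 0) (nA : A ≠ 0) (nB : B ≠ 0) (nC : C ≠ 0) (nD
    : D ≠ 0) (nBA : BA ≠ 0) (nCA : CA ≠ 0) (nCB : CB ≠ 0) (nDA : DA ≠ 0) (nDB : DB ≠ 0) (nDC : DC
    ≠ 0) (nE : E ≠ 0) (nZ : Z ≠ 0)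
    (hA : A = a - 1) (hB : B = b - 1) (hC : C = c - 1) (hD : D = d - 1) (hBA : BA = b - a) (hCA :
    CA = c - a) (hCB : CB = c - b) (hDA : DA = d - a) (hDB : DB = d - b) (hDC : DC = d - c) (hE :
    E = a * c + d) (hW : W = a * c + a * d + d) (hV : V = c + a * c + d) (hS : S = c + d) (hP : P
    = a + 1) (hZ : Z = (d - 1) * (a * c + d) + 2 * d * (c - a)) (hX : X = a * b * c * d + b * c *
    d + a * c * d - a * b * d - a * b * c + a * d ^ 2 - a ^ 2 * d - a * d) (hY : Y = a * b * c * d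
    + c ^ 2 * d + c * d ^ 2 + b * c * d - a * c * d - a * b * d - a * b * c - c * d)
    (hp : p = X / Z) (hq : q = Y / Z)
    (Q0 : (1 - b) * (d - a ^ 2 * c) + (a - c) * (d - a * b) = 0)
    (R0 : (d - b) * (d ^ 2 - a * c ^ 2) + d * (c - a) * (d - b * c) = 0)
    (jN0 : N0 = d * A * V / (a * D * E))
    (jo : o = S / E) :
    d * (o / a) = (1 - N0) * (d) + N0 * (1) := by
  rw [jN0, jo]
  field_simp
  try simp only [hA, hB, hC, hD, hBA, hCA, hCB, hDA, hDB, hDC, hE, hW, hV, hS, hP, hZ, hX, hY]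
  try ring1

theorem d5x14 {a b c d A B C D BA CA CB DA DB DC E W V S P Z X Y p q K1 o : F}
    (na : a ≠ 0) (nb : b ≠ 0) (nc : c ≠ 0) (nd : d ≠ 0) (nA : A ≠ 0) (nB : B ≠ 0) (nC : C ≠ 0) (nD
    : D ≠ 0) (nBA : BA ≠ 0) (nCA : CA ≠ 0) (nCB : CB ≠ 0) (nDA : DA ≠ 0) (nDB : DB ≠ 0) (nDC : DC
    ≠ 0) (nE : E ≠ 0) (nZ : Z ≠ 0)
    (hA : A = a - 1) (hB : B = b - 1) (hC : C = c - 1) (hD : D = d - 1) (hBA : BA = b - a) (hCA :
    CA = c - a) (hCB : CB = c - b) (hDA : DA = d - a) (hDB : DB = d - b) (hDC : DC = d - c) (hE :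
    E = a * c + d) (hW : W = a * c + a * d + d) (hV : V = c + a * c + d) (hS : S = c + d) (hP : P
    = a + 1) (hZ : Z = (d - 1) * (a * c + d) + 2 * d * (c - a)) (hX : X = a * b * c * d + b * c *
    d + a * c * d - a * b * d - a * b * c + a * d ^ 2 - a ^ 2 * d - a * d) (hY : Y = a * b * c * d
    + c ^ 2 * d + c * d ^ 2 + b * c * d - a * c * d - a * b * d - a * b * c - c * d)
    (hp : p = X / Z) (hq : q = Y / Z)
    (Q0 : (1 - b) * (d - a ^ 2 * c) + (a - c) * (d - a * b) = 0)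
    (R0 : (d - b) * (d ^ 2 - a * c ^ 2) + d * (c - a) * (d - b * c) = 0)
    (jK1 : K1 = c * B * BA / (A * Z))
    (jo : o = S / E) :
    (b * o * p) = K1 * (d * (a ^ 2 * o)) + (1 - K1) * (d * (o / a)) := by
  have e : C * (((b * o * p)) - (K1 * (d * (a ^ 2 * o)) + (1 - K1) * (d * (o / a)))) = S * ((a * c * d
      - a * d - b * c - b * d + 2 * c * d + d ^ 2 - d) * ((1 - b) * (d - a ^ 2 * c) + (a - c) * (d
      - a * b)) + (-a + b) * ((d - b) * (d ^ 2 - a * c ^ 2) + d * (c - a) * (d - b * c))) / (Z * a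
      * E) := by
    rw [jK1, jo, hp]
    field_simp
    simp only [hA, hB, hC, hD, hBA, hCA, hCB, hDA, hDB, hDC, hE, hW, hV, hS, hP, hZ, hX, hY]
    ring1
  rw [Q0, R0] at e
  have e2 := (mul_eq_zero.1 (e.trans (by ring))).resolve_left nC
  exact sub_eq_zero.1 e2

theorem d5y14 {a b c d A B C D BA CA CB DA DB DC E W V S P Z X Y p q N1 o : F}
    (na : a ≠ 0) (nb : b ≠ 0) (nc : c ≠ 0) (nd : d ≠ 0) (nA : A ≠ 0) (nB : B ≠ 0) (nC : C ≠ 0) (nD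
    : D ≠ 0) (nBA : BA ≠ 0) (nCA : CA ≠ 0) (nCB : CB ≠ 0) (nDA : DA ≠ 0) (nDB : DB ≠ 0) (nDC : DC
    ≠ 0) (nE : E ≠ 0) (nZ : Z ≠ 0)
    (hA : A = a - 1) (hB : B = b - 1) (hC : C = c - 1) (hD : D = d - 1) (hBA : BA = b - a) (hCA :
    CA = c - a) (hCB : CB = c - b) (hDA : DA = d - a) (hDB : DB = d - b) (hDC : DC = d - c) (hE :
    E = a * c + d) (hW : W = a * c + a * d + d) (hV : V = c + a * c + d) (hS : S = c + d) (hP : P
    = a + 1) (hZ : Z = (d - 1) * (a * c + d) + 2 * d * (c - a)) (hX : X = a * b * c * d + b * c *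
    d + a * c * d - a * b * d - a * b * c + a * d ^ 2 - a ^ 2 * d - a * d) (hY : Y = a * b * c * d
    + c ^ 2 * d + c * d ^ 2 + b * c * d - a * c * d - a * b * d - a * b * c - c * d)
    (hp : p = X / Z) (hq : q = Y / Z)
    (Q0 : (1 - b) * (d - a ^ 2 * c) + (a - c) * (d - a * b) = 0)
    (R0 : (d - b) * (d ^ 2 - a * c ^ 2) + d * (c - a) * (d - b * c) = 0)
    (jN1 : N1 = a * d ^ 2 * B * BA / (b ^ 2 * A * Z))
    (jo : o = S / E) :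
    d ^ 2 * (o * p / b ^ 2) = (1 - N1) * (d * (a ^ 2 * o)) + N1 * (d * (o / a)) := by
  have e : C * ((d ^ 2 * (o * p / b ^ 2)) - ((1 - N1) * (d * (a ^ 2 * o)) + N1 * (d * (o / a)))) = d *
      S * ((-a * b * c * d + a * b * c + 2 * a * b * d - a * c * d - a * d ^ 2 - b * c * d + b *
      d) * ((1 - b) * (d - a ^ 2 * c) + (a - c) * (d - a * b)) + (a ^ 2 - a * b) * ((d - b) * (d ^
      2 - a * c ^ 2) + d * (c - a) * (d - b * c))) / (b ^ 2 * Z * E) := by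
    rw [jN1, jo, hp]
    field_simp
    simp only [hA, hB, hC, hD, hBA, hCA, hCB, hDA, hDB, hDC, hE, hW, hV, hS, hP, hZ, hX, hY]
    ring1
  rw [Q0, R0] at e
  have e2 := (mul_eq_zero.1 (e.trans (by ring))).resolve_left nC
  exact sub_eq_zero.1 e2

theorem d5x24 {a b c d A B C D BA CA CB DA DB DC E W V S P Z X Y p q K2 o : F}
    (na : a ≠ 0) (nb : b ≠ 0) (nc : c ≠ 0) (nd : d ≠ 0) (nA : A ≠ 0) (nB : B ≠ 0) (nC : C ≠ 0) (nD
    : D ≠ 0) (nBA : BA ≠ 0) (nCA : CA ≠ 0) (nCB : CB ≠ 0) (nDA : DA ≠ 0) (nDB : DB ≠ 0) (nDC : DC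
    ≠ 0) (nE : E ≠ 0) (nZ : Z ≠ 0)
    (hA : A = a - 1) (hB : B = b - 1) (hC : C = c - 1) (hD : D = d - 1) (hBA : BA = b - a) (hCA :
    CA = c - a) (hCB : CB = c - b) (hDA : DA = d - a) (hDB : DB = d - b) (hDC : DC = d - c) (hE :
    E = a * c + d) (hW : W = a * c + a * d + d) (hV : V = c + a * c + d) (hS : S = c + d) (hP : P
    = a + 1) (hZ : Z = (d - 1) * (a * c + d) + 2 * d * (c - a)) (hX : X = a * b * c * d + b * c *
    d + a * c * d - a * b * d - a * b * c + a * d ^ 2 - a ^ 2 * d - a * d) (hY : Y = a * b * c * d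
    + c ^ 2 * d + c * d ^ 2 + b * c * d - a * c * d - a * b * d - a * b * c - c * d)
    (hp : p = X / Z) (hq : q = Y / Z)
    (Q0 : (1 - b) * (d - a ^ 2 * c) + (a - c) * (d - a * b) = 0)
    (R0 : (d - b) * (d ^ 2 - a * c ^ 2) + d * (c - a) * (d - b * c) = 0)
    (jK2 : K2 = -(a * C * CA * CB) / (B * BA * Z))
    (jo : o = S / E) :
    (c * o * p * q / b) = K2 * (d * (b * o * p)) + (1 - K2) * (d ^ 2 * (o * p / b ^ 2)) := by
  have e : ((c * o * p * q / b)) - (K2 * (d * (b * o * p)) + (1 - K2) * (d ^ 2 * (o * p / b ^ 2))) = S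
      * X * ((b ^ 3 * d + b ^ 2 * c ^ 2 - b ^ 2 * c * d - b * c ^ 2 * d - 2 * b * d ^ 2 + c * d ^
      2 + d ^ 3) * ((1 - b) * (d - a ^ 2 * c) + (a - c) * (d - a * b)) + (-a * b ^ 2 * c + 2 * a *
      b ^ 2 + a * b * c + a * b * d - a * b - 2 * a * d - b ^ 3 - b ^ 2 * c - b ^ 2 * d + b ^ 2 +
      2 * b * d + c * d - d) * ((d - b) * (d ^ 2 - a * c ^ 2) + d * (c - a) * (d - b * c))) / (b ^
      2 * Z ^ 2 * BA * B * E) := by
    rw [jK2, jo, hp, hq]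
    field_simp
    simp only [hA, hB, hC, hD, hBA, hCA, hCB, hDA, hDB, hDC, hE, hW, hV, hS, hP, hZ, hX, hY]
    ring1
  rw [Q0, R0] at e
  exact sub_eq_zero.1 (e.trans (by ring))

theorem d5y24 {a b c d A B C D BA CA CB DA DB DC E W V S P Z X Y p q N2 o : F}
    (na : a ≠ 0) (nb : b ≠ 0) (nc : c ≠ 0) (nd : d ≠ 0) (nA : A ≠ 0) (nB : B ≠ 0) (nC : C ≠ 0) (nD
    : D ≠ 0) (nBA : BA ≠ 0) (nCA : CA ≠ 0) (nCB : CB ≠ 0) (nDA : DA ≠ 0) (nDB : DB ≠ 0) (nDC : DC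
    ≠ 0) (nE : E ≠ 0) (nZ : Z ≠ 0)
    (hA : A = a - 1) (hB : B = b - 1) (hC : C = c - 1) (hD : D = d - 1) (hBA : BA = b - a) (hCA :
    CA = c - a) (hCB : CB = c - b) (hDA : DA = d - a) (hDB : DB = d - b) (hDC : DC = d - c) (hE :
    E = a * c + d) (hW : W = a * c + a * d + d) (hV : V = c + a * c + d) (hS : S = c + d) (hP : P
    = a + 1) (hZ : Z = (d - 1) * (a * c + d) + 2 * d * (c - a)) (hX : X = a * b * c * d + b * c *
    d + a * c * d - a * b * d - a * b * c + a * d ^ 2 - a ^ 2 * d - a * d) (hY : Y = a * b * c * d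
    + c ^ 2 * d + c * d ^ 2 + b * c * d - a * c * d - a * b * d - a * b * c - c * d)
    (hp : p = X / Z) (hq : q = Y / Z)
    (Q0 : (1 - b) * (d - a ^ 2 * c) + (a - c) * (d - a * b) = 0)
    (R0 : (d - b) * (d ^ 2 - a * c ^ 2) + d * (c - a) * (d - b * c) = 0)
    (jN2 : N2 = -(b * d ^ 2 * C * CA * CB) / (c ^ 2 * B * BA * Z))
    (jo : o = S / E) :
    d ^ 3 * (o * p * q / (b * c ^ 2)) = (1 - N2) * (d * (b * o * p)) + N2 * (d ^ 2 * (o * p / b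
      ^ 2)) := by
  have e : (d ^ 3 * (o * p * q / (b * c ^ 2))) - ((1 - N2) * (d * (b * o * p)) + N2 * (d ^ 2 * (o * p /
      b ^ 2))) = d * S * X * ((-b ^ 3 * c ^ 2 - b ^ 3 * c * d + 2 * b ^ 2 * c ^ 2 * d + b ^ 2 * d
      ^ 2 + b * c * d ^ 2 - b * d ^ 3 - c ^ 2 * d ^ 2) * ((1 - b) * (d - a ^ 2 * c) + (a - c) * (d
      - a * b)) + (a * b ^ 3 * c - a * b ^ 3 - 2 * a * b ^ 2 * c - a * b * c * d + a * b * c + a *
      b * d + a * c * d + 2 * b ^ 3 * c + b ^ 2 * c * d - b ^ 2 * c - b ^ 2 * d - 2 * b * c * d +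
      b * d) * ((d - b) * (d ^ 2 - a * c ^ 2) + d * (c - a) * (d - b * c))) / (b * c ^ 2 * Z ^ 2 *
      BA * B * E) := by
    rw [jN2, jo, hp, hq]
    field_simp
    simp only [hA, hB, hC, hD, hBA, hCA, hCB, hDA, hDB, hDC, hE, hW, hV, hS, hP, hZ, hX, hY]
    ring1
  rw [Q0, R0] at e
  exact sub_eq_zero.1 (e.trans (by ring))

theorem d5x34 {a b c d A B C D BA CA CB DA DB DC E W V S P Z X Y p q K3 o w : F}
    (na : a ≠ 0) (nb : b ≠ 0) (nc : c ≠ 0) (nd : d ≠ 0) (nA : A ≠ 0) (nB : B ≠ 0) (nC : C ≠ 0) (nD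
    : D ≠ 0) (nBA : BA ≠ 0) (nCA : CA ≠ 0) (nCB : CB ≠ 0) (nDA : DA ≠ 0) (nDB : DB ≠ 0) (nDC : DC
    ≠ 0) (nE : E ≠ 0) (nZ : Z ≠ 0)
    (hA : A = a - 1) (hB : B = b - 1) (hC : C = c - 1) (hD : D = d - 1) (hBA : BA = b - a) (hCA :
    CA = c - a) (hCB : CB = c - b) (hDA : DA = d - a) (hDB : DB = d - b) (hDC : DC = d - c) (hE :
    E = a * c + d) (hW : W = a * c + a * d + d) (hV : V = c + a * c + d) (hS : S = c + d) (hP : P
    = a + 1) (hZ : Z = (d - 1) * (a * c + d) + 2 * d * (c - a)) (hX : X = a * b * c * d + b * c *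
    d + a * c * d - a * b * d - a * b * c + a * d ^ 2 - a ^ 2 * d - a * d) (hY : Y = a * b * c * d
    + c ^ 2 * d + c * d ^ 2 + b * c * d - a * c * d - a * b * d - a * b * c - c * d)
    (hp : p = X / Z) (hq : q = Y / Z)
    (Q0 : (1 - b) * (d - a ^ 2 * c) + (a - c) * (d - a * b) = 0)
    (R0 : (d - b) * (d ^ 2 - a * c ^ 2) + d * (c - a) * (d - b * c) = 0)
    (jK3 : K3 = -(DA * DB * DC * V) / (d * C * CA * CB * E))
    (jo : o = S / E)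
    (jw : w = P / E) :
    (d ^ 2 * o * w * p * q / b) = K3 * (d * (c * o * p * q / b)) + (1 - K3) * (d ^ 3 * (o * p *
      q / (b * c ^ 2))) := by
  have e : ((d ^ 2 * o * w * p * q / b)) - (K3 * (d * (c * o * p * q / b)) + (1 - K3) * (d ^ 3 * (o * p
      * q / (b * c ^ 2)))) = DC ^ 2 * V * S * p * q * ((0) * ((1 - b) * (d - a ^ 2 * c) + (a - c)
      * (d - a * b)) + (-1) * ((d - b) * (d ^ 2 - a * c ^ 2) + d * (c - a) * (d - b * c))) / (b *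
      c ^ 2 * CB * CA * C * E ^ 2) := by
    rw [jK3, jo, jw]
    field_simp
    simp only [hA, hB, hC, hD, hBA, hCA, hCB, hDA, hDB, hDC, hE, hW, hV, hS, hP, hZ, hX, hY]
    ring1
  rw [Q0, R0] at e
  exact sub_eq_zero.1 (e.trans (by ring))

theorem d5y34 {a b c d A B C D BA CA CB DA DB DC E W V S P Z X Y p q N3 o w : F}
    (na : a ≠ 0) (nb : b ≠ 0) (nc : c ≠ 0) (nd : d ≠ 0) (nA : A ≠ 0) (nB : B ≠ 0) (nC : C ≠ 0) (nD
    : D ≠ 0) (nBA : BA ≠ 0) (nCA : CA ≠ 0) (nCB : CB ≠ 0) (nDA : DA ≠ 0) (nDB : DB ≠ 0) (nDC : DC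
    ≠ 0) (nE : E ≠ 0) (nZ : Z ≠ 0)
    (hA : A = a - 1) (hB : B = b - 1) (hC : C = c - 1) (hD : D = d - 1) (hBA : BA = b - a) (hCA :
    CA = c - a) (hCB : CB = c - b) (hDA : DA = d - a) (hDB : DB = d - b) (hDC : DC = d - c) (hE :
    E = a * c + d) (hW : W = a * c + a * d + d) (hV : V = c + a * c + d) (hS : S = c + d) (hP : P
    = a + 1) (hZ : Z = (d - 1) * (a * c + d) + 2 * d * (c - a)) (hX : X = a * b * c * d + b * c *
    d + a * c * d - a * b * d - a * b * c + a * d ^ 2 - a ^ 2 * d - a * d) (hY : Y = a * b * c * d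
    + c ^ 2 * d + c * d ^ 2 + b * c * d - a * c * d - a * b * d - a * b * c - c * d)
    (hp : p = X / Z) (hq : q = Y / Z)
    (Q0 : (1 - b) * (d - a ^ 2 * c) + (a - c) * (d - a * b) = 0)
    (R0 : (d - b) * (d ^ 2 - a * c ^ 2) + d * (c - a) * (d - b * c) = 0)
    (jN3 : N3 = -(c ^ 2 * DA * DB * DC * W) / (d ^ 2 * C * CA * CB * E))
    (jo : o = S / E)
    (jw : w = P / E) :
    d ^ 4 * (o * w * p * q / (b * d)) = (1 - N3) * (d * (c * o * p * q / b)) + N3 * (d ^ 3 * (o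
      * p * q / (b * c ^ 2))) := by
  have e : (d ^ 4 * (o * w * p * q / (b * d))) - ((1 - N3) * (d * (c * o * p * q / b)) + N3 * (d ^ 3 *
      (o * p * q / (b * c ^ 2)))) = DC ^ 2 * W * S * p * q * ((0) * ((1 - b) * (d - a ^ 2 * c) +
      (a - c) * (d - a * b)) + (1) * ((d - b) * (d ^ 2 - a * c ^ 2) + d * (c - a) * (d - b * c)))
      / (b * d * CB * CA * C * E ^ 2) := by
    rw [jN3, jo, jw]
    field_simp
    simp only [hA, hB, hC, hD, hBA, hCA, hCB, hDA, hDB, hDC, hE, hW, hV, hS, hP, hZ, hX, hY]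
    ring1
  rw [Q0, R0] at e
  exact sub_eq_zero.1 (e.trans (by ring))

end Pool.Agent.Helper76.IP
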