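import Mathlib

/-!
TH-P, phase 2, family D5 (reversed form): cells of the table (generated).
-/

namespace Pool.Agent.Helper76.IP

set_option linter.unusedVariables false
set_option linter.unusedSimpArgs false
set_option maxRecDepth 100000

variable {F : Type*} [Field F]

theorem d5c1 {a b c d A B C D BA CA CB DA DB DC E W V S P Z X Y p q o : F}
    (na : a ≠ 0) (nb : b ≠ 0) (nc : c ≠ 0) (nd : d ≠ 0) (nA : A ≠ 0) (nB : B ≠ 0) (nC : C ≠ 0) (nD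
    : D ≠ 0) (nBA : BA ≠ 0) (nCA : CA ≠ 0) (nCB : CB ≠ 0) (nDA : DA ≠ 0) (nDB : DB ≠ 0) (nDC : DC
    ≠ 0) (nE : E ≠ 0) (nZ : Z ≠ 0)
    (hA : A = a - 1) (hB : B = b - 1) (hC : C = c - 1) (hD : D = d - 1) (hBA : BA = b - a) (hCA :
    CA = c - a) (hCB : CB = c - b) (hDA : DA = d - a) (hDB : DB = d - b) (hDC : DC = d - c) (hE :
    E = a * c + d) (hW : W = a * c + a * d + d) (hV : V = c + a * c + d) (hS : S = c + d) (hP : P
    = a + 1) (hZ : Z = (d - 1) * (a * c + d) + 2 * d * (c - a)) (hX : X = a * b * c * d + b * c *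
    d + a * c * d - a * b * d - a * b * c + a * d ^ 2 - a ^ 2 * d - a * d) (hY : Y = a * b * c * d
    + c ^ 2 * d + c * d ^ 2 + b * c * d - a * c * d - a * b * d - a * b * c - c * d)
    (hp : p = X / Z) (hq : q = Y / Z)
    (Q0 : (1 - b) * (d - a ^ 2 * c) + (a - c) * (d - a * b) = 0)
    (R0 : (d - b) * (d ^ 2 - a * c ^ 2) + d * (c - a) * (d - b * c) = 0)
    (jo : o = S / E) :
    a * (a ^ 2 * o) = a ^ 4 * (o / a) := by
  rw [jo]
  field_simp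
  try simp only [hA, hB, hC, hD, hBA, hCA, hCB, hDA, hDB, hDC, hE, hW, hV, hS, hP, hZ, hX, hY]
  try ring1

theorem d5e1 {a b c d A B C D BA CA CB DA DB DC E W V S P Z X Y p q s1 w : F}
    (na : a ≠ 0) (nb : b ≠ 0) (nc : c ≠ 0) (nd : d ≠ 0) (nA : A ≠ 0) (nB : B ≠ 0) (nC : C ≠ 0) (nD
    : D ≠ 0) (nBA : BA ≠ 0) (nCA : CA ≠ 0) (nCB : CB ≠ 0) (nDA : DA ≠ 0) (nDB : DB ≠ 0) (nDC : DC
    ≠ 0) (nE : E ≠ 0) (nZ : Z ≠ 0)
    (hA : A = a - 1) (hB : B = b - 1) (hC : C = c - 1) (hD : D = d - 1) (hBA : BA = b - a) (hCA :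
    CA = c - a) (hCB : CB = c - b) (hDA : DA = d - a) (hDB : DB = d - b) (hDC : DC = d - c) (hE :
    E = a * c + d) (hW : W = a * c + a * d + d) (hV : V = c + a * c + d) (hS : S = c + d) (hP : P
    = a + 1) (hZ : Z = (d - 1) * (a * c + d) + 2 * d * (c - a)) (hX : X = a * b * c * d + b * c *
    d + a * c * d - a * b * d - a * b * c + a * d ^ 2 - a ^ 2 * d - a * d) (hY : Y = a * b * c * d
    + c ^ 2 * d + c * d ^ 2 + b * c * d - a * c * d - a * b * d - a * b * c - c * d)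
    (hp : p = X / Z) (hq : q = Y / Z)
    (Q0 : (1 - b) * (d - a ^ 2 * c) + (a - c) * (d - a * b) = 0)
    (R0 : (d - b) * (d ^ 2 - a * c ^ 2) + d * (c - a) * (d - b * c) = 0)
    (js1 : s1 = d / c)
    (jw : w = P / E) :
    s1 * (d ^ 2 * w / c) = s1 ^ 4 * (c ^ 2 * w / d) := by
  rw [js1, jw]
  field_simp
  try simp only [hA, hB, hC, hD, hBA, hCA, hCB, hDA, hDB, hDC, hE, hW, hV, hS, hP, hZ, hX, hY]
  try ring1

theorem d5c2 {a b c d A B C D BA CA CB DA DB DC E W V S P Z X Y p q o : F}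
    (na : a ≠ 0) (nb : b ≠ 0) (nc : c ≠ 0) (nd : d ≠ 0) (nA : A ≠ 0) (nB : B ≠ 0) (nC : C ≠ 0) (nD
    : D ≠ 0) (nBA : BA ≠ 0) (nCA : CA ≠ 0) (nCB : CB ≠ 0) (nDA : DA ≠ 0) (nDB : DB ≠ 0) (nDC : DC
    ≠ 0) (nE : E ≠ 0) (nZ : Z ≠ 0)
    (hA : A = a - 1) (hB : B = b - 1) (hC : C = c - 1) (hD : D = d - 1) (hBA : BA = b - a) (hCA :
    CA = c - a) (hCB : CB = c - b) (hDA : DA = d - a) (hDB : DB = d - b) (hDC : DC = d - c) (hE :
    E = a * c + d) (hW : W = a * c + a * d + d) (hV : V = c + a * c + d) (hS : S = c + d) (hP : P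
    = a + 1) (hZ : Z = (d - 1) * (a * c + d) + 2 * d * (c - a)) (hX : X = a * b * c * d + b * c *
    d + a * c * d - a * b * d - a * b * c + a * d ^ 2 - a ^ 2 * d - a * d) (hY : Y = a * b * c * d
    + c ^ 2 * d + c * d ^ 2 + b * c * d - a * c * d - a * b * d - a * b * c - c * d)
    (hp : p = X / Z) (hq : q = Y / Z)
    (Q0 : (1 - b) * (d - a ^ 2 * c) + (a - c) * (d - a * b) = 0)
    (R0 : (d - b) * (d ^ 2 - a * c ^ 2) + d * (c - a) * (d - b * c) = 0)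
    (jo : o = S / E) :
    b * (b * o * p) = b ^ 4 * (o * p / b ^ 2) := by
  rw [jo]
  field_simp
  try simp only [hA, hB, hC, hD, hBA, hCA, hCB, hDA, hDB, hDC, hE, hW, hV, hS, hP, hZ, hX, hY]
  try ring1

theorem d5e2 {a b c d A B C D BA CA CB DA DB DC E W V S P Z X Y p q s2 w : F}
    (na : a ≠ 0) (nb : b ≠ 0) (nc : c ≠ 0) (nd : d ≠ 0) (nA : A ≠ 0) (nB : B ≠ 0) (nC : C ≠ 0) (nD
    : D ≠ 0) (nBA : BA ≠ 0) (nCA : CA ≠ 0) (nCB : CB ≠ 0) (nDA : DA ≠ 0) (nDB : DB ≠ 0) (nDC : DC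
    ≠ 0) (nE : E ≠ 0) (nZ : Z ≠ 0)
    (hA : A = a - 1) (hB : B = b - 1) (hC : C = c - 1) (hD : D = d - 1) (hBA : BA = b - a) (hCA :
    CA = c - a) (hCB : CB = c - b) (hDA : DA = d - a) (hDB : DB = d - b) (hDC : DC = d - c) (hE :
    E = a * c + d) (hW : W = a * c + a * d + d) (hV : V = c + a * c + d) (hS : S = c + d) (hP : P
    = a + 1) (hZ : Z = (d - 1) * (a * c + d) + 2 * d * (c - a)) (hX : X = a * b * c * d + b * c *
    d + a * c * d - a * b * d - a * b * c + a * d ^ 2 - a ^ 2 * d - a * d) (hY : Y = a * b * c * d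
    + c ^ 2 * d + c * d ^ 2 + b * c * d - a * c * d - a * b * d - a * b * c - c * d)
    (hp : p = X / Z) (hq : q = Y / Z)
    (Q0 : (1 - b) * (d - a ^ 2 * c) + (a - c) * (d - a * b) = 0)
    (R0 : (d - b) * (d ^ 2 - a * c ^ 2) + d * (c - a) * (d - b * c) = 0)
    (js2 : s2 = d / b)
    (jw : w = P / E) :
    s2 * (d ^ 2 * w * q / b ^ 2) = s2 ^ 4 * (b * w * q / d) := by
  rw [js2, jw]
  field_simp
  try simp only [hA, hB, hC, hD, hBA, hCA, hCB, hDA, hDB, hDC, hE, hW, hV, hS, hP, hZ, hX, hY]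
  try ring1

theorem d5c3 {a b c d A B C D BA CA CB DA DB DC E W V S P Z X Y p q o : F}
    (na : a ≠ 0) (nb : b ≠ 0) (nc : c ≠ 0) (nd : d ≠ 0) (nA : A ≠ 0) (nB : B ≠ 0) (nC : C ≠ 0) (nD
    : D ≠ 0) (nBA : BA ≠ 0) (nCA : CA ≠ 0) (nCB : CB ≠ 0) (nDA : DA ≠ 0) (nDB : DB ≠ 0) (nDC : DC
    ≠ 0) (nE : E ≠ 0) (nZ : Z ≠ 0)
    (hA : A = a - 1) (hB : B = b - 1) (hC : C = c - 1) (hD : D = d - 1) (hBA : BA = b - a) (hCA :
    CA = c - a) (hCB : CB = c - b) (hDA : DA = d - a) (hDB : DB = d - b) (hDC : DC = d - c) (hE :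
    E = a * c + d) (hW : W = a * c + a * d + d) (hV : V = c + a * c + d) (hS : S = c + d) (hP : P
    = a + 1) (hZ : Z = (d - 1) * (a * c + d) + 2 * d * (c - a)) (hX : X = a * b * c * d + b * c *
    d + a * c * d - a * b * d - a * b * c + a * d ^ 2 - a ^ 2 * d - a * d) (hY : Y = a * b * c * d
    + c ^ 2 * d + c * d ^ 2 + b * c * d - a * c * d - a * b * d - a * b * c - c * d)
    (hp : p = X / Z) (hq : q = Y / Z)
    (Q0 : (1 - b) * (d - a ^ 2 * c) + (a - c) * (d - a * b) = 0)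
    (R0 : (d - b) * (d ^ 2 - a * c ^ 2) + d * (c - a) * (d - b * c) = 0)
    (jo : o = S / E) :
    c * (c * o * p * q / b) = c ^ 4 * (o * p * q / (b * c ^ 2)) := by
  rw [jo]
  field_simp
  try simp only [hA, hB, hC, hD, hBA, hCA, hCB, hDA, hDB, hDC, hE, hW, hV, hS, hP, hZ, hX, hY]
  try ring1

theorem d5e3 {a b c d A B C D BA CA CB DA DB DC E W V S P Z X Y p q s3 w : F}
    (na : a ≠ 0) (nb : b ≠ 0) (nc : c ≠ 0) (nd : d ≠ 0) (nA : A ≠ 0) (nB : B ≠ 0) (nC : C ≠ 0) (nD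
    : D ≠ 0) (nBA : BA ≠ 0) (nCA : CA ≠ 0) (nCB : CB ≠ 0) (nDA : DA ≠ 0) (nDB : DB ≠ 0) (nDC : DC
    ≠ 0) (nE : E ≠ 0) (nZ : Z ≠ 0)
    (hA : A = a - 1) (hB : B = b - 1) (hC : C = c - 1) (hD : D = d - 1) (hBA : BA = b - a) (hCA :
    CA = c - a) (hCB : CB = c - b) (hDA : DA = d - a) (hDB : DB = d - b) (hDC : DC = d - c) (hE :
    E = a * c + d) (hW : W = a * c + a * d + d) (hV : V = c + a * c + d) (hS : S = c + d) (hP : P
    = a + 1) (hZ : Z = (d - 1) * (a * c + d) + 2 * d * (c - a)) (hX : X = a * b * c * d + b * c *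
    d + a * c * d - a * b * d - a * b * c + a * d ^ 2 - a ^ 2 * d - a * d) (hY : Y = a * b * c * d
    + c ^ 2 * d + c * d ^ 2 + b * c * d - a * c * d - a * b * d - a * b * c - c * d)
    (hp : p = X / Z) (hq : q = Y / Z)
    (Q0 : (1 - b) * (d - a ^ 2 * c) + (a - c) * (d - a * b) = 0)
    (R0 : (d - b) * (d ^ 2 - a * c ^ 2) + d * (c - a) * (d - b * c) = 0)
    (js3 : s3 = d / a)
    (jw : w = P / E) :
    s3 * (d ^ 2 * w * p * q / (a ^ 2 * b)) = s3 ^ 4 * (a * w * p * q / (b * d)) := by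
  rw [js3, jw]
  field_simp
  try simp only [hA, hB, hC, hD, hBA, hCA, hCB, hDA, hDB, hDC, hE, hW, hV, hS, hP, hZ, hX, hY]
  try ring1

theorem d5c4 {a b c d A B C D BA CA CB DA DB DC E W V S P Z X Y p q o w : F}
    (na : a ≠ 0) (nb : b ≠ 0) (nc : c ≠ 0) (nd : d ≠ 0) (nA : A ≠ 0) (nB : B ≠ 0) (nC : C ≠ 0) (nD
    : D ≠ 0) (nBA : BA ≠ 0) (nCA : CA ≠ 0) (nCB : CB ≠ 0) (nDA : DA ≠ 0) (nDB : DB ≠ 0) (nDC : DC
    ≠ 0) (nE : E ≠ 0) (nZ : Z ≠ 0)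
    (hA : A = a - 1) (hB : B = b - 1) (hC : C = c - 1) (hD : D = d - 1) (hBA : BA = b - a) (hCA :
    CA = c - a) (hCB : CB = c - b) (hDA : DA = d - a) (hDB : DB = d - b) (hDC : DC = d - c) (hE :
    E = a * c + d) (hW : W = a * c + a * d + d) (hV : V = c + a * c + d) (hS : S = c + d) (hP : P
    = a + 1) (hZ : Z = (d - 1) * (a * c + d) + 2 * d * (c - a)) (hX : X = a * b * c * d + b * c *
    d + a * c * d - a * b * d - a * b * c + a * d ^ 2 - a ^ 2 * d - a * d) (hY : Y = a * b * c * d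
    + c ^ 2 * d + c * d ^ 2 + b * c * d - a * c * d - a * b * d - a * b * c - c * d)
    (hp : p = X / Z) (hq : q = Y / Z)
    (Q0 : (1 - b) * (d - a ^ 2 * c) + (a - c) * (d - a * b) = 0)
    (R0 : (d - b) * (d ^ 2 - a * c ^ 2) + d * (c - a) * (d - b * c) = 0)
    (jo : o = S / E)
    (jw : w = P / E) :
    d * (d ^ 2 * o * w * p * q / b) = d ^ 4 * (o * w * p * q / (b * d)) := by
  rw [jo, jw]
  field_simp
  try simp only [hA, hB, hC, hD, hBA, hCA, hCB, hDA, hDB, hDC, hE, hW, hV, hS, hP, hZ, hX, hY]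
  try ring1

theorem d5e4 {a b c d A B C D BA CA CB DA DB DC E W V S P Z X Y p q o w : F}
    (na : a ≠ 0) (nb : b ≠ 0) (nc : c ≠ 0) (nd : d ≠ 0) (nA : A ≠ 0) (nB : B ≠ 0) (nC : C ≠ 0) (nD
    : D ≠ 0) (nBA : BA ≠ 0) (nCA : CA ≠ 0) (nCB : CB ≠ 0) (nDA : DA ≠ 0) (nDB : DB ≠ 0) (nDC : DC
    ≠ 0) (nE : E ≠ 0) (nZ : Z ≠ 0)
    (hA : A = a - 1) (hB : B = b - 1) (hC : C = c - 1) (hD : D = d - 1) (hBA : BA = b - a) (hCA :
    CA = c - a) (hCB : CB = c - b) (hDA : DA = d - a) (hDB : DB = d - b) (hDC : DC = d - c) (hE :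
    E = a * c + d) (hW : W = a * c + a * d + d) (hV : V = c + a * c + d) (hS : S = c + d) (hP : P
    = a + 1) (hZ : Z = (d - 1) * (a * c + d) + 2 * d * (c - a)) (hX : X = a * b * c * d + b * c *
    d + a * c * d - a * b * d - a * b * c + a * d ^ 2 - a ^ 2 * d - a * d) (hY : Y = a * b * c * d
    + c ^ 2 * d + c * d ^ 2 + b * c * d - a * c * d - a * b * d - a * b * c - c * d)
    (hp : p = X / Z) (hq : q = Y / Z)
    (Q0 : (1 - b) * (d - a ^ 2 * c) + (a - c) * (d - a * b) = 0)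
    (R0 : (d - b) * (d ^ 2 - a * c ^ 2) + d * (c - a) * (d - b * c) = 0)
    (jo : o = S / E)
    (jw : w = P / E) :
    d * (d ^ 2 * o * w * p * q / b) = d ^ 4 * (o * w * p * q / (b * d)) := by
  rw [jo, jw]
  field_simp
  try simp only [hA, hB, hC, hD, hBA, hCA, hCB, hDA, hDB, hDC, hE, hW, hV, hS, hP, hZ, hX, hY]
  try ring1

theorem d5n0 {a b c d A B C D BA CA CB DA DB DC E W V S P Z X Y p q L0 M0 : F}
    (na : a ≠ 0) (nb : b ≠ 0) (nc : c ≠ 0) (nd : d ≠ 0) (nA : A ≠ 0) (nB : B ≠ 0) (nC : C ≠ 0) (nD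
    : D ≠ 0) (nBA : BA ≠ 0) (nCA : CA ≠ 0) (nCB : CB ≠ 0) (nDA : DA ≠ 0) (nDB : DB ≠ 0) (nDC : DC
    ≠ 0) (nE : E ≠ 0) (nZ : Z ≠ 0)
    (hA : A = a - 1) (hB : B = b - 1) (hC : C = c - 1) (hD : D = d - 1) (hBA : BA = b - a) (hCA :
    CA = c - a) (hCB : CB = c - b) (hDA : DA = d - a) (hDB : DB = d - b) (hDC : DC = d - c) (hE :
    E = a * c + d) (hW : W = a * c + a * d + d) (hV : V = c + a * c + d) (hS : S = c + d) (hP : P
    = a + 1) (hZ : Z = (d - 1) * (a * c + d) + 2 * d * (c - a)) (hX : X = a * b * c * d + b * c *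
    d + a * c * d - a * b * d - a * b * c + a * d ^ 2 - a ^ 2 * d - a * d) (hY : Y = a * b * c * d
    + c ^ 2 * d + c * d ^ 2 + b * c * d - a * c * d - a * b * d - a * b * c - c * d)
    (hp : p = X / Z) (hq : q = Y / Z)
    (Q0 : (1 - b) * (d - a ^ 2 * c) + (a - c) * (d - a * b) = 0)
    (R0 : (d - b) * (d ^ 2 - a * c ^ 2) + d * (c - a) * (d - b * c) = 0)
    (jL0 : L0 = DC * W / (c * D * E))
    (jM0 : M0 = DC * V / (D * E)) :
    1 - L0 - M0 = P * d ^ 2 * C * CA * CB / (c * D * E * DA * DB) := by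
  have e : (1 - L0 - M0) - (P * d ^ 2 * C * CA * CB / (c * D * E * DA * DB)) = DC * P * ((0) * ((1 - b)
      * (d - a ^ 2 * c) + (a - c) * (d - a * b)) + (-1) * ((d - b) * (d ^ 2 - a * c ^ 2) + d * (c
      - a) * (d - b * c))) / (DA * c * DB * D * E) := by
    rw [jL0, jM0]
    field_simp
    simp only [hA, hB, hC, hD, hBA, hCA, hCB, hDA, hDB, hDC, hE, hW, hV, hS, hP, hZ, hX, hY]
    ring1
  rw [Q0, R0] at e
  exact sub_eq_zero.1 (e.trans (by ring))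

theorem d5n1 {a b c d A B C D BA CA CB DA DB DC E W V S P Z X Y p q L1 M1 : F}
    (na : a ≠ 0) (nb : b ≠ 0) (nc : c ≠ 0) (nd : d ≠ 0) (nA : A ≠ 0) (nB : B ≠ 0) (nC : C ≠ 0) (nD
    : D ≠ 0) (nBA : BA ≠ 0) (nCA : CA ≠ 0) (nCB : CB ≠ 0) (nDA : DA ≠ 0) (nDB : DB ≠ 0) (nDC : DC
    ≠ 0) (nE : E ≠ 0) (nZ : Z ≠ 0)
    (hA : A = a - 1) (hB : B = b - 1) (hC : C = c - 1) (hD : D = d - 1) (hBA : BA = b - a) (hCA :
    CA = c - a) (hCB : CB = c - b) (hDA : DA = d - a) (hDB : DB = d - b) (hDC : DC = d - c) (hE :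
    E = a * c + d) (hW : W = a * c + a * d + d) (hV : V = c + a * c + d) (hS : S = c + d) (hP : P
    = a + 1) (hZ : Z = (d - 1) * (a * c + d) + 2 * d * (c - a)) (hX : X = a * b * c * d + b * c *
    d + a * c * d - a * b * d - a * b * c + a * d ^ 2 - a ^ 2 * d - a * d) (hY : Y = a * b * c * d
    + c ^ 2 * d + c * d ^ 2 + b * c * d - a * c * d - a * b * d - a * b * c - c * d)
    (hp : p = X / Z) (hq : q = Y / Z)
    (Q0 : (1 - b) * (d - a ^ 2 * c) + (a - c) * (d - a * b) = 0)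
    (R0 : (d - b) * (d ^ 2 - a * c ^ 2) + d * (c - a) * (d - b * c) = 0)
    (jL1 : L1 = c * d * CB * DB / (b ^ 2 * DC * Z))
    (jM1 : M1 = a * d * CB * DB / (DC * Z)) :
    1 - L1 - M1 = c * B * BA * DB * Y / (b ^ 2 * C * CA * DC * Z) := by
  have e : (1 - L1 - M1) - (c * B * BA * DB * Y / (b ^ 2 * C * CA * DC * Z)) = CB * ((-b ^ 2 * d - b *
      c ^ 2 + b * d ^ 2 + c ^ 2 * d) * ((1 - b) * (d - a ^ 2 * c) + (a - c) * (d - a * b)) + (a *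
      b * c - 2 * a * b - a * c + b ^ 2 + 2 * b * c - b) * ((d - b) * (d ^ 2 - a * c ^ 2) + d * (c
      - a) * (d - b * c))) / (b ^ 2 * DC * Z * CA * C) := by
    rw [jL1, jM1]
    field_simp
    simp only [hA, hB, hC, hD, hBA, hCA, hCB, hDA, hDB, hDC, hE, hW, hV, hS, hP, hZ, hX, hY]
    ring1
  rw [Q0, R0] at e
  exact sub_eq_zero.1 (e.trans (by ring))

theorem d5n2 {a b c d A B C D BA CA CB DA DB DC E W V S P Z X Y p q L2 M2 : F}
    (na : a ≠ 0) (nb : b ≠ 0) (nc : c ≠ 0) (nd : d ≠ 0) (nA : A ≠ 0) (nB : B ≠ 0) (nC : C ≠ 0) (nD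
    : D ≠ 0) (nBA : BA ≠ 0) (nCA : CA ≠ 0) (nCB : CB ≠ 0) (nDA : DA ≠ 0) (nDB : DB ≠ 0) (nDC : DC
    ≠ 0) (nE : E ≠ 0) (nZ : Z ≠ 0)
    (hA : A = a - 1) (hB : B = b - 1) (hC : C = c - 1) (hD : D = d - 1) (hBA : BA = b - a) (hCA :
    CA = c - a) (hCB : CB = c - b) (hDA : DA = d - a) (hDB : DB = d - b) (hDC : DC = d - c) (hE :
    E = a * c + d) (hW : W = a * c + a * d + d) (hV : V = c + a * c + d) (hS : S = c + d) (hP : P
    = a + 1) (hZ : Z = (d - 1) * (a * c + d) + 2 * d * (c - a)) (hX : X = a * b * c * d + b * c *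
    d + a * c * d - a * b * d - a * b * c + a * d ^ 2 - a ^ 2 * d - a * d) (hY : Y = a * b * c * d
    + c ^ 2 * d + c * d ^ 2 + b * c * d - a * c * d - a * b * d - a * b * c - c * d)
    (hp : p = X / Z) (hq : q = Y / Z)
    (Q0 : (1 - b) * (d - a ^ 2 * c) + (a - c) * (d - a * b) = 0)
    (R0 : (d - b) * (d ^ 2 - a * c ^ 2) + d * (c - a) * (d - b * c) = 0)
    (jL2 : L2 = -(b * d * BA * CA * DA) / (a ^ 2 * CB * DB * Z))
    (jM2 : M2 = -(c * d * BA * CA * DA) / (CB * DB * Z)) :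
    1 - L2 - M2 = b * A * CA * DA * X / (a ^ 2 * B * CB * DB * Z) := by
  have e : (1 - L2 - M2) - (b * A * CA * DA * X / (a ^ 2 * B * CB * DB * Z)) = BA * ((a ^ 2 * d + a * b
      * c + 2 * a * b * d - 2 * a * c * d - a * d ^ 2 - b * c * d) * ((1 - b) * (d - a ^ 2 * c) +
      (a - c) * (d - a * b)) + (-a ^ 2 * b + a ^ 2 - a * b + a) * ((d - b) * (d ^ 2 - a * c ^ 2) +
      d * (c - a) * (d - b * c))) / (Z * CB * DB * B * a ^ 2) := by
    rw [jL2, jM2]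
    field_simp
    simp only [hA, hB, hC, hD, hBA, hCA, hCB, hDA, hDB, hDC, hE, hW, hV, hS, hP, hZ, hX, hY]
    ring1
  rw [Q0, R0] at e
  exact sub_eq_zero.1 (e.trans (by ring))

theorem d5n3 {a b c d A B C D BA CA CB DA DB DC E W V S P Z X Y p q L3 M3 : F}
    (na : a ≠ 0) (nb : b ≠ 0) (nc : c ≠ 0) (nd : d ≠ 0) (nA : A ≠ 0) (nB : B ≠ 0) (nC : C ≠ 0) (nD
    : D ≠ 0) (nBA : BA ≠ 0) (nCA : CA ≠ 0) (nCB : CB ≠ 0) (nDA : DA ≠ 0) (nDB : DB ≠ 0) (nDC : DC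
    ≠ 0) (nE : E ≠ 0) (nZ : Z ≠ 0)
    (hA : A = a - 1) (hB : B = b - 1) (hC : C = c - 1) (hD : D = d - 1) (hBA : BA = b - a) (hCA :
    CA = c - a) (hCB : CB = c - b) (hDA : DA = d - a) (hDB : DB = d - b) (hDC : DC = d - c) (hE :
    E = a * c + d) (hW : W = a * c + a * d + d) (hV : V = c + a * c + d) (hS : S = c + d) (hP : P
    = a + 1) (hZ : Z = (d - 1) * (a * c + d) + 2 * d * (c - a)) (hX : X = a * b * c * d + b * c *
    d + a * c * d - a * b * d - a * b * c + a * d ^ 2 - a ^ 2 * d - a * d) (hY : Y = a * b * c * d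
    + c ^ 2 * d + c * d ^ 2 + b * c * d - a * c * d - a * b * d - a * b * c - c * d)
    (hp : p = X / Z) (hq : q = Y / Z)
    (Q0 : (1 - b) * (d - a ^ 2 * c) + (a - c) * (d - a * b) = 0)
    (R0 : (d - b) * (d ^ 2 - a * c ^ 2) + d * (c - a) * (d - b * c) = 0)
    (jL3 : L3 = -(a ^ 2 * A * B * C * V) / (BA * CA * DA * E))
    (jM3 : M3 = -(d * A * B * C * W) / (BA * CA * DA * E)) :
    1 - L3 - M3 = a ^ 2 * B * C * D * S / (BA * CA * DA * E) := by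
  have e : (1 - L3 - M3) - (a ^ 2 * B * C * D * S / (BA * CA * DA * E)) = A * ((1) * ((1 - b) * (d - a
      ^ 2 * c) + (a - c) * (d - a * b)) + (0) * ((d - b) * (d ^ 2 - a * c ^ 2) + d * (c - a) * (d
      - b * c))) / (DA * CA * BA) := by
    rw [jL3, jM3]
    field_simp
    simp only [hA, hB, hC, hD, hBA, hCA, hCB, hDA, hDB, hDC, hE, hW, hV, hS, hP, hZ, hX, hY]
    ring1
  rw [Q0, R0] at e
  exact sub_eq_zero.1 (e.trans (by ring))

theorem d5k0 {a b c d A B C D BA CA CB DA DB DC E W V S P Z X Y p q K0 N0 : F}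
    (na : a ≠ 0) (nb : b ≠ 0) (nc : c ≠ 0) (nd : d ≠ 0) (nA : A ≠ 0) (nB : B ≠ 0) (nC : C ≠ 0) (nD
    : D ≠ 0) (nBA : BA ≠ 0) (nCA : CA ≠ 0) (nCB : CB ≠ 0) (nDA : DA ≠ 0) (nDB : DB ≠ 0) (nDC : DC
    ≠ 0) (nE : E ≠ 0) (nZ : Z ≠ 0)
    (hA : A = a - 1) (hB : B = b - 1) (hC : C = c - 1) (hD : D = d - 1) (hBA : BA = b - a) (hCA :
    CA = c - a) (hCB : CB = c - b) (hDA : DA = d - a) (hDB : DB = d - b) (hDC : DC = d - c) (hE :
    E = a * c + d) (hW : W = a * c + a * d + d) (hV : V = c + a * c + d) (hS : S = c + d) (hP : P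
    = a + 1) (hZ : Z = (d - 1) * (a * c + d) + 2 * d * (c - a)) (hX : X = a * b * c * d + b * c *
    d + a * c * d - a * b * d - a * b * c + a * d ^ 2 - a ^ 2 * d - a * d) (hY : Y = a * b * c * d
    + c ^ 2 * d + c * d ^ 2 + b * c * d - a * c * d - a * b * d - a * b * c - c * d)
    (hp : p = X / Z) (hq : q = Y / Z)
    (Q0 : (1 - b) * (d - a ^ 2 * c) + (a - c) * (d - a * b) = 0)
    (R0 : (d - b) * (d ^ 2 - a * c ^ 2) + d * (c - a) * (d - b * c) = 0)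
    (jK0 : K0 = A * W / (D * E))
    (jN0 : N0 = d * A * V / (a * D * E)) :
    1 - K0 - N0 = BA * CA * DA * S / (a * B * C * D * E) := by
  have e : (1 - K0 - N0) - (BA * CA * DA * S / (a * B * C * D * E)) = A * S * ((-1) * ((1 - b) * (d - a
      ^ 2 * c) + (a - c) * (d - a * b)) + (0) * ((d - b) * (d ^ 2 - a * c ^ 2) + d * (c - a) * (d
      - b * c))) / (D * C * B * a * E) := by
    rw [jK0, jN0]
    field_simp
    simp only [hA, hB, hC, hD, hBA, hCA, hCB, hDA, hDB, hDC, hE, hW, hV, hS, hP, hZ, hX, hY]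
    ring1
  rw [Q0, R0] at e
  exact sub_eq_zero.1 (e.trans (by ring))

theorem d5k1 {a b c d A B C D BA CA CB DA DB DC E W V S P Z X Y p q K1 N1 : F}
    (na : a ≠ 0) (nb : b ≠ 0) (nc : c ≠ 0) (nd : d ≠ 0) (nA : A ≠ 0) (nB : B ≠ 0) (nC : C ≠ 0) (nD
    : D ≠ 0) (nBA : BA ≠ 0) (nCA : CA ≠ 0) (nCB : CB ≠ 0) (nDA : DA ≠ 0) (nDB : DB ≠ 0) (nDC : DC
    ≠ 0) (nE : E ≠ 0) (nZ : Z ≠ 0)
    (hA : A = a - 1) (hB : B = b - 1) (hC : C = c - 1) (hD : D = d - 1) (hBA : BA = b - a) (hCA :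
    CA = c - a) (hCB : CB = c - b) (hDA : DA = d - a) (hDB : DB = d - b) (hDC : DC = d - c) (hE :
    E = a * c + d) (hW : W = a * c + a * d + d) (hV : V = c + a * c + d) (hS : S = c + d) (hP : P
    = a + 1) (hZ : Z = (d - 1) * (a * c + d) + 2 * d * (c - a)) (hX : X = a * b * c * d + b * c *
    d + a * c * d - a * b * d - a * b * c + a * d ^ 2 - a ^ 2 * d - a * d) (hY : Y = a * b * c * d
    + c ^ 2 * d + c * d ^ 2 + b * c * d - a * c * d - a * b * d - a * b * c - c * d)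
    (hp : p = X / Z) (hq : q = Y / Z)
    (Q0 : (1 - b) * (d - a ^ 2 * c) + (a - c) * (d - a * b) = 0)
    (R0 : (d - b) * (d ^ 2 - a * c ^ 2) + d * (c - a) * (d - b * c) = 0)
    (jK1 : K1 = c * B * BA / (A * Z))
    (jN1 : N1 = a * d ^ 2 * B * BA / (b ^ 2 * A * Z)) :
    1 - K1 - N1 = a * B * CB * DB * X / (b ^ 2 * A * CA * DA * Z) := by
  have e : (1 - K1 - N1) - (a * B * CB * DB * X / (b ^ 2 * A * CA * DA * Z)) = BA * ((-a * b * c - 2 *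
      a * b * d + a * c * d - b ^ 2 * d + 2 * b * c * d + b * d ^ 2) * ((1 - b) * (d - a ^ 2 * c)
      + (a - c) * (d - a * b)) + (a ^ 2 * b - a ^ 2 + b ^ 2 - b) * ((d - b) * (d ^ 2 - a * c ^ 2)
      + d * (c - a) * (d - b * c))) / (b ^ 2 * DA * Z * CA * A) := by
    rw [jK1, jN1]
    field_simp
    simp only [hA, hB, hC, hD, hBA, hCA, hCB, hDA, hDB, hDC, hE, hW, hV, hS, hP, hZ, hX, hY]
    ring1
  rw [Q0, R0] at e
  exact sub_eq_zero.1 (e.trans (by ring))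

theorem d5k2 {a b c d A B C D BA CA CB DA DB DC E W V S P Z X Y p q K2 N2 : F}
    (na : a ≠ 0) (nb : b ≠ 0) (nc : c ≠ 0) (nd : d ≠ 0) (nA : A ≠ 0) (nB : B ≠ 0) (nC : C ≠ 0) (nD
    : D ≠ 0) (nBA : BA ≠ 0) (nCA : CA ≠ 0) (nCB : CB ≠ 0) (nDA : DA ≠ 0) (nDB : DB ≠ 0) (nDC : DC
    ≠ 0) (nE : E ≠ 0) (nZ : Z ≠ 0)
    (hA : A = a - 1) (hB : B = b - 1) (hC : C = c - 1) (hD : D = d - 1) (hBA : BA = b - a) (hCA :
    CA = c - a) (hCB : CB = c - b) (hDA : DA = d - a) (hDB : DB = d - b) (hDC : DC = d - c) (hE :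
    E = a * c + d) (hW : W = a * c + a * d + d) (hV : V = c + a * c + d) (hS : S = c + d) (hP : P
    = a + 1) (hZ : Z = (d - 1) * (a * c + d) + 2 * d * (c - a)) (hX : X = a * b * c * d + b * c *
    d + a * c * d - a * b * d - a * b * c + a * d ^ 2 - a ^ 2 * d - a * d) (hY : Y = a * b * c * d
    + c ^ 2 * d + c * d ^ 2 + b * c * d - a * c * d - a * b * d - a * b * c - c * d)
    (hp : p = X / Z) (hq : q = Y / Z)
    (Q0 : (1 - b) * (d - a ^ 2 * c) + (a - c) * (d - a * b) = 0)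
    (R0 : (d - b) * (d ^ 2 - a * c ^ 2) + d * (c - a) * (d - b * c) = 0)
    (jK2 : K2 = -(a * C * CA * CB) / (B * BA * Z))
    (jN2 : N2 = -(b * d ^ 2 * C * CA * CB) / (c ^ 2 * B * BA * Z)) :
    1 - K2 - N2 = b * C * CA * DC * Y / (c ^ 2 * B * BA * DB * Z) := by
  have e : (1 - K2 - N2) - (b * C * CA * DC * Y / (c ^ 2 * B * BA * DB * Z)) = CB * ((b * c ^ 2 + b * c
      * d - c ^ 2 * d - c * d ^ 2) * ((1 - b) * (d - a ^ 2 * c) + (a - c) * (d - a * b)) + (-a * b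
      * c + a * b + 2 * a * c - 2 * b * c - c ^ 2 + c) * ((d - b) * (d ^ 2 - a * c ^ 2) + d * (c -
      a) * (d - b * c))) / (c ^ 2 * Z * DB * BA * B) := by
    rw [jK2, jN2]
    field_simp
    simp only [hA, hB, hC, hD, hBA, hCA, hCB, hDA, hDB, hDC, hE, hW, hV, hS, hP, hZ, hX, hY]
    ring1
  rw [Q0, R0] at e
  exact sub_eq_zero.1 (e.trans (by ring))

theorem d5k3 {a b c d A B C D BA CA CB DA DB DC E W V S P Z X Y p q K3 N3 : F}
    (na : a ≠ 0) (nb : b ≠ 0) (nc : c ≠ 0) (nd : d ≠ 0) (nA : A ≠ 0) (nB : B ≠ 0) (nC : C ≠ 0) (nD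
    : D ≠ 0) (nBA : BA ≠ 0) (nCA : CA ≠ 0) (nCB : CB ≠ 0) (nDA : DA ≠ 0) (nDB : DB ≠ 0) (nDC : DC
    ≠ 0) (nE : E ≠ 0) (nZ : Z ≠ 0)
    (hA : A = a - 1) (hB : B = b - 1) (hC : C = c - 1) (hD : D = d - 1) (hBA : BA = b - a) (hCA :
    CA = c - a) (hCB : CB = c - b) (hDA : DA = d - a) (hDB : DB = d - b) (hDC : DC = d - c) (hE :
    E = a * c + d) (hW : W = a * c + a * d + d) (hV : V = c + a * c + d) (hS : S = c + d) (hP : P
    = a + 1) (hZ : Z = (d - 1) * (a * c + d) + 2 * d * (c - a)) (hX : X = a * b * c * d + b * c *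
    d + a * c * d - a * b * d - a * b * c + a * d ^ 2 - a ^ 2 * d - a * d) (hY : Y = a * b * c * d
    + c ^ 2 * d + c * d ^ 2 + b * c * d - a * c * d - a * b * d - a * b * c - c * d)
    (hp : p = X / Z) (hq : q = Y / Z)
    (Q0 : (1 - b) * (d - a ^ 2 * c) + (a - c) * (d - a * b) = 0)
    (R0 : (d - b) * (d ^ 2 - a * c ^ 2) + d * (c - a) * (d - b * c) = 0)
    (jK3 : K3 = -(DA * DB * DC * V) / (d * C * CA * CB * E))
    (jN3 : N3 = -(c ^ 2 * DA * DB * DC * W) / (d ^ 2 * C * CA * CB * E)) :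
    1 - K3 - N3 = c ^ 2 * D * DA * DB * P / (d * C * CA * CB * E) := by
  have e : (1 - K3 - N3) - (c ^ 2 * D * DA * DB * P / (d * C * CA * CB * E)) = DC * ((0) * ((1 - b) *
      (d - a ^ 2 * c) + (a - c) * (d - a * b)) + (1) * ((d - b) * (d ^ 2 - a * c ^ 2) + d * (c -
      a) * (d - b * c))) / (d ^ 2 * CB * CA * C) := by
    rw [jK3, jN3]
    field_simp
    simp only [hA, hB, hC, hD, hBA, hCA, hCB, hDA, hDB, hDC, hE, hW, hV, hS, hP, hZ, hX, hY]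
    ring1
  rw [Q0, R0] at e
  exact sub_eq_zero.1 (e.trans (by ring))

end Pool.Agent.Helper76.IP
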