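import Pool.Agent.Helper76.IP.D5Mk
import Pool.Agent.Helper16.IP.D5S
import Pool.Agent.Helper16.IP.RevPhi2

/-!
TH-P, phase 2: every member of the lists D5L, D5S is a parameter array of dimension 5.
-/

namespace Pool.Agent.Helper76.IP

open Pool.Agent.Helper54.IP Pool.Agent.Helper82.IP Pool.Agent.Helper16.IP

variable {F : Type*} [Field F]

/-- every member of D5S is a parameter array -/
theorem d5s_isPA {t s f : ℕ → F} (h : D5S t s f) : IsPA 4 t s f := by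
  have n1 := h.n1
  have n2 := h.n2
  have n3 := h.n3
  have n4 := h.n4
  have k1 := h.s1
  have k2 := h.s2
  have k3 := h.s3
  have f1 := h.f1
  have f2 := h.f2
  have f3 := h.f3
  have f4 := h.f4
  have Q0 := h.q
  have R0 := h.r
  have hA : t 1 - 1 ≠ 0 := sub_ne_zero.2 h.d01
  have hB : t 2 - 1 ≠ 0 := sub_ne_zero.2 h.d02
  have hC : t 3 - 1 ≠ 0 := sub_ne_zero.2 h.d03
  have hD : t 4 - 1 ≠ 0 := sub_ne_zero.2 h.d04
  have hBA : t 2 - t 1 ≠ 0 := sub_ne_zero.2 h.d12.symm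
  have hCA : t 3 - t 1 ≠ 0 := sub_ne_zero.2 h.d13.symm
  have hCB : t 3 - t 2 ≠ 0 := sub_ne_zero.2 h.d23.symm
  have hDA : t 4 - t 1 ≠ 0 := sub_ne_zero.2 h.d14.symm
  have hDB : t 4 - t 2 ≠ 0 := sub_ne_zero.2 h.d24.symm
  have hDC : t 4 - t 3 ≠ 0 := sub_ne_zero.2 h.d34.symm
  have hE := h.ac
  have hW := h.y0
  have hV : t 3 + t 1 * t 3 + t 4 ≠ 0 := fun e => h.x0 (by linear_combination e)
  have hS := h.cd
  have hP := h.a1
  have hZ : (t 4 - 1) * (t 1 * t 3 + t 4) + 2 * t 4 * (t 3 - t 1) ≠ 0 := by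
    intro e
    have e1 : (t 2 ^ 2 - t 4) * ((t 3 + t 4) * (t 4 - t 1) * (t 3 + t 1 * t 3 + t 4)) = 0 := by
      linear_combination (-(t 3 * t 4) - t 4 ^ 2) * Q0 + (-(t 1 * t 2) - t 2) * R0 +
        (t 1 * t 2 * t 4 + t 2 ^ 2 * t 4 - t 3 * t 4 - t 4 ^ 2) * e
    exact mul_ne_zero (sub_ne_zero.2 h.bd) (mul_ne_zero (mul_ne_zero hS hDA) hV) e1
  have hX : t 1 * t 2 * t 3 * t 4 + t 2 * t 3 * t 4 + t 1 * t 3 * t 4 - t 1 * t 2 * t 4
      - t 1 * t 2 * t 3 + t 1 * t 4 ^ 2 - t 1 ^ 2 * t 4 - t 1 * t 4 ≠ 0 := h.g2n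
  have hY : t 1 * t 2 * t 3 * t 4 + t 3 ^ 2 * t 4 + t 3 * t 4 ^ 2 + t 2 * t 3 * t 4
      - t 1 * t 3 * t 4 - t 1 * t 2 * t 4 - t 1 * t 2 * t 3 - t 3 * t 4 ≠ 0 := h.g3n
  obtain ⟨g, g1, g2, g3, g4⟩ := d5s_mk Q0 R0 n1 n2 n3 n4 hA hB hC hD hBA hCA hCB hDA hDB hDC hE
    hW hV hS hP hZ hX hY
  have s1' : s 1 = t 4 / t 3 := by rw [eq_div_iff n3]; exact k1
  have s2' : s 2 = t 4 / t 2 := by rw [eq_div_iff n2]; exact k2
  have s3' : s 3 = t 4 / t 1 := by rw [eq_div_iff n1]; exact k3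
  -- the split numbers
  obtain ⟨Z, hZ'⟩ : ∃ z : F, z = (t 4 - 1) * (t 1 * t 3 + t 4) + 2 * t 4 * (t 3 - t 1) := ⟨_, rfl⟩
  obtain ⟨E, hE'⟩ : ∃ z : F, z = t 1 * t 3 + t 4 := ⟨_, rfl⟩
  have p2 : f 2 = Z / t 3 := by
    rw [eq_div_iff n3]
    apply mul_left_cancel₀ n4
    rw [hZ']
    linear_combination f2 + t 4 * Q0 - R0
  have p3 : f 3 = -Z / t 1 := by
    rw [eq_div_iff n1]
    apply mul_left_cancel₀ n4
    rw [hZ']
    linear_combination f3 - t 4 * Q0 + R0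
  have p1 : f 1 = (t 4 - 1) * E / (t 1 * t 3 + t 1 * t 4 + t 4) := by
    rw [eq_div_iff hW, hE']
    exact f1
  have p4 : f 4 = -(t 4 * (t 4 - 1) * E) / (t 3 + t 1 * t 3 + t 4) := by
    rw [eq_div_iff hV, hE']
    linear_combination f4
  rw [← hZ'] at hZ g4
  rw [← hE'] at hE g4
  obtain ⟨W, hW'⟩ : ∃ z : F, z = t 1 * t 3 + t 1 * t 4 + t 4 := ⟨_, rfl⟩
  obtain ⟨V, hV'⟩ : ∃ z : F, z = t 3 + t 1 * t 3 + t 4 := ⟨_, rfl⟩
  rw [← hW'] at hW g4 p1
  rw [← hV'] at hV g4 p4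
  refine ⟨g, g1, ?_, ?_, ?_⟩
  · intro i hi
    rw [g2]
    interval_cases i <;> simp only [sq5, h.t0]
  · intro i hi
    rw [g3]
    interval_cases i <;> simp only [sq5, h.s0, s1', s2', s3', h.s4]
  · intro k hk
    rw [g3, g4]
    interval_cases k <;> simp only [Finset.prod_range_succ, Finset.range_zero, Finset.prod_empty,
      one_mul, sq4, sq5, zero_add, sub_sub_cancel]
    · rw [p1]
      field_simp
    · rw [p2]
      field_simp
    · rw [p3]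
      field_simp
    · rw [p4]
      field_simp

/-- every member of D5L is a parameter array -/
theorem d5l_isPA {t s f : ℕ → F} (h : D5L t s f) : IsPA 4 t s f := by
  have h1 := d5s_isPA (D5S_of_D5L h)
  refine (IsPA_rev_iff (m := 4) h.t0 h.s0 ?_ ?_ ?_).1 h1
  · intro i hi
    interval_cases i
    · rw [h.t0]; exact one_ne_zero
    · exact h.n1
    · exact h.n2
    · exact h.n3
    · exact h.n4
  · rw [h.s4]; exact h.n4
  · intro i j hij hj
    have h01 : t 0 ≠ t 1 := by rw [h.t0]; exact h.d01.symm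
    have h02 : t 0 ≠ t 2 := by rw [h.t0]; exact h.d02.symm
    have h03 : t 0 ≠ t 3 := by rw [h.t0]; exact h.d03.symm
    have h04 : t 0 ≠ t 4 := by rw [h.t0]; exact h.d04.symm
    have h12 := h.d12
    have h13 := h.d13
    have h14 := h.d14
    have h23 := h.d23
    have h24 := h.d24
    have h34 := h.d34
    interval_cases j <;> interval_cases i <;> assumption

end Pool.Agent.Helper76.IP
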