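import Mathlib

/-!
TH-P, phase 2, family D5 (reversed form): the cell (2, 2), u22 (generated).
-/

namespace Pool.Agent.Helper76.IP

set_option linter.unusedVariables false
set_option linter.unusedSimpArgs false
set_option maxRecDepth 100000

variable {F : Type*} [Field F]

theorem d5tu22 {a b c d : F} (Q0 : (1 - b) * (d - a ^ 2 * c) + (a - c) * (d - a * b) = 0)
    (R0 : (d - b) * (d ^ 2 - a * c ^ 2) + d * (c - a) * (d - b * c) = 0) :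
    (c - b) * (d - b) * ((d - 1) * (a * c + d) + 2 * d * (c - a)) * (-(a ^ 2 * (b + 1) * ((d -
      1) * (a * c + d) + 2 * d * (c - a)) * (d - 1) * (a * c + d)) + (d - a) * (a * c + a * d + d)
      * (a * ((d - 1) * (a * c + d) + 2 * d * (c - a)) + d * (c - a) * (b - a)) + a ^ 2 * (d - b)
      * (c + a * c + d) * (b * ((d - 1) * (a * c + d) + 2 * d * (c - a)) - d * (b - a) * (c - b)))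
      + d * (b - a) * (c - a) * (d - a) * (-(b ^ 2 * (d - 1) * (a * c + d) * ((d - 1) * (a * c +
      d) + 2 * d * (c - a))) + (d - b) * (a * c + a * d + d) * (b * ((d - 1) * (a * c + d) + 2 * d
      * (c - a)) + d * (b - a) * (c - b)) + b * (d - b) * (c + a * c + d) * (b * ((d - 1) * (a * c
      + d) + 2 * d * (c - a)) - d * (b - a) * (c - b))) = 0 := by
  linear_combination (-a ^ 3 * b ^ 3 * c ^ 2 * d ^ 2 + 2 * a ^ 3 * b ^ 3 * c ^ 2 * d - a ^ 3 * b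
    ^ 3 * c ^ 2 + 4 * a ^ 3 * b ^ 3 * c * d ^ 2 - a ^ 3 * b ^ 3 * c * d + a ^ 3 * b ^ 2 * c ^ 3 *
    d ^ 2 - 2 * a ^ 3 * b ^ 2 * c ^ 3 * d + a ^ 3 * b ^ 2 * c ^ 3 + a ^ 3 * b ^ 2 * c ^ 2 * d ^ 3
    - 7 * a ^ 3 * b ^ 2 * c ^ 2 * d ^ 2 + 5 * a ^ 3 * b ^ 2 * c ^ 2 * d + a ^ 3 * b ^ 2 * c ^ 2 -
    5 * a ^ 3 * b ^ 2 * c * d ^ 3 + 5 * a ^ 3 * b ^ 2 * c * d ^ 2 + a ^ 3 * b ^ 2 * c * d + 2 * a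
    ^ 3 * b ^ 2 * d ^ 3 + a ^ 3 * b ^ 2 * d ^ 2 - a ^ 3 * b * c ^ 3 * d ^ 3 + 3 * a ^ 3 * b * c ^
    3 * d ^ 2 - 2 * a ^ 3 * b * c ^ 3 * d + 6 * a ^ 3 * b * c ^ 2 * d ^ 3 - 6 * a ^ 3 * b * c ^ 2
    * d ^ 2 - 3 * a ^ 3 * b * c ^ 2 * d + a ^ 3 * b * c ^ 2 + a ^ 3 * b * c * d ^ 4 - 4 * a ^ 3 *
    b * c * d ^ 3 - 3 * a ^ 3 * b * c * d ^ 2 + a ^ 3 * b * c * d - a ^ 3 * b * d ^ 4 - 2 * a ^ 3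
    * b * d ^ 3 - a ^ 3 * b * d ^ 2 - a ^ 3 * c ^ 3 * d ^ 3 + a ^ 3 * c ^ 3 * d ^ 2 - a ^ 3 * c ^
    2 * d ^ 4 + 2 * a ^ 3 * c ^ 2 * d ^ 3 + 2 * a ^ 3 * c ^ 2 * d ^ 2 - a ^ 3 * c ^ 2 * d + a ^ 3
    * c * d ^ 4 + 2 * a ^ 3 * d ^ 3 - a ^ 3 * d ^ 2 - a ^ 2 * b ^ 4 * c * d ^ 2 - 2 * a ^ 2 * b ^
    3 * c ^ 2 * d ^ 2 + 2 * a ^ 2 * b ^ 3 * c ^ 2 * d - a ^ 2 * b ^ 3 * c * d ^ 3 + 8 * a ^ 2 * b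
    ^ 3 * c * d ^ 2 + 7 * a ^ 2 * b ^ 3 * d ^ 3 + a ^ 2 * b ^ 3 * d ^ 2 + 3 * a ^ 2 * b ^ 2 * c ^
    3 * d ^ 2 - 3 * a ^ 2 * b ^ 2 * c ^ 3 * d + 4 * a ^ 2 * b ^ 2 * c ^ 2 * d ^ 3 - 15 * a ^ 2 * b
    ^ 2 * c ^ 2 * d ^ 2 + 2 * a ^ 2 * b ^ 2 * c ^ 2 * d - a ^ 2 * b ^ 2 * c ^ 2 + 2 * a ^ 2 * b ^
    2 * c * d ^ 4 - 22 * a ^ 2 * b ^ 2 * c * d ^ 3 + 3 * a ^ 2 * b ^ 2 * c * d ^ 2 - a ^ 2 * b ^ 2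
    * c * d - 9 * a ^ 2 * b ^ 2 * d ^ 4 - a ^ 2 * b ^ 2 * d ^ 2 - 3 * a ^ 2 * b * c ^ 3 * d ^ 3 +
    5 * a ^ 2 * b * c ^ 3 * d ^ 2 - 2 * a ^ 2 * b * c ^ 2 * d ^ 4 + 16 * a ^ 2 * b * c ^ 2 * d ^ 3
    - 3 * a ^ 2 * b * c ^ 2 * d ^ 2 + 2 * a ^ 2 * b * c ^ 2 * d - 2 * a ^ 2 * b * c ^ 2 + 13 * a ^
    2 * b * c * d ^ 4 - 2 * a ^ 2 * b * c * d ^ 3 + 3 * a ^ 2 * b * c * d ^ 2 - 2 * a ^ 2 * b * c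
    * d + 2 * a ^ 2 * b * d ^ 5 - 2 * a ^ 2 * c ^ 3 * d ^ 3 - 4 * a ^ 2 * c ^ 2 * d ^ 4 + 3 * a ^
    2 * c ^ 2 * d ^ 3 - 2 * a ^ 2 * c ^ 2 * d ^ 2 + 2 * a ^ 2 * c ^ 2 * d - 2 * a ^ 2 * c * d ^ 5
    + 2 * a ^ 2 * c * d ^ 4 - 2 * a ^ 2 * c * d ^ 3 + a ^ 2 * c * d ^ 2 + a ^ 2 * d ^ 5 - a ^ 2 *
    d ^ 4 - a ^ 2 * d ^ 3 + 2 * a ^ 2 * d ^ 2 - 2 * a * b ^ 4 * c * d ^ 2 - 3 * a * b ^ 4 * d ^ 3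
    + a * b ^ 3 * c ^ 2 * d ^ 2 - a * b ^ 3 * c ^ 2 * d + a * b ^ 3 * d ^ 4 + 4 * a * b ^ 3 * d ^
    3 + 2 * a * b ^ 2 * c ^ 3 * d ^ 2 + 5 * a * b ^ 2 * c ^ 2 * d ^ 3 - 5 * a * b ^ 2 * c ^ 2 * d
    ^ 2 + a * b ^ 2 * c ^ 2 * d + a * b ^ 2 * c ^ 2 + 4 * a * b ^ 2 * c * d ^ 4 - 9 * a * b ^ 2 *
    c * d ^ 3 + a * b ^ 2 * c * d + a * b ^ 2 * d ^ 5 - 7 * a * b ^ 2 * d ^ 4 - a * b ^ 2 * d ^ 3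
    + a * b ^ 2 * d ^ 2 - 2 * a * b * c ^ 3 * d ^ 3 - 4 * a * b * c ^ 2 * d ^ 4 + 5 * a * b * c ^
    2 * d ^ 3 - 2 * a * b * c ^ 2 * d ^ 2 - a * b * c ^ 2 * d + 3 * a * b * c ^ 2 - a * b * c * d
    ^ 5 + 7 * a * b * c * d ^ 4 + 2 * a * b * c * d ^ 3 - 3 * a * b * c * d ^ 2 + 3 * a * b * c *
    d + 3 * a * b * d ^ 5 + 5 * a * b * d ^ 4 - 3 * a * b * d ^ 3 + a * b * d ^ 2 - a * c ^ 2 * d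
    ^ 4 + 2 * a * c ^ 2 * d ^ 2 - 3 * a * c ^ 2 * d - 3 * a * c * d ^ 5 + 2 * a * c * d ^ 3 - 2 *
    a * c * d ^ 2 - a * d ^ 6 + 2 * a * d ^ 4 - 3 * a * d ^ 2 + b ^ 4 * c * d ^ 3 - b ^ 4 * d ^ 3
    - b ^ 3 * c ^ 2 * d ^ 3 + b ^ 3 * c ^ 2 * d ^ 2 + b ^ 3 * d ^ 3 + 3 * b ^ 2 * c ^ 2 * d ^ 3 -
    b ^ 2 * c ^ 2 * d + 2 * b ^ 2 * c * d ^ 4 - b ^ 2 * c * d ^ 3 + b ^ 2 * d ^ 5 + b ^ 2 * d ^ 4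
    - b ^ 2 * d ^ 2 - b * c ^ 2 * d ^ 4 + 2 * b * c ^ 2 * d ^ 2 - 3 * b * c ^ 2 * d - b * c * d ^
    5 - 2 * b * c * d ^ 4 + b * c * d ^ 2 - b * d ^ 5 + 3 * b * d ^ 3 - 3 * b * d ^ 2 - c * d ^ 5
    - 2 * c * d ^ 3 + 3 * c * d ^ 2 - d ^ 6 - 2 * d ^ 4 + 3 * d ^ 3) * Q0 + (-2 * a ^ 4 * b ^ 3 *
    d - a ^ 4 * b ^ 3 + a ^ 4 * b ^ 2 * d ^ 2 + 5 * a ^ 4 * b ^ 2 * d + a ^ 4 * b ^ 2 - 3 * a ^ 4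
    * b * d ^ 2 - 2 * a ^ 4 * b * d + a ^ 4 * b + a ^ 4 * c * d ^ 2 - 2 * a ^ 4 * c * d + a ^ 4 *
    c + a ^ 3 * b ^ 4 * d - 2 * a ^ 3 * b ^ 3 * d ^ 2 - 5 * a ^ 3 * b ^ 3 * d + a ^ 3 * b ^ 2 * d
    ^ 3 + 8 * a ^ 3 * b ^ 2 * d ^ 2 + 5 * a ^ 3 * b ^ 2 * d - a ^ 3 * b ^ 2 - 2 * a ^ 3 * b * d ^
    3 - 6 * a ^ 3 * b * d ^ 2 + a ^ 3 * b * d - 2 * a ^ 3 * b + a ^ 3 * c * d ^ 3 - a ^ 3 * c * d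
    ^ 2 + 2 * a ^ 3 * c * d - 2 * a ^ 3 * c + 2 * a ^ 3 * d ^ 2 - a ^ 3 * d + a ^ 2 * b ^ 4 * d ^
    2 + a ^ 2 * b ^ 4 * d - 6 * a ^ 2 * b ^ 3 * d ^ 2 - 3 * a ^ 2 * b ^ 3 * d + 10 * a ^ 2 * b ^ 2
    * d ^ 2 + 2 * a ^ 2 * b ^ 2 * d + a ^ 2 * b ^ 2 - 2 * a ^ 2 * b * d ^ 3 - 8 * a ^ 2 * b * d ^
    2 - a ^ 2 * b * d + 3 * a ^ 2 * b + a ^ 2 * c * d ^ 3 - 2 * a ^ 2 * c * d ^ 2 - a ^ 2 * c * d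
    + 3 * a ^ 2 * c + a ^ 2 * d ^ 4 + a ^ 2 * d ^ 3 + a ^ 2 * d + 2 * a * b ^ 4 * d ^ 2 + a * b ^
    3 * c * d ^ 2 + a * b ^ 3 * d ^ 3 - 7 * a * b ^ 3 * d ^ 2 - a * b ^ 2 * c + 7 * a * b ^ 2 * d
    ^ 2 - a * b ^ 2 * d - a * b * c * d ^ 3 + 3 * a * b * c * d ^ 2 + a * b * c * d - 3 * a * b *
    c - 2 * a * b * d ^ 4 + a * b * d ^ 3 - a * b * d ^ 2 - 2 * a * b * d - a * c * d ^ 3 + 2 * a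
    * c * d ^ 2 - 2 * a * c * d + 2 * a * d ^ 4 + a * d ^ 3 - a * d + b ^ 4 * d ^ 2 + b ^ 3 * c *
    d ^ 2 + b ^ 3 * d ^ 3 - 2 * b ^ 3 * d ^ 2 - b ^ 2 * c * d ^ 2 - 3 * b ^ 2 * d ^ 3 + b ^ 2 * d
    ^ 2 + b ^ 2 * d - b * c * d ^ 3 + b * c * d - b * d ^ 4 + 2 * b * d ^ 3 - 2 * b * d ^ 2 + 2 *
    b * d - c * d ^ 4 - 2 * c * d ^ 2 + 3 * c * d + d ^ 4 + 2 * d ^ 2 - 3 * d) * R0

theorem d5ru22 {a b c d : F} (Q0 : (1 - b) * (d - a ^ 2 * c) + (a - c) * (d - a * b) = 0)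
    (R0 : (d - b) * (d ^ 2 - a * c ^ 2) + d * (c - a) * (d - b * c) = 0) :
    (a * b * c * d + b * c * d + a * c * d - a * b * d - a * b * c + a * d ^ 2 - a ^ 2 * d - a *
      d) * (b * (d - 1) * (a * c + d) + (a - 1) * (d - b) * (a * c + a * d + d)) = a ^ 2 * ((d - 1) * (a * c + d) + 2 * d * (c - a)) * (d - 1) * (a * c + d) + (d - a) * (a * c
      + a * d + d) * (b - 1) * (a * ((d - 1) * (a * c + d) + 2 * d * (c - a)) + d * (c - a) * (b -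
      a)) := by
  linear_combination (a ^ 3 * d - a ^ 3 - a ^ 2 * b * d + a ^ 2 * b) * R0

theorem d5u22 {a b c d A B C D BA CA CB DA DB DC E W V S P Z X Y p q L2 G12 G22 H22 : F}
    (na : a ≠ 0) (nb : b ≠ 0) (nc : c ≠ 0) (nd : d ≠ 0) (nA : A ≠ 0) (nB : B ≠ 0) (nC : C ≠ 0) (nD
    : D ≠ 0) (nBA : BA ≠ 0) (nCA : CA ≠ 0) (nCB : CB ≠ 0) (nDA : DA ≠ 0) (nDB : DB ≠ 0) (nDC : DC
    ≠ 0) (nE : E ≠ 0) (nZ : Z ≠ 0)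
    (hA : A = a - 1) (hB : B = b - 1) (hC : C = c - 1) (hD : D = d - 1) (hBA : BA = b - a) (hCA :
    CA = c - a) (hCB : CB = c - b) (hDA : DA = d - a) (hDB : DB = d - b) (hDC : DC = d - c) (hE :
    E = a * c + d) (hW : W = a * c + a * d + d) (hV : V = c + a * c + d) (hS : S = c + d) (hP : P
    = a + 1) (hZ : Z = (d - 1) * (a * c + d) + 2 * d * (c - a)) (hX : X = a * b * c * d + b * c *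
    d + a * c * d - a * b * d - a * b * c + a * d ^ 2 - a ^ 2 * d - a * d) (hY : Y = a * b * c * d
    + c ^ 2 * d + c * d ^ 2 + b * c * d - a * c * d - a * b * d - a * b * c - c * d)
    (hp : p = X / Z) (hq : q = Y / Z)
    (Q0 : (1 - b) * (d - a ^ 2 * c) + (a - c) * (d - a * b) = 0)
    (R0 : (d - b) * (d ^ 2 - a * c ^ 2) + d * (c - a) * (d - b * c) = 0)
    (jL2 : L2 = -(b * d * BA * CA * DA) / (a ^ 2 * CB * DB * Z))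
    (jG12 : G12 = 1 + A * DB * W / (b * D * E))
    (jG22 : G22 = 1 + B * DB * W * (b * Z + d * BA * CB) / (b ^ 2 * D * E * Z))
    (jH22 : H22 = 1 - B * DB * V * (b * Z - d * BA * CB) / (b ^ 2 * D * E * Z)) :
    (b * p * G12 / a ^ 2) = L2 * (b * G22) + (1 - L2) * (b ^ 2 * H22) := by
  have t0 : CB * DB * Z * (-(a ^ 2 * (b + 1) * Z * D * E) + DA * W * (a * Z + d * CA * BA) + a ^ 2 * DB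
      * V * (b * Z - d * BA * CB)) + d * BA * CA * DA * (-(b ^ 2 * D * E * Z) + DB * W * (b * Z +
      d * BA * CB) + b * DB * V * (b * Z - d * BA * CB)) = 0 := by
    simp only [hA, hB, hC, hD, hBA, hCA, hCB, hDA, hDB, hDC, hE, hW, hV, hS, hP, hZ, hX, hY]
    exact d5tu22 Q0 R0
  have r0 : X * (b * D * E + A * DB * W) = a ^ 2 * Z * D * E + DA * W * B * (a * Z + d * CA * BA) := by
    simp only [hA, hB, hC, hD, hBA, hCA, hCB, hDA, hDB, hDC, hE, hW, hV, hS, hP, hZ, hX, hY]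
    exact d5ru22 Q0 R0
  have e : ((b * p * G12 / a ^ 2)) - (L2 * (b * G22) + (1 - L2) * (b ^ 2 * H22)) = (CB * DB * Z * (X *
      (b * D * E + A * DB * W) - (a ^ 2 * Z * D * E + DA * W * B * (a * Z + d * CA * BA))) + B *
      (CB * DB * Z * (-(a ^ 2 * (b + 1) * Z * D * E) + DA * W * (a * Z + d * CA * BA) + a ^ 2 * DB
      * V * (b * Z - d * BA * CB)) + d * BA * CA * DA * (-(b ^ 2 * D * E * Z) + DB * W * (b * Z +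
      d * BA * CB) + b * DB * V * (b * Z - d * BA * CB)))) / (a ^ 2 * CB * DB * Z ^ 2 * D * E) := by
    rw [jL2, jG12, jG22, jH22, hp]
    field_simp
    simp only [hB]
    ring1
  rw [t0, r0] at e
  exact sub_eq_zero.1 (e.trans (by ring))

end Pool.Agent.Helper76.IP
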