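import Mathlib

/-!
TH-P, phase 2, family D5 (reversed form): the cell (2, 2), w22 (generated).
-/

namespace Pool.Agent.Helper76.IP

set_option linter.unusedVariables false
set_option linter.unusedSimpArgs false
set_option maxRecDepth 100000

variable {F : Type*} [Field F]

theorem d5tw22 {a b c d : F} (Q0 : (1 - b) * (d - a ^ 2 * c) + (a - c) * (d - a * b) = 0)
    (R0 : (d - b) * (d ^ 2 - a * c ^ 2) + d * (c - a) * (d - b * c) = 0) :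
    (c - b) * (d - b) * ((d - 1) * (a * c + d) + 2 * d * (c - a)) * (b ^ 2 * (b + 1) * ((d - 1)
      * (a * c + d) + 2 * d * (c - a)) * (d - 1) * (a * c + d) - b ^ 2 * (d - a) * (c + a * c + d)
      * (b * ((d - 1) * (a * c + d) + 2 * d * (c - a)) - d * (c - a) * (b - a)) - (d - b) * (a * c
      + a * d + d) * (b * ((d - 1) * (a * c + d) + 2 * d * (c - a)) + d * (b - a) * (c - b))) - c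
      * d * (b - a) * (c - a) * (d - a) * (-(b ^ 2 * (d - 1) * (a * c + d) * ((d - 1) * (a * c +
      d) + 2 * d * (c - a))) + (d - b) * (a * c + a * d + d) * (b * ((d - 1) * (a * c + d) + 2 * d
      * (c - a)) + d * (b - a) * (c - b)) + b * (d - b) * (c + a * c + d) * (b * ((d - 1) * (a * c
      + d) + 2 * d * (c - a)) - d * (b - a) * (c - b))) = 0 := by
  linear_combination (-a ^ 3 * b ^ 3 * c * d ^ 2 + a ^ 3 * b ^ 2 * c * d ^ 3 - a ^ 3 * b ^ 2 * d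
    ^ 3 - a ^ 3 * b * c ^ 2 * d ^ 3 + a ^ 3 * c ^ 2 * d ^ 3 + a ^ 3 * c * d ^ 4 + a ^ 2 * b ^ 4 *
    c ^ 2 * d ^ 2 - 2 * a ^ 2 * b ^ 4 * c ^ 2 * d + a ^ 2 * b ^ 4 * c ^ 2 - 2 * a ^ 2 * b ^ 4 * c
    * d ^ 2 + a ^ 2 * b ^ 4 * c * d - a ^ 2 * b ^ 3 * c ^ 3 * d ^ 2 + 2 * a ^ 2 * b ^ 3 * c ^ 3 *
    d - a ^ 2 * b ^ 3 * c ^ 3 - a ^ 2 * b ^ 3 * c ^ 2 * d ^ 3 + 7 * a ^ 2 * b ^ 3 * c ^ 2 * d ^ 2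
    - 6 * a ^ 2 * b ^ 3 * c ^ 2 * d + 3 * a ^ 2 * b ^ 3 * c * d ^ 3 - 8 * a ^ 2 * b ^ 3 * c * d ^
    2 - 3 * a ^ 2 * b ^ 3 * d ^ 3 - a ^ 2 * b ^ 3 * d ^ 2 + a ^ 2 * b ^ 2 * c ^ 3 * d ^ 3 - 3 * a
    ^ 2 * b ^ 2 * c ^ 3 * d ^ 2 + 3 * a ^ 2 * b ^ 2 * c ^ 3 * d - a ^ 2 * b ^ 2 * c ^ 3 - 4 * a ^
    2 * b ^ 2 * c ^ 2 * d ^ 3 + 9 * a ^ 2 * b ^ 2 * c ^ 2 * d ^ 2 - 3 * a ^ 2 * b ^ 2 * c ^ 2 * d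
    - a ^ 2 * b ^ 2 * c ^ 2 - a ^ 2 * b ^ 2 * c * d ^ 4 + 8 * a ^ 2 * b ^ 2 * c * d ^ 3 - a ^ 2 *
    b ^ 2 * c * d ^ 2 - a ^ 2 * b ^ 2 * c * d + 3 * a ^ 2 * b ^ 2 * d ^ 4 + 3 * a ^ 2 * b ^ 2 * d
    ^ 3 + 2 * a ^ 2 * b * c ^ 3 * d ^ 3 - 3 * a ^ 2 * b * c ^ 3 * d ^ 2 + 3 * a ^ 2 * b * c ^ 3 *
    d - a ^ 2 * b * c ^ 3 + a ^ 2 * b * c ^ 2 * d ^ 4 - 6 * a ^ 2 * b * c ^ 2 * d ^ 3 + 4 * a ^ 2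
    * b * c ^ 2 * d ^ 2 - 2 * a ^ 2 * b * c ^ 2 - 3 * a ^ 2 * b * c * d ^ 4 - a ^ 2 * b * c * d ^
    3 + a ^ 2 * b * c * d ^ 2 - 2 * a ^ 2 * b * c * d - a ^ 2 * b * d ^ 4 + 2 * a ^ 2 * b * d ^ 3
    + a ^ 2 * b * d ^ 2 - 2 * a ^ 2 * c ^ 3 * d ^ 2 + a ^ 2 * c ^ 3 * d - 2 * a ^ 2 * c ^ 2 * d ^
    4 + 2 * a ^ 2 * c ^ 2 * d - a ^ 2 * c * d ^ 5 + 3 * a ^ 2 * c * d ^ 4 - 2 * a ^ 2 * c * d ^ 3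
    + a ^ 2 * c * d ^ 2 + a ^ 2 * d ^ 5 + 2 * a ^ 2 * d ^ 2 + 2 * a * b ^ 4 * c ^ 2 * d ^ 2 - a *
    b ^ 4 * c ^ 2 * d - a * b ^ 4 * c ^ 2 + 2 * a * b ^ 4 * c * d ^ 3 - 3 * a * b ^ 4 * c * d ^ 2
    - a * b ^ 4 * c * d - 2 * a * b ^ 4 * d ^ 3 - a * b ^ 4 * d ^ 2 - 3 * a * b ^ 3 * c ^ 3 * d ^
    2 + 2 * a * b ^ 3 * c ^ 3 * d + a * b ^ 3 * c ^ 3 - 5 * a * b ^ 3 * c ^ 2 * d ^ 3 + 12 * a * b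
    ^ 3 * c ^ 2 * d ^ 2 + 4 * a * b ^ 3 * c ^ 2 * d - 2 * a * b ^ 3 * c * d ^ 4 + 15 * a * b ^ 3 *
    c * d ^ 3 + 2 * a * b ^ 3 * c * d ^ 2 + 5 * a * b ^ 3 * d ^ 4 - a * b ^ 3 * d ^ 3 + a * b ^ 3
    * d ^ 2 + a * b ^ 2 * c ^ 3 * d ^ 3 - 3 * a * b ^ 2 * c ^ 3 * d ^ 2 - 2 * a * b ^ 2 * c ^ 3 *
    d + 2 * a * b ^ 2 * c ^ 3 + 2 * a * b ^ 2 * c ^ 2 * d ^ 4 - 11 * a * b ^ 2 * c ^ 2 * d ^ 3 + 6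
    * a * b ^ 2 * c ^ 2 * d + 3 * a * b ^ 2 * c ^ 2 - 11 * a * b ^ 2 * c * d ^ 4 + a * b ^ 2 * c *
    d ^ 3 + 3 * a * b ^ 2 * c * d ^ 2 + 3 * a * b ^ 2 * c * d - 2 * a * b ^ 2 * d ^ 5 + a * b ^ 2
    * d ^ 4 + a * b ^ 2 * d ^ 2 + 3 * a * b * c ^ 3 * d ^ 3 + 2 * a * b * c ^ 3 * d ^ 2 - 5 * a *
    b * c ^ 3 * d + 3 * a * b * c ^ 3 + 7 * a * b * c ^ 2 * d ^ 4 - 5 * a * b * c ^ 2 * d ^ 2 + 2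
    * a * b * c ^ 2 * d + 8 * a * b * c ^ 2 + 4 * a * b * c * d ^ 5 - 4 * a * b * c * d ^ 4 - 2 *
    a * b * c * d ^ 2 + 8 * a * b * c * d - 2 * a * b * d ^ 5 - 3 * a * b * d ^ 4 - 4 * a * b * d
    ^ 3 - a * b * d ^ 2 + a * c ^ 3 * d ^ 4 - 2 * a * c ^ 3 * d ^ 3 + 4 * a * c ^ 3 * d ^ 2 - 3 *
    a * c ^ 3 * d - 3 * a * c ^ 2 * d ^ 4 - a * c ^ 2 * d ^ 3 - a * c ^ 2 * d ^ 2 - 8 * a * c ^ 2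
    * d - 3 * a * c * d ^ 5 + 3 * a * c * d ^ 3 - 5 * a * c * d ^ 2 - a * d ^ 6 + a * d ^ 5 - 3 *
    a * d ^ 4 - 2 * a * d ^ 3 - 8 * a * d ^ 2 - b ^ 4 * c ^ 2 * d ^ 2 + b ^ 4 * c ^ 2 * d + 2 * b
    ^ 4 * c * d ^ 3 - b ^ 4 * c * d ^ 2 + b ^ 4 * d ^ 4 - 3 * b ^ 4 * d ^ 3 + b ^ 4 * d ^ 2 + b ^
    3 * c ^ 3 * d ^ 3 - b ^ 3 * c ^ 3 * d - 2 * b ^ 3 * c ^ 2 * d ^ 3 - b ^ 3 * c ^ 2 * d ^ 2 - 3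
    * b ^ 3 * c * d ^ 4 + 9 * b ^ 3 * c * d ^ 3 - 2 * b ^ 3 * c * d ^ 2 - b ^ 3 * d ^ 5 + 7 * b ^
    3 * d ^ 4 - 4 * b ^ 3 * d ^ 3 - 4 * b ^ 2 * c ^ 3 * d ^ 3 + 2 * b ^ 2 * c ^ 3 * d ^ 2 - 2 * b
    ^ 2 * c ^ 3 * d - 2 * b ^ 2 * c ^ 2 * d ^ 4 - 7 * b ^ 2 * c ^ 2 * d ^ 3 - 2 * b ^ 2 * c ^ 2 *
    d ^ 2 - 3 * b ^ 2 * c ^ 2 * d - 16 * b ^ 2 * c * d ^ 4 + 6 * b ^ 2 * c * d ^ 3 - 2 * b ^ 2 * c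
    * d ^ 2 - 8 * b ^ 2 * d ^ 5 + 2 * b ^ 2 * d ^ 4 - 3 * b ^ 2 * d ^ 3 - 3 * b ^ 2 * d ^ 2 + b *
    c ^ 3 * d ^ 4 - 2 * b * c ^ 3 * d ^ 3 + 4 * b * c ^ 3 * d ^ 2 - 3 * b * c ^ 3 * d + 11 * b * c
    ^ 2 * d ^ 4 - 5 * b * c ^ 2 * d ^ 3 + 2 * b * c ^ 2 * d ^ 2 - 8 * b * c ^ 2 * d + 13 * b * c *
    d ^ 5 - 4 * b * c * d ^ 4 + 9 * b * c * d ^ 3 + 4 * b * d ^ 6 + 2 * b * d ^ 5 + 3 * b * d ^ 3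
    - 8 * b * d ^ 2 - c ^ 2 * d ^ 5 + 2 * c ^ 2 * d ^ 4 - 4 * c ^ 2 * d ^ 3 + 3 * c ^ 2 * d ^ 2 -
    c * d ^ 6 + c * d ^ 5 - c * d ^ 4 + 3 * c * d ^ 3 + 8 * c * d ^ 2 - d ^ 6 + 3 * d ^ 5 + 8 * d
    ^ 3) * Q0 + (a ^ 4 * b ^ 3 * d + a ^ 3 * b ^ 4 - 3 * a ^ 3 * b ^ 3 * d - 2 * a ^ 3 * b ^ 2 * d
    - a ^ 3 * b ^ 2 - a ^ 3 * b * d ^ 3 - 2 * a ^ 3 * b - a ^ 3 * c ^ 2 * d ^ 2 + 2 * a ^ 3 * c ^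
    2 * d - a ^ 3 * c ^ 2 - 2 * a ^ 3 * c + 2 * a ^ 2 * b ^ 4 * d - a ^ 2 * b ^ 4 - a ^ 2 * b ^ 3
    * d ^ 3 - a ^ 2 * b ^ 3 * d ^ 2 + a ^ 2 * b ^ 3 * d + 4 * a ^ 2 * b ^ 2 * d ^ 3 + 3 * a ^ 2 *
    b ^ 2 * d ^ 2 + 3 * a ^ 2 * b ^ 2 * d + 3 * a ^ 2 * b ^ 2 - 2 * a ^ 2 * b * d ^ 3 + 5 * a ^ 2
    * b * d ^ 2 + a ^ 2 * b * d + 8 * a ^ 2 * b - a ^ 2 * c ^ 2 * d ^ 3 + 3 * a ^ 2 * c ^ 2 * d ^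
    2 - 4 * a ^ 2 * c ^ 2 * d + 3 * a ^ 2 * c ^ 2 + 3 * a ^ 2 * c * d ^ 3 + a ^ 2 * c * d ^ 2 + a
    ^ 2 * c * d + 8 * a ^ 2 * c + a ^ 2 * d ^ 4 + 2 * a ^ 2 * d + a * b ^ 4 * c + a * b ^ 4 * d -
    2 * a * b ^ 3 * c ^ 2 * d ^ 2 - a * b ^ 3 * c ^ 2 - 2 * a * b ^ 3 * c * d ^ 3 + a * b ^ 3 * c
    * d ^ 2 - 3 * a * b ^ 3 * c * d - 5 * a * b ^ 3 * d ^ 2 + a * b ^ 2 * c ^ 2 * d ^ 3 + 2 * a *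
    b ^ 2 * c ^ 2 * d ^ 2 + 2 * a * b ^ 2 * c ^ 2 * d - 2 * a * b ^ 2 * c ^ 2 + 5 * a * b ^ 2 * c
    * d ^ 3 - 2 * a * b ^ 2 * c * d ^ 2 - 4 * a * b ^ 2 * c * d - 3 * a * b ^ 2 * c + a * b ^ 2 *
    d ^ 4 + 3 * a * b ^ 2 * d ^ 3 - a * b ^ 2 * d ^ 2 - a * b ^ 2 * d - a * b * c ^ 2 * d ^ 3 - 3
    * a * b * c ^ 2 * d ^ 2 + 3 * a * b * c ^ 2 * d - 3 * a * b * c ^ 2 - a * b * c * d ^ 4 - 10 *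
    a * b * c * d ^ 3 - 2 * a * b * c * d ^ 2 - 3 * a * b * c * d - 8 * a * b * c - 5 * a * b * d
    ^ 4 - 2 * a * b * d ^ 3 - a * b * d ^ 2 - 4 * a * b * d - 2 * a * c ^ 2 * d ^ 3 + 2 * a * c ^
    2 * d ^ 2 - a * c ^ 2 * d + a * c * d ^ 3 + 2 * a * c * d ^ 2 - 4 * a * c * d + 2 * a * d ^ 4
    - 3 * a * d ^ 3 - 6 * a * d + b ^ 4 * c * d ^ 2 + 2 * b ^ 4 * d ^ 2 - b ^ 4 * d - 3 * b ^ 3 *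
    c ^ 2 * d ^ 2 - 5 * b ^ 3 * c * d ^ 3 + b ^ 3 * c * d ^ 2 - b ^ 3 * d ^ 4 - 2 * b ^ 3 * d ^ 3
    + b ^ 3 * d + 2 * b ^ 2 * c ^ 2 * d ^ 3 + b ^ 2 * c ^ 2 * d + b ^ 2 * c * d ^ 4 + 7 * b ^ 2 *
    c * d ^ 3 + b ^ 2 * c * d ^ 2 + b ^ 2 * c * d + 5 * b ^ 2 * d ^ 4 + 3 * b ^ 2 * d ^ 3 + b ^ 2
    * d ^ 2 + 3 * b ^ 2 * d + 4 * b * c ^ 2 * d ^ 3 - 2 * b * c ^ 2 * d ^ 2 + 2 * b * c ^ 2 * d +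
    2 * b * c * d ^ 4 - 3 * b * c * d ^ 3 + b * c * d ^ 2 + 4 * b * c * d - 5 * b * d ^ 4 + 2 * b
    * d ^ 3 - 3 * b * d ^ 2 + 5 * b * d - c ^ 2 * d ^ 4 + 2 * c ^ 2 * d ^ 3 - 4 * c ^ 2 * d ^ 2 +
    3 * c ^ 2 * d + c * d ^ 3 + 4 * c * d ^ 2 + 5 * c * d + d ^ 4 - 3 * d ^ 3 - 8 * d) * R0

theorem d5rw22 {a b c d : F} (Q0 : (1 - b) * (d - a ^ 2 * c) + (a - c) * (d - a * b) = 0)
    (R0 : (d - b) * (d ^ 2 - a * c ^ 2) + d * (c - a) * (d - b * c) = 0) :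
    (a * b * c * d + b * c * d + a * c * d - a * b * d - a * b * c + a * d ^ 2 - a ^ 2 * d - a *
      d) * (a * (d - 1) * (a * c + d) - (a - 1) * (d - b) * (c + a * c + d)) = b ^ 2 * ((d - 1) * (a * c + d) + 2 * d * (c - a)) * (d - 1) * (a * c + d) - (b - 1) * (d -
      a) * (c + a * c + d) * (b * ((d - 1) * (a * c + d) + 2 * d * (c - a)) - d * (c - a) * (b -
      a)) := by
  linear_combination (a * d - a - b * d + b) * R0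

theorem d5w22 {a b c d A B C D BA CA CB DA DB DC E W V S P Z X Y p q M2 G22 H12 H22 : F}
    (na : a ≠ 0) (nb : b ≠ 0) (nc : c ≠ 0) (nd : d ≠ 0) (nA : A ≠ 0) (nB : B ≠ 0) (nC : C ≠ 0) (nD
    : D ≠ 0) (nBA : BA ≠ 0) (nCA : CA ≠ 0) (nCB : CB ≠ 0) (nDA : DA ≠ 0) (nDB : DB ≠ 0) (nDC : DC
    ≠ 0) (nE : E ≠ 0) (nZ : Z ≠ 0)
    (hA : A = a - 1) (hB : B = b - 1) (hC : C = c - 1) (hD : D = d - 1) (hBA : BA = b - a) (hCA :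
    CA = c - a) (hCB : CB = c - b) (hDA : DA = d - a) (hDB : DB = d - b) (hDC : DC = d - c) (hE :
    E = a * c + d) (hW : W = a * c + a * d + d) (hV : V = c + a * c + d) (hS : S = c + d) (hP : P
    = a + 1) (hZ : Z = (d - 1) * (a * c + d) + 2 * d * (c - a)) (hX : X = a * b * c * d + b * c *
    d + a * c * d - a * b * d - a * b * c + a * d ^ 2 - a ^ 2 * d - a * d) (hY : Y = a * b * c * d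
    + c ^ 2 * d + c * d ^ 2 + b * c * d - a * c * d - a * b * d - a * b * c - c * d)
    (hp : p = X / Z) (hq : q = Y / Z)
    (Q0 : (1 - b) * (d - a ^ 2 * c) + (a - c) * (d - a * b) = 0)
    (R0 : (d - b) * (d ^ 2 - a * c ^ 2) + d * (c - a) * (d - b * c) = 0)
    (jM2 : M2 = -(c * d * BA * CA * DA) / (CB * DB * Z))
    (jG22 : G22 = 1 + B * DB * W * (b * Z + d * BA * CB) / (b ^ 2 * D * E * Z))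
    (jH12 : H12 = 1 - A * DB * V / (a * D * E))
    (jH22 : H22 = 1 - B * DB * V * (b * Z - d * BA * CB) / (b ^ 2 * D * E * Z)) :
    b ^ 3 * (a * p * H12 / b ^ 2) = (1 - M2) * (b * G22) + M2 * (b ^ 2 * H22) := by
  have t0 : CB * DB * Z * (b ^ 2 * (b + 1) * Z * D * E - b ^ 2 * DA * V * (b * Z - d * CA * BA) - DB * W
      * (b * Z + d * BA * CB)) - c * d * BA * CA * DA * (-(b ^ 2 * D * E * Z) + DB * W * (b * Z +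
      d * BA * CB) + b * DB * V * (b * Z - d * BA * CB)) = 0 := by
    simp only [hA, hB, hC, hD, hBA, hCA, hCB, hDA, hDB, hDC, hE, hW, hV, hS, hP, hZ, hX, hY]
    exact d5tw22 Q0 R0
  have r0 : X * (a * D * E - A * DB * V) = b ^ 2 * Z * D * E - B * DA * V * (b * Z - d * CA * BA) := by
    simp only [hA, hB, hC, hD, hBA, hCA, hCB, hDA, hDB, hDC, hE, hW, hV, hS, hP, hZ, hX, hY]
    exact d5rw22 Q0 R0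
  have e : (b ^ 3 * (a * p * H12 / b ^ 2)) - ((1 - M2) * (b * G22) + M2 * (b ^ 2 * H22)) = (b ^ 2 * CB
      * DB * Z * (X * (a * D * E - A * DB * V) - (b ^ 2 * Z * D * E - B * DA * V * (b * Z - d * CA
      * BA))) + B * (CB * DB * Z * (b ^ 2 * (b + 1) * Z * D * E - b ^ 2 * DA * V * (b * Z - d * CA
      * BA) - DB * W * (b * Z + d * BA * CB)) - c * d * BA * CA * DA * (-(b ^ 2 * D * E * Z) + DB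
      * W * (b * Z + d * BA * CB) + b * DB * V * (b * Z - d * BA * CB)))) / (b * CB * DB * Z ^ 2 *
      D * E) := by
    rw [jM2, jG22, jH12, jH22, hp]
    field_simp
    simp only [hB]
    ring1
  rw [t0, r0] at e
  exact sub_eq_zero.1 (e.trans (by ring))

end Pool.Agent.Helper76.IP
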