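import Pool.Agent.Helper76.IP.MkGen4
import Pool.Agent.Helper76.IP.D5Cell1
import Pool.Agent.Helper76.IP.D5Cell2
import Pool.Agent.Helper76.IP.D5Cell3
import Pool.Agent.Helper76.IP.D5Tu22
import Pool.Agent.Helper76.IP.D5Tw22
import Pool.Agent.Helper76.IP.D5Tx22
import Pool.Agent.Helper76.IP.D5Ty22

/-!
TH-P, phase 2: construction of the closed corners of the family D5 (reversed form), `m = 4`.
-/

namespace Pool.Agent.Helper76.IP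

open Pool.Agent.Helper54.IP

variable {F : Type*} [Field F]

/-- construction of the family D5 in the reversed form -/
theorem d5s_mk {a b c d : F}
    (Q0 : (1 - b) * (d - a ^ 2 * c) + (a - c) * (d - a * b) = 0)
    (R0 : (d - b) * (d ^ 2 - a * c ^ 2) + d * (c - a) * (d - b * c) = 0)
    (na : a ≠ 0) (nb : b ≠ 0) (nc : c ≠ 0) (nd : d ≠ 0)
    (nA' : a - 1 ≠ 0) (nB' : b - 1 ≠ 0) (nC' : c - 1 ≠ 0) (nD' : d - 1 ≠ 0)
    (nBA' : b - a ≠ 0) (nCA' : c - a ≠ 0) (nCB' : c - b ≠ 0) (nDA' : d - a ≠ 0)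
    (nDB' : d - b ≠ 0) (nDC' : d - c ≠ 0) (nE' : a * c + d ≠ 0)
    (nW' : a * c + a * d + d ≠ 0) (nV' : c + a * c + d ≠ 0) (nS' : c + d ≠ 0) (nP' : a + 1 ≠ 0)
    (nZ' : (d - 1) * (a * c + d) + 2 * d * (c - a) ≠ 0)
    (nX' : a * b * c * d + b * c * d + a * c * d - a * b * d - a * b * c + a * d ^ 2 - a ^ 2 * d - a *
      d ≠ 0)
    (nY' : a * b * c * d + c ^ 2 * d + c * d ^ 2 + b * c * d - a * c * d - a * b * d - a * b * c - c *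
      d ≠ 0) :
    ∃ g : GForm F 4, g.Closed ∧ g.t = sq5 1 a b c d ∧ g.s = sq5 1 (d / c) (d / b) (d / a) d ∧
      g.lam = fun k => 1 - sq4 ((d - c) * (a * c + a * d + d) / (c * (d - 1) * (a * c + d)))
        (c * d * (c - b) * (d - b) / (b ^ 2 * (d - c) *
          ((d - 1) * (a * c + d) + 2 * d * (c - a))))
        (-(b * d * (b - a) * (c - a) * (d - a)) / (a ^ 2 * (c - b) * (d - b) *
          ((d - 1) * (a * c + d) + 2 * d * (c - a))))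
        (-(a ^ 2 * (a - 1) * (b - 1) * (c - 1) * (c + a * c + d)) /
          ((b - a) * (c - a) * (d - a) * (a * c + d))) k := by
  obtain ⟨A, hA⟩ : ∃ z : F, z = a - 1 := ⟨_, rfl⟩
  obtain ⟨B, hB⟩ : ∃ z : F, z = b - 1 := ⟨_, rfl⟩
  obtain ⟨C, hC⟩ : ∃ z : F, z = c - 1 := ⟨_, rfl⟩
  obtain ⟨D, hD⟩ : ∃ z : F, z = d - 1 := ⟨_, rfl⟩
  obtain ⟨BA, hBA⟩ : ∃ z : F, z = b - a := ⟨_, rfl⟩
  obtain ⟨CA, hCA⟩ : ∃ z : F, z = c - a := ⟨_, rfl⟩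
  obtain ⟨CB, hCB⟩ : ∃ z : F, z = c - b := ⟨_, rfl⟩
  obtain ⟨DA, hDA⟩ : ∃ z : F, z = d - a := ⟨_, rfl⟩
  obtain ⟨DB, hDB⟩ : ∃ z : F, z = d - b := ⟨_, rfl⟩
  obtain ⟨DC, hDC⟩ : ∃ z : F, z = d - c := ⟨_, rfl⟩
  obtain ⟨E, hE⟩ : ∃ z : F, z = a * c + d := ⟨_, rfl⟩
  obtain ⟨W, hW⟩ : ∃ z : F, z = a * c + a * d + d := ⟨_, rfl⟩
  obtain ⟨V, hV⟩ : ∃ z : F, z = c + a * c + d := ⟨_, rfl⟩
  obtain ⟨S, hS⟩ : ∃ z : F, z = c + d := ⟨_, rfl⟩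
  obtain ⟨P, hP⟩ : ∃ z : F, z = a + 1 := ⟨_, rfl⟩
  obtain ⟨Z, hZ⟩ : ∃ z : F, z = (d - 1) * (a * c + d) + 2 * d * (c - a) := ⟨_, rfl⟩
  obtain ⟨X, hX⟩ : ∃ z : F, z = a * b * c * d + b * c * d + a * c * d - a * b * d - a * b * c +
    a * d ^ 2 - a ^ 2 * d - a * d := ⟨_, rfl⟩
  obtain ⟨Y, hY⟩ : ∃ z : F, z = a * b * c * d + c ^ 2 * d + c * d ^ 2 + b * c * d - a * c * d -
    a * b * d - a * b * c - c * d := ⟨_, rfl⟩
  obtain ⟨p, hp⟩ : ∃ z : F, z = X / Z := ⟨_, rfl⟩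
  obtain ⟨q, hq⟩ : ∃ z : F, z = Y / Z := ⟨_, rfl⟩
  have nA : A ≠ 0 := by rw [hA]; exact nA'
  have nB : B ≠ 0 := by rw [hB]; exact nB'
  have nC : C ≠ 0 := by rw [hC]; exact nC'
  have nD : D ≠ 0 := by rw [hD]; exact nD'
  have nBA : BA ≠ 0 := by rw [hBA]; exact nBA'
  have nCA : CA ≠ 0 := by rw [hCA]; exact nCA'
  have nCB : CB ≠ 0 := by rw [hCB]; exact nCB'
  have nDA : DA ≠ 0 := by rw [hDA]; exact nDA'
  have nDB : DB ≠ 0 := by rw [hDB]; exact nDB'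
  have nDC : DC ≠ 0 := by rw [hDC]; exact nDC'
  have nE : E ≠ 0 := by rw [hE]; exact nE'
  have nW : W ≠ 0 := by rw [hW]; exact nW'
  have nV : V ≠ 0 := by rw [hV]; exact nV'
  have nS : S ≠ 0 := by rw [hS]; exact nS'
  have nP : P ≠ 0 := by rw [hP]; exact nP'
  have nZ : Z ≠ 0 := by rw [hZ]; exact nZ'
  have nX : X ≠ 0 := by rw [hX]; exact nX'
  have nY : Y ≠ 0 := by rw [hY]; exact nY'
  have np : p ≠ 0 := by rw [hp]; exact div_ne_zero nX nZ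
  have nq : q ≠ 0 := by rw [hq]; exact div_ne_zero nY nZ
  obtain ⟨s1, js1⟩ : ∃ z : F, z = d / c := ⟨_, rfl⟩
  obtain ⟨s2, js2⟩ : ∃ z : F, z = d / b := ⟨_, rfl⟩
  obtain ⟨s3, js3⟩ : ∃ z : F, z = d / a := ⟨_, rfl⟩
  obtain ⟨L0, jL0⟩ : ∃ z : F, z = DC * W / (c * D * E) := ⟨_, rfl⟩
  obtain ⟨M0, jM0⟩ : ∃ z : F, z = DC * V / (D * E) := ⟨_, rfl⟩
  obtain ⟨L1, jL1⟩ : ∃ z : F, z = c * d * CB * DB / (b ^ 2 * DC * Z) := ⟨_, rfl⟩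
  obtain ⟨M1, jM1⟩ : ∃ z : F, z = a * d * CB * DB / (DC * Z) := ⟨_, rfl⟩
  obtain ⟨L2, jL2⟩ : ∃ z : F, z = -(b * d * BA * CA * DA) / (a ^ 2 * CB * DB * Z) := ⟨_, rfl⟩
  obtain ⟨M2, jM2⟩ : ∃ z : F, z = -(c * d * BA * CA * DA) / (CB * DB * Z) := ⟨_, rfl⟩
  obtain ⟨L3, jL3⟩ : ∃ z : F, z = -(a ^ 2 * A * B * C * V) / (BA * CA * DA * E) := ⟨_, rfl⟩
  obtain ⟨M3, jM3⟩ : ∃ z : F, z = -(d * A * B * C * W) / (BA * CA * DA * E) := ⟨_, rfl⟩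
  obtain ⟨K0, jK0⟩ : ∃ z : F, z = A * W / (D * E) := ⟨_, rfl⟩
  obtain ⟨N0, jN0⟩ : ∃ z : F, z = d * A * V / (a * D * E) := ⟨_, rfl⟩
  obtain ⟨K1, jK1⟩ : ∃ z : F, z = c * B * BA / (A * Z) := ⟨_, rfl⟩
  obtain ⟨N1, jN1⟩ : ∃ z : F, z = a * d ^ 2 * B * BA / (b ^ 2 * A * Z) := ⟨_, rfl⟩
  obtain ⟨K2, jK2⟩ : ∃ z : F, z = -(a * C * CA * CB) / (B * BA * Z) := ⟨_, rfl⟩
  obtain ⟨N2, jN2⟩ : ∃ z : F, z = -(b * d ^ 2 * C * CA * CB) / (c ^ 2 * B * BA * Z) := ⟨_, rfl⟩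
  obtain ⟨K3, jK3⟩ : ∃ z : F, z = -(DA * DB * DC * V) / (d * C * CA * CB * E) := ⟨_, rfl⟩
  obtain ⟨N3, jN3⟩ : ∃ z : F, z = -(c ^ 2 * DA * DB * DC * W) / (d ^ 2 * C * CA * CB * E) := ⟨_,
    rfl⟩
  obtain ⟨G11, jG11⟩ : ∃ z : F, z = 1 + A * DC * W / (c * D * E) := ⟨_, rfl⟩
  obtain ⟨G12, jG12⟩ : ∃ z : F, z = 1 + A * DB * W / (b * D * E) := ⟨_, rfl⟩
  obtain ⟨G13, jG13⟩ : ∃ z : F, z = 1 + A * DA * W / (a * D * E) := ⟨_, rfl⟩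
  obtain ⟨G21, jG21⟩ : ∃ z : F, z = 1 + B * DC * W / (c * D * E) := ⟨_, rfl⟩
  obtain ⟨G31, jG31⟩ : ∃ z : F, z = 1 + C * DC * W / (c * D * E) := ⟨_, rfl⟩
  obtain ⟨G22, jG22⟩ : ∃ z : F, z = 1 + B * DB * W * (b * Z + d * BA * CB) / (b ^ 2 * D * E * Z)
    := ⟨_, rfl⟩
  obtain ⟨H11, jH11⟩ : ∃ z : F, z = 1 - A * DC * V / (a * D * E) := ⟨_, rfl⟩
  obtain ⟨H12, jH12⟩ : ∃ z : F, z = 1 - A * DB * V / (a * D * E) := ⟨_, rfl⟩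
  obtain ⟨H13, jH13⟩ : ∃ z : F, z = 1 - A * DA * V / (a * D * E) := ⟨_, rfl⟩
  obtain ⟨H21, jH21⟩ : ∃ z : F, z = 1 - B * DC * V / (b * D * E) := ⟨_, rfl⟩
  obtain ⟨H31, jH31⟩ : ∃ z : F, z = 1 - C * DC * V / (c * D * E) := ⟨_, rfl⟩
  obtain ⟨H22, jH22⟩ : ∃ z : F, z = 1 - B * DB * V * (b * Z - d * BA * CB) / (b ^ 2 * D * E * Z)
    := ⟨_, rfl⟩
  obtain ⟨o, jo⟩ : ∃ z : F, z = S / E := ⟨_, rfl⟩
  obtain ⟨w, jw⟩ : ∃ z : F, z = P / E := ⟨_, rfl⟩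
  have iu10 := d5u10 na nb nc nd nA nB nC nD nBA nCA nCB nDA nDB nDC nE nZ hA hB hC hD hBA hCA
    hCB hDA hDB hDC hE hW hV hS hP hZ hX hY hp hq Q0 R0 jL0 jG11
  have iw10 := d5w10 na nb nc nd nA nB nC nD nBA nCA nCB nDA nDB nDC nE nZ hA hB hC hD hBA hCA
    hCB hDA hDB hDC hE hW hV hS hP hZ hX hY hp hq Q0 R0 jM0 jH11
  have iu11 := d5u11 na nb nc nd nA nB nC nD nBA nCA nCB nDA nDB nDC nE nZ hA hB hC hD hBA hCA
    hCB hDA hDB hDC hE hW hV hS hP hZ hX hY hp hq Q0 R0 jL1 jG11 jG12 jH11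
  have iw11 := d5w11 na nb nc nd nA nB nC nD nBA nCA nCB nDA nDB nDC nE nZ hA hB hC hD hBA hCA
    hCB hDA hDB hDC hE hW hV hS hP hZ hX hY hp hq Q0 R0 jM1 jG11 jH11 jH12
  have iu12 := d5u12 na nb nc nd nA nB nC nD nBA nCA nCB nDA nDB nDC nE nZ hA hB hC hD hBA hCA
    hCB hDA hDB hDC hE hW hV hS hP hZ hX hY hp hq Q0 R0 jL2 jG12 jG13 jH12
  have iw12 := d5w12 na nb nc nd nA nB nC nD nBA nCA nCB nDA nDB nDC nE nZ hA hB hC hD hBA hCA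
    hCB hDA hDB hDC hE hW hV hS hP hZ hX hY hp hq Q0 R0 jM2 jG12 jH12 jH13
  have iu13 := d5u13 na nb nc nd nA nB nC nD nBA nCA nCB nDA nDB nDC nE nZ hA hB hC hD hBA hCA
    hCB hDA hDB hDC hE hW hV hS hP hZ hX hY hp hq Q0 R0 jL3 jG13 jH13 jo
  have iw13 := d5w13 na nb nc nd nA nB nC nD nBA nCA nCB nDA nDB nDC nE nZ hA hB hC hD hBA hCA
    hCB hDA hDB hDC hE hW hV hS hP hZ hX hY hp hq Q0 R0 jM3 jG13 jH13 jo
  have iu20 := d5u20 na nb nc nd nA nB nC nD nBA nCA nCB nDA nDB nDC nE nZ hA hB hC hD hBA hCA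
    hCB hDA hDB hDC hE hW hV hS hP hZ hX hY hp hq Q0 R0 jL0 jG21
  have iw20 := d5w20 na nb nc nd nA nB nC nD nBA nCA nCB nDA nDB nDC nE nZ hA hB hC hD hBA hCA
    hCB hDA hDB hDC hE hW hV hS hP hZ hX hY hp hq Q0 R0 jM0 jH21
  have iu21 := d5u21 na nb nc nd nA nB nC nD nBA nCA nCB nDA nDB nDC nE nZ hA hB hC hD hBA hCA
    hCB hDA hDB hDC hE hW hV hS hP hZ hX hY hp hq Q0 R0 jL1 jG21 jG22 jH21
  have iw21 := d5w21 na nb nc nd nA nB nC nD nBA nCA nCB nDA nDB nDC nE nZ hA hB hC hD hBA hCA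
    hCB hDA hDB hDC hE hW hV hS hP hZ hX hY hp hq Q0 R0 jM1 jG21 jH21 jH22
  have iu22 := d5u22 na nb nc nd nA nB nC nD nBA nCA nCB nDA nDB nDC nE nZ hA hB hC hD hBA hCA
    hCB hDA hDB hDC hE hW hV hS hP hZ hX hY hp hq Q0 R0 jL2 jG12 jG22 jH22
  have iw22 := d5w22 na nb nc nd nA nB nC nD nBA nCA nCB nDA nDB nDC nE nZ hA hB hC hD hBA hCA
    hCB hDA hDB hDC hE hW hV hS hP hZ hX hY hp hq Q0 R0 jM2 jG22 jH12 jH22
  have iu23 := d5u23 na nb nc nd nA nB nC nD nBA nCA nCB nDA nDB nDC nE nZ hA hB hC hD hBA hCA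
    hCB hDA hDB hDC hE hW hV hS hP hZ hX hY hp hq Q0 R0 jL3 jG12 jH12 jo
  have iw23 := d5w23 na nb nc nd nA nB nC nD nBA nCA nCB nDA nDB nDC nE nZ hA hB hC hD hBA hCA
    hCB hDA hDB hDC hE hW hV hS hP hZ hX hY hp hq Q0 R0 jM3 jG12 jH12 jo
  have iu30 := d5u30 na nb nc nd nA nB nC nD nBA nCA nCB nDA nDB nDC nE nZ hA hB hC hD hBA hCA
    hCB hDA hDB hDC hE hW hV hS hP hZ hX hY hp hq Q0 R0 jL0 jG31
  have iw30 := d5w30 na nb nc nd nA nB nC nD nBA nCA nCB nDA nDB nDC nE nZ hA hB hC hD hBA hCA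
    hCB hDA hDB hDC hE hW hV hS hP hZ hX hY hp hq Q0 R0 jM0 jH31
  have iu31 := d5u31 na nb nc nd nA nB nC nD nBA nCA nCB nDA nDB nDC nE nZ hA hB hC hD hBA hCA
    hCB hDA hDB hDC hE hW hV hS hP hZ hX hY hp hq Q0 R0 jL1 jG21 jG31 jH31
  have iw31 := d5w31 na nb nc nd nA nB nC nD nBA nCA nCB nDA nDB nDC nE nZ hA hB hC hD hBA hCA
    hCB hDA hDB hDC hE hW hV hS hP hZ hX hY hp hq Q0 R0 jM1 jG31 jH21 jH31
  have iu32 := d5u32 na nb nc nd nA nB nC nD nBA nCA nCB nDA nDB nDC nE nZ hA hB hC hD hBA hCA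
    hCB hDA hDB hDC hE hW hV hS hP hZ hX hY hp hq Q0 R0 jL2 jG11 jG21 jH21
  have iw32 := d5w32 na nb nc nd nA nB nC nD nBA nCA nCB nDA nDB nDC nE nZ hA hB hC hD hBA hCA
    hCB hDA hDB hDC hE hW hV hS hP hZ hX hY hp hq Q0 R0 jM2 jG21 jH11 jH21
  have iu33 := d5u33 na nb nc nd nA nB nC nD nBA nCA nCB nDA nDB nDC nE nZ hA hB hC hD hBA hCA
    hCB hDA hDB hDC hE hW hV hS hP hZ hX hY hp hq Q0 R0 jL3 jG11 jH11 jo
  have iw33 := d5w33 na nb nc nd nA nB nC nD nBA nCA nCB nDA nDB nDC nE nZ hA hB hC hD hBA hCA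
    hCB hDA hDB hDC hE hW hV hS hP hZ hX hY hp hq Q0 R0 jM3 jG11 jH11 jo
  have iu40 := d5u40 na nb nc nd nA nB nC nD nBA nCA nCB nDA nDB nDC nE nZ hA hB hC hD hBA hCA
    hCB hDA hDB hDC hE hW hV hS hP hZ hX hY hp hq Q0 R0 jL0 jw
  have iw40 := d5w40 na nb nc nd nA nB nC nD nBA nCA nCB nDA nDB nDC nE nZ hA hB hC hD hBA hCA
    hCB hDA hDB hDC hE hW hV hS hP hZ hX hY hp hq Q0 R0 jM0 jw
  have iu41 := d5u41 na nb nc nd nA nB nC nD nBA nCA nCB nDA nDB nDC nE nZ hA hB hC hD hBA hCA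
    hCB hDA hDB hDC hE hW hV hS hP hZ hX hY hp hq Q0 R0 jL1 jw
  have iw41 := d5w41 na nb nc nd nA nB nC nD nBA nCA nCB nDA nDB nDC nE nZ hA hB hC hD hBA hCA
    hCB hDA hDB hDC hE hW hV hS hP hZ hX hY hp hq Q0 R0 jM1 jw
  have iu42 := d5u42 na nb nc nd nA nB nC nD nBA nCA nCB nDA nDB nDC nE nZ hA hB hC hD hBA hCA
    hCB hDA hDB hDC hE hW hV hS hP hZ hX hY hp hq Q0 R0 jL2 jw
  have iw42 := d5w42 na nb nc nd nA nB nC nD nBA nCA nCB nDA nDB nDC nE nZ hA hB hC hD hBA hCA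
    hCB hDA hDB hDC hE hW hV hS hP hZ hX hY hp hq Q0 R0 jM2 jw
  have iu43 := d5u43 na nb nc nd nA nB nC nD nBA nCA nCB nDA nDB nDC nE nZ hA hB hC hD hBA hCA
    hCB hDA hDB hDC hE hW hV hS hP hZ hX hY hp hq Q0 R0 jL3 jo jw
  have iw43 := d5w43 na nb nc nd nA nB nC nD nBA nCA nCB nDA nDB nDC nE nZ hA hB hC hD hBA hCA
    hCB hDA hDB hDC hE hW hV hS hP hZ hX hY hp hq Q0 R0 jM3 jo jw
  have ix01 := d5x01 na nb nc nd nA nB nC nD nBA nCA nCB nDA nDB nDC nE nZ hA hB hC hD hBA hCA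
    hCB hDA hDB hDC hE hW hV hS hP hZ hX hY hp hq Q0 R0 js1 jK0 jG11
  have iy01 := d5y01 na nb nc nd nA nB nC nD nBA nCA nCB nDA nDB nDC nE nZ hA hB hC hD hBA hCA
    hCB hDA hDB hDC hE hW hV hS hP hZ hX hY hp hq Q0 R0 js1 jN0 jH11
  have ix11 := d5x11 na nb nc nd nA nB nC nD nBA nCA nCB nDA nDB nDC nE nZ hA hB hC hD hBA hCA
    hCB hDA hDB hDC hE hW hV hS hP hZ hX hY hp hq Q0 R0 js1 jK1 jG11 jG21 jH11
  have iy11 := d5y11 na nb nc nd nA nB nC nD nBA nCA nCB nDA nDB nDC nE nZ hA hB hC hD hBA hCA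
    hCB hDA hDB hDC hE hW hV hS hP hZ hX hY hp hq Q0 R0 js1 jN1 jG11 jH11 jH21
  have ix21 := d5x21 na nb nc nd nA nB nC nD nBA nCA nCB nDA nDB nDC nE nZ hA hB hC hD hBA hCA
    hCB hDA hDB hDC hE hW hV hS hP hZ hX hY hp hq Q0 R0 js1 jK2 jG21 jG31 jH21
  have iy21 := d5y21 na nb nc nd nA nB nC nD nBA nCA nCB nDA nDB nDC nE nZ hA hB hC hD hBA hCA
    hCB hDA hDB hDC hE hW hV hS hP hZ hX hY hp hq Q0 R0 js1 jN2 jG21 jH21 jH31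
  have ix31 := d5x31 na nb nc nd nA nB nC nD nBA nCA nCB nDA nDB nDC nE nZ hA hB hC hD hBA hCA
    hCB hDA hDB hDC hE hW hV hS hP hZ hX hY hp hq Q0 R0 js1 jK3 jG31 jH31 jw
  have iy31 := d5y31 na nb nc nd nA nB nC nD nBA nCA nCB nDA nDB nDC nE nZ hA hB hC hD hBA hCA
    hCB hDA hDB hDC hE hW hV hS hP hZ hX hY hp hq Q0 R0 js1 jN3 jG31 jH31 jw
  have ix02 := d5x02 na nb nc nd nA nB nC nD nBA nCA nCB nDA nDB nDC nE nZ hA hB hC hD hBA hCA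
    hCB hDA hDB hDC hE hW hV hS hP hZ hX hY hp hq Q0 R0 js2 jK0 jG12
  have iy02 := d5y02 na nb nc nd nA nB nC nD nBA nCA nCB nDA nDB nDC nE nZ hA hB hC hD hBA hCA
    hCB hDA hDB hDC hE hW hV hS hP hZ hX hY hp hq Q0 R0 js2 jN0 jH12
  have ix12 := d5x12 na nb nc nd nA nB nC nD nBA nCA nCB nDA nDB nDC nE nZ hA hB hC hD hBA hCA
    hCB hDA hDB hDC hE hW hV hS hP hZ hX hY hp hq Q0 R0 js2 jK1 jG12 jG22 jH12
  have iy12 := d5y12 na nb nc nd nA nB nC nD nBA nCA nCB nDA nDB nDC nE nZ hA hB hC hD hBA hCA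
    hCB hDA hDB hDC hE hW hV hS hP hZ hX hY hp hq Q0 R0 js2 jN1 jG12 jH12 jH22
  have ix22 := d5x22 na nb nc nd nA nB nC nD nBA nCA nCB nDA nDB nDC nE nZ hA hB hC hD hBA hCA
    hCB hDA hDB hDC hE hW hV hS hP hZ hX hY hp hq Q0 R0 js2 jK2 jG21 jG22 jH22
  have iy22 := d5y22 na nb nc nd nA nB nC nD nBA nCA nCB nDA nDB nDC nE nZ hA hB hC hD hBA hCA
    hCB hDA hDB hDC hE hW hV hS hP hZ hX hY hp hq Q0 R0 js2 jN2 jG22 jH21 jH22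
  have ix32 := d5x32 na nb nc nd nA nB nC nD nBA nCA nCB nDA nDB nDC nE nZ hA hB hC hD hBA hCA
    hCB hDA hDB hDC hE hW hV hS hP hZ hX hY hp hq Q0 R0 js2 jK3 jG21 jH21 jw
  have iy32 := d5y32 na nb nc nd nA nB nC nD nBA nCA nCB nDA nDB nDC nE nZ hA hB hC hD hBA hCA
    hCB hDA hDB hDC hE hW hV hS hP hZ hX hY hp hq Q0 R0 js2 jN3 jG21 jH21 jw
  have ix03 := d5x03 na nb nc nd nA nB nC nD nBA nCA nCB nDA nDB nDC nE nZ hA hB hC hD hBA hCA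
    hCB hDA hDB hDC hE hW hV hS hP hZ hX hY hp hq Q0 R0 js3 jK0 jG13
  have iy03 := d5y03 na nb nc nd nA nB nC nD nBA nCA nCB nDA nDB nDC nE nZ hA hB hC hD hBA hCA
    hCB hDA hDB hDC hE hW hV hS hP hZ hX hY hp hq Q0 R0 js3 jN0 jH13
  have ix13 := d5x13 na nb nc nd nA nB nC nD nBA nCA nCB nDA nDB nDC nE nZ hA hB hC hD hBA hCA
    hCB hDA hDB hDC hE hW hV hS hP hZ hX hY hp hq Q0 R0 js3 jK1 jG12 jG13 jH13
  have iy13 := d5y13 na nb nc nd nA nB nC nD nBA nCA nCB nDA nDB nDC nE nZ hA hB hC hD hBA hCA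
    hCB hDA hDB hDC hE hW hV hS hP hZ hX hY hp hq Q0 R0 js3 jN1 jG13 jH12 jH13
  have ix23 := d5x23 na nb nc nd nA nB nC nD nBA nCA nCB nDA nDB nDC nE nZ hA hB hC hD hBA hCA
    hCB hDA hDB hDC hE hW hV hS hP hZ hX hY hp hq Q0 R0 js3 jK2 jG11 jG12 jH12
  have iy23 := d5y23 na nb nc nd nA nB nC nD nBA nCA nCB nDA nDB nDC nE nZ hA hB hC hD hBA hCA
    hCB hDA hDB hDC hE hW hV hS hP hZ hX hY hp hq Q0 R0 js3 jN2 jG12 jH11 jH12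
  have ix33 := d5x33 na nb nc nd nA nB nC nD nBA nCA nCB nDA nDB nDC nE nZ hA hB hC hD hBA hCA
    hCB hDA hDB hDC hE hW hV hS hP hZ hX hY hp hq Q0 R0 js3 jK3 jG11 jH11 jw
  have iy33 := d5y33 na nb nc nd nA nB nC nD nBA nCA nCB nDA nDB nDC nE nZ hA hB hC hD hBA hCA
    hCB hDA hDB hDC hE hW hV hS hP hZ hX hY hp hq Q0 R0 js3 jN3 jG11 jH11 jw
  have ix04 := d5x04 na nb nc nd nA nB nC nD nBA nCA nCB nDA nDB nDC nE nZ hA hB hC hD hBA hCA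
    hCB hDA hDB hDC hE hW hV hS hP hZ hX hY hp hq Q0 R0 jK0 jo
  have iy04 := d5y04 na nb nc nd nA nB nC nD nBA nCA nCB nDA nDB nDC nE nZ hA hB hC hD hBA hCA
    hCB hDA hDB hDC hE hW hV hS hP hZ hX hY hp hq Q0 R0 jN0 jo
  have ix14 := d5x14 na nb nc nd nA nB nC nD nBA nCA nCB nDA nDB nDC nE nZ hA hB hC hD hBA hCA
    hCB hDA hDB hDC hE hW hV hS hP hZ hX hY hp hq Q0 R0 jK1 jo
  have iy14 := d5y14 na nb nc nd nA nB nC nD nBA nCA nCB nDA nDB nDC nE nZ hA hB hC hD hBA hCA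
    hCB hDA hDB hDC hE hW hV hS hP hZ hX hY hp hq Q0 R0 jN1 jo
  have ix24 := d5x24 na nb nc nd nA nB nC nD nBA nCA nCB nDA nDB nDC nE nZ hA hB hC hD hBA hCA
    hCB hDA hDB hDC hE hW hV hS hP hZ hX hY hp hq Q0 R0 jK2 jo
  have iy24 := d5y24 na nb nc nd nA nB nC nD nBA nCA nCB nDA nDB nDC nE nZ hA hB hC hD hBA hCA
    hCB hDA hDB hDC hE hW hV hS hP hZ hX hY hp hq Q0 R0 jN2 jo
  have ix34 := d5x34 na nb nc nd nA nB nC nD nBA nCA nCB nDA nDB nDC nE nZ hA hB hC hD hBA hCA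
    hCB hDA hDB hDC hE hW hV hS hP hZ hX hY hp hq Q0 R0 jK3 jo jw
  have iy34 := d5y34 na nb nc nd nA nB nC nD nBA nCA nCB nDA nDB nDC nE nZ hA hB hC hD hBA hCA
    hCB hDA hDB hDC hE hW hV hS hP hZ hX hY hp hq Q0 R0 jN3 jo jw
  have ic1 := d5c1 na nb nc nd nA nB nC nD nBA nCA nCB nDA nDB nDC nE nZ hA hB hC hD hBA hCA hCB
    hDA hDB hDC hE hW hV hS hP hZ hX hY hp hq Q0 R0 jo
  have ie1 := d5e1 na nb nc nd nA nB nC nD nBA nCA nCB nDA nDB nDC nE nZ hA hB hC hD hBA hCA hCB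
    hDA hDB hDC hE hW hV hS hP hZ hX hY hp hq Q0 R0 js1 jw
  have ic2 := d5c2 na nb nc nd nA nB nC nD nBA nCA nCB nDA nDB nDC nE nZ hA hB hC hD hBA hCA hCB
    hDA hDB hDC hE hW hV hS hP hZ hX hY hp hq Q0 R0 jo
  have ie2 := d5e2 na nb nc nd nA nB nC nD nBA nCA nCB nDA nDB nDC nE nZ hA hB hC hD hBA hCA hCB
    hDA hDB hDC hE hW hV hS hP hZ hX hY hp hq Q0 R0 js2 jw
  have ic3 := d5c3 na nb nc nd nA nB nC nD nBA nCA nCB nDA nDB nDC nE nZ hA hB hC hD hBA hCA hCB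
    hDA hDB hDC hE hW hV hS hP hZ hX hY hp hq Q0 R0 jo
  have ie3 := d5e3 na nb nc nd nA nB nC nD nBA nCA nCB nDA nDB nDC nE nZ hA hB hC hD hBA hCA hCB
    hDA hDB hDC hE hW hV hS hP hZ hX hY hp hq Q0 R0 js3 jw
  have ic4 := d5c4 na nb nc nd nA nB nC nD nBA nCA nCB nDA nDB nDC nE nZ hA hB hC hD hBA hCA hCB
    hDA hDB hDC hE hW hV hS hP hZ hX hY hp hq Q0 R0 jo jw
  have ie4 := d5e4 na nb nc nd nA nB nC nD nBA nCA nCB nDA nDB nDC nE nZ hA hB hC hD hBA hCA hCB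
    hDA hDB hDC hE hW hV hS hP hZ hX hY hp hq Q0 R0 jo jw
  have in0 := d5n0 na nb nc nd nA nB nC nD nBA nCA nCB nDA nDB nDC nE nZ hA hB hC hD hBA hCA hCB
    hDA hDB hDC hE hW hV hS hP hZ hX hY hp hq Q0 R0 jL0 jM0
  have in1 := d5n1 na nb nc nd nA nB nC nD nBA nCA nCB nDA nDB nDC nE nZ hA hB hC hD hBA hCA hCB
    hDA hDB hDC hE hW hV hS hP hZ hX hY hp hq Q0 R0 jL1 jM1
  have in2 := d5n2 na nb nc nd nA nB nC nD nBA nCA nCB nDA nDB nDC nE nZ hA hB hC hD hBA hCA hCB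
    hDA hDB hDC hE hW hV hS hP hZ hX hY hp hq Q0 R0 jL2 jM2
  have in3 := d5n3 na nb nc nd nA nB nC nD nBA nCA nCB nDA nDB nDC nE nZ hA hB hC hD hBA hCA hCB
    hDA hDB hDC hE hW hV hS hP hZ hX hY hp hq Q0 R0 jL3 jM3
  have ik0 := d5k0 na nb nc nd nA nB nC nD nBA nCA nCB nDA nDB nDC nE nZ hA hB hC hD hBA hCA hCB
    hDA hDB hDC hE hW hV hS hP hZ hX hY hp hq Q0 R0 jK0 jN0
  have ik1 := d5k1 na nb nc nd nA nB nC nD nBA nCA nCB nDA nDB nDC nE nZ hA hB hC hD hBA hCA hCB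
    hDA hDB hDC hE hW hV hS hP hZ hX hY hp hq Q0 R0 jK1 jN1
  have ik2 := d5k2 na nb nc nd nA nB nC nD nBA nCA nCB nDA nDB nDC nE nZ hA hB hC hD hBA hCA hCB
    hDA hDB hDC hE hW hV hS hP hZ hX hY hp hq Q0 R0 jK2 jN2
  have ik3 := d5k3 na nb nc nd nA nB nC nD nBA nCA nCB nDA nDB nDC nE nZ hA hB hC hD hBA hCA hCB
    hDA hDB hDC hE hW hV hS hP hZ hX hY hp hq Q0 R0 jK3 jN3
  have nL0 : L0 ≠ 0 := by rw [jL0]; exact (div_ne_zero (mul_ne_zero nDC nW) (mul_ne_zero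
    (mul_ne_zero nc nD) nE))
  have nL1 : L1 ≠ 0 := by rw [jL1]; exact (div_ne_zero (mul_ne_zero (mul_ne_zero (mul_ne_zero nc
    nd) nCB) nDB) (mul_ne_zero (mul_ne_zero (pow_ne_zero 2 nb) nDC) nZ))
  have nL2 : L2 ≠ 0 := by rw [jL2]; exact (div_ne_zero (neg_ne_zero.2 (mul_ne_zero (mul_ne_zero
    (mul_ne_zero (mul_ne_zero nb nd) nBA) nCA) nDA)) (mul_ne_zero (mul_ne_zero (mul_ne_zero
    (pow_ne_zero 2 na) nCB) nDB) nZ))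
  have nL3 : L3 ≠ 0 := by rw [jL3]; exact (div_ne_zero (neg_ne_zero.2 (mul_ne_zero (mul_ne_zero
    (mul_ne_zero (mul_ne_zero (pow_ne_zero 2 na) nA) nB) nC) nV)) (mul_ne_zero (mul_ne_zero
    (mul_ne_zero nBA nCA) nDA) nE))
  have nM0 : M0 ≠ 0 := by rw [jM0]; exact (div_ne_zero (mul_ne_zero nDC nV) (mul_ne_zero nD nE))
  have nM1 : M1 ≠ 0 := by rw [jM1]; exact (div_ne_zero (mul_ne_zero (mul_ne_zero (mul_ne_zero na
    nd) nCB) nDB) (mul_ne_zero nDC nZ))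
  have nM2 : M2 ≠ 0 := by rw [jM2]; exact (div_ne_zero (neg_ne_zero.2 (mul_ne_zero (mul_ne_zero
    (mul_ne_zero (mul_ne_zero nc nd) nBA) nCA) nDA)) (mul_ne_zero (mul_ne_zero nCB nDB) nZ))
  have nM3 : M3 ≠ 0 := by rw [jM3]; exact (div_ne_zero (neg_ne_zero.2 (mul_ne_zero (mul_ne_zero
    (mul_ne_zero (mul_ne_zero nd nA) nB) nC) nW)) (mul_ne_zero (mul_ne_zero (mul_ne_zero nBA nCA)
    nDA) nE))
  have nK0 : K0 ≠ 0 := by rw [jK0]; exact (div_ne_zero (mul_ne_zero nA nW) (mul_ne_zero nD nE))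
  have nK1 : K1 ≠ 0 := by rw [jK1]; exact (div_ne_zero (mul_ne_zero (mul_ne_zero nc nB) nBA)
    (mul_ne_zero nA nZ))
  have nK2 : K2 ≠ 0 := by rw [jK2]; exact (div_ne_zero (neg_ne_zero.2 (mul_ne_zero (mul_ne_zero
    (mul_ne_zero na nC) nCA) nCB)) (mul_ne_zero (mul_ne_zero nB nBA) nZ))
  have nK3 : K3 ≠ 0 := by rw [jK3]; exact (div_ne_zero (neg_ne_zero.2 (mul_ne_zero (mul_ne_zero
    (mul_ne_zero nDA nDB) nDC) nV)) (mul_ne_zero (mul_ne_zero (mul_ne_zero (mul_ne_zero nd nC)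
    nCA) nCB) nE))
  have nN0 : N0 ≠ 0 := by rw [jN0]; exact (div_ne_zero (mul_ne_zero (mul_ne_zero nd nA) nV)
    (mul_ne_zero (mul_ne_zero na nD) nE))
  have nN1 : N1 ≠ 0 := by rw [jN1]; exact (div_ne_zero (mul_ne_zero (mul_ne_zero (mul_ne_zero na
    (pow_ne_zero 2 nd)) nB) nBA) (mul_ne_zero (mul_ne_zero (pow_ne_zero 2 nb) nA) nZ))
  have nN2 : N2 ≠ 0 := by rw [jN2]; exact (div_ne_zero (neg_ne_zero.2 (mul_ne_zero (mul_ne_zero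
    (mul_ne_zero (mul_ne_zero nb (pow_ne_zero 2 nd)) nC) nCA) nCB)) (mul_ne_zero (mul_ne_zero
    (mul_ne_zero (pow_ne_zero 2 nc) nB) nBA) nZ))
  have nN3 : N3 ≠ 0 := by rw [jN3]; exact (div_ne_zero (neg_ne_zero.2 (mul_ne_zero (mul_ne_zero
    (mul_ne_zero (mul_ne_zero (pow_ne_zero 2 nc) nDA) nDB) nDC) nW)) (mul_ne_zero (mul_ne_zero
    (mul_ne_zero (mul_ne_zero (pow_ne_zero 2 nd) nC) nCA) nCB) nE))
  have on0 : 1 - L0 - M0 ≠ 0 := by rw [in0]; exact (div_ne_zero (mul_ne_zero (mul_ne_zero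
    (mul_ne_zero (mul_ne_zero nP (pow_ne_zero 2 nd)) nC) nCA) nCB) (mul_ne_zero (mul_ne_zero
    (mul_ne_zero (mul_ne_zero nc nD) nE) nDA) nDB))
  have on1 : 1 - L1 - M1 ≠ 0 := by rw [in1]; exact (div_ne_zero (mul_ne_zero (mul_ne_zero
    (mul_ne_zero (mul_ne_zero nc nB) nBA) nDB) nY) (mul_ne_zero (mul_ne_zero (mul_ne_zero
    (mul_ne_zero (pow_ne_zero 2 nb) nC) nCA) nDC) nZ))
  have on2 : 1 - L2 - M2 ≠ 0 := by rw [in2]; exact (div_ne_zero (mul_ne_zero (mul_ne_zero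
    (mul_ne_zero (mul_ne_zero nb nA) nCA) nDA) nX) (mul_ne_zero (mul_ne_zero (mul_ne_zero
    (mul_ne_zero (pow_ne_zero 2 na) nB) nCB) nDB) nZ))
  have on3 : 1 - L3 - M3 ≠ 0 := by rw [in3]; exact (div_ne_zero (mul_ne_zero (mul_ne_zero
    (mul_ne_zero (mul_ne_zero (pow_ne_zero 2 na) nB) nC) nD) nS) (mul_ne_zero (mul_ne_zero
    (mul_ne_zero nBA nCA) nDA) nE))
  have ok0 : 1 - K0 - N0 ≠ 0 := by rw [ik0]; exact (div_ne_zero (mul_ne_zero (mul_ne_zero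
    (mul_ne_zero nBA nCA) nDA) nS) (mul_ne_zero (mul_ne_zero (mul_ne_zero (mul_ne_zero na nB) nC)
    nD) nE))
  have ok1 : 1 - K1 - N1 ≠ 0 := by rw [ik1]; exact (div_ne_zero (mul_ne_zero (mul_ne_zero
    (mul_ne_zero (mul_ne_zero na nB) nCB) nDB) nX) (mul_ne_zero (mul_ne_zero (mul_ne_zero
    (mul_ne_zero (pow_ne_zero 2 nb) nA) nCA) nDA) nZ))
  have ok2 : 1 - K2 - N2 ≠ 0 := by rw [ik2]; exact (div_ne_zero (mul_ne_zero (mul_ne_zero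
    (mul_ne_zero (mul_ne_zero nb nC) nCA) nDC) nY) (mul_ne_zero (mul_ne_zero (mul_ne_zero
    (mul_ne_zero (pow_ne_zero 2 nc) nB) nBA) nDB) nZ))
  have ok3 : 1 - K3 - N3 ≠ 0 := by rw [ik3]; exact (div_ne_zero (mul_ne_zero (mul_ne_zero
    (mul_ne_zero (mul_ne_zero (pow_ne_zero 2 nc) nD) nDA) nDB) nP) (mul_ne_zero (mul_ne_zero
    (mul_ne_zero (mul_ne_zero nd nC) nCA) nCB) nE))
  have z1 : s1 ≠ 0 := by rw [js1]; exact div_ne_zero nd nc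
  have z2 : s2 ≠ 0 := by rw [js2]; exact div_ne_zero nd nb
  have z3 : s3 ≠ 0 := by rw [js3]; exact div_ne_zero nd na
  have q1 : s1 * c = d := by rw [js1]; exact div_mul_cancel₀ _ nc
  have q2 : s2 * b = d := by rw [js2]; exact div_mul_cancel₀ _ nb
  have q3 : s3 * a = d := by rw [js3]; exact div_mul_cancel₀ _ na
  have e01 : (1 : F) ≠ s1 := fun h => nDC' (by linear_combination -q1 - c * h)
  have e02 : (1 : F) ≠ s2 := fun h => nDB' (by linear_combination -q2 - b * h)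
  have e12 : s1 ≠ s2 := fun h => mul_ne_zero nd nCB' (by
    linear_combination b * q1 - b * c * h - c * q2)
  have e03 : (1 : F) ≠ s3 := fun h => nDA' (by linear_combination -q3 - a * h)
  have e13 : s1 ≠ s3 := fun h => mul_ne_zero nd nCA' (by
    linear_combination a * q1 - a * c * h - c * q3)
  have e23 : s2 ≠ s3 := fun h => mul_ne_zero nd nBA' (by
    linear_combination a * q2 - a * b * h - b * q3)
  have e04 : (1 : F) ≠ d := fun h => nD' (by linear_combination -h)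
  have e14 : s1 ≠ d := fun h => mul_ne_zero nd nC' (by linear_combination q1 - c * h)
  have e24 : s2 ≠ d := fun h => mul_ne_zero nd nB' (by linear_combination q2 - b * h)
  have e34 : s3 ≠ d := fun h => mul_ne_zero nd nA' (by linear_combination q3 - a * h)
  have d01 : (1 : F) ≠ a := fun h => nA' (by linear_combination -h)
  have d02 : (1 : F) ≠ b := fun h => nB' (by linear_combination -h)
  have d12 : a ≠ b := fun h => nBA' (by linear_combination -h)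
  have d03 : (1 : F) ≠ c := fun h => nC' (by linear_combination -h)
  have d13 : a ≠ c := fun h => nCA' (by linear_combination -h)
  have d23 : b ≠ c := fun h => nCB' (by linear_combination -h)
  have d14 : a ≠ d := fun h => nDA' (by linear_combination -h)
  have d24 : b ≠ d := fun h => nDB' (by linear_combination -h)
  have d34 : c ≠ d := fun h => nDC' (by linear_combination -h)
  obtain ⟨g, g1, g2, g3, g4⟩ := mk4_gen (t1 := a) (t2 := b) (t3 := c) (t4 := d)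
    (s1 := s1) (s2 := s2) (s3 := s3) (s4 := d)
    (L0 := L0) (L1 := L1) (L2 := L2) (L3 := L3) (M0 := M0) (M1 := M1) (M2 := M2) (M3 := M3)
    (K0 := K0) (K1 := K1) (K2 := K2) (K3 := K3) (N0 := N0) (N1 := N1) (N2 := N2) (N3 := N3)
    (G11 := G11) (H11 := H11) (G12 := G12) (H12 := H12) (G13 := G13) (H13 := H13) (G14 := (a ^ 2 *
    o)) (H14 := (o / a)) (G21 := G21) (H21 := H21) (G22 := G22) (H22 := H22) (G23 := (b * p * G12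
    / a ^ 2)) (H23 := (a * p * H12 / b ^ 2)) (G24 := (b * o * p)) (H24 := (o * p / b ^ 2)) (G31 :=
    G31) (H31 := H31) (G32 := (c * q * G21 / b ^ 2)) (H32 := (b * q * H21 / c ^ 2)) (G33 := (c * p
    * q * G11 / (a ^ 2 * b))) (H33 := (a * p * q * H11 / (b * c ^ 2))) (G34 := (c * o * p * q /
    b)) (H34 := (o * p * q / (b * c ^ 2))) (G41 := (d ^ 2 * w / c)) (H41 := (c ^ 2 * w / d)) (G42
    := (d ^ 2 * w * q / b ^ 2)) (H42 := (b * w * q / d)) (G43 := (d ^ 2 * w * p * q / (a ^ 2 *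
    b))) (H43 := (a * w * p * q / (b * d))) (G44 := (d ^ 2 * o * w * p * q / b)) (H44 := (o * w *
    p * q / (b * d)))
    na nb nc nd z1 z2 z3 nd
    d01 d02 d12 d03 d13 d23 e04 d14 d24 d34
    e01 e02 e12 e03 e13 e23 e04 e14 e24 e34
    nL0 nM0 on0 nL1 nM1 on1 nL2 nM2 on2 nL3 nM3 on3
    nK0 nN0 ok0 nK1 nN1 ok1 nK2 nN2 ok2 nK3 nN3 ok3
    iu10 iw10 iu11 iw11 iu12 iw12 iu13 iw13 iu20 iw20 iu21 iw21 iu22 iw22 iu23 iw23 iu30 iw30 iu31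
    iw31 iu32 iw32 iu33 iw33 iu40 iw40 iu41 iw41 iu42 iw42 iu43 iw43 ix01 iy01 ix11 iy11 ix21 iy21
    ix31 iy31 ix02 iy02 ix12 iy12 ix22 iy22 ix32 iy32 ix03 iy03 ix13 iy13 ix23 iy23 ix33 iy33 ix04
    iy04 ix14 iy14 ix24 iy24 ix34 iy34
    ic1 ic2 ic3 ic4 ie1 ie2 ie3 ie4
  refine ⟨g, g1, g2, ?_, ?_⟩
  · rw [g3, js1, js2, js3]
  · rw [g4, jL0, jL1, jL2, jL3, hA, hB, hC, hD, hBA, hCA, hCB, hDA, hDB, hDC, hE, hW, hV, hZ]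

end Pool.Agent.Helper76.IP
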