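import Mathlib

/-!
TH-P, N branch, `kap_1^(2) = 0`: the pure algebra.
`t = t_1, T = t_2, u = s_1, S = s_2, s = s_3 = t v, x = 1 - lam'_0, x' = mu'_0, p = G(1,2)`.
-/

namespace Pool.Agent.Helper76.IP

variable {F : Type*} [Field F]

private theorem cancel {a b : F} (ha : a ≠ 0) (h : a * b = 0) : b = 0 :=
  (mul_eq_zero.1 h).resolve_left ha

/-- row 1 at the degenerate column 2 -/
theorem k2_row {t S s x y p : F} (hS : S ≠ 0)
    (hsS : s - S ≠ 0) (hx : x ≠ 0)
    (r2 : p = 1 - x + x * S) (r3 : t * p = 1 - x + x * s)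
    (q2 : S * p = t * ((1 - y) * S + y)) (q3 : s * p = t ^ 2 * ((1 - y) * s + y)) :
    S * s * x = t ^ 2 * y ∧ x * (s - t * S + t - 1) = t - 1 ∧ x * (s * S - 1) = t ^ 2 - 1 ∧
      S * s - (t + 1) * s + t * (t + 1) * S - t ^ 2 = 0 := by
  have c1 : (t - 1) * p = x * (s - S) := by linear_combination r3 - r2
  have c2 : x * (s - t * S + t - 1) = t - 1 := by
    linear_combination (t - 1) * r2 - c1
  have c3 : S * s * x = t ^ 2 * y := by
    refine sub_eq_zero.1 (cancel hsS ?_)
    linear_combination (-(S * s)) * c1 + t * s * q2 - S * q3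
  have c5 : x * (s * S - 1) = t ^ 2 - 1 := by
    refine sub_eq_zero.1 (cancel hS ?_)
    linear_combination t * q2 - S * r3 + (S - 1) * c3
  refine ⟨c3, c2, c5, ?_⟩
  refine cancel hx ?_
  linear_combination c5 - (t + 1) * c2

/-- the coordinates `v = s_3/t_1` -/
theorem k2_v {t S v x y : F} (ht : t ≠ 0) (ht1 : t - 1 ≠ 0)
    (c3 : S * (t * v) * x = t ^ 2 * y) (c2 : x * (t * v - t * S + t - 1) = t - 1)
    (c4 : S * (t * v) - (t + 1) * (t * v) + t * (t + 1) * S - t ^ 2 = 0) :
    t * (v + 1 - S) = S * (v + 1) - v ∧ x * ((S - 1) * (v + 1)) = t - 1 ∧ t * y = S * v * x ∧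
      (1 - x) * ((S - 1) * (v + 1)) = t * (v - S) ∧ 1 - x = t ^ 2 * (1 - y) := by
  have R : t * (v + 1 - S) = S * (v + 1) - v := by
    refine sub_eq_zero.1 (cancel ht ?_)
    linear_combination -c4
  have hx1 : x * ((S - 1) * (v + 1)) = t - 1 := by
    linear_combination c2 - x * R
  have hy : t * y = S * v * x := by
    refine sub_eq_zero.1 (cancel ht ?_)
    linear_combination -c3
  have h1x : (1 - x) * ((S - 1) * (v + 1)) = t * (v - S) := by
    linear_combination -hx1 - R
  refine ⟨R, hx1, hy, h1x, ?_⟩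
  have hK : (S - 1) * (v + 1) ≠ 0 := by
    intro h
    rw [h, mul_zero] at hx1
    exact ht1 hx1.symm
  refine sub_eq_zero.1 (cancel hK ?_)
  linear_combination h1x + t * ((S - 1) * (v + 1)) * hy + t * S * v * hx1 + t * R

/-- `S = v T` -/
theorem k2_T {t T u S v x y : F} (ht : t ≠ 0) (hx : x ≠ 0) (huS : u - S ≠ 0)
    (R : t * (v + 1 - S) = S * (v + 1) - v) (hx1 : x * ((S - 1) * (v + 1)) = t - 1)
    (hy : t * y = S * v * x)
    (hn1 : (S * t - T) * (x - t * y + t - 1) = (S - 1) * (t * T * x - t * y))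
    (hn2 : (T * u - S) * (x - t * y + t - 1) = (T - 1) * (u * S * x - t * y)) : S = v * T := by
  have hW : x - t * y + t - 1 = x * (S - v) := by
    linear_combination -hy - hx1
  rw [hW, hy] at hn1 hn2
  have h1 : (S * t - T) * (S - v) = (S - 1) * (t * T - S * v) := by
    refine sub_eq_zero.1 (cancel hx ?_)
    linear_combination hn1
  have h2 : (T * u - S) * (S - v) = (T - 1) * (u * S - S * v) := by
    refine sub_eq_zero.1 (cancel hx ?_)
    linear_combination hn2
  have h3 : (S - t) * (v * T - S) = 0 := by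
    linear_combination h1 - (T - S) * R
  by_cases hSt : S - t = 0
  · have hS : S = t := sub_eq_zero.1 hSt
    subst hS
    have hv : v = S ^ 2 := by linear_combination R
    subst hv
    have h4 : S * (u - S) * (1 - T * S) = 0 := by
      linear_combination h2
    have h5 := cancel (mul_ne_zero ht huS) h4
    linear_combination S * h5
  · exact (sub_eq_zero.1 (cancel hSt h3)).symm

/-- `al` -/
theorem k2_al {t T u S v x y al G11 H11 G21 : F} (hu1 : u - 1 ≠ 0)
    (hx : x ≠ 0) (ht : t ≠ 0)
    (hx1 : x * ((S - 1) * (v + 1)) = t - 1)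
    (hy : t * y = S * v * x) (h1x : (1 - x) * ((S - 1) * (v + 1)) = t * (v - S))
    (h1y : 1 - x = t ^ 2 * (1 - y))
    (r11 : G11 = 1 - x + x * u) (q11 : u * H11 = (1 - y) * u + y)
    (c21 : (t - 1) * (G21 - 1) = x * (u - 1) * (T - 1))
    (p21 : G21 = u * (al * G11 + (1 - al) * H11)) :
    (t - 1) * (al * (u * x + y)) = x * (T - 1) - (t - 1) * (1 - y) ∧
    al * (t - 1) * (u * t + v * S) = t * T - t + S - v := by
  have e1 : (t - 1) * (al * (u * x + y)) = x * (T - 1) - (t - 1) * (1 - y) := by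
    refine sub_eq_zero.1 (cancel hu1 ?_)
    linear_combination c21 - (t - 1) * p21 - (t - 1) * u * al * r11 - (t - 1) * (1 - al) * q11
  refine ⟨e1, ?_⟩
  have e2 : t * (1 - y) * (t - 1) = x * (v - S) := by
    refine sub_eq_zero.1 (cancel ht ?_)
    linear_combination x * h1x - (1 - x) * hx1 - (t - 1) * h1y
  refine sub_eq_zero.1 (cancel hx ?_)
  linear_combination t * e1 - al * (t - 1) * hy - e2

/-- `de = u t v al` -/
theorem k2_de {t T u S v x y al de G11 H11 H21 : F} (ht1 : t - 1 ≠ 0) (hu1 : u - 1 ≠ 0)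
    (hx : x ≠ 0) (ht : t ≠ 0) (hT : T ≠ 0) (hS : S = v * T) (hw : u * t + v * S ≠ 0)
    (hx1 : x * ((S - 1) * (v + 1)) = t - 1)
    (hy : t * y = S * v * x) (h1x : (1 - x) * ((S - 1) * (v + 1)) = t * (v - S))
    (hal : al * (t - 1) * (u * t + v * S) = t * T - t + S - v)
    (r11 : G11 = 1 - x + x * u) (q11 : u * H11 = (1 - y) * u + y)
    (c21 : (t - 1) * (u * T * H21) = (t - 1) * (u * T) - t * y * (u - 1) * (T - 1))
    (p21 : u * H21 = (1 - de) * G11 + de * H11) :
    de * (t - 1) * (u * t + v * S) = u * t * (v * (T - 1) * v - t * (v - S)) ∧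
      de = u * t * v * al := by
  have e1 : (t - 1) * T * (de * (u * x + y)) = u * t * y * (T - 1) - (t - 1) * T * u * (1 - x) := by
    refine sub_eq_zero.1 (cancel hu1 ?_)
    linear_combination (t - 1) * T * u * p21 - u * c21 + (t - 1) * T * (1 - de) * u * r11
      + (t - 1) * T * de * q11
  have e2 : (t - 1) * (1 - x) = x * (t * (v - S)) := by
    linear_combination x * h1x - (1 - x) * hx1
  have e3 : de * (t - 1) * (u * t + v * S) = u * t * (v * (T - 1) * v - t * (v - S)) := by
    refine sub_eq_zero.1 (cancel (mul_ne_zero hx hT) ?_)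
    linear_combination t * e1 - (t - 1) * T * de * hy + u * t * (T - 1) * hy - t * T * u * e2
      + u * t * (T - 1) * x * v * hS
  refine ⟨e3, ?_⟩
  refine sub_eq_zero.1 (cancel (mul_ne_zero ht1 hw) ?_)
  linear_combination e3 - u * t * v * hal + u * t * (t - v) * hS

/-- column 2 is never closed: `kap_2^(2) ≠ 0` -/
theorem k2_kap22 {t T u S v al de p G22 H22 H12 : F} (ht : t ≠ 0) (hT : T ≠ 0)
    (hS : S = v * T) (hp : p ≠ 0)
    (R : t * (v + 1 - S) = S * (v + 1) - v)
    (hal : al * (t - 1) * (u * t + v * S) = t * T - t + S - v)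
    (hde : de = u * t * v * al) (h12 : t * H12 = p)
    (p22 : G22 = S * (al * p + (1 - al) * H12)) (q22 : S * H22 = (1 - de) * p + de * H12)
    (h : T * G22 - T ^ 2 * H22 = 0) : (v - 1) * (S - v) * (u - S) = 0 := by
  have e1 : G22 = T * H22 := by
    refine sub_eq_zero.1 (cancel hT ?_)
    linear_combination h
  have e2 : t * G22 = S * p * ((t - 1) * al + 1) := by
    linear_combination t * p22 + S * (1 - al) * h12
  have e3 : t * (S * H22) = p * (t - (t - 1) * de) := by
    linear_combination t * q22 + de * h12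
  have e4 : S ^ 2 * ((t - 1) * al + 1) = T * (t - (t - 1) * de) := by
    refine sub_eq_zero.1 (cancel hp ?_)
    linear_combination -S * e2 + t * S * e1 + T * e3
  subst hS
  refine cancel (mul_ne_zero ht hT) ?_
  linear_combination (u * t + v * (v * T)) * e4 - ((v * T) ^ 2 + T * u * t * v) * hal
    - T * (t - 1) * (u * t + v * (v * T)) * hde + T * (u * t + v * (v * T)) * R

/-- the step out of a column with `D_1^(k) = 0` and the exceptional relations -/
theorem flatD_alg {s s' t T X Y lam mu p p' v v' g g' e e' be de x y : F}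
    (ht1 : t - 1 ≠ 0) (hT : T ≠ 0) (hp : p ≠ 0)
    (a1 : p = 1 - x + x * s) (a2 : s * p = X * ((1 - y) * s + y)) (hv : X * v = p)
    (b1 : p' = 1 - x + x * s') (b2 : s' * v' = (1 - y) * s' + y)
    (a3 : g = s * ((1 - be) * p + be * v)) (a4 : s * e = Y * ((1 - de) * p + de * v))
    (b3 : g' = s' * ((1 - be) * p' + be * v')) (b4 : s' * e' = Y * ((1 - de) * p' + de * v'))
    (U1 : p' = (1 - lam) * (t * p) + lam * p)
    (U1' : t * (X * v') = (1 - mu) * (t * p) + mu * p)
    (U2 : g' = (1 - lam) * (T * g) + lam * e)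
    (U2' : T * e' = (1 - mu) * (T * g) + mu * e)
    (E1 : p * (T - 1) = (1 - x) * (T - t))
    (E2 : t * p * (T - 1) = X * (1 - y) * (T - t)) :
    (s' - s) * (s' + T * s) * ((1 - be) * (s * s' * X) - de * Y) = 0 := by
  have hA : (t - 1) * p * g' = T * g * (p' - p) + e * (t * p - p') := by
    linear_combination (t - 1) * p * U2 - (T * g - e) * U1
  have hB : (t - 1) * p * (T * e') = T * g * (t * (X * v') - p) + e * (t * p - t * (X * v')) := by
    linear_combination (t - 1) * p * U2' - (T * g - e) * U1'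
  have hx : (T - t) * (x * s) = (1 - t) * p := by
    linear_combination E1 - (T - t) * a1
  have hy : (T - t) * (X * y) = s * p * T * (1 - t) := by
    linear_combination (-(T - t)) * a2 + s * E2
  have hp' : (T - t) * s * p' = p * ((T - 1) * s - (t - 1) * s') := by
    linear_combination (T - t) * s * (b1 - a1) + (s' - s) * hx
  have hv' : (T - t) * (X * (s' * v')) = p * (t * (T - 1) * s' - T * (t - 1) * s) := by
    linear_combination (T - t) * X * b2 - s' * E2 + hy
  have A1 : (T - t) * s * g' = e * ((T - t) * s + (s' - s)) - T * g * (s' - s) := by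
    refine sub_eq_zero.1 (cancel (mul_ne_zero ht1 hp) ?_)
    linear_combination (T - t) * s * hA + (T * g - e) * hp'
  have B1 : (T - t) * (s' * e') = g * (t * T * (s' - s) + (T - t) * s') - e * t * (s' - s) := by
    refine sub_eq_zero.1 (cancel (mul_ne_zero (mul_ne_zero hT ht1) hp) ?_)
    linear_combination (T - t) * s' * hB + (T * g - e) * t * hv'
  have hg : X * g = s * p * ((1 - be) * X + be) := by
    linear_combination X * a3 + s * be * hv
  have he : X * (s * e) = Y * p * ((1 - de) * X + de) := by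
    linear_combination X * a4 + Y * de * hv
  have A2 : (1 - be) * X * s * s' * ((T - 1) * s - (t - 1) * s')
      + be * s ^ 2 * (t * (T - 1) * s' - T * (t - 1) * s)
      = Y * ((1 - de) * X + de) * ((T - t) * s + (s' - s))
        - T * s ^ 2 * ((1 - be) * X + be) * (s' - s) := by
    refine sub_eq_zero.1 (cancel hp ?_)
    linear_combination X * s * A1 - X * s * (T - t) * s * b3 - (1 - be) * X * s * s' * hp'
      - be * s ^ 2 * hv' + ((T - t) * s + (s' - s)) * he - T * s * (s' - s) * hg
  have B2 : Y * ((1 - de) * X * s' * ((T - 1) * s - (t - 1) * s')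
      + de * s * (t * (T - 1) * s' - T * (t - 1) * s))
      = s ^ 2 * s' * ((1 - be) * X + be) * (t * T * (s' - s) + (T - t) * s')
        - s' * Y * ((1 - de) * X + de) * t * (s' - s) := by
    refine sub_eq_zero.1 (cancel hp ?_)
    linear_combination X * s * s' * B1 - X * s * s' * (T - t) * b4 - (1 - de) * Y * X * s' * hp'
      - de * Y * s * hv' + s * s' * (t * T * (s' - s) + (T - t) * s') * hg - s' * t * (s' - s) * he
  refine cancel ht1 ?_
  linear_combination -(s' * A2 + B2)

/-- `kap_1^(4) = 0` gives `s_4 = s_2` -/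
theorem k2_kap14 {t S v x y s4 s5 p4 : F} (ht : t ≠ 0) (hS : S ≠ 0) (hx : x ≠ 0)
    (hvS : v - S ≠ 0) (h54 : s5 - s4 ≠ 0) (h43 : s4 - t * v ≠ 0)
    (e2 : (t - 1) * (1 - x) = x * (t * (v - S))) (h1y : 1 - x = t ^ 2 * (1 - y))
    (hy : t * y = S * v * x)
    (q3 : t * v * (1 - x + x * (t * v)) = t ^ 3 * ((1 - y) * (t * v) + y))
    (r4 : p4 = 1 - x + x * s4) (q4 : s4 * p4 = t ^ 3 * ((1 - y) * s4 + y))
    (r5 : t * p4 = 1 - x + x * s5) (q5 : s5 * p4 = t ^ 4 * ((1 - y) * s5 + y)) : s4 = S := by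
  have hsum : x * (t * v + s4) = (t - 1) * (1 - x) := by
    refine sub_eq_zero.1 (cancel h43 ?_)
    linear_combination q4 - s4 * r4 - q3 + t * (s4 - t * v) * (-1) * h1y
  have h4 : s4 = -(t * S) := by
    refine sub_eq_zero.1 (cancel hx ?_)
    linear_combination hsum + e2
  have h5 : s5 = t * (v - S) + t * s4 := by
    refine sub_eq_zero.1 (cancel hx ?_)
    linear_combination t * r4 - r5 + e2
  have c1 : (t - 1) * p4 = x * (s5 - s4) := by linear_combination r5 - r4
  have c3 : s4 * s5 * x = t ^ 4 * y := by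
    refine sub_eq_zero.1 (cancel h54 ?_)
    linear_combination (-(s4 * s5)) * c1 + t * s5 * q4 - s4 * q5
  have h6 : (v - S) * (t + 1) = 0 := by
    refine cancel (mul_ne_zero (mul_ne_zero hx hS) (pow_ne_zero 2 ht)) ?_
    rw [h5, h4] at c3
    linear_combination -c3 - t ^ 3 * hy
  have h7 : t = -1 := by linear_combination cancel hvS h6
  rw [h4, h7]
  ring

end Pool.Agent.Helper76.IP
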