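import Pool.Agent.Helper76.IP.K2Alg
import Pool.Agent.Helper54.IP.GSwap
import Pool.Agent.Helper14.IP.Deg

/-!
TH-P, N branch, the case `kap_1^(2) = 0` (K2): coordinates `v = s_2/t_2`, formulas, `kap_2^(2) ≠ 0`,
`kap_1^(4) ≠ 0`, `s_4 = s_1 (t_2/t_1)^3`.
-/

namespace Pool.Agent.Helper76.IP

open Pool.Agent.Helper54.IP

variable {F : Type*} [Field F] {m : ℕ}

/-- K2: the formulas -/
theorem k2_base (g : GForm F m) (hm : 3 ≤ m) (hD : g.G 1 1 ≠ g.H 1 1)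
    (hn1 : (g.s 2 * g.t 1 - g.t 2) * ((1 - g.lam' 0) - g.t 1 * g.mu' 0 + g.t 1 - 1) =
        (g.s 2 - 1) * (g.t 1 * g.t 2 * (1 - g.lam' 0) - g.t 1 * g.mu' 0))
    (hn2 : (g.t 2 * g.s 1 - g.s 2) * ((1 - g.lam' 0) - g.t 1 * g.mu' 0 + g.t 1 - 1) =
        (g.t 2 - 1) * (g.s 1 * g.s 2 * (1 - g.lam' 0) - g.t 1 * g.mu' 0))
    (hk : g.kap 1 2 = 0) :
    ∃ v : F, v ≠ 0 ∧ v + 1 ≠ 0 ∧ g.s 2 = v * g.t 2 ∧ g.s 3 = g.t 1 * v ∧
      g.t 1 * (v + 1 - g.s 2) = g.s 2 * (v + 1) - v ∧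
      (1 - g.lam' 0) * ((g.s 2 - 1) * (v + 1)) = g.t 1 - 1 ∧
      g.t 1 * g.mu' 0 = g.s 2 * v * (1 - g.lam' 0) ∧
      g.lam' 0 * ((g.s 2 - 1) * (v + 1)) = g.t 1 * (v - g.s 2) ∧
      g.lam' 0 = g.t 1 ^ 2 * (1 - g.mu' 0) ∧
      g.G 1 2 * (v + 1) = v + g.t 1 ∧
      g.G 1 2 = g.t 1 * g.H 1 2 ∧ g.G 1 3 = g.t 1 * g.G 1 2 ∧ g.G 1 3 = g.t 1 ^ 3 * g.H 1 3 ∧
      g.s 1 * g.t 1 + v * g.s 2 ≠ 0 ∧
      (1 - g.lam' 1) * (g.t 1 - 1) * (g.s 1 * g.t 1 + v * g.s 2) = (g.t 1 + v) * (g.t 2 - 1) ∧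
      g.mu' 1 = g.s 1 * g.t 1 * v * (1 - g.lam' 1) := by
  have ht := g.t_ne 1 (by omega)
  have hT := g.t_ne 2 (by omega)
  have hs1 := g.s_ne 1 (by omega)
  have hs2 := g.s_ne 2 (by omega)
  have hs3 := g.s_ne 3 (by omega)
  have ht1 : g.t 1 - 1 ≠ 0 := by
    rw [← g.t0]; exact sub_ne_zero.mpr (g.t_inj 0 1 (by omega) (by omega)).symm
  have hu1 : g.s 1 - 1 ≠ 0 := by
    rw [← g.s0]; exact sub_ne_zero.mpr (g.s_inj 0 1 (by omega) (by omega)).symm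
  have h32 : g.s 3 - g.s 2 ≠ 0 := sub_ne_zero.mpr (g.s_inj 2 3 (by omega) (by omega)).symm
  have h12 : g.s 1 - g.s 2 ≠ 0 := sub_ne_zero.mpr (g.s_inj 1 2 (by omega) (by omega))
  have hx : 1 - g.lam' 0 ≠ 0 := sub_ne_zero.mpr (g.lam'_ne 0 (by omega)).symm
  obtain ⟨e1, e2⟩ := Pool.Agent.Helper14.IP.deg_step g (k := 2) (by omega) hk
  have hk' : g.G 1 2 = g.t 1 * g.H 1 2 := by
    rw [GForm.kap] at hk
    apply mul_left_cancel₀ ht
    linear_combination hk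
  have hG13 : g.G 1 3 = g.t 1 ^ 3 * g.H 1 3 := by
    rw [e1, hk']
    linear_combination (-g.t 1 ^ 2) * e2
  have r1 := g.row1G (k := 1) (by omega) (by omega)
  have q1 := g.row1H (k := 1) (by omega) (by omega)
  have r2 := g.row1G (k := 2) (by omega) (by omega)
  have q2 := g.row1H (k := 2) (by omega) (by omega)
  have r3 := g.row1G (k := 3) (by omega) (by omega)
  have q3 := g.row1H (k := 3) (by omega) (by omega)
  obtain ⟨c3, c2, -, c4⟩ := k2_row (t := g.t 1) (S := g.s 2) (s := g.s 3) (x := 1 - g.lam' 0)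
    (y := g.mu' 0) (p := g.G 1 2) hs2 h32 hx (by linear_combination r2)
    (by rw [← e1]; linear_combination r3) (by rw [hk']; linear_combination g.t 1 * q2)
    (by
      rw [hk']
      linear_combination g.t 1 ^ 2 * q3 - g.s 3 * g.t 1 * e2)
  obtain ⟨v, hv⟩ : ∃ v : F, g.s 3 = g.t 1 * v := ⟨g.s 3 / g.t 1, by field_simp⟩
  have hv0 : v ≠ 0 := by
    rintro rfl
    rw [mul_zero] at hv
    exact hs3 hv
  rw [hv] at c2 c3 c4
  obtain ⟨R, hx1, hy, h1x, h1y⟩ := k2_v ht ht1 c3 c2 c4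
  have hv1 : v + 1 ≠ 0 := by
    intro h
    rw [h] at hx1
    exact ht1 (by linear_combination -hx1)
  have hS := k2_T ht hx h12 R hx1 hy hn1 hn2
  have hw : g.s 1 * g.t 1 + v * g.s 2 ≠ 0 := by
    intro h
    apply hD
    apply mul_left_cancel₀ hs1
    apply mul_left_cancel₀ ht
    linear_combination g.t 1 * g.s 1 * r1 - g.t 1 * q1 + (g.s 1 - 1) * hy
      + (g.s 1 - 1) * (1 - g.lam' 0) * h
  have s11 := g.swap.row1G (k := 1) (by omega) (by omega)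
  have s12 := g.swap.row1H (k := 1) (by omega) (by omega)
  have s21 := g.swap.row1G (k := 2) (by omega) (by omega)
  have s22 := g.swap.row1H (k := 2) (by omega) (by omega)
  simp only [GForm.swap_G, GForm.swap_lam', GForm.swap_s, GForm.swap_H, GForm.swap_mu'] at s11 s12 s21 s22
  have p21 := g.row2G (k := 1) (by omega) (by omega)
  have p22 := g.row2H (k := 1) (by omega) (by omega)
  have cG : (g.t 1 - 1) * (g.G 2 1 - 1) = (1 - g.lam' 0) * (g.s 1 - 1) * (g.t 2 - 1) := by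
    linear_combination (g.t 1 - 1) * s21 + (g.t 2 - 1) * (r1 - s11)
  have cH : (g.t 1 - 1) * (g.s 1 * g.t 2 * g.H 2 1) = (g.t 1 - 1) * (g.s 1 * g.t 2)
      - g.t 1 * g.mu' 0 * (g.s 1 - 1) * (g.t 2 - 1) := by
    linear_combination (g.t 1 - 1) * g.s 1 * s22 + (g.t 2 - 1) * (g.t 1 * q1 - g.s 1 * s12)
  obtain ⟨-, hal⟩ := k2_al (al := 1 - g.lam' 1) (G11 := g.G 1 1) hu1 hx ht hx1 hy h1x h1y
    (by linear_combination r1) q1 cG (by rw [p21]; ring)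
  obtain ⟨-, hde⟩ := k2_de (de := g.mu' 1) (G11 := g.G 1 1) ht1 hu1 hx ht hT hS hw hx1 hy h1x hal
    (by linear_combination r1) q1 cH p22
  refine ⟨v, hv0, hv1, hS, hv, R, hx1, hy, by linear_combination h1x, by linear_combination h1y, ?_,
    hk', e1, hG13, hw, ?_, hde⟩
  · linear_combination (v + 1) * r2 + hx1
  · linear_combination hal + hS

/-- K2: column 2 is never closed -/
theorem k2_kap22_ne (g : GForm F m) (hm : 3 ≤ m) (hD : g.G 1 1 ≠ g.H 1 1) (h2 : g.t 2 ≠ g.s 2)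
    (hn1 : (g.s 2 * g.t 1 - g.t 2) * ((1 - g.lam' 0) - g.t 1 * g.mu' 0 + g.t 1 - 1) =
        (g.s 2 - 1) * (g.t 1 * g.t 2 * (1 - g.lam' 0) - g.t 1 * g.mu' 0))
    (hn2 : (g.t 2 * g.s 1 - g.s 2) * ((1 - g.lam' 0) - g.t 1 * g.mu' 0 + g.t 1 - 1) =
        (g.t 2 - 1) * (g.s 1 * g.s 2 * (1 - g.lam' 0) - g.t 1 * g.mu' 0))
    (hk : g.kap 1 2 = 0) : g.kap 2 2 ≠ 0 := by
  obtain ⟨v, hv0, hv1, hS, hs3, R, hx1, hy, h1x, h1y, hp, hk', e1, hG13, hw, hal, hde⟩ :=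
    k2_base g hm hD hn1 hn2 hk
  have ht := g.t_ne 1 (by omega)
  have hT := g.t_ne 2 (by omega)
  have hT1 : g.t 2 - 1 ≠ 0 := by
    rw [← g.t0]; exact sub_ne_zero.mpr (g.t_inj 0 2 (by omega) (by omega)).symm
  have h12 : g.s 1 - g.s 2 ≠ 0 := sub_ne_zero.mpr (g.s_inj 1 2 (by omega) (by omega))
  have hG12 : g.G 1 2 ≠ 0 := by
    intro h
    have h' : g.H 1 2 = 0 := by
      rw [h] at hk'
      exact (mul_eq_zero.1 hk'.symm).resolve_left ht
    exact g.ne_zero (by omega) (by omega) ⟨h, h'⟩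
  intro h
  rw [GForm.kap] at h
  have := k2_kap22 (al := 1 - g.lam' 1) (de := g.mu' 1) (p := g.G 1 2) (H12 := g.H 1 2)
    (G22 := g.G 2 2) (H22 := g.H 2 2) ht hT hS hG12 R (by linear_combination hal - hS) hde hk'.symm
    (by
      have := g.row2G (k := 2) (by omega) (by omega)
      rw [this]; ring)
    (g.row2H (k := 2) (by omega) (by omega)) h
  rcases mul_eq_zero.1 this with h3 | h3
  · rcases mul_eq_zero.1 h3 with h4 | h4
    · apply h2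
      rw [hS, sub_eq_zero.1 h4, one_mul]
    · rw [hS] at h4
      exact mul_ne_zero hv0 hT1 (by linear_combination h4)
  · exact h12 h3

/-- K2: `kap_1^(4) ≠ 0` -/
theorem k2_kap14_ne (g : GForm F m) (hm : 5 ≤ m) (hD : g.G 1 1 ≠ g.H 1 1)
    (hn1 : (g.s 2 * g.t 1 - g.t 2) * ((1 - g.lam' 0) - g.t 1 * g.mu' 0 + g.t 1 - 1) =
        (g.s 2 - 1) * (g.t 1 * g.t 2 * (1 - g.lam' 0) - g.t 1 * g.mu' 0))
    (hn2 : (g.t 2 * g.s 1 - g.s 2) * ((1 - g.lam' 0) - g.t 1 * g.mu' 0 + g.t 1 - 1) =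
        (g.t 2 - 1) * (g.s 1 * g.s 2 * (1 - g.lam' 0) - g.t 1 * g.mu' 0))
    (hk : g.kap 1 2 = 0) : g.kap 1 4 ≠ 0 := by
  obtain ⟨v, hv0, hv1, hS, hs3, R, hx1, hy, h1x, h1y, hp, hk', e1, hG13, hw, hal, hde⟩ :=
    k2_base g (by omega) hD hn1 hn2 hk
  have ht := g.t_ne 1 (by omega)
  have hs2 := g.s_ne 2 (by omega)
  have hx : 1 - g.lam' 0 ≠ 0 := sub_ne_zero.mpr (g.lam'_ne 0 (by omega)).symm
  have hT1 : g.t 2 - 1 ≠ 0 := by
    rw [← g.t0]; exact sub_ne_zero.mpr (g.t_inj 0 2 (by omega) (by omega)).symm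
  have h24 : g.s 2 ≠ g.s 4 := g.s_inj 2 4 (by omega) (by omega)
  intro h
  obtain ⟨d1, d2⟩ := Pool.Agent.Helper14.IP.deg_step g (k := 4) (by omega) h
  have h14 : g.G 1 4 = g.t 1 ^ 3 * g.H 1 4 := by
    rw [GForm.kap] at h
    apply mul_left_cancel₀ ht
    linear_combination h
  have h5 : g.t 1 ^ 4 * g.H 1 5 = g.G 1 4 := by
    rw [h14]
    linear_combination g.t 1 ^ 3 * d2
  have r3 := g.row1G (k := 3) (by omega) (by omega)
  have q3 := g.row1H (k := 3) (by omega) (by omega)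
  have r4 := g.row1G (k := 4) (by omega) (by omega)
  have q4 := g.row1H (k := 4) (by omega) (by omega)
  have r5 := g.row1G (k := 5) (by omega) (by omega)
  have q5 := g.row1H (k := 5) (by omega) (by omega)
  rw [hs3] at r3 q3
  apply h24
  refine (k2_kap14 (v := v) (x := 1 - g.lam' 0) (y := g.mu' 0) (s5 := g.s 5) (p4 := g.G 1 4)
    ht hs2 hx ?_ ?_ ?_ ?_ (by linear_combination h1y) hy ?_ (by linear_combination r4) ?_ ?_ ?_).symm
  · rw [hS]
    intro h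
    exact mul_ne_zero hv0 hT1 (by linear_combination -h)
  · exact sub_ne_zero.mpr (g.s_inj 4 5 (by omega) (by omega)).symm
  · rw [← hs3]
    exact sub_ne_zero.mpr (g.s_inj 3 4 (by omega) (by omega)).symm
  · linear_combination (1 - g.lam' 0) * h1x - g.lam' 0 * hx1
  · linear_combination g.t 1 ^ 3 * q3 + (g.t 1 * v) * (hG13 - r3)
  · rw [h14]
    linear_combination g.t 1 ^ 3 * q4
  · linear_combination r5 - d1
  · linear_combination g.t 1 ^ 4 * q5 - g.s 5 * h5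

/-- the step out of a column with `D_1^(k) = 0`: in the exceptional state the next letter is of
type 1 or `s_(k+1) = - t_2 s_k`. -/
theorem flatD (g : GForm F m) (hm : 2 ≤ m) {k : ℕ} (hk : k < m)
    (h : g.G 1 k = g.t 1 ^ k * g.H 1 k)
    (E1 : g.G 1 k * (g.t 2 - 1) = g.lam' 0 * (g.t 2 - g.t 1))
    (E2 : g.t 1 * g.G 1 k * (g.t 2 - 1) = g.t 1 ^ k * (1 - g.mu' 0) * (g.t 2 - g.t 1)) :
    g.s (k + 1) = -(g.t 2 * g.s k) ∨
      (1 - g.lam' 1) * (g.s k * g.s (k + 1) * g.t 1 ^ k) = g.mu' 1 * g.t 2 ^ k := by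
  have ht1 : g.t 1 - 1 ≠ 0 := by
    rw [← g.t0]; exact sub_ne_zero.mpr (g.t_inj 0 1 (by omega) (by omega)).symm
  have hT := g.t_ne 2 (by omega)
  have ht := g.t_ne 1 (by omega)
  have hss : g.s (k + 1) - g.s k ≠ 0 :=
    sub_ne_zero.mpr (g.s_inj k (k + 1) (by omega) (by omega)).symm
  have hp : g.G 1 k ≠ 0 := by
    intro h0
    have h' : g.H 1 k = 0 := by
      rw [h0] at h
      exact (mul_eq_zero.1 h.symm).resolve_left (pow_ne_zero _ ht)
    exact g.ne_zero (by omega) (by omega) ⟨h0, h'⟩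
  have a1 := g.row1G (k := k) (by omega) (by omega)
  have a2 := g.row1H (k := k) (by omega) (by omega)
  have a3 := g.row2G (k := k) (by omega) (by omega)
  have a4 := g.row2H (k := k) (by omega) (by omega)
  have b1 := g.row1G (k := k + 1) (by omega) (by omega)
  have b2 := g.row1H (k := k + 1) (by omega) (by omega)
  have b3 := g.row2G (k := k + 1) (by omega) (by omega)
  have b4 := g.row2H (k := k + 1) (by omega) (by omega)
  have U1 := g.U1 1 k (by omega) hk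
  have U1' := g.U2 1 k (by omega) hk
  have U2 := g.U1 2 k (by omega) hk
  have U2' := g.U2 2 k (by omega) hk
  have key := flatD_alg (s := g.s k) (s' := g.s (k + 1)) (t := g.t 1) (T := g.t 2)
    (X := g.t 1 ^ k) (Y := g.t 2 ^ k) (lam := g.lam k) (mu := g.mu k) (p := g.G 1 k)
    (p' := g.G 1 (k + 1)) (v := g.H 1 k) (v' := g.H 1 (k + 1)) (g := g.G 2 k) (g' := g.G 2 (k + 1))
    (e := g.t 2 ^ k * g.H 2 k) (e' := g.t 2 ^ k * g.H 2 (k + 1)) (be := g.lam' 1) (de := g.mu' 1)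
    (x := 1 - g.lam' 0) (y := g.mu' 0) ht1 hT hp (by linear_combination a1)
    (by linear_combination g.t 1 ^ k * a2 + g.s k * h) h.symm (by linear_combination b1) b2
    a3 (by linear_combination g.t 2 ^ k * a4) b3 (by linear_combination g.t 2 ^ k * b4)
    (by linear_combination U1 - g.lam k * h) (by linear_combination U1' - g.mu k * h)
    (by linear_combination U2) (by linear_combination U2')
    (by linear_combination E1) (by linear_combination E2)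
  rcases mul_eq_zero.1 key with h3 | h3
  · rcases mul_eq_zero.1 h3 with h4 | h4
    · exact (hss h4).elim
    · left
      linear_combination h4
  · right
    exact sub_eq_zero.1 h3

/-- K2: `s_4 = s_1 (t_2/t_1)^3` -/
theorem k2_s4 (g : GForm F m) (hm : 5 ≤ m) (hD : g.G 1 1 ≠ g.H 1 1)
    (hn1 : (g.s 2 * g.t 1 - g.t 2) * ((1 - g.lam' 0) - g.t 1 * g.mu' 0 + g.t 1 - 1) =
        (g.s 2 - 1) * (g.t 1 * g.t 2 * (1 - g.lam' 0) - g.t 1 * g.mu' 0))
    (hn2 : (g.t 2 * g.s 1 - g.s 2) * ((1 - g.lam' 0) - g.t 1 * g.mu' 0 + g.t 1 - 1) =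
        (g.t 2 - 1) * (g.s 1 * g.s 2 * (1 - g.lam' 0) - g.t 1 * g.mu' 0))
    (hk : g.kap 1 2 = 0) : g.s 4 * g.t 1 ^ 3 = g.s 1 * g.t 2 ^ 3 := by
  have h14 := k2_kap14_ne g hm hD hn1 hn2 hk
  obtain ⟨v, hv0, hv1, hS, hs3, R, hx1, hy, h1x, h1y, hp, hk', e1, hG13, hw, hal, hde⟩ :=
    k2_base g (by omega) hD hn1 hn2 hk
  have ht := g.t_ne 1 (by omega)
  have hs2 := g.s_ne 2 (by omega)
  have hs4 := g.s_ne 4 (by omega)
  have hx : 1 - g.lam' 0 ≠ 0 := sub_ne_zero.mpr (g.lam'_ne 0 (by omega)).symm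
  have ht1 : g.t 1 - 1 ≠ 0 := by
    rw [← g.t0]; exact sub_ne_zero.mpr (g.t_inj 0 1 (by omega) (by omega)).symm
  have hK : (g.s 2 - 1) * (v + 1) ≠ 0 := by
    intro h
    rw [h, mul_zero] at hx1
    exact ht1 hx1.symm
  have hE1 : g.G 1 3 * (g.t 2 - 1) = g.lam' 0 * (g.t 2 - g.t 1) := by
    apply mul_left_cancel₀ hK
    rw [e1]
    linear_combination (g.s 2 - 1) * (g.t 2 - 1) * g.t 1 * hp - (g.t 2 - g.t 1) * h1x
      - g.t 1 * (g.t 2 - 1) * R + g.t 1 * (1 - g.t 1) * hS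
  rcases flatD g (by omega) (k := 3) (by omega) hG13 hE1
    (by linear_combination g.t 1 * hE1 + g.t 1 * (g.t 2 - g.t 1) * h1y) with h | h
  · exfalso
    apply h14
    rw [GForm.kap]
    have r4 := g.row1G (k := 4) (by omega) (by omega)
    have q4 := g.row1H (k := 4) (by omega) (by omega)
    apply mul_left_cancel₀ hs4
    have h4 : g.s 4 = -(g.t 1 * g.s 2) := by
      rw [h, hs3, hS]; ring
    linear_combination g.s 4 * g.t 1 * r4 - g.t 1 ^ 4 * q4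
      + (g.t 1 * (1 - g.lam' 0) * (g.s 4 - g.t 1 * g.s 2) + g.t 1 * g.lam' 0
        - g.t 1 ^ 4 * (1 - g.mu' 0)) * h4
      - g.t 1 ^ 3 * g.s 2 * h1y - g.t 1 ^ 3 * hy
      + g.t 1 ^ 2 * g.s 2 * ((1 - g.lam' 0) * h1x - g.lam' 0 * hx1)
  · have hal0 : 1 - g.lam' 1 ≠ 0 := sub_ne_zero.mpr (g.lam'_ne 1 (by omega)).symm
    rw [hs3, hde] at h
    apply mul_left_cancel₀ (mul_ne_zero (mul_ne_zero hal0 ht) hv0)
    linear_combination h

end Pool.Agent.Helper76.IP
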