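import Pool.Agent.Helper76.IP.K2Alg

/-!
TH-P, N branch, K2: algebra of the cell (lam_2, mu_2, their duals, dg2, dh2).
-/

namespace Pool.Agent.Helper76.IP

variable {F : Type*} [Field F]

private theorem cancel {a b : F} (ha : a ≠ 0) (h : a * b = 0) : b = 0 := (mul_eq_zero.1 h).resolve_left ha

/-- K2: `lam_2` and `mu_2` in terms of `t, u = s_1, S = s_2, v` -/
theorem k2_PQ {t T u S v al de p X Y G22 H22 G23 H23 H12 H13 : F} (ht : t ≠ 0)
    (hS0 : S ≠ 0) (hS : S = v * T) (hp : p ≠ 0)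
    (R : t * (v + 1 - S) = S * (v + 1) - v)
    (hal : al * (t - 1) * (u * t + v * S) = (t + v) * (T - 1))
    (hde : de = u * t * v * al) (h12 : t * H12 = p) (h13 : t ^ 2 * H13 = p)
    (p22 : G22 = S * (al * p + (1 - al) * H12)) (q22 : S * H22 = (1 - de) * p + de * H12)
    (p23 : G23 = t * v * (al * (t * p) + (1 - al) * H13))
    (q23 : t * v * H23 = (1 - de) * (t * p) + de * H13)
    (U1 : G23 = X * (T * G22) + (1 - X) * (T ^ 2 * H22))
    (U2 : T ^ 3 * H23 = (1 - Y) * (T * G22) + Y * (T ^ 2 * H22)) :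
    X * (t * S * (v - 1) * (S - v) * (u - S)) =
      v ^ 3 * (u * t + v * S) + v ^ 2 * (t ^ 2 + t + 1) * ((S - v) * (v + t))
        - S * t * (u * t + v * S - u * ((S - v) * (v + t))) ∧
    Y * (t ^ 2 * v ^ 2 * (v - 1) * (S - v) * (u - S)) =
      S * (t * v ^ 3 * (u * t + v * S) + t * v ^ 2 * ((S - v) * (v + t))
        - S * t ^ 2 * (u * t + v * S) + S * (t ^ 2 + t + 1) * u * ((S - v) * (v + t))) := by
  obtain ⟨w, hw⟩ : ∃ w, w = u * t + v * S := ⟨_, rfl⟩
  obtain ⟨N, hNd⟩ : ∃ N, N = (S - v) * (v + t) := ⟨_, rfl⟩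
  rw [← hw] at hal ⊢
  rw [← hNd]
  have hN : al * (t - 1) * w * v = N := by
    rw [hNd]
    linear_combination v * hal - (t + v) * hS
  have e2 : t * G22 = S * p * ((t - 1) * al + 1) := by
    linear_combination t * p22 + S * (1 - al) * h12
  have e3 : t * (S * H22) = p * (t - (t - 1) * de) := by
    linear_combination t * q22 + de * h12
  have e4 : v * t * (T * G22 - T ^ 2 * H22) =
      p * (S ^ 2 * ((t - 1) * al + 1) - T * (t - (t - 1) * de)) := by
    linear_combination S * e2 - t * G22 * hS - T * e3 + T * t * H22 * hS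
  have e5 : S * N + v * S * w - t * w + u * t * N = t * (v - 1) * (S - v) * (u - S) := by
    rw [hNd, hw]
    linear_combination -(u * t + v * S) * R
  have e6 : v ^ 2 * t * w * (T * G22 - T ^ 2 * H22) = p * S * (t * (v - 1) * (S - v) * (u - S)) := by
    linear_combination v * w * e4 + v * w * p * T * (t - 1) * hde
      + (p * T * u * t * v + p * S ^ 2) * hN - p * (-w * t + u * t * N) * hS + p * S * e5
  have e7 : t * G23 = v * p * (1 + al * (t ^ 3 - 1)) := by
    linear_combination t * p23 + v * (1 - al) * h13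
  have e8 : X * (T * G22 - T ^ 2 * H22) = G23 - T ^ 2 * H22 := by
    linear_combination -U1
  have e9 : t ^ 3 * v * H23 = p * (t ^ 3 - de * (t ^ 3 - 1)) := by
    linear_combination t ^ 2 * q23 + de * h13
  have e10 : Y * (T * G22 - T ^ 2 * H22) = T * G22 - T ^ 3 * H23 := by
    linear_combination U2
  constructor
  · refine sub_eq_zero.1 (cancel hp ?_)
    linear_combination (-X) * e6 + v ^ 2 * t * w * e8 + v ^ 2 * w * e7
      - v * w * (T * e3 - T * t * H22 * hS) + p * v ^ 2 * (t ^ 2 + t + 1) * hN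
      + v * w * T * (t - 1) * p * hde + T * u * t * v * p * hN
      - p * (-w * t + u * t * N) * hS
  · refine sub_eq_zero.1 (cancel (mul_ne_zero hp (mul_ne_zero hS0 ht)) ?_)
    subst hS
    linear_combination (-Y) * t ^ 2 * v ^ 2 * e6 + v ^ 4 * t ^ 3 * w * e10
      + v ^ 4 * t ^ 2 * w * T * e2 - v ^ 3 * w * T ^ 3 * e9
      + p * v ^ 4 * T ^ 2 * t ^ 2 * hN + p * v ^ 3 * T ^ 3 * (t ^ 3 - 1) * w * hde
      + p * v ^ 3 * T ^ 3 * u * t * (t ^ 2 + t + 1) * hN

/-- K2: F1 and F2 -/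
theorem k2_F12 {t u S v X Y : F} (ht : t ≠ 0) (hSv : S - v ≠ 0)
    (R : t * (v + 1 - S) = S * (v + 1) - v)
    (hP : X * (t * S * (v - 1) * (S - v) * (u - S)) =
      v ^ 3 * (u * t + v * S) + v ^ 2 * (t ^ 2 + t + 1) * ((S - v) * (v + t))
        - S * t * (u * t + v * S - u * ((S - v) * (v + t))))
    (hQ : Y * (t ^ 2 * v ^ 2 * (v - 1) * (S - v) * (u - S)) =
      S * (t * v ^ 3 * (u * t + v * S) + t * v ^ 2 * ((S - v) * (v + t))
        - S * t ^ 2 * (u * t + v * S) + S * (t ^ 2 + t + 1) * u * ((S - v) * (v + t)))) :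
    X * (S * (v + 1 - S) ^ 2 * (v - 1) * (u - S)) =
      (v ^ 2 + S) * (v ^ 2 * (S * v + 1) - (u + v) * (v + 1 - S) ^ 2) ∧
    Y * (v ^ 2 * (S * (v + 1) - v) ^ 2 * (v - 1) * (u - S)) =
      S * (v ^ 2 + S) * (u * S * (S * v + 1) - (u + v) * (S * (v + 1) - v) ^ 2) := by
  constructor
  · refine sub_eq_zero.1 (cancel (mul_ne_zero ht hSv) ?_)
    linear_combination (v + 1 - S) ^ 2 * hP
      + (-v ^ 3 * (v + 1 - S) ^ 2
        + ((v ^ 2 * (v + 1) * (S - v) - S * u + S * u * (S - v)) * (v + 1 - S)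
          + (S * (v + 1) - v) * (v ^ 2 * (S - v))) * t
        + (v ^ 2 * (S - v)) * (v + 1 - S) * t ^ 2) * R
  · refine sub_eq_zero.1 (cancel hSv ?_)
    linear_combination (v + 1 - S) ^ 2 * hQ
      - Y * v ^ 2 * (v - 1) * (S - v) * (u - S) * (t * (v + 1 - S) + (S * (v + 1) - v)) * R
      + S * (-S * u * ((t * (v + 1 - S)) ^ 2 + t * (v + 1 - S) * (S * (v + 1) - v)
          + (S * (v + 1) - v) ^ 2)
        + (v ^ 3 * u + v ^ 2 * (S - v) - S ^ 2 * v + S * u * (S - v) * (v + 1))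
          * (t * (v + 1 - S) + (S * (v + 1) - v))
        + (v ^ 3 * (S * (v + 1) - v) + S * u * (S - v) * (v + 1)) * (v + 1 - S)) * R

/-- K2: F3 and F4 (the dual cell) -/
theorem k2_F34 {T t3 u S v x y X Y G21 H21 G31 H31 : F} (hT : T ≠ 0) (hu1 : u - 1 ≠ 0)
    (hu : u ≠ 0)
    (hS : S = v * T) (hx : x * ((S - 1) * (v + 1)) = u - 1) (hy : u * y = S * v * x)
    (a1 : G21 = 1 - x + x * T) (a2 : T * H21 = (1 - y) * T + y)
    (a3 : G31 = 1 - x + x * t3) (a4 : t3 * H31 = (1 - y) * t3 + y)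
    (V1 : G31 = X * (u * G21) + (1 - X) * (u ^ 2 * H21))
    (V2 : u ^ 3 * H31 = (1 - Y) * (u * G21) + Y * (u ^ 2 * H21)) :
    X * (u * (1 - v) * (S + v ^ 2)) =
      v * (t3 - (S * (v + 1) - v) + u * ((v + 1 - S) - v ^ 2)) ∧
    Y * ((v - 1) * (S + v ^ 2) * t3) =
      u * S * v ^ 2 + t3 * (v * (S * (v + 1) - v) - S - u * v * (v + 1 - S)) := by
  subst hS
  have b1 : X * (u * G21 - u ^ 2 * H21) = G31 - u ^ 2 * H21 := by
    linear_combination -V1
  have b2 : T * (v * ((v * T - 1) * (v + 1))) * (u * G21 - u ^ 2 * H21) =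
      T * (u * (u - 1) * (1 - v) * (v * T + v ^ 2)) := by
    linear_combination T * u * v * ((v * T - 1) * (v + 1)) * a1 + T * u * v * (T - 1) * hx
      - u ^ 2 * v * ((v * T - 1) * (v + 1)) * a2 + u * v * ((v * T - 1) * (v + 1)) * (T - 1) * hy
      + u * v ^ 2 * (v * T) * (T - 1) * hx
  have b3 : Y * (u * G21 - u ^ 2 * H21) = u * G21 - u ^ 3 * H31 := by
    linear_combination V2
  constructor
  · refine sub_eq_zero.1 (cancel (mul_ne_zero hT hu1) ?_)
    linear_combination (-X) * b2 + T * (v * ((v * T - 1) * (v + 1))) * b1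
      + T * (v * ((v * T - 1) * (v + 1))) * a3 + T * v * (t3 - 1) * hx
      - u ^ 2 * v * ((v * T - 1) * (v + 1)) * a2 + u * v * ((v * T - 1) * (v + 1)) * (T - 1) * hy
      + u * v ^ 2 * (v * T) * (T - 1) * hx
  · refine sub_eq_zero.1 (cancel (mul_ne_zero (mul_ne_zero hT hu1) hu) ?_)
    linear_combination Y * t3 * b2 - t3 * T * (v * ((v * T - 1) * (v + 1))) * b3
      - t3 * T * (v * ((v * T - 1) * (v + 1))) * u * a1 - t3 * T * v * u * (T - 1) * hx
      + T * v * ((v * T - 1) * (v + 1)) * u ^ 3 * a4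
      + T * v * ((v * T - 1) * (v + 1)) * u ^ 2 * (1 - t3) * hy
      + T * v * u ^ 2 * (1 - t3) * (v * T) * v * hx

end Pool.Agent.Helper76.IP
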