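import Pool.Agent.Helper76.IP.K2Base
import Pool.Agent.Helper54.IP.QX

/-!
TH-P, K2: the QRT difference, pure algebra.
`t = t_1, T = t_2 = t r, S = s_2 = v T, u = s_1, X = t^k, P = r^k`.
-/

namespace Pool.Agent.Helper76.IP

open Pool.Agent.Helper54.IP

variable {F : Type*} [Field F]

private theorem cancel {a b : F} (ha : a ≠ 0) (h : a * b = 0) : b = 0 :=
  (mul_eq_zero.1 h).resolve_left ha

/-- helper85's `F_k` with `X = t^k`, `P = r^k`: for `k = 1, 2, ..` -/
def k2F (t r S v u X P : F) : F :=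
  (t - 1) * S * (X * v * (v + 1 - S) - (S ^ 2 * v + S * (1 - v - v ^ 2) + v ^ 2) / P)
    + (t * X * (v ^ 2 - (v + 1 - S)) - t ^ 2 / X * (S * (v ^ 2 + v - 1) - v ^ 2)
      + (t - 1) * S * (t * P / r - v / P)) * (v + 1 - S) * u
    + (t - 1) * (P / r * (S ^ 2 + S * (v ^ 2 - v - 1) + v) - t ^ 2 / X * v * (v + 1 - S)) * u ^ 2

/-- the same before division, `w = u t + v S`, `N = (S - v)(v + t)` -/
def k2G (t r S v u X P : F) : F :=
  S * (((t - 1) * (u * t + v * S) - u * t * ((S - v) * (v + t))) * X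
      - (v * (t - 1) * (u * t + v * S) - (S - v) * (v + t)) * (u * t) / X)
    + (t - 1) * (t ^ 2 * (u * t + v * S) - u * t * (t + 1) * ((S - v) * (v + t))) * (u * P)
    - S * v * (t - 1) * (v * (u * t + v * S) + (t + 1) * ((S - v) * (v + t))) * r / P

theorem k2G_eq {t r S v u X P : F} (hr : r ≠ 0)
    (hS : S = v * (t * r)) (R : t * (v + 1 - S) = S * (v + 1) - v) :
    (v + 1 - S) * k2G t r S v u X P = S * k2F t r S v u X P := by
  have a1 : (v + 1 - S) * (t ^ 2 - (t + 1) * ((S - v) * (v + t))) =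
      v * (S ^ 2 + S * (v ^ 2 - v - 1) + v) := by
    linear_combination ((v + 1 - S) * (t + 1) + S - v + v ^ 2 - 1) * R
  have a2 : (v + 1 - S) * (v ^ 2 * S + (t + 1) * ((S - v) * (v + t))) =
      t * (S ^ 2 * v + S * (1 - v - v ^ 2) + v ^ 2) := by
    linear_combination (-(v + 1 - S) * (t + 1) + (t - S + v - v ^ 2) + (v * S + 1 - v)) * R
  have a3 : (S - v) * (v + t) = t - S + v - v ^ 2 := by
    linear_combination -R
  obtain ⟨ir, hir⟩ : ∃ ir, ir = r⁻¹ := ⟨_, rfl⟩
  obtain ⟨iX, hiX⟩ : ∃ iX, iX = X⁻¹ := ⟨_, rfl⟩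
  obtain ⟨iP, hiP⟩ : ∃ iP, iP = P⁻¹ := ⟨_, rfl⟩
  have hrr : r * ir = 1 := by rw [hir]; exact mul_inv_cancel₀ hr
  rw [k2G, k2F]
  simp only [div_eq_mul_inv]
  rw [← hir, ← hiX, ← hiP]
  have hSr : S * ir = v * t := by
    linear_combination ir * hS + v * t * hrr
  linear_combination (-(S * (v + 1 - S) * u * X * t)) * a3
    - S * (v + 1 - S) * u * t * iX * ((v - 1) * R - a3)
    + (t - 1) * P * t * u ^ 2 * a1
    - (t - 1) * P * u ^ 2 * (S ^ 2 + S * (v ^ 2 - v - 1) + v) * hSr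
    - (v + 1 - S) * (t - 1) * t * S * P * u * hSr
    - S * v * (t - 1) * r * iP * a2
    + ((v + 1 - S) * S * (t - 1) * v * u * iP
      + S * (t - 1) * iP * (S ^ 2 * v + S * (1 - v - v ^ 2) + v ^ 2)) * hS

/-- the difference of the QRT expressions of two columns joined by a type 0 step -/
theorem k2_dq {t T r S v u x y al de X P s : F} (ht : t ≠ 0)
    (hu : u ≠ 0) (hr : r ≠ 0)
    (hT : T = t * r) (hS : S = v * T) (hs : r * s = u * P)
    (hx1 : x * ((S - 1) * (v + 1)) = t - 1) (hy : t * y = S * v * x)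
    (h1x : (1 - x) * ((S - 1) * (v + 1)) = t * (v - S)) (h1y : 1 - x = t ^ 2 * (1 - y))
    (hal : al * (t - 1) * (u * t + v * S) = (t + v) * (T - 1))
    (hde : de = u * t * v * al) :
    t * ((S - 1) * (v + 1)) * (u * t + v * S) *
      (qx x y al de t T (t * X) (u * P) - qx x y al de t T X s) =
    (T - t) * (t - 1) * al * x * (S - v) * k2G t r S v u X P := by
  obtain ⟨it, hit⟩ : ∃ it, it = t⁻¹ := ⟨_, rfl⟩
  obtain ⟨iX, hiX⟩ : ∃ iX, iX = X⁻¹ := ⟨_, rfl⟩
  obtain ⟨iP, hiP⟩ : ∃ iP, iP = P⁻¹ := ⟨_, rfl⟩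
  obtain ⟨iu, hiu⟩ : ∃ iu, iu = u⁻¹ := ⟨_, rfl⟩
  have htt : t * it = 1 := by rw [hit]; exact mul_inv_cancel₀ ht
  have huu : u * iu = 1 := by rw [hiu]; exact mul_inv_cancel₀ hu
  have hsi : s⁻¹ = r * (iu * iP) := by
    have h1 : s = u * P / r := by
      rw [eq_div_iff hr, mul_comm, hs]
    rw [h1, hiu, hiP]
    field_simp
  obtain ⟨A, hA⟩ : ∃ A, A = (1 - de) * (1 - x) + de * (1 - y) := ⟨_, rfl⟩
  obtain ⟨B, hB⟩ : ∃ B, B = al * (1 - x) + (1 - al) * (1 - y) := ⟨_, rfl⟩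
  have step1 : qx x y al de t T (t * X) (u * P) - qx x y al de t T X s =
      (T - t) * (t - 1) * (x * y * (T - 1) * (al * (1 - de) * X - (1 - al) * de * iX)
        - (t - 1) * (al * x * A * (u * P) - r * de * y * B * (iu * iP))) := by
    rw [qx, qx]
    simp only [div_eq_mul_inv, mul_inv]
    rw [hsi, ← hit, ← hiX, ← hiP, ← hiu, ← hA, ← hB]
    linear_combination x * y * (T - t) * (T - 1) * (1 - al) * de * iX * htt
      + (t - 1) ^ 2 * al * x * A * (t * hs + s * hT) - (t - 1) ^ 2 * de * y * B * (iu * iP) * hT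
  obtain ⟨K, hK⟩ : ∃ K, K = (S - 1) * (v + 1) := ⟨_, rfl⟩
  obtain ⟨w, hw⟩ : ∃ w, w = u * t + v * S := ⟨_, rfl⟩
  obtain ⟨N, hN⟩ : ∃ N, N = (S - v) * (v + t) := ⟨_, rfl⟩
  rw [step1, k2G]
  simp only [div_eq_mul_inv]
  rw [← hiX, ← hiP, ← hK, ← hw, ← hN]
  rw [← hK] at hx1 h1x
  rw [← hw] at hal
  have hvT : v * (T - 1) = S - v := by rw [hS]; ring
  have hNal : v * (al * (t - 1) * w) = N := by
    rw [hal, hN]; linear_combination (t + v) * hvT
  have edN : (t - 1) * w * de = u * t * N := by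
    rw [hde]; linear_combination u * t * hNal
  have k1y : t * K * (1 - y) = v - S := by
    apply mul_left_cancel₀ ht
    linear_combination h1x - K * h1y
  have kA : t * K * A = (v - S) * (t ^ 2 - de * (t ^ 2 - 1)) := by
    rw [hA]; linear_combination (1 - de) * t * h1x + de * k1y
  have kB : t * K * B = (v - S) * (1 + al * (t ^ 2 - 1)) := by
    rw [hB]; linear_combination al * t * h1x + (1 - al) * k1y
  have t1 : t * K * w * (x * y * (T - 1) * (al * (1 - de) * X)) =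
      al * x * (S - v) * (S * (((t - 1) * w - u * t * N) * X)) := by
    linear_combination K * w * x * (T - 1) * al * (1 - de) * X * hy
      + al * x * X * S * (1 - de) * w * (x * K) * hvT
      + al * x * X * S * (1 - de) * w * (S - v) * hx1 - al * x * (S - v) * S * X * edN
  have t2 : t * K * w * (x * y * (T - 1) * ((1 - al) * de * iX)) =
      al * x * (S - v) * (S * ((v * (t - 1) * w - N) * (u * t) * iX)) := by
    rw [hde]
    linear_combination K * w * x * (T - 1) * (1 - al) * (u * t * v * al) * iX * hy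
      + al * x * iX * S * (1 - al) * w * (x * K) * (u * t * v) * hvT
      + al * x * iX * S * (1 - al) * w * (S - v) * (u * t * v) * hx1
      - al * x * (S - v) * S * iX * (u * t) * hNal
  have t3 : t * K * w * ((t - 1) * (al * x * A * (u * P))) =
      -(al * x * (S - v) * ((t - 1) * (t ^ 2 * w - u * t * (t + 1) * N) * (u * P))) := by
    linear_combination w * (t - 1) * al * x * (u * P) * kA
      - al * x * (u * P) * (v - S) * (t ^ 2 - 1) * edN
  have t4 : t * K * w * ((t - 1) * (r * de * y * B * (iu * iP))) =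
      -(al * x * (S - v) * (S * v * (t - 1) * (v * w + (t + 1) * N) * r * iP)) := by
    rw [hde]
    linear_combination t * K * w * (t - 1) * r * t * v * al * y * B * iP * huu
      + w * (t - 1) * r * t * v * al * y * iP * kB
      + (v - S) * (1 + al * (t ^ 2 - 1)) * w * (t - 1) * r * v * al * iP * hy
      + al * x * (v - S) * S * v * (t - 1) * r * iP * (t + 1) * hNal
  linear_combination (T - t) * (t - 1) * (t1 - t2 - t3 + t4)

/-- two degenerate columns 2 and 5: `t^2 + t + 1 = 0` and `s_5 = -v` -/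
theorem k2_kap15 {t S v x y s5 s6 p5 : F} (ht : t ≠ 0) (hx : x ≠ 0)
    (hvS : v - S ≠ 0) (h65 : s6 - s5 ≠ 0) (h52 : s5 - S ≠ 0) (h5 : s5 ≠ 0)
    (e2 : (t - 1) * (1 - x) = x * (t * (v - S))) (h1y : 1 - x = t ^ 2 * (1 - y))
    (hy : t * y = S * v * x)
    (r5 : p5 = 1 - x + x * s5) (q5 : s5 * p5 = t ^ 4 * ((1 - y) * s5 + y))
    (r6 : t * p5 = 1 - x + x * s6) (q6 : s6 * p5 = t ^ 5 * ((1 - y) * s6 + y)) :
    t ^ 2 + t + 1 = 0 ∧ s5 = -v := by
  have c1 : (t - 1) * p5 = x * (s6 - s5) := by linear_combination r6 - r5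
  have c3 : s5 * s6 * x = t ^ 5 * y := by
    refine sub_eq_zero.1 (cancel h65 ?_)
    linear_combination (-(s5 * s6)) * c1 + t * s6 * q5 - s5 * q6
  have h6 : s6 = t * s5 + t * (v - S) := by
    refine sub_eq_zero.1 (cancel hx ?_)
    linear_combination t * r5 - r6 + e2
  have c4 : s5 * s6 = t ^ 4 * (S * v) := by
    refine sub_eq_zero.1 (cancel hx ?_)
    linear_combination c3 + t ^ 4 * hy
  have c5 : s5 ^ 2 + (v - S) * s5 = t ^ 3 * (S * v) := by
    refine sub_eq_zero.1 (cancel ht ?_)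
    rw [h6] at c4
    linear_combination c4
  have c6 : s5 ^ 2 - (t + 1) * (t * (v - S)) * s5 = t ^ 3 * (S * v) := by
    refine sub_eq_zero.1 (cancel hx ?_)
    linear_combination q5 - s5 * r5 - t ^ 2 * s5 * h1y + t ^ 3 * hy + (t + 1) * s5 * e2
  have c7 : t ^ 2 + t + 1 = 0 := by
    refine cancel (mul_ne_zero hvS h5) ?_
    linear_combination c5 - c6
  refine ⟨c7, ?_⟩
  have c8 : (s5 - S) * (s5 + v) = 0 := by
    linear_combination c5 + (S * v) * (t - 1) * c7
  linear_combination cancel h52 c8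

end Pool.Agent.Helper76.IP
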