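import Pool.Agent.Helper54.IP.Sq
import Pool.Agent.Helper54.IP.CForm

/-!
TH-P, phase 2: closed corners of size `m = 4` from tables (not symmetric).
-/

namespace Pool.Agent.Helper76.IP

open Pool.Agent.Helper54.IP

variable {F : Type*} [Field F]

/-- a closed corner of size `m = 4` from tables -/
theorem mk4_gen {t1 t2 t3 t4 s1 s2 s3 s4 L0 L1 L2 L3 M0 M1 M2 M3 K0 K1 K2 K3 N0 N1 N2 N3 : F}
    {G11 G12 G13 G14 G21 G22 G23 G24 G31 G32 G33 G34 G41 G42 G43 G44 : F}
    {H11 H12 H13 H14 H21 H22 H23 H24 H31 H32 H33 H34 H41 H42 H43 H44 : F}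
    (z1 : t1 ≠ 0) (z2 : t2 ≠ 0) (z3 : t3 ≠ 0) (z4 : t4 ≠ 0)
    (y1 : s1 ≠ 0) (y2 : s2 ≠ 0) (y3 : s3 ≠ 0) (y4 : s4 ≠ 0)
    (d01 : 1 ≠ t1)
    (d02 : 1 ≠ t2) (d12 : t1 ≠ t2)
    (d03 : 1 ≠ t3) (d13 : t1 ≠ t3) (d23 : t2 ≠ t3)
    (d04 : 1 ≠ t4) (d14 : t1 ≠ t4) (d24 : t2 ≠ t4) (d34 : t3 ≠ t4)
    (e01 : 1 ≠ s1)
    (e02 : 1 ≠ s2) (e12 : s1 ≠ s2)
    (e03 : 1 ≠ s3) (e13 : s1 ≠ s3) (e23 : s2 ≠ s3)
    (e04 : 1 ≠ s4) (e14 : s1 ≠ s4) (e24 : s2 ≠ s4) (e34 : s3 ≠ s4)
    (l0 : L0 ≠ 0) (m0 : M0 ≠ 0) (n0 : 1 - L0 - M0 ≠ 0)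
    (l1 : L1 ≠ 0) (m1 : M1 ≠ 0) (n1 : 1 - L1 - M1 ≠ 0)
    (l2 : L2 ≠ 0) (m2 : M2 ≠ 0) (n2 : 1 - L2 - M2 ≠ 0)
    (l3 : L3 ≠ 0) (m3 : M3 ≠ 0) (n3 : 1 - L3 - M3 ≠ 0)
    (l0' : K0 ≠ 0) (m0' : N0 ≠ 0) (n0' : 1 - K0 - N0 ≠ 0)
    (l1' : K1 ≠ 0) (m1' : N1 ≠ 0) (n1' : 1 - K1 - N1 ≠ 0)
    (l2' : K2 ≠ 0) (m2' : N2 ≠ 0) (n2' : 1 - K2 - N2 ≠ 0)
    (l3' : K3 ≠ 0) (m3' : N3 ≠ 0) (n3' : 1 - K3 - N3 ≠ 0)
    (u10 : G11 = L0 * (t1) + (1 - L0) * (1))
    (w10 : t1 * H11 = (1 - M0) * (t1) + M0 * (1))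
    (u11 : G12 = L1 * (t1 * G11) + (1 - L1) * (t1 * H11))
    (w11 : t1 ^ 2 * H12 = (1 - M1) * (t1 * G11) + M1 * (t1 * H11))
    (u12 : G13 = L2 * (t1 * G12) + (1 - L2) * (t1 ^ 2 * H12))
    (w12 : t1 ^ 3 * H13 = (1 - M2) * (t1 * G12) + M2 * (t1 ^ 2 * H12))
    (u13 : G14 = L3 * (t1 * G13) + (1 - L3) * (t1 ^ 3 * H13))
    (w13 : t1 ^ 4 * H14 = (1 - M3) * (t1 * G13) + M3 * (t1 ^ 3 * H13))
    (u20 : G21 = L0 * (t2) + (1 - L0) * (1))
    (w20 : t2 * H21 = (1 - M0) * (t2) + M0 * (1))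
    (u21 : G22 = L1 * (t2 * G21) + (1 - L1) * (t2 * H21))
    (w21 : t2 ^ 2 * H22 = (1 - M1) * (t2 * G21) + M1 * (t2 * H21))
    (u22 : G23 = L2 * (t2 * G22) + (1 - L2) * (t2 ^ 2 * H22))
    (w22 : t2 ^ 3 * H23 = (1 - M2) * (t2 * G22) + M2 * (t2 ^ 2 * H22))
    (u23 : G24 = L3 * (t2 * G23) + (1 - L3) * (t2 ^ 3 * H23))
    (w23 : t2 ^ 4 * H24 = (1 - M3) * (t2 * G23) + M3 * (t2 ^ 3 * H23))
    (u30 : G31 = L0 * (t3) + (1 - L0) * (1))
    (w30 : t3 * H31 = (1 - M0) * (t3) + M0 * (1))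
    (u31 : G32 = L1 * (t3 * G31) + (1 - L1) * (t3 * H31))
    (w31 : t3 ^ 2 * H32 = (1 - M1) * (t3 * G31) + M1 * (t3 * H31))
    (u32 : G33 = L2 * (t3 * G32) + (1 - L2) * (t3 ^ 2 * H32))
    (w32 : t3 ^ 3 * H33 = (1 - M2) * (t3 * G32) + M2 * (t3 ^ 2 * H32))
    (u33 : G34 = L3 * (t3 * G33) + (1 - L3) * (t3 ^ 3 * H33))
    (w33 : t3 ^ 4 * H34 = (1 - M3) * (t3 * G33) + M3 * (t3 ^ 3 * H33))
    (u40 : G41 = L0 * (t4) + (1 - L0) * (1))
    (w40 : t4 * H41 = (1 - M0) * (t4) + M0 * (1))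
    (u41 : G42 = L1 * (t4 * G41) + (1 - L1) * (t4 * H41))
    (w41 : t4 ^ 2 * H42 = (1 - M1) * (t4 * G41) + M1 * (t4 * H41))
    (u42 : G43 = L2 * (t4 * G42) + (1 - L2) * (t4 ^ 2 * H42))
    (w42 : t4 ^ 3 * H43 = (1 - M2) * (t4 * G42) + M2 * (t4 ^ 2 * H42))
    (u43 : G44 = L3 * (t4 * G43) + (1 - L3) * (t4 ^ 3 * H43))
    (w43 : t4 ^ 4 * H44 = (1 - M3) * (t4 * G43) + M3 * (t4 ^ 3 * H43))
    (x01 : G11 = K0 * (s1) + (1 - K0) * (1))
    (v01 : s1 * H11 = (1 - N0) * (s1) + N0 * (1))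
    (x11 : G21 = K1 * (s1 * G11) + (1 - K1) * (s1 * H11))
    (v11 : s1 ^ 2 * H21 = (1 - N1) * (s1 * G11) + N1 * (s1 * H11))
    (x21 : G31 = K2 * (s1 * G21) + (1 - K2) * (s1 ^ 2 * H21))
    (v21 : s1 ^ 3 * H31 = (1 - N2) * (s1 * G21) + N2 * (s1 ^ 2 * H21))
    (x31 : G41 = K3 * (s1 * G31) + (1 - K3) * (s1 ^ 3 * H31))
    (v31 : s1 ^ 4 * H41 = (1 - N3) * (s1 * G31) + N3 * (s1 ^ 3 * H31))
    (x02 : G12 = K0 * (s2) + (1 - K0) * (1))
    (v02 : s2 * H12 = (1 - N0) * (s2) + N0 * (1))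
    (x12 : G22 = K1 * (s2 * G12) + (1 - K1) * (s2 * H12))
    (v12 : s2 ^ 2 * H22 = (1 - N1) * (s2 * G12) + N1 * (s2 * H12))
    (x22 : G32 = K2 * (s2 * G22) + (1 - K2) * (s2 ^ 2 * H22))
    (v22 : s2 ^ 3 * H32 = (1 - N2) * (s2 * G22) + N2 * (s2 ^ 2 * H22))
    (x32 : G42 = K3 * (s2 * G32) + (1 - K3) * (s2 ^ 3 * H32))
    (v32 : s2 ^ 4 * H42 = (1 - N3) * (s2 * G32) + N3 * (s2 ^ 3 * H32))
    (x03 : G13 = K0 * (s3) + (1 - K0) * (1))
    (v03 : s3 * H13 = (1 - N0) * (s3) + N0 * (1))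
    (x13 : G23 = K1 * (s3 * G13) + (1 - K1) * (s3 * H13))
    (v13 : s3 ^ 2 * H23 = (1 - N1) * (s3 * G13) + N1 * (s3 * H13))
    (x23 : G33 = K2 * (s3 * G23) + (1 - K2) * (s3 ^ 2 * H23))
    (v23 : s3 ^ 3 * H33 = (1 - N2) * (s3 * G23) + N2 * (s3 ^ 2 * H23))
    (x33 : G43 = K3 * (s3 * G33) + (1 - K3) * (s3 ^ 3 * H33))
    (v33 : s3 ^ 4 * H43 = (1 - N3) * (s3 * G33) + N3 * (s3 ^ 3 * H33))
    (x04 : G14 = K0 * (s4) + (1 - K0) * (1))
    (v04 : s4 * H14 = (1 - N0) * (s4) + N0 * (1))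
    (x14 : G24 = K1 * (s4 * G14) + (1 - K1) * (s4 * H14))
    (v14 : s4 ^ 2 * H24 = (1 - N1) * (s4 * G14) + N1 * (s4 * H14))
    (x24 : G34 = K2 * (s4 * G24) + (1 - K2) * (s4 ^ 2 * H24))
    (v24 : s4 ^ 3 * H34 = (1 - N2) * (s4 * G24) + N2 * (s4 ^ 2 * H24))
    (x34 : G44 = K3 * (s4 * G34) + (1 - K3) * (s4 ^ 3 * H34))
    (v34 : s4 ^ 4 * H44 = (1 - N3) * (s4 * G34) + N3 * (s4 ^ 3 * H34))
    (c1 : t1 * G14 = t1 ^ 4 * H14)
    (c2 : t2 * G24 = t2 ^ 4 * H24)
    (c3 : t3 * G34 = t3 ^ 4 * H34)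
    (c4 : t4 * G44 = t4 ^ 4 * H44)
    (r1 : s1 * G41 = s1 ^ 4 * H41)
    (r2 : s2 * G42 = s2 ^ 4 * H42)
    (r3 : s3 * G43 = s3 ^ 4 * H43)
    (r4 : s4 * G44 = s4 ^ 4 * H44) :
    ∃ g : GForm F 4, g.Closed ∧ g.t = sq5 1 t1 t2 t3 t4 ∧ g.s = sq5 1 s1 s2 s3 s4 ∧
      g.lam = fun k => 1 - sq4 L0 L1 L2 L3 k := by
  refine ⟨{
    t := sq5 1 t1 t2 t3 t4
    s := sq5 1 s1 s2 s3 s4
    G := sq5 (sq5 1 1 1 1 1)
      (sq5 1 G11 G12 G13 G14)
      (sq5 1 G21 G22 G23 G24)
      (sq5 1 G31 G32 G33 G34)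
      (sq5 1 G41 G42 G43 G44)
    H := sq5 (sq5 1 1 1 1 1)
      (sq5 1 H11 H12 H13 H14)
      (sq5 1 H21 H22 H23 H24)
      (sq5 1 H31 H32 H33 H34)
      (sq5 1 H41 H42 H43 H44)
    lam := fun k => 1 - sq4 L0 L1 L2 L3 k
    mu := sq4 M0 M1 M2 M3
    lam' := fun k => 1 - sq4 K0 K1 K2 K3 k
    mu' := sq4 N0 N1 N2 N3
    t0 := rfl
    s0 := rfl
    t_ne := ?_
    s_ne := ?_
    t_inj := ?_
    s_inj := ?_
    G0 := ?_
    G0' := ?_
    H0 := ?_
    H0' := ?_
    U1 := ?_
    U2 := ?_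
    V1 := ?_
    V2 := ?_
    lam_ne := ?_
    mu_ne := ?_
    lm_ne := ?_
    lam'_ne := ?_
    mu'_ne := ?_
    lm'_ne := ?_ }, ⟨?_, ?_⟩, rfl, rfl, rfl⟩
  · intro i hi
    interval_cases i
    · exact one_ne_zero
    · exact z1
    · exact z2
    · exact z3
    · exact z4
  · intro i hi
    interval_cases i
    · exact one_ne_zero
    · exact y1
    · exact y2
    · exact y3
    · exact y4
  · intro i j hij hj
    interval_cases j <;> interval_cases i
    · exact d01
    · exact d02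
    · exact d12
    · exact d03
    · exact d13
    · exact d23
    · exact d04
    · exact d14
    · exact d24
    · exact d34
  · intro i j hij hj
    interval_cases j <;> interval_cases i
    · exact e01
    · exact e02
    · exact e12
    · exact e03
    · exact e13
    · exact e23
    · exact e04
    · exact e14
    · exact e24
    · exact e34
  · intro j hj
    interval_cases j <;> rfl
  · intro j hj
    interval_cases j <;> rfl
  · intro j hj
    interval_cases j <;> rfl
  · intro j hj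
    interval_cases j <;> rfl
  · intro j k hj hk
    interval_cases j <;> interval_cases k <;> simp only [sq4, sq5]
    · ring
    · ring
    · ring
    · ring
    · linear_combination u10
    · linear_combination u11
    · linear_combination u12
    · linear_combination u13
    · linear_combination u20
    · linear_combination u21
    · linear_combination u22
    · linear_combination u23
    · linear_combination u30
    · linear_combination u31
    · linear_combination u32
    · linear_combination u33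
    · linear_combination u40
    · linear_combination u41
    · linear_combination u42
    · linear_combination u43
  · intro j k hj hk
    interval_cases j <;> interval_cases k <;> simp only [sq4, sq5]
    · ring
    · ring
    · ring
    · ring
    · linear_combination w10
    · linear_combination w11
    · linear_combination w12
    · linear_combination w13
    · linear_combination w20
    · linear_combination w21
    · linear_combination w22
    · linear_combination w23
    · linear_combination w30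
    · linear_combination w31
    · linear_combination w32
    · linear_combination w33
    · linear_combination w40
    · linear_combination w41
    · linear_combination w42
    · linear_combination w43
  · intro j k hj hk
    interval_cases j <;> interval_cases k <;> simp only [sq4, sq5]
    · ring
    · linear_combination x01
    · linear_combination x02
    · linear_combination x03
    · linear_combination x04
    · ring
    · linear_combination x11
    · linear_combination x12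
    · linear_combination x13
    · linear_combination x14
    · ring
    · linear_combination x21
    · linear_combination x22
    · linear_combination x23
    · linear_combination x24
    · ring
    · linear_combination x31
    · linear_combination x32
    · linear_combination x33
    · linear_combination x34
  · intro j k hj hk
    interval_cases j <;> interval_cases k <;> simp only [sq4, sq5]
    · ring
    · linear_combination v01
    · linear_combination v02
    · linear_combination v03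
    · linear_combination v04
    · ring
    · linear_combination v11
    · linear_combination v12
    · linear_combination v13
    · linear_combination v14
    · ring
    · linear_combination v21
    · linear_combination v22
    · linear_combination v23
    · linear_combination v24
    · ring
    · linear_combination v31
    · linear_combination v32
    · linear_combination v33
    · linear_combination v34
  · intro k hk
    interval_cases k <;> simp only [sq4] <;> intro e
    · exact l0 (by linear_combination -e)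
    · exact l1 (by linear_combination -e)
    · exact l2 (by linear_combination -e)
    · exact l3 (by linear_combination -e)
  · intro k hk
    interval_cases k <;> simp only [sq4]
    · exact m0
    · exact m1
    · exact m2
    · exact m3
  · intro k hk
    interval_cases k <;> simp only [sq4] <;> intro e
    · exact n0 (by linear_combination e)
    · exact n1 (by linear_combination e)
    · exact n2 (by linear_combination e)
    · exact n3 (by linear_combination e)
  · intro k hk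
    interval_cases k <;> simp only [sq4] <;> intro e
    · exact l0' (by linear_combination -e)
    · exact l1' (by linear_combination -e)
    · exact l2' (by linear_combination -e)
    · exact l3' (by linear_combination -e)
  · intro k hk
    interval_cases k <;> simp only [sq4]
    · exact m0'
    · exact m1'
    · exact m2'
    · exact m3'
  · intro k hk
    interval_cases k <;> simp only [sq4] <;> intro e
    · exact n0' (by linear_combination e)
    · exact n1' (by linear_combination e)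
    · exact n2' (by linear_combination e)
    · exact n3' (by linear_combination e)
  · intro j hj
    interval_cases j <;> simp only [sq5]
    · ring
    · exact c1
    · exact c2
    · exact c3
    · exact c4
  · intro j hj
    interval_cases j <;> simp only [sq5]
    · ring
    · exact r1
    · exact r2
    · exact r3
    · exact r4

end Pool.Agent.Helper76.IP
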