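import Pool.Agent.Helper54.IP.Sq

/-!
TH-P, phase 2: symmetric closed corners (`t = s`, `G`, `H` symmetric) of size `m = 5` from tables.
-/

namespace Pool.Agent.Helper76.IP

open Pool.Agent.Helper54.IP

variable {F : Type*} [Field F]

/-- a symmetric corner from one half of the relations -/
theorem mk_sym {m : ℕ} (t lam mu : ℕ → F) (G H : ℕ → ℕ → F) (t0 : t 0 = 1)
    (t_ne : ∀ i, i ≤ m → t i ≠ 0) (t_inj : ∀ i j, i < j → j ≤ m → t i ≠ t j)
    (hG : ∀ j k, j ≤ m → k ≤ m → G j k = G k j) (hH : ∀ j k, j ≤ m → k ≤ m → H j k = H k j)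
    (G0 : ∀ j, j ≤ m → G j 0 = 1) (H0 : ∀ j, j ≤ m → H j 0 = 1)
    (U1 : ∀ j k, j ≤ m → k < m →
      G j (k + 1) = (1 - lam k) * (t j * G j k) + lam k * (t j ^ k * H j k))
    (U2 : ∀ j k, j ≤ m → k < m →
      t j ^ (k + 1) * H j (k + 1) = (1 - mu k) * (t j * G j k) + mu k * (t j ^ k * H j k))
    (lam_ne : ∀ k, k < m → lam k ≠ 1) (mu_ne : ∀ k, k < m → mu k ≠ 0)
    (lm_ne : ∀ k, k < m → lam k ≠ mu k)
    (hcl : ∀ j, j ≤ m → t j * G j m = t j ^ m * H j m) :
    ∃ g : GForm F m, g.Closed ∧ g.t = t ∧ g.s = t ∧ g.lam = lam := by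
  refine ⟨{
    t := t
    s := t
    G := G
    H := H
    lam := lam
    mu := mu
    lam' := lam
    mu' := mu
    t0 := t0
    s0 := t0
    t_ne := t_ne
    s_ne := t_ne
    t_inj := t_inj
    s_inj := t_inj
    G0 := G0
    G0' := fun k hk => by rw [hG 0 k (by omega) hk, G0 k hk]
    H0 := H0
    H0' := fun k hk => by rw [hH 0 k (by omega) hk, H0 k hk]
    U1 := U1
    U2 := U2
    V1 := fun j k hj hk => by
      rw [hG (j + 1) k (by omega) hk, hG j k (by omega) hk, hH j k (by omega) hk]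
      exact U1 k j hk hj
    V2 := fun j k hj hk => by
      rw [hH (j + 1) k (by omega) hk, hG j k (by omega) hk, hH j k (by omega) hk]
      exact U2 k j hk hj
    lam_ne := lam_ne
    mu_ne := mu_ne
    lm_ne := lm_ne
    lam'_ne := lam_ne
    mu'_ne := mu_ne
    lm'_ne := lm_ne }, ⟨hcl, ?_⟩, rfl, rfl, rfl⟩
  intro k hk
  change t k * G m k = t k ^ m * H m k
  rw [hG m k le_rfl hk, hH m k le_rfl hk]
  exact hcl k hk

/-- a symmetric closed corner of size `m = 5` from tables -/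
theorem mk5_sym {t1 t2 t3 t4 t5 L0 L1 L2 L3 L4 M0 M1 M2 M3 M4 : F}
    {G11 G12 G13 G14 G15 G22 G23 G24 G25 G33 G34 G35 G44 G45 G55 : F}
    {H11 H12 H13 H14 H15 H22 H23 H24 H25 H33 H34 H35 H44 H45 H55 : F}
    (z1 : t1 ≠ 0) (z2 : t2 ≠ 0) (z3 : t3 ≠ 0) (z4 : t4 ≠ 0) (z5 : t5 ≠ 0)
    (d01 : 1 ≠ t1)
    (d02 : 1 ≠ t2) (d12 : t1 ≠ t2)
    (d03 : 1 ≠ t3) (d13 : t1 ≠ t3) (d23 : t2 ≠ t3)
    (d04 : 1 ≠ t4) (d14 : t1 ≠ t4) (d24 : t2 ≠ t4) (d34 : t3 ≠ t4)
    (d05 : 1 ≠ t5) (d15 : t1 ≠ t5) (d25 : t2 ≠ t5) (d35 : t3 ≠ t5) (d45 : t4 ≠ t5)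
    (l0 : L0 ≠ 0) (m0 : M0 ≠ 0) (n0 : 1 - L0 - M0 ≠ 0)
    (l1 : L1 ≠ 0) (m1 : M1 ≠ 0) (n1 : 1 - L1 - M1 ≠ 0)
    (l2 : L2 ≠ 0) (m2 : M2 ≠ 0) (n2 : 1 - L2 - M2 ≠ 0)
    (l3 : L3 ≠ 0) (m3 : M3 ≠ 0) (n3 : 1 - L3 - M3 ≠ 0)
    (l4 : L4 ≠ 0) (m4 : M4 ≠ 0) (n4 : 1 - L4 - M4 ≠ 0)
    (u10 : G11 = L0 * (t1) + (1 - L0) * (1))
    (w10 : t1 * H11 = (1 - M0) * (t1) + M0 * (1))
    (u11 : G12 = L1 * (t1 * G11) + (1 - L1) * (t1 * H11))
    (w11 : t1 ^ 2 * H12 = (1 - M1) * (t1 * G11) + M1 * (t1 * H11))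
    (u12 : G13 = L2 * (t1 * G12) + (1 - L2) * (t1 ^ 2 * H12))
    (w12 : t1 ^ 3 * H13 = (1 - M2) * (t1 * G12) + M2 * (t1 ^ 2 * H12))
    (u13 : G14 = L3 * (t1 * G13) + (1 - L3) * (t1 ^ 3 * H13))
    (w13 : t1 ^ 4 * H14 = (1 - M3) * (t1 * G13) + M3 * (t1 ^ 3 * H13))
    (u14 : G15 = L4 * (t1 * G14) + (1 - L4) * (t1 ^ 4 * H14))
    (w14 : t1 ^ 5 * H15 = (1 - M4) * (t1 * G14) + M4 * (t1 ^ 4 * H14))
    (u20 : G12 = L0 * (t2) + (1 - L0) * (1))
    (w20 : t2 * H12 = (1 - M0) * (t2) + M0 * (1))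
    (u21 : G22 = L1 * (t2 * G12) + (1 - L1) * (t2 * H12))
    (w21 : t2 ^ 2 * H22 = (1 - M1) * (t2 * G12) + M1 * (t2 * H12))
    (u22 : G23 = L2 * (t2 * G22) + (1 - L2) * (t2 ^ 2 * H22))
    (w22 : t2 ^ 3 * H23 = (1 - M2) * (t2 * G22) + M2 * (t2 ^ 2 * H22))
    (u23 : G24 = L3 * (t2 * G23) + (1 - L3) * (t2 ^ 3 * H23))
    (w23 : t2 ^ 4 * H24 = (1 - M3) * (t2 * G23) + M3 * (t2 ^ 3 * H23))
    (u24 : G25 = L4 * (t2 * G24) + (1 - L4) * (t2 ^ 4 * H24))
    (w24 : t2 ^ 5 * H25 = (1 - M4) * (t2 * G24) + M4 * (t2 ^ 4 * H24))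
    (u30 : G13 = L0 * (t3) + (1 - L0) * (1))
    (w30 : t3 * H13 = (1 - M0) * (t3) + M0 * (1))
    (u31 : G23 = L1 * (t3 * G13) + (1 - L1) * (t3 * H13))
    (w31 : t3 ^ 2 * H23 = (1 - M1) * (t3 * G13) + M1 * (t3 * H13))
    (u32 : G33 = L2 * (t3 * G23) + (1 - L2) * (t3 ^ 2 * H23))
    (w32 : t3 ^ 3 * H33 = (1 - M2) * (t3 * G23) + M2 * (t3 ^ 2 * H23))
    (u33 : G34 = L3 * (t3 * G33) + (1 - L3) * (t3 ^ 3 * H33))
    (w33 : t3 ^ 4 * H34 = (1 - M3) * (t3 * G33) + M3 * (t3 ^ 3 * H33))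
    (u34 : G35 = L4 * (t3 * G34) + (1 - L4) * (t3 ^ 4 * H34))
    (w34 : t3 ^ 5 * H35 = (1 - M4) * (t3 * G34) + M4 * (t3 ^ 4 * H34))
    (u40 : G14 = L0 * (t4) + (1 - L0) * (1))
    (w40 : t4 * H14 = (1 - M0) * (t4) + M0 * (1))
    (u41 : G24 = L1 * (t4 * G14) + (1 - L1) * (t4 * H14))
    (w41 : t4 ^ 2 * H24 = (1 - M1) * (t4 * G14) + M1 * (t4 * H14))
    (u42 : G34 = L2 * (t4 * G24) + (1 - L2) * (t4 ^ 2 * H24))
    (w42 : t4 ^ 3 * H34 = (1 - M2) * (t4 * G24) + M2 * (t4 ^ 2 * H24))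
    (u43 : G44 = L3 * (t4 * G34) + (1 - L3) * (t4 ^ 3 * H34))
    (w43 : t4 ^ 4 * H44 = (1 - M3) * (t4 * G34) + M3 * (t4 ^ 3 * H34))
    (u44 : G45 = L4 * (t4 * G44) + (1 - L4) * (t4 ^ 4 * H44))
    (w44 : t4 ^ 5 * H45 = (1 - M4) * (t4 * G44) + M4 * (t4 ^ 4 * H44))
    (u50 : G15 = L0 * (t5) + (1 - L0) * (1))
    (w50 : t5 * H15 = (1 - M0) * (t5) + M0 * (1))
    (u51 : G25 = L1 * (t5 * G15) + (1 - L1) * (t5 * H15))
    (w51 : t5 ^ 2 * H25 = (1 - M1) * (t5 * G15) + M1 * (t5 * H15))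
    (u52 : G35 = L2 * (t5 * G25) + (1 - L2) * (t5 ^ 2 * H25))
    (w52 : t5 ^ 3 * H35 = (1 - M2) * (t5 * G25) + M2 * (t5 ^ 2 * H25))
    (u53 : G45 = L3 * (t5 * G35) + (1 - L3) * (t5 ^ 3 * H35))
    (w53 : t5 ^ 4 * H45 = (1 - M3) * (t5 * G35) + M3 * (t5 ^ 3 * H35))
    (u54 : G55 = L4 * (t5 * G45) + (1 - L4) * (t5 ^ 4 * H45))
    (w54 : t5 ^ 5 * H55 = (1 - M4) * (t5 * G45) + M4 * (t5 ^ 4 * H45))
    (c1 : t1 * G15 = t1 ^ 5 * H15)
    (c2 : t2 * G25 = t2 ^ 5 * H25)
    (c3 : t3 * G35 = t3 ^ 5 * H35)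
    (c4 : t4 * G45 = t4 ^ 5 * H45)
    (c5 : t5 * G55 = t5 ^ 5 * H55) :
    ∃ g : GForm F 5, g.Closed ∧ g.t = sq6 1 t1 t2 t3 t4 t5 ∧ g.s = sq6 1 t1 t2 t3 t4 t5 ∧
      g.lam = fun k => 1 - sq5 L0 L1 L2 L3 L4 k := by
  refine mk_sym (m := 5) (sq6 1 t1 t2 t3 t4 t5) (fun k => 1 - sq5 L0 L1 L2 L3 L4 k) (sq5 M0 M1 M2 M3 M4)
    (sq6 (sq6 1 1 1 1 1 1)
      (sq6 1 G11 G12 G13 G14 G15)
      (sq6 1 G12 G22 G23 G24 G25)
      (sq6 1 G13 G23 G33 G34 G35)
      (sq6 1 G14 G24 G34 G44 G45)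
      (sq6 1 G15 G25 G35 G45 G55))
    (sq6 (sq6 1 1 1 1 1 1)
      (sq6 1 H11 H12 H13 H14 H15)
      (sq6 1 H12 H22 H23 H24 H25)
      (sq6 1 H13 H23 H33 H34 H35)
      (sq6 1 H14 H24 H34 H44 H45)
      (sq6 1 H15 H25 H35 H45 H55))
    rfl ?_ ?_ ?_ ?_ ?_ ?_ ?_ ?_ ?_ ?_ ?_ ?_
  · intro i hi
    interval_cases i
    · exact one_ne_zero
    · exact z1
    · exact z2
    · exact z3
    · exact z4
    · exact z5
  · intro i j hij hj
    interval_cases j <;> interval_cases i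
    · exact d01
    · exact d02
    · exact d12
    · exact d03
    · exact d13
    · exact d23
    · exact d04
    · exact d14
    · exact d24
    · exact d34
    · exact d05
    · exact d15
    · exact d25
    · exact d35
    · exact d45
  · intro j k hj hk
    interval_cases j <;> interval_cases k <;> rfl
  · intro j k hj hk
    interval_cases j <;> interval_cases k <;> rfl
  · intro j hj
    interval_cases j <;> rfl
  · intro j hj
    interval_cases j <;> rfl
  · intro j k hj hk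
    interval_cases j <;> interval_cases k <;> simp only [sq5, sq6]
    · ring
    · ring
    · ring
    · ring
    · ring
    · linear_combination u10
    · linear_combination u11
    · linear_combination u12
    · linear_combination u13
    · linear_combination u14
    · linear_combination u20
    · linear_combination u21
    · linear_combination u22
    · linear_combination u23
    · linear_combination u24
    · linear_combination u30
    · linear_combination u31
    · linear_combination u32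
    · linear_combination u33
    · linear_combination u34
    · linear_combination u40
    · linear_combination u41
    · linear_combination u42
    · linear_combination u43
    · linear_combination u44
    · linear_combination u50
    · linear_combination u51
    · linear_combination u52
    · linear_combination u53
    · linear_combination u54
  · intro j k hj hk
    interval_cases j <;> interval_cases k <;> simp only [sq5, sq6]
    · ring
    · ring
    · ring
    · ring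
    · ring
    · linear_combination w10
    · linear_combination w11
    · linear_combination w12
    · linear_combination w13
    · linear_combination w14
    · linear_combination w20
    · linear_combination w21
    · linear_combination w22
    · linear_combination w23
    · linear_combination w24
    · linear_combination w30
    · linear_combination w31
    · linear_combination w32
    · linear_combination w33
    · linear_combination w34
    · linear_combination w40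
    · linear_combination w41
    · linear_combination w42
    · linear_combination w43
    · linear_combination w44
    · linear_combination w50
    · linear_combination w51
    · linear_combination w52
    · linear_combination w53
    · linear_combination w54
  · intro k hk
    interval_cases k <;> simp only [sq5] <;> intro e
    · exact l0 (by linear_combination -e)
    · exact l1 (by linear_combination -e)
    · exact l2 (by linear_combination -e)
    · exact l3 (by linear_combination -e)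
    · exact l4 (by linear_combination -e)
  · intro k hk
    interval_cases k <;> simp only [sq5]
    · exact m0
    · exact m1
    · exact m2
    · exact m3
    · exact m4
  · intro k hk
    interval_cases k <;> simp only [sq5] <;> intro e
    · exact n0 (by linear_combination e)
    · exact n1 (by linear_combination e)
    · exact n2 (by linear_combination e)
    · exact n3 (by linear_combination e)
    · exact n4 (by linear_combination e)
  · intro j hj
    interval_cases j <;> simp only [sq6]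
    · ring
    · exact c1
    · exact c2
    · exact c3
    · exact c4
    · exact c5

end Pool.Agent.Helper76.IP
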