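import Pool.Agent.Helper16.IP.Lev3

/-!
TH-P (MP_d2f54f_al), diagonal branch, piece P4: O-state, type 0 at step 3.
`a = t_1 = s_1`, `b = t_2 = s_2`, `c = s_3`, `s_4 = b c / a`, `x = 1 - lam'_0`, `y = mu'_0`.
-/

namespace Pool.Agent.Helper76.IP

open Pool.Agent.Helper54.IP Pool.Agent.Helper16.IP

variable {F : Type*} [Field F]

/-- the determinant of the two linear relations -/
def pW (a b c : F) : F := a^3*b^3*c - a^3*b^3 - 2*a^3*b^2*c + a^3*b^2 - a^3*b*c^2 + 3*a^3*b*c - a^3*b + a^3*c^2 - a^3*c + a^2*b^3 - a^2*b^2*c^2 + a^2*b^2*c - a^2*b^2 + a^2*b*c^2 - a^2*b*c + a^2*b - a^2*c^2 + a*b^3*c - a*b^3 + a*b^2*c^2 - 3*a*b^2*c + a*b^2 - a*b*c^2 + 2*a*b*c + a*c^2 - a*c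

/-- numerator of `x` -/
def pX (a b c : F) : F := a * (a - 1) * (-a^2*b*c + a^2*c - a*b + a*c + b^3 + b^2*c - b^2 - b*c - c^2 + c)

/-- numerator of `y` -/
def pY (a b c : F) : F := (a - 1) * (a^2*b^3*c - a^2*b^3 - a^2*b^2*c - a^2*b*c^2 + a^2*b*c + a^2*c^2 + a*b^3*c - a*b^2*c^2 + b^3*c - b^2*c)

theorem pW_x {a b c x y : F} (hL : LL a b c x y = 0) (hT : TT a b c x y = 0) :
    x * pW a b c = pX a b c ∧ y * pW a b c = pY a b c := by
  rw [LL] at hL
  rw [TT] at hT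
  constructor
  · rw [pW, pX]
    linear_combination ((b^2 - c) * a^2 - (b - 1) * a^2) * hL - ((a - 1) * a * c - a * (b - 1)) * hT
  · rw [pW, pY]
    linear_combination (-(b - 1) * b * c + (b^2 - c)) * hL - ((a - 1) * b - a * (b - 1) * c) * hT

/-- the numbers of the O-state -/
theorem p4_al {a b c x y al : F} (ha1 : a - 1 ≠ 0) (hab : a + b ≠ 0)
    (hx : x * pW a b c = pX a b c) (hy : y * pW a b c = pY a b c)
    (hal : al * ((a - 1) * (a * x + y)) = (a - 1) * (y - 1) + x * (b - 1)) :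
    al * ((a - 1) * (-a^3*b*c + a^3*c + a^2*b^2*c - a^2*b*c - a^2*b + a^2*c + a*b^2*c - a*b*c^2 - a*b*c + a*c + b^2*c - b*c)) = -((b - 1) * (a - b) * (a * b - c)) := by
  apply mul_left_cancel₀ (mul_ne_zero ha1 hab)
  have e : al * ((a - 1) * (a * pX a b c + pY a b c)) =
      (a - 1) * (pY a b c - pW a b c) + pX a b c * (b - 1) := by
    rw [← hx, ← hy]
    linear_combination pW a b c * hal
  rw [pX, pY, pW] at e
  linear_combination e

/-- `W ≠ 0` -/
theorem p4_W {a b c x y : F} (ha1 : a - 1 ≠ 0) (hb1 : b - 1 ≠ 0) (hab : a - b ≠ 0)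
    (hs : a + b ≠ 0) (hc : a * b - c ≠ 0)
    (hx : x * pW a b c = pX a b c) (hy : y * pW a b c = pY a b c) : pW a b c ≠ 0 := by
  intro h
  rw [h, mul_zero] at hx hy
  have e : (a - 1) * (pY a b c - pW a b c) + pX a b c * (b - 1) =
      -((a - 1) * (b - 1) * (a - b) * (a + b) * (a * b - c)) := by
    rw [pX, pY, pW]
    ring
  rw [← hx, ← hy, h] at e
  have h2 : (a - 1) * (b - 1) * (a - b) * (a + b) * (a * b - c) ≠ 0 :=
    mul_ne_zero (mul_ne_zero (mul_ne_zero (mul_ne_zero ha1 hb1) hab) hs) hc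
  apply h2
  linear_combination e

/-- the cell `(2,4)`, first component -/
theorem p4_P {a b c al W G H G' H' g h gp hp An Ad : F} (hAl : al * Ad = An)
    (hg : W * G = g) (hh : W * (c * H) = h) (hgp : W * (a * G') = gp) (hhp : W * (b * c * H') = hp)
    (hP : (a * G - G') * (a * c ^ 2 * (al * G + (1 - al) * H) - a * b ^ 2 * G +
        a ^ 3 * b * c * al * (G - H)) =
      (a * c ^ 2 * (al * G + (1 - al) * H) - c ^ 2 * (al * G' + (1 - al) * H')) *
        (a * G - a ^ 3 * H)) :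
    An * c * (a ^ 3 * (h * (a * a * g - gp) * b * c - h * (a * b * h - hp) * a) * c -
        a * (c * (a * g * hp - b * gp * h)) * c + a ^ 3 * b * ((a * a * g - gp) * (c * g - h) * b * c)) +
      Ad * (c ^ 2 * (a * (c * (a * g * hp - b * gp * h)) + a ^ 3 * (h * (a * b * h - hp) * a)) -
        a * b ^ 2 * ((a * a * g - gp) * g * b * c * c)) = 0 := by
  rw [← hg, ← hh, ← hgp, ← hhp, ← hAl]
  linear_combination (W ^ 2 * a * b * c ^ 2 * Ad) * hP

/-- the cell `(2,4)`, second component -/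
theorem p4_Q {a b c al W G H G' H' g h gp hp An Ad : F} (hAl : al * Ad = An)
    (hg : W * G = g) (hh : W * (c * H) = h) (hgp : W * (a * G') = gp) (hhp : W * (b * c * H') = hp)
    (hQ : (a * G - a ^ 4 * H') * (a * c ^ 2 * (al * G + (1 - al) * H) - a * b ^ 2 * G +
        a ^ 3 * b * c * al * (G - H)) =
      (a * c ^ 2 * (al * G + (1 - al) * H) - a ^ 2 * b ^ 2 * G' + a ^ 4 * b * c * al * (G' - H')) *
        (a * G - a ^ 3 * H)) :
    An * (a ^ 3 * ((c * g - h) * (b * h - a * hp) * a) * c * c +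
        a ^ 3 * b * c * ((b * c * g - a ^ 3 * hp) * (c * g - h) * a -
          (a * c * g - a ^ 3 * h) * (b * c * gp - a * hp))) +
      Ad * (a ^ 3 * (h * (b * h - a * hp) * a) * c * c -
        a * b ^ 2 * ((b * c * g - a ^ 3 * hp) * g * a * c - (a * c * g - a ^ 3 * h) * gp * b * c))
      = 0 := by
  rw [← hg, ← hh, ← hgp, ← hhp, ← hAl]
  linear_combination (W ^ 2 * b * c ^ 2 * Ad) * hQ

set_option maxHeartbeats 1000000 in
/-- factorisation, first component -/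
theorem p4_fP {a b c g h gp hp An Ad : F}
    (hg : g = pW a b c - pX a b c + pX a b c * c) (hh : h = (pW a b c - pY a b c) * c + pY a b c)
    (hgp : gp = (pW a b c - pX a b c) * a + pX a b c * (b * c))
    (hhp : hp = (pW a b c - pY a b c) * (b * c) + pY a b c * a)
    (hAn : An = -((b - 1) * (a - b) * (a * b - c)))
    (hAd : Ad = (a - 1) * (-a^3*b*c + a^3*c + a^2*b^2*c - a^2*b*c - a^2*b + a^2*c + a*b^2*c - a*b*c^2 - a*b*c + a*c + b^2*c - b*c)) :
    An * c * (a ^ 3 * (h * (a * a * g - gp) * b * c - h * (a * b * h - hp) * a) * c -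
        a * (c * (a * g * hp - b * gp * h)) * c + a ^ 3 * b * ((a * a * g - gp) * (c * g - h) * b * c)) +
      Ad * (c ^ 2 * (a * (c * (a * g * hp - b * gp * h)) + a ^ 3 * (h * (a * b * h - hp) * a)) -
        a * b ^ 2 * ((a * a * g - gp) * g * b * c * c)) =
    a ^ 2 * c ^ 2 * (a - 1) * (b - 1) * (a - b) * (b - c) * (a * b - c) * pX a b c *
      (-a^3*b*c + a^3*b + a^3*c - a^2*b*c - a*b*c + b^2*c + b*c^2 - b*c) * (-a^3*b^3*c + a^3*b^3 + a^3*b^2*c^2 - a^3*b*c - a^3*c^2 - a^2*b^3*c + a^2*b^2*c^2 + a^2*b^2*c - a*b^3*c^2 + a*b^2*c^2 + a*b^2*c + a*b*c^3 - a*b*c^2 - b^3*c^2) := by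
  rw [hg, hh, hgp, hhp, hAn, hAd, pW, pX, pY]
  ring

set_option maxHeartbeats 1000000 in
/-- factorisation, second component -/
theorem p4_fQ {a b c g h gp hp An Ad : F}
    (hg : g = pW a b c - pX a b c + pX a b c * c) (hh : h = (pW a b c - pY a b c) * c + pY a b c)
    (hgp : gp = (pW a b c - pX a b c) * a + pX a b c * (b * c))
    (hhp : hp = (pW a b c - pY a b c) * (b * c) + pY a b c * a)
    (hAn : An = -((b - 1) * (a - b) * (a * b - c)))
    (hAd : Ad = (a - 1) * (-a^3*b*c + a^3*c + a^2*b^2*c - a^2*b*c - a^2*b + a^2*c + a*b^2*c - a*b*c^2 - a*b*c + a*c + b^2*c - b*c)) :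
    An * (a ^ 3 * ((c * g - h) * (b * h - a * hp) * a) * c * c +
        a ^ 3 * b * c * ((b * c * g - a ^ 3 * hp) * (c * g - h) * a -
          (a * c * g - a ^ 3 * h) * (b * c * gp - a * hp))) +
      Ad * (a ^ 3 * (h * (b * h - a * hp) * a) * c * c -
        a * b ^ 2 * ((b * c * g - a ^ 3 * hp) * g * a * c - (a * c * g - a ^ 3 * h) * gp * b * c)) =
    a ^ 4 * c * (a - 1) * (b - 1) * (a - b) * (b - c) * (a * b - c) * pY a b c *
      (-a^3*b*c + a^3*b + a^3*c - a^2*b*c - a*b*c + b^2*c + b*c^2 - b*c) * (-a^3*c - a^2*b^2*c + a^2*b^2 + a^2*b*c^2 + a^2*b*c - a^2*c + a*b*c^2 + a*b*c - a*c^2 - b^3*c - b^2*c^2 + b*c + c^3 - c^2) := by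
  rw [hg, hh, hgp, hhp, hAn, hAd, pW, pX, pY]
  ring

end Pool.Agent.Helper76.IP
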