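import Mathlib

/-!
TH-P (MP_d2f54f_al), the branch `G 1 1 = H 1 1`: pure algebra.
`a = t_1`, `b = s_1`, `t_2 = -b`, `s_2 = -a`, `s_3 = b^2 y / a`, `t_3 = a^2 y / b`.
-/

namespace Pool.Agent.Helper76.IP

variable {F : Type*} [Field F]

/-- level 3 -/
private theorem z_A {a b y P : F} (hb : b ≠ 0) (ha1 : a ≠ -1) (n32 : a ^ 2 + b ^ 2 * y ≠ 0)
    (hI : P * (b * y + a ^ 2) = a * b ^ 3 * y ^ 2 +
      b * (a + b + 2 * a * b + a ^ 2 * (1 + a) * (1 + a + b)) * y + a ^ 3)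
    (hII : P * (b ^ 2 * (a - b + 1) * y + a ^ 3 * (a * b - (a - b))) = -(a * b ^ 5 * y ^ 2) - a ^ 5 +
      b ^ 2 * (-a ^ 3 * (1 + b) + (a + b) * (1 + a) * (1 + a ^ 2) * (1 + a + a ^ 2)) * y) :
    a ^ 4 + a * b ^ 2 * y ^ 2 - (a + 1) * (a ^ 4 + a ^ 2 * b + b ^ 2) * y = 0 := by
  have h1 : b * (1 + a) * (a ^ 2 + b ^ 2 * y) *
      (a ^ 4 + a * b ^ 2 * y ^ 2 - (a + 1) * (a ^ 4 + a ^ 2 * b + b ^ 2) * y) = 0 := by
    linear_combination (-(b ^ 2 * (a - b + 1) * y + a ^ 3 * (a * b - (a - b)))) * hI +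
      (b * y + a ^ 2) * hII
  have h2 : 1 + a ≠ 0 := fun h => ha1 (by linear_combination h)
  exact (mul_eq_zero.1 h1).resolve_left (mul_ne_zero (mul_ne_zero hb h2) n32)

/-- level 4 -/
private theorem z_A' {a b y P : F} (hb : b ≠ 0) (n42 : a ^ 3 ≠ b ^ 3 * y)
    (hII : P * (b ^ 2 * (a - b + 1) * y + a ^ 3 * (a * b - (a - b))) = -(a * b ^ 5 * y ^ 2) - a ^ 5 +
      b ^ 2 * (-a ^ 3 * (1 + b) + (a + b) * (1 + a) * (1 + a ^ 2) * (1 + a + a ^ 2)) * y)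
    (hIII : P * (b ^ 3 * ((a - b) ^ 2 + a * b + (a - b) + 1) * y +
      a ^ 4 * ((a * b) ^ 2 - a * b * (a - b) + (a - b) ^ 2 + a * b)) = a * b ^ 7 * y ^ 2 + a ^ 7 +
      b ^ 3 * (-a ^ 4 * (1 + b) +
        (a + b) * (1 + a) * (1 + a ^ 2) * (1 + a + a ^ 2 + a ^ 3 + a ^ 4)) * y) :
    1 + a + a ^ 2 = 0 ∨ -a ^ 6 + (a ^ 7 + a ^ 6 + a ^ 5 - a ^ 4 * b ^ 2 + a ^ 4 * b - a ^ 3 * b ^ 2 +
      a ^ 3 * b - a ^ 2 * b ^ 3 - a * b ^ 3 - b ^ 3) * y + a * b ^ 3 * y ^ 2 = 0 := by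
  have h1 : b ^ 2 * (a ^ 3 - b ^ 3 * y) * ((1 + a + a ^ 2) * (-a ^ 6 + (a ^ 7 + a ^ 6 + a ^ 5 -
      a ^ 4 * b ^ 2 + a ^ 4 * b - a ^ 3 * b ^ 2 + a ^ 3 * b - a ^ 2 * b ^ 3 - a * b ^ 3 - b ^ 3) * y +
      a * b ^ 3 * y ^ 2)) = 0 := by
    linear_combination (-(b ^ 3 * ((a - b) ^ 2 + a * b + (a - b) + 1) * y +
      a ^ 4 * ((a * b) ^ 2 - a * b * (a - b) + (a - b) ^ 2 + a * b))) * hII +
      (b ^ 2 * (a - b + 1) * y + a ^ 3 * (a * b - (a - b))) * hIII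
  have h2 : b ^ 2 * (a ^ 3 - b ^ 3 * y) ≠ 0 := mul_ne_zero (pow_ne_zero _ hb) (sub_ne_zero.2 n42)
  exact mul_eq_zero.1 ((mul_eq_zero.1 h1).resolve_left h2)

/-- the symmetric relation -/
private theorem z_Q {a b y P : F} (ha : a ≠ 0) (hb : b ≠ 0) (hab : a ≠ b)
    (hI : P * (b * y + a ^ 2) = a * b ^ 3 * y ^ 2 +
      b * (a + b + 2 * a * b + a ^ 2 * (1 + a) * (1 + a + b)) * y + a ^ 3)
    (hI' : P * (a * y + b ^ 2) = b * a ^ 3 * y ^ 2 +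
      a * (b + a + 2 * b * a + b ^ 2 * (1 + b) * (1 + b + a)) * y + b ^ 3) :
    y = 1 ∨ a * b * (y ^ 2 + y + 1) =
      ((a + b) * (1 + a * b) + 2 * a ^ 2 + 2 * b ^ 2 + 3 * (a * b)) * y := by
  have h1 : a * b * (a - b) * ((y - 1) * (a * b * (y ^ 2 + y + 1) -
      ((a + b) * (1 + a * b) + 2 * a ^ 2 + 2 * b ^ 2 + 3 * (a * b)) * y)) = 0 := by
    linear_combination (a * y + b ^ 2) * hI - (b * y + a ^ 2) * hI'
  have h2 : a * b * (a - b) ≠ 0 := mul_ne_zero (mul_ne_zero ha hb) (sub_ne_zero.2 hab)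
  rcases mul_eq_zero.1 ((mul_eq_zero.1 h1).resolve_left h2) with h | h
  · left
    linear_combination h
  · right
    linear_combination h

/-- `y = 1` -/
private theorem z_y1 {a b : F} (ha : a ≠ 0) (hb : b ≠ 0) (ha1 : a ≠ 1) (ha1' : a ≠ -1) (hab : a ≠ b)
    (n32 : a ^ 2 + b ^ 2 ≠ 0) (n42 : a ^ 3 ≠ b ^ 3) (n50 : b ^ 4 ≠ a ^ 3) (n50' : a ^ 4 ≠ b ^ 3)
    (hA : a ^ 4 + a * b ^ 2 - (a + 1) * (a ^ 4 + a ^ 2 * b + b ^ 2) = 0)
    (hA' : b ^ 4 + b * a ^ 2 - (b + 1) * (b ^ 4 + b ^ 2 * a + a ^ 2) = 0) : False := by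
  have h1 : (a ^ 2 + b) * (a ^ 3 + b) = 0 := by linear_combination -hA
  have h2 : (b ^ 2 + a) * (b ^ 3 + a) = 0 := by linear_combination -hA'
  rcases mul_eq_zero.1 h1 with h1 | h1
  · have hb' : b = -a ^ 2 := by linear_combination h1
    subst hb'
    rcases mul_eq_zero.1 h2 with h2 | h2
    · have h3 : a * (a ^ 3 + 1) = 0 := by linear_combination h2
      have h4 : a ^ 3 + 1 = 0 := (mul_eq_zero.1 h3).resolve_left ha
      apply n42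
      linear_combination a ^ 3 * h4
    · apply n50
      have h3 : a * (1 - a ^ 5) = 0 := by linear_combination h2
      have h4 : 1 - a ^ 5 = 0 := (mul_eq_zero.1 h3).resolve_left ha
      linear_combination (-a ^ 3) * h4
  · have hb' : b = -a ^ 3 := by linear_combination h1
    subst hb'
    rcases mul_eq_zero.1 h2 with h2 | h2
    · apply n50'
      have h3 : a * (1 + a ^ 5) = 0 := by linear_combination h2
      have h4 : 1 + a ^ 5 = 0 := (mul_eq_zero.1 h3).resolve_left ha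
      linear_combination a ^ 4 * h4
    · have h3 : a * ((1 - a) * (1 + a) * ((1 + a ^ 2) * (1 + a ^ 4))) = 0 := by
        linear_combination h2
      have h4 := (mul_eq_zero.1 h3).resolve_left ha
      have h5 : (1 - a) * (1 + a) ≠ 0 := mul_ne_zero (sub_ne_zero.2 ha1.symm)
        (fun h => ha1' (by linear_combination h))
      rcases mul_eq_zero.1 ((mul_eq_zero.1 h4).resolve_left h5) with h | h
      · apply hab
        linear_combination a * h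
      · apply n32
        linear_combination a ^ 2 * h

/-- `b = -a^2`, `y ≠ 1` -/
private theorem z_e {a b y : F} (ha : a ≠ 0) (ha1 : a ≠ 1) (ha1' : a ≠ -1) (hy : y ≠ 1)
    (he : a ^ 2 + b = 0)
    (hA : a ^ 4 + a * b ^ 2 * y ^ 2 - (a + 1) * (a ^ 4 + a ^ 2 * b + b ^ 2) * y = 0)
    (hA' : b ^ 4 + b * a ^ 2 * y ^ 2 - (b + 1) * (b ^ 4 + b ^ 2 * a + a ^ 2) * y = 0)
    (hQ : a * b * (y ^ 2 + y + 1) =
      ((a + b) * (1 + a * b) + 2 * a ^ 2 + 2 * b ^ 2 + 3 * (a * b)) * y) : False := by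
  have hb' : b = -a ^ 2 := by linear_combination he
  subst hb'
  have h1 : a ^ 4 * (1 - y) * (1 - a * y) = 0 := by linear_combination hA
  have h2 : 1 - a * y = 0 := (mul_eq_zero.1 h1).resolve_left
    (mul_ne_zero (pow_ne_zero _ ha) (sub_ne_zero.2 hy.symm))
  have hy' : y = a⁻¹ := by
    field_simp
    linear_combination -h2
  subst hy'
  have p1 : a ^ 4 + 2 * a ^ 3 - 2 * a ^ 2 + 2 * a + 1 = 0 := by
    field_simp at hQ
    linear_combination (-1) * hQ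
  have p2 : a * ((1 - a) * (1 + a)) * (a ^ 6 + a ^ 5 + 2 * a ^ 3 + a + 1) = 0 := by
    field_simp at hA'
    linear_combination (-1) * hA'
  have h5 : a * ((1 - a) * (1 + a)) ≠ 0 := mul_ne_zero ha (mul_ne_zero (sub_ne_zero.2 ha1.symm)
    (fun h => ha1' (by linear_combination h)))
  have p3 := (mul_eq_zero.1 p2).resolve_left h5
  have p4 : a * ((a ^ 2 + 1) * (a ^ 2 - a + 1)) = 0 := by
    linear_combination (a ^ 2 + 1) * p1 - p3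
  rcases mul_eq_zero.1 ((mul_eq_zero.1 p4).resolve_left ha) with h | h
  · have h4 : (4 : F) = 0 := by linear_combination p1 - (a ^ 2 + 2 * a - 3) * h
    have h6 : (a - 1) ^ 4 = 0 := by
      linear_combination (a ^ 2 - 4 * a + 5) * h - h4
    exact ha1 (sub_eq_zero.1 (pow_eq_zero_iff (by norm_num) |>.1 h6))
  · have h6 : a ^ 2 = 0 := by
      linear_combination (a ^ 2 + 3 * a + 1) * h - p1
    exact ha (pow_eq_zero_iff (by norm_num) |>.1 h6)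

/-- both `a`, `b` primitive cube roots of unity -/
private theorem z_om2 {a b y : F} (hab : a ≠ b) (ha1 : a ≠ 1) (hy : y ≠ 1)
    (h1 : 1 + a + a ^ 2 = 0) (h2 : 1 + b + b ^ 2 = 0)
    (hA : a ^ 4 + a * b ^ 2 * y ^ 2 - (a + 1) * (a ^ 4 + a ^ 2 * b + b ^ 2) * y = 0)
    (hA' : b ^ 4 + b * a ^ 2 * y ^ 2 - (b + 1) * (b ^ 4 + b ^ 2 * a + a ^ 2) * y = 0) : False := by
  have h3 : (a - b) * (1 + a + b) = 0 := by linear_combination h1 - h2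
  have h4 := (mul_eq_zero.1 h3).resolve_left (sub_ne_zero.2 hab)
  have hb' : b = -1 - a := by linear_combination h4
  subst hb'
  have c3 : a ^ 3 = 1 := by linear_combination (a - 1) * h1
  have c0 : a ≠ 0 := by
    rintro rfl
    norm_num at h1
  have e1 : a + a ^ 2 * y ^ 2 + 3 * y = 0 := by
    linear_combination hA - (-a^3*y +a^2*y +a^2 +a*y^2 +a*y -a -4*y) * h1
  have e2 : a ^ 2 + a * y ^ 2 + 3 * y = 0 := by
    linear_combination hA' - (a^3*y +4*a^2*y +a^2 -a*y^2 +4*a*y +3*a -3*y +1) * h1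
  have e3 : a * (a - 1) * ((y - 1) * (y + 1)) = 0 := by linear_combination e1 - e2
  have e4 := (mul_eq_zero.1 ((mul_eq_zero.1 e3).resolve_left
    (mul_ne_zero c0 (sub_ne_zero.2 ha1)))).resolve_left (sub_ne_zero.2 hy)
  have hy' : y = -1 := by linear_combination e4
  subst hy'
  apply hy
  have h5 : (4 : F) = 0 := by linear_combination h1 - e1
  have h6 : (2 : F) = 0 := by
    have : (2 : F) ^ 2 = 0 := by linear_combination h5
    exact pow_eq_zero_iff (by norm_num) |>.1 this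
  linear_combination -h6

/-- `y` eliminated from the level 3 relation -/
private theorem z_f {a b y : F} (ha : a ≠ 0) (hs : a + b ≠ 0)
    (hA : a ^ 4 + a * b ^ 2 * y ^ 2 - (a + 1) * (a ^ 4 + a ^ 2 * b + b ^ 2) * y = 0)
    (hL : a * b ^ 2 * y = b ^ 2 * (1 + a + a ^ 2) + a ^ 3 * (b - 1)) :
    -a ^ 5 * b + a ^ 5 - 2 * a ^ 4 * b + a ^ 4 - 2 * a ^ 3 * b + a ^ 3 + a ^ 2 * b ^ 3 -
      2 * a ^ 2 * b ^ 2 + a * b ^ 3 - 2 * a * b ^ 2 + b ^ 3 - b ^ 2 = 0 := by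
  have h1 : (a ^ 2 * (a + b)) * (-a ^ 5 * b + a ^ 5 - 2 * a ^ 4 * b + a ^ 4 - 2 * a ^ 3 * b + a ^ 3 +
      a ^ 2 * b ^ 3 - 2 * a ^ 2 * b ^ 2 + a * b ^ 3 - 2 * a * b ^ 2 + b ^ 3 - b ^ 2) = 0 := by
    linear_combination (a * b ^ 2) * hA - (a * b ^ 2 * y + (b ^ 2 * (1 + a + a ^ 2) + a ^ 3 * (b - 1)) -
      (a + 1) * (a ^ 4 + a ^ 2 * b + b ^ 2)) * hL
  exact (mul_eq_zero.1 h1).resolve_left (mul_ne_zero (pow_ne_zero _ ha) hs)

/-- `a` a primitive cube root of unity, the other strip generic -/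
private theorem z_om {a b y : F} (hb : b ≠ 0) (hs : a + b ≠ 0) (h1 : 1 + a + a ^ 2 = 0)
    (hA : a ^ 4 + a * b ^ 2 * y ^ 2 - (a + 1) * (a ^ 4 + a ^ 2 * b + b ^ 2) * y = 0)
    (hA' : b ^ 4 + b * a ^ 2 * y ^ 2 - (b + 1) * (b ^ 4 + b ^ 2 * a + a ^ 2) * y = 0)
    (hL : b * a ^ 2 * y = a ^ 2 * (1 + b + b ^ 2) + b ^ 3 * (a - 1)) : False := by
  have f0 := z_f hb (by rwa [add_comm]) hA' hL
  have f1 : b * (a ^ 8 * b + a * b * (a ^ 2 * (1 + b + b ^ 2) + b ^ 3 * (a - 1)) ^ 2 -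
      a ^ 2 * (a + 1) * (a ^ 4 + a ^ 2 * b + b ^ 2) *
        (a ^ 2 * (1 + b + b ^ 2) + b ^ 3 * (a - 1))) = 0 := by
    linear_combination (a ^ 2 * b) ^ 2 * hA - (a * b ^ 2 * (b * a ^ 2 * y +
      (a ^ 2 * (1 + b + b ^ 2) + b ^ 3 * (a - 1))) -
      (a + 1) * (a ^ 4 + a ^ 2 * b + b ^ 2) * (a ^ 2 * b)) * hL
  have f2 := (mul_eq_zero.1 f1).resolve_left hb
  have f3 : 3*a*b^7 +2*a*b^6 -a*b^5 +a*b^4 -3*a*b^3 -2*a*b^2 -2*a*b +a +3*b^7 -2*b^6 -4*b^5 -4*b^4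
      -b^3 -2*b^2 -3*b = 0 := by
    linear_combination f2 - (-a^7*b^2 -a^7*b -a^7 -a^6*b^3 +a^6*b -a^5*b +a^5 -a^4*b^4 +a^4*b^3
      -a^4*b^2 -a^4*b -a^4 +a^3*b^5 +2*a^3*b^4 +a^3*b^3 +2*a^3*b^2 +3*a^3*b +2*a^2*b^6 +a^2*b^4
      -3*a^2*b^3 -2*a^2*b^2 -2*a^2*b +a^2 +a*b^7 -4*a*b^6 -3*a*b^5 -5*a*b^4 +2*a*b^3 -a*b -a -3*b^7
      +2*b^6 +4*b^5 +4*b^4 +b^3 +2*b^2 +3*b) * h1
  have f4 : -a*b^5 -2*a*b^4 -2*a*b^3 +2*a*b^2 +2*a*b +a +b^5 +b^4 +b^3 +3*b^2 +3*b +2 = 0 := by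
    linear_combination f0 - (a*b^2 +a*b +a -3*b^2 -3*b -2) * h1
  have f5 : (1 : F) = 0 := by
    linear_combination (26*a*b^4 +36*a*b^3 +18*a*b^2 -27*a*b +17*a -5*b^4 +20*b^3 +2*b^2 -43*b -22) * f3
      + (36*a*b^6 +7*a*b^5 +27*a*b^4 +41*a*b^3 -61*a*b^2 +2*a*b +20*a +57*b^6 -46*b^5 -10*b^4 -14*b^3
        +2*b^2 -71*b +19) * f4
      - (42*b^11 +81*b^10 -13*b^9 -92*b^8 -52*b^7 +61*b^6 +19*b^5 -41*b^4 -114*b^3 +21*b^2 -19*b +37) * h1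
  exact one_ne_zero f5

/-- the generic case -/
private theorem z_gen {a b y : F} (ha : a ≠ 0) (hb : b ≠ 0) (hs : a + b ≠ 0) (hab : a ≠ b)
    (hA : a ^ 4 + a * b ^ 2 * y ^ 2 - (a + 1) * (a ^ 4 + a ^ 2 * b + b ^ 2) * y = 0)
    (hA' : b ^ 4 + b * a ^ 2 * y ^ 2 - (b + 1) * (b ^ 4 + b ^ 2 * a + a ^ 2) * y = 0)
    (hL : a * b ^ 2 * y = b ^ 2 * (1 + a + a ^ 2) + a ^ 3 * (b - 1))
    (hL' : b * a ^ 2 * y = a ^ 2 * (1 + b + b ^ 2) + b ^ 3 * (a - 1))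
    (hQ : a * b * (y ^ 2 + y + 1) =
      ((a + b) * (1 + a * b) + 2 * a ^ 2 + 2 * b ^ 2 + 3 * (a * b)) * y) : False := by
  have f0 := z_f ha hs hA hL
  have f0' := z_f hb (by rwa [add_comm]) hA' hL'
  have hd : a - b ≠ 0 := sub_ne_zero.2 hab
  obtain ⟨s, hs'⟩ : ∃ s, s = a + b := ⟨_, rfl⟩
  obtain ⟨q, hq⟩ : ∃ q, q = a * b := ⟨_, rfl⟩
  have s0 : s ≠ 0 := by rwa [hs']
  have q0 : q ≠ 0 := by
    rw [hq]
    exact mul_ne_zero ha hb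
  have e1 : q * (s ^ 2 + 2 * s - 1) - s ^ 3 = 0 := by
    have h : (a - b) * (q * (s ^ 2 + 2 * s - 1) - s ^ 3) = 0 := by
      rw [hs', hq]
      linear_combination b * hL' - a * hL
    exact (mul_eq_zero.1 h).resolve_left hd
  have e2 : q * y - s * (1 + s - q) = 0 := by
    have h : (q * (a - b)) * (q * y - s * (1 + s - q)) = 0 := by
      rw [hs', hq]
      linear_combination a * b * hL' - b * a * hL
    exact (mul_eq_zero.1 h).resolve_left (mul_ne_zero q0 hd)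
  have d0 : s ^ 2 + 2 * s - 1 ≠ 0 := by
    intro h
    rw [h] at e1
    apply s0
    have : s ^ 3 = 0 := by linear_combination -e1
    exact pow_eq_zero_iff (by norm_num) |>.1 this
  -- the symmetric relation
  have eQ : (s*(1+s-q))^2 + (q - (s*(1+q)+2*s^2-q)) * (s*(1+s-q)) + q^2 = 0 := by
    have hQ' : q * (y ^ 2 + y + 1) = (s*(1+q)+2*s^2-q) * y := by
      rw [hs', hq]
      linear_combination hQ
    linear_combination q * hQ' - (q * y + s * (1 + s - q) + q - (s*(1+q)+2*s^2-q)) * e2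
  have Q1 : -9*s^4 - 2*s^3 + 6*s^2 + s - 1 = 0 := by
    have h : s ^ 3 * (-9*s^4 - 2*s^3 + 6*s^2 + s - 1) = 0 := by
      linear_combination (s ^ 2 + 2 * s - 1) ^ 2 * eQ - (s^5 +2*s^4*q -4*s^4 +2*s^3*q +4*s^3
        -5*s^2*q +4*s^2 +4*s*q -2*s -q) * e1
    exact (mul_eq_zero.1 h).resolve_left (pow_ne_zero _ s0)
  have eh1 : -q*s^3 + 2*q^2*s + s^4 - 5*q*s^2 + 2*q^2 + s^3 - 5*q*s + 2*q + s = 0 := by
    have h : (a - b) * (-q*s^3 + 2*q^2*s + s^4 - 5*q*s^2 + 2*q^2 + s^3 - 5*q*s + 2*q + s) = 0 := by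
      rw [hs', hq]
      linear_combination f0 - f0'
    exact (mul_eq_zero.1 h).resolve_left hd
  have k1 : -6*s^5 - 4*s^4 + 10*s^3 + s^2 - 4*s + 1 = 0 := by
    have h : s * (-6*s^5 - 4*s^4 + 10*s^3 + s^2 - 4*s + 1) = 0 := by
      linear_combination (s ^ 2 + 2 * s - 1) ^ 2 * eh1 - (-s^5 -5*s^4 +2*s^3*q -12*s^3 +6*s^2*q
        -3*s^2 +2*s*q +9*s -2*q -2) * e1
    exact (mul_eq_zero.1 h).resolve_left s0
  have k2 : -2*s^6 - 26*s^5 - 15*s^4 + 22*s^3 + 4*s^2 - 6*s + 1 = 0 := by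
    have h : s ^ 2 * (-2*s^6 - 26*s^5 - 15*s^4 + 22*s^3 + 4*s^2 - 6*s + 1) = 0 := by
      have h2 : s^5 -s^4*q +s^4 -7*s^3*q +2*s^3 +4*s^2*q^2 -5*s^2*q -s^2 +12*s*q^2 -8*s*q -2*q^3 +2*q = 0 := by
        rw [hs', hq]
        linear_combination f0 + f0'
      linear_combination (s ^ 2 + 2 * s - 1) ^ 3 * h2 - (-s^8 -7*s^7 +4*s^6*q -17*s^6 +26*s^5*q
        -18*s^5 -2*s^4*q^2 +52*s^4*q -25*s^4 -8*s^3*q^2 +10*s^3*q +5*s^3 -4*s^2*q^2 -44*s^2*q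
        +31*s^2 +8*s*q^2 +12*s*q -16*s -2*q^2 +2) * e1
    exact (mul_eq_zero.1 h).resolve_left (pow_ne_zero _ s0)
  have c1 : (317 : F) = 0 := by
    linear_combination (17802*s^4 +17904*s^3 -23468*s^2 -11275*s +7510) * Q1 +
      (-26703*s^3 -14988*s^2 +12523*s +7827) * k1
  have c2 : (18761 : F) = 0 := by
    linear_combination (-1357222*s^5 -18195518*s^4 -17560457*s^3 +7971994*s^2 +6016252*s
      -1740702) * Q1 + (6107499*s^3 +3839566*s^2 -2574692*s -1721941) * k2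
  have c3 : (1 : F) = 0 := by linear_combination (-4853) * c1 + (82) * c2
  exact one_ne_zero c3

/-- **the algebraic contradiction** -/
theorem z1_alg {a b y P : F} (ha : a ≠ 0) (hb : b ≠ 0) (hy0 : y ≠ 0) (ha1 : a ≠ 1) (hb1 : b ≠ 1)
    (ha1' : a ≠ -1) (hb1' : b ≠ -1) (hab : a ≠ b) (hs : a + b ≠ 0)
    (n32 : a ^ 2 + b ^ 2 * y ≠ 0) (n32' : b ^ 2 + a ^ 2 * y ≠ 0)
    (n42 : a ^ 3 ≠ b ^ 3 * y) (n42' : b ^ 3 ≠ a ^ 3 * y)
    (n50 : b ^ 4 * y ≠ a ^ 3) (n50' : a ^ 4 * y ≠ b ^ 3)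
    (hI : P * (b * y + a ^ 2) = a * b ^ 3 * y ^ 2 +
      b * (a + b + 2 * a * b + a ^ 2 * (1 + a) * (1 + a + b)) * y + a ^ 3)
    (hI' : P * (a * y + b ^ 2) = b * a ^ 3 * y ^ 2 +
      a * (b + a + 2 * b * a + b ^ 2 * (1 + b) * (1 + b + a)) * y + b ^ 3)
    (hII : P * (b ^ 2 * (a - b + 1) * y + a ^ 3 * (a * b - (a - b))) = -(a * b ^ 5 * y ^ 2) - a ^ 5 +
      b ^ 2 * (-a ^ 3 * (1 + b) + (a + b) * (1 + a) * (1 + a ^ 2) * (1 + a + a ^ 2)) * y)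
    (hII' : P * (a ^ 2 * (b - a + 1) * y + b ^ 3 * (b * a - (b - a))) = -(b * a ^ 5 * y ^ 2) - b ^ 5 +
      a ^ 2 * (-b ^ 3 * (1 + a) + (b + a) * (1 + b) * (1 + b ^ 2) * (1 + b + b ^ 2)) * y)
    (hIII : P * (b ^ 3 * ((a - b) ^ 2 + a * b + (a - b) + 1) * y +
      a ^ 4 * ((a * b) ^ 2 - a * b * (a - b) + (a - b) ^ 2 + a * b)) = a * b ^ 7 * y ^ 2 + a ^ 7 +
      b ^ 3 * (-a ^ 4 * (1 + b) +
        (a + b) * (1 + a) * (1 + a ^ 2) * (1 + a + a ^ 2 + a ^ 3 + a ^ 4)) * y)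
    (hIII' : P * (a ^ 3 * ((b - a) ^ 2 + b * a + (b - a) + 1) * y +
      b ^ 4 * ((b * a) ^ 2 - b * a * (b - a) + (b - a) ^ 2 + b * a)) = b * a ^ 7 * y ^ 2 + b ^ 7 +
      a ^ 3 * (-b ^ 4 * (1 + a) +
        (b + a) * (1 + b) * (1 + b ^ 2) * (1 + b + b ^ 2 + b ^ 3 + b ^ 4)) * y) : False := by
  have hA := z_A hb ha1' n32 hI hII
  have hA' := z_A ha hb1' n32' hI' hII'
  have hB := z_A' hb n42 hII hIII
  have hB' := z_A' ha n42' hII' hIII'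
  rcases z_Q ha hb hab hI hI' with hy | hQ
  · subst hy
    refine z_y1 ha hb ha1 ha1' hab ?_ ?_ ?_ ?_ ?_ ?_
    · simpa using n32
    · simpa using n42
    · simpa using n50
    · simpa using n50'
    · linear_combination hA
    · linear_combination hA'
  by_cases hy : y = 1
  · subst hy
    refine z_y1 ha hb ha1 ha1' hab ?_ ?_ ?_ ?_ ?_ ?_
    · simpa using n32
    · simpa using n42
    · simpa using n50
    · simpa using n50'
    · linear_combination hA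
    · linear_combination hA'
  have hQ' : b * a * (y ^ 2 + y + 1) =
      ((b + a) * (1 + b * a) + 2 * b ^ 2 + 2 * a ^ 2 + 3 * (b * a)) * y := by
    linear_combination hQ
  have he : a ^ 2 + b ≠ 0 := fun he => z_e ha ha1 ha1' hy he hA hA' hQ
  have he' : b ^ 2 + a ≠ 0 := fun he => z_e hb hb1 hb1' hy he hA' hA hQ'
  have hs' : b + a ≠ 0 := by rwa [add_comm]
  have key : ∀ {a b : F}, a ^ 2 + b ≠ 0 →
      a ^ 4 + a * b ^ 2 * y ^ 2 - (a + 1) * (a ^ 4 + a ^ 2 * b + b ^ 2) * y = 0 →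
      -a ^ 6 + (a ^ 7 + a ^ 6 + a ^ 5 - a ^ 4 * b ^ 2 + a ^ 4 * b - a ^ 3 * b ^ 2 +
        a ^ 3 * b - a ^ 2 * b ^ 3 - a * b ^ 3 - b ^ 3) * y + a * b ^ 3 * y ^ 2 = 0 →
      a * b ^ 2 * y = b ^ 2 * (1 + a + a ^ 2) + a ^ 3 * (b - 1) := by
    intro a b he hA hB
    have h : y * (a ^ 2 + b) * (a * b ^ 2 * y - (b ^ 2 * (1 + a + a ^ 2) + a ^ 3 * (b - 1))) = 0 := by
      linear_combination a ^ 2 * hA + hB
    exact sub_eq_zero.1 ((mul_eq_zero.1 h).resolve_left (mul_ne_zero hy0 he))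
  rcases hB with hB | hB
  · rcases hB' with hB' | hB'
    · exact z_om2 hab ha1 hy hB hB' hA hA'
    · exact z_om hb hs hB hA hA' (key he' hA' hB')
  · rcases hB' with hB' | hB'
    · exact z_om ha hs' hB' hA' hA (key he hA hB)
    · exact z_gen ha hb hs hab hA hA' (key he hA hB) (key he' hA' hB') hQ

end Pool.Agent.Helper76.IP
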