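import Pool.Agent.Helper54.IP.CForm
import Pool.Agent.Helper76.IP.Z1

/-!
TH-P phase 2: closed corners of type Z (`G 1 1 = H 1 1`): the reversal is not of type Z (`m ≥ 4`).
Also the degenerate columns of the reversal.
-/

namespace Pool.Agent.Helper76.IP

open Pool.Agent.Helper54.IP

variable {F : Type*} [Field F] {m : ℕ}

/-- `D_j^(κ) = 0` in `g` iff `kap_j^(k) = 0` in the reversal, `k + κ = m` -/
theorem rev_kap_iff (g : GForm F m) (h : g.Closed) {j k κ : ℕ} (hj : j ≤ m) (hk : k + κ = m) :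
    (g.rev h).kap j k = 0 ↔ g.D j κ = 0 := by
  have n1 := g.t_ne j hj
  have n2 := h.G_ne hj
  have n3 := h.H_ne hj
  have h1 := h.row j hj
  have e1 : m - k = κ := by omega
  have e2 : g.t j ^ m = g.t j ^ k * g.t j ^ κ := by
    have : ∀ n, k + κ = n → g.t j ^ n = g.t j ^ k * g.t j ^ κ := by
      rintro n rfl
      rw [pow_add]
    exact this m hk
  rw [e2] at h1
  have p1 := pow_ne_zero k n1
  have p2 := pow_ne_zero κ n1
  rw [GForm.kap, GForm.D]
  simp only [GForm.rev_t, GForm.rev_G, GForm.rev_H, e1, inv_pow]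
  have key : (g.t j)⁻¹ * (g.G j κ / g.G j m) - (g.t j ^ k)⁻¹ * (g.H j κ / g.H j m) =
      (g.G j κ - g.t j ^ κ * g.H j κ) / (g.t j * g.G j m) := by
    have e3 : g.G j m = g.t j ^ k * g.t j ^ κ * g.H j m / g.t j := by
      rw [eq_div_iff n1, mul_comm]
      exact h1
    rw [e3]
    field_simp
  rw [key, div_eq_zero_iff]
  constructor
  · rintro (h | h)
    · exact h
    · exact absurd h (mul_ne_zero n1 n2)
  · intro h
    left
    exact h

/-- `kap_j^(k) = 0` in the reversal iff `kap_j^(κ) = 0` in `g`, `k + κ + 1 = m` -/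
theorem rev_kap_iff' (g : GForm F m) (h : g.Closed) {j k κ : ℕ} (hj : j ≤ m)
    (hk : k + κ + 1 = m) : (g.rev h).kap j k = 0 ↔ g.kap j κ = 0 := by
  rw [rev_kap_iff g h hj (κ := κ + 1) (by omega), g.D_succ hj (by omega)]
  constructor
  · intro e
    exact (mul_eq_zero.1 e).resolve_left (fun e => g.lm_ne κ (by omega) (sub_eq_zero.1 e).symm)
  · intro e
    rw [e, mul_zero]

/-- type Z: the reversal is not of type Z -/
theorem z_rev_ne (g : GForm F m) (hc : g.Closed) (hm : 4 ≤ m) (h : g.G 1 1 = g.H 1 1) :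
    (g.rev hc).G 1 1 ≠ (g.rev hc).H 1 1 := by
  intro e
  have h1 : (g.rev hc).kap 1 1 = 0 := by
    rw [GForm.kap, e, pow_one, sub_self]
  obtain ⟨κ, hκ⟩ : ∃ κ, 1 + κ + 1 = m := ⟨m - 2, by omega⟩
  have h2 := (rev_kap_iff' g hc (by omega) hκ).1 h1
  exact (z1_bas g (by omega) h).kap_ne (by omega) (by omega) h2

end Pool.Agent.Helper76.IP
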